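import Mathlib

/-! # VSB/AmalAbs: two abstract lemmas on amalgams of two subgroups

`Γ` a group, `K false`, `K true` subgroups, `D` a subgroup of both.

* `amalgam_injective`. Let `x : Monoid.PushoutI _` with `lift x = 1`. Take a transversal `d`
(`Monoid.PushoutI.NormalWord.transversal_nonempty`, the inclusions are injective) and the normal word
`w = Monoid.PushoutI.NormalWord.equiv x`, `w.prod = x` : `w.prod = base w.head * ofCoprodI w.toWord.prod`. If
`w.toList = []` then `x = base w.head` and `lift x = w.head = 1`, so `x = 1`. Otherwise let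
`⟨i, g⟩ :: rest = w.toList` and consider `L = (i, w.head * g) :: rest.map (fun s => (s.1, (s.2 : Γ)))`; its product is `lift x = 1`.
Consecutive types are different (`w.chain_ne`); the letters are not in `D`: if `⟨j, g⟩ ∈ w.toList` and `(g : Γ) ∈ D`, then
`g` is in the range of the inclusion and in the transversal set (`w.normalized`), which meets the range only in `1`
(`d.compl`, `d.one_mem`; compare `NormalWord.eq_one_of_smul_normalized`, or the proof of
`Reduced.eq_empty_of_mem_range`), but `g ≠ 1` (`w.ne_one`). Hypothesis `h` gives a contradiction.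
(Alternatively use `Monoid.PushoutI.Reduced` and `Monoid.CoprodI.Word`.)

* `conj_cases`. Every element of `K false ⊔ K true` is a product of a list `L : List (Bool × Γ)` with `s.2 ∈ K s.1` for all
`s ∈ L` (`Subgroup.sup_eq_closure_mul`, or `Subgroup.closure_induction` on the union; closed under products by `++`
and inverses by reversing). Among all `h ∈ K false ⊔ K true` and all such lists with `(L.map Prod.snd).prod = h⁻¹ * g * h` choose
one with `L.length` minimal (`Nat.find`). If `L = []`, `h⁻¹ * g * h = 1 ∈ K false`. If `L = [s]`, it is in `K s.1`. Let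
`L.length ≥ 2`. Then: (1) consecutive types are different, otherwise multiply the two letters and shorten;
(2) no letter is in `D`, otherwise multiply it into a neighbour (`D ≤ K b`) and shorten; (3) the types of the first and
the last letter are different, otherwise conjugate by the first letter `s` (it is in `K false ⊔ K true`; replace `h` by
`h * s.2`): the word becomes `L.tail ++ [s]`, whose last two letters have the same type, shorten. Useful:
`List.isChain_iff_getElem` or split `L = A ++ s :: s' :: B`. -/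

set_option autoImplicit false

namespace Pool.Agent.VSB.M

theorem amalgam_injective_aux {Γ : Type*} [Group Γ] (K : Bool → Subgroup Γ) (D : Subgroup Γ)
    (hD : ∀ b, D ≤ K b)
    (F : Monoid.PushoutI (fun b => Subgroup.inclusion (hD b)) →* Γ)
    (hFof : ∀ (i : Bool) (g : K i),
      F (Monoid.PushoutI.of (φ := fun b => Subgroup.inclusion (hD b)) i g) = (g : Γ))
    (hFbase : ∀ g : D, F (Monoid.PushoutI.base (fun b => Subgroup.inclusion (hD b)) g) = (g : Γ))
    (h : ∀ L : List (Bool × Γ), L ≠ [] → (∀ s ∈ L, s.2 ∈ K s.1 ∧ s.2 ∉ D) →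
      L.IsChain (fun s s' => s.1 ≠ s'.1) → (L.map Prod.snd).prod ≠ 1) :
    Function.Injective F := by
  classical
  rw [injective_iff_map_eq_one]
  intro x hx
  obtain ⟨d⟩ := Monoid.PushoutI.NormalWord.transversal_nonempty
    (fun b => Subgroup.inclusion (hD b)) (fun b => Subgroup.inclusion_injective _)
  obtain ⟨w, hw⟩ : ∃ w : Monoid.PushoutI.NormalWord d, w.prod = x :=
    ⟨Monoid.PushoutI.NormalWord.equiv x, Monoid.PushoutI.NormalWord.equiv.symm_apply_apply x⟩
  have key : (w.head : Γ) * (w.toList.map (fun s => ((s.2 : K s.1) : Γ))).prod = 1 := by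
    rw [← hx, ← hw, Monoid.PushoutI.NormalWord.prod, map_mul, hFbase]
    congr 1
    rw [Monoid.CoprodI.Word.prod, map_list_prod, map_list_prod, List.map_map, List.map_map]
    congr 1
    apply List.map_congr_left
    intro s _
    rw [Function.comp_apply, Function.comp_apply, Monoid.PushoutI.ofCoprodI_of, hFof]
  have hletter : ∀ s ∈ w.toList, ((s.2 : K s.1) : Γ) ∉ D := by
    rintro ⟨j, g⟩ hs hg
    have h1 : g ∈ d.set j := w.normalized j g hs
    have h2 : g ∈ (Subgroup.inclusion (hD j)).range := ⟨⟨g, hg⟩, rfl⟩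
    have h3 := (d.compl j).1
    have h4 := @h3 (⟨g, h2⟩, ⟨1, d.one_mem j⟩) (⟨1, one_mem _⟩, ⟨g, h1⟩) (by simp)
    have h5 : g = 1 := by
      have := congrArg (fun p => (p.1 : K j)) h4
      simpa using this
    exact w.ne_one _ hs h5
  rcases hl : w.toList with _ | ⟨s, rest⟩
  · rw [hl] at key
    have h1 : w.head = 1 := by
      apply Subtype.ext
      simpa using key
    rw [← hw, Monoid.PushoutI.NormalWord.prod, h1, Monoid.CoprodI.Word.prod, hl]
    simp
  · exfalso
    rw [hl] at key hletter
    refine h ((s.1, (w.head : Γ) * (s.2 : Γ)) :: rest.map (fun s => (s.1, ((s.2 : K s.1) : Γ))))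
      (List.cons_ne_nil _ _) ?_ ?_ ?_
    · intro t ht
      rw [List.mem_cons] at ht
      rcases ht with rfl | ht
      · refine ⟨mul_mem (hD _ w.head.2) s.2.2, fun hc => ?_⟩
        exact hletter s (List.mem_cons_self) ((Subgroup.mul_mem_cancel_left D w.head.2).1 hc)
      · rw [List.mem_map] at ht
        obtain ⟨r, hr, rfl⟩ := ht
        exact ⟨r.2.2, hletter r (List.mem_cons_of_mem _ hr)⟩
    · have h1 := w.chain_ne
      rw [hl] at h1
      have h2 : List.IsChain (fun a b : Bool => a ≠ b) ((s :: rest).map Sigma.fst) := by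
        rw [List.isChain_map]; exact h1
      have h3 : List.IsChain (fun a b : Bool => a ≠ b)
          (((s.1, (w.head : Γ) * (s.2 : Γ)) :: rest.map (fun s => (s.1, ((s.2 : K s.1) : Γ)))).map
            Prod.fst) := by
        rw [List.map_cons, List.map_map]
        exact h2
      rw [List.isChain_map] at h3
      exact h3
    · rw [List.map_cons, List.map_map, List.prod_cons]
      rw [List.map_cons, List.prod_cons, ← mul_assoc] at key
      exact key

theorem amalgam_injective {Γ : Type*} [Group Γ] (K : Bool → Subgroup Γ) (D : Subgroup Γ)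
    (hD : ∀ b, D ≤ K b)
    (h : ∀ L : List (Bool × Γ), L ≠ [] → (∀ s ∈ L, s.2 ∈ K s.1 ∧ s.2 ∉ D) →
      L.IsChain (fun s s' => s.1 ≠ s'.1) → (L.map Prod.snd).prod ≠ 1) :
    Function.Injective (Monoid.PushoutI.lift (φ := fun b => Subgroup.inclusion (hD b))
      (fun b => (K b).subtype) D.subtype (fun _ => rfl)) := by
  refine amalgam_injective_aux K D hD _ ?_ ?_ h
  · intro i g
    exact Monoid.PushoutI.lift_of (φ := fun b => Subgroup.inclusion (hD b))
      (fun b => (K b).subtype) D.subtype (fun _ => rfl) g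
  · intro g
    exact Monoid.PushoutI.lift_base (φ := fun b => Subgroup.inclusion (hD b))
      (fun b => (K b).subtype) D.subtype (fun _ => rfl) g

/-- a list which is not a chain has two bad consecutive entries -/
theorem exists_split_of_not_isChain {α : Type*} {R : α → α → Prop} :
    ∀ {L : List α}, ¬ L.IsChain R → ∃ A s s' B, L = A ++ s :: s' :: B ∧ ¬ R s s'
  | [], h => absurd List.IsChain.nil h
  | [a], h => absurd (List.IsChain.singleton a) h
  | a :: b :: L, h => by
    by_cases hab : R a b
    · have h1 : ¬ (b :: L).IsChain R := fun hc => h (List.IsChain.cons_cons hab hc)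
      obtain ⟨A, s, s', B, hL, hR⟩ := exists_split_of_not_isChain h1
      exact ⟨a :: A, s, s', B, by rw [hL]; rfl, hR⟩
    · exact ⟨[], a, b, L, rfl, hab⟩

theorem exists_list_of_mem_sup {Γ : Type*} [Group Γ] (K : Bool → Subgroup Γ) {g : Γ}
    (hg : g ∈ K false ⊔ K true) :
    ∃ L : List (Bool × Γ), (∀ s ∈ L, s.2 ∈ K s.1) ∧ (L.map Prod.snd).prod = g := by
  rw [Subgroup.sup_eq_closure] at hg
  induction hg using Subgroup.closure_induction with
  | mem x hx =>
    rcases hx with hx | hx
    · exact ⟨[(false, x)], by simpa using hx, by simp⟩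
    · exact ⟨[(true, x)], by simpa using hx, by simp⟩
  | one => exact ⟨[], by simp, by simp⟩
  | mul x y _ _ hx hy =>
    obtain ⟨L, h1, h2⟩ := hx
    obtain ⟨M, h3, h4⟩ := hy
    refine ⟨L ++ M, ?_, by rw [List.map_append, List.prod_append, h2, h4]⟩
    intro s hs
    rw [List.mem_append] at hs
    rcases hs with hs | hs
    · exact h1 s hs
    · exact h3 s hs
  | inv x _ hx =>
    obtain ⟨L, h1, h2⟩ := hx
    refine ⟨(L.map (fun s => (s.1, s.2⁻¹))).reverse, ?_, ?_⟩
    · intro s hs
      rw [List.mem_reverse, List.mem_map] at hs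
      obtain ⟨t, ht, rfl⟩ := hs
      exact inv_mem (h1 t ht)
    · rw [← h2, List.prod_inv_reverse, List.map_reverse, List.map_map, List.map_map]
      rfl

theorem conj_cases {Γ : Type*} [Group Γ] (K : Bool → Subgroup Γ) (D : Subgroup Γ)
    (hD : ∀ b, D ≤ K b) {g : Γ} (hg : g ∈ K false ⊔ K true) :
    ∃ h ∈ K false ⊔ K true, (∃ b, h⁻¹ * g * h ∈ K b) ∨
      ∃ (L : List (Bool × Γ)) (hL : L ≠ []), (∀ s ∈ L, s.2 ∈ K s.1 ∧ s.2 ∉ D) ∧
        L.IsChain (fun s s' => s.1 ≠ s'.1) ∧ (L.head hL).1 ≠ (L.getLast hL).1 ∧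
        h⁻¹ * g * h = (L.map Prod.snd).prod := by
  classical
  let P : ℕ → Prop := fun n => ∃ h ∈ K false ⊔ K true, ∃ L : List (Bool × Γ), L.length = n ∧
    (∀ s ∈ L, s.2 ∈ K s.1) ∧ (L.map Prod.snd).prod = h⁻¹ * g * h
  have hP : ∃ n, P n := by
    obtain ⟨L, h1, h2⟩ := exists_list_of_mem_sup K hg
    exact ⟨L.length, 1, one_mem _, L, rfl, h1, by simpa using h2⟩
  obtain ⟨h, hh, L, hLn, hLK, hLp⟩ := Nat.find_spec hP
  have hmin : ∀ (h' : Γ) (_ : h' ∈ K false ⊔ K true) (L' : List (Bool × Γ)),
      (∀ s ∈ L', s.2 ∈ K s.1) → (L'.map Prod.snd).prod = h'⁻¹ * g * h' →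
      L.length ≤ L'.length := by
    intro h' hh' L' h1 h2
    rw [hLn]
    exact Nat.find_min' hP ⟨h', hh', L', rfl, h1, h2⟩
  -- every letter is in the join
  have hKsup : ∀ b, K b ≤ K false ⊔ K true := by
    intro b
    cases b
    · exact le_sup_left
    · exact le_sup_right
  rcases hL0 : L with _ | ⟨s₀, _ | ⟨s₁, R⟩⟩
  · refine ⟨h, hh, Or.inl ⟨false, ?_⟩⟩
    rw [← hLp, hL0]
    simp
  · refine ⟨h, hh, Or.inl ⟨s₀.1, ?_⟩⟩
    rw [← hLp, hL0]
    have := hLK s₀ (by rw [hL0]; simp)
    simpa using this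
  -- length at least two
  -- merging two consecutive letters whose product can be placed in one `K b`
  have merge : ∀ (h' : Γ) (_ : h' ∈ K false ⊔ K true) (A B : List (Bool × Γ)) (s s' : Bool × Γ)
      (b : Bool), (∀ t ∈ A ++ s :: s' :: B, t.2 ∈ K t.1) → s.2 * s'.2 ∈ K b →
      ((A ++ s :: s' :: B).map Prod.snd).prod = h'⁻¹ * g * h' →
      (A ++ s :: s' :: B).length = L.length → False := by
    intro h' hh' A B s s' b h1 h2 h3 h4
    have h5 := hmin h' hh' (A ++ (b, s.2 * s'.2) :: B) (by
      intro t ht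
      rw [List.mem_append, List.mem_cons] at ht
      rcases ht with ht | rfl | ht
      · exact h1 t (by simp [ht])
      · exact h2
      · exact h1 t (by simp [ht])) (by
      rw [← h3]
      simp [mul_assoc])
    rw [← h4] at h5
    simp at h5
  have hchain : L.IsChain (fun s s' => s.1 ≠ s'.1) := by
    by_contra hc
    obtain ⟨A, s, s', B, hL, hR⟩ := exists_split_of_not_isChain hc
    rw [not_not] at hR
    refine merge h hh A B s s' s.1 ?_ ?_ (by rw [← hL, hLp]) (by rw [← hL])
    · rw [← hL]; exact hLK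
    · refine mul_mem (hLK s (by rw [hL]; simp)) ?_
      rw [hR]
      exact hLK s' (by rw [hL]; simp)
  have hnD : ∀ s ∈ L, s.2 ∉ D := by
    intro s hs hsD
    obtain ⟨A, B, hAB⟩ := List.append_of_mem hs
    rcases B with _ | ⟨t, B⟩
    · -- `s` is the last letter
      rcases List.eq_nil_or_concat A with rfl | ⟨A', t, rfl⟩
      · rw [hL0] at hAB
        simp at hAB
      · have hAB' : L = A' ++ t :: s :: [] := by simpa using hAB
        refine merge h hh A' [] t s t.1 (by rw [← hAB']; exact hLK) ?_ (by rw [← hAB', hLp])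
          (by rw [← hAB'])
        exact mul_mem (hLK t (by rw [hAB']; simp)) (hD _ hsD)
    · refine merge h hh A B s t t.1 (by rw [← hAB]; exact hLK) ?_ (by rw [← hAB, hLp])
        (by rw [← hAB])
      exact mul_mem (hD _ hsD) (hLK t (by rw [hAB]; simp))
  have hLne : L ≠ [] := by rw [hL0]; simp
  refine ⟨h, hh, Or.inr ⟨L, hLne, fun s hs => ⟨hLK s hs, hnD s hs⟩, hchain, ?_, hLp.symm⟩⟩
  intro hfl
  -- conjugate by the first letter
  obtain ⟨T, t, hT⟩ : ∃ T t, s₁ :: R = T ++ [t] := by
    rcases List.eq_nil_or_concat (s₁ :: R) with h1 | ⟨T, t, h1⟩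
    · simp at h1
    · exact ⟨T, t, by simpa using h1⟩
  have hL1 : L = s₀ :: (T ++ [t]) := by rw [hL0, hT]
  have h0 : s₀.2 ∈ K s₀.1 := hLK s₀ (by rw [hL1]; simp)
  have ht : t.2 ∈ K t.1 := hLK t (by rw [hL1]; simp)
  have h0t : s₀.1 = t.1 := by
    have h1 : ∀ (M : List (Bool × Γ)) (hM : M ≠ []), M = s₀ :: (T ++ [t]) →
        (M.head hM).1 = (M.getLast hM).1 → s₀.1 = t.1 := by
      rintro M hM rfl hh
      simpa [List.getLast_cons] using hh
    exact h1 L hLne hL1 hfl
  refine merge (h * s₀.2) (mul_mem hh (hKsup _ h0)) T [] t s₀ t.1 ?_ ?_ ?_ ?_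
  · intro r hr
    refine hLK r ?_
    rw [hL1]
    simp only [List.mem_append, List.mem_cons, List.not_mem_nil, or_false] at hr ⊢
    tauto
  · refine mul_mem ht ?_
    rw [← h0t]
    exact h0
  · have h2 : h⁻¹ * g * h = s₀.2 * ((T.map Prod.snd).prod * t.2) := by
      rw [← hLp, hL1]
      simp
    have h3 : (h * s₀.2)⁻¹ * g * (h * s₀.2) = s₀.2⁻¹ * (h⁻¹ * g * h) * s₀.2 := by group
    rw [h3, h2]
    simp [mul_assoc]
  · rw [hL1]
    simp

end Pool.Agent.VSB.M
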