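import Pool.Agent.VSB.Defs

/-! # VSB: the affine automorphisms

`aR` rotates the two pentagons by `π/5` (exchanging them), `aS` is the rotation by `π/2` of the golden L
(order 4), `aI = aR ^ 5 = aS ^ 2` the hyperelliptic involution, `aT = aR * aS` the product of the two Dehn
twists along the core curves of the horizontal cylinders. All this holds in `Aut Pi` (base point at
the vertex). -/

set_option autoImplicit false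

namespace Pool.Agent.VSB

/-- automorphisms from the images of the edges of the golden L -/
def mkAut (s n s' n' : Fin 3 → Pi)
    (h0 : s 0 * n 0 = n 0 * s 1) (h1 : s 1 * n 2 = n 1 * s 0) (h2 : s 2 * n 1 = n 2 * s 2)
    (h0' : s' 0 * n' 0 = n' 0 * s' 1) (h1' : s' 1 * n' 2 = n' 1 * s' 0)
    (h2' : s' 2 * n' 1 = n' 2 * s' 2)
    (hs : ∀ j, toHom s n h0 h1 h2 (s' j) = S j) (hn : ∀ j, toHom s n h0 h1 h2 (n' j) = N j)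
    (hs' : ∀ j, toHom s' n' h0' h1' h2' (s j) = S j)
    (hn' : ∀ j, toHom s' n' h0' h1' h2' (n j) = N j) : MulAut Pi :=
  MonoidHom.toMulEquiv (toHom s n h0 h1 h2) (toHom s' n' h0' h1' h2')
    (hom_ext (fun j => by
      rw [MonoidHom.comp_apply, toHom_S]; exact hs' j) (fun j => by
      rw [MonoidHom.comp_apply, toHom_N]; exact hn' j))
    (hom_ext (fun j => by
      rw [MonoidHom.comp_apply, toHom_S]; exact hs j) (fun j => by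
      rw [MonoidHom.comp_apply, toHom_N]; exact hn j))

section
variable {s n s' n' : Fin 3 → Pi}
    {h0 : s 0 * n 0 = n 0 * s 1} {h1 : s 1 * n 2 = n 1 * s 0} {h2 : s 2 * n 1 = n 2 * s 2}
    {h0' : s' 0 * n' 0 = n' 0 * s' 1} {h1' : s' 1 * n' 2 = n' 1 * s' 0}
    {h2' : s' 2 * n' 1 = n' 2 * s' 2}
    {hs : ∀ j, toHom s n h0 h1 h2 (s' j) = S j} {hn : ∀ j, toHom s n h0 h1 h2 (n' j) = N j}
    {hs' : ∀ j, toHom s' n' h0' h1' h2' (s j) = S j}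
    {hn' : ∀ j, toHom s' n' h0' h1' h2' (n j) = N j}

theorem mkAut_S (j : Fin 3) : mkAut s n s' n' h0 h1 h2 h0' h1' h2' hs hn hs' hn' (S j) = s j :=
  toHom_S h0 h1 h2 j

theorem mkAut_N (j : Fin 3) : mkAut s n s' n' h0 h1 h2 h0' h1' h2' hs hn hs' hn' (N j) = n j :=
  toHom_N h0 h1 h2 j

theorem mkAut_inv_S (j : Fin 3) :
    (mkAut s n s' n' h0 h1 h2 h0' h1' h2' hs hn hs' hn')⁻¹ (S j) = s' j :=
  toHom_S h0' h1' h2' j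

theorem mkAut_inv_N (j : Fin 3) :
    (mkAut s n s' n' h0 h1 h2 h0' h1' h2' hs hn hs' hn')⁻¹ (N j) = n' j :=
  toHom_N h0' h1' h2' j

end

def Rs : Fin 3 → Pi := ![S 1 * S 2 * N 1, S 2 * S 1 * N 2, S 0 * N 0]
def Rn : Fin 3 → Pi := ![(S 2)⁻¹, (S 1)⁻¹, (S 0)⁻¹]
def Rs' : Fin 3 → Pi := ![(N 2)⁻¹, (N 1)⁻¹, (N 0)⁻¹]
def Rn' : Fin 3 → Pi := ![S 2 * N 1, S 0 * N 0 * N 2, S 1 * N 2 * N 0]

def Ss : Fin 3 → Pi := ![(N 2)⁻¹, (N 1)⁻¹, (N 0)⁻¹]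
def Sn : Fin 3 → Pi := ![S 2, S 0, S 1]
def Ss' : Fin 3 → Pi := ![N 1, N 2, N 0]
def Sn' : Fin 3 → Pi := ![(S 2)⁻¹, (S 1)⁻¹, (S 0)⁻¹]

def Is : Fin 3 → Pi := ![(S 1)⁻¹, (S 0)⁻¹, (S 2)⁻¹]
def In : Fin 3 → Pi := ![(N 0)⁻¹, (N 2)⁻¹, (N 1)⁻¹]

theorem Rrel0 : Rs 0 * Rn 0 = Rn 0 * Rs 1 := by
  show S 1 * S 2 * N 1 * (S 2)⁻¹ = (S 2)⁻¹ * (S 2 * S 1 * N 2)
  have h2 := rel2
  rw [mul_assoc (S 1), h2]; group

theorem Rrel1 : Rs 1 * Rn 2 = Rn 1 * Rs 0 := by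
  show S 2 * S 1 * N 2 * (S 0)⁻¹ = (S 1)⁻¹ * (S 1 * S 2 * N 1)
  have h1 := rel1
  rw [mul_assoc (S 2), h1]; group

theorem Rrel2 : Rs 2 * Rn 1 = Rn 2 * Rs 2 := by
  show S 0 * N 0 * (S 1)⁻¹ = (S 0)⁻¹ * (S 0 * N 0)
  calc S 0 * N 0 * (S 1)⁻¹ = N 0 * S 1 * (S 1)⁻¹ := by rw [rel0]
    _ = (S 0)⁻¹ * (S 0 * N 0) := by group

theorem Rrel0' : Rs' 0 * Rn' 0 = Rn' 0 * Rs' 1 := by
  show (N 2)⁻¹ * (S 2 * N 1) = S 2 * N 1 * (N 1)⁻¹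
  calc (N 2)⁻¹ * (S 2 * N 1) = (N 2)⁻¹ * (N 2 * S 2) := by rw [rel2]
    _ = S 2 * N 1 * (N 1)⁻¹ := by group

theorem Rrel1' : Rs' 1 * Rn' 2 = Rn' 1 * Rs' 0 := by
  show (N 1)⁻¹ * (S 1 * N 2 * N 0) = S 0 * N 0 * N 2 * (N 2)⁻¹
  rw [rel1]; group

theorem Rrel2' : Rs' 2 * Rn' 1 = Rn' 2 * Rs' 2 := by
  show (N 0)⁻¹ * (S 0 * N 0 * N 2) = S 1 * N 2 * N 0 * (N 0)⁻¹
  rw [rel0]; group

theorem Srel0 : Ss 0 * Sn 0 = Sn 0 * Ss 1 := by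
  show (N 2)⁻¹ * S 2 = S 2 * (N 1)⁻¹
  rw [inv_mul_eq_iff_eq_mul, ← mul_assoc, ← rel2]; group

theorem Srel1 : Ss 1 * Sn 2 = Sn 1 * Ss 0 := by
  show (N 1)⁻¹ * S 1 = S 0 * (N 2)⁻¹
  rw [inv_mul_eq_iff_eq_mul, ← mul_assoc, ← rel1]; group

theorem Srel2 : Ss 2 * Sn 1 = Sn 2 * Ss 2 := by
  show (N 0)⁻¹ * S 0 = S 1 * (N 0)⁻¹
  rw [inv_mul_eq_iff_eq_mul, ← mul_assoc, ← rel0]; group

theorem Srel0' : Ss' 0 * Sn' 0 = Sn' 0 * Ss' 1 := by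
  show N 1 * (S 2)⁻¹ = (S 2)⁻¹ * N 2
  rw [eq_inv_mul_iff_mul_eq, ← mul_assoc, rel2]; group

theorem Srel1' : Ss' 1 * Sn' 2 = Sn' 1 * Ss' 0 := by
  show N 2 * (S 0)⁻¹ = (S 1)⁻¹ * N 1
  rw [eq_inv_mul_iff_mul_eq, ← mul_assoc, rel1]; group

theorem Srel2' : Ss' 2 * Sn' 1 = Sn' 2 * Ss' 2 := by
  show N 0 * (S 1)⁻¹ = (S 0)⁻¹ * N 0
  rw [eq_inv_mul_iff_mul_eq, ← mul_assoc, rel0]; group

theorem Irel0 : Is 0 * In 0 = In 0 * Is 1 := by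
  show (S 1)⁻¹ * (N 0)⁻¹ = (N 0)⁻¹ * (S 0)⁻¹
  rw [← mul_inv_rev, ← mul_inv_rev, rel0]

theorem Irel1 : Is 1 * In 2 = In 1 * Is 0 := by
  show (S 0)⁻¹ * (N 1)⁻¹ = (N 2)⁻¹ * (S 1)⁻¹
  rw [← mul_inv_rev, ← mul_inv_rev, rel1]

theorem Irel2 : Is 2 * In 1 = In 2 * Is 2 := by
  show (S 2)⁻¹ * (N 2)⁻¹ = (N 1)⁻¹ * (S 2)⁻¹
  rw [← mul_inv_rev, ← mul_inv_rev, rel2]

/-- the rotation of order ten -/
def aR : MulAut Pi := mkAut Rs Rn Rs' Rn' Rrel0 Rrel1 Rrel2 Rrel0' Rrel1' Rrel2'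
  (by
    intro j; fin_cases j
    · show toHom Rs Rn _ _ _ (N 2)⁻¹ = S 0; rw [map_inv, toHom_N]; show ((S 0)⁻¹)⁻¹ = _; group
    · show toHom Rs Rn _ _ _ (N 1)⁻¹ = S 1; rw [map_inv, toHom_N]; show ((S 1)⁻¹)⁻¹ = _; group
    · show toHom Rs Rn _ _ _ (N 0)⁻¹ = S 2; rw [map_inv, toHom_N]; show ((S 2)⁻¹)⁻¹ = _; group)
  (by
    intro j; fin_cases j
    · show toHom Rs Rn _ _ _ (S 2 * N 1) = N 0
      rw [map_mul, toHom_N, toHom_S]; show S 0 * N 0 * (S 1)⁻¹ = _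
      rw [rel0]; group
    · show toHom Rs Rn _ _ _ (S 0 * N 0 * N 2) = N 1
      rw [map_mul, map_mul, toHom_N, toHom_N, toHom_S]
      show S 1 * S 2 * N 1 * (S 2)⁻¹ * (S 0)⁻¹ = _
      rw [mul_assoc (S 1), rel2, mul_assoc (S 1), mul_inv_cancel_right, rel1]; group
    · show toHom Rs Rn _ _ _ (S 1 * N 2 * N 0) = N 2
      rw [map_mul, map_mul, toHom_N, toHom_N, toHom_S]
      show S 2 * S 1 * N 2 * (S 0)⁻¹ * (S 2)⁻¹ = _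
      rw [mul_assoc (S 2), rel1, mul_assoc (S 2), mul_inv_cancel_right, rel2]; group)
  (by
    intro j; fin_cases j
    · show toHom Rs' Rn' _ _ _ (S 1 * S 2 * N 1) = S 0
      rw [map_mul, map_mul, toHom_N, toHom_S, toHom_S]
      show (N 1)⁻¹ * (N 0)⁻¹ * (S 0 * N 0 * N 2) = _
      rw [rel0]
      calc (N 1)⁻¹ * (N 0)⁻¹ * (N 0 * S 1 * N 2) = (N 1)⁻¹ * (S 1 * N 2) := by group
        _ = S 0 := by rw [rel1]; group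
    · show toHom Rs' Rn' _ _ _ (S 2 * S 1 * N 2) = S 1
      rw [map_mul, map_mul, toHom_N, toHom_S, toHom_S]
      show (N 0)⁻¹ * (N 1)⁻¹ * (S 1 * N 2 * N 0) = _
      rw [rel1]
      calc (N 0)⁻¹ * (N 1)⁻¹ * (N 1 * S 0 * N 0) = (N 0)⁻¹ * (S 0 * N 0) := by group
        _ = S 1 := by rw [rel0]; group
    · show toHom Rs' Rn' _ _ _ (S 0 * N 0) = S 2
      rw [map_mul, toHom_N, toHom_S]
      show (N 2)⁻¹ * (S 2 * N 1) = _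
      rw [rel2]; group)
  (by
    intro j; fin_cases j
    · show toHom Rs' Rn' _ _ _ (S 2)⁻¹ = N 0; rw [map_inv, toHom_S]; show ((N 0)⁻¹)⁻¹ = _; group
    · show toHom Rs' Rn' _ _ _ (S 1)⁻¹ = N 1; rw [map_inv, toHom_S]; show ((N 1)⁻¹)⁻¹ = _; group
    · show toHom Rs' Rn' _ _ _ (S 0)⁻¹ = N 2; rw [map_inv, toHom_S]; show ((N 2)⁻¹)⁻¹ = _; group)

/-- the rotation of order four -/
def aS : MulAut Pi := mkAut Ss Sn Ss' Sn' Srel0 Srel1 Srel2 Srel0' Srel1' Srel2'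
  (by
    intro j; fin_cases j
    · exact toHom_N Srel0 Srel1 Srel2 1
    · exact toHom_N Srel0 Srel1 Srel2 2
    · exact toHom_N Srel0 Srel1 Srel2 0)
  (by
    intro j; fin_cases j
    · show toHom Ss Sn _ _ _ (S 2)⁻¹ = N 0; rw [map_inv, toHom_S]; show ((N 0)⁻¹)⁻¹ = _; group
    · show toHom Ss Sn _ _ _ (S 1)⁻¹ = N 1; rw [map_inv, toHom_S]; show ((N 1)⁻¹)⁻¹ = _; group
    · show toHom Ss Sn _ _ _ (S 0)⁻¹ = N 2; rw [map_inv, toHom_S]; show ((N 2)⁻¹)⁻¹ = _; group)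
  (by
    intro j; fin_cases j
    · show toHom Ss' Sn' _ _ _ (N 2)⁻¹ = S 0; rw [map_inv, toHom_N]; show ((S 0)⁻¹)⁻¹ = _; group
    · show toHom Ss' Sn' _ _ _ (N 1)⁻¹ = S 1; rw [map_inv, toHom_N]; show ((S 1)⁻¹)⁻¹ = _; group
    · show toHom Ss' Sn' _ _ _ (N 0)⁻¹ = S 2; rw [map_inv, toHom_N]; show ((S 2)⁻¹)⁻¹ = _; group)
  (by
    intro j; fin_cases j
    · exact toHom_S Srel0' Srel1' Srel2' 2
    · exact toHom_S Srel0' Srel1' Srel2' 0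
    · exact toHom_S Srel0' Srel1' Srel2' 1)

/-- the hyperelliptic involution -/
def aI : MulAut Pi := mkAut Is In Is In Irel0 Irel1 Irel2 Irel0 Irel1 Irel2
  (by
    intro j; fin_cases j
    · show toHom Is In _ _ _ (S 1)⁻¹ = S 0; rw [map_inv, toHom_S]; show ((S 0)⁻¹)⁻¹ = _; group
    · show toHom Is In _ _ _ (S 0)⁻¹ = S 1; rw [map_inv, toHom_S]; show ((S 1)⁻¹)⁻¹ = _; group
    · show toHom Is In _ _ _ (S 2)⁻¹ = S 2; rw [map_inv, toHom_S]; show ((S 2)⁻¹)⁻¹ = _; group)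
  (by
    intro j; fin_cases j
    · show toHom Is In _ _ _ (N 0)⁻¹ = N 0; rw [map_inv, toHom_N]; show ((N 0)⁻¹)⁻¹ = _; group
    · show toHom Is In _ _ _ (N 2)⁻¹ = N 1; rw [map_inv, toHom_N]; show ((N 1)⁻¹)⁻¹ = _; group
    · show toHom Is In _ _ _ (N 1)⁻¹ = N 2; rw [map_inv, toHom_N]; show ((N 2)⁻¹)⁻¹ = _; group)
  (by
    intro j; fin_cases j
    · show toHom Is In _ _ _ (S 1)⁻¹ = S 0; rw [map_inv, toHom_S]; show ((S 0)⁻¹)⁻¹ = _; group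
    · show toHom Is In _ _ _ (S 0)⁻¹ = S 1; rw [map_inv, toHom_S]; show ((S 1)⁻¹)⁻¹ = _; group
    · show toHom Is In _ _ _ (S 2)⁻¹ = S 2; rw [map_inv, toHom_S]; show ((S 2)⁻¹)⁻¹ = _; group)
  (by
    intro j; fin_cases j
    · show toHom Is In _ _ _ (N 0)⁻¹ = N 0; rw [map_inv, toHom_N]; show ((N 0)⁻¹)⁻¹ = _; group
    · show toHom Is In _ _ _ (N 2)⁻¹ = N 1; rw [map_inv, toHom_N]; show ((N 1)⁻¹)⁻¹ = _; group
    · show toHom Is In _ _ _ (N 1)⁻¹ = N 2; rw [map_inv, toHom_N]; show ((N 2)⁻¹)⁻¹ = _; group)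

theorem aR_S (j : Fin 3) : aR (S j) = Rs j := mkAut_S j
theorem aR_N (j : Fin 3) : aR (N j) = Rn j := mkAut_N j
theorem aRi_S (j : Fin 3) : aR⁻¹ (S j) = Rs' j := mkAut_inv_S j
theorem aRi_N (j : Fin 3) : aR⁻¹ (N j) = Rn' j := mkAut_inv_N j
theorem aS_S (j : Fin 3) : aS (S j) = Ss j := mkAut_S j
theorem aS_N (j : Fin 3) : aS (N j) = Sn j := mkAut_N j
theorem aSi_S (j : Fin 3) : aS⁻¹ (S j) = Ss' j := mkAut_inv_S j
theorem aSi_N (j : Fin 3) : aS⁻¹ (N j) = Sn' j := mkAut_inv_N j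
theorem aI_S (j : Fin 3) : aI (S j) = Is j := mkAut_S j
theorem aI_N (j : Fin 3) : aI (N j) = In j := mkAut_N j

/-- equality of automorphisms can be tested on the edges -/
theorem aut_ext {φ ψ : MulAut Pi} (hS : ∀ j, φ (S j) = ψ (S j)) (hN : ∀ j, φ (N j) = ψ (N j)) :
    φ = ψ := by
  have h := hom_ext (φ := φ.toMonoidHom) (ψ := ψ.toMonoidHom) hS hN
  exact MulEquiv.toMonoidHom_injective h

/-- the multitwist -/
def aT : MulAut Pi := aR * aS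

theorem aT_S (j : Fin 3) : aT (S j) = S j := by
  show aR (aS (S j)) = S j
  rw [aS_S]
  fin_cases j
  · show aR ((N 2)⁻¹) = S 0; rw [map_inv, aR_N]; show ((S 0)⁻¹)⁻¹ = _; group
  · show aR ((N 1)⁻¹) = S 1; rw [map_inv, aR_N]; show ((S 1)⁻¹)⁻¹ = _; group
  · show aR ((N 0)⁻¹) = S 2; rw [map_inv, aR_N]; show ((S 2)⁻¹)⁻¹ = _; group

theorem aT_N0 : aT (N 0) = S 0 * N 0 := by
  show aR (aS (N 0)) = _
  rw [aS_N]; exact aR_S 2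

theorem aT_N1 : aT (N 1) = S 1 * S 2 * N 1 := by
  show aR (aS (N 1)) = _
  rw [aS_N]; exact aR_S 0

theorem aT_N2 : aT (N 2) = S 2 * S 1 * N 2 := by
  show aR (aS (N 2)) = _
  rw [aS_N]; exact aR_S 1

theorem aS_sq : aS ^ 2 = aI := by
  rw [pow_two]
  apply aut_ext
  · intro j
    show aS (aS (S j)) = _
    rw [aS_S, aI_S]
    fin_cases j
    · show aS ((N 2)⁻¹) = (S 1)⁻¹; rw [map_inv, aS_N]; rfl
    · show aS ((N 1)⁻¹) = (S 0)⁻¹; rw [map_inv, aS_N]; rfl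
    · show aS ((N 0)⁻¹) = (S 2)⁻¹; rw [map_inv, aS_N]; rfl
  · intro j
    show aS (aS (N j)) = _
    rw [aS_N, aI_N]
    fin_cases j
    · exact aS_S 2
    · exact aS_S 0
    · exact aS_S 1

theorem aI_sq : aI ^ 2 = 1 := by
  rw [pow_two]
  apply aut_ext
  · intro j
    show aI (aI (S j)) = S j
    rw [aI_S]
    fin_cases j
    · show aI ((S 1)⁻¹) = S 0; rw [map_inv, aI_S]; show ((S 0)⁻¹)⁻¹ = _; group
    · show aI ((S 0)⁻¹) = S 1; rw [map_inv, aI_S]; show ((S 1)⁻¹)⁻¹ = _; group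
    · show aI ((S 2)⁻¹) = S 2; rw [map_inv, aI_S]; show ((S 2)⁻¹)⁻¹ = _; group
  · intro j
    show aI (aI (N j)) = N j
    rw [aI_N]
    fin_cases j
    · show aI ((N 0)⁻¹) = N 0; rw [map_inv, aI_N]; show ((N 0)⁻¹)⁻¹ = _; group
    · show aI ((N 2)⁻¹) = N 1; rw [map_inv, aI_N]; show ((N 1)⁻¹)⁻¹ = _; group
    · show aI ((N 1)⁻¹) = N 2; rw [map_inv, aI_N]; show ((N 2)⁻¹)⁻¹ = _; group

theorem aR_e0 : aR (e 0) = (e 3)⁻¹ := by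
  rw [e0_eq, aR_S, e3_eq, inv_inv, ← rel0]; rfl

theorem aR_e1 : aR (e 1) = (e 4)⁻¹ := by
  rw [e1_eq, map_mul, aR_S, aR_N, e4_eq, inv_inv, ← rel2]
  show S 2 * S 1 * N 2 * (S 0)⁻¹ = S 2 * N 1
  rw [mul_assoc (S 2), rel1]; group

theorem aR_e2 : aR (e 2) = (e 0)⁻¹ := by
  rw [e2_eq, aR_N, e0_eq]; rfl

theorem aR_e3 : aR (e 3) = (e 1)⁻¹ := by
  rw [e3_eq, map_inv, map_mul, aR_S, aR_N, e1_eq]
  show ((S 2)⁻¹ * (S 2 * S 1 * N 2))⁻¹ = _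
  group

theorem aR_e4 : aR (e 4) = (e 2)⁻¹ := by
  rw [e4_eq, map_inv, map_mul, aR_S, aR_N, e2_eq]
  show ((S 0)⁻¹ * (S 0 * N 0))⁻¹ = _
  group

/-- `aR` is the rotation: `e i ↦ (e (i + 3))⁻¹` -/
theorem aR_e (i : Fin 5) : aR (e i) = (e (i + 3))⁻¹ := by
  fin_cases i
  · exact aR_e0
  · exact aR_e1
  · exact aR_e2
  · exact aR_e3
  · exact aR_e4

theorem aI_e (i : Fin 5) : aI (e i) = (e i)⁻¹ := by
  fin_cases i
  · exact aI_S 2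
  · show aI (e 1) = (e 1)⁻¹
    rw [e1_eq, map_mul, aI_S, aI_N]
    show (S 0)⁻¹ * (N 1)⁻¹ = _
    rw [← mul_inv_rev, rel1]
  · exact aI_N 0
  · show aI (e 3) = (e 3)⁻¹
    rw [e3_eq, map_inv, map_mul, aI_S, aI_N, ← rel0]
    show ((N 0)⁻¹ * (S 0)⁻¹)⁻¹ = _
    group
  · show aI (e 4) = (e 4)⁻¹
    rw [e4_eq, map_inv, map_mul, aI_S, aI_N, ← rel2]
    show ((N 1)⁻¹ * (S 2)⁻¹)⁻¹ = _
    group

theorem aut_ext_e {φ ψ : MulAut Pi} (h : ∀ i, φ (e i) = ψ (e i)) : φ = ψ :=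
  MulEquiv.toMonoidHom_injective (PresentedGroup.ext h)

theorem aR_pow5 : aR ^ 5 = aI := by
  apply aut_ext_e
  intro i
  have h : ∀ i, aR (e i)⁻¹ = e (i + 3) := fun i => by rw [map_inv, aR_e, inv_inv]
  show aR (aR (aR (aR (aR (e i))))) = aI (e i)
  rw [aR_e, h, aR_e, h, aR_e, aI_e]
  congr 2
  fin_cases i <;> rfl

theorem aT_e0 : aT (e 0) = e 0 := aT_S 2

theorem aT_e1 : aT (e 1) = e 1 * e 0 * (e 3)⁻¹ * (e 2)⁻¹ := by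
  rw [e1_eq, map_mul, aT_S, aT_N2, e0_eq, e2_eq, e3_eq, inv_inv]
  calc S 1 * (S 2 * S 1 * N 2) = S 1 * S 2 * (S 1 * N 2) := by group
    _ = S 1 * (S 2 * N 1) * S 0 := by rw [rel1]; group
    _ = S 1 * N 2 * S 2 * (S 0 * N 0 * (N 0)⁻¹) := by rw [rel2]; group
    _ = S 1 * N 2 * S 2 * (N 0 * S 1) * (N 0)⁻¹ := by rw [rel0]; group

theorem aT_e2 : aT (e 2) = (e 3)⁻¹ := by
  rw [e2_eq, aT_N0, e3_eq, inv_inv, rel0]

theorem aT_e3 : aT (e 3) = e 3 * e 2 * e 3 := by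
  rw [e3_eq, e2_eq, map_inv, map_mul, aT_N0, aT_S, rel0]; group

theorem aT_e4 : aT (e 4) = (e 0)⁻¹ * (e 1)⁻¹ * (e 0)⁻¹ := by
  rw [e4_eq, e0_eq, e1_eq, map_inv, map_mul, aT_N2, aT_S]; group

/-- positive affine automorphisms -/
def sg (k : Fin 4) : MulAut Pi := aR ^ (k : ℕ) * aT

end Pool.Agent.VSB
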