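import Pool.Agent.VSB.Count

/-! # VSB/TL: lower bound for the intersection number by counting walls crossing the axis

PROOF of `card_le_inum`. Let `n = inum a y`, `ev w = h⁻¹ * y * h`, `hc a w = n` (`exists_inum`). For `m : ℕ`,
`h⁻¹ y^m h = ev (w ^ m)`, so `(Sep a h (y ^ m * h)).ncard ≤ m * n` (`sep_le`), and
`(Sep a 1 (y ^ m)).ncard ≤ 2 C + m n` with `C = (Sep a 1 h).ncard` (`sep_triangle`, `sep_smul`). On the other
hand let `i₀` be a common bound for all `Cross y (K t)`, `t : T`. For `i₀ ≤ i`, `i + i₀ ≤ m` the wall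
`y ^ i • K t` separates `1` and `y ^ m`: `1 ∈ y ^ i • K t ↔ (y⁻¹) ^ i ∈ K t`, `y ^ m ∈ y ^ i • K t ↔ y ^ (m - i) ∈ K t`.
These walls are pairwise different: `y ^ i • K t = y ^ i' • K t'` gives `t = t'` by `hd`, and
`y ^ d • K t = K t` with `d ≠ 0` contradicts `Cross y (K t)` (`y ^ (d N) ∈ K t ↔ 1 ∈ K t ↔ (y⁻¹) ^ (d N) ∈ K t`).
So `card T * (m + 1 - 2 * i₀) ≤ 2 C + m n` for all `m`, hence `card T ≤ n`.
`card_le_ell`: split `T` according to the type. -/

set_option autoImplicit false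

open scoped Pointwise

namespace Pool.Agent.VSB

theorem per_mem_TL {y : Pi} {K : Set Pi} {d : ℤ} (h : y ^ d • K = K) (o : Pi) (N : ℤ) :
    y ^ (d * N) * o ∈ K ↔ o ∈ K := by
  have h1 : y ^ d ∈ MulAction.stabilizer Pi K := h
  have h2 : (y ^ d) ^ N ∈ MulAction.stabilizer Pi K := Subgroup.zpow_mem _ h1 N
  rw [← zpow_mul] at h2
  have h3 : y ^ (d * N) • K = K := h2
  generalize y ^ (d * N) = z at h3
  have h5 : z * o ∈ z • K ↔ o ∈ K := by
    rw [Set.mem_smul_set_iff_inv_smul_mem, smul_eq_mul, inv_mul_cancel_left]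
  rw [h3] at h5
  exact h5

theorem no_per_TL {y : Pi} {K : Set Pi} (o : Pi)
    (h : ∃ i₀ : ℕ, ∀ i ≥ i₀, y ^ i * o ∈ K ∧ (y⁻¹) ^ i * o ∉ K) {d : ℤ} (hd : d ≠ 0) :
    y ^ d • K ≠ K := by
  intro hK
  obtain ⟨i₀, h0⟩ := h
  have hpos : 1 ≤ d.natAbs := Int.natAbs_pos.mpr hd
  obtain ⟨h1, h2⟩ := h0 (d.natAbs * i₀) (Nat.le_mul_of_pos_left _ hpos)
  have e1 : ((d.natAbs * i₀ : ℕ) : ℤ) = d * (d.sign * i₀) := by
    push_cast
    rw [← mul_assoc, Int.mul_sign_self]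
    simp
  have h3 : y ^ (d.natAbs * i₀) * o ∈ K ↔ o ∈ K := by
    rw [← zpow_natCast, e1]
    exact per_mem_TL hK o _
  have h4 : (y⁻¹) ^ (d.natAbs * i₀) * o ∈ K ↔ o ∈ K := by
    have : (y⁻¹) ^ (d.natAbs * i₀) = y ^ (d * (-(d.sign * i₀))) := by
      rw [inv_pow, ← zpow_natCast, e1, ← zpow_neg]
      congr 1
      ring
    rw [this]
    exact per_mem_TL hK o _
  exact h2 (h4.mpr (h3.mp h1))

/-- behaviour of `Cross` -/
theorem Cross.compl {y : Pi} {K : Set Pi} (h : Cross y K) : Cross y Kᶜ := by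
  rcases h with ⟨i₀, h⟩ | ⟨i₀, h⟩
  · right
    refine ⟨i₀, fun i hi => ⟨?_, ?_⟩⟩
    · intro h1; exact h1 (h i hi).1
    · exact (h i hi).2
  · left
    refine ⟨i₀, fun i hi => ⟨(h i hi).1, ?_⟩⟩
    intro h1; exact h1 (h i hi).2

theorem no_per_cross_TL {y : Pi} {K : Set Pi} (h : Cross y K) {d : ℤ} (hd : d ≠ 0) :
    y ^ d • K ≠ K := by
  rcases h with ⟨i₀, h⟩ | ⟨i₀, h⟩
  · exact no_per_TL 1 ⟨i₀, fun i hi => by simpa using h i hi⟩ hd
  · intro hK
    have hK' : y ^ d • Kᶜ = Kᶜ := by rw [Set.smul_set_compl, hK]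
    exact no_per_TL 1 ⟨i₀, fun i hi => by simpa using h i hi⟩ hd hK'

theorem cross_sep_TL {y : Pi} {K : Set Pi} (h : Cross y K) :
    ∃ i₀ : ℕ, ∀ i ≥ i₀, ∀ j ≥ i₀, ¬ ((y⁻¹) ^ i ∈ K ↔ y ^ j ∈ K) := by
  rcases h with ⟨i₀, h⟩ | ⟨i₀, h⟩
  · refine ⟨i₀, fun i hi j hj h1 => (h i hi).2 (h1.mpr (h j hj).1)⟩
  · refine ⟨i₀, fun i hi j hj h1 => (h j hj).1 (h1.mp (h i hi).2)⟩

theorem exists_pow_word_TL (a : Fin 2) (w : Wd) (m : ℕ) :
    ∃ w' : Wd, ev w' = (ev w) ^ m ∧ hc a w' = m * hc a w := by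
  induction m with
  | zero => exact ⟨[], by simp [ev], by simp [hc]⟩
  | succ m ih =>
    obtain ⟨w', h1, h2⟩ := ih
    refine ⟨w' ++ w, ?_, ?_⟩
    · rw [ev_append, h1, pow_succ]
    · rw [hc_append, h2]; ring

theorem sep_symm_TL (a : Fin 2) (g h : Pi) : Sep a g h = Sep a h g := by
  ext K
  simp only [Sep, Set.mem_setOf_eq]
  constructor
  · rintro ⟨h1, h2⟩
    exact ⟨h1, fun h3 => h2 h3.symm⟩
  · rintro ⟨h1, h2⟩
    exact ⟨h1, fun h3 => h2 h3.symm⟩

theorem card_le_inum (a : Fin 2) (y : Pi) {T : Type} [Fintype T] (K : T → Set Pi)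
    (hK : ∀ t, ∃ k : Pi, K t = k • Wl a) (hc : ∀ t, Cross y (K t))
    (hd : ∀ t t' (m : ℤ), y ^ m • K t = K t' → t = t') : Fintype.card T ≤ inum a y := by
  classical
  obtain ⟨h, w, hw, hn⟩ := exists_inum a y
  set n := inum a y with hndef
  set C := (Sep a 1 h).ncard with hC
  have upper : ∀ m : ℕ, (Sep a 1 (y ^ m)).ncard ≤ 2 * C + m * n := by
    intro m
    obtain ⟨w', h1, h2⟩ := exists_pow_word_TL a w m
    have e1 : y ^ m * h = h * ev w' := by
      have : (ev w) ^ m = h⁻¹ * y ^ m * h := by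
        rw [hw]
        have := conj_pow (a := h⁻¹) (b := y) (i := m)
        rw [inv_inv] at this
        exact this
      rw [h1, this]; group
    have s1 : (Sep a h (y ^ m * h)).ncard ≤ m * n := by
      rw [e1]
      calc _ ≤ Pool.Agent.VSB.hc a w' := sep_le a h w'
        _ = m * n := by rw [h2, hn]
    have s2 : (Sep a (y ^ m * h) (y ^ m)).ncard = C := by
      have := sep_smul a (y ^ m) h 1
      rw [mul_one] at this
      rw [this, sep_symm_TL]
    have s3 := sep_triangle a 1 h (y ^ m)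
    have s4 := sep_triangle a h (y ^ m * h) (y ^ m)
    omega
  choose i₁ hi₁ using fun t => cross_sep_TL (hc t)
  set i₀ := Finset.univ.sup i₁ with hi0
  have hle : ∀ t, i₁ t ≤ i₀ := fun t => Finset.le_sup (Finset.mem_univ t)
  have lower : ∀ m : ℕ, Fintype.card T * (m + 1 - 2 * i₀) ≤ (Sep a 1 (y ^ m)).ncard := by
    intro m
    have hfin := sep_finite a 1 (y ^ m)
    let Φ : T × Fin (m + 1 - 2 * i₀) → Set Pi := fun x => y ^ (i₀ + x.2.1) • K x.1
    have hinj : Function.Injective Φ := by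
      rintro ⟨t, i⟩ ⟨t', i'⟩ hΦ
      have h1 : y ^ (i₀ + i.1) • K t = y ^ (i₀ + i'.1) • K t' := hΦ
      have h2 : y ^ (((i₀ + i.1 : ℕ) : ℤ) - ((i₀ + i'.1 : ℕ) : ℤ)) • K t = K t' := by
        rw [sub_eq_neg_add, zpow_add, mul_smul, zpow_natCast, h1, ← mul_smul, zpow_neg,
          zpow_natCast, inv_mul_cancel, one_smul]
      have ht : t = t' := hd t t' _ h2
      subst ht
      have h3 : (((i₀ + i.1 : ℕ) : ℤ) - ((i₀ + i'.1 : ℕ) : ℤ)) = 0 := by
        by_contra h4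
        exact no_per_cross_TL (hc t) h4 h2
      have h5 : i.1 = i'.1 := by omega
      have h6 : i = i' := Fin.ext h5
      rw [h6]
    have hsub : Set.range Φ ⊆ Sep a 1 (y ^ m) := by
      rintro _ ⟨⟨t, i⟩, rfl⟩
      refine ⟨?_, ?_⟩
      · obtain ⟨k, hk⟩ := hK t
        refine ⟨y ^ (i₀ + i.1) * k, ?_⟩
        show y ^ (i₀ + i.1) • K t = _
        rw [hk, mul_smul]
      · have hi := i.2
        have h1 : (1 : Pi) ∈ y ^ (i₀ + i.1) • K t ↔ (y⁻¹) ^ (i₀ + i.1) ∈ K t := by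
          rw [Set.mem_smul_set_iff_inv_smul_mem, smul_eq_mul, mul_one, inv_pow]
        have h2 : y ^ m ∈ y ^ (i₀ + i.1) • K t ↔ y ^ (m - (i₀ + i.1)) ∈ K t := by
          rw [Set.mem_smul_set_iff_inv_smul_mem, smul_eq_mul]
          have : (y ^ (i₀ + i.1))⁻¹ * y ^ m = y ^ (m - (i₀ + i.1)) := by
            rw [inv_mul_eq_iff_eq_mul, ← pow_add]
            congr 1
            omega
          rw [this]
        show ¬ (1 ∈ y ^ (i₀ + i.1) • K t ↔ y ^ m ∈ y ^ (i₀ + i.1) • K t)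
        rw [h1, h2]
        have hlt := hle t
        exact hi₁ t _ (by omega) _ (by omega)
    have hcard : (Set.range Φ).ncard = Fintype.card T * (m + 1 - 2 * i₀) := by
      rw [← Set.image_univ, Set.ncard_image_of_injective _ hinj, Set.ncard_univ,
        Nat.card_eq_fintype_card, Fintype.card_prod, Fintype.card_fin]
    rw [← hcard]
    exact Set.ncard_le_ncard hsub hfin
  by_contra hcon
  push Not at hcon
  have h1 := lower (2 * C + 2 * i₀ * (n + 1) + 1)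
  have h2 := upper (2 * C + 2 * i₀ * (n + 1) + 1)
  have h3 : (n + 1) * (2 * C + 2 * i₀ * (n + 1) + 1 + 1 - 2 * i₀) ≤
      2 * C + (2 * C + 2 * i₀ * (n + 1) + 1) * n :=
    le_trans (le_trans (Nat.mul_le_mul_right _ hcon) h1) h2
  have h4 : 2 * C + 2 * i₀ * (n + 1) + 1 + 1 - 2 * i₀ = 2 * C + 2 * i₀ * n + 2 := by
    have : 2 * i₀ * (n + 1) = 2 * i₀ * n + 2 * i₀ := by ring
    omega
  rw [h4] at h3
  nlinarith

theorem card_le_ell (y : Pi) {T : Type} [Fintype T] (K : T → Set Pi)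
    (hK : ∀ t, ∃ (a : Fin 2) (k : Pi), K t = k • Wl a) (hc : ∀ t, Cross y (K t))
    (hd : ∀ t t' (m : ℤ), y ^ m • K t = K t' → t = t') : Fintype.card T ≤ ell y := by
  classical
  have h0 := card_le_inum 0 y (T := {t : T // ∃ k : Pi, K t = k • Wl 0}) (fun t => K t.1)
    (fun t => t.2) (fun t => hc t.1) (fun t t' m h => Subtype.ext (hd t.1 t'.1 m h))
  have h1 := card_le_inum 1 y (T := {t : T // ¬ ∃ k : Pi, K t = k • Wl 0}) (fun t => K t.1)
    (fun t => by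
      obtain ⟨a, k, hk⟩ := hK t.1
      fin_cases a
      · exact absurd ⟨k, hk⟩ t.2
      · exact ⟨k, hk⟩)
    (fun t => hc t.1) (fun t t' m h => Subtype.ext (hd t.1 t'.1 m h))
  have h2 : Fintype.card {t : T // ∃ k : Pi, K t = k • Wl 0} +
      Fintype.card {t : T // ¬ ∃ k : Pi, K t = k • Wl 0} = Fintype.card T :=
    by rw [Fintype.card_subtype_compl, Nat.add_sub_cancel' (Fintype.card_subtype_le _)]
  unfold ell
  omega

theorem Cross.aut {y : Pi} {K : Set Pi} (u : MulAut Pi) (h : Cross y {z | u z ∈ K}) :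
    Cross (u y) K := by
  rcases h with ⟨i₀, h⟩ | ⟨i₀, h⟩
  · left
    refine ⟨i₀, fun i hi => ?_⟩
    have := h i hi
    simpa only [Set.mem_setOf_eq, map_pow, map_inv] using this
  · right
    refine ⟨i₀, fun i hi => ?_⟩
    have := h i hi
    simpa only [Set.mem_setOf_eq, map_pow, map_inv] using this

/-- Change of base point. PROOF: if `y ^ i ∉ k • Wl a` for infinitely many `i`, then infinitely many of the walls
`y ^ (-i) • k • Wl a` separate `1` and `o` (`sep_finite`), so two of them coincide and `k • Wl a` is invariant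
under `y ^ d` with `d > 0`: contradiction to `h`. Same for the other half. -/
theorem Cross.of_base {y : Pi} {a : Fin 2} {k : Pi} (o : Pi)
    (h : ∃ i₀ : ℕ, ∀ i ≥ i₀, y ^ i * o ∈ k • Wl a ∧ (y⁻¹) ^ i * o ∉ k • Wl a) :
    Cross y (k • Wl a) := by
  set W := k • Wl a with hW
  have hfin := sep_finite a 1 o
  have hbad : {i : ℤ | ¬ (y ^ i ∈ W ↔ y ^ i * o ∈ W)}.Finite := by
    apply Set.Finite.of_finite_image (f := fun i : ℤ => y ^ (-i) • W)
    · apply hfin.subset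
      rintro _ ⟨i, hi, rfl⟩
      refine ⟨⟨y ^ (-i) * k, ?_⟩, ?_⟩
      · show y ^ (-i) • (k • Wl a) = _
        rw [mul_smul]
      · have h1 : (1 : Pi) ∈ y ^ (-i) • W ↔ y ^ i ∈ W := by
          rw [Set.mem_smul_set_iff_inv_smul_mem, smul_eq_mul, mul_one, zpow_neg, inv_inv]
        have h2 : o ∈ y ^ (-i) • W ↔ y ^ i * o ∈ W := by
          rw [Set.mem_smul_set_iff_inv_smul_mem, smul_eq_mul, zpow_neg, inv_inv]
        show ¬ (1 ∈ y ^ (-i) • W ↔ o ∈ y ^ (-i) • W)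
        rw [h1, h2]
        exact hi
    · intro i _ j _ hij
      have hij' : y ^ (-i) • W = y ^ (-j) • W := hij
      by_contra hne
      have h2 : y ^ (j - i) • W = W := by
        rw [sub_eq_add_neg, zpow_add, mul_smul, hij', ← mul_smul, ← zpow_add, add_neg_cancel,
          zpow_zero, one_smul]
      exact no_per_TL o h (sub_ne_zero.mpr (Ne.symm hne)) h2
  obtain ⟨i₀, h0⟩ := h
  obtain ⟨B, hB⟩ := hbad.bddAbove
  obtain ⟨A, hA⟩ := hbad.bddBelow
  left
  refine ⟨max i₀ (max (B.toNat + 1) ((-A).toNat + 1)), fun i hi => ?_⟩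
  have hi0 : i₀ ≤ i := le_trans (le_max_left _ _) hi
  have hiB : B.toNat + 1 ≤ i := le_trans (le_trans (le_max_left _ _) (le_max_right _ _)) hi
  have hiA : (-A).toNat + 1 ≤ i := le_trans (le_trans (le_max_right _ _) (le_max_right _ _)) hi
  have h1 : y ^ (i : ℤ) ∈ W ↔ y ^ (i : ℤ) * o ∈ W := by
    by_contra hcon
    have := hB hcon
    omega
  have h2 : y ^ (-(i : ℤ)) ∈ W ↔ y ^ (-(i : ℤ)) * o ∈ W := by
    by_contra hcon
    have := hA hcon
    omega
  rw [zpow_natCast] at h1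
  rw [zpow_neg, zpow_natCast, ← inv_pow] at h2
  exact ⟨h1.mpr (h0 i hi0).1, fun h3 => (h0 i hi0).2 (h2.mp h3)⟩

end Pool.Agent.VSB
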