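import Pool.Agent.VSB.Beyond
import Pool.Agent.VSB.TL

/-! # VSB/Axis: the nested walls along an axis

`Hs_compl`: `(H.Hs j)ᶜ = (g j * inc (f j)) • (Bd (p j))ᶜ = (g j * inc (f j) * t (p j)) • Bd (bar (p j))` (`t_smul_Bd`, `step`).
`Hs_anti`: `Bd_disj` with `bar (p j)`, `p (j + 1)`, `f (j + 1)` (hypothesis: `red`), translated by `g (j + 1)`.
`mem_Hs`: `g j * inc f ∉ Hs j` (`inc_notMem_Bd`), `g (j + 1) * inc f ∈ Hs j` (`Hs_compl`, `inc_notMem_Bd`), and
monotonicity.
`cnt_eq`: lower bound by `card_le_inum` with `T = {j : Fin n // kind (p j) = a}` and `K j` = `Hs j` or its complement, whichever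
is of the form `k • Wl a` (`Bd_wall`); `x ^ m • Hs j = Hs (j + m n)`; `Hs` is injective and never equal to a
complement `(Hs i)ᶜ` (both contain `g l` for large `l`). Upper bound: `x = g n = ∏ inc (f j) * t (p j)` (`g0`, `per`), a word in
which the letters `n` come from the `t (p j)`. -/

set_option autoImplicit false

open scoped Pointwise

namespace Pool.Agent.VSB

namespace HAx

variable {x : Pi} (H : HAx x)

/-- the halfspace beyond the `j`-th crossing -/
noncomputable def Hs (j : ℤ) : Set Pi := (H.g j * inc (H.f j)) • Bd (H.p j)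

theorem g_add (j m : ℤ) : H.g (j + m * H.n) = x ^ m * H.g j := by
  induction m using Int.induction_on with
  | zero => simp
  | succ i ih =>
    have h := H.per (j + (i : ℤ) * H.n)
    rw [ih] at h
    have e1 : j + ((i : ℤ) + 1) * (H.n : ℤ) = j + (i : ℤ) * H.n + H.n := by ring
    rw [e1, h, ← mul_assoc, ← zpow_one_add, add_comm (1 : ℤ)]
  | pred i ih =>
    have h := H.per (j + (-(i : ℤ) - 1) * H.n)
    have e1 : j + (-(i : ℤ) - 1) * (H.n : ℤ) + H.n = j + (-(i : ℤ)) * H.n := by ring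
    rw [e1, ih] at h
    have h2 : H.g (j + (-(i : ℤ) - 1) * H.n) = x⁻¹ * (x ^ (-(i : ℤ)) * H.g j) := by
      rw [h, inv_mul_cancel_left]
    rw [h2, ← mul_assoc, ← zpow_neg_one, ← zpow_add]
    congr 2
    ring

theorem g_mul (m : ℤ) : H.g (m * H.n) = x ^ m := by
  have h := H.g_add 0 m
  rwa [zero_add, H.g0, mul_one] at h

theorem f_add (j m : ℤ) : H.f (j + m * H.n) = H.f j := by
  induction m using Int.induction_on with
  | zero => simp
  | succ i ih =>
    have h := H.perf (j + (i : ℤ) * H.n)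
    have e1 : j + ((i : ℤ) + 1) * (H.n : ℤ) = j + (i : ℤ) * H.n + H.n := by ring
    rw [e1, h, ih]
  | pred i ih =>
    have h := H.perf (j + (-(i : ℤ) - 1) * H.n)
    have e1 : j + (-(i : ℤ) - 1) * (H.n : ℤ) + H.n = j + (-(i : ℤ)) * H.n := by ring
    rw [e1, ih] at h
    exact h.symm

theorem p_add (j m : ℤ) : H.p (j + m * H.n) = H.p j := by
  induction m using Int.induction_on with
  | zero => simp
  | succ i ih =>
    have h := H.perp (j + (i : ℤ) * H.n)
    have e1 : j + ((i : ℤ) + 1) * (H.n : ℤ) = j + (i : ℤ) * H.n + H.n := by ring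
    rw [e1, h, ih]
  | pred i ih =>
    have h := H.perp (j + (-(i : ℤ) - 1) * H.n)
    have e1 : j + (-(i : ℤ) - 1) * (H.n : ℤ) + H.n = j + (-(i : ℤ)) * H.n := by ring
    rw [e1, ih] at h
    exact h.symm

theorem smul_Hs (j m : ℤ) : x ^ m • H.Hs j = H.Hs (j + m * H.n) := by
  unfold Hs
  rw [H.f_add, H.p_add, H.g_add, ← mul_smul, mul_assoc (x ^ m)]

theorem Hs_compl (j : ℤ) : (H.Hs j)ᶜ = H.g (j + 1) • Bd (bar (H.p j)) := by
  unfold Hs
  rw [← Set.smul_set_compl, ← t_smul_Bd, ← mul_smul, H.step j]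

theorem Hs_succ (j : ℤ) : H.Hs (j + 1) ⊆ H.Hs j := by
  have hd : Disjoint (Bd (bar (H.p j))) (inc (H.f (j + 1)) • Bd (H.p (j + 1))) := by
    apply Bd_disj
    rintro ⟨h1, h2⟩
    exact H.red j ⟨h1.symm, by rw [← h1]; exact h2⟩
  intro z hz
  by_contra hz'
  have h1 : z ∈ (H.Hs j)ᶜ := hz'
  rw [Hs_compl, Set.mem_smul_set_iff_inv_smul_mem] at h1
  unfold Hs at hz
  rw [mul_smul, Set.mem_smul_set_iff_inv_smul_mem] at hz
  exact Set.disjoint_left.1 hd h1 hz

theorem Hs_anti {i j : ℤ} (h : i ≤ j) : H.Hs j ⊆ H.Hs i := by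
  have h1 : Antitone H.Hs := antitone_int_of_succ_le (fun j => H.Hs_succ j)
  exact h1 h

theorem mem_Hs (i j : ℤ) (f : F) : H.g i * inc f ∈ H.Hs j ↔ j < i := by
  constructor
  · intro h
    by_contra hij
    have h1 := H.Hs_anti (not_lt.1 hij) h
    unfold Hs at h1
    rw [Set.mem_smul_set_iff_inv_smul_mem, smul_eq_mul] at h1
    have h2 : (H.g i * inc (H.f i))⁻¹ * (H.g i * inc f) = inc ((H.f i)⁻¹ * f) := by
      rw [map_mul, map_inv]; group
    rw [h2] at h1
    exact inc_notMem_Bd _ _ h1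
  · intro h
    have h1 : H.g i * inc f ∈ H.Hs (i - 1) := by
      by_contra h2
      have h3 : H.g i * inc f ∈ (H.Hs (i - 1))ᶜ := h2
      rw [Hs_compl, sub_add_cancel, Set.mem_smul_set_iff_inv_smul_mem, smul_eq_mul,
        inv_mul_cancel_left] at h3
      exact inc_notMem_Bd _ _ h3
    exact H.Hs_anti (by omega) h1

theorem g_mem_Hs (i j : ℤ) : H.g i ∈ H.Hs j ↔ j < i := by
  have h := H.mem_Hs i j 1
  rwa [map_one, mul_one] at h

theorem pow_mem_Hs (m j : ℤ) : x ^ m ∈ H.Hs j ↔ j < m * H.n := by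
  rw [← H.g_mul, g_mem_Hs]

theorem cross_of_nest {K : Set Pi} {i j : ℤ} (h1 : H.Hs j ⊆ K) (h2 : K ⊆ H.Hs i) :
    Cross x K := by
  left
  refine ⟨j.natAbs + i.natAbs + 1, fun m hm => ⟨h1 ?_, fun h3 => ?_⟩⟩
  · rw [← zpow_natCast, pow_mem_Hs]
    have hn := H.pos
    have h5 : (m : ℤ) ≤ m * H.n := by
      have : m * 1 ≤ m * H.n := Nat.mul_le_mul_left m hn
      rw [mul_one] at this
      exact_mod_cast this
    omega
  · have h4 := h2 h3
    rw [inv_pow, ← zpow_natCast, ← zpow_neg, pow_mem_Hs] at h4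
    have hn := H.pos
    have h5 : (m : ℤ) ≤ m * H.n := by
      have : m * 1 ≤ m * H.n := Nat.mul_le_mul_left m hn
      rw [mul_one] at this
      exact_mod_cast this
    have h6 : -(m : ℤ) * H.n = -((m : ℤ) * H.n) := by ring
    omega

theorem cross_of_nest' {K : Set Pi} {i j : ℤ} (h1 : H.Hs j ⊆ Kᶜ) (h2 : Kᶜ ⊆ H.Hs i) :
    Cross x K := by
  have h := (H.cross_of_nest h1 h2).compl
  rwa [compl_compl] at h

/-- the word of a crossing -/
def twd (p : Fin 4) : Wd :=
  ![[(Lt.n 0, true)], [(Lt.n 0, false)], [(Lt.n 1, true)], [(Lt.n 1, false)]] p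

theorem ev_twd (p : Fin 4) : ev (twd p) = t p := by
  fin_cases p
  · show ev [(Lt.n 0, true)] = N 0
    rw [ev_cons, ev_nil, mul_one]; rfl
  · show ev [(Lt.n 0, false)] = (N 0)⁻¹
    rw [ev_cons, ev_nil, mul_one]; rfl
  · show ev [(Lt.n 1, true)] = N 1
    rw [ev_cons, ev_nil, mul_one]; rfl
  · show ev [(Lt.n 1, false)] = (N 1)⁻¹
    rw [ev_cons, ev_nil, mul_one]; rfl

theorem hc_twd (a : Fin 2) (p : Fin 4) : hc a (twd p) = if kind p = a then 1 else 0 := by
  fin_cases p <;> fin_cases a <;> decide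

theorem exists_word (a : Fin 2) (m : ℕ) : ∃ w : Wd, ev w = H.g m ∧
    hc a w = ((Finset.range m).filter (fun j : ℕ => kind (H.p j) = a)).card := by
  induction m with
  | zero => exact ⟨[], by rw [ev_nil]; exact H.g0.symm, rfl⟩
  | succ m ih =>
    obtain ⟨w, h1, h2⟩ := ih
    obtain ⟨w', h3, h4⟩ := exists_word_inc a (H.f m)
    refine ⟨w ++ (w' ++ twd (H.p m)), ?_, ?_⟩
    · rw [ev_append, ev_append, h1, h3, ev_twd, ← mul_assoc]
      have := H.step m
      push_cast
      rw [this]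
    · rw [hc_append, hc_append, h2, h4, hc_twd, zero_add, Finset.range_add_one,
        Finset.filter_insert]
      split_ifs with h5
      · rw [Finset.card_insert_of_notMem (by simp)]
      · rw [add_zero]

theorem Hs_inj {i j : ℤ} (h : H.Hs i = H.Hs j) : i = j := by
  by_contra hij
  rcases lt_or_gt_of_ne hij with h1 | h1
  · have h2 : H.g (i + 1) ∈ H.Hs i := (H.g_mem_Hs _ _).2 (by omega)
    rw [h, g_mem_Hs] at h2
    omega
  · have h2 : H.g (j + 1) ∈ H.Hs j := (H.g_mem_Hs _ _).2 (by omega)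
    rw [← h, g_mem_Hs] at h2
    omega

theorem Hs_ne_compl (i j : ℤ) : H.Hs i ≠ (H.Hs j)ᶜ := by
  intro h
  have h1 : H.g (max i j + 1) ∈ H.Hs i := (H.g_mem_Hs _ _).2 (by omega)
  rw [h] at h1
  exact h1 ((H.g_mem_Hs _ _).2 (by omega))

theorem Hs_wall (j : ℤ) : (∃ k : Pi, H.Hs j = k • Wl (kind (H.p j))) ∨
    ∃ k : Pi, (H.Hs j)ᶜ = k • Wl (kind (H.p j)) := by
  rcases Bd_wall (H.p j) with ⟨k, hk⟩ | ⟨k, hk⟩
  · exact Or.inl ⟨H.g j * inc (H.f j) * k, by unfold Hs; rw [hk, ← mul_smul]⟩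
  · exact Or.inr ⟨H.g j * inc (H.f j) * k, by
      unfold Hs; rw [hk, Set.smul_set_compl, compl_compl, ← mul_smul]⟩

theorem cnt_eq (a : Fin 2) : inum a x = H.cnt a := by
  classical
  apply le_antisymm
  · obtain ⟨w, h1, h2⟩ := H.exists_word a H.n
    have h3 : H.g (H.n : ℤ) = x := by
      have := H.g_mul 1
      rwa [one_mul, zpow_one] at this
    rw [h3] at h1
    have h4 := inum_le (a := a) (x := x) (g := 1) (w := w) (by rw [h1]; group)
    rw [h2] at h4
    exact h4
  · have hT : H.cnt a = Fintype.card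
        {j : ℕ // j ∈ (Finset.range H.n).filter (fun j : ℕ => kind (H.p j) = a)} := by
      rw [Fintype.card_coe]; rfl
    rw [hT]
    have hwall : ∀ t : {j : ℕ // j ∈ (Finset.range H.n).filter
        (fun j : ℕ => kind (H.p j) = a)}, ∃ K : Set Pi, (∃ k : Pi, K = k • Wl a) ∧
          (K = H.Hs t.1 ∨ K = (H.Hs t.1)ᶜ) := by
      intro t
      have ht := (Finset.mem_filter.1 t.2).2
      rcases H.Hs_wall t.1 with ⟨k, hk⟩ | ⟨k, hk⟩
      · exact ⟨_, ⟨k, by rw [hk, ht]⟩, Or.inl rfl⟩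
      · exact ⟨_, ⟨k, by rw [hk, ht]⟩, Or.inr rfl⟩
    choose K hK hK' using hwall
    refine card_le_inum a x K hK ?_ ?_
    · intro t
      have h1 : Cross x (H.Hs t.1) := H.cross_of_nest (le_refl _) (le_refl _)
      rcases hK' t with h | h
      · rw [h]; exact h1
      · rw [h]; exact h1.compl
    · intro t t' m h
      have hlt := Finset.mem_range.1 (Finset.mem_filter.1 t.2).1
      have hlt' := Finset.mem_range.1 (Finset.mem_filter.1 t'.2).1
      have key : H.Hs (t.1 + m * H.n) = H.Hs t'.1 → t = t' := by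
        intro h1
        have h2 := H.Hs_inj h1
        apply Subtype.ext
        have h3 : (t.1 : ℤ) % H.n = (t'.1 : ℤ) % H.n := by
          rw [← h2, Int.add_mul_emod_self_right]
        rw [Int.emod_eq_of_lt (by omega) (by omega), Int.emod_eq_of_lt (by omega) (by omega)] at h3
        exact_mod_cast h3
      rcases hK' t with h1 | h1 <;> rcases hK' t' with h2 | h2
      · rw [h1, h2, smul_Hs] at h
        exact key h
      · rw [h1, h2, smul_Hs] at h
        exact absurd h (H.Hs_ne_compl _ _)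
      · rw [h1, h2, Set.smul_set_compl, smul_Hs] at h
        exact absurd h.symm (H.Hs_ne_compl _ _)
      · rw [h1, h2, Set.smul_set_compl, smul_Hs] at h
        exact key (compl_injective h)

theorem ell_eq : ell x = H.n := by
  unfold ell
  rw [H.cnt_eq, H.cnt_eq]
  unfold cnt
  have h1 : (Finset.range H.n).filter (fun j : ℕ => kind (H.p j) = 1) =
      (Finset.range H.n).filter (fun j : ℕ => ¬ kind (H.p j) = 0) := by
    apply Finset.filter_congr
    intro j _
    generalize kind (H.p j) = k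
    fin_cases k <;> simp
  rw [h1, Finset.card_filter_add_card_filter_not, Finset.card_range]

end HAx

end Pool.Agent.VSB
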