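import Pool.Agent.VSB.FInj

/-! # VSB/Beyond: the halfspaces beyond the boundary lines of the tree `inc F`

`Bd p` : the part of `Pi` beyond the line `Line p` of the tree `inc F`.

`inc_notMem_Bd`, `t_mul_inc_mem_Bd`, `mul_inc_mem_Bd`: for `p = 1`: `g ∈ Bd 1 ↔ N 0 * g ∉ Wl 0`, and `N 0 ∈ Wl 0` because
`Src 0 1 0`; same for `p = 3`.
`Bd_step`: `mul_S_mem_Wl`, `mul_N_mem_Wl`, `rung_eq` (for `p = 1, 3` the edge is traversed backwards; the source is
`inc (pt 0 k)` resp. `inc (pt 2 k)` and `inc (pt 0 k) * N 0 = N 0 * inc (pt 1 k)`).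
`Bd_disj`: suppose `z` in both. `Bd p` is connected (`good_smul_Wl`) and contains `t p`; a path from `z` to `t p`
inside `Bd p` avoids `inc F` (`inc_notMem_Bd`), hence never leaves `inc f • Bd q`, because an edge leaving
`inc f • Bd q` ends in `inc F` (`Bd_step`). So `t p = 1 * stp (rung p 0) ∈ inc f • Bd q`, `1 ∉ inc f • Bd q`, and by
`Bd_step` `f⁻¹ = pt q k` (`inc_injective`) and `rung p 0 = rung q k`; hence `p = q` and `f ∈ zpowers (c p)`.
`side`: a path inside `K` from `z` to a point of `(g * inc f) • Bd p` would enter it through an edge whose tail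
`g * inc f * inc (pt p k)` is in `K`. -/

set_option autoImplicit false

open scoped Pointwise

namespace Pool.Agent.VSB

/-- the part of `Pi` beyond the line `Line p` of the tree `inc F` -/
noncomputable def Bd (p : Fin 4) : Set Pi :=
  ![Wl 0, ((N 0)⁻¹ • Wl 0)ᶜ, Wl 1, ((N 1)⁻¹ • Wl 1)ᶜ] p

theorem mem_Bd0 (g : Pi) : g ∈ Bd 0 ↔ g ∈ Wl 0 := Iff.rfl

theorem mem_Bd2 (g : Pi) : g ∈ Bd 2 ↔ g ∈ Wl 1 := Iff.rfl

theorem mem_Bd1 (g : Pi) : g ∈ Bd 1 ↔ N 0 * g ∉ Wl 0 := by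
  show g ∈ ((N 0)⁻¹ • Wl 0)ᶜ ↔ _
  rw [Set.mem_compl_iff, mem_smul_Wl, inv_inv]

theorem mem_Bd3 (g : Pi) : g ∈ Bd 3 ↔ N 1 * g ∉ Wl 1 := by
  show g ∈ ((N 1)⁻¹ • Wl 1)ᶜ ↔ _
  rw [Set.mem_compl_iff, mem_smul_Wl, inv_inv]

theorem N0_mem : N 0 ∈ Wl 0 := by
  have h : Src 0 1 0 := ⟨0, by rw [pt_zero, map_one], by simp [bot, rung]⟩
  have := (mul_N_mem_Wl 0 1 0).2 (Or.inr h)
  rwa [one_mul] at this

theorem N1_mem : N 1 ∈ Wl 1 := by
  have h : Src 1 1 1 := ⟨0, by rw [pt_zero, map_one], by simp [bot, rung]⟩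
  have := (mul_N_mem_Wl 1 1 1).2 (Or.inr h)
  rwa [one_mul] at this

theorem stp_inv (a : Lt × Bool) : stp (a.1, !a.2) = (stp a)⁻¹ := by
  obtain ⟨l, b⟩ := a
  cases b
  · simp [stp]
  · simp [stp]

/-- an edge entering `Wl a` -/
theorem Wl_step {a : Fin 2} {g : Pi} {l : Lt × Bool} (h0 : g ∉ Wl a) (h1 : g * stp l ∈ Wl a) :
    ∃ k : ℤ, g = inc (pt (bot a) k) ∧ l = rung (bot a) k := by
  obtain ⟨l, b⟩ := l
  cases l with
  | s j =>
    exfalso
    cases b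
    · have h2 : g * (S j)⁻¹ ∈ Wl a := h1
      have h3 := (mul_S_mem_Wl a (g * (S j)⁻¹) j).2 h2
      rw [inv_mul_cancel_right] at h3
      exact h0 h3
    · have h2 : g * S j ∈ Wl a := h1
      exact h0 ((mul_S_mem_Wl a g j).1 h2)
  | n j =>
    cases b
    · exfalso
      have h2 : g * (N j)⁻¹ ∈ Wl a := h1
      have h3 := (mul_N_mem_Wl a (g * (N j)⁻¹) j).2 (Or.inl h2)
      rw [inv_mul_cancel_right] at h3
      exact h0 h3
    · have h2 : g * N j ∈ Wl a := h1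
      rcases (mul_N_mem_Wl a g j).1 h2 with h3 | ⟨k, hk, hk'⟩
      · exact absurd h3 h0
      · exact ⟨k, hk, hk'.symm⟩

/-- an edge leaving `Wl a` -/
theorem Wl_step' {a : Fin 2} {x : Pi} {l : Lt × Bool} (h0 : x ∈ Wl a) (h1 : x * stp l ∉ Wl a) :
    ∃ k : ℤ, x = t (bot a) * inc (pt (bar (bot a)) k) ∧ (l.1, !l.2) = rung (bot a) k := by
  have h2 : x * stp l * stp (l.1, !l.2) ∈ Wl a := by
    rw [stp_inv, mul_inv_cancel_right]; exact h0
  obtain ⟨k, hk, hk'⟩ := Wl_step h1 h2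
  refine ⟨k, ?_, hk'⟩
  rw [← rung_eq, ← hk', ← hk, stp_inv, mul_inv_cancel_right]

theorem inc_notMem_Bd (p : Fin 4) (f : F) : inc f ∉ Bd p := by
  fin_cases p
  · exact inc_notMem_Wl 0 f
  · show inc f ∉ Bd 1
    rw [mem_Bd1, not_not, mul_inc_mem_Wl]
    exact N0_mem
  · exact inc_notMem_Wl 1 f
  · show inc f ∉ Bd 3
    rw [mem_Bd3, not_not, mul_inc_mem_Wl]
    exact N1_mem

theorem t_mul_inc_mem_Bd (p : Fin 4) (f : F) : t p * inc f ∈ Bd p := by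
  fin_cases p
  · show N 0 * inc f ∈ Bd 0
    rw [mem_Bd0, mul_inc_mem_Wl]
    exact N0_mem
  · show (N 0)⁻¹ * inc f ∈ Bd 1
    rw [mem_Bd1, mul_inv_cancel_left]
    exact inc_notMem_Wl 0 f
  · show N 1 * inc f ∈ Bd 2
    rw [mem_Bd2, mul_inc_mem_Wl]
    exact N1_mem
  · show (N 1)⁻¹ * inc f ∈ Bd 3
    rw [mem_Bd3, mul_inv_cancel_left]
    exact inc_notMem_Wl 1 f

theorem mul_inc_mem_Bd (p : Fin 4) (g : Pi) (f : F) : g * inc f ∈ Bd p ↔ g ∈ Bd p := by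
  fin_cases p
  · exact mul_inc_mem_Wl 0 g f
  · show g * inc f ∈ Bd 1 ↔ g ∈ Bd 1
    rw [mem_Bd1, mem_Bd1, ← mul_assoc, mul_inc_mem_Wl]
  · exact mul_inc_mem_Wl 1 g f
  · show g * inc f ∈ Bd 3 ↔ g ∈ Bd 3
    rw [mem_Bd3, mem_Bd3, ← mul_assoc, mul_inc_mem_Wl]

theorem Bd_step {p : Fin 4} {g : Pi} {a : Lt × Bool} (h0 : g ∉ Bd p) (h1 : g * stp a ∈ Bd p) :
    ∃ k : ℤ, g = inc (pt p k) ∧ a = rung p k := by
  fin_cases p
  · exact Wl_step (a := 0) h0 h1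
  · replace h0 : g ∉ Bd 1 := h0
    replace h1 : g * stp a ∈ Bd 1 := h1
    rw [mem_Bd1, not_not] at h0
    rw [mem_Bd1, ← mul_assoc] at h1
    obtain ⟨k, hk, hk'⟩ := Wl_step' h0 h1
    refine ⟨k, ?_, ?_⟩
    · exact mul_left_cancel hk
    · have h2 : (a.1, !a.2) = (Lt.n 0, true) := hk'
      obtain ⟨l, b⟩ := a
      simp only [Prod.mk.injEq, Bool.not_eq_true'] at h2
      show (l, b) = (Lt.n 0, false)
      rw [h2.1, h2.2]
  · exact Wl_step (a := 1) h0 h1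
  · replace h0 : g ∉ Bd 3 := h0
    replace h1 : g * stp a ∈ Bd 3 := h1
    rw [mem_Bd3, not_not] at h0
    rw [mem_Bd3, ← mul_assoc] at h1
    obtain ⟨k, hk, hk'⟩ := Wl_step' h0 h1
    refine ⟨k, ?_, ?_⟩
    · exact mul_left_cancel hk
    · obtain ⟨l, b⟩ := a
      have h2 : (l, !b) = (if k % 2 = 0 then (Lt.n 1, true) else (Lt.n 2, true)) := hk'
      show (l, b) = (if k % 2 = 0 then (Lt.n 1, false) else (Lt.n 2, false))
      split_ifs at h2 ⊢ with h3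
      · simp only [Prod.mk.injEq, Bool.not_eq_true'] at h2
        rw [h2.1, h2.2]
      · simp only [Prod.mk.injEq, Bool.not_eq_true'] at h2
        rw [h2.1, h2.2]

theorem t_smul_Bd (p : Fin 4) : t p • Bd (bar p) = (Bd p)ᶜ := by
  ext x
  rw [Set.mem_smul_set_iff_inv_smul_mem, smul_eq_mul, Set.mem_compl_iff]
  fin_cases p
  · show (N 0)⁻¹ * x ∈ Bd 1 ↔ x ∉ Bd 0
    rw [mem_Bd1, mul_inv_cancel_left, mem_Bd0]
  · show ((N 0)⁻¹)⁻¹ * x ∈ Bd 0 ↔ x ∉ Bd 1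
    rw [mem_Bd1, inv_inv, mem_Bd0, not_not]
  · show (N 1)⁻¹ * x ∈ Bd 3 ↔ x ∉ Bd 2
    rw [mem_Bd3, mul_inv_cancel_left, mem_Bd2]
  · show ((N 1)⁻¹)⁻¹ * x ∈ Bd 2 ↔ x ∉ Bd 3
    rw [mem_Bd3, inv_inv, mem_Bd2, not_not]

theorem c_smul_Bd (p : Fin 4) : inc (c p) • Bd p = Bd p := by
  have key : ∀ (a : Fin 2) (x : Pi), t (bot a) * ((inc (c (bar (bot a))))⁻¹ * x) ∈ Wl a ↔
      t (bot a) * x ∈ Wl a := by
    intro a x
    have h1 : t (bot a) * ((inc (c (bar (bot a))))⁻¹ * x) =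
        (inc (c (bot a)))⁻¹ * (t (bot a) * x) := by
      rw [eq_inv_mul_iff_mul_eq, ← mul_assoc, ← mul_assoc, c_t]
      group
    rw [h1, ← mem_smul_Wl, Wl_smul_c]
  fin_cases p
  · exact Wl_smul_c 0
  · show inc (c 1) • Bd 1 = Bd 1
    ext x
    rw [Set.mem_smul_set_iff_inv_smul_mem, smul_eq_mul, mem_Bd1, mem_Bd1]
    exact not_congr (key 0 x)
  · exact Wl_smul_c 1
  · show inc (c 3) • Bd 3 = Bd 3
    ext x
    rw [Set.mem_smul_set_iff_inv_smul_mem, smul_eq_mul, mem_Bd3, mem_Bd3]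
    exact not_congr (key 1 x)

/-- `Bd p` or its complement is a wall of type `kind p` -/
theorem Bd_wall (p : Fin 4) : (∃ k : Pi, Bd p = k • Wl (kind p)) ∨
    ∃ k : Pi, Bd p = (k • Wl (kind p))ᶜ := by
  fin_cases p
  · exact Or.inl ⟨1, (one_smul _ _).symm⟩
  · exact Or.inr ⟨(N 0)⁻¹, rfl⟩
  · exact Or.inl ⟨1, (one_smul _ _).symm⟩
  · exact Or.inr ⟨(N 1)⁻¹, rfl⟩

theorem conn_Bd (p : Fin 4) : Conn (Bd p) := by
  fin_cases p
  · exact (good_Wl 0).conn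
  · exact (good_smul_Wl 0 _).conn'
  · exact (good_Wl 1).conn
  · exact (good_smul_Wl 1 _).conn'

theorem conn_Bd' (p : Fin 4) : Conn (Bd p)ᶜ := by
  fin_cases p
  · exact (good_Wl 0).conn'
  · show Conn (((N 0)⁻¹ • Wl 0)ᶜ)ᶜ
    rw [compl_compl]
    exact (good_smul_Wl 0 _).conn
  · exact (good_Wl 1).conn'
  · show Conn (((N 1)⁻¹ • Wl 1)ᶜ)ᶜ
    rw [compl_compl]
    exact (good_smul_Wl 1 _).conn

/-- halfspaces beyond different lines are disjoint -/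
theorem Bd_disj {p q : Fin 4} {f : F} (h : ¬ (p = q ∧ f ∈ Subgroup.zpowers (c p))) :
    Disjoint (Bd p) (inc f • Bd q) := by
  rw [Set.disjoint_left]
  intro z hz hz'
  apply h
  have htp : t p ∈ Bd p := by
    have := t_mul_inc_mem_Bd p 1
    rwa [map_one, mul_one] at this
  have hpath := conn_Bd p z hz (t p) htp
  have gen : ∀ w, Relation.ReflTransGen (fun x y => y ∈ Bd p ∧ ∃ a, y = x * stp a) z w →
      w ∈ inc f • Bd q := by
    intro w hw
    induction hw with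
    | refl => exact hz'
    | @tail x y _ hxy ih =>
      obtain ⟨hy, a, rfl⟩ := hxy
      by_contra hcon
      rw [Set.mem_smul_set_iff_inv_smul_mem, smul_eq_mul] at ih hcon
      have h3 : (inc f)⁻¹ * (x * stp a) * stp (a.1, !a.2) ∈ Bd q := by
        rw [stp_inv, ← mul_assoc, mul_inv_cancel_right]
        exact ih
      obtain ⟨k, hk, -⟩ := Bd_step hcon h3
      have h4 : x * stp a = inc (f * pt q k) := by
        rw [map_mul, ← hk, mul_inv_cancel_left]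
      rw [h4] at hy
      exact inc_notMem_Bd p _ hy
  have hin : t p ∈ inc f • Bd q := gen _ hpath
  have h5 : inc f⁻¹ ∉ Bd q := inc_notMem_Bd q _
  have h6 : stp (rung p 0) = t p := by
    have := rung_eq p 0
    rwa [pt_zero, pt_zero, map_one, one_mul, mul_one] at this
  have h7 : inc f⁻¹ * stp (rung p 0) ∈ Bd q := by
    rw [h6, map_inv]
    rwa [Set.mem_smul_set_iff_inv_smul_mem, smul_eq_mul] at hin
  obtain ⟨k, hk, hk'⟩ := Bd_step h5 h7
  have hf := inc_injective hk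
  have h8 : p = q ∧ pt q k ∈ Subgroup.zpowers (c q) := by
    clear h5 h7 hk hf h6 hin hpath htp hz' hz h
    clear gen
    fin_cases p <;> fin_cases q <;> simp [rung] at hk' <;>
      first
      | (split_ifs at hk' <;> simp at hk')
      | (have h9 : k % 2 = 0 := by omega
         refine ⟨rfl, ⟨k / 2, ?_⟩⟩
         simp [pt, h9])
      | (refine ⟨rfl, ⟨k, ?_⟩⟩; simp [pt])
  obtain ⟨rfl, h9⟩ := h8
  refine ⟨rfl, ?_⟩
  rw [← hf] at h9
  exact (Subgroup.inv_mem_iff _).1 h9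

/-- a connected set disjoint from a line lies on one side of it -/
theorem side {K : Set Pi} (hK : Conn K) {g : Pi} {f : F} {p : Fin 4}
    (hd : ∀ k : ℤ, g * inc f * inc (pt p k) ∉ K) (hz : ∃ z ∈ K, z ∉ (g * inc f) • Bd p) :
    Disjoint K ((g * inc f) • Bd p) := by
  rw [Set.disjoint_left]
  intro y hy hy'
  obtain ⟨z, hz, hz'⟩ := hz
  have hpath := hK z hz y hy
  have key : y ∈ K ∧ y ∉ (g * inc f) • Bd p := by
    clear hy'
    clear hy
    induction hpath with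
    | refl => exact ⟨hz, hz'⟩
    | @tail x w _ hxy ih =>
      obtain ⟨hw, a, rfl⟩ := hxy
      refine ⟨hw, fun hcon => ?_⟩
      obtain ⟨hx, hx'⟩ := ih
      rw [Set.mem_smul_set_iff_inv_smul_mem, smul_eq_mul] at hx' hcon
      rw [← mul_assoc] at hcon
      obtain ⟨k, hk, -⟩ := Bd_step hx' hcon
      apply hd k
      rw [← hk, mul_inv_cancel_left]
      exact hx
  exact key.2 hy'

end Pool.Agent.VSB
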