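import Pool.Agent.VSB.LineF

/-! # VSB/Bridge: the bridge between two lines of the tree

PROOF of `exists_bridge`. Choose `x ∈ Line p`, `y₀ ∈ Line q` with `(x⁻¹ * f * y₀).norm` minimal (`Nat.find`), and
`b = (x⁻¹ * f * y₀).toWord` (reduced). For `y ∈ Line q`:
`(x * mk (b.take i))⁻¹ * f * y = mk (b.drop i) * (y₀⁻¹ * y)`; if there were a cancellation, `y₀⁻¹ * y` would start with the
inverse of the last letter `a` of `b`, so `y₀ * mk [a]⁻¹ ∈ Line q` (`Line_conv`) is closer to `x`: contradiction to
minimality; so the product is reduced and starts with `b[i]`. For `y ∈ Line p`: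
`(x * mk (b.take i))⁻¹ * y = (mk (b.take i))⁻¹ * (x⁻¹ * y)`; `x⁻¹ * y` does not start with `b[0]` by the same argument; so
for `i = 0` we are done, and for `i > 0` there is no cancellation and the first letter is the inverse of `b[i - 1]`,
which is not `b[i]` as `b` is reduced. Third statement: `mk (b.drop i |>.take ..)` is reduced. -/

set_option autoImplicit false

namespace Pool.Agent.VSB

theorem bdg_SW_inv (u : F) (a : Fin 3 × Bool) :
    SW a u⁻¹ ↔ u.toWord.getLast? = some (a.1, !a.2) := by
  unfold SW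
  rw [FreeGroup.toWord_inv, FreeGroup.invRev, List.head?_reverse, List.getLast?_map]
  obtain ⟨j, e⟩ := a
  cases h : u.toWord.getLast? with
  | none => simp
  | some x =>
    obtain ⟨j', e'⟩ := x
    cases e <;> cases e' <;> simp

/-- no cancellation -/
theorem bdg_nc (u v : F) (h : ∀ a, SW a u⁻¹ → ¬ SW a v) :
    (u * v).toWord = u.toWord ++ v.toWord := by
  rw [FreeGroup.toWord_mul]
  apply FreeGroup.IsReduced.reduce_eq
  refine List.IsChain.append FreeGroup.isReduced_toWord FreeGroup.isReduced_toWord ?_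
  intro x hx y hy hxy
  by_contra hne
  refine h y ((bdg_SW_inv u y).mpr ?_) hy
  rw [hx]
  obtain ⟨j, e⟩ := x
  obtain ⟨j', e'⟩ := y
  simp only at hxy hne
  subst hxy
  cases e <;> cases e' <;> simp_all

theorem bdg_toWord_mk {b : List (Fin 3 × Bool)} (h : FreeGroup.IsReduced b) :
    (FreeGroup.mk b : F).toWord = b := by
  rw [FreeGroup.toWord_mk, h.reduce_eq]

theorem bdg_SW_unique {a a' : Fin 3 × Bool} {f : F} (h : SW a f) (h' : SW a' f) : a = a' := by
  unfold SW at h h'
  rw [h] at h'
  exact Option.some.inj h'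

/-- two adjacent letters of a reduced word -/
theorem bdg_adj {b : List (Fin 3 × Bool)} (h : FreeGroup.IsReduced b) (i : ℕ)
    (hi : i + 1 < b.length) : b[i + 1] ≠ (b[i].1, !b[i].2) := by
  intro h1
  have h2 := List.isChain_iff_getElem.mp h i hi
  rw [h1] at h2
  have h3 := h2 rfl
  revert h3
  generalize b[i].2 = z
  cases z <;> simp

theorem exists_bridge {p q : Fin 4} {f : F} {m : ℕ} (hd : Dst p f q m) :
    ∃ (x : F) (b : List (Fin 3 × Bool)), x ∈ Line p ∧ m ≤ b.length ∧
      ∀ (i : ℕ) (hi : i < b.length),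
        (∀ y ∈ Line p, ¬ SW b[i] ((x * FreeGroup.mk (b.take i))⁻¹ * y)) ∧
        (∀ y ∈ Line q, SW b[i] ((x * FreeGroup.mk (b.take i))⁻¹ * f * y)) ∧
        (∀ i' : ℕ, i < i' → i' ≤ b.length →
          SW b[i] ((x * FreeGroup.mk (b.take i))⁻¹ * (x * FreeGroup.mk (b.take i')))) ∧
        ∀ i' : ℕ, i' ≤ i →
          ¬ SW b[i] ((x * FreeGroup.mk (b.take i))⁻¹ * (x * FreeGroup.mk (b.take i'))) := by
  classical
  have hex : ∃ n : ℕ, ∃ x ∈ Line p, ∃ y ∈ Line q, (x⁻¹ * f * y).norm = n :=
    ⟨_, 1, one_mem_Line p, 1, one_mem_Line q, rfl⟩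
  obtain ⟨x, hx, y₀, hy₀, hn⟩ := Nat.find_spec hex
  have hmin : ∀ x' ∈ Line p, ∀ y' ∈ Line q, Nat.find hex ≤ (x'⁻¹ * f * y').norm :=
    fun x' hx' y' hy' => Nat.find_min' hex ⟨x', hx', y', hy', rfl⟩
  rw [← hn] at hmin
  clear hn
  set w : F := x⁻¹ * f * y₀ with hw
  set b := w.toWord with hb
  have hbr : FreeGroup.IsReduced b := FreeGroup.isReduced_toWord
  have hmk : (FreeGroup.mk b : F) = w := FreeGroup.mk_toWord
  have hnorm : w.norm = b.length := rfl
  rw [hnorm] at hmin
  have hfy : f * y₀ = x * FreeGroup.mk b := by rw [hmk, hw]; group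
  have hsplit : ∀ i, (FreeGroup.mk (b.take i) : F) * FreeGroup.mk (b.drop i) = FreeGroup.mk b := by
    intro i
    rw [FreeGroup.mul_mk, List.take_append_drop]
  -- first letters
  have hfirst : ∀ y ∈ Line p, ∀ (h0 : 0 < b.length), ¬ SW b[0] (x⁻¹ * y) := by
    intro y hy h0 hsw
    have h1 := Line_conv hx hy hsw
    have h2 := hmin _ h1 _ hy₀
    have h3 : (x * FreeGroup.mk [b[0]])⁻¹ * f * y₀ = FreeGroup.mk (b.drop 1) := by
      have h4 := hsplit 1
      have h5 : b.take 1 = [b[0]] := by
        rw [List.take_one, List.head?_eq_getElem?, List.getElem?_eq_getElem h0]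
        rfl
      rw [h5] at h4
      rw [mul_assoc, hfy, ← h4]
      group
    rw [h3] at h2
    have h4 := h2.trans (FreeGroup.norm_mk_le)
    rw [List.length_drop] at h4
    omega
  have hlast : ∀ y ∈ Line q, ∀ a, b.getLast? = some (a.1, !a.2) → ¬ SW a (y₀⁻¹ * y) := by
    intro y hy a ha hsw
    have h1 := Line_conv hy₀ hy hsw
    have h2 := hmin _ hx _ h1
    have hne : b ≠ [] := by
      rintro h
      rw [h] at ha
      simp at ha
    have h3 : x⁻¹ * f * (y₀ * FreeGroup.mk [a]) = FreeGroup.mk b.dropLast := by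
      have h4 : b.dropLast ++ [b.getLast hne] = b := List.dropLast_append_getLast hne
      have h5 : b.getLast hne = (a.1, !a.2) := by
        rw [List.getLast?_eq_some_getLast hne] at ha
        exact Option.some.inj ha
      rw [h5] at h4
      have h6 : (FreeGroup.mk b : F) = FreeGroup.mk b.dropLast * FreeGroup.mk [(a.1, !a.2)] := by
        rw [FreeGroup.mul_mk, h4]
      have h7 : (FreeGroup.mk [(a.1, !a.2)] : F) = (FreeGroup.mk [a])⁻¹ := by
        rw [FreeGroup.inv_mk]
        rfl
      rw [← mul_assoc, ← hw, ← hmk, h6, h7]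
      group
    rw [h3] at h2
    have h4 := h2.trans (FreeGroup.norm_mk_le)
    rw [List.length_dropLast] at h4
    have h5 := List.length_pos_iff.mpr hne
    omega
  refine ⟨x, b, hx, ?_, ?_⟩
  · exact hd x hx y₀ hy₀
  intro i hi
  have htake : ∀ j, FreeGroup.IsReduced (b.take j) := fun j =>
    List.IsChain.take hbr j
  have hdrop : ∀ j, FreeGroup.IsReduced (b.drop j) := fun j =>
    List.IsChain.drop hbr j
  have hmid : ∀ j k, FreeGroup.IsReduced ((b.take k).drop j) := fun j k =>
    List.IsChain.drop (htake k) j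
  -- the inverse of the last letter of `take i` is not `b[i]`
  have hprev : ∀ j < i, ¬ SW b[i] (FreeGroup.mk ((b.take i).drop j) : F)⁻¹ := by
    intro j hj
    rw [bdg_SW_inv, bdg_toWord_mk (hmid j i)]
    intro h1
    obtain ⟨i', rfl⟩ : ∃ i', i = i' + 1 := ⟨i - 1, by omega⟩
    have h2 : ((b.take (i' + 1)).drop j).getLast? = some b[i'] := by
      rw [List.getLast?_drop, List.getLast?_eq_getElem?]
      rw [if_neg (by rw [List.length_take]; omega)]
      rw [List.length_take, min_eq_left (by omega), List.getElem?_take]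
      simp only [Nat.add_sub_cancel, Nat.lt_add_one, if_true]
      rw [List.getElem?_eq_getElem]
    rw [h2] at h1
    have h3 := Option.some.inj h1
    refine bdg_adj hbr i' hi ?_
    rw [h3]
    simp
  refine ⟨?_, ?_, ?_, ?_⟩
  · intro y hy hsw
    have h0 : 0 < b.length := by omega
    have h1 := hfirst y hy h0
    rcases Nat.eq_zero_or_pos i with hi0 | hi0
    · subst hi0
      apply h1
      have h2 : (x * FreeGroup.mk (b.take 0))⁻¹ = x⁻¹ := by
        rw [List.take_zero, ← FreeGroup.one_eq_mk, mul_one]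
      rwa [h2] at hsw
    · have h2 : (x * FreeGroup.mk (b.take i))⁻¹ * y =
          (FreeGroup.mk (b.take i))⁻¹ * (x⁻¹ * y) := by group
      rw [h2] at hsw
      have h3 : ((FreeGroup.mk (b.take i))⁻¹ * (x⁻¹ * y)).toWord =
          (FreeGroup.mk (b.take i) : F)⁻¹.toWord ++ (x⁻¹ * y).toWord := by
        apply bdg_nc
        intro a ha ha'
        rw [inv_inv] at ha
        have h4 : SW b[0] (FreeGroup.mk (b.take i) : F) := by
          unfold SW
          rw [bdg_toWord_mk (htake i), List.head?_take, if_neg (by omega),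
            List.head?_eq_getElem?, List.getElem?_eq_getElem]
        rw [bdg_SW_unique ha h4] at ha'
        exact h1 ha'
      have h5 := hprev 0 hi0
      rw [List.drop_zero] at h5
      apply h5
      unfold SW at hsw ⊢
      rw [h3, List.head?_append] at hsw
      have h6 : (FreeGroup.mk (b.take i) : F)⁻¹.toWord ≠ [] := by
        intro h7
        have h8 : (FreeGroup.mk (b.take i) : F)⁻¹.norm = 0 := by
          show (FreeGroup.mk (b.take i) : F)⁻¹.toWord.length = 0
          rw [h7]
          rfl
        rw [FreeGroup.norm_inv_eq] at h8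
        have h9 : (b.take i).length = 0 := by
          have : (FreeGroup.mk (b.take i) : F).toWord.length = 0 := h8
          rwa [bdg_toWord_mk (htake i)] at this
        rw [List.length_take] at h9
        omega
      cases h7 : (FreeGroup.mk (b.take i) : F)⁻¹.toWord with
      | nil => exact absurd h7 h6
      | cons z zs =>
        rw [h7] at hsw
        simpa using hsw
  · intro y hy
    have h2 : (x * FreeGroup.mk (b.take i))⁻¹ * f * y =
        FreeGroup.mk (b.drop i) * (y₀⁻¹ * y) := by
      have h3 : f = x * FreeGroup.mk b * y₀⁻¹ := by rw [← hfy]; group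
      rw [h3, ← hsplit i]
      group
    have h3 : (FreeGroup.mk (b.drop i) * (y₀⁻¹ * y)).toWord =
        (FreeGroup.mk (b.drop i) : F).toWord ++ (y₀⁻¹ * y).toWord := by
      apply bdg_nc
      intro a ha
      apply hlast y hy a
      rw [bdg_SW_inv, bdg_toWord_mk (hdrop i), List.getLast?_drop, if_neg (by omega)] at ha
      exact ha
    unfold SW
    rw [h2, h3, bdg_toWord_mk (hdrop i), List.head?_append, List.head?_drop,
      List.getElem?_eq_getElem hi]
    rfl
  · intro i' hlt hle
    have h2 : (x * FreeGroup.mk (b.take i))⁻¹ * (x * FreeGroup.mk (b.take i')) =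
        FreeGroup.mk ((b.take i').drop i) := by
      have h3 : (FreeGroup.mk (b.take i') : F) =
          FreeGroup.mk (b.take i) * FreeGroup.mk ((b.take i').drop i) := by
        rw [FreeGroup.mul_mk]
        congr 1
        have h4 : b.take i = (b.take i').take i := by
          rw [List.take_take, min_eq_left hlt.le]
        rw [h4, List.take_append_drop]
      rw [h3]
      group
    unfold SW
    rw [h2, bdg_toWord_mk (hmid i i'), List.head?_drop, List.getElem?_take, if_pos hlt,
      List.getElem?_eq_getElem hi]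
  · intro i' hle
    have h2 : (x * FreeGroup.mk (b.take i))⁻¹ * (x * FreeGroup.mk (b.take i')) =
        (FreeGroup.mk ((b.take i).drop i'))⁻¹ := by
      have h3 : (FreeGroup.mk (b.take i) : F) =
          FreeGroup.mk (b.take i') * FreeGroup.mk ((b.take i).drop i') := by
        rw [FreeGroup.mul_mk]
        congr 1
        have h4 : b.take i' = (b.take i).take i' := by
          rw [List.take_take, min_eq_left hle]
        rw [h4, List.take_append_drop]
      rw [h3]
      group
    rw [h2]
    rcases Nat.lt_or_ge i' i with h3 | h3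
    · exact hprev i' h3
    · have h4 : (b.take i).drop i' = [] := by
        rw [List.drop_eq_nil_iff, List.length_take]
        omega
      rw [h4]
      unfold SW
      have h5 : (FreeGroup.mk [] : F)⁻¹ = 1 := by
        rw [← FreeGroup.one_eq_mk, inv_one]
      rw [h5, FreeGroup.toWord_one]
      simp

/-- certificate for the distance of two lines -/
theorem Dst_of_bridge {p q : Fin 4} (i l : ℤ) (b : List (Fin 3 × Bool)) (hb : b ≠ [])
    (hr : FreeGroup.reduce b = b)
    (h1 : b.head hb ≠ (lt p i, true) ∧ b.head hb ≠ (lt p (i - 1), false))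
    (h2 : b.getLast hb ≠ (lt q l, false) ∧ b.getLast hb ≠ (lt q (l - 1), true)) :
    Dst p (pt p i * FreeGroup.mk b * (pt q l)⁻¹) q b.length := by
  have hbr : FreeGroup.IsReduced b := FreeGroup.IsReduced.of_reduce_eq hr
  have hw := bdg_toWord_mk hbr
  rintro x ⟨k, rfl⟩ y ⟨k', rfl⟩
  have e1 : (pt p k)⁻¹ * (pt p i * FreeGroup.mk b * (pt q l)⁻¹) * pt q k' =
      ((pt p k)⁻¹ * pt p i) * (FreeGroup.mk b * ((pt q l)⁻¹ * pt q k')) := by group
  have e2 : (FreeGroup.mk b * ((pt q l)⁻¹ * pt q k')).toWord =
      b ++ ((pt q l)⁻¹ * pt q k').toWord := by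
    rw [bdg_nc, hw]
    intro a ha ha'
    rw [bdg_SW_inv, hw, List.getLast?_eq_some_getLast hb] at ha
    have ha2 := Option.some.inj ha
    rcases lt_trichotomy l k' with h | h | h
    · have h3 := bdg_SW_unique ha' (SW_pt q h)
      rw [h3] at ha2
      exact h2.1 ha2
    · subst h
      rw [inv_mul_cancel] at ha'
      unfold SW at ha'
      rw [FreeGroup.toWord_one] at ha'
      simp at ha'
    · have h3 := bdg_SW_unique ha' (SW_pt' q h)
      rw [h3] at ha2
      exact h2.2 ha2
  have e3 : (((pt p k)⁻¹ * pt p i) * (FreeGroup.mk b * ((pt q l)⁻¹ * pt q k'))).toWord =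
      ((pt p k)⁻¹ * pt p i).toWord ++ (b ++ ((pt q l)⁻¹ * pt q k').toWord) := by
    rw [bdg_nc, e2]
    intro a ha ha'
    have e4 : ((pt p k)⁻¹ * pt p i)⁻¹ = (pt p i)⁻¹ * pt p k := by group
    rw [e4] at ha
    have ha2 : a = b.head hb := by
      unfold SW at ha'
      rw [e2, List.head?_append, List.head?_eq_some_head hb] at ha'
      have := Option.some.inj ha'
      exact this.symm
    rcases lt_trichotomy i k with h | h | h
    · have h3 := bdg_SW_unique ha (SW_pt p h)
      rw [← ha2] at h1
      exact h1.1 h3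
    · subst h
      rw [inv_mul_cancel] at ha
      unfold SW at ha
      rw [FreeGroup.toWord_one] at ha
      simp at ha
    · have h3 := bdg_SW_unique ha (SW_pt' p h)
      rw [← ha2] at h1
      exact h1.2 h3
  show b.length ≤ _
  rw [e1]
  show b.length ≤ (((pt p k)⁻¹ * pt p i) * (FreeGroup.mk b * ((pt q l)⁻¹ * pt q k'))).toWord.length
  rw [e3, List.length_append, List.length_append]
  omega

end Pool.Agent.VSB
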