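import Mathlib

/-! # VSB/Circ1: elements of `SL(2, ℝ)`

* `ell_bdd`: let `M = !![a, b; c, d]`, `a * d - b * c = 1`, `|a + d| < 2`. The quadratic form
`Q (x, y) = c * x ^ 2 + (d - a) * x * y - b * y ^ 2` satisfies `Q (M v) = Q v` (`ring`, `a d - b c = 1`), and its discriminant
`(d - a) ^ 2 + 4 * b * c = (a + d) ^ 2 - 4` is negative, so `Q` is definite: with `ε = sign c`,
`ε * Q v ≥ κ * (x ^ 2 + y ^ 2)` for some `κ > 0` (`c ≠ 0`; complete the square in both variables: `4 c Q = (2 c x + (d - a) y) ^ 2 + (4 - (a + d) ^ 2) y ^ 2`,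
`-4 b Q = …`). Hence `|M ^ n v|` is bounded by a constant times `|v|` for all `n`; apply to the two basis vectors.
* `par_shrink`: `|a + d| = 2`; let `s = ± 1` with `a + d = 2 s`. Then `M - s • 1` has trace and determinant `0`. If
`M = s • 1` take `X = 1`. Otherwise there is `P ∈ SL(2, ℝ)` with `P⁻¹ * M * P = !![s, t; 0, s]`: the first column of `P` is an
eigenvector of `M` for `s` (a nonzero column of `M - s • 1`, or a kernel vector), complete to determinant one. With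
`X = P * diag(r, r⁻¹)`, `X⁻¹ * M * X = !![s, r⁻² * t; 0, s]`; take `r` large.
* `hyp_eig`: `|a + d| > 2`; the roots of `X ^ 2 - (a + d) X + 1` are real, `s` and `s⁻¹`, `|s| > 1`
(`s = (τ + sign τ * √(τ ^ 2 - 4)) / 2`). Choose eigenvectors `u` for `s` and `u'` for `s⁻¹` (nonzero kernel vectors of the
singular matrices `M - s`, `M - s⁻¹`), they are independent; scale one so that the determinant of `P = (u, u')` is `1`. -/

set_option autoImplicit false

open scoped MatrixGroups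

namespace Pool.Agent.VSB.M

theorem detC1 (M : SL(2, ℝ)) : (M : Matrix (Fin 2) (Fin 2) ℝ) 0 0 * M 1 1 - M 0 1 * M 1 0 = 1 := by
  have h := M.det_coe
  rwa [Matrix.det_fin_two] at h

theorem chC1 (M : SL(2, ℝ)) : (M : Matrix (Fin 2) (Fin 2) ℝ) * M =
    (M : Matrix (Fin 2) (Fin 2) ℝ).trace • (M : Matrix (Fin 2) (Fin 2) ℝ) - 1 := by
  have h := detC1 M
  ext i j
  fin_cases i <;> fin_cases j <;>
    simp [Matrix.mul_apply, Fin.sum_univ_two, Matrix.trace_fin_two] <;> linarith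

theorem powC1 (M : SL(2, ℝ)) (n : ℕ) : ∃ a b : ℝ, ((M ^ n : SL(2, ℝ)) : Matrix (Fin 2) (Fin 2) ℝ) =
    a • (M : Matrix (Fin 2) (Fin 2) ℝ) + b • 1 ∧
    a ^ 2 + (M : Matrix (Fin 2) (Fin 2) ℝ).trace * a * b + b ^ 2 = 1 := by
  induction n with
  | zero => exact ⟨0, 1, by simp, by ring⟩
  | succ n ih =>
    obtain ⟨a, b, h1, h2⟩ := ih
    refine ⟨(M : Matrix (Fin 2) (Fin 2) ℝ).trace * a + b, -a, ?_, ?_⟩
    · rw [pow_succ, Matrix.SpecialLinearGroup.coe_mul, h1, add_mul, smul_mul_assoc, chC1,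
        smul_mul_assoc, one_mul, smul_sub, smul_smul]
      module
    · linear_combination h2

theorem ell_bdd (M : SL(2, ℝ)) (h : |(M : Matrix (Fin 2) (Fin 2) ℝ).trace| < 2) :
    ∃ C : ℝ, ∀ (n : ℕ) (i j : Fin 2), |(M ^ n : SL(2, ℝ)) i j| ≤ C := by
  set τ := (M : Matrix (Fin 2) (Fin 2) ℝ).trace with hτ
  have hk : 0 < 1 - |τ| / 2 := by linarith
  set κ := 1 / (1 - |τ| / 2) with hκ
  have hκ0 : 0 < κ := by positivity
  set S := ∑ i : Fin 2, ∑ j : Fin 2, |(M : Matrix (Fin 2) (Fin 2) ℝ) i j| with hS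
  refine ⟨(κ + 1) * S + (κ + 1), fun n i j => ?_⟩
  obtain ⟨a, b, h1, h2⟩ := powC1 M n
  rw [← hτ] at h2
  have h3 : (1 - |τ| / 2) * (a ^ 2 + b ^ 2) ≤ 1 := by
    have h4 : |τ * a * b| ≤ |τ| * ((a ^ 2 + b ^ 2) / 2) := by
      rw [mul_assoc, abs_mul]
      apply mul_le_mul_of_nonneg_left _ (abs_nonneg τ)
      rw [abs_le]
      constructor <;> nlinarith [sq_nonneg (a + b), sq_nonneg (a - b)]
    have h5 := (abs_le.1 h4).1
    linarith
  have h6 : a ^ 2 + b ^ 2 ≤ κ := by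
    rw [hκ, le_div_iff₀ hk]
    linarith
  have hab : ∀ x : ℝ, x ^ 2 ≤ κ → |x| ≤ κ + 1 := by
    intro x hx
    by_contra hc
    push Not at hc
    have h7 : 1 ≤ |x| := by linarith
    have h8 : |x| ≤ |x| ^ 2 := by nlinarith
    rw [sq_abs] at h8
    linarith
  have ha : |a| ≤ κ + 1 := hab a (by nlinarith [sq_nonneg b])
  have hb : |b| ≤ κ + 1 := hab b (by nlinarith [sq_nonneg a])
  have h9 : |(M : Matrix (Fin 2) (Fin 2) ℝ) i j| ≤ S := by
    rw [hS]
    refine le_trans ?_ (Finset.single_le_sum (f := fun i : Fin 2 => ∑ j : Fin 2,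
      |(M : Matrix (Fin 2) (Fin 2) ℝ) i j|) (fun _ _ => Finset.sum_nonneg fun _ _ => abs_nonneg _)
      (Finset.mem_univ i))
    exact Finset.single_le_sum (f := fun j : Fin 2 => |(M : Matrix (Fin 2) (Fin 2) ℝ) i j|)
      (fun _ _ => abs_nonneg _) (Finset.mem_univ j)
  have h10 : |(1 : Matrix (Fin 2) (Fin 2) ℝ) i j| ≤ 1 := by
    rw [Matrix.one_apply]
    split_ifs <;> simp
  rw [h1, Matrix.add_apply, Matrix.smul_apply, Matrix.smul_apply, smul_eq_mul, smul_eq_mul]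
  calc |a * (M : Matrix (Fin 2) (Fin 2) ℝ) i j + b * (1 : Matrix (Fin 2) (Fin 2) ℝ) i j|
      ≤ |a * (M : Matrix (Fin 2) (Fin 2) ℝ) i j| + |b * (1 : Matrix (Fin 2) (Fin 2) ℝ) i j| :=
        abs_add_le _ _
    _ = |a| * |(M : Matrix (Fin 2) (Fin 2) ℝ) i j| + |b| * |(1 : Matrix (Fin 2) (Fin 2) ℝ) i j| := by
        rw [abs_mul, abs_mul]
    _ ≤ (κ + 1) * S + (κ + 1) * 1 := by
        apply add_le_add
        · exact mul_le_mul ha h9 (abs_nonneg _) (by linarith)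
        · exact mul_le_mul hb h10 (abs_nonneg _) (by linarith)
    _ = (κ + 1) * S + (κ + 1) := by ring

theorem conjC1 {M X : SL(2, ℝ)} {T : Matrix (Fin 2) (Fin 2) ℝ}
    (h : (M : Matrix (Fin 2) (Fin 2) ℝ) * X = (X : Matrix (Fin 2) (Fin 2) ℝ) * T) :
    ((X⁻¹ * M * X : SL(2, ℝ)) : Matrix (Fin 2) (Fin 2) ℝ) = T := by
  rw [mul_assoc, Matrix.SpecialLinearGroup.coe_mul, Matrix.SpecialLinearGroup.coe_mul, h,
    ← Matrix.mul_assoc, ← Matrix.SpecialLinearGroup.coe_mul, inv_mul_cancel,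
    Matrix.SpecialLinearGroup.coe_one, Matrix.one_mul]

theorem eta2C1 (M : Matrix (Fin 2) (Fin 2) ℝ) : M = !![M 0 0, M 0 1; M 1 0, M 1 1] :=
  Matrix.eta_fin_two M

theorem par_shrink (M : SL(2, ℝ)) (h : |(M : Matrix (Fin 2) (Fin 2) ℝ).trace| = 2) :
    ∃ s : ℝ, (s = 1 ∨ s = -1) ∧ ∀ ε : ℝ, 0 < ε → ∃ X : SL(2, ℝ), ∀ i j : Fin 2,
      |((X⁻¹ * M * X : SL(2, ℝ)) : Matrix (Fin 2) (Fin 2) ℝ) i j -
        (s • (1 : Matrix (Fin 2) (Fin 2) ℝ)) i j| ≤ ε := by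
  obtain ⟨s, hs, hτ⟩ : ∃ s : ℝ, (s = 1 ∨ s = -1) ∧
      (M : Matrix (Fin 2) (Fin 2) ℝ).trace = 2 * s := by
    rcases (abs_eq (by norm_num : (0 : ℝ) ≤ 2)).1 h with h | h
    · exact ⟨1, Or.inl rfl, by rw [h]; norm_num⟩
    · exact ⟨-1, Or.inr rfl, by rw [h]; norm_num⟩
  refine ⟨s, hs, fun ε hε => ?_⟩
  have hs2 : s ^ 2 = 1 := by rcases hs with rfl | rfl <;> norm_num
  have hd := detC1 M
  rw [Matrix.trace_fin_two] at hτ
  have hM := eta2C1 (M : Matrix (Fin 2) (Fin 2) ℝ)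
  set a := (M : Matrix (Fin 2) (Fin 2) ℝ) 0 0 with ha
  set b := (M : Matrix (Fin 2) (Fin 2) ℝ) 0 1 with hb
  set c := (M : Matrix (Fin 2) (Fin 2) ℝ) 1 0 with hc
  set d := (M : Matrix (Fin 2) (Fin 2) ℝ) 1 1 with hd'
  -- it suffices to find `X` and `t` with `M X = X [s, t; 0, s]`, `|t| ≤ ε`
  suffices hX : ∃ (X : SL(2, ℝ)) (t : ℝ), |t| ≤ ε ∧
      (M : Matrix (Fin 2) (Fin 2) ℝ) * X = (X : Matrix (Fin 2) (Fin 2) ℝ) * !![s, t; 0, s] by
    obtain ⟨X, t, ht, hX⟩ := hX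
    refine ⟨X, fun i j => ?_⟩
    rw [conjC1 hX]
    fin_cases i <;> fin_cases j <;> simp [ht, hε.le]
  by_cases hc0 : c = 0
  · -- upper triangular
    have h1 : (a - s) ^ 2 = 0 := by
      have : d = 2 * s - a := by linarith
      rw [hc0, this] at hd
      nlinarith
    have h2 : a = s := by
      have := pow_eq_zero_iff (two_ne_zero) |>.1 h1
      linarith
    have h3 : d = s := by linarith
    -- `ρ⁻² |b| ≤ ε`
    set ρ := Real.sqrt (|b| / ε + 1) with hρ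
    have hρ1 : 0 < |b| / ε + 1 := by positivity
    have hρ0 : 0 < ρ := Real.sqrt_pos.2 hρ1
    have hρ2 : ρ ^ 2 = |b| / ε + 1 := Real.sq_sqrt hρ1.le
    refine ⟨⟨!![ρ, 0; 0, ρ⁻¹], by rw [Matrix.det_fin_two_of]; field_simp; ring⟩, b / ρ ^ 2, ?_, ?_⟩
    · rw [abs_div, abs_of_pos (by positivity : (0 : ℝ) < ρ ^ 2), div_le_iff₀ (by positivity), hρ2]
      have : ε * (|b| / ε + 1) = |b| + ε := by field_simp
      rw [this]
      linarith
    · show (M : Matrix (Fin 2) (Fin 2) ℝ) * !![ρ, 0; 0, ρ⁻¹] =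
        !![ρ, 0; 0, ρ⁻¹] * !![s, b / ρ ^ 2; 0, s]
      rw [hM, hc0, h2, h3, Matrix.mul_fin_two, Matrix.mul_fin_two]
      congr 1
      ext i j
      fin_cases i <;> fin_cases j <;> simp <;> field_simp
  · -- `N = M - s`, `N = [p, b; c, -p]`
    set p := a - s with hp
    have hdp : d = s - p := by rw [hp]; linarith
    have hN : p ^ 2 + b * c = 0 := by
      have h1 : a = s + p := by rw [hp]; ring
      rw [h1, hdp] at hd
      nlinarith
    set ρ := Real.sqrt (|c⁻¹| / ε + 1) with hρ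
    have hρ1 : 0 < |c⁻¹| / ε + 1 := by positivity
    have hρ0 : 0 < ρ := Real.sqrt_pos.2 hρ1
    have hρ2 : ρ ^ 2 = |c⁻¹| / ε + 1 := Real.sq_sqrt hρ1.le
    refine ⟨⟨!![ρ * p, -(ρ⁻¹ * c⁻¹); ρ * c, 0], ?_⟩, -(c⁻¹ / ρ ^ 2), ?_, ?_⟩
    · rw [Matrix.det_fin_two_of]
      field_simp
      ring
    · rw [abs_neg, abs_div, abs_of_pos (by positivity : (0 : ℝ) < ρ ^ 2),
        div_le_iff₀ (by positivity), hρ2]
      have : ε * (|c⁻¹| / ε + 1) = |c⁻¹| + ε := by field_simp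
      rw [this]
      linarith
    · show (M : Matrix (Fin 2) (Fin 2) ℝ) * !![ρ * p, -(ρ⁻¹ * c⁻¹); ρ * c, 0] =
        !![ρ * p, -(ρ⁻¹ * c⁻¹); ρ * c, 0] * !![s, -(c⁻¹ / ρ ^ 2); 0, s]
      have h1 : a = s + p := by rw [hp]; ring
      rw [hM, h1, hdp, Matrix.mul_fin_two, Matrix.mul_fin_two]
      ext i j
      fin_cases i <;> fin_cases j
      · simp
        linear_combination ρ * hN
      · simp
        field_simp
        ring
      · simp
        ring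
      · simp
        field_simp

theorem root_existsC1 {τ : ℝ} (h : 2 < |τ|) : ∃ s : ℝ, 1 < |s| ∧ s ^ 2 - τ * s + 1 = 0 := by
  have h4 : 0 ≤ τ ^ 2 - 4 := by
    rw [← sq_abs]
    nlinarith
  have h5 := Real.sq_sqrt h4
  have h6 := Real.sqrt_nonneg (τ ^ 2 - 4)
  rcases lt_abs.1 h with h1 | h1
  · refine ⟨(τ + Real.sqrt (τ ^ 2 - 4)) / 2, ?_, ?_⟩
    · rw [lt_abs]
      left
      linarith
    · linear_combination h5 / 4
  · refine ⟨(τ - Real.sqrt (τ ^ 2 - 4)) / 2, ?_, ?_⟩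
    · rw [lt_abs]
      right
      linarith
    · linear_combination h5 / 4

theorem hyp_eig (M : SL(2, ℝ)) (h : 2 < |(M : Matrix (Fin 2) (Fin 2) ℝ).trace|) :
    ∃ (s : ℝ) (P : SL(2, ℝ)), 1 < |s| ∧
      (M : Matrix (Fin 2) (Fin 2) ℝ) * P = (P : Matrix (Fin 2) (Fin 2) ℝ) * !![s, 0; 0, s⁻¹] := by
  have hd := detC1 M
  have hM := eta2C1 (M : Matrix (Fin 2) (Fin 2) ℝ)
  rw [Matrix.trace_fin_two] at h
  set a := (M : Matrix (Fin 2) (Fin 2) ℝ) 0 0 with ha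
  set b := (M : Matrix (Fin 2) (Fin 2) ℝ) 0 1 with hb
  set c := (M : Matrix (Fin 2) (Fin 2) ℝ) 1 0 with hc
  set d := (M : Matrix (Fin 2) (Fin 2) ℝ) 1 1 with hd'
  obtain ⟨s, hs1, hs2⟩ := root_existsC1 h
  have hs0 : s ≠ 0 := by
    rintro rfl
    rw [abs_zero] at hs1
    linarith
  have hsi : s⁻¹ = a + d - s := by
    field_simp
    linarith
  have hss : s⁻¹ - s ≠ 0 := by
    intro hc
    have h1 : s ^ 2 = 1 := by
      have : s⁻¹ = s := by linarith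
      have h2 : s * s⁻¹ = 1 := mul_inv_cancel₀ hs0
      rw [this] at h2
      rw [pow_two]
      exact h2
    rw [← sq_abs] at h1
    nlinarith
  by_cases hb0 : b = 0
  · by_cases hc0 : c = 0
    · -- diagonal
      rw [hb0, zero_mul, sub_zero] at hd
      have hsd : (s - a) * (s - d) = 0 := by linear_combination hs2 + hd
      rcases mul_eq_zero.1 hsd with h1 | h1
      · have hsa : a = s := by linarith
        have hda : d = s⁻¹ := by rw [hsi, hsa]; ring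
        refine ⟨s, 1, hs1, ?_⟩
        rw [Matrix.SpecialLinearGroup.coe_one, Matrix.mul_one, Matrix.one_mul, hM, hb0, hc0, hsa,
          hda]
      · have hsd' : d = s := by linarith
        have hda : a = s⁻¹ := by rw [hsi, hsd']; ring
        refine ⟨s, ⟨!![0, -1; 1, 0], by rw [Matrix.det_fin_two_of]; norm_num⟩, hs1, ?_⟩
        show (M : Matrix (Fin 2) (Fin 2) ℝ) * !![0, -1; 1, 0] =
          !![0, -1; 1, 0] * !![s, 0; 0, s⁻¹]
        rw [hM, hb0, hc0, hsd', hda, Matrix.mul_fin_two, Matrix.mul_fin_two]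
        simp
    · -- `c ≠ 0` : eigenvectors `(s - d, c)`, `(s⁻¹ - d, c)`
      set D := c * (s - s⁻¹) with hD
      have hD0 : D ≠ 0 := mul_ne_zero hc0 (by intro h1; apply hss; linarith)
      refine ⟨s, ⟨!![s - d, (s⁻¹ - d) * D⁻¹; c, c * D⁻¹], ?_⟩, hs1, ?_⟩
      · rw [Matrix.det_fin_two_of]
        have : (s - d) * (c * D⁻¹) - (s⁻¹ - d) * D⁻¹ * c = D * D⁻¹ := by rw [hD]; ring
        rw [this, mul_inv_cancel₀ hD0]
      · show (M : Matrix (Fin 2) (Fin 2) ℝ) * !![s - d, (s⁻¹ - d) * D⁻¹; c, c * D⁻¹] =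
          !![s - d, (s⁻¹ - d) * D⁻¹; c, c * D⁻¹] * !![s, 0; 0, s⁻¹]
        rw [hM, Matrix.mul_fin_two, Matrix.mul_fin_two, hsi]
        ext i j
        fin_cases i <;> fin_cases j
        · simp
          linear_combination -hd - hs2
        · simp
          linear_combination (-hd - hs2) * D⁻¹
        · simp
          ring
        · simp
          ring
  · -- `b ≠ 0` : eigenvectors `(b, s - a)`, `(b, s⁻¹ - a)`
    set D := b * (s⁻¹ - s) with hD
    have hD0 : D ≠ 0 := mul_ne_zero hb0 hss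
    refine ⟨s, ⟨!![b, b * D⁻¹; s - a, (s⁻¹ - a) * D⁻¹], ?_⟩, hs1, ?_⟩
    · rw [Matrix.det_fin_two_of]
      have : b * ((s⁻¹ - a) * D⁻¹) - b * D⁻¹ * (s - a) = D * D⁻¹ := by rw [hD]; ring
      rw [this, mul_inv_cancel₀ hD0]
    · show (M : Matrix (Fin 2) (Fin 2) ℝ) * !![b, b * D⁻¹; s - a, (s⁻¹ - a) * D⁻¹] =
        !![b, b * D⁻¹; s - a, (s⁻¹ - a) * D⁻¹] * !![s, 0; 0, s⁻¹]
      rw [hM, Matrix.mul_fin_two, Matrix.mul_fin_two, hsi]
      ext i j
      fin_cases i <;> fin_cases j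
      · simp
        ring
      · simp
        ring
      · simp
        linear_combination -hd - hs2
      · simp
        linear_combination (-hd - hs2) * D⁻¹

end Pool.Agent.VSB.M
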