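import Pool.Agent.VSB.Defs

/-! # MP_33f4db_gt: mapping class group of the double pentagon and intersection numbers

`Pi = ⟨e 0, …, e 4 | e0 e1 e2 e3 e4, e4 e3 e2 e1 e0⟩` is the fundamental group of the double pentagon: the closed surface
of genus two obtained by gluing the parallel sides of two regular pentagons (one vertex, five edges, two faces).

* `MCG` : the mapping class group, that is (Dehn, Nielsen, Baer) the group of outer automorphisms of `Pi` which preserve
the algebraic intersection number `alg`.
* `i0 c`, `is c` : geometric intersection number of the class `c` with the core curve `γ₀` (class of `e 2 * e 3`) of a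
horizontal cylinder, which meets only the edges `e 2` and `e 3`, once each, and with the separating curve
`σ = ⁅(e 4)⁻¹, (e 0)⁻¹⁆`, along which `Pi` is the amalgamated product of `P1` and `P2`. -/

set_option autoImplicit false

open scoped commutatorElement

namespace Pool.Agent.VSB.M

/-! ### Mapping class group -/

/-- inner automorphisms -/
def Inn : Subgroup (MulAut Pi) := (MulAut.conj (G := Pi)).range

instance : Inn.Normal where
  conj_mem := by
    rintro _ ⟨g, rfl⟩ ψ
    refine ⟨ψ g, ?_⟩
    ext x
    simp [MulAut.conj_apply]

/-- outer automorphisms of the surface group -/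
abbrev OutPi : Type := MulAut Pi ⧸ Inn

/-- algebraic intersection numbers of the edges -/
def Om (i j : Fin 5) : ℤ :=
  if j = i + 1 then 1 else if j = i + 2 then -1 else if j = i + 3 then 1 else if j = i + 4 then -1
  else 0

/-- algebraic intersection number with the edge `e i` -/
def algE (i : Fin 5) : Pi →* Multiplicative ℤ :=
  PresentedGroup.toGroup (f := fun j => Multiplicative.ofAdd (Om i j)) (by
    rintro r (rfl | rfl)
    · simp only [map_mul, FreeGroup.lift_apply_of]
      revert i; decide
    · simp only [map_mul, FreeGroup.lift_apply_of]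
      revert i; decide)

theorem algE_e (i j : Fin 5) : algE i (e j) = Multiplicative.ofAdd (Om i j) :=
  PresentedGroup.toGroup.of _

theorem hom_ext_e {G : Type*} [Group G] {φ ψ : Pi →* G} (h : ∀ i, φ (e i) = ψ (e i)) : φ = ψ :=
  PresentedGroup.ext h

/-- algebraic intersection number -/
def alg : Pi →* (Pi →* Multiplicative ℤ) :=
  PresentedGroup.toGroup (f := algE) (by
    rintro r (rfl | rfl)
    · simp only [map_mul, FreeGroup.lift_apply_of]
      apply hom_ext_e
      intro j
      simp only [MonoidHom.mul_apply, algE_e]
      revert j; decide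
    · simp only [map_mul, FreeGroup.lift_apply_of]
      apply hom_ext_e
      intro j
      simp only [MonoidHom.mul_apply, algE_e]
      revert j; decide)

theorem alg_e (i j : Fin 5) : alg (e i) (e j) = Multiplicative.ofAdd (Om i j) := by
  have h : alg (e i) = algE i := PresentedGroup.toGroup.of _
  rw [h, algE_e]

/-- algebraic intersection number of `x` and `y` (written multiplicatively) -/
def ai (x y : Pi) : Multiplicative ℤ := alg x y

/-- preserving the algebraic intersection number (orientation preserving) -/
def IsOP (ψ : MulAut Pi) : Prop := ∀ x y, ai (ψ x) (ψ y) = ai x y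

/-- the automorphisms which preserve the algebraic intersection number -/
def OPAut : Subgroup (MulAut Pi) where
  carrier := {ψ | IsOP ψ}
  mul_mem' := by
    intro ψ χ hψ hχ x y
    rw [MulAut.mul_apply, MulAut.mul_apply, hψ, hχ]
  one_mem' := fun _ _ => rfl
  inv_mem' := by
    intro ψ hψ x y
    rw [← hψ (ψ⁻¹ x) (ψ⁻¹ y), MulAut.apply_inv_self, MulAut.apply_inv_self]

/-- The mapping class group of the closed oriented surface of genus two. -/
def MCG : Subgroup OutPi := OPAut.map (QuotientGroup.mk' Inn)

/-- the mapping class of an automorphism -/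
def mcl (ψ : MulAut Pi) (h : ψ ∈ OPAut) : MCG := ⟨QuotientGroup.mk ψ, ψ, h, rfl⟩

/-! ### Action on free homotopy classes of closed curves -/

/-- action of automorphisms on conjugacy classes -/
def autAct : MulAut Pi →* Equiv.Perm (ConjClasses Pi) where
  toFun ψ :=
    { toFun := ConjClasses.map ψ.toMonoidHom
      invFun := ConjClasses.map ψ⁻¹.toMonoidHom
      left_inv := by
        intro x
        obtain ⟨x, rfl⟩ := ConjClasses.mk_surjective x
        exact congrArg ConjClasses.mk (MulAut.inv_apply_self _ ψ x)
      right_inv := by
        intro x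
        obtain ⟨x, rfl⟩ := ConjClasses.mk_surjective x
        exact congrArg ConjClasses.mk (MulAut.apply_inv_self _ ψ x) }
  map_one' := by
    ext x
    obtain ⟨x, rfl⟩ := ConjClasses.mk_surjective x
    rfl
  map_mul' := by
    intro ψ χ
    ext x
    obtain ⟨x, rfl⟩ := ConjClasses.mk_surjective x
    rfl

/-- action of outer automorphisms on conjugacy classes -/
def outAct : OutPi →* Equiv.Perm (ConjClasses Pi) :=
  QuotientGroup.lift Inn autAct (by
    rintro _ ⟨g, rfl⟩
    ext x
    obtain ⟨x, rfl⟩ := ConjClasses.mk_surjective x
    show ConjClasses.mk (g * x * g⁻¹) = ConjClasses.mk x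
    rw [ConjClasses.mk_eq_mk_iff_isConj, isConj_comm]
    exact isConj_iff.2 ⟨g, rfl⟩)

instance : MulAction OutPi (ConjClasses Pi) := MulAction.compHom _ outAct

theorem mk_smul_mk (ψ : MulAut Pi) (x : Pi) :
    (QuotientGroup.mk ψ : OutPi) • ConjClasses.mk x = ConjClasses.mk (ψ x) := rfl

theorem mcl_smul_mk (ψ : MulAut Pi) (h : ψ ∈ OPAut) (x : Pi) :
    mcl ψ h • ConjClasses.mk x = ConjClasses.mk (ψ x) := rfl

/-! ### Intersection numbers -/

/-- the element of `Pi` of a word in the edges -/
def wv (w : List (Fin 5 × Bool)) : Pi := PresentedGroup.mk rels (FreeGroup.mk w)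

/-- geometric intersection number with the curve `γ₀` -/
noncomputable def i0 (c : ConjClasses Pi) : ℕ :=
  sInf {k | ∃ w : List (Fin 5 × Bool), ConjClasses.mk (wv w) = c ∧
    w.countP (fun a => a.1 = 2 ∨ a.1 = 3) = k}

/-- the two sides of the separating curve `σ` -/
def P1 : Subgroup Pi := Subgroup.closure {e 4, e 0}

/-- the two sides of the separating curve `σ` -/
def P2 : Subgroup Pi := Subgroup.closure {e 1 * e 0 * e 4, (e 0)⁻¹ * (e 4)⁻¹ * e 2}

/-- geometric intersection number with the separating curve `σ`: cyclic syllable length for the amalgamated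
product of `P1` and `P2` -/
noncomputable def is (c : ConjClasses Pi) : ℕ :=
  sInf {k | ∃ L : List Pi, (∀ y ∈ L, y ∈ P1 ∨ y ∈ P2) ∧ ConjClasses.mk L.prod = c ∧
    k = if L.length ≤ 1 then 0 else L.length}

end Pool.Agent.VSB.M
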