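import Pool.Agent.VSB.Auts
import Pool.Agent.VSB.MBase

/-! # MP_33f4db_gt: the model of the mapping class group and of projective measured laminations

`Pi = ⟨e 0, …, e 4 | e0 e1 e2 e3 e4, e4 e3 e2 e1 e0⟩` is the fundamental group of the double pentagon: the closed surface
of genus two obtained by gluing the parallel sides of two regular pentagons (one vertex, five edges, two faces).

* `MCG` : the mapping class group, that is (Dehn, Nielsen, Baer) the group of outer automorphisms of `Pi` which preserve
the algebraic intersection number.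
* `Ess` : the free homotopy classes of essential simple closed curves (with an orientation): the `MCG`-orbits of
the class of the edge `e 0` (non-separating) and of `⁅(e 4)⁻¹, (e 0)⁻¹⁆` (separating; the boundary of a neighbourhood of the
two loops `e 4`, `e 0`, which meet once).
* `PA g` : `g` is pseudo-Anosov: no power `g ^ n`, `n ≥ 1`, fixes an essential simple closed curve (without orientation).
* `i0 c`, `is c` : geometric intersection number of the class `c` with the core curve `γ₀` (class of `e 2 * e 3`) of a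
horizontal cylinder, which meets only the edges `e 2` and `e 3`, once each, and with the separating curve
`σ = ⁅(e 4)⁻¹, (e 0)⁻¹⁆`, along which `Pi` is the amalgamated product of `P1` and `P2`.
* `PR` : nonzero real functions on the set of test curves `χ γ₀`, `χ σ` (`χ : MCG`), up to positive factors, with the
quotient topology; `MCG` acts. `PML` : the closure of the essential simple closed curves, each given by its
intersection numbers with the test curves. -/

set_option autoImplicit false

open scoped commutatorElement LinearAlgebra.Projectivization MatrixGroups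

namespace Pool.Agent.VSB.M

/-! ### Essential curves and pseudo-Anosov classes -/

/-- the essential simple closed curves -/
def Ess : Set (ConjClasses Pi) :=
  {c | ∃ χ : MCG, c = χ • ConjClasses.mk (e 0) ∨ c = χ • ConjClasses.mk ⁅(e 4)⁻¹, (e 0)⁻¹⁆}

/-- pseudo-Anosov mapping classes: no power fixes an essential simple closed curve -/
def PA (g : MCG) : Prop := ∀ n : ℕ, 1 ≤ n → ∀ x : Pi, ConjClasses.mk x ∈ Ess →
  g ^ n • ConjClasses.mk x ≠ ConjClasses.mk x ∧ g ^ n • ConjClasses.mk x ≠ ConjClasses.mk x⁻¹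

/-! ### Projective measured laminations -/

/-- the test curves: `(false, χ)` is `χ γ₀`, `(true, χ)` is `χ σ` -/
abbrev Test : Type := Bool × MCG

/-- the intersection numbers of a closed curve with the test curves -/
noncomputable def vec (c : ConjClasses Pi) : Test → ℝ := fun t =>
  if t.1 then (is (t.2⁻¹ • c) : ℝ) else (i0 (t.2⁻¹ • c) : ℝ)

/-- functions up to positive factors -/
def raySetoid : Setoid {v : Test → ℝ // v ≠ 0} where
  r v w := ∃ r : ℝ, 0 < r ∧ (v : Test → ℝ) = r • (w : Test → ℝ)
  iseqv :=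
    { refl := fun v => ⟨1, one_pos, (one_smul _ _).symm⟩
      symm := by
        rintro v w ⟨r, hr, h⟩
        exact ⟨r⁻¹, inv_pos.2 hr, by rw [h, smul_smul, inv_mul_cancel₀ hr.ne', one_smul]⟩
      trans := by
        rintro u v w ⟨r, hr, h⟩ ⟨s, hs, h'⟩
        exact ⟨r * s, mul_pos hr hs, by rw [h, h', smul_smul]⟩ }

/-- the space of rays of functions on the test curves -/
def PR : Type := Quotient raySetoid

instance : TopologicalSpace PR := inferInstanceAs (TopologicalSpace (Quotient raySetoid))

/-- action on functions -/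
def fact (g : MCG) (v : Test → ℝ) : Test → ℝ := fun t => v (t.1, g⁻¹ * t.2)

theorem fact_ne_zero (g : MCG) {v : Test → ℝ} (h : v ≠ 0) : fact g v ≠ 0 := by
  intro h0
  apply h
  ext t
  have := congrFun h0 (t.1, g * t.2)
  simpa [fact] using this

instance : SMul MCG PR where
  smul g := Quotient.map' (s₁ := raySetoid) (s₂ := raySetoid)
    (fun v => ⟨fact g v, fact_ne_zero g v.2⟩) (by
    rintro v w ⟨r, hr, h⟩
    refine ⟨r, hr, ?_⟩
    show fact g (v : Test → ℝ) = r • fact g (w : Test → ℝ)
    rw [h]; rfl)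

/-- the ray of a nonzero function -/
def ray (v : Test → ℝ) (h : v ≠ 0) : PR := Quotient.mk raySetoid ⟨v, h⟩

theorem smul_ray (g : MCG) (v : Test → ℝ) (h : v ≠ 0) :
    g • ray v h = ray (fact g v) (fact_ne_zero g h) := rfl

/-- Projective measured laminations: the closure of the essential simple closed curves. -/
def PML : Set PR := closure {P | ∃ c ∈ Ess, ∃ h : vec c ≠ 0, P = ray (vec c) h}

/-! ### The Veech group of the double pentagon and admissible groups -/

theorem mem_OPAut_of {ψ : MulAut Pi}
    (h : ∀ i j, alg (ψ (e i)) (ψ (e j)) = Multiplicative.ofAdd (Om i j)) : ψ ∈ OPAut := by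
  intro x y
  have h1 : ∀ i y, alg (ψ (e i)) (ψ y) = alg (e i) y := by
    intro i y
    have : (alg (ψ (e i))).comp ψ.toMonoidHom = alg (e i) := by
      apply hom_ext_e
      intro j
      rw [alg_e]
      exact h i j
    exact DFunLike.congr_fun this y
  have h2 : (MonoidHom.eval (ψ y)).comp (alg.comp ψ.toMonoidHom) = (MonoidHom.eval y).comp alg := by
    apply hom_ext_e
    intro i
    exact h1 i y
  exact DFunLike.congr_fun h2 x

theorem alg_inv_left (x y : Pi) : alg x⁻¹ y = (alg x y)⁻¹ := by
  rw [map_inv alg x, MonoidHom.inv_apply]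

theorem alg_inv_inv (x y : Pi) : alg x⁻¹ y⁻¹ = alg x y := by
  rw [alg_inv_left, map_inv (alg x) y, inv_inv]

theorem alg_mul_left (x x' y : Pi) : alg (x * x') y = alg x y * alg x' y := by
  rw [map_mul, MonoidHom.mul_apply]

theorem aR_mem : aR ∈ OPAut := by
  apply mem_OPAut_of
  intro i j
  rw [aR_e, aR_e, alg_inv_inv, alg_e]
  revert i j; decide

theorem aT_mem : aT ∈ OPAut := by
  apply mem_OPAut_of
  intro i j
  fin_cases i <;> fin_cases j <;>
    simp only [Fin.zero_eta, Fin.mk_one, Fin.reduceFinMk, aT_e0, aT_e1, aT_e2, aT_e3, aT_e4, map_mul,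
      map_inv, MonoidHom.mul_apply, MonoidHom.inv_apply, alg_e] <;> decide

theorem aI_mem : aI ∈ OPAut := by
  apply mem_OPAut_of
  intro i j
  rw [aI_e, aI_e, alg_inv_inv, alg_e]

/-- the rotation by `π / 5`, exchanging the two pentagons: `e i ↦ (e (i + 3))⁻¹` -/
def mR : MCG := mcl aR aR_mem

/-- the multitwist, product of the two Dehn twists along the core curves of the horizontal cylinders:
`e 0 ↦ e 0`, `e 1 ↦ e1 e0 e3⁻¹ e2⁻¹`, `e 2 ↦ e3⁻¹`, `e 3 ↦ e3 e2 e3`, `e 4 ↦ e0⁻¹ e1⁻¹ e0⁻¹` -/
def mT : MCG := mcl aT aT_mem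

/-- the hyperelliptic involution: `e i ↦ (e i)⁻¹` -/
def mI : MCG := mcl aI aI_mem

/-- The affine group of the double pentagon `ξ₂` (stabiliser of its Teichmüller disc); modulo the hyperelliptic
involution it is the `(2, 5, ∞)` triangle group. -/
def Vee : Subgroup MCG := Subgroup.closure {mR, mT}

/-- `A` is a subgroup of index `10` of the Veech group (embedded in `MCG`, so that it meets `⟨mI⟩` trivially), free of
rank `4` with `δ` the boundary element `⁅x0, x1⁆ ⁅x2, x3⁆`, and `δ` generates the stabiliser in `A` of the cusp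
of the multitwist. -/
structure IsVeechSurf (A : Subgroup MCG) (δ : MCG) : Prop where
  le : A ≤ Vee
  inf : A ⊓ Subgroup.zpowers mI = ⊥
  index : (A ⊔ Subgroup.zpowers mI).relIndex Vee = 10
  free : ∃ Φ : FreeGroup (Fin 4) ≃* A,
    (Φ (⁅(FreeGroup.of 0 : FreeGroup (Fin 4)), FreeGroup.of 1⁆ *
      ⁅(FreeGroup.of 2 : FreeGroup (Fin 4)), FreeGroup.of 3⁆) : MCG) = δ
  cusp : A ⊓ Subgroup.closure {mI, mT} = Subgroup.zpowers δ

/-- the conjugate subgroup `φ A φ⁻¹` -/
def cj (φ : MCG) (A : Subgroup MCG) : Subgroup MCG := A.map (MulAut.conj φ).toMonoidHom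

/-- the group generated by `A` and `φ A φ⁻¹` -/
def GG (A : Subgroup MCG) (φ : MCG) : Subgroup MCG := A ⊔ cj φ A

/-- the two factors -/
def fac (A : Subgroup MCG) (φ : MCG) (b : Bool) : Subgroup MCG := if b then cj φ A else A

/-- `⟨A, φ A φ⁻¹⟩` is admissible -/
structure Admissible (A : Subgroup MCG) (δ φ : MCG) : Prop where
  comm : φ * δ * φ⁻¹ = δ
  inter : A ⊓ cj φ A = Subgroup.zpowers δ
  amalgam : ∃ h : ∀ b, Subgroup.zpowers δ ≤ fac A φ b, Function.Injective
    (Monoid.PushoutI.lift (φ := fun b => Subgroup.inclusion (h b)) (fun b => (fac A φ b).subtype)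
      (Subgroup.zpowers δ).subtype (fun _ => rfl))
  pA : ∀ g ∈ GG A φ, PA g ∨ ∃ h ∈ GG A φ, ∃ k : ℤ, g = h * δ ^ k * h⁻¹
  red : ∀ k : ℤ, ¬ PA (δ ^ k)

/-! ### The circle at infinity -/

/-- the topology of the real projective line -/
instance : TopologicalSpace (ℙ ℝ (Fin 2 → ℝ)) :=
  inferInstanceAs (TopologicalSpace (Quotient (projectivizationSetoid ℝ (Fin 2 → ℝ))))

/-- The homomorphism `ρ` to `PSL(2, ℝ)` is injective with discrete cocompact image, i.e. it comes from a hyperbolic
structure on a closed surface with fundamental group `G`. -/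
structure IsFuchs {G : Type*} [Group G] (ρ : G →* Matrix.ProjectiveSpecialLinearGroup (Fin 2) ℝ) :
    Prop where
  inj : Function.Injective ρ
  disc : ∀ C : ℝ, {g : G | ∃ M : SL(2, ℝ), (QuotientGroup.mk M :
    Matrix.ProjectiveSpecialLinearGroup (Fin 2) ℝ) = ρ g ∧ ∀ i j, |M i j| ≤ C}.Finite
  cocpt : ∃ C : ℝ, ∀ X : SL(2, ℝ), ∃ (g : G) (M : SL(2, ℝ)), (QuotientGroup.mk M :
    Matrix.ProjectiveSpecialLinearGroup (Fin 2) ℝ) = ρ g ∧ ∀ i j, |(M * X) i j| ≤ C

/-- no continuous equivariant map from the boundary of `G` to `PML` -/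
def NoMap (G : Subgroup MCG) : Prop :=
  ∀ ρ : G →* Matrix.ProjectiveSpecialLinearGroup (Fin 2) ℝ, IsFuchs ρ →
    ¬ ∃ f : ℙ ℝ (Fin 2 → ℝ) → PR, Continuous f ∧ (∀ x, f x ∈ PML) ∧
      ∀ (g : G) (x : ℙ ℝ (Fin 2 → ℝ)), f (ρ g • x) = (g : MCG) • f x

end Pool.Agent.VSB.M
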