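import Pool.Agent.VSB.Circ1
import Pool.Agent.VSB.Model

/-! # VSB/Circ2: north-south dynamics of an element of a cocompact Fuchsian group

`ρ : G →* PSL(2, ℝ)` with `IsFuchs ρ`, `δ` of infinite order, `D : SL(2, ℝ)` a lift of `ρ δ`.

* `mk_eq_iff`: the centre of `SL(2, ℝ)` is `{1, -1}` (`Matrix.SpecialLinearGroup.mem_center_iff`: scalars `r` with
`r ^ 2 = 1`); `QuotientGroup.eq`.
* `not_ell`: if `|tr D| < 2` then all powers `D ^ n` are bounded by `C` (`ell_bdd`), they are lifts of `ρ (δ ^ n)`, so by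
`disc` the set of all `δ ^ n` is finite, `δ ^ n = δ ^ m` with `n ≠ m` (`Set.infinite_of_injective_forall_mem` or pigeonhole), so a
positive power of `δ` is `1`. Contradiction.
* `not_par`: let `|tr D| = 2`, `s` from `par_shrink`, `C` from `cocpt` (enlarge so that `C ≥ 1`). By `disc 2` the set `T` of all
`h ≠ 1` in `G` with a lift bounded by `2` is finite; a lift `M` of `h ≠ 1` is not `± 1`, so there is `η > 0`, `η ≤ 1`, such
that no `h ∈ T` has a lift `M` with `|M i j - (s • 1) i j| < η` for all `i, j` (finite minimum over `T`; the lifts of `h` are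
`± M`). Take `ε` with `4 * C ^ 2 * ε < η`, `X` from `par_shrink`, `g`, `M` from `cocpt` for this `X`. Then
`M * D * M⁻¹ = (M * X) * (X⁻¹ * D * X) * (M * X)⁻¹` is a lift of `ρ (g * δ * g⁻¹)` and
`M * D * M⁻¹ - s • 1 = (M * X) * (X⁻¹ * D * X - s • 1) * (M * X)⁻¹` has entries at most `4 * C ^ 2 * ε < η`
(the entries of the inverse of a matrix in `SL(2, ℝ)` are, up to sign, its entries). So this lift is bounded by `2`,
`g * δ * g⁻¹ ≠ 1` is in `T`: contradiction with the choice of `η`.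
* `north_south`: so `|tr D| > 2`; `s`, `P` from `hyp_eig`, `u = P *ᵥ ![1, 0]`, `u' = P *ᵥ ![0, 1]`: `D *ᵥ u = s • u`,
`D *ᵥ u' = s⁻¹ • u'`. `p = mk u`, `q = mk u'`. The action of `ρ (δ ^ n) = QuotientGroup.mk (D ^ n)` on `mk v` is
`mk (D ^ n *ᵥ v)` (`Matrix.ProjectiveSpecialLinearGroup.smul_proj_mk`, `Projectivization.smul_mk`). If `x = mk v ≠ q`,
`v = α • u + β • u'` (`P` invertible) with `α ≠ 0`, `D ^ n *ᵥ v = (s ^ n * α) • u + (s⁻¹ ^ n * β) • u'`, and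
`mk (D ^ n *ᵥ v) = mk (u * α + (s⁻¹ ^ (2 * n) * β) • u')` tends to `mk (α • u) = mk u` because `mk` is continuous
(quotient topology) on the nonzero vectors and the vectors `α • u + (s⁻¹ ^ (2 * n) * β) • u'` tend to `α • u ≠ 0`.
Last statement: let `ρ g • p = q`, `h = g * δ * g⁻¹`, `H` a lift of `ρ h`. `ρ h • q = q`, so `H *ᵥ u' = a • u'`, `a ≠ 0`; in the basis
`u, u'` (conjugate by `P`): `P⁻¹ * H * P = !![a⁻¹, 0; b, a]`, and
`P⁻¹ * (D ^ n * H * (D ^ n)⁻¹) * P = !![a⁻¹, 0; s⁻¹ ^ (2 * n) * b, a]` is bounded uniformly in `n : ℕ`; hence so are the lifts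
`D ^ n * H * (D ^ n)⁻¹` of `ρ (δ ^ n * h * (δ ^ n)⁻¹)`. By `disc` these elements of `G` form a finite set: there are `n < m` with
`δ ^ n * h * (δ ^ n)⁻¹ = δ ^ m * h * (δ ^ m)⁻¹`, i.e. `h` commutes with `δ ^ (m - n)`. -/

set_option autoImplicit false

open scoped MatrixGroups LinearAlgebra.Projectivization
open Filter Topology

namespace Pool.Agent.VSB.M

/-- the map to `PSL(2, ℝ)` -/
def toP (M : SL(2, ℝ)) : Matrix.ProjectiveSpecialLinearGroup (Fin 2) ℝ := QuotientGroup.mk M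

theorem toP_mul (M M' : SL(2, ℝ)) : toP (M * M') = toP M * toP M' := rfl

theorem toP_eq_iff (M M' : SL(2, ℝ)) : toP M = toP M' ↔ M' = M ∨ M' = -M := by
  rw [toP, toP, QuotientGroup.eq, Matrix.SpecialLinearGroup.mem_center_iff]
  constructor
  · rintro ⟨r, hr, hs⟩
    have hr' : r = 1 ∨ r = -1 := by
      rw [Fintype.card_fin] at hr
      exact mul_self_eq_one_iff.1 (by rw [← sq]; exact hr)
    have h1 : M' = M * (M⁻¹ * M') := by group
    rcases hr' with rfl | rfl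
    · left
      have h2 : M⁻¹ * M' = 1 := by
        apply Subtype.ext
        rw [← hs]; simp
      rw [h1, h2, mul_one]
    · right
      have h2 : M⁻¹ * M' = -1 := by
        apply Subtype.ext
        rw [← hs]
        ext i j
        fin_cases i <;> fin_cases j <;> simp [Matrix.scalar_apply]
      rw [h1, h2, mul_neg, mul_one]
  · rintro (rfl | rfl)
    · exact ⟨1, by simp, by simp⟩
    · refine ⟨-1, by simp, ?_⟩
      rw [mul_neg, inv_mul_cancel]
      ext i j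
      fin_cases i <;> fin_cases j <;> simp [Matrix.scalar_apply]

theorem toP_surj (x : Matrix.ProjectiveSpecialLinearGroup (Fin 2) ℝ) : ∃ M, toP M = x :=
  QuotientGroup.mk_surjective x

private theorem toP_one : toP 1 = 1 := rfl

private theorem toP_inv (M : SL(2, ℝ)) : toP M⁻¹ = (toP M)⁻¹ := rfl

private theorem toP_pow (M : SL(2, ℝ)) (n : ℕ) : toP (M ^ n) = toP M ^ n := rfl

private theorem mul_bdd {A B : Matrix (Fin 2) (Fin 2) ℝ} {a b : ℝ} (hA : ∀ i j, |A i j| ≤ a)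
    (hB : ∀ i j, |B i j| ≤ b) (i j : Fin 2) : |(A * B) i j| ≤ 2 * a * b := by
  rw [Matrix.mul_apply, Fin.sum_univ_two]
  have ha : 0 ≤ a := (abs_nonneg _).trans (hA 0 0)
  have h1 : ∀ k, |A i k * B k j| ≤ a * b := fun k => by
    rw [abs_mul]
    exact mul_le_mul (hA i k) (hB k j) (abs_nonneg _) ha
  calc |A i 0 * B 0 j + A i 1 * B 1 j| ≤ |A i 0 * B 0 j| + |A i 1 * B 1 j| := abs_add_le _ _
    _ ≤ a * b + a * b := add_le_add (h1 0) (h1 1)
    _ = 2 * a * b := by ring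

private theorem inv_bdd {M : SL(2, ℝ)} {a : ℝ} (h : ∀ i j, |M i j| ≤ a) (i j : Fin 2) :
    |(M⁻¹ : SL(2, ℝ)) i j| ≤ a := by
  rw [Matrix.SpecialLinearGroup.coe_inv, Matrix.adjugate_fin_two]
  fin_cases i <;> fin_cases j <;> simp [h]

variable {G : Type*} [Group G] {ρ : G →* Matrix.ProjectiveSpecialLinearGroup (Fin 2) ℝ}

theorem not_ell (hρ : IsFuchs ρ) {δ : G} (hδ : ∀ n : ℕ, 1 ≤ n → δ ^ n ≠ 1) {D : SL(2, ℝ)}
    (hD : toP D = ρ δ) : 2 ≤ |(D : Matrix (Fin 2) (Fin 2) ℝ).trace| := by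
  by_contra hc
  push Not at hc
  obtain ⟨C, hC⟩ := ell_bdd D hc
  obtain ⟨m, n, hmn, he⟩ := Set.Finite.exists_lt_map_eq_of_forall_mem (f := fun n : ℕ => δ ^ n)
    (fun n => (⟨D ^ n, by rw [map_pow, ← hD]; rfl, hC n⟩ :
      δ ^ n ∈ {g : G | ∃ M : SL(2, ℝ), (QuotientGroup.mk M :
        Matrix.ProjectiveSpecialLinearGroup (Fin 2) ℝ) = ρ g ∧ ∀ i j, |M i j| ≤ C})) (hρ.disc C)
  refine hδ (n - m) (by omega) ?_
  have h1 : δ ^ n = δ ^ m * δ ^ (n - m) := by rw [← pow_add]; congr 1; omega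
  have h2 : δ ^ m = δ ^ n := he
  rw [h1] at h2
  exact (mul_eq_left.1 h2.symm)

private theorem exists_eta (hρ : IsFuchs ρ) {s : ℝ} (hs : s = 1 ∨ s = -1) {h : G} (hh : h ≠ 1) :
    ∃ η : ℝ, 0 < η ∧ ∀ M : SL(2, ℝ), toP M = ρ h → ∃ i j : Fin 2,
      η ≤ |M i j - (s • (1 : Matrix (Fin 2) (Fin 2) ℝ)) i j| := by
  have hpos : ∀ M : SL(2, ℝ), toP M = ρ h → ∃ i j : Fin 2,
      0 < |M i j - (s • (1 : Matrix (Fin 2) (Fin 2) ℝ)) i j| := by
    intro M hM
    by_contra hc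
    push Not at hc
    have h1 : (M : Matrix (Fin 2) (Fin 2) ℝ) = s • (1 : Matrix (Fin 2) (Fin 2) ℝ) := by
      ext i j
      have := hc i j
      rw [abs_nonpos_iff, sub_eq_zero] at this
      exact this
    apply hh
    apply hρ.inj
    rw [map_one, ← hM, ← toP_one, toP_eq_iff]
    rcases hs with rfl | rfl
    · left
      apply Subtype.ext
      rw [h1]; simp
    · right
      apply Subtype.ext
      rw [Matrix.SpecialLinearGroup.coe_neg, h1]; simp
  obtain ⟨M, hM⟩ := toP_surj (ρ h)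
  have hM' : toP (-M) = ρ h := by
    rw [← hM]
    exact ((toP_eq_iff M (-M)).2 (Or.inr rfl)).symm
  obtain ⟨i, j, hij⟩ := hpos M hM
  obtain ⟨i', j', hij'⟩ := hpos (-M) hM'
  refine ⟨min _ _, lt_min hij hij', fun N hN => ?_⟩
  rw [← hM] at hN
  rcases (toP_eq_iff M N).1 hN.symm with rfl | rfl
  · exact ⟨i, j, min_le_left _ _⟩
  · exact ⟨i', j', min_le_right _ _⟩

theorem not_par (hρ : IsFuchs ρ) {δ : G} (hδ : δ ≠ 1) {D : SL(2, ℝ)}
    (hD : toP D = ρ δ) : |(D : Matrix (Fin 2) (Fin 2) ℝ).trace| ≠ 2 := by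
  intro htr
  obtain ⟨s, hs, hX⟩ := par_shrink D htr
  obtain ⟨C₀, hC₀⟩ := hρ.cocpt
  obtain ⟨C, hC1, hC⟩ : ∃ C : ℝ, 1 ≤ C ∧ ∀ X : SL(2, ℝ), ∃ (g : G) (M : SL(2, ℝ)), toP M = ρ g ∧
      ∀ i j, |(M * X) i j| ≤ C := by
    refine ⟨max C₀ 1, le_max_right _ _, fun X => ?_⟩
    obtain ⟨g, M, h1, h2⟩ := hC₀ X
    exact ⟨g, M, h1, fun i j => (h2 i j).trans (le_max_left _ _)⟩
  have hT := (hρ.disc 2)
  have hev : ∀ᶠ η in 𝓝[>] (0 : ℝ), ∀ h ∈ {g : G | ∃ M : SL(2, ℝ), (QuotientGroup.mk M :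
        Matrix.ProjectiveSpecialLinearGroup (Fin 2) ℝ) = ρ g ∧ ∀ i j, |M i j| ≤ 2},
      h ≠ 1 → ∀ M : SL(2, ℝ), toP M = ρ h → ∃ i j : Fin 2,
        η ≤ |M i j - (s • (1 : Matrix (Fin 2) (Fin 2) ℝ)) i j| := by
    rw [hT.eventually_all]
    intro h _
    by_cases hh : h = 1
    · exact Filter.Eventually.of_forall fun η hne => absurd hh hne
    · obtain ⟨η₀, h0, hη⟩ := exists_eta hρ hs hh
      filter_upwards [Ioo_mem_nhdsGT h0] with η hη' _ M hM
      obtain ⟨i, j, hij⟩ := hη M hM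
      exact ⟨i, j, hη'.2.le.trans hij⟩
  obtain ⟨η, hη, hη0, hη1⟩ := (hev.and (Ioo_mem_nhdsGT (one_pos : (0 : ℝ) < 1))).exists
  obtain ⟨X, hX⟩ := hX (η / (8 * C ^ 2)) (by positivity)
  obtain ⟨g, M, hM, hMX⟩ := hC X
  have hN : toP (M * D * M⁻¹) = ρ (g * δ * g⁻¹) := by
    rw [toP_mul, toP_mul, toP_inv, hM, hD, map_mul, map_mul, map_inv]
  have hbd : ∀ i j : Fin 2, |(M * D * M⁻¹ : SL(2, ℝ)) i j - (s • (1 : Matrix (Fin 2) (Fin 2) ℝ)) i j| ≤
      η / 2 := by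
    intro i j
    have h1 : ((M * D * M⁻¹ : SL(2, ℝ)) : Matrix (Fin 2) (Fin 2) ℝ) - s • (1 : Matrix (Fin 2) (Fin 2) ℝ) =
        ((M * X : SL(2, ℝ)) : Matrix (Fin 2) (Fin 2) ℝ) *
          (((X⁻¹ * D * X : SL(2, ℝ)) : Matrix (Fin 2) (Fin 2) ℝ) - s • (1 : Matrix (Fin 2) (Fin 2) ℝ)) *
          (((M * X)⁻¹ : SL(2, ℝ)) : Matrix (Fin 2) (Fin 2) ℝ) := by
      rw [Matrix.mul_sub, Matrix.sub_mul, Matrix.mul_smul, Matrix.mul_one, Matrix.smul_mul,
        ← Matrix.SpecialLinearGroup.coe_mul, ← Matrix.SpecialLinearGroup.coe_mul,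
        ← Matrix.SpecialLinearGroup.coe_mul, mul_inv_cancel, Matrix.SpecialLinearGroup.coe_one]
      congr 2
      group
    have h2 := mul_bdd (mul_bdd hMX hX) (inv_bdd hMX) i j
    have h3 := congrFun (congrFun h1 i) j
    rw [Matrix.sub_apply] at h3
    rw [h3]
    refine h2.trans (le_of_eq ?_)
    field_simp
    ring
  have hmem : g * δ * g⁻¹ ∈ {g : G | ∃ M : SL(2, ℝ), (QuotientGroup.mk M :
        Matrix.ProjectiveSpecialLinearGroup (Fin 2) ℝ) = ρ g ∧ ∀ i j, |M i j| ≤ 2} := by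
    refine ⟨M * D * M⁻¹, hN, fun i j => ?_⟩
    have h1 := hbd i j
    have h2 : |(s • (1 : Matrix (Fin 2) (Fin 2) ℝ)) i j| ≤ 1 := by
      have hs' : |s| = 1 := by rcases hs with rfl | rfl <;> simp
      rw [Matrix.smul_apply, smul_eq_mul, abs_mul, hs', one_mul]
      fin_cases i <;> fin_cases j <;> simp
    have h3 := abs_sub_abs_le_abs_sub ((M * D * M⁻¹ : SL(2, ℝ)) i j)
      ((s • (1 : Matrix (Fin 2) (Fin 2) ℝ)) i j)
    linarith
  have hne : g * δ * g⁻¹ ≠ 1 := by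
    intro hc
    apply hδ
    have : δ = g⁻¹ * (g * δ * g⁻¹) * g := by group
    rw [this, hc]; group
  obtain ⟨i, j, hij⟩ := hη _ hmem hne _ hN
  have := hbd i j
  linarith

/-- the diagonal matrix with entries `x`, `x⁻¹` -/
private noncomputable def dg (x : ℝ) (hx : x ≠ 0) : SL(2, ℝ) :=
  ⟨!![x, 0; 0, x⁻¹], by rw [Matrix.det_fin_two_of]; field_simp; ring⟩

private theorem dg_pow {x : ℝ} (hx : x ≠ 0) (n : ℕ) : dg x hx ^ n = dg (x ^ n) (pow_ne_zero n hx) := by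
  induction n with
  | zero =>
    apply Subtype.ext
    ext i j
    fin_cases i <;> fin_cases j <;> simp [dg]
  | succ n ih =>
    rw [pow_succ, ih]
    apply Subtype.ext
    rw [Matrix.SpecialLinearGroup.coe_mul]
    ext i j
    fin_cases i <;> fin_cases j <;> simp [dg, Matrix.mul_apply, Fin.sum_univ_two, pow_succ, mul_comm]

private theorem dg_val (x : ℝ) (hx : x ≠ 0) : (dg x hx : Matrix (Fin 2) (Fin 2) ℝ) = !![x, 0; 0, x⁻¹] := rfl

private theorem dg_inv_val (x : ℝ) (hx : x ≠ 0) :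
    (((dg x hx)⁻¹ : SL(2, ℝ)) : Matrix (Fin 2) (Fin 2) ℝ) = !![x⁻¹, 0; 0, x] := by
  rw [Matrix.SpecialLinearGroup.coe_inv, dg_val, Matrix.adjugate_fin_two_of]
  simp

private theorem mulVec_ne (M : SL(2, ℝ)) {v : Fin 2 → ℝ} (hv : v ≠ 0) :
    (M : Matrix (Fin 2) (Fin 2) ℝ).mulVec v ≠ 0 := by
  intro h
  apply hv
  have h1 : ((M⁻¹ : SL(2, ℝ)) : Matrix (Fin 2) (Fin 2) ℝ).mulVec
      ((M : Matrix (Fin 2) (Fin 2) ℝ).mulVec v) = v := by
    rw [Matrix.mulVec_mulVec, ← Matrix.SpecialLinearGroup.coe_mul, inv_mul_cancel,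
      Matrix.SpecialLinearGroup.coe_one, Matrix.one_mulVec]
  rw [← h1, h, Matrix.mulVec_zero]

private theorem toP_smul_mk (M : SL(2, ℝ)) {v : Fin 2 → ℝ} (hv : v ≠ 0) :
    toP M • (Projectivization.mk ℝ v hv) =
      Projectivization.mk ℝ ((M : Matrix (Fin 2) (Fin 2) ℝ).mulVec v) (mulVec_ne M hv) := by
  rw [toP, Matrix.ProjectiveSpecialLinearGroup.smul_proj_mk, Projectivization.smul_mk]
  rfl

private theorem mk_congr {v w : Fin 2 → ℝ} (hv : v ≠ 0) (hw : w ≠ 0) (h : v = w) :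
    Projectivization.mk ℝ v hv = Projectivization.mk ℝ w hw := by
  subst h
  rfl

private theorem continuous_mk : Continuous
    (fun v : {v : Fin 2 → ℝ // v ≠ 0} => (Projectivization.mk ℝ v.1 v.2 : ℙ ℝ (Fin 2 → ℝ))) :=
  continuous_quotient_mk'

theorem north_south (hρ : IsFuchs ρ) {δ : G} (hδ : ∀ n : ℕ, 1 ≤ n → δ ^ n ≠ 1) :
    ∃ p q : ℙ ℝ (Fin 2 → ℝ), ρ δ • p = p ∧
      (∀ x, x ≠ q → Tendsto (fun n : ℕ => ρ (δ ^ n) • x) atTop (𝓝 p)) ∧
      ∀ g : G, ρ g • p = q → ∃ k : ℕ, 1 ≤ k ∧ Commute (g * δ * g⁻¹) (δ ^ k) := by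
  obtain ⟨D, hD⟩ := toP_surj (ρ δ)
  have hδ1 : δ ≠ 1 := by simpa using hδ 1 le_rfl
  have h2 : 2 < |(D : Matrix (Fin 2) (Fin 2) ℝ).trace| :=
    lt_of_le_of_ne (not_ell hρ hδ hD) (not_par hρ hδ1 hD).symm
  obtain ⟨s, P, hs, hP⟩ := hyp_eig D h2
  have hs0 : s ≠ 0 := by
    rintro rfl
    simp at hs
    linarith
  have hDP : D = P * dg s hs0 * P⁻¹ := by
    have h3 : D * P = P * dg s hs0 := by
      apply Subtype.ext
      rw [Matrix.SpecialLinearGroup.coe_mul, Matrix.SpecialLinearGroup.coe_mul, hP, dg_val]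
    rw [← h3]; group
  have hDn : ∀ n : ℕ, D ^ n = P * dg (s ^ n) (pow_ne_zero n hs0) * P⁻¹ := by
    intro n
    rw [hDP, conj_pow, dg_pow]
  have hρn : ∀ n : ℕ, ρ (δ ^ n) = toP (D ^ n) := by
    intro n
    rw [map_pow, ← hD, toP_pow]
  have he0 : (![1, 0] : Fin 2 → ℝ) ≠ 0 := fun h => by
    have := congrFun h 0
    simp at this
  have he1 : (![0, 1] : Fin 2 → ℝ) ≠ 0 := fun h => by
    have := congrFun h 1
    simp at this
  have hu := mulVec_ne P he0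
  have hu' := mulVec_ne P he1
  set u : Fin 2 → ℝ := (P : Matrix (Fin 2) (Fin 2) ℝ).mulVec ![1, 0] with hudef
  set u' : Fin 2 → ℝ := (P : Matrix (Fin 2) (Fin 2) ℝ).mulVec ![0, 1] with hudef'
  -- the powers of `D` on the vectors
  have hvec : ∀ (n : ℕ) (a b : ℝ), ((D ^ n : SL(2, ℝ)) : Matrix (Fin 2) (Fin 2) ℝ).mulVec
      (a • u + b • u') = s ^ n • (a • u + ((s⁻¹) ^ (2 * n) * b) • u') := by
    intro n a b
    have h3 : a • u + b • u' = (P : Matrix (Fin 2) (Fin 2) ℝ).mulVec ![a, b] := by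
      rw [hudef, hudef', ← Matrix.mulVec_smul, ← Matrix.mulVec_smul, ← Matrix.mulVec_add]
      congr 1
      ext i
      fin_cases i <;> simp
    have h4 : s ^ n • (a • u + ((s⁻¹) ^ (2 * n) * b) • u') =
        (P : Matrix (Fin 2) (Fin 2) ℝ).mulVec ![s ^ n * a, (s ^ n)⁻¹ * b] := by
      rw [hudef, hudef', ← Matrix.mulVec_smul, ← Matrix.mulVec_smul, ← Matrix.mulVec_add,
        ← Matrix.mulVec_smul]
      congr 1
      ext i
      fin_cases i
      · simp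
      · simp only [Fin.mk_one, Pi.smul_apply, Pi.add_apply, Matrix.cons_val_one, smul_eq_mul,
          mul_zero, mul_one, zero_add, Matrix.cons_val_fin_one]
        rw [← mul_assoc]
        congr 1
        rw [inv_pow, pow_mul', sq, mul_inv, ← mul_assoc, mul_inv_cancel₀ (pow_ne_zero n hs0), one_mul]
    have h5 : D ^ n * P = P * dg (s ^ n) (pow_ne_zero n hs0) := by
      rw [hDn, inv_mul_cancel_right]
    rw [h3, h4, Matrix.mulVec_mulVec, ← Matrix.SpecialLinearGroup.coe_mul, h5,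
      Matrix.SpecialLinearGroup.coe_mul, ← Matrix.mulVec_mulVec, dg_val]
    congr 1
    ext i
    fin_cases i <;> simp [Matrix.mulVec, dotProduct, Fin.sum_univ_two]
  have hdec : ∀ v : Fin 2 → ℝ, ∃ a b : ℝ, v = a • u + b • u' := by
    intro v
    refine ⟨(((P⁻¹ : SL(2, ℝ)) : Matrix (Fin 2) (Fin 2) ℝ).mulVec v) 0,
      (((P⁻¹ : SL(2, ℝ)) : Matrix (Fin 2) (Fin 2) ℝ).mulVec v) 1, ?_⟩
    rw [hudef, hudef', ← Matrix.mulVec_smul, ← Matrix.mulVec_smul, ← Matrix.mulVec_add]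
    have h3 : (((P⁻¹ : SL(2, ℝ)) : Matrix (Fin 2) (Fin 2) ℝ).mulVec v) 0 • (![1, 0] : Fin 2 → ℝ) +
        (((P⁻¹ : SL(2, ℝ)) : Matrix (Fin 2) (Fin 2) ℝ).mulVec v) 1 • ![0, 1] =
        ((P⁻¹ : SL(2, ℝ)) : Matrix (Fin 2) (Fin 2) ℝ).mulVec v := by
      ext i
      fin_cases i <;> simp
    rw [h3, Matrix.mulVec_mulVec, ← Matrix.SpecialLinearGroup.coe_mul, mul_inv_cancel,
      Matrix.SpecialLinearGroup.coe_one, Matrix.one_mulVec]
  have hind : ∀ a b : ℝ, a • u + b • u' = 0 → a = 0 ∧ b = 0 := by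
    intro a b h
    have h3 : a • u + b • u' = (P : Matrix (Fin 2) (Fin 2) ℝ).mulVec ![a, b] := by
      rw [hudef, hudef', ← Matrix.mulVec_smul, ← Matrix.mulVec_smul, ← Matrix.mulVec_add]
      congr 1
      ext i
      fin_cases i <;> simp
    rw [h3] at h
    by_contra hc
    refine mulVec_ne P (v := ![a, b]) ?_ h
    intro h0
    apply hc
    exact ⟨by simpa using congrFun h0 0, by simpa using congrFun h0 1⟩
  refine ⟨Projectivization.mk ℝ u hu, Projectivization.mk ℝ u' hu', ?_, ?_, ?_⟩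
  · rw [← hD, toP_smul_mk, Projectivization.mk_eq_mk_iff']
    have h3 := hvec 1 1 0
    rw [pow_one, one_smul, zero_smul, add_zero, mul_zero, zero_smul, add_zero, pow_one] at h3
    exact ⟨s, h3.symm⟩
  · intro x hx
    induction x using Projectivization.ind with | _ v hv =>
    obtain ⟨a, b, rfl⟩ := hdec v
    have ha : a ≠ 0 := by
      rintro rfl
      apply hx
      rw [Projectivization.mk_eq_mk_iff']
      exact ⟨b, by simp⟩
    have hne : ∀ n : ℕ, a • u + ((s⁻¹) ^ (2 * n) * b) • u' ≠ 0 := fun n h => ha (hind _ _ h).1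
    have hne' : a • u ≠ 0 := smul_ne_zero ha hu
    have h3 : ∀ n : ℕ, ρ (δ ^ n) • (Projectivization.mk ℝ (a • u + b • u') hv : ℙ ℝ (Fin 2 → ℝ)) =
        Projectivization.mk ℝ _ (hne n) := by
      intro n
      rw [hρn, toP_smul_mk, Projectivization.mk_eq_mk_iff']
      exact ⟨s ^ n, (hvec n a b).symm⟩
    have h4 : (Projectivization.mk ℝ u hu : ℙ ℝ (Fin 2 → ℝ)) = Projectivization.mk ℝ (a • u) hne' := by
      rw [Projectivization.mk_eq_mk_iff']
      exact ⟨a⁻¹, by rw [smul_smul, inv_mul_cancel₀ ha, one_smul]⟩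
    rw [h4]
    simp_rw [h3]
    have h5 : Tendsto (fun n : ℕ => (⟨a • u + ((s⁻¹) ^ (2 * n) * b) • u', hne n⟩ :
        {v : Fin 2 → ℝ // v ≠ 0})) atTop (𝓝 ⟨a • u, hne'⟩) := by
      rw [tendsto_subtype_rng]
      have h6 : Tendsto (fun n : ℕ => (s⁻¹) ^ (2 * n)) atTop (𝓝 0) := by
        simp_rw [pow_mul]
        apply tendsto_pow_atTop_nhds_zero_of_abs_lt_one
        rw [abs_pow, abs_inv]
        have h7 : |s|⁻¹ < 1 := inv_lt_one_of_one_lt₀ hs
        have h8 : 0 ≤ |s|⁻¹ := by positivity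
        exact pow_lt_one₀ h8 h7 two_ne_zero
      have h7 := (h6.mul_const b).smul_const u'
      have h8 := h7.const_add (a • u)
      rw [zero_mul, zero_smul, add_zero] at h8
      exact h8
    exact (continuous_mk.tendsto _).comp h5
  · intro g hg
    obtain ⟨M, hM⟩ := toP_surj (ρ g)
    set h := g * δ * g⁻¹ with hh
    have hH : toP (M * D * M⁻¹) = ρ h := by
      rw [toP_mul, toP_mul, toP_inv, hM, hD, hh, map_mul, map_mul, map_inv]
    set H := M * D * M⁻¹ with hHdef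
    have hfix : ρ h • (Projectivization.mk ℝ u' hu' : ℙ ℝ (Fin 2 → ℝ)) = Projectivization.mk ℝ u' hu' := by
      have hp : ρ δ • (Projectivization.mk ℝ u hu : ℙ ℝ (Fin 2 → ℝ)) = Projectivization.mk ℝ u hu := by
        rw [← hD, toP_smul_mk, Projectivization.mk_eq_mk_iff']
        have h3 := hvec 1 1 0
        rw [pow_one, one_smul, zero_smul, add_zero, mul_zero, zero_smul, add_zero, pow_one] at h3
        exact ⟨s, h3.symm⟩
      rw [← hg, hh, map_mul, map_mul, map_inv, mul_smul, mul_smul, inv_smul_smul, hp]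
    rw [← hH, toP_smul_mk, Projectivization.mk_eq_mk_iff'] at hfix
    obtain ⟨c, hc⟩ := hfix
    set K : SL(2, ℝ) := P⁻¹ * H * P with hK
    have hK1 : ((K : SL(2, ℝ)) : Matrix (Fin 2) (Fin 2) ℝ).mulVec ![0, 1] = c • ![0, 1] := by
      rw [hK, Matrix.SpecialLinearGroup.coe_mul, Matrix.SpecialLinearGroup.coe_mul,
        ← Matrix.mulVec_mulVec, ← Matrix.mulVec_mulVec, ← hudef', ← hc, Matrix.mulVec_smul, hudef',
        Matrix.mulVec_mulVec, ← Matrix.SpecialLinearGroup.coe_mul, inv_mul_cancel,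
        Matrix.SpecialLinearGroup.coe_one, Matrix.one_mulVec]
    have hK01 : K 0 1 = 0 := by
      have := congrFun hK1 0
      simpa [Matrix.mulVec, dotProduct, Fin.sum_univ_two] using this
    obtain ⟨B, hB⟩ : ∃ B : ℝ, ∀ i j : Fin 2, |K i j| ≤ B :=
      ⟨∑ i : Fin 2, ∑ j : Fin 2, |K i j|, fun i j =>
        (Finset.single_le_sum (f := fun j => |K i j|) (fun _ _ => abs_nonneg _) (Finset.mem_univ j)).trans
          (Finset.single_le_sum (f := fun i => ∑ j : Fin 2, |K i j|)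
            (fun _ _ => Finset.sum_nonneg fun _ _ => abs_nonneg _) (Finset.mem_univ i))⟩
    obtain ⟨Q, hQ⟩ : ∃ Q : ℝ, ∀ i j : Fin 2, |P i j| ≤ Q :=
      ⟨∑ i : Fin 2, ∑ j : Fin 2, |P i j|, fun i j =>
        (Finset.single_le_sum (f := fun j => |P i j|) (fun _ _ => abs_nonneg _) (Finset.mem_univ j)).trans
          (Finset.single_le_sum (f := fun i => ∑ j : Fin 2, |P i j|)
            (fun _ _ => Finset.sum_nonneg fun _ _ => abs_nonneg _) (Finset.mem_univ i))⟩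
    have hB0 : 0 ≤ B := (abs_nonneg _).trans (hB 0 0)
    have hcore : ∀ (n : ℕ) (i j : Fin 2), |(dg (s ^ n) (pow_ne_zero n hs0) * K *
        (dg (s ^ n) (pow_ne_zero n hs0))⁻¹ : SL(2, ℝ)) i j| ≤ B := by
      intro n i j
      have h1s : |(s ^ n)⁻¹| ≤ 1 := by
        rw [abs_inv, abs_pow]
        exact inv_le_one_of_one_le₀ (one_le_pow₀ hs.le)
      have hsn : s ^ n ≠ 0 := pow_ne_zero n hs0
      rw [Matrix.SpecialLinearGroup.coe_mul, Matrix.SpecialLinearGroup.coe_mul, dg_val, dg_inv_val,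
        Matrix.mul_apply, Fin.sum_univ_two, Matrix.mul_apply, Matrix.mul_apply, Fin.sum_univ_two,
        Fin.sum_univ_two]
      fin_cases i <;> fin_cases j
      · simp [hsn, mul_comm (s ^ n)]
        exact hB 0 0
      · simp [hK01, hB0]
      · simp only [Fin.mk_one, Fin.zero_eta, Matrix.of_apply, Matrix.cons_val', Matrix.cons_val_zero,
          Matrix.cons_val_fin_one, Matrix.cons_val_one, zero_mul, zero_add, mul_zero, add_zero]
        rw [abs_mul, abs_mul]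
        calc |(s ^ n)⁻¹| * |K 1 0| * |(s ^ n)⁻¹| ≤ 1 * |K 1 0| * 1 := by
              gcongr
          _ = |K 1 0| := by ring
          _ ≤ B := hB 1 0
      · simp [hsn, mul_comm]
        exact hB 1 1
    obtain ⟨m, n, hmn, he⟩ := Set.Finite.exists_lt_map_eq_of_forall_mem
      (f := fun n : ℕ => δ ^ n * h * (δ ^ n)⁻¹)
      (fun n => (⟨D ^ n * H * (D ^ n)⁻¹, by
          show toP (D ^ n * H * (D ^ n)⁻¹) = _
          rw [toP_mul, toP_mul, toP_inv, hH, ← hρn, map_mul ρ (δ ^ n * h) (δ ^ n)⁻¹,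
            map_mul ρ (δ ^ n) h, map_inv ρ (δ ^ n)], fun i j => by
          have h3 : D ^ n * H * (D ^ n)⁻¹ = P * (dg (s ^ n) (pow_ne_zero n hs0) * K *
              (dg (s ^ n) (pow_ne_zero n hs0))⁻¹) * P⁻¹ := by
            rw [hDn, hK]; group
          rw [h3, Matrix.SpecialLinearGroup.coe_mul, Matrix.SpecialLinearGroup.coe_mul]
          exact mul_bdd (mul_bdd hQ (hcore n)) (inv_bdd hQ) i j⟩ :
      δ ^ n * h * (δ ^ n)⁻¹ ∈ {g : G | ∃ M : SL(2, ℝ), (QuotientGroup.mk M :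
        Matrix.ProjectiveSpecialLinearGroup (Fin 2) ℝ) = ρ g ∧
          ∀ i j, |M i j| ≤ 2 * (2 * Q * B) * Q})) (hρ.disc _)
    refine ⟨n - m, by omega, ?_⟩
    have h1 : δ ^ n = δ ^ m * δ ^ (n - m) := by rw [← pow_add]; congr 1; omega
    have h2 : δ ^ m * h * (δ ^ m)⁻¹ = δ ^ n * h * (δ ^ n)⁻¹ := he
    rw [h1] at h2
    have h3 : h = δ ^ (n - m) * h * (δ ^ (n - m))⁻¹ := by
      have h4 : (δ ^ m)⁻¹ * (δ ^ m * h * (δ ^ m)⁻¹) * δ ^ m =
        (δ ^ m)⁻¹ * (δ ^ m * δ ^ (n - m) * h * (δ ^ m * δ ^ (n - m))⁻¹) * δ ^ m := by rw [h2]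
      calc h = (δ ^ m)⁻¹ * (δ ^ m * h * (δ ^ m)⁻¹) * δ ^ m := by group
        _ = _ := h4
        _ = _ := by group
    show h * δ ^ (n - m) = δ ^ (n - m) * h
    calc h * δ ^ (n - m) = (δ ^ (n - m) * h * (δ ^ (n - m))⁻¹) * δ ^ (n - m) := by rw [← h3]
      _ = δ ^ (n - m) * h := inv_mul_cancel_right _ _

end Pool.Agent.VSB.M
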