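import Pool.Agent.VSB.PLam
import Pool.Agent.VSB.Circ2

/-! # VSB/Contra: there is no continuous equivariant map

`b0M = aM b0 = sM * mT ^ 5 ∈ AM` (`b0 = ss * tt ^ 5`), `dM = mI * mT ^ 10`.

* `dM_eq`, `mI_comm`, `mT_phiM`, `mI_phiM`: from `aM`, `zz_comm`, `psi_mul_aT`, `psi_aI`. `cf_fact`: unfold
(`(h⁻¹ * g) * gam a`).
* `cf_dM`: `dM ^ (-n) = mI ^ (-n) * mT ^ (-10 n)`; `cf a (g * dM ^ (-n)) v = cf a g v` by `invT`, `invI` (natural induction on
`n`; from `cf a (g * mT) v = cf a g v` with `g * mT⁻¹` for `g`). `cf_dM_s`: `g * dM ^ (-n) * sM = g * mT ^ (-10 n) * sM * mI ^ (-n)`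
(`mI` commutes with the image of `aM`), so by `invI` this is `cf b (g * mT ^ (-(10 n)) * sM) v`.
* `asym`: for `v_n = fact (dM ^ n) v` and `g` with `g * dM ^ (-n) = dM ^ (-n) * g` for all `n` (`g = 1` or `g = phiM`):
`cf b (g * sM) (v_n) = cf b (dM ^ (-n) * g * sM) v = cf b (g * mT ^ (-(10 n)) * sM) v`, which by `low` and `up` with `m = 10 n` differs from
`n * (10 * (II 0 b * cf 0 g v + II 1 b * cf 1 g v))` by at most `C`.
* `zero_on_gamma`: let `fact dM μ = r • μ`. Then `fact (dM ^ n) μ = r ^ n • μ`, and `cf a 1 (fact (dM ^ n) μ) = cf a (dM ^ (-n)) μ = cf a 1 μ`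
(`cf_dM`). If `cf a 1 μ ≠ 0` for some `a` then `r = 1`, so by `asym` with `g = 1` the numbers
`n * (10 * (II 0 b * cf 0 1 μ + II 1 b * cf 1 1 μ))` are bounded, so `II 0 b * cf 0 1 μ + II 1 b * cf 1 1 μ = 0` for `b = 0, 1`;
with `nonneg` and `II 0 1 = II 1 0 = II 1 1 = 1` all `cf a 1 μ = 0`, contradiction.
* `pos_on_V`: by `bdd` and `zero_on_gamma`, if `cf 0 sM μ = cf 1 sM μ = 0` then `μ t ≤ 0` for all `t`, so `μ = 0`.
* `key_id`: let `w = ray ν _ ∈ PML` with `dM ^ n • w → ray μ _`. `dM ^ n • ray ν _ = ray (fact (dM ^ n) ν) _` (`smul_ray`, and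
`fact (g * h) = fact g ∘ fact h`). Apply `limit_ratio` to the tests `(false, g * sM * gam b)`, `g = 1, phiM`, and `asym`; for
`g = phiM`, `cf a phiM ν = cf (1 - a) 1 ν` by `swap` (`g = 1`).
* `not_commute`: if `b0M⁻¹ * dM * b0M` commutes with `dM ^ k`, `k ≥ 1`, then by `aM_injective` `b0⁻¹ * dA * b0` commutes with
`dA ^ k` in `Hk`; apply `mu`: `mu dA = -!![1, 10 λ; 0, 1]`, `mu b0 = !![0, 1; -1, 0] * !![1, 5 λ; 0, 1]`; up to sign
`mu (b0⁻¹ * dA * b0) = U' := B⁻¹ * !![1, 10 λ; 0, 1] * B` whose lower left entry is not `0`, and a matrix which commutes with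
`!![1, 10 k λ; 0, 1]` (`k λ ≠ 0`) has lower left entry `0`. Contradiction. `not_commute'` is the conjugate by `phiM`
(`comm_dM`: `phiM` commutes with `dM`).
* `dM_pow_ne_one`: `mu (dA ^ n) ≠ 1`, `aM_injective`.
* `noMap`: let `f` be as in `NoMap`, `G = GG AM phiM`, `δ : G` the element `dM`. `north_south` gives `p`, `q`. Let
`f p = ray μ _` (`exists_ray`); `Lam μ` by `lam_of_PML`. `f p = f (ρ δ • p) = dM • f p` gives `fact dM μ = r • μ`, `r > 0`. Put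
`x₁ = ρ b0⁻¹ • p`, `x₂ = ρ (φ b0⁻¹ φ⁻¹) • p`; they are `≠ q` by `not_commute`, `not_commute'`, so
`ρ (δ ^ n) • x_i → p`, `dM ^ n • f x_i = f (ρ (δ ^ n) • x_i) → f p` by continuity. `f x₁ = b0M⁻¹ • ray μ = ray (fact b0M⁻¹ μ) _`, and
`f x₂ = ray (fact (phiM * b0M⁻¹ * phiM⁻¹) μ) _`. Let `X = cf 0 sM μ`, `Y = cf 1 sM μ`, `X' = cf 0 (phiM * sM) μ`,
`Y' = cf 1 (phiM * sM) μ`. For `ν = fact b0M⁻¹ μ`: `cf a 1 ν = cf a b0M μ = cf a (sM * mT ^ 5) μ = cf a sM μ` (`invT`), i.e. `X`, `Y`. For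
`ν' = fact (phiM * b0M⁻¹ * phiM⁻¹) μ`: `cf a 1 ν' = cf a (phiM * b0M * phiM⁻¹) μ = cf (1 - a) (phiM * b0M) μ = cf (1 - a) (phiM * sM) μ` (`swap` with
`g = phiM * b0M * phiM⁻¹`, and `invT`), i.e. `Y'`, `X'`. `key_id` for `ν` gives
`X * (X + Y) = Y * Y`, `X * X = X' * Y`, `X' * (X + Y) = Y' * X`; `key_id` for `ν'` gives `X' * (X' + Y') = Y' * Y'`
(see `algebra`), which with `X, Y ≥ 0` not both zero is impossible (`algebra`). -/

set_option autoImplicit false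

open Filter Topology
open scoped LinearAlgebra.Projectivization

namespace Pool.Agent.VSB.M

/-- the final algebraic contradiction -/
theorem algebra {X Y X' Y' : ℝ} (hX : 0 ≤ X) (hY : 0 ≤ Y) (hne : X ≠ 0 ∨ Y ≠ 0)
    (h1 : X * (X + Y) = Y * Y) (h2 : X * X = X' * Y) (h3 : X' * (X + Y) = Y' * X)
    (h4 : X' * (X' + Y') = Y' * Y') : False := by
  have hY0 : Y ≠ 0 := by
    intro h
    rw [h] at h1
    rcases hne with h' | h'
    · apply h'
      nlinarith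
    · exact h' h
  have hYp : 0 < Y := lt_of_le_of_ne hY (Ne.symm hY0)
  have hXp : 0 < X := by
    rcases hX.lt_or_eq with h | h
    · exact h
    · rw [← h] at h1; nlinarith
  have hX' : X' = X * X / Y := by field_simp; linarith
  have hY' : Y' = Y := by
    have h5 : Y' * X = Y * X := by
      rw [← h3, hX', div_mul_eq_mul_div, mul_assoc, h1]; field_simp
    exact mul_right_cancel₀ hXp.ne' h5
  rw [hY', hX'] at h4
  have h6 : X * X * (X * X + Y * Y) = Y * Y * (Y * Y) := by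
    field_simp at h4
    nlinarith
  nlinarith [mul_pos hXp hYp, mul_pos (mul_pos hXp hYp) (mul_pos hXp hXp)]

theorem dM_eq : dM = mI * mT ^ 10 := by
  show aM (zz * tt ^ 10) = _
  rw [map_mul, map_pow, aM_zz, aM_tt]

theorem mI_comm (h : Hk) : mI * aM h = aM h * mI := by
  rw [← aM_zz, ← map_mul, ← map_mul, zz_comm]

theorem mT_psiC : Commute mT (mcl psi psi_mem) := by
  show mcl aT aT_mem * mcl psi psi_mem = mcl psi psi_mem * mcl aT aT_mem
  rw [mcl_mul, mcl_mul]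
  apply Subtype.ext
  show (QuotientGroup.mk (aT * psi) : OutPi) = QuotientGroup.mk (psi * aT)
  rw [psi_mul_aT]

theorem mI_psiC : Commute mI (mcl psi psi_mem) := by
  show mcl aI aI_mem * mcl psi psi_mem = mcl psi psi_mem * mcl aI aI_mem
  rw [mcl_mul, mcl_mul, eq_comm, mcl_eq_iff]
  refine ⟨gI, fun x => ?_⟩
  exact psi_aI x

theorem mT_phiM : mT * phiM = phiM * mT := mT_psiC.inv_right

theorem mI_phiM : mI * phiM = phiM * mI := mI_psiC.inv_right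

/-- the element `b0` of the group `A` -/
def b0M : MCG := aM b0

theorem b0M_eq : b0M = sM * mT ^ 5 := by
  show aM (ss * tt ^ 5) = _
  rw [map_mul, map_pow, aM_tt]
  rfl

theorem b0M_mem : b0M ∈ AM := ⟨b0, b0_mem, rfl⟩

theorem fact_mul (g h : MCG) (v : Test → ℝ) : fact (g * h) v = fact g (fact h v) := by
  funext t
  show v (t.1, (g * h)⁻¹ * t.2) = v (t.1, h⁻¹ * (g⁻¹ * t.2))
  rw [mul_inv_rev, mul_assoc]

theorem fact_smul (g : MCG) (r : ℝ) (v : Test → ℝ) : fact g (r • v) = r • fact g v := rfl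

theorem cf_fact (a : Fin 2) (g h : MCG) (v : Test → ℝ) : cf a g (fact h v) = cf a (h⁻¹ * g) v := by
  show v (false, h⁻¹ * (g * gam a)) = v (false, h⁻¹ * g * gam a)
  rw [mul_assoc]

/-- the right stabiliser of the numbers `cf a` of `v` -/
def rstC (a : Fin 2) (v : Test → ℝ) : Subgroup MCG where
  carrier := {h | ∀ g, cf a (g * h) v = cf a g v}
  mul_mem' := by
    intro h h' hh hh' g
    rw [← mul_assoc, hh', hh]
  one_mem' := fun g => by rw [mul_one]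
  inv_mem' := by
    intro h hh g
    have := hh (g * h⁻¹)
    rw [inv_mul_cancel_right] at this
    exact this.symm

theorem mT_rstC {v : Test → ℝ} (hv : Lam v) (a : Fin 2) : mT ∈ rstC a v := fun g => hv.invT g a

theorem mI_rstC {v : Test → ℝ} (hv : Lam v) (a : Fin 2) : mI ∈ rstC a v := fun g => hv.invI g a

theorem dM_rstC {v : Test → ℝ} (hv : Lam v) (a : Fin 2) : dM ∈ rstC a v := by
  rw [dM_eq]
  exact mul_mem (mI_rstC hv a) (pow_mem (mT_rstC hv a) 10)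

theorem cf_dM {v : Test → ℝ} (hv : Lam v) (a : Fin 2) (g : MCG) (n : ℕ) :
    cf a (g * (dM ^ n)⁻¹) v = cf a g v :=
  (inv_mem (pow_mem (dM_rstC hv a) n) : (dM ^ n)⁻¹ ∈ rstC a v) g

theorem dM_powC (n : ℕ) : (dM ^ n)⁻¹ * sM = mT ^ (-(10 * n : ℤ)) * sM * (mI ^ n)⁻¹ := by
  have h1 : Commute mI (mT ^ 10) := by
    have h := mI_comm (tt ^ 10)
    rwa [map_pow, aM_tt] at h
  have h2 : Commute mI sM := mI_comm ss
  have h4 : (mT ^ 10) ^ n = mT ^ (10 * n : ℤ) := by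
    rw [← pow_mul, ← zpow_natCast]; push_cast; rfl
  rw [dM_eq, h1.mul_pow, mul_inv_rev, h4, ← zpow_neg, mul_assoc, mul_assoc]
  congr 1
  exact (h2.pow_left n).inv_left.eq

theorem cf_dM_s {v : Test → ℝ} (hv : Lam v) (b : Fin 2) (g : MCG) (n : ℕ) :
    cf b (g * (dM ^ n)⁻¹ * sM) v = cf b (g * mT ^ (-(10 * n : ℤ)) * sM) v := by
  rw [mul_assoc, dM_powC, ← mul_assoc, ← mul_assoc]
  exact (inv_mem (pow_mem (mI_rstC hv b) n) : (mI ^ n)⁻¹ ∈ rstC b v) _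

theorem asym {v : Test → ℝ} (hv : Lam v) {g : MCG} (hg : g = 1 ∨ g = phiM) :
    ∃ C : ℝ, ∀ (b : Fin 2) (n : ℕ), |cf b (g * sM) (fact (dM ^ n) v) -
      n * (10 * (II 0 b * cf 0 g v + II 1 b * cf 1 g v))| ≤ C := by
  have hnn : ∀ a g, 0 ≤ cf a g v := fun a g => hv.nonneg _
  refine ⟨20 * (cf 0 g v + cf 1 g v + cf 0 (g * sM) v + cf 1 (g * sM) v) +
    (cf 0 (g * sM) v + cf 1 (g * sM) v), fun b n => ?_⟩
  have hcomm : (dM ^ n)⁻¹ * g = g * (dM ^ n)⁻¹ := by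
    rcases hg with rfl | rfl
    · rw [mul_one, one_mul]
    · have h : Commute phiM dM := mul_inv_eq_iff_eq_mul.1 comm_dM
      exact (h.pow_right n).inv_right.eq.symm
  have h1 : cf b (g * sM) (fact (dM ^ n) v) = cf b (g * mT ^ (-(10 * n : ℤ)) * sM) v := by
    rw [cf_fact, ← mul_assoc, hcomm, cf_dM_s hv]
  rw [h1]
  have hlow := hv.low g (10 * n) b
  have hup := hv.up g (10 * n) b
  have hna : ((10 * (n : ℤ)).natAbs : ℝ) = 10 * n := by
    have : (10 * (n : ℤ)).natAbs = 10 * n := by omega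
    rw [this]; push_cast; ring
  rw [hna] at hlow hup
  have hb : cf b (g * sM) v ≤ cf 0 (g * sM) v + cf 1 (g * sM) v := by
    have h0 := hnn 0 (g * sM)
    have h1 := hnn 1 (g * sM)
    fin_cases b
    · show cf 0 (g * sM) v ≤ _; linarith
    · show cf 1 (g * sM) v ≤ _; linarith
  have h20 : 0 ≤ 20 * (cf 0 g v + cf 1 g v + cf 0 (g * sM) v + cf 1 (g * sM) v) := by
    have := hnn 0 g; have := hnn 1 g; have := hnn 0 (g * sM); have := hnn 1 (g * sM)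
    linarith
  have h2 : 0 ≤ cf 0 (g * sM) v + cf 1 (g * sM) v := add_nonneg (hnn _ _) (hnn _ _)
  rw [abs_le]
  constructor <;> nlinarith

theorem zero_on_gamma {μ : Test → ℝ} (hμ : Lam μ) {r : ℝ} (hr : 0 < r) (h : fact dM μ = r • μ)
    (a : Fin 2) : cf a 1 μ = 0 := by
  have hnn : ∀ a g, 0 ≤ cf a g μ := fun a g => hμ.nonneg _
  have hpow : ∀ n : ℕ, fact (dM ^ n) μ = r ^ n • μ := by
    intro n
    induction n with
    | zero => rw [pow_zero, pow_zero, one_smul]; funext t; show μ (t.1, 1⁻¹ * t.2) = μ t; simp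
    | succ n ih => rw [pow_succ', fact_mul, ih, fact_smul, h, smul_smul, pow_succ]
  have hr1 : ∀ a, cf a 1 μ ≠ 0 → r = 1 := by
    intro a ha
    have h1 : cf a 1 (fact (dM ^ 1) μ) = cf a 1 μ := by
      rw [cf_fact]
      have := cf_dM hμ a 1 1
      rw [one_mul] at this
      rw [mul_one]; exact this
    rw [hpow, pow_one] at h1
    have h2 : r * cf a 1 μ = cf a 1 μ := h1
    exact mul_right_cancel₀ ha (by rw [h2, one_mul])
  by_contra ha
  have hr' := hr1 a ha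
  obtain ⟨C, hC⟩ := asym hμ (g := 1) (Or.inl rfl)
  have hz : ∀ b : Fin 2, (II 0 b * cf 0 1 μ + II 1 b * cf 1 1 μ) ≤ 0 := by
    intro b
    by_contra hpos
    push Not at hpos
    obtain ⟨n, hn⟩ := exists_nat_gt ((C + |cf b (1 * sM) μ|) / (10 * (II 0 b * cf 0 1 μ + II 1 b * cf 1 1 μ)))
    have h3 := hC b n
    rw [hpow, hr', one_pow, one_smul] at h3
    rw [div_lt_iff₀ (by positivity)] at hn
    have h4 := abs_le.1 h3
    have h5 := neg_abs_le (cf b (1 * sM) μ)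
    have h6 := le_abs_self (cf b (1 * sM) μ)
    linarith [h4.1, h4.2]
  have h00 := hnn 0 1
  have h11 := hnn 1 1
  have e0 : II 0 0 = 0 := rfl
  have e1 : II 1 0 = 1 := rfl
  have e2 : II 0 1 = 1 := rfl
  have e3 : II 1 1 = 1 := rfl
  have z0 := hz 0
  have z1 := hz 1
  rw [e0, e1] at z0
  rw [e2, e3] at z1
  push_cast at z0 z1
  apply ha
  fin_cases a
  · show cf 0 1 μ = 0; linarith
  · show cf 1 1 μ = 0; linarith

theorem pos_on_V {μ : Test → ℝ} (hμ : Lam μ) (h0 : μ ≠ 0) (hγ : ∀ a, cf a 1 μ = 0) :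
    cf 0 sM μ ≠ 0 ∨ cf 1 sM μ ≠ 0 := by
  by_contra hcon
  push Not at hcon
  apply h0
  funext t
  have h1 := hμ.bdd t
  have h2 := hμ.nonneg t
  have h3 : nrm μ = 0 := by
    show cf 0 1 μ + cf 1 1 μ + cf 0 sM μ + cf 1 sM μ = 0
    rw [hγ 0, hγ 1, hcon.1, hcon.2]; ring
  rw [h3, mul_zero] at h1
  exact le_antisymm h1 h2

/-- intersection number of the limit with the curve `g V_b` (`g = 1` or `phiM`), up to a common factor -/
noncomputable def lm (ν : Test → ℝ) (g : MCG) (b : Fin 2) : ℝ :=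
  10 * (II 0 b * cf 0 g ν + II 1 b * cf 1 g ν)

theorem key_id {μ ν : Test → ℝ} (hμ : μ ≠ 0) (hν : Lam ν) (hν0 : ν ≠ 0)
    (hlim : Tendsto (fun n : ℕ => dM ^ n • ray ν hν0) atTop (𝓝 (ray μ hμ))) {g g' : MCG}
    (hg : g = 1 ∨ g = phiM) (hg' : g' = 1 ∨ g' = phiM) (b b' : Fin 2) :
    cf b (g * sM) μ * lm ν g' b' = cf b' (g' * sM) μ * lm ν g b := by
  obtain ⟨C, hC⟩ := asym hν hg
  obtain ⟨C', hC'⟩ := asym hν hg'
  have hlim' : Tendsto (fun n : ℕ => ray (fact (dM ^ n) ν) (fact_ne_zero (dM ^ n) hν0)) atTop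
      (𝓝 (ray μ hμ)) := hlim
  exact limit_ratio (v := fun n => fact (dM ^ n) ν) (fun n => fact_ne_zero (dM ^ n) hν0) hμ hlim'
    (t := (false, g * sM * gam b)) (t' := (false, g' * sM * gam b')) (C := max C C')
    (fun n => (hC b n).trans (le_max_left _ _)) (fun n => (hC' b' n).trans (le_max_right _ _))

theorem mu_tt_powC (n : ℕ) : (mu (tt ^ n) : Matrix (Fin 2) (Fin 2) ℝ) = !![1, n * lam; 0, 1] := by
  induction n with
  | zero => rw [pow_zero, map_one]; ext i j; fin_cases i <;> fin_cases j <;> simp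
  | succ n ih =>
    rw [pow_succ, map_mul, Matrix.SpecialLinearGroup.coe_mul, ih, mu_tt, Matrix.mul_fin_two]
    push_cast
    ext i j
    fin_cases i <;> fin_cases j <;> simp
    ring

theorem hk_not_commuteC {k : ℕ} (hk : 1 ≤ k) : ¬ Commute (b0⁻¹ * dA * b0) (dA ^ k) := by
  intro h
  -- conjugate by `b0`
  have h1 : Commute dA (b0 * dA ^ k * b0⁻¹) := by
    have h2 := h.map (MulAut.conj b0).toMonoidHom
    have e1 : (MulAut.conj b0).toMonoidHom (b0⁻¹ * dA * b0) = dA := by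
      show b0 * (b0⁻¹ * dA * b0) * b0⁻¹ = dA
      group
    rw [e1] at h2
    exact h2
  have hzc : ∀ x : Hk, Commute zz x := fun x => (zz_comm x).symm
  have h3 : b0 * dA ^ k * b0⁻¹ = zz ^ k * (ss * tt ^ (10 * k) * ss⁻¹) := by
    have hd : dA ^ k = zz ^ k * tt ^ (10 * k) := by
      rw [show dA = zz * tt ^ 10 from rfl, (hzc _).mul_pow, ← pow_mul]
    have hc : Commute (tt ^ 5) (tt ^ (10 * k)) := (Commute.refl tt).pow_pow _ _
    rw [hd, show b0 = ss * tt ^ 5 from rfl]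
    calc ss * tt ^ 5 * (zz ^ k * tt ^ (10 * k)) * (ss * tt ^ 5)⁻¹
        = ss * (tt ^ 5 * zz ^ k) * tt ^ (10 * k) * ((tt ^ 5)⁻¹ * ss⁻¹) := by group
      _ = ss * (zz ^ k * tt ^ 5) * tt ^ (10 * k) * ((tt ^ 5)⁻¹ * ss⁻¹) := by
          rw [((hzc (tt ^ 5)).pow_left k).eq]
      _ = (ss * zz ^ k) * ((tt ^ 5 * tt ^ (10 * k)) * (tt ^ 5)⁻¹) * ss⁻¹ := by group
      _ = (zz ^ k * ss) * ((tt ^ (10 * k) * tt ^ 5) * (tt ^ 5)⁻¹) * ss⁻¹ := by
          rw [((hzc ss).pow_left k).eq, hc.eq]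
      _ = _ := by group
  have h4 : Commute (tt ^ 10) (ss * tt ^ (10 * k) * ss⁻¹) := by
    have h5 : tt ^ 10 = zz⁻¹ * dA := by
      rw [show dA = zz * tt ^ 10 from rfl]; group
    have h6 : ss * tt ^ (10 * k) * ss⁻¹ = (zz ^ k)⁻¹ * (b0 * dA ^ k * b0⁻¹) := by
      rw [h3]; group
    rw [h5, h6]
    have hz1 : Commute zz⁻¹ ((zz ^ k)⁻¹ * (b0 * dA ^ k * b0⁻¹)) := (hzc _).inv_left
    have hz2 : Commute dA (zz ^ k)⁻¹ := ((hzc dA).pow_left k).inv_left.symm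
    exact hz1.mul_left (hz2.mul_right h1)
  have h5 : tt ^ 10 * ss * tt ^ (10 * k) = ss * tt ^ (10 * k) * ss⁻¹ * tt ^ 10 * ss := by
    have := congrArg (fun x => x * ss) h4.eq
    calc tt ^ 10 * ss * tt ^ (10 * k) = tt ^ 10 * (ss * tt ^ (10 * k) * ss⁻¹) * ss := by group
      _ = _ := this
  have hinv : (ss : Hk)⁻¹ = zz * ss := by
    rw [inv_eq_iff_mul_eq_one]
    have := ss_pow4
    rw [show zz = ss ^ 2 from rfl]
    calc ss * (ss ^ 2 * ss) = ss ^ 4 := by group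
      _ = 1 := this
  rw [hinv] at h5
  have h6 := congrArg (fun x => (mu x : Matrix (Fin 2) (Fin 2) ℝ)) h5
  simp only [map_mul, Matrix.SpecialLinearGroup.coe_mul, mu_ssHM, muS_coeHM, mu_zz,
    Matrix.SpecialLinearGroup.coe_neg, Matrix.SpecialLinearGroup.coe_one] at h6
  rw [mu_tt_powC, mu_tt_powC] at h6
  have h7 := congrFun (congrFun h6 0) 1
  have h8 := congrFun (congrFun h6 0) 0
  have h9 := congrFun (congrFun h6 1) 1
  have h10 := congrFun (congrFun h6 1) 0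
  simp [Matrix.mul_fin_two] at h7 h8 h9 h10
  have hk' : (1 : ℝ) ≤ k := by exact_mod_cast hk
  have hl : 1 < lam := Real.one_lt_goldenRatio
  have h5' := Real.sqrt_nonneg 5
  rcases h10 with h | h
  · omega
  · linarith

theorem not_commute {k : ℕ} (hk : 1 ≤ k) : ¬ Commute (b0M⁻¹ * dM * b0M) (dM ^ k) := by
  intro h
  apply hk_not_commuteC hk
  have h1 : aM ((b0⁻¹ * dA * b0) * dA ^ k) = aM (dA ^ k * (b0⁻¹ * dA * b0)) := by
    simp only [map_mul, map_inv, map_pow]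
    exact h.eq
  exact aM_injective h1

theorem not_commute' {k : ℕ} (hk : 1 ≤ k) : ¬ Commute ((phiM * b0M⁻¹ * phiM⁻¹) * dM *
    (phiM * b0M⁻¹ * phiM⁻¹)⁻¹) (dM ^ k) := by
  intro h
  apply not_commute hk
  have hc : Commute phiM dM := mul_inv_eq_iff_eq_mul.1 comm_dM
  have e1 : (phiM * b0M⁻¹ * phiM⁻¹) * dM * (phiM * b0M⁻¹ * phiM⁻¹)⁻¹ =
      phiM * (b0M⁻¹ * dM * b0M) * phiM⁻¹ := by
    calc (phiM * b0M⁻¹ * phiM⁻¹) * dM * (phiM * b0M⁻¹ * phiM⁻¹)⁻¹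
        = phiM * b0M⁻¹ * (phiM⁻¹ * (dM * phiM)) * b0M * phiM⁻¹ := by group
      _ = phiM * b0M⁻¹ * (phiM⁻¹ * (phiM * dM)) * b0M * phiM⁻¹ := by rw [hc.eq]
      _ = _ := by group
  have e2 : dM ^ k = phiM * dM ^ k * phiM⁻¹ := by
    rw [(hc.pow_right k).eq]; group
  rw [e1, e2] at h
  exact (Commute.conj_iff phiM).1 h

theorem dM_pow_ne_one {n : ℕ} (hn : 1 ≤ n) : dM ^ n ≠ 1 := by
  intro h
  have h1 : aM (dA ^ n) = aM 1 := by rw [map_pow, map_one]; exact h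
  have h2 : dA ^ n = 1 := aM_injective h1
  have hd : dA ^ n = zz ^ n * tt ^ (10 * n) := by
    rw [show dA = zz * tt ^ 10 from rfl, (show Commute zz (tt ^ 10) from (zz_comm _).symm).mul_pow,
      ← pow_mul]
  rw [hd] at h2
  have h3 : zz ^ n * zz ^ n * tt ^ (10 * n) = zz ^ n := by rw [mul_assoc, h2, mul_one]
  have h4 : zz ^ n * zz ^ n = 1 := by rw [← pow_add, ← two_mul, pow_mul, zz_sq, one_pow]
  rw [h4, one_mul] at h3
  have h5 : tt ^ (10 * n) * tt ^ (10 * n) = 1 := by rw [h3, h4]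
  rw [← pow_add] at h5
  have h6 := congrArg (fun x => (mu x : Matrix (Fin 2) (Fin 2) ℝ) 0 1) h5
  simp only [mu_tt_powC, map_one] at h6
  simp at h6
  have hl : 1 < lam := Real.one_lt_goldenRatio
  have hn' : (1 : ℝ) ≤ n := by exact_mod_cast hn
  have h5' := Real.sqrt_nonneg 5
  rcases h6 with h6 | h6
  · linarith
  · linarith

theorem cf_b0C {v : Test → ℝ} (hv : Lam v) (a : Fin 2) (g : MCG) :
    cf a (g * b0M) v = cf a (g * sM) v := by
  rw [b0M_eq, ← mul_assoc]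
  exact (pow_mem (mT_rstC hv a) 5 : mT ^ 5 ∈ rstC a v) _

theorem noMap : NoMap (GG AM phiM) := by
  rintro ρ hρ ⟨f, hf, hfP, heq⟩
  have hdG : dM ∈ GG AM phiM :=
    (le_sup_left : AM ≤ GG AM phiM) (zpowers_dM_le (Subgroup.mem_zpowers dM))
  have hbG : b0M ∈ GG AM phiM := (le_sup_left : AM ≤ GG AM phiM) b0M_mem
  have hcG : phiM * b0M * phiM⁻¹ ∈ GG AM phiM :=
    (le_sup_right : cj phiM AM ≤ GG AM phiM) ⟨b0M, b0M_mem, rfl⟩
  obtain ⟨δ, hδe⟩ : ∃ δ : GG AM phiM, (δ : MCG) = dM := ⟨⟨dM, hdG⟩, rfl⟩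
  obtain ⟨β, hβe⟩ : ∃ β : GG AM phiM, (β : MCG) = b0M := ⟨⟨b0M, hbG⟩, rfl⟩
  obtain ⟨γ, hγe⟩ : ∃ γ : GG AM phiM, (γ : MCG) = phiM * b0M * phiM⁻¹ := ⟨⟨_, hcG⟩, rfl⟩
  have hδ : ∀ n : ℕ, 1 ≤ n → δ ^ n ≠ 1 := by
    intro n hn h
    apply dM_pow_ne_one hn
    rw [← hδe, ← Subgroup.coe_pow, h]; rfl
  obtain ⟨p, q, hp, hdyn, hpq⟩ := north_south hρ hδ
  obtain ⟨μ, hμ0, hμ⟩ := exists_ray (f p)
  have hL : Lam μ := lam_of_PML (h := hμ0) (hμ ▸ hfP p)
  obtain ⟨r, hr, hfix⟩ : ∃ r : ℝ, 0 < r ∧ fact dM μ = r • μ := by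
    have h1 : dM • f p = f p := by
      have h2 := heq δ p
      rw [hp, hδe] at h2
      exact h2.symm
    rw [hμ, smul_ray] at h1
    exact (ray_eq_iff _ _).1 h1
  have hz := zero_on_gamma hL hr hfix
  have hne := pos_on_V hL hμ0 hz
  -- dynamics
  have hgen : ∀ τ : GG AM phiM, ρ τ • p ≠ q →
      Tendsto (fun n : ℕ => dM ^ n • ray (fact τ μ) (fact_ne_zero τ hμ0)) atTop
        (𝓝 (ray μ hμ0)) := by
    intro τ hτ
    have h1 := (hf.tendsto p).comp (hdyn _ hτ)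
    rw [hμ] at h1
    refine h1.congr (fun n => ?_)
    show f (ρ (δ ^ n) • (ρ τ • p)) = _
    rw [heq, heq, hμ, smul_ray, Subgroup.coe_pow, hδe]
  have hLt : ∀ τ : GG AM phiM, Lam (fact τ μ) := by
    intro τ
    have h1 := hfP (ρ τ • p)
    rw [heq, hμ, smul_ray] at h1
    exact lam_of_PML h1
  have hβ : ρ β⁻¹ • p ≠ q := by
    intro h
    obtain ⟨k, hk, hc⟩ := hpq β⁻¹ h
    apply not_commute hk
    have h1 := congrArg (Subtype.val) hc.eq
    simp only [Subgroup.coe_mul, Subgroup.coe_inv, Subgroup.coe_pow, hδe, hβe, inv_inv] at h1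
    exact h1
  have hγ : ρ γ⁻¹ • p ≠ q := by
    intro h
    obtain ⟨k, hk, hc⟩ := hpq γ⁻¹ h
    apply not_commute' hk
    have h1 := congrArg (Subtype.val) hc.eq
    simp only [Subgroup.coe_mul, Subgroup.coe_inv, Subgroup.coe_pow, hδe, hγe, inv_inv] at h1
    have h2 : (phiM * b0M * phiM⁻¹)⁻¹ = phiM * b0M⁻¹ * phiM⁻¹ := by group
    rw [← h2, inv_inv]
    exact h1
  have k1 := fun g g' hg hg' b b' => key_id (g := g) (g' := g') hμ0 (hLt β⁻¹)
    (fact_ne_zero _ hμ0) (hgen _ hβ) hg hg' b b'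
  have k2 := fun g g' hg hg' b b' => key_id (g := g) (g' := g') hμ0 (hLt γ⁻¹)
    (fact_ne_zero _ hμ0) (hgen _ hγ) hg hg' b b'
  -- the numbers of the translates
  have n1 : ∀ a, cf a 1 (fact ((β⁻¹ : GG AM phiM) : MCG) μ) = cf a sM μ := by
    intro a
    rw [cf_fact, Subgroup.coe_inv, inv_inv, hβe, mul_one]
    have := cf_b0C hL a 1
    rwa [one_mul, one_mul] at this
  have n2 : ∀ a, cf a 1 (fact ((γ⁻¹ : GG AM phiM) : MCG) μ) = cf (1 - a) (phiM * sM) μ := by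
    intro a
    rw [cf_fact, Subgroup.coe_inv, inv_inv, hγe, mul_one, ← cf_b0C hL (1 - a) phiM]
    have h1 := hL.swap (phiM * b0M * phiM⁻¹) (1 - a)
    rw [inv_mul_cancel_right] at h1
    rw [h1]
    congr 1
    fin_cases a <;> rfl
  have l1 : ∀ v : Test → ℝ, lm v 1 0 = 10 * cf 1 1 v := by
    intro v
    show 10 * (((0 : ℕ) : ℝ) * cf 0 1 v + ((1 : ℕ) : ℝ) * cf 1 1 v) = _
    push_cast; ring
  have l2 : ∀ v : Test → ℝ, lm v 1 1 = 10 * (cf 0 1 v + cf 1 1 v) := by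
    intro v
    show 10 * (((1 : ℕ) : ℝ) * cf 0 1 v + ((1 : ℕ) : ℝ) * cf 1 1 v) = _
    push_cast; ring
  have sw0 : ∀ v : Test → ℝ, Lam v → cf 0 phiM v = cf 1 1 v := by
    intro v hv
    have := hv.swap 1 0
    rwa [one_mul] at this
  have sw1 : ∀ v : Test → ℝ, Lam v → cf 1 phiM v = cf 0 1 v := by
    intro v hv
    have := hv.swap 1 1
    rwa [one_mul] at this
  have l3 : ∀ v : Test → ℝ, Lam v → lm v phiM 0 = 10 * cf 0 1 v := by
    intro v hv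
    show 10 * (((0 : ℕ) : ℝ) * cf 0 phiM v + ((1 : ℕ) : ℝ) * cf 1 phiM v) = _
    rw [sw1 v hv]; push_cast; ring
  have l4 : ∀ v : Test → ℝ, Lam v → lm v phiM 1 = 10 * (cf 0 1 v + cf 1 1 v) := by
    intro v hv
    show 10 * (((1 : ℕ) : ℝ) * cf 0 phiM v + ((1 : ℕ) : ℝ) * cf 1 phiM v) = _
    rw [sw1 v hv, sw0 v hv]; push_cast; ring
  have i1 := k1 1 1 (Or.inl rfl) (Or.inl rfl) 0 1
  have i2 := k1 1 phiM (Or.inl rfl) (Or.inr rfl) 0 0
  have i3 := k1 phiM phiM (Or.inr rfl) (Or.inr rfl) 0 1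
  have i4 := k2 phiM phiM (Or.inr rfl) (Or.inr rfl) 0 1
  rw [l1, l2, n1, n1, one_mul] at i1
  rw [l3 _ (hLt _), l1, n1, n1, one_mul] at i2
  rw [l4 _ (hLt _), l3 _ (hLt _), n1, n1] at i3
  rw [l4 _ (hLt _), l3 _ (hLt _), n2, n2] at i4
  have e0 : (1 - 0 : Fin 2) = 1 := rfl
  have e1 : (1 - 1 : Fin 2) = 0 := rfl
  rw [e0, e1] at i4
  refine algebra (X := cf 0 sM μ) (Y := cf 1 sM μ) (X' := cf 0 (phiM * sM) μ)
    (Y' := cf 1 (phiM * sM) μ) (hL.nonneg _) (hL.nonneg _) hne ?_ ?_ ?_ ?_ <;> linarith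

end Pool.Agent.VSB.M
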