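import Pool.Agent.VSB.Parse

/-! # VSB/Core: words which are minimal for both directions

PROOF of `exists_min_word`. Choose `g, w` with `ev w = g⁻¹ * x * g` and `w.length` minimal. If `1 ≤ nc w`, the first alternative of
`parse` contradicts minimality (`length_eq`), so there is an axis with `H.cnt a = hc a w`, and
`inum a x = hc a w` (`HAx.cnt_eq`, `inum_conj`). If `nc w = 0` then `hc a w = 0` and `inum a x ≤ hc a w = 0`. For the vertical
numbers apply this to `aS⁻¹`: by `exists_word_aSi` there is `w'` with `ev w' = aS⁻¹ (ev w)`, `w'.length = w.length`,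
`hc b w' = vc b w`; `w'` is a shortest word for the conjugacy class of `aS⁻¹ x` (map back with `exists_word_aS`), so
`hc b w' = inum b (aS⁻¹ x) = jnum b x` (`jnum_eq`).
`exists_hax`: the same word and `parse`. -/

set_option autoImplicit false

namespace Pool.Agent.VSB

/-- a shortest word has the right number of horizontal crossings -/
theorem hc_of_minVC {x g : Pi} {w : Wd} (hw : ev w = g⁻¹ * x * g)
    (hmin : ∀ (g' : Pi) (w' : Wd), ev w' = g'⁻¹ * x * g' → w.length ≤ w'.length) (a : Fin 2) :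
    hc a w = inum a x := by
  have hle : inum a x ≤ hc a w := inum_le hw
  by_cases hn : 1 ≤ nc w
  · rcases parse w hn with ⟨w', g', h1, h2, h3⟩ | ⟨g', H, h1, -⟩
    · exfalso
      have h4 := hmin (g * g') w' (by rw [h1, hw]; group)
      rw [length_eq, length_eq] at h4
      omega
    · have h2 := H.cnt_eq a
      rw [h1, hw] at h2
      have h3 : g'⁻¹ * (g⁻¹ * x * g) * g' = (g * g')⁻¹ * x * ((g * g')⁻¹)⁻¹ := by group
      rw [h3, inum_conj] at h2
      exact h2.symm
  · have h0 : hc a w = 0 := by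
      unfold nc at hn
      fin_cases a
      · show hc 0 w = 0
        omega
      · show hc 1 w = 0
        omega
    omega

theorem exists_min_wordVC (x : Pi) : ∃ (g : Pi) (w : Wd), ev w = g⁻¹ * x * g ∧
    ∀ (g' : Pi) (w' : Wd), ev w' = g'⁻¹ * x * g' → w.length ≤ w'.length := by
  classical
  have hex : ∃ n : ℕ, ∃ (g : Pi) (w : Wd), ev w = g⁻¹ * x * g ∧ w.length = n := by
    obtain ⟨w, hw⟩ := ev_surj x
    exact ⟨w.length, 1, w, by rw [hw]; group, rfl⟩
  obtain ⟨g, w, h1, h2⟩ := Nat.find_spec hex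
  refine ⟨g, w, h1, fun g' w' h' => ?_⟩
  rw [h2]
  exact Nat.find_min' hex ⟨g', w', h', rfl⟩

theorem exists_min_word (x : Pi) : ∃ (g : Pi) (w : Wd), ev w = g⁻¹ * x * g ∧
    (∀ a, hc a w = inum a x) ∧ ∀ b, vc b w = jnum b x := by
  obtain ⟨g, w, hw, hmin⟩ := exists_min_wordVC x
  refine ⟨g, w, hw, hc_of_minVC hw hmin, fun b => ?_⟩
  obtain ⟨w', h1, h2, -, h4⟩ := exists_word_aSi w
  have h5 : ev w' = (aS⁻¹ g)⁻¹ * (aS⁻¹ x) * (aS⁻¹ g) := by
    rw [h1, hw, map_mul, map_mul, map_inv]
  have h6 := hc_of_minVC h5 (by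
    intro g'' w'' h''
    obtain ⟨w₃, h7, h8, -, -⟩ := exists_word_aS w''
    have h9 := hmin (aS g'') w₃ (by
      have h1 : aS (aS⁻¹ x) = x := MulAut.apply_inv_self Pi aS x
      rw [h7, h'', map_mul, map_mul, map_inv, h1])
    omega) b
  rw [jnum_eq, ← h6, h4]

theorem exists_hax (x : Pi) (h : 1 ≤ ell x) : ∃ (g : Pi) (H : HAx (g⁻¹ * x * g)),
    (∀ a, H.cnt a = inum a x) ∧ H.n = ell x ∧
    ∑ j ∈ Finset.range H.n, (H.f j).norm ≤ jnum 0 x + jnum 1 x + 2 * ell x := by
  obtain ⟨g, w, hw, h1, h2⟩ := exists_min_word x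
  have hnc : nc w = ell x := by
    unfold nc ell
    rw [h1, h1]
  have hsc : sc w = jnum 0 x + jnum 1 x := by
    unfold sc
    rw [h2, h2]
  rcases parse w (by rw [hnc]; exact h) with ⟨w', g', h3, h4, -⟩ | ⟨g', H, h3, h4⟩
  · exfalso
    have h5 : ∀ a, inum a x ≤ hc a w' := fun a =>
      inum_le (g := g * g') (by rw [h3, hw]; group)
    have h6 := h5 0
    have h7 := h5 1
    rw [hnc] at h4
    unfold nc ell at h4
    omega
  · have he : (g * g')⁻¹ * x * (g * g') = g'⁻¹ * ev w * g' := by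
      rw [hw]; group
    have hell : ell (g'⁻¹ * ev w * g') = ell x := by
      rw [← he]
      have h5 : (g * g')⁻¹ * x * (g * g') = (g * g')⁻¹ * x * ((g * g')⁻¹)⁻¹ := by group
      rw [h5, ell_conj]
    refine ⟨g * g', ?_⟩
    rw [he]
    refine ⟨H, fun a => by rw [h3, h1], by rw [← H.ell_eq, hell], ?_⟩
    rw [hsc, hnc] at h4
    exact h4

theorem exists_F_of_ncVC (w : Wd) (h : nc w = 0) : ∃ f : F, inc f = ev w := by
  induction w with
  | nil => exact ⟨1, by rw [map_one, ev_nil]⟩
  | cons y w ih =>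
    obtain ⟨l, b⟩ := y
    have h1 : nc ((l, b) :: w) = ((if l.hty = some 0 then 1 else 0) +
        (if l.hty = some 1 then 1 else 0)) + nc w := by
      unfold nc
      rw [hc_cons, hc_cons]
      ring
    rw [h1] at h
    obtain ⟨f, hf⟩ := ih (by omega)
    cases l with
    | s j =>
      cases b with
      | true =>
        refine ⟨FreeGroup.of j * f, ?_⟩
        rw [map_mul, hf, ev_cons, inc_of]
        rfl
      | false =>
        refine ⟨(FreeGroup.of j)⁻¹ * f, ?_⟩
        rw [map_mul, hf, ev_cons, map_inv, inc_of]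
        rfl
    | n j =>
      exfalso
      revert h
      fin_cases j <;> simp [Lt.hty]

theorem exists_inc_of_ell_eq_zero {x : Pi} (h : ell x = 0) : ∃ (g : Pi) (f : F),
    x = g * inc f * g⁻¹ := by
  obtain ⟨g, w, hw, h1, -⟩ := exists_min_word x
  have hnc : nc w = 0 := by
    unfold nc
    rw [h1, h1]
    exact h
  obtain ⟨f, hf⟩ := exists_F_of_ncVC w hnc
  exact ⟨g, f, by rw [hf, hw]; group⟩

theorem hc_subw_constVC (wd : Lt → Wd) (a : Fin 2) (C : ℕ) (hC : ∀ l, hc a (wd l) ≤ C) (w : Wd) :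
    hc a (subw wd w) ≤ C * w.length := by
  induction w with
  | nil => simp [subw, hc]
  | cons y w ih =>
    rw [subw_cons, hc_append, List.length_cons, Nat.mul_succ, add_comm (C * w.length)]
    apply add_le_add _ ih
    obtain ⟨l, b⟩ := y
    cases b
    · show hc a (winv (wd l)) ≤ _
      rw [hc_winv]
      exact hC l
    · exact hC l

/-- every homomorphism changes the intersection numbers by at most a factor -/
theorem inum_le_const (θ : Pi →* Pi) (a : Fin 2) : ∃ C : ℕ, ∀ x : Pi,
    inum a (θ x) ≤ C * (ell x + jnum 0 x + jnum 1 x) := by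
  choose wd hwd using fun l : Lt => ev_surj (θ l.val)
  obtain ⟨C, hC⟩ : ∃ C : ℕ, ∀ l, hc a (wd l) ≤ C := by
    refine ⟨∑ j : Fin 3, (hc a (wd (.s j)) + hc a (wd (.n j))), fun l => ?_⟩
    cases l with
    | s j =>
      exact le_trans (Nat.le_add_right _ _) (Finset.single_le_sum
        (f := fun j : Fin 3 => hc a (wd (.s j)) + hc a (wd (.n j)))
        (fun _ _ => Nat.zero_le _) (Finset.mem_univ j))
    | n j =>
      exact le_trans (Nat.le_add_left _ _) (Finset.single_le_sum
        (f := fun j : Fin 3 => hc a (wd (.s j)) + hc a (wd (.n j)))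
        (fun _ _ => Nat.zero_le _) (Finset.mem_univ j))
  refine ⟨C, fun x => ?_⟩
  obtain ⟨g, w, hw, h1, h2⟩ := exists_min_word x
  have h3 := ev_subw θ wd hwd w
  rw [hw, map_mul, map_mul, map_inv] at h3
  have h4 : inum a (θ x) ≤ hc a (subw wd w) := inum_le h3
  have h5 := hc_subw_constVC wd a C hC w
  have h6 : w.length = ell x + jnum 0 x + jnum 1 x := by
    rw [length_eq]
    unfold nc sc ell
    rw [h1, h1, h2, h2]
    ring
  rw [h6] at h5
  exact h4.trans h5

theorem eq_one_of_nums {x : Pi} (h : ell x = 0) (h0 : jnum 0 x = 0) (h1 : jnum 1 x = 0) :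
    x = 1 := by
  obtain ⟨g, w, hw, h2, h3⟩ := exists_min_word x
  have h6 : w.length = 0 := by
    rw [length_eq]
    unfold nc sc
    unfold ell at h
    rw [h2, h2, h3, h3]
    omega
  have h7 : w = [] := List.length_eq_zero_iff.1 h6
  rw [h7, ev_nil] at hw
  have h8 : x = g * (g⁻¹ * x * g) * g⁻¹ := by group
  rw [h8, ← hw]
  group

end Pool.Agent.VSB
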