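import Pool.Agent.VSB.Auts

/-! # VSB/Word: words, intersection numbers, behaviour under letter automorphisms

`inum_aut_le`: replace every letter `l` of a word by `wd l` (inverse words for exponent `false`).
`inum_aT`, `inum_aI`, ...: apply `inum_aut_le` to the automorphism and to its inverse
(`aT (N 0) = S 0 * N 0` etc., `hc` counts only the letters `n`). `jnum_eq`: `aS` maps letters to letters or
inverse letters (`aS_S`, `aS_N`, `aSi_S`, `aSi_N`), `vty` of a letter is `hty` of its image under `aS⁻¹`. -/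

set_option autoImplicit false

namespace Pool.Agent.VSB

theorem ev_nil : ev [] = 1 := rfl

theorem ev_cons (x : Lt × Bool) (w : Wd) : ev (x :: w) = stp x * ev w := by
  simp [ev]

theorem ev_append (w w' : Wd) : ev (w ++ w') = ev w * ev w' := by
  simp [ev]

/-- the inverse word -/
def winv (w : Wd) : Wd := (w.map (fun x => (x.1, !x.2))).reverse

theorem stp_not (x : Lt × Bool) : stp (x.1, !x.2) = (stp x)⁻¹ := by
  obtain ⟨l, b⟩ := x
  cases b <;> simp [stp]

theorem ev_winv (w : Wd) : ev (winv w) = (ev w)⁻¹ := by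
  induction w with
  | nil => simp [winv, ev]
  | cons x w ih =>
    have h1 : winv (x :: w) = winv w ++ [(x.1, !x.2)] := by simp [winv]
    rw [h1, ev_append, ih, ev_cons, ev_nil, mul_one, stp_not, ev_cons, mul_inv_rev]

theorem hc_append (a : Fin 2) (w w' : Wd) : hc a (w ++ w') = hc a w + hc a w' := by
  simp [hc]

theorem vc_append (a : Fin 2) (w w' : Wd) : vc a (w ++ w') = vc a w + vc a w' := by
  simp [vc]

theorem hc_winv (a : Fin 2) (w : Wd) : hc a (winv w) = hc a w := by
  unfold hc winv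
  rw [List.countP_reverse, List.countP_map]
  rfl

theorem vc_winv (a : Fin 2) (w : Wd) : vc a (winv w) = vc a w := by
  unfold vc winv
  rw [List.countP_reverse, List.countP_map]
  rfl

theorem ev_surj (x : Pi) : ∃ w, ev w = x := by
  obtain ⟨y, rfl⟩ := PresentedGroup.mk_surjective rels x
  induction y using FreeGroup.induction_on with
  | C1 => exact ⟨[], by rw [map_one]; rfl⟩
  | of i =>
    show ∃ w, ev w = e i
    fin_cases i
    · exact ⟨[(.s 2, true)], by show _ = e 0; rw [e0_eq]; simp [ev, stp, Lt.val]⟩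
    · exact ⟨[(.s 1, true), (.n 2, true)], by show _ = e 1; rw [e1_eq]; simp [ev, stp, Lt.val]⟩
    · exact ⟨[(.n 0, true)], by show _ = e 2; rw [e2_eq]; simp [ev, stp, Lt.val]⟩
    · exact ⟨[(.s 1, false), (.n 0, false)], by show _ = e 3; rw [e3_eq]; simp [ev, stp, Lt.val]⟩
    · exact ⟨[(.s 2, false), (.n 2, false)], by show _ = e 4; rw [e4_eq]; simp [ev, stp, Lt.val]⟩
  | inv_of i ih =>
    obtain ⟨w, hw⟩ := ih
    exact ⟨winv w, by rw [ev_winv, hw, map_inv]⟩
  | mul a b iha ihb =>
    obtain ⟨w, hw⟩ := iha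
    obtain ⟨w', hw'⟩ := ihb
    exact ⟨w ++ w', by rw [ev_append, hw, hw', map_mul]⟩

theorem inum_le {a : Fin 2} {x g : Pi} {w : Wd} (h : ev w = g⁻¹ * x * g) : inum a x ≤ hc a w :=
  Nat.sInf_le ⟨g, w, h, rfl⟩

theorem jnum_le {a : Fin 2} {x g : Pi} {w : Wd} (h : ev w = g⁻¹ * x * g) : jnum a x ≤ vc a w :=
  Nat.sInf_le ⟨g, w, h, rfl⟩

theorem exists_inum (a : Fin 2) (x : Pi) : ∃ (g : Pi) (w : Wd), ev w = g⁻¹ * x * g ∧
    hc a w = inum a x := by
  have h : {k | ∃ (g : Pi) (w : Wd), ev w = g⁻¹ * x * g ∧ hc a w = k}.Nonempty := by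
    obtain ⟨w, hw⟩ := ev_surj x
    exact ⟨hc a w, 1, w, by rw [hw]; group, rfl⟩
  exact Nat.sInf_mem h

theorem exists_jnum (a : Fin 2) (x : Pi) : ∃ (g : Pi) (w : Wd), ev w = g⁻¹ * x * g ∧
    vc a w = jnum a x := by
  have h : {k | ∃ (g : Pi) (w : Wd), ev w = g⁻¹ * x * g ∧ vc a w = k}.Nonempty := by
    obtain ⟨w, hw⟩ := ev_surj x
    exact ⟨vc a w, 1, w, by rw [hw]; group, rfl⟩
  exact Nat.sInf_mem h

theorem inum_conj (a : Fin 2) (g x : Pi) : inum a (g * x * g⁻¹) = inum a x := by
  apply le_antisymm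
  · obtain ⟨h, w, hw, hk⟩ := exists_inum a x
    rw [← hk]
    exact inum_le (g := g * h) (by rw [hw]; group)
  · obtain ⟨h, w, hw, hk⟩ := exists_inum a (g * x * g⁻¹)
    rw [← hk]
    exact inum_le (g := g⁻¹ * h) (by rw [hw]; group)

theorem jnum_conj (a : Fin 2) (g x : Pi) : jnum a (g * x * g⁻¹) = jnum a x := by
  apply le_antisymm
  · obtain ⟨h, w, hw, hk⟩ := exists_jnum a x
    rw [← hk]
    exact jnum_le (g := g * h) (by rw [hw]; group)
  · obtain ⟨h, w, hw, hk⟩ := exists_jnum a (g * x * g⁻¹)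
    rw [← hk]
    exact jnum_le (g := g⁻¹ * h) (by rw [hw]; group)

theorem ell_conj (g x : Pi) : ell (g * x * g⁻¹) = ell x := by
  rw [ell, ell, inum_conj, inum_conj]

theorem inum_inv (a : Fin 2) (x : Pi) : inum a x⁻¹ = inum a x := by
  have key : ∀ y : Pi, inum a y⁻¹ ≤ inum a y := by
    intro y
    obtain ⟨h, w, hw, hk⟩ := exists_inum a y
    rw [← hk, ← hc_winv]
    exact inum_le (g := h) (by rw [ev_winv, hw]; group)
  apply le_antisymm (key x)
  have h := key x⁻¹
  rwa [inv_inv] at h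

theorem jnum_inv (a : Fin 2) (x : Pi) : jnum a x⁻¹ = jnum a x := by
  have key : ∀ y : Pi, jnum a y⁻¹ ≤ jnum a y := by
    intro y
    obtain ⟨h, w, hw, hk⟩ := exists_jnum a y
    rw [← hk, ← vc_winv]
    exact jnum_le (g := h) (by rw [ev_winv, hw]; group)
  apply le_antisymm (key x)
  have h := key x⁻¹
  rwa [inv_inv] at h

theorem exists_word_inc (a : Fin 2) (f : F) : ∃ w, ev w = inc f ∧ hc a w = 0 := by
  induction f using FreeGroup.induction_on with
  | C1 => exact ⟨[], by rw [map_one]; rfl, rfl⟩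
  | of i =>
    refine ⟨[(.s i, true)], ?_, ?_⟩
    · show _ = inc (FreeGroup.of i)
      rw [inc_of]
      simp [ev, stp, Lt.val]
    · simp [hc, Lt.hty]
  | inv_of i ih =>
    obtain ⟨w, hw, hk⟩ := ih
    exact ⟨winv w, by rw [ev_winv, hw, map_inv], by rw [hc_winv, hk]⟩
  | mul x y ihx ihy =>
    obtain ⟨w, hw, hk⟩ := ihx
    obtain ⟨w', hw', hk'⟩ := ihy
    exact ⟨w ++ w', by rw [ev_append, hw, hw', map_mul], by rw [hc_append, hk, hk']⟩

theorem inum_inc (a : Fin 2) (f : F) : inum a (inc f) = 0 := by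
  obtain ⟨w, hw, hk⟩ := exists_word_inc a f
  have h := inum_le (a := a) (x := inc f) (g := 1) (w := w) (by rw [hw]; group)
  omega

/-- replace the letters by words -/
def subw (wd : Lt → Wd) (w : Wd) : Wd :=
  w.flatMap (fun x => if x.2 then wd x.1 else winv (wd x.1))

theorem subw_cons (wd : Lt → Wd) (x : Lt × Bool) (w : Wd) :
    subw wd (x :: w) = (if x.2 then wd x.1 else winv (wd x.1)) ++ subw wd w := by
  simp [subw]

theorem ev_subw (θ : Pi →* Pi) (wd : Lt → Wd) (hwd : ∀ l : Lt, ev (wd l) = θ l.val) (w : Wd) :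
    ev (subw wd w) = θ (ev w) := by
  induction w with
  | nil => rw [ev_nil, map_one]; rfl
  | cons x w ih =>
    rw [subw_cons, ev_append, ih, ev_cons, map_mul]
    congr 1
    obtain ⟨l, b⟩ := x
    cases b
    · show ev (winv (wd l)) = θ (stp (l, false))
      rw [ev_winv, hwd, ← map_inv]
      rfl
    · show ev (wd l) = θ (stp (l, true))
      rw [hwd]
      rfl

theorem hc_cons (a : Fin 2) (x : Lt × Bool) (w : Wd) :
    hc a (x :: w) = (if x.1.hty = some a then 1 else 0) + hc a w := by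
  unfold hc
  rw [List.countP_cons, add_comm]
  simp

theorem vc_cons (a : Fin 2) (x : Lt × Bool) (w : Wd) :
    vc a (x :: w) = (if x.1.vty = some a then 1 else 0) + vc a w := by
  unfold vc
  rw [List.countP_cons, add_comm]
  simp

theorem hc_subw_le (wd : Lt → Wd) (a b : Fin 2)
    (h : ∀ l : Lt, hc b (wd l) ≤ if l.hty = some a then 1 else 0) (w : Wd) :
    hc b (subw wd w) ≤ hc a w := by
  induction w with
  | nil => exact le_rfl
  | cons x w ih =>
    rw [subw_cons, hc_append, hc_cons]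
    apply add_le_add _ ih
    obtain ⟨l, b'⟩ := x
    cases b'
    · show hc b (winv (wd l)) ≤ _
      rw [hc_winv]
      exact h l
    · exact h l

theorem inum_aut_le (θ : Pi →* Pi) (wd : Lt → Wd) (hwd : ∀ l : Lt, ev (wd l) = θ l.val) (a b : Fin 2)
    (h : ∀ l : Lt, hc b (wd l) ≤ if l.hty = some a then 1 else 0) (x : Pi) :
    inum b (θ x) ≤ inum a x := by
  obtain ⟨g, w, hw, hk⟩ := exists_inum a x
  have h1 := ev_subw θ wd hwd w
  rw [hw, map_mul, map_mul, map_inv] at h1
  calc inum b (θ x) ≤ hc b (subw wd w) := inum_le (g := θ g) h1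
    _ ≤ hc a w := hc_subw_le wd a b h w
    _ = inum a x := hk

/-- images of the letters under `aT` -/
def wT : Lt → Wd
  | .s j => [(.s j, true)]
  | .n j => if j = 0 then [(.s 0, true), (.n 0, true)]
    else if j = 1 then [(.s 1, true), (.s 2, true), (.n 1, true)]
    else [(.s 2, true), (.s 1, true), (.n 2, true)]

/-- images of the letters under `aT⁻¹` -/
def wTi : Lt → Wd
  | .s j => [(.s j, true)]
  | .n j => if j = 0 then [(.s 0, false), (.n 0, true)]
    else if j = 1 then [(.s 2, false), (.s 1, false), (.n 1, true)]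
    else [(.s 1, false), (.s 2, false), (.n 2, true)]

theorem wT_spec (l : Lt) : ev (wT l) = aT.toMonoidHom l.val := by
  show ev (wT l) = aT l.val
  cases l with
  | s j =>
    show _ = aT (S j)
    rw [aT_S]
    simp [wT, ev, stp, Lt.val]
  | n j =>
    show _ = aT (N j)
    fin_cases j
    · show _ = aT (N 0)
      rw [aT_N0]
      simp [wT, ev, stp, Lt.val]
    · show _ = aT (N 1)
      rw [aT_N1]
      simp [wT, ev, stp, Lt.val, mul_assoc]
    · show _ = aT (N 2)
      rw [aT_N2]
      simp [wT, ev, stp, Lt.val, mul_assoc]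

theorem wTi_spec (l : Lt) : ev (wTi l) = (aT⁻¹ : MulAut Pi).toMonoidHom l.val := by
  show ev (wTi l) = aT⁻¹ l.val
  have key : ∀ y z : Pi, aT y = z → y = aT⁻¹ z := by
    intro y z h
    rw [← h]
    exact (MulAut.inv_apply_self Pi aT y).symm
  apply key
  cases l with
  | s j =>
    have h1 : ev (wTi (.s j)) = S j := by simp [wTi, ev, stp, Lt.val]
    rw [h1, aT_S]
    rfl
  | n j =>
    fin_cases j
    · have h1 : ev (wTi (.n 0)) = (S 0)⁻¹ * N 0 := by simp [wTi, ev, stp, Lt.val]
      show aT (ev (wTi (.n 0))) = N 0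
      rw [h1, map_mul, map_inv, aT_S, aT_N0]
      group
    · have h1 : ev (wTi (.n 1)) = (S 2)⁻¹ * (S 1)⁻¹ * N 1 := by
        simp [wTi, ev, stp, Lt.val, mul_assoc]
      show aT (ev (wTi (.n 1))) = N 1
      rw [h1, map_mul, map_mul, map_inv, map_inv, aT_S, aT_S, aT_N1]
      group
    · have h1 : ev (wTi (.n 2)) = (S 1)⁻¹ * (S 2)⁻¹ * N 2 := by
        simp [wTi, ev, stp, Lt.val, mul_assoc]
      show aT (ev (wTi (.n 2))) = N 2
      rw [h1, map_mul, map_mul, map_inv, map_inv, aT_S, aT_S, aT_N2]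
      group

theorem wT_le (a : Fin 2) (l : Lt) : hc a (wT l) ≤ if l.hty = some a then 1 else 0 := by
  cases l with
  | s j => fin_cases j <;> fin_cases a <;> decide
  | n j => fin_cases j <;> fin_cases a <;> decide

theorem wTi_le (a : Fin 2) (l : Lt) : hc a (wTi l) ≤ if l.hty = some a then 1 else 0 := by
  cases l with
  | s j => fin_cases j <;> fin_cases a <;> decide
  | n j => fin_cases j <;> fin_cases a <;> decide

theorem inum_aT (a : Fin 2) (x : Pi) : inum a (aT x) = inum a x := by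
  apply le_antisymm
  · exact inum_aut_le aT.toMonoidHom wT wT_spec a a (wT_le a) x
  · have h := inum_aut_le (aT⁻¹ : MulAut Pi).toMonoidHom wTi wTi_spec a a (wTi_le a) (aT x)
    have h2 : (aT⁻¹ : MulAut Pi).toMonoidHom (aT x) = x := by
      show aT⁻¹ (aT x) = x
      exact MulAut.inv_apply_self Pi aT x
    rwa [h2] at h

theorem inum_aT_zpow (a : Fin 2) (m : ℤ) (x : Pi) : inum a ((aT ^ m) x) = inum a x := by
  induction m using Int.induction_on with
  | zero => rfl
  | succ n ih =>
    rw [zpow_add_one, ← ih]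
    show inum a ((aT ^ (n : ℤ)) (aT x)) = _
    have h : ∀ (m : ℤ) (y : Pi), (aT ^ m) (aT y) = aT ((aT ^ m) y) := by
      intro m y
      have hc : aT ^ m * aT = aT * aT ^ m := ((Commute.refl aT).zpow_left m).eq
      exact congrArg (fun φ : MulAut Pi => φ y) hc
    rw [h, inum_aT]
  | pred n ih =>
    rw [zpow_sub_one, ← ih]
    have h2 : (aT ^ (-(n : ℤ)) * aT⁻¹) x = aT⁻¹ ((aT ^ (-(n : ℤ))) x) := by
      have hc : aT ^ (-(n : ℤ)) * aT⁻¹ = aT⁻¹ * aT ^ (-(n : ℤ)) :=
        ((Commute.refl aT).zpow_left (-(n : ℤ))).inv_right.eq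
      exact congrArg (fun φ : MulAut Pi => φ x) hc
    rw [h2, ← inum_aT a (aT⁻¹ _)]
    congr 1
    exact MulAut.apply_inv_self Pi aT _

/-- replace the letters by signed letters -/
def mpw (m : Lt → Lt × Bool) (w : Wd) : Wd :=
  w.map (fun x => ((m x.1).1, if x.2 then (m x.1).2 else !(m x.1).2))

theorem mpw_cons (m : Lt → Lt × Bool) (x : Lt × Bool) (w : Wd) :
    mpw m (x :: w) = ((m x.1).1, if x.2 then (m x.1).2 else !(m x.1).2) :: mpw m w := rfl

theorem ev_mpw (θ : MulAut Pi) (m : Lt → Lt × Bool) (hm : ∀ l : Lt, stp (m l) = θ l.val) (w : Wd) :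
    ev (mpw m w) = θ (ev w) := by
  induction w with
  | nil => rw [ev_nil, map_one]; rfl
  | cons x w ih =>
    rw [mpw_cons, ev_cons, ih, ev_cons, map_mul]
    congr 1
    obtain ⟨l, b⟩ := x
    cases b
    · show stp ((m l).1, !(m l).2) = θ (stp (l, false))
      rw [stp_not, hm, ← map_inv]
      rfl
    · show stp ((m l).1, (m l).2) = θ (stp (l, true))
      exact hm l

/-- images of the letters under `aI` -/
def mI : Lt → Lt × Bool
  | .s j => (.s (![1, 0, 2] j), false)
  | .n j => (.n (![0, 2, 1] j), false)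

theorem mI_spec (l : Lt) : stp (mI l) = aI l.val := by
  cases l with
  | s j =>
    show _ = aI (S j)
    rw [aI_S]
    fin_cases j <;> rfl
  | n j =>
    show _ = aI (N j)
    rw [aI_N]
    fin_cases j <;> rfl

theorem aI_aI (x : Pi) : aI (aI x) = x := by
  have h := aI_sq
  rw [pow_two] at h
  exact congrArg (fun φ : MulAut Pi => φ x) h

theorem inum_aI (a : Fin 2) (x : Pi) : inum a (aI x) = inum a x := by
  have key : ∀ y, inum a (aI y) ≤ inum a y := by
    intro y
    obtain ⟨g, w, hw, hk⟩ := exists_inum a y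
    have h1 := ev_mpw aI mI mI_spec w
    rw [hw, map_mul, map_mul, map_inv] at h1
    calc inum a (aI y) ≤ hc a (mpw mI w) := inum_le (g := aI g) h1
      _ = hc a w := by
        unfold hc mpw
        rw [List.countP_map]
        apply List.countP_congr
        rintro ⟨l, b⟩ _
        cases l with
        | s j => fin_cases j <;> simp [mI, Lt.hty]
        | n j => fin_cases j <;> simp [mI, Lt.hty]
      _ = inum a y := hk
  apply le_antisymm (key x)
  have h := key (aI x)
  rwa [aI_aI] at h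

theorem jnum_aI (a : Fin 2) (x : Pi) : jnum a (aI x) = jnum a x := by
  have key : ∀ y, jnum a (aI y) ≤ jnum a y := by
    intro y
    obtain ⟨g, w, hw, hk⟩ := exists_jnum a y
    have h1 := ev_mpw aI mI mI_spec w
    rw [hw, map_mul, map_mul, map_inv] at h1
    calc jnum a (aI y) ≤ vc a (mpw mI w) := jnum_le (g := aI g) h1
      _ = vc a w := by
        unfold vc mpw
        rw [List.countP_map]
        apply List.countP_congr
        rintro ⟨l, b⟩ _
        cases l with
        | s j => fin_cases j <;> simp [mI, Lt.vty]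
        | n j => fin_cases j <;> simp [mI, Lt.vty]
      _ = jnum a y := hk
  apply le_antisymm (key x)
  have h := key (aI x)
  rwa [aI_aI] at h

/-- images of the letters under `aS` -/
def mS : Lt → Lt × Bool
  | .s j => (.n (![2, 1, 0] j), false)
  | .n j => (.s (![2, 0, 1] j), true)

/-- images of the letters under `aS⁻¹` -/
def mSi : Lt → Lt × Bool
  | .s j => (.n (![1, 2, 0] j), true)
  | .n j => (.s (![2, 1, 0] j), false)

theorem mS_spec (l : Lt) : stp (mS l) = aS l.val := by
  cases l with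
  | s j =>
    show _ = aS (S j)
    rw [aS_S]
    fin_cases j <;> rfl
  | n j =>
    show _ = aS (N j)
    rw [aS_N]
    fin_cases j <;> rfl

theorem mSi_spec (l : Lt) : stp (mSi l) = aS⁻¹ l.val := by
  cases l with
  | s j =>
    show _ = aS⁻¹ (S j)
    rw [aSi_S]
    fin_cases j <;> rfl
  | n j =>
    show _ = aS⁻¹ (N j)
    rw [aSi_N]
    fin_cases j <;> rfl

theorem word_aS_aux (w : Wd) : ∃ w' : Wd, ev w' = aS (ev w) ∧ w'.length = w.length ∧
    (∀ b, vc b w' = hc b w) ∧ ∀ a, hc a w' = vc a w := by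
  refine ⟨mpw mS w, ev_mpw aS mS mS_spec w, by simp [mpw], ?_, ?_⟩
  · intro b
    unfold vc hc mpw
    rw [List.countP_map]
    apply List.countP_congr
    rintro ⟨l, b'⟩ _
    cases l with
    | s j => fin_cases j <;> simp [mS, Lt.vty, Lt.hty]
    | n j => fin_cases j <;> simp [mS, Lt.vty, Lt.hty]
  · intro b
    unfold vc hc mpw
    rw [List.countP_map]
    apply List.countP_congr
    rintro ⟨l, b'⟩ _
    cases l with
    | s j => fin_cases j <;> simp [mS, Lt.vty, Lt.hty]
    | n j => fin_cases j <;> simp [mS, Lt.vty, Lt.hty]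

theorem word_aSi_aux (w : Wd) : ∃ w' : Wd, ev w' = aS⁻¹ (ev w) ∧ w'.length = w.length ∧
    (∀ b, vc b w' = hc b w) ∧ ∀ a, hc a w' = vc a w := by
  refine ⟨mpw mSi w, ev_mpw aS⁻¹ mSi mSi_spec w, by simp [mpw], ?_, ?_⟩
  · intro b
    unfold vc hc mpw
    rw [List.countP_map]
    apply List.countP_congr
    rintro ⟨l, b'⟩ _
    cases l with
    | s j => fin_cases j <;> simp [mSi, Lt.vty, Lt.hty]
    | n j => fin_cases j <;> simp [mSi, Lt.vty, Lt.hty]
  · intro b
    unfold vc hc mpw
    rw [List.countP_map]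
    apply List.countP_congr
    rintro ⟨l, b'⟩ _
    cases l with
    | s j => fin_cases j <;> simp [mSi, Lt.vty, Lt.hty]
    | n j => fin_cases j <;> simp [mSi, Lt.vty, Lt.hty]

theorem jnum_eq (b : Fin 2) (x : Pi) : jnum b x = inum b (aS⁻¹ x) := by
  apply le_antisymm
  · obtain ⟨g, w, hw, hk⟩ := exists_inum b (aS⁻¹ x)
    obtain ⟨w', hw', -, hv, -⟩ := word_aS_aux w
    rw [← hk, ← hv]
    have h1 : aS (aS⁻¹ x) = x := MulAut.apply_inv_self Pi aS x
    exact jnum_le (g := aS g) (by rw [hw', hw, map_mul, map_mul, map_inv, h1])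
  · obtain ⟨g, w, hw, hk⟩ := exists_jnum b x
    obtain ⟨w', hw', -, -, hv⟩ := word_aSi_aux w
    rw [← hk, ← hv]
    exact inum_le (g := aS⁻¹ g) (by rw [hw', hw, map_mul, map_mul, map_inv])

/-- the same in terms of letters: image of a word under `aS` -/
theorem exists_word_aS (w : Wd) : ∃ w' : Wd, ev w' = aS (ev w) ∧ w'.length = w.length ∧
    (∀ b, vc b w' = hc b w) ∧ ∀ a, hc a w' = vc a w := by
  exact word_aS_aux w

theorem exists_word_aSi (w : Wd) : ∃ w' : Wd, ev w' = aS⁻¹ (ev w) ∧ w'.length = w.length ∧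
    (∀ b, vc b w' = hc b w) ∧ ∀ a, hc a w' = vc a w := by
  exact word_aSi_aux w

theorem length_eq (w : Wd) : w.length = nc w + sc w := by
  induction w with
  | nil => rfl
  | cons x w ih =>
    unfold nc sc at ih ⊢
    rw [List.length_cons, ih, hc_cons, hc_cons, vc_cons, vc_cons]
    obtain ⟨l, b⟩ := x
    have h : (if l.hty = some 0 then 1 else 0) + (if l.hty = some 1 then 1 else 0) +
        (if l.vty = some 0 then 1 else 0) + (if l.vty = some 1 then 1 else 0) = 1 := by
      cases l with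
      | s j => fin_cases j <;> decide
      | n j => fin_cases j <;> decide
    show _ = (if l.hty = some 0 then 1 else 0) + hc 0 w + ((if l.hty = some 1 then 1 else 0) + hc 1 w) +
      ((if l.vty = some 0 then 1 else 0) + vc 0 w + ((if l.vty = some 1 then 1 else 0) + vc 1 w))
    omega

end Pool.Agent.VSB
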