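import Pool.Agent.VSB.Wall
import Pool.Agent.VSB.Word

/-! # VSB/Count: a word crosses each wall at most as often as it has vertical letters

`sep_le`: induction on `w`. A letter `s` separates `g` and `g * S j` by no wall (`mul_S_mem_Wl`). For a letter
`n j`: if `K = k • Wl a` separates `g` and `g * N j` then (`mul_N_mem_Wl`, `Src.notMem`) `Src a (k⁻¹ * g) j`, so
`k⁻¹ * g = inc (pt (bot a) i)`, `rung (bot a) i = (n j, true)`; hence `a` is the type of `n j`, the parity of
`i` is determined by `j` and `k • Wl a = (g * (inc (pt (bot a) i₀))⁻¹) • Wl a`, `i₀ ∈ {0, 1}`, by `Wl_smul_c`: there is at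
most one such wall (`sep_N`), and none if the type of `n j` is not `a`. Same for inverse letters. -/

set_option autoImplicit false

open scoped Pointwise

namespace Pool.Agent.VSB

/-- the walls of type `a` which separate `g` and `h` -/
def Sep (a : Fin 2) (g h : Pi) : Set (Set Pi) :=
  {K | (∃ k : Pi, K = k • Wl a) ∧ ¬ (g ∈ K ↔ h ∈ K)}

/-- type of `n j` -/
def nty (j : Fin 3) : Fin 2 := if j = 0 then 0 else 1

/-- the wall crossing the edge `g → g * N j` -/
noncomputable def wallN (g : Pi) (j : Fin 3) : Set Pi :=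
  (g * (inc (pt (bot (nty j)) (if j = 2 then 1 else 0)))⁻¹) • Wl (nty j)

theorem Src_base (j : Fin 3) : Src (nty j) (inc (pt (bot (nty j)) (if j = 2 then 1 else 0))) j := by
  refine ⟨if j = 2 then 1 else 0, rfl, ?_⟩
  fin_cases j
  · simp [rung, nty, bot]
  · simp [rung, nty, bot]
  · simp [rung, nty, bot]

theorem notMem_wallN (g : Pi) (j : Fin 3) : g ∉ wallN g j := by
  unfold wallN
  rw [mem_smul_Wl]
  have h : (g * (inc (pt (bot (nty j)) (if j = 2 then 1 else 0)))⁻¹)⁻¹ * g
      = inc (pt (bot (nty j)) (if j = 2 then 1 else 0)) := by group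
  rw [h]
  exact (Src_base j).notMem

theorem mem_wallN (g : Pi) (j : Fin 3) : g * N j ∈ wallN g j := by
  unfold wallN
  rw [mem_smul_Wl]
  have h : (g * (inc (pt (bot (nty j)) (if j = 2 then 1 else 0)))⁻¹)⁻¹ * (g * N j)
      = inc (pt (bot (nty j)) (if j = 2 then 1 else 0)) * N j := by group
  rw [h, mul_N_mem_Wl]
  exact Or.inr (Src_base j)

theorem Wl_smul_c_zpow (a : Fin 2) (m : ℤ) : inc (c (bot a)) ^ m • Wl a = Wl a := by
  have h : inc (c (bot a)) ∈ MulAction.stabilizer Pi (Wl a) :=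
    MulAction.mem_stabilizer_iff.2 (Wl_smul_c a)
  exact MulAction.mem_stabilizer_iff.1 (Subgroup.zpow_mem _ h m)

theorem rung_base {a : Fin 2} {i : ℤ} {j : Fin 3} (h : rung (bot a) i = (Lt.n j, true)) :
    a = nty j ∧ ∃ m : ℤ, pt (bot a) i = c (bot a) ^ m * pt (bot a) (if j = 2 then 1 else 0) := by
  have h20 : ¬ ((2 : Fin 4) = 0) := by decide
  have h21 : ¬ ((2 : Fin 4) = 1) := by decide
  have hj2 : ¬ ((0 : Fin 3) = 2) := by decide
  have hj12 : ¬ ((1 : Fin 3) = 2) := by decide
  have ha : a = 0 ∨ a = 1 := by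
    fin_cases a
    · exact Or.inl rfl
    · exact Or.inr rfl
  rcases ha with rfl | rfl
  · have hb : bot 0 = 0 := rfl
    rw [hb] at h ⊢
    have h0 : j = 0 := by
      have h' : ((Lt.n 0, true) : Lt × Bool) = (Lt.n j, true) := by
        simpa [rung] using h
      injection h' with h1 _
      injection h1 with h2
      exact h2.symm
    subst h0
    refine ⟨rfl, i, ?_⟩
    rw [if_neg hj2, pt_zero, mul_one]
    simp [pt]
  · have hb : bot 1 = 2 := rfl
    rw [hb] at h ⊢
    rcases Int.emod_two_eq_zero_or_one i with hi | hi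
    · have h0 : j = 1 := by
        have h' : ((Lt.n 1, true) : Lt × Bool) = (Lt.n j, true) := by
          rw [← h]
          unfold rung
          rw [if_neg h20, if_neg h21, if_pos rfl, if_pos hi]
        injection h' with h1 _
        injection h1 with h2
        exact h2.symm
      subst h0
      refine ⟨rfl, i / 2, ?_⟩
      rw [if_neg hj12, pt_zero, mul_one]
      simp [pt, hi]
    · have h0 : j = 2 := by
        have h' : ((Lt.n 2, true) : Lt × Bool) = (Lt.n j, true) := by
          rw [← h]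
          unfold rung
          rw [if_neg h20, if_neg h21, if_pos rfl, if_neg (by omega)]
        injection h' with h1 _
        injection h1 with h2
        exact h2.symm
      subst h0
      refine ⟨rfl, i / 2, ?_⟩
      rw [if_pos rfl]
      have h1 : (1 : ℤ) / 2 = 0 := by norm_num
      simp [pt, hi]

theorem sep_N {a : Fin 2} {k g : Pi} {j : Fin 3} (h : ¬ (g ∈ k • Wl a ↔ g * N j ∈ k • Wl a)) :
    a = nty j ∧ k • Wl a = wallN g j ∧ g ∉ k • Wl a := by
  rw [mem_smul_Wl, mem_smul_Wl, ← mul_assoc, mul_N_mem_Wl] at h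
  have h1 : k⁻¹ * g ∉ Wl a := by
    intro h1
    exact h ⟨fun _ => Or.inl h1, fun _ => h1⟩
  have h2 : Src a (k⁻¹ * g) j := by
    by_contra h2
    refine h ⟨fun h3 => absurd h3 h1, fun h3 => ?_⟩
    rcases h3 with h3 | h3
    · exact h3
    · exact absurd h3 h2
  obtain ⟨i, hi, hr⟩ := h2
  obtain ⟨ha, m, hm⟩ := rung_base hr
  refine ⟨ha, ?_, by rwa [mem_smul_Wl]⟩
  subst ha
  unfold wallN
  have hk : k = g * (inc (pt (bot (nty j)) (if j = 2 then 1 else 0)))⁻¹ *
      inc (c (bot (nty j))) ^ (-m) := by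
    rw [hm, map_mul, map_zpow] at hi
    have : k = g * (k⁻¹ * g)⁻¹ := by group
    rw [this, hi]
    group
  rw [hk, mul_smul, Wl_smul_c_zpow]

theorem sep_S (a : Fin 2) (k g : Pi) (j : Fin 3) : g ∈ k • Wl a ↔ g * S j ∈ k • Wl a := by
  rw [mem_smul_Wl, mem_smul_Wl, ← mul_assoc, mul_S_mem_Wl]

theorem sep_comm (a : Fin 2) (g h : Pi) : Sep a g h = Sep a h g := by
  ext K
  constructor
  · rintro ⟨hK, hn⟩
    exact ⟨hK, fun hh => hn hh.symm⟩
  · rintro ⟨hK, hn⟩
    exact ⟨hK, fun hh => hn hh.symm⟩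

theorem sep_S_empty (a : Fin 2) (g : Pi) (j : Fin 3) : Sep a g (g * S j) = ∅ := by
  ext K
  constructor
  · rintro ⟨⟨k, rfl⟩, hn⟩
    exact absurd (sep_S a k g j) hn
  · intro h
    exact absurd h (Set.notMem_empty _)

theorem sep_N_subset (a : Fin 2) (g : Pi) (j : Fin 3) :
    Sep a g (g * N j) ⊆ {K | a = nty j ∧ K = wallN g j} := by
  rintro K ⟨⟨k, rfl⟩, hn⟩
  obtain ⟨h1, h2, _⟩ := sep_N hn
  exact ⟨h1, h2⟩

theorem sep_subset (a : Fin 2) (g h l : Pi) : Sep a g l ⊆ Sep a g h ∪ Sep a h l := by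
  rintro K ⟨hK, hn⟩
  by_cases h1 : (g ∈ K ↔ h ∈ K)
  · exact Or.inr ⟨hK, fun h2 => hn (h1.trans h2)⟩
  · exact Or.inl ⟨hK, h1⟩

theorem hty_n (j : Fin 3) : (Lt.n j).hty = some (nty j) := by
  fin_cases j <;> rfl

theorem sep_N_fin (a : Fin 2) (g : Pi) (j : Fin 3) :
    (Sep a g (g * N j)).Finite ∧
      (Sep a g (g * N j)).ncard ≤ if (Lt.n j).hty = some a then 1 else 0 := by
  have hsub := sep_N_subset a g j
  have hsub1 : Sep a g (g * N j) ⊆ {wallN g j} := fun K hK => (hsub hK).2
  have hfin : (Sep a g (g * N j)).Finite := (Set.finite_singleton _).subset hsub1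
  refine ⟨hfin, ?_⟩
  rw [hty_n]
  by_cases ha : a = nty j
  · rw [if_pos (by rw [ha])]
    calc (Sep a g (g * N j)).ncard ≤ ({wallN g j} : Set (Set Pi)).ncard :=
          Set.ncard_le_ncard hsub1 (Set.finite_singleton _)
      _ = 1 := Set.ncard_singleton _
  · have he : Sep a g (g * N j) = ∅ := by
      ext K
      constructor
      · intro hK
        exact absurd (hsub hK).1 ha
      · intro hK
        exact absurd hK (Set.notMem_empty _)
    rw [he, Set.ncard_empty]
    exact Nat.zero_le _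

theorem sep_step (a : Fin 2) (g : Pi) (x : Lt × Bool) :
    (Sep a g (g * stp x)).Finite ∧
      (Sep a g (g * stp x)).ncard ≤ if x.1.hty = some a then 1 else 0 := by
  obtain ⟨l, b⟩ := x
  cases l with
  | s j =>
    cases b with
    | true =>
      have h : stp (Lt.s j, true) = S j := rfl
      rw [h, sep_S_empty]
      exact ⟨Set.finite_empty, by rw [Set.ncard_empty]; exact Nat.zero_le _⟩
    | false =>
      have h : stp (Lt.s j, false) = (S j)⁻¹ := rfl
      rw [h, sep_comm]
      have h2 := sep_S_empty a (g * (S j)⁻¹) j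
      rw [inv_mul_cancel_right] at h2
      rw [h2]
      exact ⟨Set.finite_empty, by rw [Set.ncard_empty]; exact Nat.zero_le _⟩
  | n j =>
    cases b with
    | true =>
      have h : stp (Lt.n j, true) = N j := rfl
      rw [h]
      exact sep_N_fin a g j
    | false =>
      have h : stp (Lt.n j, false) = (N j)⁻¹ := rfl
      rw [h, sep_comm]
      have h2 := sep_N_fin a (g * (N j)⁻¹) j
      rw [inv_mul_cancel_right] at h2
      exact h2

theorem sep_word (a : Fin 2) (g : Pi) (w : Wd) :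
    (Sep a g (g * ev w)).Finite ∧ (Sep a g (g * ev w)).ncard ≤ hc a w := by
  induction w generalizing g with
  | nil =>
    have he : Sep a g (g * ev []) = ∅ := by
      rw [ev_nil, mul_one]
      ext K
      constructor
      · rintro ⟨_, hn⟩
        exact absurd Iff.rfl hn
      · intro hK
        exact absurd hK (Set.notMem_empty _)
    rw [he]
    exact ⟨Set.finite_empty, by rw [Set.ncard_empty]; exact Nat.zero_le _⟩
  | cons x w ih =>
    obtain ⟨h1, h2⟩ := sep_step a g x
    obtain ⟨h3, h4⟩ := ih (g * stp x)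
    have hsub := sep_subset a g (g * stp x) (g * stp x * ev w)
    rw [ev_cons, ← mul_assoc]
    refine ⟨(h1.union h3).subset hsub, ?_⟩
    have hhc : hc a (x :: w) = (if x.1.hty = some a then 1 else 0) + hc a w := by
      unfold hc
      rw [List.countP_cons, add_comm]
      simp
    rw [hhc]
    calc (Sep a g (g * stp x * ev w)).ncard
        ≤ (Sep a g (g * stp x) ∪ Sep a (g * stp x) (g * stp x * ev w)).ncard :=
          Set.ncard_le_ncard hsub (h1.union h3)
      _ ≤ (Sep a g (g * stp x)).ncard + (Sep a (g * stp x) (g * stp x * ev w)).ncard :=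
          Set.ncard_union_le _ _
      _ ≤ _ := add_le_add h2 h4

theorem sep_finite (a : Fin 2) (g h : Pi) : (Sep a g h).Finite := by
  obtain ⟨w, hw⟩ := ev_surj (g⁻¹ * h)
  have h1 := (sep_word a g w).1
  rwa [hw, mul_inv_cancel_left] at h1

theorem sep_le (a : Fin 2) (g : Pi) (w : Wd) : (Sep a g (g * ev w)).ncard ≤ hc a w :=
  (sep_word a g w).2

theorem sep_triangle (a : Fin 2) (g h l : Pi) :
    (Sep a g l).ncard ≤ (Sep a g h).ncard + (Sep a h l).ncard :=
  (Set.ncard_le_ncard (sep_subset a g h l) ((sep_finite a g h).union (sep_finite a h l))).trans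
    (Set.ncard_union_le _ _)

theorem sep_smul (a : Fin 2) (x g h : Pi) : (Sep a (x * g) (x * h)).ncard = (Sep a g h).ncard := by
  have he : Sep a (x * g) (x * h) = (fun K : Set Pi => x • K) '' Sep a g h := by
    ext K
    constructor
    · rintro ⟨⟨k, rfl⟩, hn⟩
      refine ⟨(x⁻¹ * k) • Wl a, ⟨⟨_, rfl⟩, ?_⟩, ?_⟩
      · rw [mem_smul_Wl, mem_smul_Wl] at hn ⊢
        have e1 : (x⁻¹ * k)⁻¹ * g = k⁻¹ * (x * g) := by group
        have e2 : (x⁻¹ * k)⁻¹ * h = k⁻¹ * (x * h) := by group
        rwa [e1, e2]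
      · show x • ((x⁻¹ * k) • Wl a) = k • Wl a
        rw [smul_smul, mul_inv_cancel_left]
    · rintro ⟨K', ⟨⟨k, rfl⟩, hn⟩, rfl⟩
      refine ⟨⟨x * k, ?_⟩, ?_⟩
      · show x • (k • Wl a) = (x * k) • Wl a
        rw [smul_smul]
      · show ¬ (x * g ∈ x • (k • Wl a) ↔ x * h ∈ x • (k • Wl a))
        rw [smul_smul]
        rw [mem_smul_Wl, mem_smul_Wl] at hn ⊢
        have e1 : (x * k)⁻¹ * (x * g) = k⁻¹ * g := by group
        have e2 : (x * k)⁻¹ * (x * h) = k⁻¹ * h := by group
        rwa [e1, e2]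
  rw [he]
  exact Set.ncard_image_of_injective _ (MulAction.injective x)

end Pool.Agent.VSB
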