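import Pool.Agent.VSB.Beyond

/-! # VSB/Cut: a good wall cuts the tree `g * inc F` in at most one edge

PROOF of `cut_iff`. (a) On a line: if `g * inc f * inc (pt p k) ∈ K` then `g * inc f * inc (pt p l) ∈ K` for all `l ≥ k`
(`pt_succ`, `Mono`); so for two points of a line in `K` the segment between them is in `K`, and the same for `Kᶜ`.
(b) Claim: if `x, y ∈ K` (resp. `Kᶜ`) both in `g • inc F`, `x = g * inc f₁`, `y = g * inc f₂`, then `f₁`, `f₂` are
connected by letters `s` with all intermediate points `g * inc f` in `K` (resp. `Kᶜ`). Follow a path from `x` to `y` in `K`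
(`Conn`) and prove by induction along the path, `z` the current vertex: either `z = g * inc f` and `f₁` is connected to
`f`, or there are `f, p, k` with `z ∈ (g * inc f) • Bd p`, `g * inc f * inc (pt p k) ∈ K` and `f₁` connected to
`f * pt p k`. Steps: inside the tree by letters `s`; a step from `z = g * inc f` by a letter `n` leads to
`(g * inc f₀) • Bd p` with `f = f₀ * pt p k`, `k ∈ {0, 1}` (`rung_eq`, `t_mul_inc_mem_Bd`); a step leaving
`(g * inc f) • Bd p` ends at `g * inc f * inc (pt p l)` (`Bd_step` read backwards: the reversed edge enters), and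
(a) connects `pt p k` and `pt p l` along the line.
(c) Tree: `f ↦ SW (j, true) f` changes along an edge `f → f * of i ^ ±1` only for the edge between `1` and `of j`.
So if `g * inc f ∈ K` with `¬ SW (j, true) f`, the path in `K` from `g * S j` to it passes through `g ∉ K`:
contradiction; and if `SW (j, true) f` but `g * inc f ∉ K`, the path in `Kᶜ` from `g` passes through `g * S j ∈ K`. -/

set_option autoImplicit false

open scoped Pointwise

namespace Pool.Agent.VSB

/-- if appending a letter to a reduced word creates the first letter `b` then the word is empty -/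
theorem cut_aux (L : List (Fin 3 × Bool)) (hL : FreeGroup.IsReduced L) (a b : Fin 3 × Bool)
    (h0 : L.head? ≠ some b) (h1 : (FreeGroup.reduce (L ++ [a])).head? = some b) :
    L = [] ∧ a = b := by
  induction L generalizing b with
  | nil =>
    refine ⟨rfl, ?_⟩
    simpa [FreeGroup.reduce] using h1
  | cons c L ih =>
    exfalso
    have hc : c ≠ b := by
      intro h
      apply h0
      rw [List.head?_cons, h]
    have hL' : FreeGroup.IsReduced L := by
      rw [FreeGroup.IsReduced] at hL ⊢
      exact (List.isChain_cons.1 hL).2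
    rw [List.cons_append, FreeGroup.reduce.cons] at h1
    rcases h2 : FreeGroup.reduce (L ++ [a]) with _ | ⟨hd, tl⟩
    · rw [h2] at h1
      simp only [List.head?_cons, Option.some.injEq] at h1
      exact hc h1
    · rw [h2] at h1
      simp only at h1
      split_ifs at h1 with h3
      · have h4 : L.head? ≠ some hd := by
          intro h5
          rcases L with _ | ⟨d, L⟩
          · simp at h5
          · simp only [List.head?_cons, Option.some.injEq] at h5
            rw [FreeGroup.IsReduced] at hL
            have h6 := (List.isChain_cons_cons.1 hL).1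
            rw [h5] at h6
            have h7 := h6 h3.1
            rw [h3.2] at h7
            cases hd.2 <;> simp at h7
        have h5 := ih hL' hd h4 (by rw [h2]; rfl)
        rw [h5.1] at h2
        simp only [List.nil_append] at h2
        have h6 : FreeGroup.reduce [a] = [a] := by simp [FreeGroup.reduce]
        rw [h6] at h2
        have h7 : tl = [] := (List.cons.inj h2).2.symm
        rw [h7] at h1
        simp at h1
      · simp only [List.head?_cons, Option.some.injEq] at h1
        exact hc h1

theorem cut_toWord (f : F) (a : Fin 3 × Bool) :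
    (f * FreeGroup.mk [a]).toWord = FreeGroup.reduce (f.toWord ++ [a]) := by
  conv_lhs => rw [← FreeGroup.mk_toWord (x := f)]
  rw [FreeGroup.mul_mk, FreeGroup.toWord_mk]

theorem cut_enter {b : Fin 3 × Bool} {f : F} {a : Fin 3 × Bool} (h : ¬ SW b f)
    (h' : SW b (f * FreeGroup.mk [a])) : f = 1 ∧ a = b := by
  unfold SW at h h'
  rw [cut_toWord] at h'
  have h1 := cut_aux f.toWord FreeGroup.isReduced_toWord a b h h'
  exact ⟨FreeGroup.toWord_eq_nil_iff.1 h1.1, h1.2⟩

theorem cut_leave {b : Fin 3 × Bool} {f : F} {a : Fin 3 × Bool} (h : SW b f)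
    (h' : ¬ SW b (f * FreeGroup.mk [a])) : f = FreeGroup.mk [b] ∧ a = (b.1, !b.2) := by
  unfold SW at h h'
  rw [cut_toWord] at h'
  rcases hL : f.toWord with _ | ⟨c, L⟩
  · rw [hL] at h; simp at h
  · rw [hL] at h h'
    simp only [List.head?_cons, Option.some.injEq] at h
    subst h
    have hred : FreeGroup.IsReduced (c :: L) := by rw [← hL]; exact FreeGroup.isReduced_toWord
    have hL' : FreeGroup.IsReduced L := by
      rw [FreeGroup.IsReduced] at hred ⊢
      exact (List.isChain_cons.1 hred).2
    rw [List.cons_append, FreeGroup.reduce.cons] at h'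
    rcases h2 : FreeGroup.reduce (L ++ [a]) with _ | ⟨hd, tl⟩
    · rw [h2] at h'
      simp at h'
    · rw [h2] at h'
      simp only at h'
      split_ifs at h' with h3
      · have hhd : hd = (c.1, !c.2) := by
          apply Prod.ext
          · exact h3.1.symm
          · show hd.2 = !c.2
            rw [h3.2, Bool.not_not]
        have h4 : L.head? ≠ some hd := by
          intro h5
          rcases L with _ | ⟨d, L⟩
          · simp at h5
          · simp only [List.head?_cons, Option.some.injEq] at h5
            rw [FreeGroup.IsReduced] at hred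
            have h6 := (List.isChain_cons_cons.1 hred).1
            rw [h5] at h6
            have h7 := h6 h3.1
            rw [h3.2] at h7
            cases hd.2 <;> simp at h7
        have h5 := cut_aux L hL' a hd h4 (by rw [h2]; rfl)
        refine ⟨?_, by rw [h5.2, hhd]⟩
        rw [← FreeGroup.mk_toWord (x := f), hL, h5.1]
      · simp at h'

theorem SW_step {j : Fin 3} {f : F} {a : Fin 3 × Bool} (h : SW (j, true) f)
    (h' : ¬ SW (j, true) (f * FreeGroup.mk [a])) : f = FreeGroup.of j ∧ a = (j, false) :=
  cut_leave h h'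

/-- connected in the tree `g * inc F` inside `C` -/
def cutR (C : Set Pi) (g : Pi) (f f' : F) : Prop :=
  g * inc f' ∈ C ∧ ∃ a : Fin 3 × Bool, f' = f * FreeGroup.mk [a]

/-- convex along lines -/
def cutConv (C : Set Pi) : Prop :=
  ∀ (x : Pi) (p : Fin 4) (k m l : ℤ), k ≤ m → m ≤ l → x * inc (pt p k) ∈ C →
    x * inc (pt p l) ∈ C → x * inc (pt p m) ∈ C

theorem cut_mono {K : Set Pi} (hK : Mono K) (x : Pi) (p : Fin 4) (k : ℤ) (i : ℕ)
    (h : x * inc (pt p k) ∈ K) : x * inc (pt p (k + i)) ∈ K := by
  induction i with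
  | zero => simpa using h
  | succ i ih =>
    rw [Nat.cast_succ, ← add_assoc, pt_succ, map_mul, inc_of, ← mul_assoc]
    exact hK _ ih (.s _)

theorem cut_mono' {K : Set Pi} (hK : Mono K) (x : Pi) (p : Fin 4) {k l : ℤ} (hkl : k ≤ l)
    (h : x * inc (pt p k) ∈ K) : x * inc (pt p l) ∈ K := by
  have := cut_mono hK x p k (l - k).toNat h
  rwa [Int.toNat_of_nonneg (by omega), add_sub_cancel] at this

theorem cutConv_of {K : Set Pi} (hK : Mono K) : cutConv K :=
  fun x p _ _ _ hkm _ hk _ => cut_mono' hK x p hkm hk

theorem cutConv_of' {K : Set Pi} (hK : Mono K) : cutConv Kᶜ :=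
  fun x p _ _ _ _ hml _ hl hm => hl (cut_mono' hK x p hml hm)

theorem cut_line_up {C : Set Pi} (hC : cutConv C) (g : Pi) (f : F) (p : Fin 4) (k : ℤ) (i : ℕ)
    (hk : g * inc (f * pt p k) ∈ C) (hl : g * inc (f * pt p (k + i)) ∈ C) :
    Relation.ReflTransGen (cutR C g) (f * pt p k) (f * pt p (k + i)) := by
  have key : ∀ m : ℕ, m ≤ i →
      Relation.ReflTransGen (cutR C g) (f * pt p k) (f * pt p (k + m)) := by
    intro m
    induction m with
    | zero => intro _; simpa using Relation.ReflTransGen.refl
    | succ m ih =>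
      intro hm
      refine (ih (by omega)).tail ⟨?_, (lt p (k + m), true), ?_⟩
      · rw [map_mul, ← mul_assoc] at hk hl ⊢
        exact hC _ p k _ _ (by push_cast; omega) (by push_cast; omega) hk hl
      · rw [Nat.cast_succ, ← add_assoc, pt_succ, mul_assoc]
        rfl
  exact key i le_rfl

theorem cut_line_down {C : Set Pi} (hC : cutConv C) (g : Pi) (f : F) (p : Fin 4) (k : ℤ) (i : ℕ)
    (hk : g * inc (f * pt p k) ∈ C) (hl : g * inc (f * pt p (k + i)) ∈ C) :
    Relation.ReflTransGen (cutR C g) (f * pt p (k + i)) (f * pt p k) := by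
  have key : ∀ m : ℕ, m ≤ i →
      Relation.ReflTransGen (cutR C g) (f * pt p (k + m)) (f * pt p k) := by
    intro m
    induction m with
    | zero => intro _; simpa using Relation.ReflTransGen.refl
    | succ m ih =>
      intro hm
      refine Relation.ReflTransGen.head ⟨?_, (lt p (k + m), false), ?_⟩ (ih (by omega))
      · rw [map_mul, ← mul_assoc] at hk hl ⊢
        exact hC _ p k _ _ (by omega) (by omega) hk hl
      · rw [Nat.cast_succ, ← add_assoc, pt_succ, mul_assoc, mul_assoc]
        congr 1
        have : FreeGroup.mk [(lt p (k + m), false)] = (FreeGroup.of (lt p (k + m)))⁻¹ := rfl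
        rw [this, mul_inv_cancel, mul_one]
  exact key i le_rfl

theorem cut_line {C : Set Pi} (hC : cutConv C) (g : Pi) (f : F) (p : Fin 4) (k l : ℤ)
    (hk : g * inc (f * pt p k) ∈ C) (hl : g * inc (f * pt p l) ∈ C) :
    Relation.ReflTransGen (cutR C g) (f * pt p k) (f * pt p l) := by
  rcases le_total k l with h | h
  · obtain ⟨i, hi⟩ := Int.le.dest h
    rw [← hi] at hl ⊢
    exact cut_line_up hC g f p k i hk hl
  · obtain ⟨i, hi⟩ := Int.le.dest h
    rw [← hi] at hk ⊢
    exact cut_line_down hC g f p l i hl hk

theorem cut_rung (j : Fin 3) (b : Bool) : ∃ (p : Fin 4) (k : ℤ), rung p k = (Lt.n j, b) := by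
  cases b
  · fin_cases j
    · exact ⟨1, 0, by simp [rung]⟩
    · exact ⟨3, 0, by simp [rung]⟩
    · exact ⟨3, 1, by simp [rung]⟩
  · fin_cases j
    · exact ⟨0, 0, by simp [rung]⟩
    · exact ⟨2, 0, by simp [rung]⟩
    · exact ⟨2, 1, by simp [rung]⟩

theorem cut_path {C : Set Pi} (hC : cutConv C) (hconn : Conn C) (g : Pi) (f₁ f₂ : F)
    (h1 : g * inc f₁ ∈ C) (h2 : g * inc f₂ ∈ C) :
    Relation.ReflTransGen (cutR C g) f₁ f₂ := by
  have hmem : ∀ f, Relation.ReflTransGen (cutR C g) f₁ f → g * inc f ∈ C := by
    intro f hf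
    induction hf with
    | refl => exact h1
    | tail _ h _ => exact h.1
  have hpath := hconn _ h1 _ h2
  have key : ∀ z, Relation.ReflTransGen (fun x y => y ∈ C ∧ ∃ a, y = x * stp a) (g * inc f₁) z →
      (∃ f, z = g * inc f ∧ Relation.ReflTransGen (cutR C g) f₁ f) ∨
      (∃ (f : F) (p : Fin 4) (k : ℤ), z ∈ (g * inc f) • Bd p ∧
        Relation.ReflTransGen (cutR C g) f₁ (f * pt p k)) := by
    intro z hz
    induction hz with
    | refl => exact Or.inl ⟨f₁, rfl, Relation.ReflTransGen.refl⟩
    | @tail x y _ hxy ih =>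
      obtain ⟨hy, a, rfl⟩ := hxy
      rcases ih with ⟨f, rfl, hf⟩ | ⟨f, p, k, hx, hf⟩
      · obtain ⟨l, b⟩ := a
        cases l with
        | s j =>
          left
          have e1 : g * inc f * stp (Lt.s j, b) = g * inc (f * FreeGroup.mk [(j, b)]) := by
            rw [map_mul, mul_assoc]
            congr 2
            cases b
            · have : FreeGroup.mk [(j, false)] = (FreeGroup.of j)⁻¹ := rfl
              rw [this, map_inv, inc_of]; rfl
            · have : FreeGroup.mk [(j, true)] = FreeGroup.of j := rfl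
              rw [this, inc_of]; rfl
          rw [e1] at hy ⊢
          exact ⟨_, rfl, hf.tail ⟨hy, (j, b), rfl⟩⟩
        | n j =>
          right
          obtain ⟨p, k, hpk⟩ := cut_rung j b
          refine ⟨f * (pt p k)⁻¹, p, k, ?_, by rwa [inv_mul_cancel_right]⟩
          rw [Set.mem_smul_set_iff_inv_smul_mem, smul_eq_mul]
          have e1 : (g * inc (f * (pt p k)⁻¹))⁻¹ * (g * inc f * stp (Lt.n j, b)) =
              t p * inc (pt (bar p) k) := by
            rw [← rung_eq, hpk, map_mul, map_inv]
            group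
          rw [e1]
          exact t_mul_inc_mem_Bd p _
      · by_cases hin : x * stp a ∈ (g * inc f) • Bd p
        · exact Or.inr ⟨f, p, k, hin, hf⟩
        · left
          rw [Set.mem_smul_set_iff_inv_smul_mem, smul_eq_mul] at hin hx
          have h3 : (g * inc f)⁻¹ * (x * stp a) * stp (a.1, !a.2) ∈ Bd p := by
            rw [stp_inv, ← mul_assoc, mul_inv_cancel_right]
            exact hx
          obtain ⟨l, hl, -⟩ := Bd_step hin h3
          have h4 : x * stp a = g * inc (f * pt p l) := by
            rw [map_mul, ← hl]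
            group
          rw [h4] at hy ⊢
          exact ⟨_, rfl, hf.trans (cut_line hC g f p k l (hmem _ hf) hy)⟩
  rcases key _ hpath with ⟨f, hf, hf'⟩ | ⟨f, p, k, hf, -⟩
  · have := inc_injective (mul_left_cancel hf)
    rw [this]
    exact hf'
  · exfalso
    rw [Set.mem_smul_set_iff_inv_smul_mem, smul_eq_mul] at hf
    have e1 : (g * inc f)⁻¹ * (g * inc f₂) = inc (f⁻¹ * f₂) := by
      rw [map_mul, map_inv]
      group
    rw [e1] at hf
    exact inc_notMem_Bd p _ hf

theorem cut_not {C : Set Pi} (hC : cutConv C) (hconn : Conn C) {g : Pi} {b : Fin 3 × Bool}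
    (h0 : g ∉ C) (h1 : g * inc (FreeGroup.mk [b]) ∈ C) {f : F} (hf : g * inc f ∈ C) : SW b f := by
  by_contra hcon
  have hpath := cut_path hC hconn g _ f h1 hf
  have key : SW b f := by
    clear hcon
    clear hf
    induction hpath with
    | refl =>
      show (FreeGroup.mk [b]).toWord.head? = some b
      rw [FreeGroup.toWord_mk]
      simp [FreeGroup.reduce]
    | @tail f₁ f₂ _ h ih =>
      obtain ⟨h2, a, rfl⟩ := h
      by_contra hcon
      obtain ⟨h3, h4⟩ := cut_leave ih hcon
      rw [h3, h4] at h2
      have e1 : FreeGroup.mk [b] * FreeGroup.mk [(b.1, !b.2)] = (1 : F) := by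
        have : FreeGroup.mk [(b.1, !b.2)] = (FreeGroup.mk [b])⁻¹ := rfl
        rw [this, mul_inv_cancel]
      rw [e1, map_one, mul_one] at h2
      exact h0 h2
  exact hcon key

theorem cut_yes {C : Set Pi} (hC : cutConv C) (hconn : Conn C) {g : Pi} {b : Fin 3 × Bool}
    (h0 : g ∈ C) (h1 : g * inc (FreeGroup.mk [b]) ∉ C) {f : F} (hf : g * inc f ∈ C) : ¬ SW b f := by
  intro hcon
  have h0' : g * inc 1 ∈ C := by rwa [map_one, mul_one]
  have hpath := cut_path hC hconn g _ f h0' hf
  have key : ¬ SW b f := by
    clear hcon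
    clear hf
    induction hpath with
    | refl =>
      show ¬ ((1 : F).toWord.head? = some b)
      simp
    | @tail f₁ f₂ _ h ih =>
      obtain ⟨h2, a, rfl⟩ := h
      intro hcon
      obtain ⟨h3, h4⟩ := cut_enter ih hcon
      rw [h3, h4, one_mul] at h2
      exact h1 h2
  exact key hcon

theorem cut_iff {K : Set Pi} (hK : Good K) {g : Pi} {j : Fin 3} (h0 : g ∉ K) (h1 : g * S j ∈ K)
    (f : F) : g * inc f ∈ K ↔ SW (j, true) f := by
  have e : inc (FreeGroup.mk [(j, true)]) = S j := inc_of j
  constructor
  · intro h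
    exact cut_not (cutConv_of hK.mono) hK.conn (b := (j, true)) h0 (by rw [e]; exact h1) h
  · intro h
    by_contra hcon
    exact cut_yes (cutConv_of' hK.mono) hK.conn' (b := (j, true)) h0
      (by rw [e, Set.mem_compl_iff, not_not]; exact h1) hcon h

/-- the same edge traversed backwards -/
theorem cut_iff' {K : Set Pi} (hK : Good K) {g : Pi} {j : Fin 3} (h0 : g ∈ K)
    (h1 : g * (S j)⁻¹ ∉ K) (f : F) : g * inc f ∉ K ↔ SW (j, false) f := by
  have e : inc (FreeGroup.mk [(j, false)]) = (S j)⁻¹ := by
    have : FreeGroup.mk [(j, false)] = (FreeGroup.of j)⁻¹ := rfl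
    rw [this, map_inv, inc_of]
  constructor
  · intro h
    exact cut_not (cutConv_of' hK.mono) hK.conn' (b := (j, false))
      (by rw [Set.mem_compl_iff, not_not]; exact h0) (by rw [e]; exact h1) h
  · intro h hcon
    exact cut_yes (cutConv_of hK.mono) hK.conn (b := (j, false)) h0
      (by rw [e]; exact h1) hcon h

end Pool.Agent.VSB
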