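import Mathlib

/-! # MP_33f4db_gt: the double pentagon surface of genus two (basic definitions)

`Pi` is the fundamental group of the closed surface of genus two obtained by gluing the parallel
sides of two regular pentagons: one vertex, five edges `e i`, two faces `e0 e1 e2 e3 e4` and
`e4 e3 e2 e1 e0`. Cutting along the horizontal and vertical saddle connections gives the golden L with
horizontal edges `S j`, vertical edges `N j` and three rectangles
`S0 N0 = N0 S1`, `S1 N2 = N1 S0`, `S2 N1 = N2 S2`.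
The horizontal cylinders are `C0` (one rectangle, bottom `S0`, top `S1`, crossed by `N0`) and `C1` (two
rectangles, bottom `S1 S2`, top `S0 S2`, crossed by `N1` and `N2`). -/

set_option autoImplicit false

namespace Pool.Agent.VSB

/-- the relations of the double pentagon -/
def rels : Set (FreeGroup (Fin 5)) :=
  {FreeGroup.of 0 * FreeGroup.of 1 * FreeGroup.of 2 * FreeGroup.of 3 * FreeGroup.of 4,
    FreeGroup.of 4 * FreeGroup.of 3 * FreeGroup.of 2 * FreeGroup.of 1 * FreeGroup.of 0}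

/-- the fundamental group of the surface -/
abbrev Pi : Type := PresentedGroup rels

/-- the sides of the pentagons -/
def e (i : Fin 5) : Pi := PresentedGroup.of i

theorem e_rel1 : e 0 * e 1 * e 2 * e 3 * e 4 = 1 :=
  PresentedGroup.one_of_mem (rels := rels) (x := FreeGroup.of 0 * FreeGroup.of 1 * FreeGroup.of 2 *
    FreeGroup.of 3 * FreeGroup.of 4) (Or.inl rfl)

theorem e_rel2 : e 4 * e 3 * e 2 * e 1 * e 0 = 1 :=
  PresentedGroup.one_of_mem (rels := rels) (x := FreeGroup.of 4 * FreeGroup.of 3 * FreeGroup.of 2 *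
    FreeGroup.of 1 * FreeGroup.of 0) (Or.inr rfl)

/-- horizontal edges of the golden L -/
def S (j : Fin 3) : Pi := ![(e 3)⁻¹ * (e 2)⁻¹, (e 2)⁻¹ * (e 3)⁻¹, e 0] j

/-- vertical edges of the golden L -/
def N (j : Fin 3) : Pi := ![e 2, (e 0)⁻¹ * (e 4)⁻¹, (e 4)⁻¹ * (e 0)⁻¹] j

theorem e0_eq : e 0 = S 2 := rfl

theorem e2_eq : e 2 = N 0 := rfl

theorem e1_eq : e 1 = S 1 * N 2 := by
  have h := e_rel2
  have h1 : e 1 = (e 0 * e 4 * e 3 * e 2)⁻¹ := by
    rw [eq_inv_iff_mul_eq_one]
    calc e 1 * (e 0 * e 4 * e 3 * e 2) = (e 4 * e 3 * e 2)⁻¹ * (e 4 * e 3 * e 2 * e 1 * e 0) *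
          (e 4 * e 3 * e 2) := by group
      _ = 1 := by rw [h]; group
  rw [h1]
  show _ = (e 2)⁻¹ * (e 3)⁻¹ * ((e 4)⁻¹ * (e 0)⁻¹)
  group

theorem e1_eq' : e 1 = N 1 * S 0 := by
  have h := e_rel1
  have h1 : e 1 = (e 2 * e 3 * e 4 * e 0)⁻¹ := by
    rw [eq_inv_iff_mul_eq_one]
    calc e 1 * (e 2 * e 3 * e 4 * e 0) = (e 0)⁻¹ * (e 0 * e 1 * e 2 * e 3 * e 4) * e 0 := by group
      _ = 1 := by rw [h]; group
  rw [h1]
  show _ = (e 0)⁻¹ * (e 4)⁻¹ * ((e 3)⁻¹ * (e 2)⁻¹)
  group

theorem e3_eq : e 3 = (N 0 * S 1)⁻¹ := by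
  show e 3 = (e 2 * ((e 2)⁻¹ * (e 3)⁻¹))⁻¹
  group

theorem e4_eq : e 4 = (N 2 * S 2)⁻¹ := by
  show e 4 = ((e 4)⁻¹ * (e 0)⁻¹ * e 0)⁻¹
  group

theorem rel0 : S 0 * N 0 = N 0 * S 1 := by
  show (e 3)⁻¹ * (e 2)⁻¹ * e 2 = e 2 * ((e 2)⁻¹ * (e 3)⁻¹)
  group

theorem rel1 : S 1 * N 2 = N 1 * S 0 := by rw [← e1_eq, ← e1_eq']

theorem rel2 : S 2 * N 1 = N 2 * S 2 := by
  show e 0 * ((e 0)⁻¹ * (e 4)⁻¹) = (e 4)⁻¹ * (e 0)⁻¹ * e 0
  group

section UP

variable {G : Type*} [Group G] (s n : Fin 3 → G)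

/-- images of the sides of the pentagons -/
def eim : Fin 5 → G := ![s 2, s 1 * n 2, n 0, (n 0 * s 1)⁻¹, (n 2 * s 2)⁻¹]

/-- universal property in terms of the rectangles -/
def toHom (h0 : s 0 * n 0 = n 0 * s 1) (h1 : s 1 * n 2 = n 1 * s 0) (h2 : s 2 * n 1 = n 2 * s 2) :
    Pi →* G :=
  PresentedGroup.toGroup (f := eim s n) (by
    rintro r (rfl | rfl)
    · simp only [map_mul, FreeGroup.lift_apply_of]
      show s 2 * (s 1 * n 2) * n 0 * (n 0 * s 1)⁻¹ * (n 2 * s 2)⁻¹ = 1
      rw [h1, ← h0, ← h2]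
      group
    · simp only [map_mul, FreeGroup.lift_apply_of]
      show (n 2 * s 2)⁻¹ * (n 0 * s 1)⁻¹ * n 0 * (s 1 * n 2) * s 2 = 1
      group)

variable {s n}

theorem toHom_S (h0 : s 0 * n 0 = n 0 * s 1) (h1 : s 1 * n 2 = n 1 * s 0)
    (h2 : s 2 * n 1 = n 2 * s 2) (j : Fin 3) : toHom s n h0 h1 h2 (S j) = s j := by
  have he : ∀ i, toHom s n h0 h1 h2 (e i) = eim s n i := fun i => PresentedGroup.toGroup.of _
  fin_cases j
  · show toHom s n h0 h1 h2 ((e 3)⁻¹ * (e 2)⁻¹) = s 0
    rw [map_mul, map_inv, map_inv, he, he]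
    show ((n 0 * s 1)⁻¹)⁻¹ * (n 0)⁻¹ = s 0
    rw [inv_inv, ← h0]; group
  · show toHom s n h0 h1 h2 ((e 2)⁻¹ * (e 3)⁻¹) = s 1
    rw [map_mul, map_inv, map_inv, he, he]
    show (n 0)⁻¹ * ((n 0 * s 1)⁻¹)⁻¹ = s 1
    group
  · exact he 0

theorem toHom_N (h0 : s 0 * n 0 = n 0 * s 1) (h1 : s 1 * n 2 = n 1 * s 0)
    (h2 : s 2 * n 1 = n 2 * s 2) (j : Fin 3) : toHom s n h0 h1 h2 (N j) = n j := by
  have he : ∀ i, toHom s n h0 h1 h2 (e i) = eim s n i := fun i => PresentedGroup.toGroup.of _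
  fin_cases j
  · exact he 2
  · show toHom s n h0 h1 h2 ((e 0)⁻¹ * (e 4)⁻¹) = n 1
    rw [map_mul, map_inv, map_inv, he, he]
    show (s 2)⁻¹ * ((n 2 * s 2)⁻¹)⁻¹ = n 1
    rw [inv_inv, ← h2]; group
  · show toHom s n h0 h1 h2 ((e 4)⁻¹ * (e 0)⁻¹) = n 2
    rw [map_mul, map_inv, map_inv, he, he]
    show ((n 2 * s 2)⁻¹)⁻¹ * (s 2)⁻¹ = n 2
    group

end UP

/-- two homomorphisms which agree on the `S j` and the `N j` are equal -/
theorem hom_ext {G : Type*} [Group G] {φ ψ : Pi →* G} (hS : ∀ j, φ (S j) = ψ (S j))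
    (hN : ∀ j, φ (N j) = ψ (N j)) : φ = ψ := by
  apply PresentedGroup.ext
  intro i
  show φ (e i) = ψ (e i)
  fin_cases i
  · exact hS 2
  · show φ (e 1) = ψ (e 1); rw [e1_eq, map_mul, map_mul, hS, hN]
  · exact hN 0
  · show φ (e 3) = ψ (e 3); rw [e3_eq]; simp only [map_inv, map_mul, hS, hN]
  · show φ (e 4) = ψ (e 4); rw [e4_eq]; simp only [map_inv, map_mul, hS, hN]

/-! ### Words in the edges of the golden L -/

/-- The six oriented edges of the golden L: horizontal `s j`, vertical `n j`. -/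
inductive Lt : Type
  | s (j : Fin 3)
  | n (j : Fin 3)
  deriving DecidableEq

/-- the element of `Pi` of a letter -/
def Lt.val : Lt → Pi
  | .s j => S j
  | .n j => N j

/-- words: lists of letters with exponent `+1` (`true`) or `-1` (`false`) -/
abbrev Wd : Type := List (Lt × Bool)

/-- the element of a signed letter -/
def stp (a : Lt × Bool) : Pi := if a.2 then a.1.val else (a.1.val)⁻¹

/-- evaluation of a word -/
def ev (w : Wd) : Pi := (w.map stp).prod

/-- Horizontal type: the cylinder `C a` whose core curve `γ a` is crossed by the letter. -/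
def Lt.hty : Lt → Option (Fin 2)
  | .s _ => none
  | .n j => if j = 0 then some 0 else some 1

/-- Vertical type: the vertical cylinder whose core curve is crossed by the letter. -/
def Lt.vty : Lt → Option (Fin 2)
  | .s j => if j = 2 then some 0 else some 1
  | .n _ => none

/-- number of crossings of the word with the core curve `γ a` of `C a` -/
def hc (a : Fin 2) (w : Wd) : ℕ := w.countP (fun x => x.1.hty = some a)

/-- number of crossings of the word with the core curve of the `b`-th vertical cylinder -/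
def vc (b : Fin 2) (w : Wd) : ℕ := w.countP (fun x => x.1.vty = some b)

/-- total number of vertical letters -/
def nc (w : Wd) : ℕ := hc 0 w + hc 1 w

/-- total number of horizontal letters -/
def sc (w : Wd) : ℕ := vc 0 w + vc 1 w

/-- Geometric intersection number of the free homotopy class of `x` with `γ a` : the least number of
crossings of a word representing a conjugate of `x`. -/
noncomputable def inum (a : Fin 2) (x : Pi) : ℕ :=
  sInf {k | ∃ (g : Pi) (w : Wd), ev w = g⁻¹ * x * g ∧ hc a w = k}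

/-- The same for the vertical curves. -/
noncomputable def jnum (b : Fin 2) (x : Pi) : ℕ :=
  sInf {k | ∃ (g : Pi) (w : Wd), ev w = g⁻¹ * x * g ∧ vc b w = k}

/-- `i(γ, x)` for the multicurve `γ = γ 0 ∪ γ 1` -/
noncomputable def ell (x : Pi) : ℕ := inum 0 x + inum 1 x

/-! ### The free group of the complement of `γ` and its boundary lines -/

/-- free group on the horizontal edges -/
abbrev F : Type := FreeGroup (Fin 3)

/-- the inclusion of the fundamental group of the complement of `γ` -/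
def inc : F →* Pi := FreeGroup.lift S

/-- the four boundary elements: bottom and top of `C0`, bottom and top of `C1` -/
def c (p : Fin 4) : F :=
  ![FreeGroup.of 0, FreeGroup.of 1, FreeGroup.of 1 * FreeGroup.of 2,
    FreeGroup.of 0 * FreeGroup.of 2] p

/-- the four crossings: up and down through `C0`, up and down through `C1` -/
def t (p : Fin 4) : Pi := ![N 0, (N 0)⁻¹, N 1, (N 1)⁻¹] p

/-- the other side of the cylinder -/
def bar (p : Fin 4) : Fin 4 := ![1, 0, 3, 2] p

/-- the cylinder -/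
def kind (p : Fin 4) : Fin 2 := ![0, 0, 1, 1] p

/-- the letter between the vertices `k` and `k + 1` of the boundary line of type `q` -/
def lt (q : Fin 4) (k : ℤ) : Fin 3 :=
  if q = 0 then 0 else if q = 1 then 1 else if q = 2 then (if k % 2 = 0 then 1 else 2)
  else (if k % 2 = 0 then 0 else 2)

/-- the vertex `k` of the boundary line of type `q` through `1` -/
def pt (q : Fin 4) (k : ℤ) : F :=
  if q = 0 ∨ q = 1 then c q ^ k
  else c q ^ (k / 2) * (if k % 2 = 0 then 1 else FreeGroup.of (lt q 0))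

/-- The boundary line through `1` (all its vertices) in the Cayley tree of `F`. -/
def Line (p : Fin 4) : Set F := Set.range (pt p)

/-- the vertical letter crossing the ladder at the vertex `k` of the line of type `p` -/
def rung (p : Fin 4) (k : ℤ) : Lt × Bool :=
  if p = 0 then (.n 0, true) else if p = 1 then (.n 0, false)
  else if p = 2 then (if k % 2 = 0 then (.n 1, true) else (.n 2, true))
  else (if k % 2 = 0 then (.n 1, false) else (.n 2, false))

/-- The lines `Line p` and `f • Line q` have distance at least `m` in the Cayley tree of `F`. -/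
def Dst (p : Fin 4) (f : F) (q : Fin 4) (m : ℕ) : Prop :=
  ∀ x ∈ Line p, ∀ y ∈ Line q, m ≤ (x⁻¹ * f * y).norm

/-- `f` starts with the letter `a` -/
def SW (a : Fin 3 × Bool) (f : F) : Prop := f.toWord.head? = some a

theorem bar_bar (p : Fin 4) : bar (bar p) = p := by fin_cases p <;> rfl

theorem t_bar (p : Fin 4) : t (bar p) = (t p)⁻¹ := by
  fin_cases p <;> simp [t, bar]

theorem inc_of (j : Fin 3) : inc (FreeGroup.of j) = S j := by simp [inc]

theorem c_t (p : Fin 4) : inc (c p) * t p = t p * inc (c (bar p)) := by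
  have h0 := rel0
  have h1 := rel1
  have h2 := rel2
  have hA : S 1 * S 2 * N 1 = N 1 * (S 0 * S 2) := by
    rw [mul_assoc, h2, ← mul_assoc, h1, mul_assoc]
  fin_cases p
  · simpa [c, t, bar, inc_of] using h0
  · show inc (FreeGroup.of 1) * (N 0)⁻¹ = (N 0)⁻¹ * inc (FreeGroup.of 0)
    rw [inc_of, inc_of, eq_inv_mul_iff_mul_eq, ← mul_assoc, ← h0]; group
  · show inc (FreeGroup.of 1 * FreeGroup.of 2) * N 1 = N 1 * inc (FreeGroup.of 0 * FreeGroup.of 2)
    rw [map_mul, map_mul, inc_of, inc_of, inc_of, hA]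
  · show inc (FreeGroup.of 0 * FreeGroup.of 2) * (N 1)⁻¹ = (N 1)⁻¹ * inc (FreeGroup.of 1 * FreeGroup.of 2)
    rw [map_mul, map_mul, inc_of, inc_of, inc_of, eq_inv_mul_iff_mul_eq, ← mul_assoc, ← hA]; group

theorem N2_eq : N 2 = (S 1)⁻¹ * N 1 * S 0 := by
  rw [mul_assoc, ← rel1]; group

theorem pt_zero (q : Fin 4) : pt q 0 = 1 := by
  fin_cases q <;> simp [pt]

theorem pt_succ (q : Fin 4) (k : ℤ) : pt q (k + 1) = pt q k * FreeGroup.of (lt q k) := by
  rcases Int.emod_two_eq_zero_or_one k with hk | hk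
  · have h1 : (k + 1) % 2 = 1 := by omega
    have h2 : (k + 1) / 2 = k / 2 := by omega
    fin_cases q
    · simp [pt, lt, c, zpow_add]
    · simp [pt, lt, c, zpow_add]
    · simp [pt, lt, c, hk, h1, h2]
    · simp [pt, lt, c, hk, h1, h2]
  · have h1 : (k + 1) % 2 = 0 := by omega
    have h2 : (k + 1) / 2 = k / 2 + 1 := by omega
    fin_cases q
    · simp [pt, lt, c, zpow_add]
    · simp [pt, lt, c, zpow_add]
    · simp [pt, lt, c, hk, h1, h2, zpow_add, mul_assoc]
    · simp [pt, lt, c, hk, h1, h2, zpow_add, mul_assoc]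

theorem inc_c_zpow_t (p : Fin 4) (k : ℤ) : inc (c p) ^ k * t p = t p * inc (c (bar p)) ^ k := by
  have h : SemiconjBy (t p) (inc (c (bar p))) (inc (c p)) := (c_t p).symm
  exact (h.zpow_right k).symm

/-- the ladders: the vertex `k` of the line `p` is joined by the rung to the vertex `k` of the line
`bar p` of the neighbouring tree -/
theorem rung_eq (p : Fin 4) (k : ℤ) :
    inc (pt p k) * stp (rung p k) = t p * inc (pt (bar p) k) := by
  have h1 := rel1
  have h1' : S 0 * (N 2)⁻¹ = (N 1)⁻¹ * S 1 := by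
    rw [eq_inv_mul_iff_mul_eq, ← mul_assoc, ← h1]; group
  have hz := fun p k => inc_c_zpow_t p k
  rcases Int.emod_two_eq_zero_or_one k with hk | hk
  · fin_cases p
    · simpa [pt, rung, bar, stp, Lt.val, t] using hz 0 k
    · simpa [pt, rung, bar, stp, Lt.val, t] using hz 1 k
    · simpa [pt, rung, bar, stp, Lt.val, t, hk] using hz 2 (k / 2)
    · simpa [pt, rung, bar, stp, Lt.val, t, hk] using hz 3 (k / 2)
  · fin_cases p
    · simpa [pt, rung, bar, stp, Lt.val, t] using hz 0 k
    · simpa [pt, rung, bar, stp, Lt.val, t] using hz 1 k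
    · have hz2 := hz 2 (k / 2)
      simp only [t, bar] at hz2
      simp [pt, rung, bar, stp, Lt.val, t, hk, lt, inc_of, mul_assoc, h1]
      rw [← mul_assoc, ← mul_assoc]
      congr 1
    · have hz2 := hz 3 (k / 2)
      simp only [t, bar] at hz2
      simp [pt, rung, bar, stp, Lt.val, t, hk, lt, inc_of, mul_assoc, h1']
      rw [← mul_assoc, ← mul_assoc]
      congr 1

/-! ### Walls -/

/-- `K` is closed under right multiplication by the letters. -/
def Mono (K : Set Pi) : Prop := ∀ g ∈ K, ∀ a : Lt, g * a.val ∈ K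

/-- `K` is connected in the Cayley graph of the letters. -/
def Conn (K : Set Pi) : Prop :=
  ∀ g ∈ K, ∀ h ∈ K, Relation.ReflTransGen (fun x y => y ∈ K ∧ ∃ a, y = x * stp a) g h

/-- Halfspaces whose boundary is transverse to the letters, all letters crossing it positively. -/
structure Good (K : Set Pi) : Prop where
  mono : Mono K
  conn : Conn K
  conn' : Conn Kᶜ

/-- `K` separates the two ends of the axis of `y`. -/
def Cross (y : Pi) (K : Set Pi) : Prop :=
  (∃ i₀ : ℕ, ∀ i ≥ i₀, y ^ i ∈ K ∧ (y⁻¹) ^ i ∉ K) ∨ (∃ i₀ : ℕ, ∀ i ≥ i₀, y ^ i ∉ K ∧ (y⁻¹) ^ i ∈ K)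

/-! ### Axes -/

/-- A reduced periodic path along the axis of `x` in the Bass-Serre tree of `γ`. -/
structure HAx (x : Pi) where
  /-- period -/
  n : ℕ
  pos : 0 < n
  /-- the strands -/
  f : ℤ → F
  /-- the crossings -/
  p : ℤ → Fin 4
  /-- the base points -/
  g : ℤ → Pi
  g0 : g 0 = 1
  step : ∀ j, g (j + 1) = g j * inc (f j) * t (p j)
  per : ∀ j, g (j + n) = x * g j
  perf : ∀ j, f (j + n) = f j
  perp : ∀ j, p (j + n) = p j
  red : ∀ j, ¬ (p (j + 1) = bar (p j) ∧ f (j + 1) ∈ Subgroup.zpowers (c (p (j + 1))))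

/-- number of crossings with `γ a` in a period -/
def HAx.cnt {x : Pi} (H : HAx x) (a : Fin 2) : ℕ :=
  ((Finset.range H.n).filter (fun j : ℕ => kind (H.p j) = a)).card

end Pool.Agent.VSB
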