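import Pool.Agent.VSB.Defs

/-! # VSB/LineF: the boundary lines in the Cayley tree of the free group `F`

Everything is free group combinatorics (`FreeGroup.toWord`, `FreeGroup.norm`, `FreeGroup.reduce`).
`pt_shift`: `w p = 1` for `p = 0, 1`, `w p = 2` for `p = 2, 3`. The word of `(pt q k)⁻¹ * pt q l`, `k ≤ l`, is
`(lt q k, true), (lt q (k+1), true), ..., (lt q (l-1), true)`: prove it for `l = k + n` by induction on `n`
(`pt_succ`), it is reduced since all exponents are `true`; the case `l ≤ k` follows by inverting.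
`Line_conv` from `SW_pt`. `not_common`: two different lines share at most one edge: if `pt q k * (pt p i)⁻¹` had two
cancellations, then two consecutive letters of the periodic sequences `lt q`, `lt p` agree (with the same sign),
which forces `p = q` and, for `p = q` in `{2, 3}`, already one common letter gives `k ≡ i mod 2`. -/

set_option autoImplicit false

namespace Pool.Agent.VSB

/-- length of `c p` -/
def wid (p : Fin 4) : ℤ := ![1, 1, 2, 2] p

theorem pt_shift (p : Fin 4) (m k : ℤ) : c p ^ m * pt p k = pt p (k + m * wid p) := by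
  have h1 : (k + m * 2) / 2 = k / 2 + m := by omega
  have h2 : (k + m * 2) % 2 = k % 2 := by omega
  have h3 : ∀ x : F, x ^ m * x ^ (k / 2) = x ^ (k / 2 + m) := fun x => by
    rw [← zpow_add, add_comm]
  have h4 : ∀ x : F, x ^ m * x ^ k = x ^ (k + m) := fun x => by
    rw [← zpow_add, add_comm]
  fin_cases p
  · simp [pt, wid, h4]
  · simp [pt, wid, h4]
  · simp [pt, wid, h1, h2, ← mul_assoc, h3]
  · simp [pt, wid, h1, h2, ← mul_assoc, h3]

theorem pt_wid (p : Fin 4) (m : ℤ) : pt p (m * wid p) = c p ^ m := by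
  have h := pt_shift p m 0
  rw [pt_zero, mul_one, zero_add] at h
  exact h.symm

theorem Line_smul_c (p : Fin 4) (m : ℤ) (x : F) : c p ^ m * x ∈ Line p ↔ x ∈ Line p := by
  constructor
  · rintro ⟨k, hk⟩
    refine ⟨k + (-m) * wid p, ?_⟩
    rw [← pt_shift, hk, ← mul_assoc, ← zpow_add, neg_add_cancel, zpow_zero, one_mul]
  · rintro ⟨k, rfl⟩
    exact ⟨_, (pt_shift p m k).symm⟩

theorem one_mem_Line (p : Fin 4) : (1 : F) ∈ Line p := ⟨0, pt_zero p⟩

namespace LineF

/-- the word of `n` letters of the line `q` starting at the vertex `k` -/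
def wd (q : Fin 4) (k : ℤ) (n : ℕ) : List (Fin 3 × Bool) :=
  (List.range n).map fun i : ℕ => (lt q (k + i), true)

theorem length_wd (q : Fin 4) (k : ℤ) (n : ℕ) : (wd q k n).length = n := by simp [wd]

theorem wd_succ (q : Fin 4) (k : ℤ) (n : ℕ) :
    wd q k (n + 1) = wd q k n ++ [(lt q (k + n), true)] := by
  simp [wd, List.range_succ]

theorem wd_succ' (q : Fin 4) (k : ℤ) (n : ℕ) :
    wd q k (n + 1) = (lt q k, true) :: wd q (k + 1) n := by
  simp only [wd, List.range_succ_eq_map, List.map_cons, List.map_map]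
  congr 1
  · simp
  · apply List.map_congr_left
    intro i _
    simp [Function.comp, add_assoc, add_comm (1 : ℤ)]

theorem pt_add (q : Fin 4) (k : ℤ) (n : ℕ) :
    pt q (k + n) = pt q k * FreeGroup.mk (wd q k n) := by
  induction n with
  | zero =>
    rw [Nat.cast_zero, add_zero]
    show pt q k = pt q k * 1
    rw [mul_one]
  | succ n ih =>
    rw [wd_succ, ← FreeGroup.mul_mk, ← mul_assoc, ← ih]
    push_cast
    rw [← add_assoc, pt_succ]
    rfl

theorem isReduced_of_all : ∀ (L : List (Fin 3 × Bool)), (∀ a ∈ L, a.2 = true) →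
    FreeGroup.IsReduced L
  | [], _ => FreeGroup.IsReduced.nil
  | [a], _ => FreeGroup.IsReduced.singleton
  | a :: b :: L, h => by
    rw [FreeGroup.isReduced_cons_cons]
    refine ⟨fun _ => ?_, isReduced_of_all (b :: L) fun x hx => h x (List.mem_cons_of_mem _ hx)⟩
    rw [h a (by simp), h b (by simp)]

theorem isReduced_wd (q : Fin 4) (k : ℤ) (n : ℕ) : FreeGroup.IsReduced (wd q k n) := by
  apply isReduced_of_all
  intro a ha
  rw [wd, List.mem_map] at ha
  obtain ⟨i, _, rfl⟩ := ha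
  rfl

theorem toWord_add (q : Fin 4) (k : ℤ) (n : ℕ) :
    ((pt q k)⁻¹ * pt q (k + n)).toWord = wd q k n := by
  rw [pt_add, inv_mul_cancel_left, FreeGroup.toWord_mk, (isReduced_wd q k n).reduce_eq]

theorem toWord_add' (q : Fin 4) (k : ℤ) (n : ℕ) :
    ((pt q (k + n))⁻¹ * pt q k).toWord = FreeGroup.invRev (wd q k n) := by
  rw [← toWord_add, ← FreeGroup.toWord_inv, mul_inv_rev, inv_inv]

theorem invRev_append (A B : List (Fin 3 × Bool)) :
    FreeGroup.invRev (A ++ B) = FreeGroup.invRev B ++ FreeGroup.invRev A := by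
  simp [FreeGroup.invRev]

end LineF

open LineF

theorem SW_pt (q : Fin 4) {k l : ℤ} (h : k < l) : SW (lt q k, true) ((pt q k)⁻¹ * pt q l) := by
  obtain ⟨n, hn⟩ : ∃ n : ℕ, l = k + ((n + 1 : ℕ) : ℤ) := ⟨(l - k - 1).toNat, by omega⟩
  rw [hn, SW, toWord_add, wd_succ']
  rfl

theorem SW_pt' (q : Fin 4) {k l : ℤ} (h : l < k) :
    SW (lt q (k - 1), false) ((pt q k)⁻¹ * pt q l) := by
  obtain ⟨n, hn⟩ : ∃ n : ℕ, k = l + ((n + 1 : ℕ) : ℤ) := ⟨(k - l - 1).toNat, by omega⟩
  have h1 : k - 1 = l + n := by omega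
  rw [h1, hn, SW, toWord_add', wd_succ, invRev_append]
  rfl

theorem norm_pt (q : Fin 4) (k l : ℤ) : ((pt q k)⁻¹ * pt q l).norm = (l - k).natAbs := by
  rcases le_total k l with h | h
  · obtain ⟨n, hn⟩ : ∃ n : ℕ, l = k + (n : ℤ) := ⟨(l - k).toNat, by omega⟩
    rw [hn, FreeGroup.norm, toWord_add, length_wd]; omega
  · obtain ⟨n, hn⟩ : ∃ n : ℕ, k = l + (n : ℤ) := ⟨(k - l).toNat, by omega⟩
    rw [hn, FreeGroup.norm, toWord_add', FreeGroup.invRev_length, length_wd]; omega

theorem pt_injective (q : Fin 4) : Function.Injective (pt q) := by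
  intro k l h
  have h1 := norm_pt q k l
  rw [h, inv_mul_cancel, FreeGroup.norm_one] at h1
  omega

/-- the lines are convex -/
theorem Line_conv {q : Fin 4} {y y' : F} (hy : y ∈ Line q) (hy' : y' ∈ Line q)
    {a : Fin 3 × Bool} (h : SW a (y⁻¹ * y')) : y * FreeGroup.mk [a] ∈ Line q := by
  obtain ⟨k, rfl⟩ := hy
  obtain ⟨l, rfl⟩ := hy'
  rcases lt_trichotomy k l with hkl | rfl | hkl
  · have h1 := SW_pt q hkl
    rw [SW] at h h1
    rw [h] at h1
    injection h1 with h1
    subst h1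
    exact ⟨k + 1, pt_succ q k⟩
  · rw [SW, inv_mul_cancel, FreeGroup.toWord_one] at h
    simp at h
  · have h1 := SW_pt' q hkl
    rw [SW] at h h1
    rw [h] at h1
    injection h1 with h1
    subst h1
    refine ⟨k - 1, ?_⟩
    have h2 := pt_succ q (k - 1)
    rw [sub_add_cancel] at h2
    rw [h2, mul_assoc]
    have h3 : (FreeGroup.of (lt q (k - 1)) : F) * FreeGroup.mk [(lt q (k - 1), false)] = 1 := by
      have : (FreeGroup.mk [(lt q (k - 1), false)] : F) = (FreeGroup.of (lt q (k - 1)))⁻¹ := rfl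
      rw [this, mul_inv_cancel]
    rw [h3, mul_one]

namespace LineF

theorem norm_mul_inv_of_last {L₁ L₂ : List (Fin 3 × Bool)} (h₁ : FreeGroup.IsReduced L₁)
    (h₂ : FreeGroup.IsReduced L₂)
    (h : ∀ a ∈ L₁.getLast?, ∀ b ∈ L₂.getLast?, a ≠ b) :
    (FreeGroup.mk L₁ * (FreeGroup.mk L₂)⁻¹).norm = L₁.length + L₂.length := by
  have hr : FreeGroup.IsReduced (L₁ ++ FreeGroup.invRev L₂) := by
    have h₂' : FreeGroup.IsReduced (FreeGroup.invRev L₂) := by
      rw [FreeGroup.isReduced_iff_reduce_eq, FreeGroup.reduce_invRev, h₂.reduce_eq]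
    refine List.isChain_append.2 ⟨h₁, h₂', ?_⟩
    intro x hx y hy hxy
    have hy' : ∃ b ∈ L₂.getLast?, y = (b.1, !b.2) := by
      rw [FreeGroup.invRev, List.head?_reverse, List.getLast?_map] at hy
      rw [Option.mem_def, Option.map_eq_some_iff] at hy
      obtain ⟨b, hb, rfl⟩ := hy
      exact ⟨b, hb, rfl⟩
    obtain ⟨b, hb, rfl⟩ := hy'
    have hne := h x hx b hb
    obtain ⟨x1, x2⟩ := x
    obtain ⟨b1, b2⟩ := b
    simp only at hxy ⊢
    subst hxy
    cases x2 <;> cases b2 <;> simp_all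
  rw [FreeGroup.inv_mk, FreeGroup.mul_mk, FreeGroup.norm, FreeGroup.toWord_mk, hr.reduce_eq,
    List.length_append, FreeGroup.invRev_length]

theorem norm_mul_inv_ge (x y : F) (h : ¬ ∃ (A B : List (Fin 3 × Bool)) (a b : Fin 3 × Bool),
    x.toWord = A ++ [b, a] ∧ y.toWord = B ++ [b, a]) :
    x.norm + y.norm ≤ (x * y⁻¹).norm + 2 := by
  have hx : FreeGroup.mk x.toWord = x := FreeGroup.mk_toWord
  have hy : FreeGroup.mk y.toWord = y := FreeGroup.mk_toWord
  have rx : FreeGroup.IsReduced x.toWord := FreeGroup.isReduced_toWord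
  have ry : FreeGroup.IsReduced y.toWord := FreeGroup.isReduced_toWord
  by_cases h1 : ∀ a ∈ x.toWord.getLast?, ∀ b ∈ y.toWord.getLast?, a ≠ b
  · have h2 := norm_mul_inv_of_last rx ry h1
    rw [hx, hy] at h2
    rw [h2, FreeGroup.norm, FreeGroup.norm]; omega
  · push Not at h1
    obtain ⟨a, ha, b, hb, hab⟩ := h1
    subst hab
    obtain ⟨A, hA⟩ := List.getLast?_eq_some_iff.1 ha
    obtain ⟨B, hB⟩ := List.getLast?_eq_some_iff.1 hb
    have rA : FreeGroup.IsReduced A := by
      rw [hA] at rx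
      exact List.IsChain.left_of_append rx
    have rB : FreeGroup.IsReduced B := by
      rw [hB] at ry
      exact List.IsChain.left_of_append ry
    have h3 : ∀ a' ∈ A.getLast?, ∀ b' ∈ B.getLast?, a' ≠ b' := by
      intro a' ha' b' hb' hab'
      subst hab'
      obtain ⟨A', hA'⟩ := List.getLast?_eq_some_iff.1 ha'
      obtain ⟨B', hB'⟩ := List.getLast?_eq_some_iff.1 hb'
      apply h
      refine ⟨A', B', a, a', ?_, ?_⟩
      · rw [hA, hA']; simp
      · rw [hB, hB']; simp
    have h4 := norm_mul_inv_of_last rA rB h3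
    have h5 : x * y⁻¹ = FreeGroup.mk A * (FreeGroup.mk B)⁻¹ := by
      rw [← hx, ← hy, hA, hB, ← FreeGroup.mul_mk, ← FreeGroup.mul_mk]; group
    rw [h5, h4, FreeGroup.norm, FreeGroup.norm, hA, hB]
    simp only [List.length_append, List.length_singleton]; omega

theorem two_letters {q : Fin 4} {k : ℤ} {A : List (Fin 3 × Bool)} {a b : Fin 3 × Bool}
    (h : (pt q k).toWord = A ++ [b, a]) :
    (0 < k ∧ a = (lt q (k - 2 + 1), true) ∧ b = (lt q (k - 2), true)) ∨
      (k < 0 ∧ a = (lt q k, false) ∧ b = (lt q (k + 1), false)) := by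
  rcases lt_trichotomy 0 k with hk | rfl | hk
  · left
    obtain ⟨n, hn⟩ : ∃ n : ℕ, k = 0 + (n : ℤ) := ⟨k.toNat, by omega⟩
    have h1 : (pt q k).toWord = wd q 0 n := by
      have h2 := toWord_add q 0 n
      rwa [pt_zero, inv_one, one_mul, ← hn] at h2
    rw [h1] at h
    have hl := congrArg List.length h
    rw [length_wd, List.length_append] at hl
    obtain ⟨m, hm⟩ : ∃ m : ℕ, n = m + 1 + 1 := ⟨A.length, hl⟩
    rw [hm, wd_succ, wd_succ, List.append_assoc] at h
    have h2 := (List.append_inj' h rfl).2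
    have h3 : k - 2 = (0 : ℤ) + m := by omega
    have h4 : k - 2 + 1 = (0 : ℤ) + ((m + 1 : ℕ) : ℤ) := by omega
    rw [h4, h3]
    simp only [List.cons_append, List.nil_append, List.cons.injEq, and_true] at h2
    exact ⟨hk, h2.2.symm, h2.1.symm⟩
  · rw [pt_zero, FreeGroup.toWord_one] at h
    simp at h
  · right
    obtain ⟨n, hn⟩ : ∃ n : ℕ, (0 : ℤ) = k + (n : ℤ) := ⟨(-k).toNat, by omega⟩
    have h1 : (pt q k).toWord = FreeGroup.invRev (wd q k n) := by
      have h2 := toWord_add' q k n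
      rwa [← hn, pt_zero, inv_one, one_mul] at h2
    rw [h1] at h
    have hl := congrArg List.length h
    rw [FreeGroup.invRev_length, length_wd, List.length_append] at hl
    obtain ⟨m, hm⟩ : ∃ m : ℕ, n = m + 1 + 1 := ⟨A.length, hl⟩
    rw [hm, wd_succ', wd_succ'] at h
    have h2 : FreeGroup.invRev ((lt q k, true) :: (lt q (k + 1), true) :: wd q (k + 1 + 1) m) =
        FreeGroup.invRev (wd q (k + 1 + 1) m) ++ [(lt q (k + 1), false), (lt q k, false)] := by
      simp [FreeGroup.invRev]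
    rw [h2] at h
    have h3 := (List.append_inj' h rfl).2
    simp only [List.cons.injEq, and_true] at h3
    exact ⟨hk, h3.2.symm, h3.1.symm⟩

theorem lt_two {p q : Fin 4} {m m' : ℤ} (h1 : lt q m = lt p m') (h2 : lt q (m + 1) = lt p (m' + 1)) :
    p = q ∧ (q = 2 ∨ q = 3 → m % 2 = m' % 2) := by
  rcases Int.emod_two_eq_zero_or_one m with hm | hm <;>
  rcases Int.emod_two_eq_zero_or_one m' with hm' | hm'
  · have e1 : (m + 1) % 2 = 1 := by omega
    have e2 : (m' + 1) % 2 = 1 := by omega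
    fin_cases p <;> fin_cases q <;> simp [lt, hm, hm', e1, e2] at h1 h2 ⊢
  · have e1 : (m + 1) % 2 = 1 := by omega
    have e2 : (m' + 1) % 2 = 0 := by omega
    fin_cases p <;> fin_cases q <;> simp [lt, hm, hm', e1, e2] at h1 h2 ⊢
  · have e1 : (m + 1) % 2 = 0 := by omega
    have e2 : (m' + 1) % 2 = 1 := by omega
    fin_cases p <;> fin_cases q <;> simp [lt, hm, hm', e1, e2] at h1 h2 ⊢
  · have e1 : (m + 1) % 2 = 0 := by omega
    have e2 : (m' + 1) % 2 = 0 := by omega
    fin_cases p <;> fin_cases q <;> simp [lt, hm, hm', e1, e2] at h1 h2 ⊢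

theorem mem_zpowers {q : Fin 4} {k i : ℤ} (h : q = 2 ∨ q = 3 → k % 2 = i % 2) :
    pt q k * (pt q i)⁻¹ ∈ Subgroup.zpowers (c q) := by
  have h1 : ∃ m : ℤ, k = i + m * wid q := by
    fin_cases q
    · exact ⟨k - i, by simp [wid]⟩
    · exact ⟨k - i, by simp [wid]⟩
    · have := h (Or.inl rfl)
      exact ⟨(k - i) / 2, by simp [wid]; omega⟩
    · have := h (Or.inr rfl)
      exact ⟨(k - i) / 2, by simp [wid]; omega⟩
  obtain ⟨m, hm⟩ := h1
  rw [hm, ← pt_shift, mul_assoc, mul_inv_cancel, mul_one]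
  exact Subgroup.zpow_mem_zpowers _ _

end LineF

/-- two different lines through a common point share at most one edge -/
theorem norm_pt_mul_inv {p q : Fin 4} {k i : ℤ}
    (h : ¬ (p = q ∧ pt q k * (pt p i)⁻¹ ∈ Subgroup.zpowers (c p))) :
    k.natAbs + i.natAbs ≤ (pt q k * (pt p i)⁻¹).norm + 2 := by
  have h1 : (pt q k).norm = k.natAbs := by
    have h2 := norm_pt q 0 k
    rwa [pt_zero, inv_one, one_mul, sub_zero] at h2
  have h1' : (pt p i).norm = i.natAbs := by
    have h2 := norm_pt p 0 i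
    rwa [pt_zero, inv_one, one_mul, sub_zero] at h2
  rw [← h1, ← h1']
  apply norm_mul_inv_ge
  rintro ⟨A, B, a, b, hA, hB⟩
  apply h
  have key : p = q ∧ (q = 2 ∨ q = 3 → k % 2 = i % 2) := by
    rcases two_letters hA with ⟨hk, ha, hb⟩ | ⟨hk, ha, hb⟩ <;>
    rcases two_letters hB with ⟨hi, ha', hb'⟩ | ⟨hi, ha', hb'⟩
    · rw [ha] at ha'; rw [hb] at hb'
      simp only [Prod.mk.injEq, and_true] at ha' hb'
      obtain ⟨h2, h3⟩ := lt_two hb' ha'
      exact ⟨h2, fun h4 => by have := h3 h4; omega⟩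
    · rw [ha] at ha'; simp at ha'
    · rw [ha] at ha'; simp at ha'
    · rw [ha] at ha'; rw [hb] at hb'
      simp only [Prod.mk.injEq, and_true] at ha' hb'
      exact lt_two ha' hb'
  obtain ⟨h2, h3⟩ := key
  subst h2
  exact ⟨rfl, mem_zpowers h3⟩

/-- the distance of lines does not depend on representatives -/
theorem Dst_smul {p q : Fin 4} {f : F} {m : ℕ} (a b : ℤ) :
    Dst p (c p ^ a * f * c q ^ b) q m ↔ Dst p f q m := by
  constructor
  · intro h x hx y hy
    have h1 := h (c p ^ a * x) ((Line_smul_c p a x).2 hx) (c q ^ (-b) * y)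
      ((Line_smul_c q (-b) y).2 hy)
    have h2 : (c p ^ a * x)⁻¹ * (c p ^ a * f * c q ^ b) * (c q ^ (-b) * y) = x⁻¹ * f * y := by
      group
    rwa [h2] at h1
  · intro h x hx y hy
    have h1 := h (c p ^ (-a) * x) ((Line_smul_c p (-a) x).2 hx) (c q ^ b * y)
      ((Line_smul_c q b y).2 hy)
    have h2 : (c p ^ (-a) * x)⁻¹ * f * (c q ^ b * y) = x⁻¹ * (c p ^ a * f * c q ^ b) * y := by
      group
    rwa [h2] at h1

theorem Dst_mono {p q : Fin 4} {f : F} {m m' : ℕ} (h : m' ≤ m) (hd : Dst p f q m) :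
    Dst p f q m' := fun x hx y hy => h.trans (hd x hx y hy)

end Pool.Agent.VSB
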