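import Pool.Agent.VSB.Axis
import Pool.Agent.VSB.LineF
import Pool.Agent.VSB.Auts

/-! # VSB/FD: automorphisms preserving the multicurve `γ`

`FD` : an automorphism `θ` of `F` preserving the boundary classes, `θ (c p) = k p * c (π p) * (k p)⁻¹`, with `π` commuting with
`bar`. `exists_aut`: define `u` by `S j ↦ inc (θ (of j))`, `N 0 ↦ inc (k 0) * t (π 0) * (inc (k 1))⁻¹`,
`N 1 ↦ inc (k 2) * t (π 2) * (inc (k 3))⁻¹`, `N 2 ↦ (u (S 1))⁻¹ * u (N 1) * u (S 0)`; the relations follow from `c_t`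
(`rel1` is the definition of `u (N 2)`; `rel2` is equivalent to `S 1 * S 2 * N 1 = N 1 * (S 0 * S 2)`). The inverse is the
endomorphism of the inverse data `θ⁻¹, π⁻¹, k' p = (θ⁻¹ (k (π⁻¹ p)))⁻¹` (`π` is bijective as `Fin 4` is finite).
`hax`: conjugate by `g₀ = inc (k (bar (p (-1))))`: `g' j = g₀⁻¹ * u (g j) * inc (k (bar (p (j-1))))`. Reducedness: `π` injective,
and `θ f ∈ zpowers (k c k⁻¹)`.
`aT_zpow`: `aT ^ m` is the automorphism of `twD m` (check on `S j`, `N j`; `c_t`).
`inum_aut`: lower/upper: if `1 ≤ ell x` take an axis of a conjugate (`HAx` from `Core` is not needed: use words: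
`N 0 ↦ inc _ * t (π 0) * inc _`, `inum_aut_le` for `u` and for its inverse). -/

set_option autoImplicit false

namespace Pool.Agent.VSB

/-- data of an automorphism preserving `γ` and the direction up -/
structure FD where
  θ : MulAut F
  π : Fin 4 → Fin 4
  k : Fin 4 → F
  hπ : ∀ p, π (bar p) = bar (π p)
  inj : Function.Injective π
  hc : ∀ p, θ (c p) = k p * c (π p) * (k p)⁻¹

namespace FD

variable (D : FD)

/-- images of the crossings -/
def T (D : FD) (p : Fin 4) : Pi := inc (D.k p) * t (D.π p) * (inc (D.k (bar p)))⁻¹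

theorem T_bar (p : Fin 4) : D.T (bar p) = (D.T p)⁻¹ := by
  unfold T
  rw [D.hπ, t_bar, bar_bar]
  group

theorem T_comm (p : Fin 4) : inc (D.θ (c p)) * D.T p = D.T p * inc (D.θ (c (bar p))) := by
  have h := c_t (D.π p)
  rw [← D.hπ] at h
  unfold T
  rw [D.hc, D.hc, map_mul, map_mul, map_mul, map_mul, map_inv, map_inv]
  calc inc (D.k p) * inc (c (D.π p)) * (inc (D.k p))⁻¹ *
        (inc (D.k p) * t (D.π p) * (inc (D.k (bar p)))⁻¹)
      = inc (D.k p) * (inc (c (D.π p)) * t (D.π p)) * (inc (D.k (bar p)))⁻¹ := by group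
    _ = inc (D.k p) * (t (D.π p) * inc (c (D.π (bar p)))) * (inc (D.k (bar p)))⁻¹ := by rw [h]
    _ = _ := by group

/-- images of the horizontal edges -/
def sim (D : FD) (j : Fin 3) : Pi := inc (D.θ (FreeGroup.of j))

/-- images of the vertical edges -/
def nim (D : FD) : Fin 3 → Pi := ![D.T 0, D.T 2, (D.sim 1)⁻¹ * D.T 2 * D.sim 0]

theorem im_rel0 : D.sim 0 * D.nim 0 = D.nim 0 * D.sim 1 := D.T_comm 0

theorem im_rel1 : D.sim 1 * D.nim 2 = D.nim 1 * D.sim 0 := by
  show D.sim 1 * ((D.sim 1)⁻¹ * D.T 2 * D.sim 0) = D.T 2 * D.sim 0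
  group

theorem im_rel2 : D.sim 2 * D.nim 1 = D.nim 2 * D.sim 2 := by
  show D.sim 2 * D.T 2 = (D.sim 1)⁻¹ * D.T 2 * D.sim 0 * D.sim 2
  have h : inc (D.θ (FreeGroup.of 1 * FreeGroup.of 2)) * D.T 2 =
      D.T 2 * inc (D.θ (FreeGroup.of 0 * FreeGroup.of 2)) := D.T_comm 2
  rw [map_mul, map_mul, map_mul, map_mul] at h
  have h' : D.sim 1 * D.sim 2 * D.T 2 = D.T 2 * (D.sim 0 * D.sim 2) := h
  calc D.sim 2 * D.T 2 = (D.sim 1)⁻¹ * (D.sim 1 * D.sim 2 * D.T 2) := by group
    _ = _ := by rw [h']; group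

/-- the endomorphism -/
def endo (D : FD) : Pi →* Pi := toHom D.sim D.nim D.im_rel0 D.im_rel1 D.im_rel2

theorem endo_S (j : Fin 3) : D.endo (S j) = inc (D.θ (FreeGroup.of j)) := toHom_S _ _ _ j

theorem endo_inc (f : F) : D.endo (inc f) = inc (D.θ f) := by
  have h : D.endo.comp inc = inc.comp D.θ.toMonoidHom := by
    apply FreeGroup.ext_hom
    intro j
    show D.endo (inc (FreeGroup.of j)) = inc (D.θ (FreeGroup.of j))
    rw [inc_of, endo_S]
  exact DFunLike.congr_fun h f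

theorem endo_t0 : D.endo (t 0) = D.T 0 := toHom_N D.im_rel0 D.im_rel1 D.im_rel2 0

theorem endo_t2 : D.endo (t 2) = D.T 2 := toHom_N D.im_rel0 D.im_rel1 D.im_rel2 1

theorem endo_t (p : Fin 4) : D.endo (t p) = D.T p := by
  fin_cases p
  · exact D.endo_t0
  · show D.endo (t (bar 0)) = D.T (bar 0)
    rw [t_bar, map_inv, D.endo_t0, D.T_bar]
  · exact D.endo_t2
  · show D.endo (t (bar 2)) = D.T (bar 2)
    rw [t_bar, map_inv, D.endo_t2, D.T_bar]

/-- homomorphisms which agree on the `S j` and the `t p` are equal -/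
theorem hom_ext_t {G : Type*} [Group G] {φ ψ : Pi →* G} (hS : ∀ j, φ (S j) = ψ (S j))
    (ht : ∀ p, φ (t p) = ψ (t p)) : φ = ψ := by
  apply hom_ext hS
  intro j
  have h0 : φ (N 0) = ψ (N 0) := ht 0
  have h1 : φ (N 1) = ψ (N 1) := ht 2
  fin_cases j
  · exact h0
  · exact h1
  · show φ (N 2) = ψ (N 2)
    rw [N2_eq]
    simp only [map_mul, map_inv, h1, hS]

theorem comp_endo {D E : FD} (h1 : ∀ f, E.θ (D.θ f) = f) (h2 : ∀ p, E.π (D.π p) = p)
    (h3 : ∀ p, E.k (D.π p) = (E.θ (D.k p))⁻¹) : E.endo.comp D.endo = MonoidHom.id Pi := by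
  apply hom_ext_t
  · intro j
    rw [MonoidHom.comp_apply, endo_S, endo_inc, h1, inc_of, MonoidHom.id_apply]
  · intro p
    rw [MonoidHom.comp_apply, endo_t, T, map_mul, map_mul, map_inv, endo_inc, endo_inc, endo_t, T,
      ← D.hπ, h2, h3, h3, map_inv, map_inv, MonoidHom.id_apply]
    group

/-- the permutation of the boundary lines -/
noncomputable def perm (D : FD) : Equiv.Perm (Fin 4) :=
  Equiv.ofBijective D.π (Finite.injective_iff_bijective.1 D.inj)

theorem perm_apply (p : Fin 4) : D.perm p = D.π p := rfl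

theorem π_symm (p : Fin 4) : D.π (D.perm.symm p) = p := D.perm.apply_symm_apply p

theorem symm_π (p : Fin 4) : D.perm.symm (D.π p) = p := D.perm.symm_apply_apply p

/-- the inverse data -/
noncomputable def inv (D : FD) : FD where
  θ := D.θ⁻¹
  π := D.perm.symm
  k := fun p => (D.θ⁻¹ (D.k (D.perm.symm p)))⁻¹
  hπ := fun p => by
    apply D.inj
    rw [D.π_symm, D.hπ, D.π_symm]
  inj := D.perm.symm.injective
  hc := fun p => by
    apply D.θ.injective
    rw [map_mul, map_mul, D.hc, D.π_symm, map_inv, map_inv, map_inv]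
    have h : ∀ f, D.θ (D.θ⁻¹ f) = f := fun f => D.θ.apply_symm_apply f
    rw [h, h]
    group

theorem inv_θ (f : F) : D.inv.θ (D.θ f) = f := D.θ.symm_apply_apply f

theorem θ_inv (f : F) : D.θ (D.inv.θ f) = f := D.θ.apply_symm_apply f

theorem inv_comp : D.inv.endo.comp D.endo = MonoidHom.id Pi := by
  apply comp_endo D.inv_θ D.symm_π
  intro p
  show (D.θ⁻¹ (D.k (D.perm.symm (D.π p))))⁻¹ = _
  rw [D.symm_π]
  rfl

theorem comp_inv : D.endo.comp D.inv.endo = MonoidHom.id Pi := by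
  apply comp_endo D.θ_inv D.π_symm
  intro p
  show D.k (D.perm.symm p) = (D.θ ((D.θ⁻¹ (D.k (D.perm.symm p)))⁻¹))⁻¹
  have h : ∀ f, D.θ (D.θ⁻¹ f) = f := fun f => D.θ.apply_symm_apply f
  rw [map_inv, h, inv_inv]

theorem exists_aut : ∃ u : MulAut Pi, (∀ f, u (inc f) = inc (D.θ f)) ∧
    ∀ p, u (t p) = inc (D.k p) * t (D.π p) * (inc (D.k (bar p)))⁻¹ := by
  refine ⟨MonoidHom.toMulEquiv D.endo D.inv.endo D.inv_comp D.comp_inv, fun f => ?_, fun p => ?_⟩
  · exact D.endo_inc f
  · exact D.endo_t p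

noncomputable def aut : MulAut Pi := D.exists_aut.choose

theorem aut_inc (f : F) : D.aut (inc f) = inc (D.θ f) := D.exists_aut.choose_spec.1 f

theorem aut_t (p : Fin 4) : D.aut (t p) = inc (D.k p) * t (D.π p) * (inc (D.k (bar p)))⁻¹ :=
  D.exists_aut.choose_spec.2 p

/-- an automorphism is determined by its values on `inc F` and the `t p` -/
theorem eq_aut {u : MulAut Pi} (h1 : ∀ j, u (S j) = inc (D.θ (FreeGroup.of j)))
    (h2 : ∀ p, u (t p) = inc (D.k p) * t (D.π p) * (inc (D.k (bar p)))⁻¹) : u = D.aut := by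
  apply MulEquiv.toMonoidHom_injective
  apply hom_ext_t
  · intro j
    show u (S j) = D.aut (S j)
    rw [h1, ← inc_of, aut_inc]
  · intro p
    show u (t p) = D.aut (t p)
    rw [h2, aut_t]

theorem hax {x : Pi} (H : HAx x) : ∃ (g : Pi) (H' : HAx (g⁻¹ * D.aut x * g)), H'.n = H.n ∧
    (∀ j, H'.p j = D.π (H.p j)) ∧
    ∀ j, H'.f j = (D.k (bar (H.p (j - 1))))⁻¹ * D.θ (H.f j) * D.k (H.p j) := by
  refine ⟨inc (D.k (bar (H.p (-1)))), ?_⟩
  refine ⟨{
    n := H.n
    pos := H.pos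
    f := fun j => (D.k (bar (H.p (j - 1))))⁻¹ * D.θ (H.f j) * D.k (H.p j)
    p := fun j => D.π (H.p j)
    g := fun j => (inc (D.k (bar (H.p (-1)))))⁻¹ * D.aut (H.g j) * inc (D.k (bar (H.p (j - 1))))
    g0 := ?_
    step := ?_
    per := ?_
    perf := ?_
    perp := ?_
    red := ?_ }, rfl, fun _ => rfl, fun _ => rfl⟩
  · rw [H.g0, map_one, zero_sub]
    group
  · intro j
    rw [H.step, map_mul, map_mul, aut_inc, aut_t, add_sub_cancel_right, map_mul, map_mul, map_inv]
    group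
  · intro j
    have h1 : j + (H.n : ℤ) - 1 = (j - 1) + H.n := by ring
    rw [H.per, map_mul, h1, H.perp]
    group
  · intro j
    have h1 : j + (H.n : ℤ) - 1 = (j - 1) + H.n := by ring
    simp only [H.perf, H.perp, h1]
  · intro j
    simp only [H.perp]
  · rintro j ⟨hp, hf⟩
    have hp' : H.p (j + 1) = bar (H.p j) := by
      apply D.inj
      rw [hp, D.hπ]
    apply H.red j
    refine ⟨hp', ?_⟩
    rw [add_sub_cancel_right, ← hp'] at hf
    obtain ⟨m, hm⟩ := Subgroup.mem_zpowers_iff.1 hf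
    refine Subgroup.mem_zpowers_iff.2 ⟨m, ?_⟩
    apply D.θ.injective
    rw [map_zpow, D.hc, conj_zpow, hm]
    group

/-- the word in the letters `s` -/
def wF (L : List (Fin 3 × Bool)) : Wd := L.map (fun a => (Lt.s a.1, a.2))

theorem ev_wF (L : List (Fin 3 × Bool)) : ev (wF L) = inc (FreeGroup.mk L) := by
  induction L with
  | nil => rw [← FreeGroup.one_eq_mk, map_one]; rfl
  | cons a L ih =>
    have h1 : FreeGroup.mk (a :: L) = FreeGroup.mk [a] * FreeGroup.mk L := by
      rw [FreeGroup.mul_mk]; rfl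
    have h2 : ev (wF (a :: L)) = stp (Lt.s a.1, a.2) * ev (wF L) := by
      show ev ((Lt.s a.1, a.2) :: wF L) = _
      rw [ev_cons]
    rw [h1, h2, map_mul, ih]
    congr 1
    obtain ⟨i, b⟩ := a
    cases b
    · show (S i)⁻¹ = _
      have h3 : FreeGroup.mk [(i, false)] = (FreeGroup.of i)⁻¹ := rfl
      rw [h3, map_inv, inc_of]
    · show S i = inc (FreeGroup.of i)
      rw [inc_of]

theorem hc_wF (b : Fin 2) (L : List (Fin 3 × Bool)) : VSB.hc b (wF L) = 0 := by
  unfold VSB.hc wF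
  rw [List.countP_eq_zero]
  intro a ha
  rw [List.mem_map] at ha
  obtain ⟨a', _, rfl⟩ := ha
  simp [Lt.hty]

theorem exists_wF (f : F) : ∃ w : Wd, ev w = inc f ∧ ∀ b, VSB.hc b w = 0 :=
  ⟨wF f.toWord, by rw [ev_wF, FreeGroup.mk_toWord], fun b => hc_wF b _⟩

theorem exists_wt (p : Fin 4) : ∃ w : Wd, ev w = t p ∧ ∀ b, VSB.hc b w = if kind p = b then 1 else 0 := by
  refine ⟨[rung p 0], ?_, ?_⟩
  · fin_cases p <;> simp [ev, stp, rung, Lt.val, t]
  · intro b
    fin_cases p <;> fin_cases b <;> simp [VSB.hc, rung, Lt.hty, kind]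

theorem exists_wT (p : Fin 4) : ∃ w : Wd, ev w = D.T p ∧
    ∀ b, VSB.hc b w = if kind (D.π p) = b then 1 else 0 := by
  obtain ⟨w1, h1, h1'⟩ := exists_wF (D.k p)
  obtain ⟨w2, h2, h2'⟩ := exists_wt (D.π p)
  obtain ⟨w3, h3, h3'⟩ := exists_wF (D.k (bar p))⁻¹
  refine ⟨w1 ++ w2 ++ w3, ?_, fun b => ?_⟩
  · rw [ev_append, ev_append, h1, h2, h3, map_inv]
    rfl
  · rw [hc_append, hc_append, h1', h2', h3']
    simp

theorem exists_wl (a b : Fin 2) (h : ∀ p, kind (D.π p) = b ↔ kind p = a) (l : Lt) :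
    ∃ w : Wd, ev w = D.aut l.val ∧ VSB.hc b w ≤ if l.hty = some a then 1 else 0 := by
  cases l with
  | s j =>
    obtain ⟨w, hw, hw'⟩ := exists_wF (D.θ (FreeGroup.of j))
    refine ⟨w, ?_, ?_⟩
    · show ev w = D.aut (S j)
      rw [hw, ← inc_of, aut_inc]
    · rw [hw']
      exact Nat.zero_le _
  | n j =>
    have hN0 : D.aut (N 0) = D.T 0 := D.aut_t 0
    have hN1 : D.aut (N 1) = D.T 2 := D.aut_t 2
    fin_cases j
    · obtain ⟨w, hw, hw'⟩ := D.exists_wT 0
      refine ⟨w, ?_, ?_⟩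
      · show ev w = D.aut (N 0)
        rw [hw, hN0]
      · rw [hw', if_congr (h 0) rfl rfl]
        show (if (0 : Fin 2) = a then 1 else 0) ≤ if (some (0 : Fin 2)) = some a then 1 else 0
        simp
    · obtain ⟨w, hw, hw'⟩ := D.exists_wT 2
      refine ⟨w, ?_, ?_⟩
      · show ev w = D.aut (N 1)
        rw [hw, hN1]
      · rw [hw', if_congr (h 2) rfl rfl]
        show (if (1 : Fin 2) = a then 1 else 0) ≤ if (some (1 : Fin 2)) = some a then 1 else 0
        simp
    · obtain ⟨w, hw, hw'⟩ := D.exists_wT 2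
      obtain ⟨w1, h1, h1'⟩ := exists_wF (D.θ (FreeGroup.of 1))⁻¹
      obtain ⟨w2, h2, h2'⟩ := exists_wF (D.θ (FreeGroup.of 0))
      refine ⟨w1 ++ w ++ w2, ?_, ?_⟩
      · show _ = D.aut (N 2)
        rw [ev_append, ev_append, h1, h2, hw, N2_eq, map_mul, map_mul, hN1, map_inv, map_inv,
          ← inc_of, ← inc_of, aut_inc, aut_inc]
      · rw [hc_append, hc_append, hw', h1', h2', if_congr (h 2) rfl rfl]
        show 0 + (if (1 : Fin 2) = a then 1 else 0) + 0 ≤
          if (some (1 : Fin 2)) = some a then 1 else 0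
        simp

theorem inum_aut_le' (a b : Fin 2) (h : ∀ p, kind (D.π p) = b ↔ kind p = a) (x : Pi) :
    inum b (D.aut x) ≤ inum a x := by
  choose wd hwd hh using D.exists_wl a b h
  exact inum_aut_le D.aut.toMonoidHom wd hwd a b hh x

theorem inv_aut_apply (x : Pi) : D.inv.aut (D.aut x) = x := by
  have h : ∀ E : FD, E.aut.toMonoidHom = E.endo := by
    intro E
    apply hom_ext_t
    · intro j
      show E.aut (S j) = _
      rw [E.endo_S, ← inc_of, aut_inc]
    · intro p
      show E.aut (t p) = _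
      rw [E.endo_t, aut_t]
      rfl
  have h1 : (D.inv.aut.toMonoidHom.comp D.aut.toMonoidHom) x = x := by
    rw [h, h, D.inv_comp]
    rfl
  exact h1

/-- if `π` preserves the kind -/
theorem inum_aut_eq (a b : Fin 2) (h : ∀ p, kind (D.π p) = b ↔ kind p = a) (x : Pi) :
    inum b (D.aut x) = inum a x := by
  apply le_antisymm (D.inum_aut_le' a b h x)
  have h1 := D.inv.inum_aut_le' b a (fun p => by
    have := h (D.perm.symm p)
    rw [D.π_symm] at this
    exact this.symm) (D.aut x)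
  rwa [D.inv_aut_apply] at h1

theorem ell_aut (x : Pi) : ell (D.aut x) = ell x := by
  have hk : ∀ q : Fin 4, kind (bar q) = kind q := by decide
  have hkk : ∀ q q' : Fin 4, kind q = kind q' → q = q' ∨ q = bar q' := by decide
  have h1 : kind (D.π 1) = kind (D.π 0) := by
    have : D.π 1 = bar (D.π 0) := D.hπ 0
    rw [this, hk]
  have h3 : kind (D.π 3) = kind (D.π 2) := by
    have : D.π 3 = bar (D.π 2) := D.hπ 2
    rw [this, hk]
  have h02 : kind (D.π 0) ≠ kind (D.π 2) := by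
    intro h
    rcases hkk _ _ h with h | h
    · exact absurd (D.inj h) (by decide)
    · rw [← D.hπ] at h
      exact absurd (D.inj h) (by decide)
  have hfin : ∀ a : Fin 2, a = 0 ∨ a = 1 := by decide
  rcases hfin (kind (D.π 0)) with h0 | h0
  · have h2 : kind (D.π 2) = 1 := by
      rcases hfin (kind (D.π 2)) with h | h
      · rw [h0, h] at h02; exact absurd rfl h02
      · exact h
    rw [h0] at h1
    rw [h2] at h3
    unfold ell
    rw [D.inum_aut_eq 0 0, D.inum_aut_eq 1 1]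
    · intro p
      fin_cases p
      · show kind (D.π 0) = 1 ↔ kind 0 = 1
        rw [h0]; decide
      · show kind (D.π 1) = 1 ↔ kind 1 = 1
        rw [h1]; decide
      · show kind (D.π 2) = 1 ↔ kind 2 = 1
        rw [h2]; decide
      · show kind (D.π 3) = 1 ↔ kind 3 = 1
        rw [h3]; decide
    · intro p
      fin_cases p
      · show kind (D.π 0) = 0 ↔ kind 0 = 0
        rw [h0]; decide
      · show kind (D.π 1) = 0 ↔ kind 1 = 0
        rw [h1]; decide
      · show kind (D.π 2) = 0 ↔ kind 2 = 0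
        rw [h2]; decide
      · show kind (D.π 3) = 0 ↔ kind 3 = 0
        rw [h3]; decide
  · have h2 : kind (D.π 2) = 0 := by
      rcases hfin (kind (D.π 2)) with h | h
      · exact h
      · rw [h0, h] at h02; exact absurd rfl h02
    rw [h0] at h1
    rw [h2] at h3
    unfold ell
    rw [D.inum_aut_eq 1 0, D.inum_aut_eq 0 1, add_comm]
    · intro p
      fin_cases p
      · show kind (D.π 0) = 1 ↔ kind 0 = 0
        rw [h0]; decide
      · show kind (D.π 1) = 1 ↔ kind 1 = 0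
        rw [h1]; decide
      · show kind (D.π 2) = 1 ↔ kind 2 = 0
        rw [h2]; decide
      · show kind (D.π 3) = 1 ↔ kind 3 = 0
        rw [h3]; decide
    · intro p
      fin_cases p
      · show kind (D.π 0) = 0 ↔ kind 0 = 1
        rw [h0]; decide
      · show kind (D.π 1) = 0 ↔ kind 1 = 1
        rw [h1]; decide
      · show kind (D.π 2) = 0 ↔ kind 2 = 1
        rw [h2]; decide
      · show kind (D.π 3) = 0 ↔ kind 3 = 1
        rw [h3]; decide

end FD

/-- the twist data -/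
def twk (m : ℤ) (p : Fin 4) : F := if p = 0 ∨ p = 2 then c p ^ m else 1

def twD (m : ℤ) : FD where
  θ := 1
  π := id
  k := twk m
  hπ := fun _ => rfl
  inj := fun _ _ h => h
  hc := fun p => by
    show c p = twk m p * c p * (twk m p)⁻¹
    unfold twk
    split_ifs
    · rw [← zpow_add_one, ← zpow_neg, ← zpow_add]; simp
    · simp

theorem zpow_fix (u : MulAut Pi) {a : Pi} (ha : u a = a) (m : ℤ) : (u ^ m) a = a := by
  have h : u ∈ MulAction.stabilizer (MulAut Pi) a := ha
  exact Subgroup.zpow_mem _ h m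

theorem zpow_tw (u : MulAut Pi) {a b : Pi} (ha : u a = a) (hb : u b = a * b) (m : ℤ) :
    (u ^ m) b = a ^ m * b := by
  induction m using Int.induction_on with
  | zero => simp
  | succ n ih =>
    rw [zpow_add_one, MulAut.mul_apply, hb, map_mul, zpow_fix u ha, ih, zpow_add_one,
      ← mul_assoc]
    congr 1
    rw [← zpow_one_add, ← zpow_add_one, add_comm]
  | pred n ih =>
    have h1 : u⁻¹ b = a⁻¹ * b := by
      have h2 : u (a⁻¹ * b) = b := by
        rw [map_mul, map_inv, ha, hb, inv_mul_cancel_left]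
      have h3 : u⁻¹ (u (a⁻¹ * b)) = a⁻¹ * b := u.symm_apply_apply _
      rwa [h2] at h3
    rw [zpow_sub_one, MulAut.mul_apply, h1, map_mul, map_inv, zpow_fix u ha, ih, zpow_sub_one,
      ← mul_assoc]
    congr 1
    rw [← zpow_neg_one, ← zpow_add, ← zpow_add, add_comm]

theorem aT_zpow (m : ℤ) : aT ^ m = (twD m).aut := by
  have h0 : (aT ^ m) (N 0) = S 0 ^ m * N 0 := zpow_tw aT (aT_S 0) aT_N0 m
  have h1 : (aT ^ m) (N 1) = (S 1 * S 2) ^ m * N 1 :=
    zpow_tw aT (by rw [map_mul, aT_S, aT_S]) aT_N1 m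
  apply FD.eq_aut
  · intro j
    rw [zpow_fix aT (aT_S j)]
    show S j = inc (FreeGroup.of j)
    rw [inc_of]
  · intro p
    have hc0 : inc (c 0) = S 0 := inc_of 0
    have hc2 : inc (c 2) = S 1 * S 2 := by
      show inc (FreeGroup.of 1 * FreeGroup.of 2) = _
      rw [map_mul, inc_of, inc_of]
    have k0 : (twD m).k 0 = c 0 ^ m := by
      show twk m 0 = _
      simp [twk]
    have k1 : (twD m).k 1 = 1 := by
      show twk m 1 = _
      simp [twk]
    have k2 : (twD m).k 2 = c 2 ^ m := by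
      show twk m 2 = _
      simp [twk]
    have k3 : (twD m).k 3 = 1 := by
      show twk m 3 = _
      simp [twk]
    fin_cases p
    · show (aT ^ m) (N 0) = inc ((twD m).k 0) * N 0 * (inc ((twD m).k 1))⁻¹
      rw [h0, k0, k1, map_zpow, hc0, map_one]
      group
    · show (aT ^ m) (N 0)⁻¹ = inc ((twD m).k 1) * (N 0)⁻¹ * (inc ((twD m).k 0))⁻¹
      rw [map_inv, h0, k0, k1, map_zpow, hc0, map_one]
      group
    · show (aT ^ m) (N 1) = inc ((twD m).k 2) * N 1 * (inc ((twD m).k 3))⁻¹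
      rw [h1, k2, k3, map_zpow, hc2, map_one]
      group
    · show (aT ^ m) (N 1)⁻¹ = inc ((twD m).k 3) * (N 1)⁻¹ * (inc ((twD m).k 2))⁻¹
      rw [map_inv, h1, k2, k3, map_zpow, hc2, map_one]
      group

end Pool.Agent.VSB
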