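import Pool.Agent.VSB.Vert

/-! # VSB/FInj: the horizontal edges generate a free group

`Pi` acts on the set `F`: `S j` acts as the left multiplication by the `j`-th generator, and all `N j` act as
the automorphism exchanging the generators `0` and `1` and fixing `2`. -/

set_option autoImplicit false

namespace Pool.Agent.VSB

/-- the automorphism exchanging the generators `0` and `1` -/
noncomputable def fswap : MulAut F := FreeGroup.freeGroupCongr (Equiv.swap 0 1)

theorem fswap_of (j : Fin 3) : fswap (FreeGroup.of j) = FreeGroup.of (Equiv.swap 0 1 j) := by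
  simp [fswap]

/-- the action of `Pi` on `F` -/
noncomputable def actF : Pi →* Equiv.Perm F :=
  toHom (fun j => MulAction.toPerm (FreeGroup.of j)) (fun _ => fswap.toEquiv)
    (by
      ext x : 1
      show FreeGroup.of 0 * fswap x = fswap (FreeGroup.of 1 * x)
      rw [map_mul, fswap_of]; rfl)
    (by
      ext x : 1
      show FreeGroup.of 1 * fswap x = fswap (FreeGroup.of 0 * x)
      rw [map_mul, fswap_of]; rfl)
    (by
      ext x : 1
      show FreeGroup.of 2 * fswap x = fswap (FreeGroup.of 2 * x)
      rw [map_mul, fswap_of]; rfl)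

theorem actF_inc (f : F) : actF (inc f) = MulAction.toPermHom F F f := by
  have h : actF.comp inc = MulAction.toPermHom F F := by
    apply FreeGroup.ext_hom
    intro j
    show actF (inc (FreeGroup.of j)) = _
    rw [inc_of]
    exact toHom_S _ _ _ j
  exact DFunLike.congr_fun h f

theorem inc_injective : Function.Injective inc := by
  rw [injective_iff_map_eq_one]
  intro f hf
  have h := actF_inc f
  rw [hf, map_one] at h
  have h1 := DFunLike.congr_fun h (1 : F)
  have h2 : (1 : F) = f * 1 := h1
  rw [mul_one] at h2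
  exact h2.symm

theorem inc_eq_one {f : F} : inc f = 1 ↔ f = 1 := by
  rw [← map_one inc, inc_injective.eq_iff]

/-- the exponent sum -/
noncomputable def degF : F →* Multiplicative ℤ :=
  FreeGroup.lift (fun _ : Fin 3 => Multiplicative.ofAdd (1 : ℤ))

theorem degF_of (j : Fin 3) : degF (FreeGroup.of j) = Multiplicative.ofAdd (1 : ℤ) := by
  simp [degF]

/-- torsion free -/
theorem inc_c_zpow_inj (p : Fin 4) {k : ℤ} (h : c p ^ k = 1) : k = 0 := by
  have h1 : degF (c p) ^ k = 1 := by rw [← map_zpow, h, map_one]
  have h2 : ∃ m : ℤ, m ≠ 0 ∧ degF (c p) = Multiplicative.ofAdd m := by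
    fin_cases p
    · exact ⟨1, by norm_num, degF_of 0⟩
    · exact ⟨1, by norm_num, degF_of 1⟩
    · refine ⟨2, by norm_num, ?_⟩
      show degF (FreeGroup.of 1 * FreeGroup.of 2) = _
      rw [map_mul, degF_of, degF_of]; rfl
    · refine ⟨2, by norm_num, ?_⟩
      show degF (FreeGroup.of 0 * FreeGroup.of 2) = _
      rw [map_mul, degF_of, degF_of]; rfl
  obtain ⟨m, hm, h3⟩ := h2
  rw [h3, ← ofAdd_zsmul, ofAdd_eq_one, smul_eq_mul] at h1
  exact (mul_eq_zero.1 h1).resolve_right hm

end Pool.Agent.VSB
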