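import Pool.Agent.VSB.WallConn
import Pool.Agent.VSB.Auts

/-! # VSB/GoodSig: preimages of good sets under the positive automorphisms `sg k = aR ^ k * aT`

TABLES (all verified by computer).
`sg 0`: `S j ↦ S j`; `N0 ↦ S0N0`, `N1 ↦ S1S2N1`, `N2 ↦ S2S1N2`.
`sg 1`: `S0 ↦ S1S2N1`, `S1 ↦ S2S1N2`, `S2 ↦ S0N0`, `N0 ↦ S1N2`, `N1 ↦ S2S1N2N0`, `N2 ↦ S0N0S2N1`.
`sg 2`: `S0 ↦ S2S1N2N0`, `S1 ↦ S0N0S2N1`, `S2 ↦ S1N2`, `N0 ↦ S2N1`, `N1 ↦ S0N0N2`, `N2 ↦ S1N2N0`.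
`sg 3`: `S0 ↦ S0N0N2`, `S1 ↦ S1N2N0`, `S2 ↦ S2N1`, `N j ↦ N j`.
Images of letters under `u⁻¹`, `u = sg k`, as `P * Q⁻¹` | `P⁻¹ * Q` (`P`, `Q` positive words):
k=0: `S j = S j`; `N0 = N0 (S1)⁻¹ | (S0)⁻¹ N0`; `N1 = N1 (S0S2)⁻¹ | (S1S2)⁻¹ N1`; `N2 = N2 (S2S0)⁻¹ | (S2S1)⁻¹ N2`.
k=1: `S0 = S2S0 (N2)⁻¹ | (N2)⁻¹ S2S1`; `S1 = S0S2 (N1)⁻¹ | (N1)⁻¹ S1S2`; `S2 = S1 (N0)⁻¹ | (N0)⁻¹ S0`;
`N0 = N2 (S0)⁻¹ | (S1)⁻¹ N1`; `N1 = N0N2 (S2S0)⁻¹ | none`; `N2 = none | (S1S2)⁻¹ N1N0`.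
k=2: `S0 = none | (N1N0)⁻¹ S1S2`; `S1 = S2S0 (N0N2)⁻¹ | none`; `S2 = S0 (N2)⁻¹ | (N1)⁻¹ S1`;
`N0 = N1 (S2)⁻¹ | (S2)⁻¹ N2`; `N1 = N2N0 (S1)⁻¹ | (S1)⁻¹ N1N0`; `N2 = N0N2 (S0)⁻¹ | (S0)⁻¹ N0N1`.
k=3: `S0 = S0 (N0N2)⁻¹ | (N0N1)⁻¹ S0`; `S1 = S1 (N2N0)⁻¹ | (N1N0)⁻¹ S1`; `S2 = S2 (N1)⁻¹ | (N2)⁻¹ S2`; `N j = N j`.
(Verify: `u (P * Q⁻¹) = letter`. To get the values of `sg k` compute `aR ^ k` step by step from `aR_S`, `aR_N`, `aT_S`, `aT_N0` ...)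

PROOF of `good_sg`. `K' = {z | u z ∈ K}`. `mono`: `u (letter)` is a positive word. `conn`: lift a path in `K`; a step
`y → y * l` inside `K` must be replaced by a path in `K'` from `z` to `z * u⁻¹ l` (`z, z * u⁻¹ l ∈ K'`). If
`u⁻¹ l = P * Q⁻¹`: go from `z` along `P` and then backwards along `Q`: all vertices are in `K'` by `mono` (the second part
from its endpoint `z * u⁻¹ l`). If there is no such expression (`k = 1`, `l = N2`; `k = 2`, `l = S0`) use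
`N2 = S2 N1 S2⁻¹`, `S0 = N0 S1 N0⁻¹` : the intermediate points `u z * S2`, `u z * S2 N1 = (u z * N2) * S2` are in `K`.
`conn'`: the same with `P⁻¹ * Q` (`K'ᶜ` is closed under inverse letters); for `k = 1`, `l = N1`: `N1 = S2⁻¹ N2 S2`; for `k = 2`,
`l = S1`: `S1 = N0⁻¹ S0 N0`. -/

set_option autoImplicit false

open scoped Pointwise

namespace Pool.Agent.VSB

/-- positive elements -/
def Pos : Submonoid Pi := Submonoid.closure (Set.range (fun a : Lt => a.val))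

/-- positive elements containing a letter `n` -/
def PosN (x : Pi) : Prop := ∃ y ∈ Pos, ∃ (j : Fin 3), ∃ y' ∈ Pos, x = y * N j * y'


/-! ### the table -/

theorem sg0_apply (x : Pi) : sg 0 x = aT x := rfl
theorem sg1_apply (x : Pi) : sg 1 x = aR (aT x) := rfl
theorem sg2_apply (x : Pi) : sg 2 x = aR (aR (aT x)) := rfl
theorem sg3_apply (x : Pi) : sg 3 x = aR (aR (aR (aT x))) := rfl

theorem sg2_eq (x : Pi) : sg 2 x = aR (sg 1 x) := rfl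
theorem sg3_eq (x : Pi) : sg 3 x = aR (sg 2 x) := rfl

theorem w0 : N 0 * S 1 = S 0 * N 0 := rel0.symm
theorem w1 : N 1 * S 0 = S 1 * N 2 := rel1.symm
theorem w2 : N 2 * S 2 = S 2 * N 1 := rel2.symm
theorem w0' (x : Pi) : N 0 * (S 1 * x) = S 0 * (N 0 * x) := by rw [← mul_assoc, w0, mul_assoc]
theorem w1' (x : Pi) : N 1 * (S 0 * x) = S 1 * (N 2 * x) := by rw [← mul_assoc, w1, mul_assoc]
theorem w2' (x : Pi) : N 2 * (S 2 * x) = S 2 * (N 1 * x) := by rw [← mul_assoc, w2, mul_assoc]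

theorem v0 (x : Pi) : S 0 * (N 0 * ((S 1)⁻¹ * x)) = N 0 * x := by
  rw [← mul_assoc, rel0]; group
theorem v1 (x : Pi) : S 1 * (N 2 * ((S 0)⁻¹ * x)) = N 1 * x := by
  rw [← mul_assoc, rel1]; group
theorem v2 (x : Pi) : S 2 * (N 1 * ((S 2)⁻¹ * x)) = N 2 * x := by
  rw [← mul_assoc, rel2]; group

theorem aR_S0 : aR (S 0) = S 1 * S 2 * N 1 := aR_S 0
theorem aR_S1 : aR (S 1) = S 2 * S 1 * N 2 := aR_S 1
theorem aR_S2 : aR (S 2) = S 0 * N 0 := aR_S 2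
theorem aR_N0 : aR (N 0) = (S 2)⁻¹ := aR_N 0
theorem aR_N1 : aR (N 1) = (S 1)⁻¹ := aR_N 1
theorem aR_N2 : aR (N 2) = (S 0)⁻¹ := aR_N 2

theorem sg1_S0 : sg 1 (S 0) = S 1 * S 2 * N 1 := by rw [sg1_apply, aT_S, aR_S0]
theorem sg1_S1 : sg 1 (S 1) = S 2 * S 1 * N 2 := by rw [sg1_apply, aT_S, aR_S1]
theorem sg1_S2 : sg 1 (S 2) = S 0 * N 0 := by rw [sg1_apply, aT_S, aR_S2]
theorem sg1_N0 : sg 1 (N 0) = S 1 * N 2 := by
  rw [sg1_apply, aT_N0, map_mul, aR_S0, aR_N0]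
  rw [mul_assoc (S 1), rel2]; group
theorem sg1_N1 : sg 1 (N 1) = S 2 * S 1 * N 2 * N 0 := by
  rw [sg1_apply, aT_N1, map_mul, map_mul, aR_S1, aR_S2, aR_N1, rel0]; group
theorem sg1_N2 : sg 1 (N 2) = S 0 * N 0 * S 2 * N 1 := by
  rw [sg1_apply, aT_N2, map_mul, map_mul, aR_S1, aR_S2, aR_N2, mul_assoc (S 2), rel1]; group

theorem sg2_S0 : sg 2 (S 0) = S 2 * S 1 * N 2 * N 0 := by
  rw [sg2_apply, aT_S, aR_S0, map_mul, map_mul, aR_S1, aR_S2, aR_N1, rel0]; group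
theorem sg2_S1 : sg 2 (S 1) = S 0 * N 0 * S 2 * N 1 := by
  rw [sg2_apply, aT_S, aR_S1, map_mul, map_mul, aR_S1, aR_S2, aR_N2, mul_assoc (S 2), rel1]; group
theorem sg2_S2 : sg 2 (S 2) = S 1 * N 2 := by
  rw [sg2_apply, aT_S, aR_S2, map_mul, aR_S0, aR_N0, mul_assoc (S 1), rel2]; group
theorem sg2_N0 : sg 2 (N 0) = S 2 * N 1 := by
  rw [sg2_eq, sg1_N0, map_mul, aR_S1, aR_N2, mul_assoc (S 2), rel1]; group
theorem sg2_N1 : sg 2 (N 1) = S 0 * N 0 * N 2 := by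
  rw [sg2_eq, sg1_N1, map_mul, map_mul, map_mul, aR_S1, aR_S2, aR_N2, aR_N0, mul_assoc (S 2) (S 1), rel1]
  calc S 0 * N 0 * (S 2 * (N 1 * S 0)) * (S 0)⁻¹ * (S 2)⁻¹ = S 0 * N 0 * (S 2 * N 1) * (S 2)⁻¹ := by group
    _ = S 0 * N 0 * N 2 := by rw [rel2]; group
theorem sg2_N2 : sg 2 (N 2) = S 1 * N 2 * N 0 := by
  rw [sg2_eq, sg1_N2, map_mul, map_mul, map_mul, aR_S0, aR_N0, aR_S2, aR_N1]
  calc S 1 * S 2 * N 1 * (S 2)⁻¹ * (S 0 * N 0) * (S 1)⁻¹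
      = S 1 * (S 2 * N 1) * (S 2)⁻¹ * (S 0 * N 0) * (S 1)⁻¹ := by group
    _ = S 1 * N 2 * N 0 := by rw [rel2, rel0]; group

theorem sg3_S0 : sg 3 (S 0) = S 0 * N 0 * N 2 := by
  rw [sg3_eq, sg2_S0, ← sg2_N1, ← sg1_N1]; exact (sg2_eq _).symm
theorem sg3_S1 : sg 3 (S 1) = S 1 * N 2 * N 0 := by
  rw [sg3_eq, sg2_S1, ← sg2_N2, ← sg1_N2]; exact (sg2_eq _).symm
theorem sg3_S2 : sg 3 (S 2) = S 2 * N 1 := by
  rw [sg3_eq, sg2_S2, ← sg2_N0, ← sg1_N0]; exact (sg2_eq _).symm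
theorem sg3_N0 : sg 3 (N 0) = N 0 := by
  rw [sg3_eq, sg2_N0, map_mul, aR_S2, aR_N1, rel0]; group
theorem sg3_N1 : sg 3 (N 1) = N 1 := by
  rw [sg3_eq, sg2_N1, map_mul, map_mul, aR_S0, aR_N0, aR_N2]
  calc S 1 * S 2 * N 1 * (S 2)⁻¹ * (S 0)⁻¹ = S 1 * (S 2 * N 1) * (S 2)⁻¹ * (S 0)⁻¹ := by group
    _ = S 1 * N 2 * (S 0)⁻¹ := by rw [rel2]; group
    _ = N 1 := by rw [rel1]; group
theorem sg3_N2 : sg 3 (N 2) = N 2 := by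
  rw [sg3_eq, sg2_N2, map_mul, map_mul, aR_S1, aR_N2, aR_N0]
  calc S 2 * S 1 * N 2 * (S 0)⁻¹ * (S 2)⁻¹ = S 2 * (S 1 * N 2) * (S 0)⁻¹ * (S 2)⁻¹ := by group
    _ = S 2 * N 1 * (S 2)⁻¹ := by rw [rel1]; group
    _ = N 2 := by rw [rel2]; group

theorem sg0_S (j : Fin 3) : sg 0 (S j) = S j := aT_S j
theorem sg0_N0 : sg 0 (N 0) = S 0 * N 0 := aT_N0
theorem sg0_N1 : sg 0 (N 1) = S 1 * S 2 * N 1 := aT_N1
theorem sg0_N2 : sg 0 (N 2) = S 2 * S 1 * N 2 := aT_N2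

theorem S_pos (j : Fin 3) : S j ∈ Pos := Submonoid.subset_closure ⟨Lt.s j, rfl⟩
theorem N_pos (j : Fin 3) : N j ∈ Pos := Submonoid.subset_closure ⟨Lt.n j, rfl⟩

theorem sg_pos_S (k : Fin 4) (j : Fin 3) : sg k (S j) ∈ Pos := by
  fin_cases k
  · show sg 0 (S j) ∈ Pos
    rw [sg0_S]; exact S_pos j
  · fin_cases j
    · show sg 1 (S 0) ∈ Pos
      rw [sg1_S0]; exact mul_mem (mul_mem (S_pos _) (S_pos _)) (N_pos _)
    · show sg 1 (S 1) ∈ Pos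
      rw [sg1_S1]; exact mul_mem (mul_mem (S_pos _) (S_pos _)) (N_pos _)
    · show sg 1 (S 2) ∈ Pos
      rw [sg1_S2]; exact mul_mem (S_pos _) (N_pos _)
  · fin_cases j
    · show sg 2 (S 0) ∈ Pos
      rw [sg2_S0]; exact mul_mem (mul_mem (mul_mem (S_pos _) (S_pos _)) (N_pos _)) (N_pos _)
    · show sg 2 (S 1) ∈ Pos
      rw [sg2_S1]; exact mul_mem (mul_mem (mul_mem (S_pos _) (N_pos _)) (S_pos _)) (N_pos _)
    · show sg 2 (S 2) ∈ Pos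
      rw [sg2_S2]; exact mul_mem (S_pos _) (N_pos _)
  · fin_cases j
    · show sg 3 (S 0) ∈ Pos
      rw [sg3_S0]; exact mul_mem (mul_mem (S_pos _) (N_pos _)) (N_pos _)
    · show sg 3 (S 1) ∈ Pos
      rw [sg3_S1]; exact mul_mem (mul_mem (S_pos _) (N_pos _)) (N_pos _)
    · show sg 3 (S 2) ∈ Pos
      rw [sg3_S2]; exact mul_mem (S_pos _) (N_pos _)

/-- `PosN` of a product -/
theorem PosN.pos {x : Pi} (h : PosN x) : x ∈ Pos := by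
  obtain ⟨y, hy, j, y', hy', rfl⟩ := h
  exact mul_mem (mul_mem hy (N_pos _)) hy'

theorem posN_N (j : Fin 3) : PosN (N j) := ⟨1, one_mem _, j, 1, one_mem _, by group⟩

theorem PosN.mul_left {x y : Pi} (hy : y ∈ Pos) (h : PosN x) : PosN (y * x) := by
  obtain ⟨a, ha, j, b, hb, rfl⟩ := h
  exact ⟨y * a, mul_mem hy ha, j, b, hb, by group⟩

theorem PosN.mul_right {x y : Pi} (hy : y ∈ Pos) (h : PosN x) : PosN (x * y) := by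
  obtain ⟨a, ha, j, b, hb, rfl⟩ := h
  exact ⟨a, ha, j, b * y, mul_mem hb hy, by group⟩

theorem sg_N_posN' (k : Fin 4) (j : Fin 3) : PosN (sg k (N j)) := by
  fin_cases k
  · fin_cases j
    · show PosN (sg 0 (N 0))
      rw [sg0_N0]; exact (posN_N _).mul_left (S_pos _)
    · show PosN (sg 0 (N 1))
      rw [sg0_N1]; exact (posN_N _).mul_left (mul_mem (S_pos _) (S_pos _))
    · show PosN (sg 0 (N 2))
      rw [sg0_N2]; exact (posN_N _).mul_left (mul_mem (S_pos _) (S_pos _))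
  · fin_cases j
    · show PosN (sg 1 (N 0))
      rw [sg1_N0]; exact (posN_N _).mul_left (S_pos _)
    · show PosN (sg 1 (N 1))
      rw [sg1_N1]; exact (posN_N _).mul_left (mul_mem (mul_mem (S_pos _) (S_pos _)) (N_pos _))
    · show PosN (sg 1 (N 2))
      rw [sg1_N2]; exact (posN_N _).mul_left (mul_mem (mul_mem (S_pos _) (N_pos _)) (S_pos _))
  · fin_cases j
    · show PosN (sg 2 (N 0))
      rw [sg2_N0]; exact (posN_N _).mul_left (S_pos _)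
    · show PosN (sg 2 (N 1))
      rw [sg2_N1]; exact (posN_N _).mul_left (mul_mem (S_pos _) (N_pos _))
    · show PosN (sg 2 (N 2))
      rw [sg2_N2]; exact (posN_N _).mul_left (mul_mem (S_pos _) (N_pos _))
  · fin_cases j
    · show PosN (sg 3 (N 0))
      rw [sg3_N0]; exact posN_N _
    · show PosN (sg 3 (N 1))
      rw [sg3_N1]; exact posN_N _
    · show PosN (sg 3 (N 2))
      rw [sg3_N2]; exact posN_N _

theorem sg_pos (k : Fin 4) (a : Lt) : sg k a.val ∈ Pos := by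
  cases a with
  | s j => exact sg_pos_S k j
  | n j => exact (sg_N_posN' k j).pos

theorem sg_N_posN (k : Fin 4) (j : Fin 3) : PosN (sg k (N j)) := sg_N_posN' k j

theorem sg_S_posN (k : Fin 4) (hk : k ≠ 0) (j : Fin 3) : PosN (sg k (S j)) := by
  fin_cases k
  · exact absurd rfl hk
  · fin_cases j
    · show PosN (sg 1 (S 0))
      rw [sg1_S0]; exact (posN_N _).mul_left (mul_mem (S_pos _) (S_pos _))
    · show PosN (sg 1 (S 1))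
      rw [sg1_S1]; exact (posN_N _).mul_left (mul_mem (S_pos _) (S_pos _))
    · show PosN (sg 1 (S 2))
      rw [sg1_S2]; exact (posN_N _).mul_left (S_pos _)
  · fin_cases j
    · show PosN (sg 2 (S 0))
      rw [sg2_S0]; exact (posN_N _).mul_left (mul_mem (mul_mem (S_pos _) (S_pos _)) (N_pos _))
    · show PosN (sg 2 (S 1))
      rw [sg2_S1]; exact (posN_N _).mul_left (mul_mem (mul_mem (S_pos _) (N_pos _)) (S_pos _))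
    · show PosN (sg 2 (S 2))
      rw [sg2_S2]; exact (posN_N _).mul_left (S_pos _)
  · fin_cases j
    · show PosN (sg 3 (S 0))
      rw [sg3_S0]; exact (posN_N _).mul_left (mul_mem (S_pos _) (N_pos _))
    · show PosN (sg 3 (S 1))
      rw [sg3_S1]; exact (posN_N _).mul_left (mul_mem (S_pos _) (N_pos _))
    · show PosN (sg 3 (S 2))
      rw [sg3_S2]; exact (posN_N _).mul_left (S_pos _)

theorem sg_zero_S (j : Fin 3) : sg 0 (S j) = S j := sg0_S j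

/-! ### lifting paths -/

/-- right multiplication by `x` can be done by a path inside `K` -/
def Lf (K : Set Pi) (x : Pi) : Prop :=
  ∀ z ∈ K, z * x ∈ K ∧ Relation.ReflTransGen (fun x y => y ∈ K ∧ ∃ a, y = x * stp a) z (z * x)

/-- the same in the complement, from the end -/
def Lg (K : Set Pi) (x : Pi) : Prop :=
  ∀ z, z * x ∈ Kᶜ → z ∈ Kᶜ ∧
    Relation.ReflTransGen (fun x y => y ∈ Kᶜ ∧ ∃ a, y = x * stp a) z (z * x)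

theorem Lf.mul {K : Set Pi} {x y : Pi} (hx : Lf K x) (hy : Lf K y) : Lf K (x * y) := by
  intro z hz
  obtain ⟨h1, p1⟩ := hx z hz
  obtain ⟨h2, p2⟩ := hy _ h1
  rw [mul_assoc] at h2 p2
  exact ⟨h2, p1.trans p2⟩

theorem Lg.mul {K : Set Pi} {x y : Pi} (hx : Lg K x) (hy : Lg K y) : Lg K (x * y) := by
  intro z hz
  rw [← mul_assoc] at hz ⊢
  obtain ⟨h1, p1⟩ := hy _ hz
  obtain ⟨h2, p2⟩ := hx _ h1
  exact ⟨h2, p2.trans p1⟩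

theorem Lf.letter {K : Set Pi} (hK : Mono K) (a : Lt) : Lf K a.val := fun z hz =>
  ⟨hK z hz a, Relation.ReflTransGen.single ⟨hK z hz a, (a, true), rfl⟩⟩

theorem Lg.letter {K : Set Pi} (hK : Mono K) (a : Lt) : Lg K a.val := fun z hz =>
  ⟨fun h => hz (hK z h a), Relation.ReflTransGen.single ⟨hz, (a, true), rfl⟩⟩

/-- if `x * q = p` -/
theorem Lf.quot {K : Set Pi} {x p q : Pi} (hp : Lf K p) (hq : Lf K q) (h : x * q = p)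
    (hx : ∀ z ∈ K, z * x ∈ K) : Lf K x := by
  intro z hz
  have h1 := hx z hz
  obtain ⟨_, p1⟩ := hp z hz
  obtain ⟨_, p2⟩ := hq _ h1
  rw [mul_assoc, h] at p2
  exact ⟨h1, p1.trans (Conn.symm_path h1 p2)⟩

/-- if `p * x = q` -/
theorem Lg.quot {K : Set Pi} {x p q : Pi} (hp : Lg K p) (hq : Lg K q) (h : p * x = q)
    (hx : ∀ z ∈ K, z * x ∈ K) : Lg K x := by
  intro z hz
  have h1 : z ∈ Kᶜ := fun h => hz (hx z h)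
  obtain ⟨hw, p1⟩ := hp (z * p⁻¹) (by rwa [inv_mul_cancel_right])
  obtain ⟨_, p2⟩ := hq (z * p⁻¹) (by rw [← h, ← mul_assoc, inv_mul_cancel_right]; exact hz)
  rw [inv_mul_cancel_right] at p1
  rw [← h, ← mul_assoc, inv_mul_cancel_right] at p2
  exact ⟨h1, (Conn.symm_path hw p1).trans p2⟩

theorem good_of_lift (u : MulAut Pi) {K : Set Pi} (hK : Good K)
    (hm : Mono {z | u z ∈ K}) (hf : ∀ a : Lt, Lf {z | u z ∈ K} (u⁻¹ a.val))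
    (hg : ∀ a : Lt, Lg {z | u z ∈ K} (u⁻¹ a.val)) : Good {z | u z ∈ K} := by
  refine ⟨hm, ?_, ?_⟩
  · intro g hg' h hh
    have p := hK.conn (u g) hg' (u h) hh
    have key : ∀ y, Relation.ReflTransGen (fun x y => y ∈ K ∧ ∃ a, y = x * stp a) (u g) y →
        y ∈ K ∧ Relation.ReflTransGen (fun x y => y ∈ {z | u z ∈ K} ∧ ∃ a, y = x * stp a) g (u⁻¹ y) := by
      intro y hy
      induction hy with
      | refl =>
        refine ⟨hg', ?_⟩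
        rw [MulAut.inv_apply_self]
      | tail _ hbc ih =>
        obtain ⟨hc, ⟨a, b⟩, rfl⟩ := hbc
        obtain ⟨ih1, ih2⟩ := ih
        refine ⟨hc, ih2.trans ?_⟩
        rw [map_mul]
        cases b
        · have h1 := hf a (u⁻¹ _ * u⁻¹ (stp (a, false))) (by
            rw [← map_mul, Set.mem_ofPred_eq, MulAut.apply_inv_self]; exact hc)
          have e1 : ∀ w : Pi, w * u⁻¹ (stp (a, false)) * u⁻¹ a.val = w := by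
            intro w
            rw [mul_assoc, ← map_mul]
            simp [stp]
          rw [e1] at h1
          refine Conn.symm_path ?_ h1.2
          rw [← map_mul, Set.mem_ofPred_eq, MulAut.apply_inv_self]; exact hc
        · exact (hf a _ (by rw [Set.mem_ofPred_eq, MulAut.apply_inv_self]; exact ih1)).2
    have := (key _ p).2
    rwa [MulAut.inv_apply_self] at this
  · intro g hg' h hh
    have p := hK.conn' (u g) hg' (u h) hh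
    have key : ∀ y, Relation.ReflTransGen (fun x y => y ∈ Kᶜ ∧ ∃ a, y = x * stp a) (u g) y →
        y ∈ Kᶜ ∧ Relation.ReflTransGen (fun x y => y ∈ {z | u z ∈ K}ᶜ ∧ ∃ a, y = x * stp a) g (u⁻¹ y) := by
      intro y hy
      induction hy with
      | refl =>
        refine ⟨hg', ?_⟩
        rw [MulAut.inv_apply_self]
      | tail _ hbc ih =>
        obtain ⟨hc, ⟨a, b⟩, rfl⟩ := hbc
        obtain ⟨ih1, ih2⟩ := ih
        refine ⟨hc, ih2.trans ?_⟩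
        rw [map_mul]
        cases b
        · have e1 : ∀ w : Pi, w * u⁻¹ (stp (a, false)) * u⁻¹ a.val = w := by
            intro w
            rw [mul_assoc, ← map_mul]
            simp [stp]
          have h1 := hg a (u⁻¹ _ * u⁻¹ (stp (a, false))) (by
            rw [e1, Set.mem_compl_iff, Set.mem_ofPred_eq, MulAut.apply_inv_self]; exact ih1)
          rw [e1] at h1
          exact Conn.symm_path h1.1 h1.2
        · exact (hg a _ (by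
            rw [← map_mul, Set.mem_compl_iff, Set.mem_ofPred_eq, MulAut.apply_inv_self]; exact hc)).2
    have := (key _ p).2
    rwa [MulAut.inv_apply_self] at this

theorem Mono.mul_pos {K : Set Pi} (hK : Mono K) {x : Pi} (hx : x ∈ Pos) : ∀ g ∈ K, g * x ∈ K := by
  induction hx using Submonoid.closure_induction with
  | mem x hx => obtain ⟨a, rfl⟩ := hx; exact fun g hg => hK g hg a
  | one => intro g hg; rwa [mul_one]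
  | mul x y _ _ hx hy => intro g hg; rw [← mul_assoc]; exact hy _ (hx _ hg)

theorem mono_sg (k : Fin 4) {K : Set Pi} (hK : Good K) : Mono {z | sg k z ∈ K} := by
  intro g hg a
  show sg k (g * a.val) ∈ K
  rw [map_mul]
  exact hK.mono.mul_pos (sg_pos k a) _ hg

section lift

variable {k : Fin 4} {K : Set Pi}

theorem pre_mono (hK : Good K) (a : Lt) : ∀ z ∈ {z | sg k z ∈ K}, z * (sg k)⁻¹ a.val ∈ {z | sg k z ∈ K} := by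
  intro z hz
  show sg k (z * (sg k)⁻¹ a.val) ∈ K
  rw [map_mul, MulAut.apply_inv_self]
  exact hK.mono _ hz a

theorem lf_S (hK : Good K) (j : Fin 3) : Lf {z | sg k z ∈ K} (S j) := Lf.letter (mono_sg k hK) (Lt.s j)
theorem lf_N (hK : Good K) (j : Fin 3) : Lf {z | sg k z ∈ K} (N j) := Lf.letter (mono_sg k hK) (Lt.n j)
theorem lg_S (hK : Good K) (j : Fin 3) : Lg {z | sg k z ∈ K} (S j) := Lg.letter (mono_sg k hK) (Lt.s j)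
theorem lg_N (hK : Good K) (j : Fin 3) : Lg {z | sg k z ∈ K} (N j) := Lg.letter (mono_sg k hK) (Lt.n j)

/-- `u⁻¹ l = p * q⁻¹` -/
theorem lf_of (hK : Good K) (a : Lt) {p q : Pi} (hp : Lf {z | sg k z ∈ K} p)
    (hq : Lf {z | sg k z ∈ K} q) (h : a.val * sg k q = sg k p) :
    Lf {z | sg k z ∈ K} ((sg k)⁻¹ a.val) := by
  refine Lf.quot hp hq ?_ (pre_mono hK a)
  apply (sg k).injective
  rw [map_mul, MulAut.apply_inv_self, h]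

/-- `u⁻¹ l = p⁻¹ * q` -/
theorem lg_of (hK : Good K) (a : Lt) {p q : Pi} (hp : Lg {z | sg k z ∈ K} p)
    (hq : Lg {z | sg k z ∈ K} q) (h : sg k p * a.val = sg k q) :
    Lg {z | sg k z ∈ K} ((sg k)⁻¹ a.val) := by
  refine Lg.quot hp hq ?_ (pre_mono hK a)
  apply (sg k).injective
  rw [map_mul, MulAut.apply_inv_self, h]

theorem lf_one (_ : Good K) : Lf {z | sg k z ∈ K} 1 := by
  intro z hz
  rw [mul_one]
  exact ⟨hz, Relation.ReflTransGen.refl⟩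

theorem lg_one (_ : Good K) : Lg {z | sg k z ∈ K} 1 := by
  intro z hz
  rw [mul_one] at hz ⊢
  exact ⟨hz, Relation.ReflTransGen.refl⟩

end lift


theorem lf0_S0 {K : Set Pi} (hK : Good K) : Lf {z | sg 0 z ∈ K} ((sg 0)⁻¹ (S 0)) := by
  refine lf_of hK (Lt.s 0) (lf_S hK 0) (lf_one hK) ?_
  show S 0 * _ = _
  simp only [map_mul, map_one, mul_one, one_mul, sg0_S, sg0_N0, sg0_N1,
    sg0_N2, sg1_S0, sg1_S1, sg1_S2, sg1_N0, sg1_N1, sg1_N2, sg2_S0, sg2_S1, sg2_S2, sg2_N0, sg2_N1, sg2_N2,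
    sg3_S0, sg3_S1, sg3_S2, sg3_N0, sg3_N1, sg3_N2, mul_assoc, w0, w1, w2, w0', w1', w2']
theorem lf0_S1 {K : Set Pi} (hK : Good K) : Lf {z | sg 0 z ∈ K} ((sg 0)⁻¹ (S 1)) := by
  refine lf_of hK (Lt.s 1) (lf_S hK 1) (lf_one hK) ?_
  show S 1 * _ = _
  simp only [map_mul, map_one, mul_one, one_mul, sg0_S, sg0_N0, sg0_N1,
    sg0_N2, sg1_S0, sg1_S1, sg1_S2, sg1_N0, sg1_N1, sg1_N2, sg2_S0, sg2_S1, sg2_S2, sg2_N0, sg2_N1, sg2_N2,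
    sg3_S0, sg3_S1, sg3_S2, sg3_N0, sg3_N1, sg3_N2, mul_assoc, w0, w1, w2, w0', w1', w2']
theorem lf0_S2 {K : Set Pi} (hK : Good K) : Lf {z | sg 0 z ∈ K} ((sg 0)⁻¹ (S 2)) := by
  refine lf_of hK (Lt.s 2) (lf_S hK 2) (lf_one hK) ?_
  show S 2 * _ = _
  simp only [map_mul, map_one, mul_one, one_mul, sg0_S, sg0_N0, sg0_N1,
    sg0_N2, sg1_S0, sg1_S1, sg1_S2, sg1_N0, sg1_N1, sg1_N2, sg2_S0, sg2_S1, sg2_S2, sg2_N0, sg2_N1, sg2_N2,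
    sg3_S0, sg3_S1, sg3_S2, sg3_N0, sg3_N1, sg3_N2, mul_assoc, w0, w1, w2, w0', w1', w2']
theorem lf0_N0 {K : Set Pi} (hK : Good K) : Lf {z | sg 0 z ∈ K} ((sg 0)⁻¹ (N 0)) := by
  refine lf_of hK (Lt.n 0) (lf_N hK 0) (lf_S hK 1) ?_
  show N 0 * _ = _
  simp only [map_mul, map_one, mul_one, one_mul, sg0_S, sg0_N0, sg0_N1,
    sg0_N2, sg1_S0, sg1_S1, sg1_S2, sg1_N0, sg1_N1, sg1_N2, sg2_S0, sg2_S1, sg2_S2, sg2_N0, sg2_N1, sg2_N2,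
    sg3_S0, sg3_S1, sg3_S2, sg3_N0, sg3_N1, sg3_N2, mul_assoc, w0, w1, w2, w0', w1', w2']
theorem lf0_N1 {K : Set Pi} (hK : Good K) : Lf {z | sg 0 z ∈ K} ((sg 0)⁻¹ (N 1)) := by
  refine lf_of hK (Lt.n 1) (lf_N hK 1) ((lf_S hK 0).mul (lf_S hK 2)) ?_
  show N 1 * _ = _
  simp only [map_mul, map_one, mul_one, one_mul, sg0_S, sg0_N0, sg0_N1,
    sg0_N2, sg1_S0, sg1_S1, sg1_S2, sg1_N0, sg1_N1, sg1_N2, sg2_S0, sg2_S1, sg2_S2, sg2_N0, sg2_N1, sg2_N2,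
    sg3_S0, sg3_S1, sg3_S2, sg3_N0, sg3_N1, sg3_N2, mul_assoc, w0, w1, w2, w0', w1', w2']
theorem lf0_N2 {K : Set Pi} (hK : Good K) : Lf {z | sg 0 z ∈ K} ((sg 0)⁻¹ (N 2)) := by
  refine lf_of hK (Lt.n 2) (lf_N hK 2) ((lf_S hK 2).mul (lf_S hK 0)) ?_
  show N 2 * _ = _
  simp only [map_mul, map_one, mul_one, one_mul, sg0_S, sg0_N0, sg0_N1,
    sg0_N2, sg1_S0, sg1_S1, sg1_S2, sg1_N0, sg1_N1, sg1_N2, sg2_S0, sg2_S1, sg2_S2, sg2_N0, sg2_N1, sg2_N2,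
    sg3_S0, sg3_S1, sg3_S2, sg3_N0, sg3_N1, sg3_N2, mul_assoc, w0, w1, w2, w0', w1', w2']
theorem lg0_S0 {K : Set Pi} (hK : Good K) : Lg {z | sg 0 z ∈ K} ((sg 0)⁻¹ (S 0)) := by
  refine lg_of hK (Lt.s 0) (lg_one hK) (lg_S hK 0) ?_
  show _ * S 0 = _
  simp only [map_mul, map_one, mul_one, one_mul, sg0_S, sg0_N0, sg0_N1,
    sg0_N2, sg1_S0, sg1_S1, sg1_S2, sg1_N0, sg1_N1, sg1_N2, sg2_S0, sg2_S1, sg2_S2, sg2_N0, sg2_N1, sg2_N2,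
    sg3_S0, sg3_S1, sg3_S2, sg3_N0, sg3_N1, sg3_N2, mul_assoc, w0, w1, w2, w0', w1', w2']
theorem lg0_S1 {K : Set Pi} (hK : Good K) : Lg {z | sg 0 z ∈ K} ((sg 0)⁻¹ (S 1)) := by
  refine lg_of hK (Lt.s 1) (lg_one hK) (lg_S hK 1) ?_
  show _ * S 1 = _
  simp only [map_mul, map_one, mul_one, one_mul, sg0_S, sg0_N0, sg0_N1,
    sg0_N2, sg1_S0, sg1_S1, sg1_S2, sg1_N0, sg1_N1, sg1_N2, sg2_S0, sg2_S1, sg2_S2, sg2_N0, sg2_N1, sg2_N2,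
    sg3_S0, sg3_S1, sg3_S2, sg3_N0, sg3_N1, sg3_N2, mul_assoc, w0, w1, w2, w0', w1', w2']
theorem lg0_S2 {K : Set Pi} (hK : Good K) : Lg {z | sg 0 z ∈ K} ((sg 0)⁻¹ (S 2)) := by
  refine lg_of hK (Lt.s 2) (lg_one hK) (lg_S hK 2) ?_
  show _ * S 2 = _
  simp only [map_mul, map_one, mul_one, one_mul, sg0_S, sg0_N0, sg0_N1,
    sg0_N2, sg1_S0, sg1_S1, sg1_S2, sg1_N0, sg1_N1, sg1_N2, sg2_S0, sg2_S1, sg2_S2, sg2_N0, sg2_N1, sg2_N2,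
    sg3_S0, sg3_S1, sg3_S2, sg3_N0, sg3_N1, sg3_N2, mul_assoc, w0, w1, w2, w0', w1', w2']
theorem lg0_N0 {K : Set Pi} (hK : Good K) : Lg {z | sg 0 z ∈ K} ((sg 0)⁻¹ (N 0)) := by
  refine lg_of hK (Lt.n 0) (lg_S hK 0) (lg_N hK 0) ?_
  show _ * N 0 = _
  simp only [map_mul, map_one, mul_one, one_mul, sg0_S, sg0_N0, sg0_N1,
    sg0_N2, sg1_S0, sg1_S1, sg1_S2, sg1_N0, sg1_N1, sg1_N2, sg2_S0, sg2_S1, sg2_S2, sg2_N0, sg2_N1, sg2_N2,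
    sg3_S0, sg3_S1, sg3_S2, sg3_N0, sg3_N1, sg3_N2, mul_assoc, w0, w1, w2, w0', w1', w2']
theorem lg0_N1 {K : Set Pi} (hK : Good K) : Lg {z | sg 0 z ∈ K} ((sg 0)⁻¹ (N 1)) := by
  refine lg_of hK (Lt.n 1) ((lg_S hK 1).mul (lg_S hK 2)) (lg_N hK 1) ?_
  show _ * N 1 = _
  simp only [map_mul, map_one, mul_one, one_mul, sg0_S, sg0_N0, sg0_N1,
    sg0_N2, sg1_S0, sg1_S1, sg1_S2, sg1_N0, sg1_N1, sg1_N2, sg2_S0, sg2_S1, sg2_S2, sg2_N0, sg2_N1, sg2_N2,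
    sg3_S0, sg3_S1, sg3_S2, sg3_N0, sg3_N1, sg3_N2, mul_assoc, w0, w1, w2, w0', w1', w2']
theorem lg0_N2 {K : Set Pi} (hK : Good K) : Lg {z | sg 0 z ∈ K} ((sg 0)⁻¹ (N 2)) := by
  refine lg_of hK (Lt.n 2) ((lg_S hK 2).mul (lg_S hK 1)) (lg_N hK 2) ?_
  show _ * N 2 = _
  simp only [map_mul, map_one, mul_one, one_mul, sg0_S, sg0_N0, sg0_N1,
    sg0_N2, sg1_S0, sg1_S1, sg1_S2, sg1_N0, sg1_N1, sg1_N2, sg2_S0, sg2_S1, sg2_S2, sg2_N0, sg2_N1, sg2_N2,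
    sg3_S0, sg3_S1, sg3_S2, sg3_N0, sg3_N1, sg3_N2, mul_assoc, w0, w1, w2, w0', w1', w2']
theorem lf1_S0 {K : Set Pi} (hK : Good K) : Lf {z | sg 1 z ∈ K} ((sg 1)⁻¹ (S 0)) := by
  refine lf_of hK (Lt.s 0) ((lf_S hK 2).mul (lf_S hK 0)) (lf_N hK 2) ?_
  show S 0 * _ = _
  simp only [map_mul, map_one, mul_one, one_mul, sg0_S, sg0_N0, sg0_N1,
    sg0_N2, sg1_S0, sg1_S1, sg1_S2, sg1_N0, sg1_N1, sg1_N2, sg2_S0, sg2_S1, sg2_S2, sg2_N0, sg2_N1, sg2_N2,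
    sg3_S0, sg3_S1, sg3_S2, sg3_N0, sg3_N1, sg3_N2, mul_assoc, w0, w1, w2, w0', w1', w2']
theorem lf1_S1 {K : Set Pi} (hK : Good K) : Lf {z | sg 1 z ∈ K} ((sg 1)⁻¹ (S 1)) := by
  refine lf_of hK (Lt.s 1) ((lf_S hK 0).mul (lf_S hK 2)) (lf_N hK 1) ?_
  show S 1 * _ = _
  simp only [map_mul, map_one, mul_one, one_mul, sg0_S, sg0_N0, sg0_N1,
    sg0_N2, sg1_S0, sg1_S1, sg1_S2, sg1_N0, sg1_N1, sg1_N2, sg2_S0, sg2_S1, sg2_S2, sg2_N0, sg2_N1, sg2_N2,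
    sg3_S0, sg3_S1, sg3_S2, sg3_N0, sg3_N1, sg3_N2, mul_assoc, w0, w1, w2, w0', w1', w2']
theorem lf1_S2 {K : Set Pi} (hK : Good K) : Lf {z | sg 1 z ∈ K} ((sg 1)⁻¹ (S 2)) := by
  refine lf_of hK (Lt.s 2) (lf_S hK 1) (lf_N hK 0) ?_
  show S 2 * _ = _
  simp only [map_mul, map_one, mul_one, one_mul, sg0_S, sg0_N0, sg0_N1,
    sg0_N2, sg1_S0, sg1_S1, sg1_S2, sg1_N0, sg1_N1, sg1_N2, sg2_S0, sg2_S1, sg2_S2, sg2_N0, sg2_N1, sg2_N2,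
    sg3_S0, sg3_S1, sg3_S2, sg3_N0, sg3_N1, sg3_N2, mul_assoc, w0, w1, w2, w0', w1', w2']
theorem lf1_N0 {K : Set Pi} (hK : Good K) : Lf {z | sg 1 z ∈ K} ((sg 1)⁻¹ (N 0)) := by
  refine lf_of hK (Lt.n 0) (lf_N hK 2) (lf_S hK 0) ?_
  show N 0 * _ = _
  simp only [map_mul, map_one, mul_one, one_mul, sg0_S, sg0_N0, sg0_N1,
    sg0_N2, sg1_S0, sg1_S1, sg1_S2, sg1_N0, sg1_N1, sg1_N2, sg2_S0, sg2_S1, sg2_S2, sg2_N0, sg2_N1, sg2_N2,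
    sg3_S0, sg3_S1, sg3_S2, sg3_N0, sg3_N1, sg3_N2, mul_assoc, w0, w1, w2, w0', w1', w2']
theorem lf1_N1 {K : Set Pi} (hK : Good K) : Lf {z | sg 1 z ∈ K} ((sg 1)⁻¹ (N 1)) := by
  refine lf_of hK (Lt.n 1) ((lf_N hK 0).mul (lf_N hK 2)) ((lf_S hK 2).mul (lf_S hK 0)) ?_
  show N 1 * _ = _
  simp only [map_mul, map_one, mul_one, one_mul, sg0_S, sg0_N0, sg0_N1,
    sg0_N2, sg1_S0, sg1_S1, sg1_S2, sg1_N0, sg1_N1, sg1_N2, sg2_S0, sg2_S1, sg2_S2, sg2_N0, sg2_N1, sg2_N2,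
    sg3_S0, sg3_S1, sg3_S2, sg3_N0, sg3_N1, sg3_N2, mul_assoc, w0, w1, w2, w0', w1', w2']
theorem lf1_N2 {K : Set Pi} (hK : Good K) : Lf {z | sg 1 z ∈ K} ((sg 1)⁻¹ (N 2)) := by
  refine Lf.quot (p := (sg 1)⁻¹ (S 2 * N 1)) (q := (sg 1)⁻¹ (S 2)) ?_ (lf1_S2 hK) ?_ (pre_mono hK (Lt.n 2))
  · rw [map_mul]; exact (lf1_S2 hK).mul (lf1_N1 hK)
  · rw [← map_mul, ← rel2]
theorem lg1_S0 {K : Set Pi} (hK : Good K) : Lg {z | sg 1 z ∈ K} ((sg 1)⁻¹ (S 0)) := by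
  refine lg_of hK (Lt.s 0) (lg_N hK 2) ((lg_S hK 2).mul (lg_S hK 1)) ?_
  show _ * S 0 = _
  simp only [map_mul, map_one, mul_one, one_mul, sg0_S, sg0_N0, sg0_N1,
    sg0_N2, sg1_S0, sg1_S1, sg1_S2, sg1_N0, sg1_N1, sg1_N2, sg2_S0, sg2_S1, sg2_S2, sg2_N0, sg2_N1, sg2_N2,
    sg3_S0, sg3_S1, sg3_S2, sg3_N0, sg3_N1, sg3_N2, mul_assoc, w0, w1, w2, w0', w1', w2']
theorem lg1_S1 {K : Set Pi} (hK : Good K) : Lg {z | sg 1 z ∈ K} ((sg 1)⁻¹ (S 1)) := by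
  refine lg_of hK (Lt.s 1) (lg_N hK 1) ((lg_S hK 1).mul (lg_S hK 2)) ?_
  show _ * S 1 = _
  simp only [map_mul, map_one, mul_one, one_mul, sg0_S, sg0_N0, sg0_N1,
    sg0_N2, sg1_S0, sg1_S1, sg1_S2, sg1_N0, sg1_N1, sg1_N2, sg2_S0, sg2_S1, sg2_S2, sg2_N0, sg2_N1, sg2_N2,
    sg3_S0, sg3_S1, sg3_S2, sg3_N0, sg3_N1, sg3_N2, mul_assoc, w0, w1, w2, w0', w1', w2']
theorem lg1_S2 {K : Set Pi} (hK : Good K) : Lg {z | sg 1 z ∈ K} ((sg 1)⁻¹ (S 2)) := by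
  refine lg_of hK (Lt.s 2) (lg_N hK 0) (lg_S hK 0) ?_
  show _ * S 2 = _
  simp only [map_mul, map_one, mul_one, one_mul, sg0_S, sg0_N0, sg0_N1,
    sg0_N2, sg1_S0, sg1_S1, sg1_S2, sg1_N0, sg1_N1, sg1_N2, sg2_S0, sg2_S1, sg2_S2, sg2_N0, sg2_N1, sg2_N2,
    sg3_S0, sg3_S1, sg3_S2, sg3_N0, sg3_N1, sg3_N2, mul_assoc, w0, w1, w2, w0', w1', w2']
theorem lg1_N0 {K : Set Pi} (hK : Good K) : Lg {z | sg 1 z ∈ K} ((sg 1)⁻¹ (N 0)) := by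
  refine lg_of hK (Lt.n 0) (lg_S hK 1) (lg_N hK 1) ?_
  show _ * N 0 = _
  simp only [map_mul, map_one, mul_one, one_mul, sg0_S, sg0_N0, sg0_N1,
    sg0_N2, sg1_S0, sg1_S1, sg1_S2, sg1_N0, sg1_N1, sg1_N2, sg2_S0, sg2_S1, sg2_S2, sg2_N0, sg2_N1, sg2_N2,
    sg3_S0, sg3_S1, sg3_S2, sg3_N0, sg3_N1, sg3_N2, mul_assoc, w0, w1, w2, w0', w1', w2']
theorem lg1_N2 {K : Set Pi} (hK : Good K) : Lg {z | sg 1 z ∈ K} ((sg 1)⁻¹ (N 2)) := by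
  refine lg_of hK (Lt.n 2) ((lg_S hK 1).mul (lg_S hK 2)) ((lg_N hK 1).mul (lg_N hK 0)) ?_
  show _ * N 2 = _
  simp only [map_mul, map_one, mul_one, one_mul, sg0_S, sg0_N0, sg0_N1,
    sg0_N2, sg1_S0, sg1_S1, sg1_S2, sg1_N0, sg1_N1, sg1_N2, sg2_S0, sg2_S1, sg2_S2, sg2_N0, sg2_N1, sg2_N2,
    sg3_S0, sg3_S1, sg3_S2, sg3_N0, sg3_N1, sg3_N2, mul_assoc, w0, w1, w2, w0', w1', w2']
theorem lg1_N1 {K : Set Pi} (hK : Good K) : Lg {z | sg 1 z ∈ K} ((sg 1)⁻¹ (N 1)) := by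
  refine Lg.quot (p := (sg 1)⁻¹ (S 2)) (q := (sg 1)⁻¹ (N 2 * S 2)) (lg1_S2 hK) ?_ ?_ (pre_mono hK (Lt.n 1))
  · rw [map_mul]; exact (lg1_N2 hK).mul (lg1_S2 hK)
  · rw [← map_mul, rel2]
theorem lf2_S1 {K : Set Pi} (hK : Good K) : Lf {z | sg 2 z ∈ K} ((sg 2)⁻¹ (S 1)) := by
  refine lf_of hK (Lt.s 1) ((lf_S hK 2).mul (lf_S hK 0)) ((lf_N hK 0).mul (lf_N hK 2)) ?_
  show S 1 * _ = _
  simp only [map_mul, map_one, mul_one, one_mul, sg0_S, sg0_N0, sg0_N1,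
    sg0_N2, sg1_S0, sg1_S1, sg1_S2, sg1_N0, sg1_N1, sg1_N2, sg2_S0, sg2_S1, sg2_S2, sg2_N0, sg2_N1, sg2_N2,
    sg3_S0, sg3_S1, sg3_S2, sg3_N0, sg3_N1, sg3_N2, mul_assoc, w0, w1, w2, w0', w1', w2']
theorem lf2_S2 {K : Set Pi} (hK : Good K) : Lf {z | sg 2 z ∈ K} ((sg 2)⁻¹ (S 2)) := by
  refine lf_of hK (Lt.s 2) (lf_S hK 0) (lf_N hK 2) ?_
  show S 2 * _ = _
  simp only [map_mul, map_one, mul_one, one_mul, sg0_S, sg0_N0, sg0_N1,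
    sg0_N2, sg1_S0, sg1_S1, sg1_S2, sg1_N0, sg1_N1, sg1_N2, sg2_S0, sg2_S1, sg2_S2, sg2_N0, sg2_N1, sg2_N2,
    sg3_S0, sg3_S1, sg3_S2, sg3_N0, sg3_N1, sg3_N2, mul_assoc, w0, w1, w2, w0', w1', w2']
theorem lf2_N0 {K : Set Pi} (hK : Good K) : Lf {z | sg 2 z ∈ K} ((sg 2)⁻¹ (N 0)) := by
  refine lf_of hK (Lt.n 0) (lf_N hK 1) (lf_S hK 2) ?_
  show N 0 * _ = _
  simp only [map_mul, map_one, mul_one, one_mul, sg0_S, sg0_N0, sg0_N1,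
    sg0_N2, sg1_S0, sg1_S1, sg1_S2, sg1_N0, sg1_N1, sg1_N2, sg2_S0, sg2_S1, sg2_S2, sg2_N0, sg2_N1, sg2_N2,
    sg3_S0, sg3_S1, sg3_S2, sg3_N0, sg3_N1, sg3_N2, mul_assoc, w0, w1, w2, w0', w1', w2']
theorem lf2_N1 {K : Set Pi} (hK : Good K) : Lf {z | sg 2 z ∈ K} ((sg 2)⁻¹ (N 1)) := by
  refine lf_of hK (Lt.n 1) ((lf_N hK 2).mul (lf_N hK 0)) (lf_S hK 1) ?_
  show N 1 * _ = _
  simp only [map_mul, map_one, mul_one, one_mul, sg0_S, sg0_N0, sg0_N1,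
    sg0_N2, sg1_S0, sg1_S1, sg1_S2, sg1_N0, sg1_N1, sg1_N2, sg2_S0, sg2_S1, sg2_S2, sg2_N0, sg2_N1, sg2_N2,
    sg3_S0, sg3_S1, sg3_S2, sg3_N0, sg3_N1, sg3_N2, mul_assoc, w0, w1, w2, w0', w1', w2']
theorem lf2_N2 {K : Set Pi} (hK : Good K) : Lf {z | sg 2 z ∈ K} ((sg 2)⁻¹ (N 2)) := by
  refine lf_of hK (Lt.n 2) ((lf_N hK 0).mul (lf_N hK 2)) (lf_S hK 0) ?_
  show N 2 * _ = _
  simp only [map_mul, map_one, mul_one, one_mul, sg0_S, sg0_N0, sg0_N1,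
    sg0_N2, sg1_S0, sg1_S1, sg1_S2, sg1_N0, sg1_N1, sg1_N2, sg2_S0, sg2_S1, sg2_S2, sg2_N0, sg2_N1, sg2_N2,
    sg3_S0, sg3_S1, sg3_S2, sg3_N0, sg3_N1, sg3_N2, mul_assoc, w0, w1, w2, w0', w1', w2']
theorem lf2_S0 {K : Set Pi} (hK : Good K) : Lf {z | sg 2 z ∈ K} ((sg 2)⁻¹ (S 0)) := by
  refine Lf.quot (p := (sg 2)⁻¹ (N 0 * S 1)) (q := (sg 2)⁻¹ (N 0)) ?_ (lf2_N0 hK) ?_ (pre_mono hK (Lt.s 0))
  · rw [map_mul]; exact (lf2_N0 hK).mul (lf2_S1 hK)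
  · rw [← map_mul, rel0]
theorem lg2_S0 {K : Set Pi} (hK : Good K) : Lg {z | sg 2 z ∈ K} ((sg 2)⁻¹ (S 0)) := by
  refine lg_of hK (Lt.s 0) ((lg_N hK 1).mul (lg_N hK 0)) ((lg_S hK 1).mul (lg_S hK 2)) ?_
  show _ * S 0 = _
  simp only [map_mul, map_one, mul_one, one_mul, sg0_S, sg0_N0, sg0_N1,
    sg0_N2, sg1_S0, sg1_S1, sg1_S2, sg1_N0, sg1_N1, sg1_N2, sg2_S0, sg2_S1, sg2_S2, sg2_N0, sg2_N1, sg2_N2,
    sg3_S0, sg3_S1, sg3_S2, sg3_N0, sg3_N1, sg3_N2, mul_assoc, w0, w1, w2, w0', w1', w2']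
theorem lg2_S2 {K : Set Pi} (hK : Good K) : Lg {z | sg 2 z ∈ K} ((sg 2)⁻¹ (S 2)) := by
  refine lg_of hK (Lt.s 2) (lg_N hK 1) (lg_S hK 1) ?_
  show _ * S 2 = _
  simp only [map_mul, map_one, mul_one, one_mul, sg0_S, sg0_N0, sg0_N1,
    sg0_N2, sg1_S0, sg1_S1, sg1_S2, sg1_N0, sg1_N1, sg1_N2, sg2_S0, sg2_S1, sg2_S2, sg2_N0, sg2_N1, sg2_N2,
    sg3_S0, sg3_S1, sg3_S2, sg3_N0, sg3_N1, sg3_N2, mul_assoc, w0, w1, w2, w0', w1', w2']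
theorem lg2_N0 {K : Set Pi} (hK : Good K) : Lg {z | sg 2 z ∈ K} ((sg 2)⁻¹ (N 0)) := by
  refine lg_of hK (Lt.n 0) (lg_S hK 2) (lg_N hK 2) ?_
  show _ * N 0 = _
  simp only [map_mul, map_one, mul_one, one_mul, sg0_S, sg0_N0, sg0_N1,
    sg0_N2, sg1_S0, sg1_S1, sg1_S2, sg1_N0, sg1_N1, sg1_N2, sg2_S0, sg2_S1, sg2_S2, sg2_N0, sg2_N1, sg2_N2,
    sg3_S0, sg3_S1, sg3_S2, sg3_N0, sg3_N1, sg3_N2, mul_assoc, w0, w1, w2, w0', w1', w2']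
theorem lg2_N1 {K : Set Pi} (hK : Good K) : Lg {z | sg 2 z ∈ K} ((sg 2)⁻¹ (N 1)) := by
  refine lg_of hK (Lt.n 1) (lg_S hK 1) ((lg_N hK 1).mul (lg_N hK 0)) ?_
  show _ * N 1 = _
  simp only [map_mul, map_one, mul_one, one_mul, sg0_S, sg0_N0, sg0_N1,
    sg0_N2, sg1_S0, sg1_S1, sg1_S2, sg1_N0, sg1_N1, sg1_N2, sg2_S0, sg2_S1, sg2_S2, sg2_N0, sg2_N1, sg2_N2,
    sg3_S0, sg3_S1, sg3_S2, sg3_N0, sg3_N1, sg3_N2, mul_assoc, w0, w1, w2, w0', w1', w2']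
theorem lg2_N2 {K : Set Pi} (hK : Good K) : Lg {z | sg 2 z ∈ K} ((sg 2)⁻¹ (N 2)) := by
  refine lg_of hK (Lt.n 2) (lg_S hK 0) ((lg_N hK 0).mul (lg_N hK 1)) ?_
  show _ * N 2 = _
  simp only [map_mul, map_one, mul_one, one_mul, sg0_S, sg0_N0, sg0_N1,
    sg0_N2, sg1_S0, sg1_S1, sg1_S2, sg1_N0, sg1_N1, sg1_N2, sg2_S0, sg2_S1, sg2_S2, sg2_N0, sg2_N1, sg2_N2,
    sg3_S0, sg3_S1, sg3_S2, sg3_N0, sg3_N1, sg3_N2, mul_assoc, w0, w1, w2, w0', w1', w2']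
theorem lg2_S1 {K : Set Pi} (hK : Good K) : Lg {z | sg 2 z ∈ K} ((sg 2)⁻¹ (S 1)) := by
  refine Lg.quot (p := (sg 2)⁻¹ (N 0)) (q := (sg 2)⁻¹ (S 0 * N 0)) (lg2_N0 hK) ?_ ?_ (pre_mono hK (Lt.s 1))
  · rw [map_mul]; exact (lg2_S0 hK).mul (lg2_N0 hK)
  · rw [← map_mul, ← rel0]
theorem lf3_S0 {K : Set Pi} (hK : Good K) : Lf {z | sg 3 z ∈ K} ((sg 3)⁻¹ (S 0)) := by
  refine lf_of hK (Lt.s 0) (lf_S hK 0) ((lf_N hK 0).mul (lf_N hK 2)) ?_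
  show S 0 * _ = _
  simp only [map_mul, map_one, mul_one, one_mul, sg0_S, sg0_N0, sg0_N1,
    sg0_N2, sg1_S0, sg1_S1, sg1_S2, sg1_N0, sg1_N1, sg1_N2, sg2_S0, sg2_S1, sg2_S2, sg2_N0, sg2_N1, sg2_N2,
    sg3_S0, sg3_S1, sg3_S2, sg3_N0, sg3_N1, sg3_N2, mul_assoc, w0, w1, w2, w0', w1', w2']
theorem lf3_S1 {K : Set Pi} (hK : Good K) : Lf {z | sg 3 z ∈ K} ((sg 3)⁻¹ (S 1)) := by
  refine lf_of hK (Lt.s 1) (lf_S hK 1) ((lf_N hK 2).mul (lf_N hK 0)) ?_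
  show S 1 * _ = _
  simp only [map_mul, map_one, mul_one, one_mul, sg0_S, sg0_N0, sg0_N1,
    sg0_N2, sg1_S0, sg1_S1, sg1_S2, sg1_N0, sg1_N1, sg1_N2, sg2_S0, sg2_S1, sg2_S2, sg2_N0, sg2_N1, sg2_N2,
    sg3_S0, sg3_S1, sg3_S2, sg3_N0, sg3_N1, sg3_N2, mul_assoc, w0, w1, w2, w0', w1', w2']
theorem lf3_S2 {K : Set Pi} (hK : Good K) : Lf {z | sg 3 z ∈ K} ((sg 3)⁻¹ (S 2)) := by
  refine lf_of hK (Lt.s 2) (lf_S hK 2) (lf_N hK 1) ?_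
  show S 2 * _ = _
  simp only [map_mul, map_one, mul_one, one_mul, sg0_S, sg0_N0, sg0_N1,
    sg0_N2, sg1_S0, sg1_S1, sg1_S2, sg1_N0, sg1_N1, sg1_N2, sg2_S0, sg2_S1, sg2_S2, sg2_N0, sg2_N1, sg2_N2,
    sg3_S0, sg3_S1, sg3_S2, sg3_N0, sg3_N1, sg3_N2, mul_assoc, w0, w1, w2, w0', w1', w2']
theorem lf3_N0 {K : Set Pi} (hK : Good K) : Lf {z | sg 3 z ∈ K} ((sg 3)⁻¹ (N 0)) := by
  refine lf_of hK (Lt.n 0) (lf_N hK 0) (lf_one hK) ?_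
  show N 0 * _ = _
  simp only [map_mul, map_one, mul_one, one_mul, sg0_S, sg0_N0, sg0_N1,
    sg0_N2, sg1_S0, sg1_S1, sg1_S2, sg1_N0, sg1_N1, sg1_N2, sg2_S0, sg2_S1, sg2_S2, sg2_N0, sg2_N1, sg2_N2,
    sg3_S0, sg3_S1, sg3_S2, sg3_N0, sg3_N1, sg3_N2, mul_assoc, w0, w1, w2, w0', w1', w2']
theorem lf3_N1 {K : Set Pi} (hK : Good K) : Lf {z | sg 3 z ∈ K} ((sg 3)⁻¹ (N 1)) := by
  refine lf_of hK (Lt.n 1) (lf_N hK 1) (lf_one hK) ?_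
  show N 1 * _ = _
  simp only [map_mul, map_one, mul_one, one_mul, sg0_S, sg0_N0, sg0_N1,
    sg0_N2, sg1_S0, sg1_S1, sg1_S2, sg1_N0, sg1_N1, sg1_N2, sg2_S0, sg2_S1, sg2_S2, sg2_N0, sg2_N1, sg2_N2,
    sg3_S0, sg3_S1, sg3_S2, sg3_N0, sg3_N1, sg3_N2, mul_assoc, w0, w1, w2, w0', w1', w2']
theorem lf3_N2 {K : Set Pi} (hK : Good K) : Lf {z | sg 3 z ∈ K} ((sg 3)⁻¹ (N 2)) := by
  refine lf_of hK (Lt.n 2) (lf_N hK 2) (lf_one hK) ?_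
  show N 2 * _ = _
  simp only [map_mul, map_one, mul_one, one_mul, sg0_S, sg0_N0, sg0_N1,
    sg0_N2, sg1_S0, sg1_S1, sg1_S2, sg1_N0, sg1_N1, sg1_N2, sg2_S0, sg2_S1, sg2_S2, sg2_N0, sg2_N1, sg2_N2,
    sg3_S0, sg3_S1, sg3_S2, sg3_N0, sg3_N1, sg3_N2, mul_assoc, w0, w1, w2, w0', w1', w2']
theorem lg3_S0 {K : Set Pi} (hK : Good K) : Lg {z | sg 3 z ∈ K} ((sg 3)⁻¹ (S 0)) := by
  refine lg_of hK (Lt.s 0) ((lg_N hK 0).mul (lg_N hK 1)) (lg_S hK 0) ?_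
  show _ * S 0 = _
  simp only [map_mul, map_one, mul_one, one_mul, sg0_S, sg0_N0, sg0_N1,
    sg0_N2, sg1_S0, sg1_S1, sg1_S2, sg1_N0, sg1_N1, sg1_N2, sg2_S0, sg2_S1, sg2_S2, sg2_N0, sg2_N1, sg2_N2,
    sg3_S0, sg3_S1, sg3_S2, sg3_N0, sg3_N1, sg3_N2, mul_assoc, w0, w1, w2, w0', w1', w2']
theorem lg3_S1 {K : Set Pi} (hK : Good K) : Lg {z | sg 3 z ∈ K} ((sg 3)⁻¹ (S 1)) := by
  refine lg_of hK (Lt.s 1) ((lg_N hK 1).mul (lg_N hK 0)) (lg_S hK 1) ?_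
  show _ * S 1 = _
  simp only [map_mul, map_one, mul_one, one_mul, sg0_S, sg0_N0, sg0_N1,
    sg0_N2, sg1_S0, sg1_S1, sg1_S2, sg1_N0, sg1_N1, sg1_N2, sg2_S0, sg2_S1, sg2_S2, sg2_N0, sg2_N1, sg2_N2,
    sg3_S0, sg3_S1, sg3_S2, sg3_N0, sg3_N1, sg3_N2, mul_assoc, w0, w1, w2, w0', w1', w2']
theorem lg3_S2 {K : Set Pi} (hK : Good K) : Lg {z | sg 3 z ∈ K} ((sg 3)⁻¹ (S 2)) := by
  refine lg_of hK (Lt.s 2) (lg_N hK 2) (lg_S hK 2) ?_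
  show _ * S 2 = _
  simp only [map_mul, map_one, mul_one, one_mul, sg0_S, sg0_N0, sg0_N1,
    sg0_N2, sg1_S0, sg1_S1, sg1_S2, sg1_N0, sg1_N1, sg1_N2, sg2_S0, sg2_S1, sg2_S2, sg2_N0, sg2_N1, sg2_N2,
    sg3_S0, sg3_S1, sg3_S2, sg3_N0, sg3_N1, sg3_N2, mul_assoc, w0, w1, w2, w0', w1', w2']
theorem lg3_N0 {K : Set Pi} (hK : Good K) : Lg {z | sg 3 z ∈ K} ((sg 3)⁻¹ (N 0)) := by
  refine lg_of hK (Lt.n 0) (lg_one hK) (lg_N hK 0) ?_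
  show _ * N 0 = _
  simp only [map_mul, map_one, mul_one, one_mul, sg0_S, sg0_N0, sg0_N1,
    sg0_N2, sg1_S0, sg1_S1, sg1_S2, sg1_N0, sg1_N1, sg1_N2, sg2_S0, sg2_S1, sg2_S2, sg2_N0, sg2_N1, sg2_N2,
    sg3_S0, sg3_S1, sg3_S2, sg3_N0, sg3_N1, sg3_N2, mul_assoc, w0, w1, w2, w0', w1', w2']
theorem lg3_N1 {K : Set Pi} (hK : Good K) : Lg {z | sg 3 z ∈ K} ((sg 3)⁻¹ (N 1)) := by
  refine lg_of hK (Lt.n 1) (lg_one hK) (lg_N hK 1) ?_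
  show _ * N 1 = _
  simp only [map_mul, map_one, mul_one, one_mul, sg0_S, sg0_N0, sg0_N1,
    sg0_N2, sg1_S0, sg1_S1, sg1_S2, sg1_N0, sg1_N1, sg1_N2, sg2_S0, sg2_S1, sg2_S2, sg2_N0, sg2_N1, sg2_N2,
    sg3_S0, sg3_S1, sg3_S2, sg3_N0, sg3_N1, sg3_N2, mul_assoc, w0, w1, w2, w0', w1', w2']
theorem lg3_N2 {K : Set Pi} (hK : Good K) : Lg {z | sg 3 z ∈ K} ((sg 3)⁻¹ (N 2)) := by
  refine lg_of hK (Lt.n 2) (lg_one hK) (lg_N hK 2) ?_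
  show _ * N 2 = _
  simp only [map_mul, map_one, mul_one, one_mul, sg0_S, sg0_N0, sg0_N1,
    sg0_N2, sg1_S0, sg1_S1, sg1_S2, sg1_N0, sg1_N1, sg1_N2, sg2_S0, sg2_S1, sg2_S2, sg2_N0, sg2_N1, sg2_N2,
    sg3_S0, sg3_S1, sg3_S2, sg3_N0, sg3_N1, sg3_N2, mul_assoc, w0, w1, w2, w0', w1', w2']

theorem lf_all (k : Fin 4) {K : Set Pi} (hK : Good K) (a : Lt) :
    Lf {z | sg k z ∈ K} ((sg k)⁻¹ a.val) := by
  fin_cases k
  · obtain ⟨j⟩ | ⟨j⟩ := a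
    · fin_cases j
      · exact lf0_S0 hK
      · exact lf0_S1 hK
      · exact lf0_S2 hK
    · fin_cases j
      · exact lf0_N0 hK
      · exact lf0_N1 hK
      · exact lf0_N2 hK
  · obtain ⟨j⟩ | ⟨j⟩ := a
    · fin_cases j
      · exact lf1_S0 hK
      · exact lf1_S1 hK
      · exact lf1_S2 hK
    · fin_cases j
      · exact lf1_N0 hK
      · exact lf1_N1 hK
      · exact lf1_N2 hK
  · obtain ⟨j⟩ | ⟨j⟩ := a
    · fin_cases j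
      · exact lf2_S0 hK
      · exact lf2_S1 hK
      · exact lf2_S2 hK
    · fin_cases j
      · exact lf2_N0 hK
      · exact lf2_N1 hK
      · exact lf2_N2 hK
  · obtain ⟨j⟩ | ⟨j⟩ := a
    · fin_cases j
      · exact lf3_S0 hK
      · exact lf3_S1 hK
      · exact lf3_S2 hK
    · fin_cases j
      · exact lf3_N0 hK
      · exact lf3_N1 hK
      · exact lf3_N2 hK

theorem lg_all (k : Fin 4) {K : Set Pi} (hK : Good K) (a : Lt) :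
    Lg {z | sg k z ∈ K} ((sg k)⁻¹ a.val) := by
  fin_cases k
  · obtain ⟨j⟩ | ⟨j⟩ := a
    · fin_cases j
      · exact lg0_S0 hK
      · exact lg0_S1 hK
      · exact lg0_S2 hK
    · fin_cases j
      · exact lg0_N0 hK
      · exact lg0_N1 hK
      · exact lg0_N2 hK
  · obtain ⟨j⟩ | ⟨j⟩ := a
    · fin_cases j
      · exact lg1_S0 hK
      · exact lg1_S1 hK
      · exact lg1_S2 hK
    · fin_cases j
      · exact lg1_N0 hK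
      · exact lg1_N1 hK
      · exact lg1_N2 hK
  · obtain ⟨j⟩ | ⟨j⟩ := a
    · fin_cases j
      · exact lg2_S0 hK
      · exact lg2_S1 hK
      · exact lg2_S2 hK
    · fin_cases j
      · exact lg2_N0 hK
      · exact lg2_N1 hK
      · exact lg2_N2 hK
  · obtain ⟨j⟩ | ⟨j⟩ := a
    · fin_cases j
      · exact lg3_S0 hK
      · exact lg3_S1 hK
      · exact lg3_S2 hK
    · fin_cases j
      · exact lg3_N0 hK
      · exact lg3_N1 hK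
      · exact lg3_N2 hK

theorem good_sg (k : Fin 4) {K : Set Pi} (hK : Good K) : Good {z | sg k z ∈ K} :=
  good_of_lift (sg k) hK (mono_sg k hK) (lf_all k hK) (lg_all k hK)

end Pool.Agent.VSB
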