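import Pool.Agent.VSB.KIneq

/-! # VSB/Grow: growth along alternating words

`act (false, a) = alpha a` (the group `A`), `act (true, a) = psi⁻¹ * alpha a * psi` (the group `φ A φ⁻¹`,
`φ = ψ⁻¹`). In `(L.map act).prod y` the last letter of `L` acts first.

* `alt_step`: `kineq` (twice, according to which of `s`, `s'` has type `true`); `ell (act (true, b) y) = ell (alpha b (psi y))`
by `ell_psii`.
* `act_inv`: `(act s)⁻¹ = act (s.1, s.2⁻¹)`, and `InT` is closed under inverses (`zz` is central of
order two, `tt` and `zz` commute): `InT_inv`.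
* `grow`: by induction on `L` prove more: for `L = s :: L'`, `ell ((L'.map act).prod y) < ell ((L.map act).prod y)`.
If `L' = []` this is `kineq0`. If `L' = s' :: L''`, put `y' = (L'.map act).prod y`; then `(act s')⁻¹ y' = (L''.map act).prod y`
and `3 * ell y' ≤ ell (act s y') + ell ((act s')⁻¹ y')` by `alt_step` (types of `s` and `s'` differ), with
`ell ((act s')⁻¹ y') < ell y'` by induction.
* `no_periodic`: first `m = 1`. Let `n = L.length` (`n ≥ 2` since the types of head and last differ) and
`y i = ((L.drop (n - i)).map act).prod y` for `0 ≤ i ≤ n` : `y 0 = y`, `y (i + 1) = act (L[n - 1 - i]) (y i)`,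
`y n = (L.map act).prod y = w * y^{±1} * w⁻¹`, hence `ell (u (y n)) = ell (u (y 0))` for each automorphism `u`
(`ell_conj`, `ell_inv`). `alt_step` gives `3 * ell (y i) ≤ ell (y (i - 1)) + ell (y (i + 1))` for `1 ≤ i ≤ n - 1`, and
at `i = 0`: `3 * ell (y 0) ≤ ell (y 1) + ell ((act L[0])⁻¹ (y 0)) = ell (y 1) + ell (y (n - 1))` (cyclic condition).
Sum over `i = 0, …, n - 1` (with `ell (y n) = ell (y 0)`): `3 * ∑ ≤ 2 * ∑`, so all `ell (y i) = 0`; but `ell (y 0) = 0` and
`y ≠ 1` give `1 ≤ ell (y 1)` by `kineq0`. Contradiction.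
General `m ≥ 1`: `((L.map act).prod) ^ m = ((List.replicate m L).flatten.map act).prod` and the word
`(List.replicate m L).flatten` satisfies the same hypotheses (`Alt` by induction with `List.isChain_append`, head of `L`
and last letter of `L` have different types). -/

set_option autoImplicit false

namespace Pool.Agent.VSB

/-- the letters of the amalgam as automorphisms -/
noncomputable def act (s : Bool × Hk) : MulAut Pi :=
  if s.1 then psi⁻¹ * alpha s.2 * psi else alpha s.2

/-- alternating words -/
def Alt (L : List (Bool × Hk)) : Prop :=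
  (∀ s ∈ L, ¬ InT s.2) ∧ L.IsChain (fun s s' => s.1 ≠ s'.1)

theorem InT_inv {h : Hk} (hh : InT h) : InT h⁻¹ := by
  obtain ⟨ε, m, rfl⟩ := hh
  refine ⟨ε, -m, ?_⟩
  have h1 : (zz ^ ε)⁻¹ = zz ^ ε := by rw [← inv_pow, zz_inv]
  rw [mul_inv_rev, h1, ← zpow_neg, zz_pow_comm]

theorem not_InT_inv {h : Hk} (hh : ¬ InT h) : ¬ InT h⁻¹ := fun h1 => hh (by
  have := InT_inv h1
  rwa [inv_inv] at this)

theorem act_false (a : Hk) (y : Pi) : act (false, a) y = alpha a y := by
  simp [act]

theorem act_true (a : Hk) (y : Pi) : act (true, a) y = psi⁻¹ (alpha a (psi y)) := by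
  simp only [act, if_true]
  rfl

theorem act_inv (s : Bool × Hk) : (act s)⁻¹ = act (s.1, s.2⁻¹) := by
  obtain ⟨b, a⟩ := s
  cases b
  · simp [act]
  · simp only [act, if_true, map_inv]
    group

theorem alt_step {s s' : Bool × Hk} (hs : ¬ InT s.2) (hs' : ¬ InT s'.2) (h : s.1 ≠ s'.1) (y : Pi) :
    3 * ell y ≤ ell (act s y) + ell (act s' y) := by
  obtain ⟨b, a⟩ := s
  obtain ⟨b', a'⟩ := s'
  cases b <;> cases b'
  · exact absurd rfl h
  · rw [act_false, act_true, ell_psii]
    exact kineq hs hs' y
  · rw [act_false, act_true, ell_psii, add_comm]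
    exact kineq hs' hs y
  · exact absurd rfl h

private theorem act_pos {s : Bool × Hk} (hs : ¬ InT s.2) {y : Pi} (hy : y ≠ 1) (h0 : ell y = 0) :
    1 ≤ ell (act s y) := by
  obtain ⟨b, a⟩ := s
  cases b
  · rw [act_false]; exact (kineq0 hs hy h0).1
  · rw [act_true, ell_psii]; exact (kineq0 hs hy h0).2

private theorem act_cancel (s : Bool × Hk) (y : Pi) : act (s.1, s.2⁻¹) (act s y) = y := by
  rw [← act_inv, MulAut.inv_apply_self]

private theorem grow_aux {y : Pi} (hy : y ≠ 1) (h0 : ell y = 0) : ∀ (L : List (Bool × Hk))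
    (s : Bool × Hk), Alt (s :: L) → ell ((L.map act).prod y) < ell (((s :: L).map act).prod y) := by
  intro L
  induction L with
  | nil =>
    intro s hL
    have h1 := act_pos (hL.1 s (by simp)) hy h0
    simp only [List.map_nil, List.prod_nil, List.map_cons, List.prod_cons, mul_one,
      MulAut.one_apply, h0]
    omega
  | cons s' L ih =>
    intro s hL
    have hL' : Alt (s' :: L) := ⟨fun x hx => hL.1 x (List.mem_cons_of_mem _ hx), hL.2.tail⟩
    have h1 := ih s' hL'
    have hne : s.1 ≠ s'.1 := (List.isChain_cons_cons.1 hL.2).1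
    have h2 := alt_step (hL.1 s (by simp)) (s' := (s'.1, s'.2⁻¹))
      (not_InT_inv (hL.1 s' (by simp))) hne (((s' :: L).map act).prod y)
    have h3 : act (s'.1, s'.2⁻¹) (((s' :: L).map act).prod y) = (L.map act).prod y := by
      rw [List.map_cons, List.prod_cons, MulAut.mul_apply, act_cancel]
    rw [h3] at h2
    have h4 : ((s :: s' :: L).map act).prod y = act s (((s' :: L).map act).prod y) := by
      rw [List.map_cons, List.prod_cons, MulAut.mul_apply]
    rw [h4]
    omega

theorem grow {L : List (Bool × Hk)} (hL : Alt L) (hne : L ≠ []) {y : Pi} (hy : y ≠ 1)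
    (h0 : ell y = 0) : 1 ≤ ell ((L.map act).prod y) := by
  cases L with
  | nil => exact absurd rfl hne
  | cons s L =>
    have := grow_aux hy h0 L s hL
    omega

/-- the case `m = 1` -/
private theorem no_periodic_one {L : List (Bool × Hk)} (hL : Alt L) (hne : L ≠ [])
    (hcyc : (L.head hne).1 ≠ (L.getLast hne).1) {y : Pi} (hy : y ≠ 1)
    (hper : ∀ u : MulAut Pi, ell (u ((L.map act).prod y)) = ell (u y)) : False := by
  set n := L.length with hn
  have hn0 : 0 < n := List.length_pos_of_ne_nil hne
  have hn2 : 2 ≤ n := by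
    by_contra hlt
    have h1 : n = 1 := by omega
    obtain ⟨a, ha⟩ := List.length_eq_one_iff.1 (hn.symm.trans h1)
    subst ha
    exact hcyc rfl
  let Y : ℕ → Pi := fun i => ((L.drop (n - i)).map act).prod y
  have hY0 : Y 0 = y := by
    simp only [Y, Nat.sub_zero, hn, List.drop_length, List.map_nil, List.prod_nil,
      MulAut.one_apply]
  have hYn : Y n = (L.map act).prod y := by
    simp only [Y, Nat.sub_self, List.drop_zero]
  have hstep : ∀ (k : ℕ) (hk : k < n), Y (n - k) = act (L[k]'(hk)) (Y (n - (k + 1))) := by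
    intro k hk
    simp only [Y]
    rw [show n - (n - k) = k by omega, show n - (n - (k + 1)) = k + 1 by omega,
      List.drop_eq_getElem_cons hk, List.map_cons, List.prod_cons, MulAut.mul_apply]
  have hT : ∀ (k : ℕ) (hk : k < n), ¬ InT (L[k]'(hk)).2 := fun k hk => hL.1 _ (List.getElem_mem _)
  have hch : ∀ (k : ℕ) (hk : k + 1 < n), (L[k]'(by omega)).1 ≠ (L[k + 1]'(hk)).1 := by
    intro k hk
    exact List.isChain_iff_getElem.1 hL.2 k hk
  -- interior inequalities
  have hint : ∀ k, k + 1 < n → 3 * ell (Y (n - (k + 1))) ≤ ell (Y (n - k)) + ell (Y (n - (k + 2))) := by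
    intro k hk
    have h1 := alt_step (s := L[k]'(by omega)) (s' := ((L[k + 1]'(hk)).1, (L[k + 1]'(hk)).2⁻¹))
      (hT k (by omega)) (not_InT_inv (hT (k + 1) hk)) (hch k hk) (Y (n - (k + 1)))
    rw [← hstep k (by omega)] at h1
    have h2 := hstep (k + 1) hk
    rw [h2, act_cancel] at h1
    rw [h2]
    exact h1
  -- the inequality at `0`
  have hzero : 3 * ell (Y 0) ≤ ell (Y 1) + ell (Y (n - 1)) := by
    have hlast : L.getLast hne = L[n - 1]'(by omega) := List.getLast_eq_getElem hne
    have hhead : L.head hne = L[0]'(by omega) := by rw [List.head_eq_getElem]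
    have h1 := alt_step (s := L[n - 1]'(by omega)) (s' := ((L[0]'(by omega)).1, (L[0]'(by omega)).2⁻¹))
      (hT (n - 1) (by omega)) (not_InT_inv (hT 0 (by omega))) (by
        rw [← hlast, ← hhead]; exact hcyc.symm) (Y 0)
    have h2 := hstep (n - 1) (by omega)
    rw [show n - (n - 1) = 1 by omega, show n - (n - 1 + 1) = 0 by omega] at h2
    rw [← h2] at h1
    have h3 := hstep 0 hn0
    rw [Nat.sub_zero, zero_add, hYn] at h3
    have h4 := hper (act ((L[0]'(by omega)).1, (L[0]'(by omega)).2⁻¹))
    rw [h3, act_cancel, ← hY0] at h4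
    rw [← h4] at h1
    exact h1
  have hnn : ell (Y n) = ell (Y 0) := by
    have := hper 1
    rw [MulAut.one_apply, MulAut.one_apply] at this
    rw [hYn, hY0, this]
  -- maximum
  obtain ⟨i, hi, hmax⟩ := Finset.exists_max_image (Finset.range n) (fun i => ell (Y i))
    ⟨0, Finset.mem_range.2 hn0⟩
  rw [Finset.mem_range] at hi
  have hmax' : ∀ j, j ≤ n → ell (Y j) ≤ ell (Y i) := by
    intro j hj
    rcases Nat.lt_or_ge j n with hj' | hj'
    · exact hmax j (Finset.mem_range.2 hj')
    · have : j = n := by omega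
      rw [this, hnn]
      exact hmax 0 (Finset.mem_range.2 hn0)
  have hi0 : ell (Y i) = 0 := by
    rcases Nat.eq_zero_or_pos i with h | h
    · subst h
      have h1 := hmax' 1 (by omega)
      have h2 := hmax' (n - 1) (by omega)
      omega
    · have h1 := hint (n - 1 - i) (by omega)
      rw [show n - (n - 1 - i + 1) = i by omega] at h1
      have h2 := hmax' (n - (n - 1 - i)) (by omega)
      have h3 := hmax' (n - (n - 1 - i + 2)) (by omega)
      omega
  have hy0 : ell y = 0 := by
    have := hmax' 0 (by omega)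
    rw [hY0] at this
    omega
  have h1 := hmax' 1 (by omega)
  have h2 := hstep (n - 1) (by omega)
  rw [show n - (n - 1) = 1 by omega, show n - (n - 1 + 1) = 0 by omega, hY0] at h2
  have h3 := act_pos (hT (n - 1) (by omega)) hy hy0
  rw [← h2] at h3
  omega

private theorem rep_facts {L : List (Bool × Hk)} (hL : Alt L) {a b : Bool × Hk}
    (ha : L.head? = some a) (hb : L.getLast? = some b) (hab : a.1 ≠ b.1) (m : ℕ) :
    Alt (List.replicate (m + 1) L).flatten ∧ (List.replicate (m + 1) L).flatten.head? = some a ∧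
      (List.replicate (m + 1) L).flatten.getLast? = some b ∧
      ((List.replicate (m + 1) L).flatten.map act).prod = (L.map act).prod ^ (m + 1) := by
  induction m with
  | zero =>
    simp only [zero_add, List.replicate_one, List.flatten_cons, List.flatten_nil, List.append_nil,
      pow_one]
    exact ⟨hL, ha, hb, trivial⟩
  | succ m ih =>
    obtain ⟨h1, h2, h3, h4⟩ := ih
    rw [List.replicate_succ, List.flatten_cons]
    refine ⟨⟨?_, ?_⟩, ?_, ?_, ?_⟩
    · intro s hs
      rcases List.mem_append.1 hs with h | h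
      · exact hL.1 s h
      · exact h1.1 s h
    · rw [List.isChain_append]
      refine ⟨hL.2, h1.2, ?_⟩
      intro x hx z hz
      rw [hb] at hx
      rw [h2] at hz
      simp only [Option.mem_def, Option.some.injEq] at hx hz
      subst hx hz
      exact hab.symm
    · rw [List.head?_append, ha]; rfl
    · rw [List.getLast?_append, h3]; rfl
    · rw [List.map_append, List.prod_append, h4, pow_succ' _ (m + 1)]

theorem no_periodic {L : List (Bool × Hk)} (hL : Alt L) (hne : L ≠ [])
    (hcyc : (L.head hne).1 ≠ (L.getLast hne).1) {y : Pi} (hy : y ≠ 1) {m : ℕ} (hm : 1 ≤ m) (w : Pi) :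
    ((L.map act).prod ^ m) y ≠ w * y * w⁻¹ ∧ ((L.map act).prod ^ m) y ≠ w * y⁻¹ * w⁻¹ := by
  obtain ⟨k, rfl⟩ : ∃ k, m = k + 1 := ⟨m - 1, by omega⟩
  have ha : L.head? = some (L.head hne) := List.head?_eq_some_head hne
  have hb : L.getLast? = some (L.getLast hne) := List.getLast?_eq_some_getLast hne
  obtain ⟨h1, h2, h3, h4⟩ := rep_facts hL ha hb hcyc k
  have hne' : (List.replicate (k + 1) L).flatten ≠ [] := by
    intro h
    rw [h] at h2
    simp at h2
  have hcyc' : ((List.replicate (k + 1) L).flatten.head hne').1 ≠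
      ((List.replicate (k + 1) L).flatten.getLast hne').1 := by
    rw [List.head?_eq_some_head hne', Option.some.injEq] at h2
    rw [List.getLast?_eq_some_getLast hne', Option.some.injEq] at h3
    rw [h2, h3]
    exact hcyc
  constructor
  · intro h
    refine no_periodic_one h1 hne' hcyc' hy ?_
    intro u
    rw [h4, h, map_mul, map_mul, map_inv, ell_conj]
  · intro h
    refine no_periodic_one h1 hne' hcyc' hy ?_
    intro u
    rw [h4, h, map_mul, map_mul, map_inv, map_inv, ell_conj, ell_inv]

end Pool.Agent.VSB
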