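import Pool.Agent.VSB.Homol

/-! # VSB/Heis: the second invariant of a commutator

PROOF of `comm_conj`. Let `B` be a bilinear form with `B v w - B w v = β v w` (for instance
`B v w = ∑ i, ∑ j > i, v i * w j * β (e i) (e j)`), and `Hβ` the group structure on `(Fin 4 → ℤ) × ℤ` with
`(v, s) * (w, t) = (v + w, s + t + B v w)`. The assignments `S j ↦ (hv (S j), s_j)`, `N j ↦ (hv (N j), n_j)` satisfy the
three relations iff `s₀ - s₁ = - β b c`, `s₁ - s₀ + n₂ - n₁ = - β b d`, `n₁ - n₂ = - β a d` (`a, b, c, d` the coordinate vectors 0, 1, 2, 3),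
which can be solved because `β b c + β b d + β a d = 0`. So there is a homomorphism `κ : Pi →* Hβ` (`toHom`) with first
component `hv`. The commutator of `(v, s)`, `(w, t)` is `(0, β v w)`, which is central. -/

set_option autoImplicit false

open scoped commutatorElement

namespace Pool.Agent.VSB

/-- coordinate vectors of `ℤ⁴` -/
def cv (i : Fin 4) : Fin 4 → ℤ := Pi.single i 1

/-- the Heisenberg group of a bilinear form -/
@[ext]
structure HG (β : (Fin 4 → ℤ) →ₗ[ℤ] (Fin 4 → ℤ) →ₗ[ℤ] ℤ) where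
  /-- first component -/
  v : Fin 4 → ℤ
  /-- central component -/
  s : ℤ

namespace HG

variable (β : (Fin 4 → ℤ) →ₗ[ℤ] (Fin 4 → ℤ) →ₗ[ℤ] ℤ)

instance : Mul (HG β) := ⟨fun x y => ⟨x.v + y.v, x.s + y.s + β x.v y.v⟩⟩

instance : One (HG β) := ⟨⟨0, 0⟩⟩

instance : Inv (HG β) := ⟨fun x => ⟨-x.v, -x.s + β x.v x.v⟩⟩

variable {β}

theorem mul_v (x y : HG β) : (x * y).v = x.v + y.v := rfl

theorem mul_s (x y : HG β) : (x * y).s = x.s + y.s + β x.v y.v := rfl

theorem one_v : (1 : HG β).v = 0 := rfl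

theorem one_s : (1 : HG β).s = 0 := rfl

theorem inv_v (x : HG β) : (x⁻¹).v = -x.v := rfl

theorem inv_s (x : HG β) : (x⁻¹).s = -x.s + β x.v x.v := rfl

instance : Group (HG β) := Group.ofLeftAxioms
  (by
    intro x y z
    ext1
    · rw [mul_v, mul_v, mul_v, mul_v, add_assoc]
    · rw [mul_s, mul_s, mul_s, mul_s, mul_v, mul_v, map_add, map_add, LinearMap.add_apply]
      ring)
  (by
    intro x
    ext1
    · rw [mul_v, one_v, zero_add]
    · rw [mul_s, one_s, one_v, map_zero, LinearMap.zero_apply, zero_add, add_zero])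
  (by
    intro x
    ext1
    · rw [mul_v, inv_v, one_v, neg_add_cancel]
    · rw [mul_s, inv_s, inv_v, one_s, map_neg, LinearMap.neg_apply]
      ring)

/-- central elements -/
def z (r : ℤ) : HG β := ⟨0, r⟩

theorem z_mul (r : ℤ) (x : HG β) : z r * x = ⟨x.v, r + x.s⟩ := by
  ext1
  · rw [mul_v]; exact zero_add _
  · rw [mul_s]
    show r + x.s + β 0 x.v = r + x.s
    rw [map_zero, LinearMap.zero_apply, add_zero]

theorem mul_z (r : ℤ) (x : HG β) : x * z r = ⟨x.v, r + x.s⟩ := by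
  ext1
  · rw [mul_v]; exact add_zero _
  · rw [mul_s]
    show x.s + r + β x.v 0 = r + x.s
    rw [map_zero, add_zero, add_comm]

theorem conj_z (r : ℤ) (x : HG β) : x * z r * x⁻¹ = z r := by
  rw [mul_z, ← z_mul, mul_inv_cancel_right]

theorem z_inv (r : ℤ) : (z r : HG β)⁻¹ = z (-r) := by
  rw [inv_eq_iff_mul_eq_one, z_mul]
  ext1
  · rfl
  · show r + -r = 0
    ring

theorem comm_eq (x y : HG β) : ⁅x, y⁆ = z (β x.v y.v - β y.v x.v) := by
  have h : x * y = z (β x.v y.v - β y.v x.v) * (y * x) := by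
    rw [z_mul]
    ext1
    · rw [mul_v]
      show x.v + y.v = y.v + x.v
      rw [add_comm]
    · rw [mul_s]
      show _ = β x.v y.v - β y.v x.v + (y.s + x.s + β y.v x.v)
      ring
  rw [commutatorElement_def, h]
  group

/-- projection -/
def pr : HG β →* Multiplicative (Fin 4 → ℤ) where
  toFun x := Multiplicative.ofAdd x.v
  map_one' := rfl
  map_mul' _ _ := rfl

end HG

theorem exists_kappa (β : (Fin 4 → ℤ) →ₗ[ℤ] (Fin 4 → ℤ) →ₗ[ℤ] ℤ) (ha : ∀ v, β v v = 0)
    (hβ : β (cv 1) (cv 2) + β (cv 1) (cv 3) + β (cv 0) (cv 3) = 0) :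
    ∃ κ : Pi →* HG β, ∀ x, (κ x).v = hv x := by
  have hanti : ∀ v w, β w v = -β v w := by
    intro v w
    have h := ha (v + w)
    rw [map_add, map_add, LinearMap.add_apply, LinearMap.add_apply, ha, ha] at h
    linarith
  let s : Fin 3 → HG β := ![⟨cv 1, -(2 * β (cv 1) (cv 2))⟩, ⟨cv 1, 0⟩, ⟨cv 0, 0⟩]
  let n : Fin 3 → HG β := ![⟨cv 2, 0⟩, ⟨cv 3, -(2 * β (cv 0) (cv 3))⟩, ⟨cv 3, 0⟩]
  have r0 : s 0 * n 0 = n 0 * s 1 := by
    ext1
    · show cv 1 + cv 2 = cv 2 + cv 1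
      rw [add_comm]
    · show -(2 * β (cv 1) (cv 2)) + 0 + β (cv 1) (cv 2) = 0 + 0 + β (cv 2) (cv 1)
      rw [hanti (cv 1) (cv 2)]
      ring
  have r1 : s 1 * n 2 = n 1 * s 0 := by
    ext1
    · show cv 1 + cv 3 = cv 3 + cv 1
      rw [add_comm]
    · show 0 + 0 + β (cv 1) (cv 3) =
        -(2 * β (cv 0) (cv 3)) + -(2 * β (cv 1) (cv 2)) + β (cv 3) (cv 1)
      rw [hanti (cv 1) (cv 3)]
      linarith
  have r2 : s 2 * n 1 = n 2 * s 2 := by
    ext1
    · show cv 0 + cv 3 = cv 3 + cv 0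
      rw [add_comm]
    · show 0 + -(2 * β (cv 0) (cv 3)) + β (cv 0) (cv 3) = 0 + 0 + β (cv 3) (cv 0)
      rw [hanti (cv 0) (cv 3)]
      ring
  refine ⟨toHom s n r0 r1 r2, fun x => ?_⟩
  have h : HG.pr.comp (toHom s n r0 r1 r2) = coo := by
    apply hom_ext
    · intro j
      rw [MonoidHom.comp_apply, toHom_S, coo, toHom_S]
      fin_cases j
      · show Multiplicative.ofAdd (cv 1) = Multiplicative.ofAdd ![0, 1, 0, 0]
        congr 1; ext i; fin_cases i <;> rfl
      · show Multiplicative.ofAdd (cv 1) = Multiplicative.ofAdd ![0, 1, 0, 0]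
        congr 1; ext i; fin_cases i <;> rfl
      · show Multiplicative.ofAdd (cv 0) = Multiplicative.ofAdd ![1, 0, 0, 0]
        congr 1; ext i; fin_cases i <;> rfl
    · intro j
      rw [MonoidHom.comp_apply, toHom_N, coo, toHom_N]
      fin_cases j
      · show Multiplicative.ofAdd (cv 2) = Multiplicative.ofAdd ![0, 0, 1, 0]
        congr 1; ext i; fin_cases i <;> rfl
      · show Multiplicative.ofAdd (cv 3) = Multiplicative.ofAdd ![0, 0, 0, 1]
        congr 1; ext i; fin_cases i <;> rfl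
      · show Multiplicative.ofAdd (cv 3) = Multiplicative.ofAdd ![0, 0, 0, 1]
        congr 1; ext i; fin_cases i <;> rfl
  have h2 := DFunLike.congr_fun h x
  show (toHom s n r0 r1 r2 x).v = Multiplicative.toAdd (coo x)
  rw [← h2]
  rfl

theorem comm_conj (β : (Fin 4 → ℤ) →ₗ[ℤ] (Fin 4 → ℤ) →ₗ[ℤ] ℤ) (ha : ∀ v, β v v = 0)
    (hβ : β (cv 1) (cv 2) + β (cv 1) (cv 3) + β (cv 0) (cv 3) = 0) (x y x' y' g : Pi) :
    (⁅x', y'⁆ = g * ⁅x, y⁆ * g⁻¹ → β (hv x') (hv y') = β (hv x) (hv y)) ∧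
    (⁅x', y'⁆ = g * ⁅x, y⁆⁻¹ * g⁻¹ → β (hv x') (hv y') = - β (hv x) (hv y)) := by
  obtain ⟨κ, hκ⟩ := exists_kappa β ha hβ
  have hanti : ∀ v w, β w v = -β v w := by
    intro v w
    have h := ha (v + w)
    rw [map_add, map_add, LinearMap.add_apply, LinearMap.add_apply, ha, ha] at h
    linarith
  have hc : ∀ x y : Pi, κ ⁅x, y⁆ = HG.z (2 * β (hv x) (hv y)) := by
    intro x y
    rw [map_commutatorElement, HG.comm_eq, hκ, hκ, hanti (hv x) (hv y)]
    congr 1
    ring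
  constructor
  · intro h
    have h1 := congrArg κ h
    rw [hc, map_mul, map_mul, map_inv, hc, HG.conj_z] at h1
    have h2 := congrArg HG.s h1
    have h3 : 2 * β (hv x') (hv y') = 2 * β (hv x) (hv y) := h2
    linarith
  · intro h
    have h1 := congrArg κ h
    rw [hc, map_mul, map_mul, map_inv, map_inv, hc, HG.z_inv, HG.conj_z] at h1
    have h2 := congrArg HG.s h1
    have h3 : 2 * β (hv x') (hv y') = -(2 * β (hv x) (hv y)) := h2
    linarith

end Pool.Agent.VSB
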