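import Pool.Agent.VSB.PosSw

/-! # VSB/Hk: the abstract affine group `⟨r, s | r ^ 5 = s ^ 2, s ^ 4 = 1⟩`

`SL₂` triangle group of signature `(2, 5, ∞)`; `z = s ^ 2` is central of order two, `tt = r * s` the parabolic element,
`sgm k = r ^ (k + 1) * s = r ^ k * tt`. `alpha` is the action on `Pi`. -/

set_option autoImplicit false

namespace Pool.Agent.VSB

/-- relations of the abstract affine group -/
def hrels : Set (FreeGroup (Fin 2)) :=
  {FreeGroup.of 0 ^ 5 * (FreeGroup.of 1 ^ 2)⁻¹, FreeGroup.of 1 ^ 4}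

/-- the abstract affine group -/
abbrev Hk : Type := PresentedGroup hrels

def rr : Hk := PresentedGroup.of 0
def ss : Hk := PresentedGroup.of 1
def zz : Hk := ss ^ 2
def tt : Hk := rr * ss

theorem rr_pow5 : rr ^ 5 = zz := by
  have h := PresentedGroup.one_of_mem (rels := hrels) (x := FreeGroup.of 0 ^ 5 * (FreeGroup.of 1 ^ 2)⁻¹)
    (Or.inl rfl)
  have h' : rr ^ 5 * (ss ^ 2)⁻¹ = 1 := h
  rw [mul_inv_eq_one] at h'
  exact h'

theorem ss_pow4 : ss ^ 4 = 1 :=
  PresentedGroup.one_of_mem (rels := hrels) (x := FreeGroup.of 1 ^ 4) (Or.inr rfl)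

theorem zz_sq : zz ^ 2 = 1 := by
  rw [zz, ← pow_mul]; exact ss_pow4

theorem rr_pow10 : rr ^ 10 = 1 := by
  rw [show 10 = 5 * 2 from rfl, pow_mul, rr_pow5, zz_sq]

/-- induction over products of the generators (`rr`, `ss` have finite order) -/
theorem hk_induction {P : Hk → Prop} (h1 : P 1) (hr : ∀ h, P h → P (h * rr))
    (hs : ∀ h, P h → P (h * ss)) (h : Hk) : P h := by
  have hrp : ∀ (n : ℕ) (h : Hk), P h → P (h * rr ^ n) := by
    intro n
    induction n with
    | zero => intro h hh; simpa using hh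
    | succ n ih =>
      intro h hh
      rw [pow_succ, ← mul_assoc]
      exact hr _ (ih h hh)
  have hsp : ∀ (n : ℕ) (h : Hk), P h → P (h * ss ^ n) := by
    intro n
    induction n with
    | zero => intro h hh; simpa using hh
    | succ n ih =>
      intro h hh
      rw [pow_succ, ← mul_assoc]
      exact hs _ (ih h hh)
  have hri : rr⁻¹ = rr ^ 9 := by
    rw [inv_eq_iff_mul_eq_one, ← pow_succ']
    exact rr_pow10
  have hsi : ss⁻¹ = ss ^ 3 := by
    rw [inv_eq_iff_mul_eq_one, ← pow_succ']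
    exact ss_pow4
  have key : ∀ w : FreeGroup (Fin 2), ∀ g : Hk, P g → P (g * PresentedGroup.mk hrels w) := by
    intro w
    induction w using FreeGroup.induction_on with
    | C1 => intro g hg; rw [map_one, mul_one]; exact hg
    | of i =>
      intro g hg
      fin_cases i
      · exact hr g hg
      · exact hs g hg
    | inv_of i _ =>
      intro g hg
      rw [map_inv]
      fin_cases i
      · have h9 := hrp 9 g hg
        rw [← hri] at h9
        exact h9
      · have h3 := hsp 3 g hg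
        rw [← hsi] at h3
        exact h3
    | mul x y hx hy =>
      intro g hg
      rw [map_mul, ← mul_assoc]
      exact hy _ (hx g hg)
  obtain ⟨w, rfl⟩ := PresentedGroup.mk_surjective hrels h
  have := key w 1 h1
  rwa [one_mul] at this

theorem zz_comm (h : Hk) : h * zz = zz * h := by
  refine hk_induction (P := fun h => h * zz = zz * h) ?_ ?_ ?_ h
  · rw [one_mul, mul_one]
  · intro h hh
    have hc : rr * zz = zz * rr := by rw [← rr_pow5, ← pow_succ', ← pow_succ]
    calc h * rr * zz = h * (rr * zz) := mul_assoc _ _ _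
      _ = h * zz * rr := by rw [hc, mul_assoc]
      _ = zz * (h * rr) := by rw [hh, mul_assoc]
  · intro h hh
    have hc : ss * zz = zz * ss := by rw [zz, ← pow_succ', ← pow_succ]
    calc h * ss * zz = h * (ss * zz) := mul_assoc _ _ _
      _ = h * zz * ss := by rw [hc, mul_assoc]
      _ = zz * (h * ss) := by rw [hh, mul_assoc]

/-- homomorphisms out of `Hk` -/
def hkLift {G : Type*} [Group G] (R S' : G) (h1 : R ^ 5 = S' ^ 2) (h2 : S' ^ 4 = 1) : Hk →* G :=
  PresentedGroup.toGroup (f := ![R, S']) (by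
    rintro x (rfl | rfl)
    · simp [h1]
    · simp [h2])

theorem hkLift_rr {G : Type*} [Group G] (R S' : G) (h1 : R ^ 5 = S' ^ 2) (h2 : S' ^ 4 = 1) :
    hkLift R S' h1 h2 rr = R := PresentedGroup.toGroup.of _

theorem hkLift_ss {G : Type*} [Group G] (R S' : G) (h1 : R ^ 5 = S' ^ 2) (h2 : S' ^ 4 = 1) :
    hkLift R S' h1 h2 ss = S' := PresentedGroup.toGroup.of _

theorem hk_hom_ext {G : Type*} [Group G] {φ ψ : Hk →* G} (h1 : φ rr = ψ rr) (h2 : φ ss = ψ ss) :
    φ = ψ := by
  apply PresentedGroup.ext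
  intro i
  fin_cases i
  · exact h1
  · exact h2

/-- the action on `Pi` -/
def alpha : Hk →* MulAut Pi := hkLift aR aS (by rw [aR_pow5, aS_sq]) (by
  rw [show 4 = 2 * 2 from rfl, pow_mul, aS_sq, aI_sq])

theorem alpha_rr : alpha rr = aR := hkLift_rr _ _ _ _
theorem alpha_ss : alpha ss = aS := hkLift_ss _ _ _ _
theorem alpha_zz : alpha zz = aI := by rw [zz, map_pow, alpha_ss, aS_sq]
theorem alpha_tt : alpha tt = aT := by rw [tt, map_mul, alpha_rr, alpha_ss]; rfl

/-- the positive elements -/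
def sgm (k : Fin 4) : Hk := rr ^ (k : ℕ) * tt

/-- products of positive elements -/
def sw (ks : List (Fin 4)) : Hk := (ks.map sgm).prod

theorem alpha_sgm (k : Fin 4) : alpha (sgm k) = sg k := by
  rw [sgm, map_mul, map_pow, alpha_rr, alpha_tt]; rfl

theorem alpha_sw (ks : List (Fin 4)) : alpha (sw ks) = sgw ks := by
  simp [sw, sgw, map_list_prod, Function.comp_def, alpha_sgm]

/-- elements of `±⟨tt⟩` -/
def InT (h : Hk) : Prop := ∃ (ε : ℕ) (m : ℤ), h = zz ^ ε * tt ^ m

/-- hyperbolic positive words -/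
def Hyp (ks : List (Fin 4)) : Prop := (∃ k ∈ ks, k ≠ 0) ∧ ∃ k ∈ ks, k ≠ 3

end Pool.Agent.VSB
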