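import Pool.Agent.VSB.HkNF

/-! # VSB/HkAb: the commutator subgroup of the affine group

`chi rr = 2`, `chi ss = 5`, `chi tt = 7`, `chi zz = 10` in `ZMod 20`.
`ker_chi`: modulo the commutator subgroup every `h` is `rr ^ i * ss ^ j`; if `2 i + 5 j = 0` mod `20` then `j = 2 j'`,
`i + 5 j' = 0` mod `10` and `rr ^ i * ss ^ (2 j') = rr ^ (i + 5 j') = 1`.
`mem_zpowers_of_InT`: `chi (zz ^ ε * tt ^ m) = 10 ε + 7 m = 0` gives `m = 10 n`, `ε + n` even,
`zz ^ ε * tt ^ m = (zz * tt ^ 10) ^ n` (`zz` central, `zz ^ 2 = 1`).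
`exists_mul_tt`: `7` generates `ZMod 20`.
`A_cases`: `conj_nf`. If `a` is conjugate to `zz ^ ε * rr ^ j`, `j ≤ 4`: `10 ε + 2 j = 0` gives `j ∈ {0}` and `ε` even (or `j = 5` excluded), so
`a = 1 = dA ^ 0`; `zz ^ ε * ss`: `10 ε + 5 = 0` impossible; `zz ^ ε * sw ks`: if all entries are `0` it is `zz ^ ε * tt ^ n`, if all
are `3` it is conjugate to `zz ^ ε * tt ^ (-n)` (`sw_three`), in both cases `= dA ^ m` (conjugation does not change
`chi`), and the conjugating element `g = b * tt ^ k` (`exists_mul_tt`) may be replaced by `b ∈ A`; otherwise `Hyp ks`. -/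

set_option autoImplicit false

namespace Pool.Agent.VSB

/-- the abelianisation -/
def chi : Hk →* Multiplicative (ZMod 20) :=
  hkLift (Multiplicative.ofAdd 2) (Multiplicative.ofAdd 5) (by decide) (by decide)

/-- the commutator subgroup -/
abbrev AA : Subgroup Hk := commutator Hk

/-- generator of the cusp stabiliser -/
def dA : Hk := zz * tt ^ 10

private theorem chi_rr : chi rr = Multiplicative.ofAdd 2 := hkLift_rr _ _ _ _

private theorem chi_ss : chi ss = Multiplicative.ofAdd 5 := hkLift_ss _ _ _ _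

private theorem chi_zz : chi zz = Multiplicative.ofAdd 10 := by
  rw [zz, map_pow, chi_ss]; rfl

private theorem chi_tt : chi tt = Multiplicative.ofAdd 7 := by
  rw [tt, map_mul, chi_rr, chi_ss]; rfl

private theorem mem_ker_iff (h : Hk) : h ∈ chi.ker ↔ Multiplicative.toAdd (chi h) = 0 := by
  rw [MonoidHom.mem_ker]; exact Iff.rfl

private theorem of_form (h : Hk) : ∃ i j : ℕ,
    Abelianization.of h = (Abelianization.of rr) ^ i * (Abelianization.of ss) ^ j := by
  refine hk_induction (P := fun h => ∃ i j : ℕ,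
    Abelianization.of h = (Abelianization.of rr) ^ i * (Abelianization.of ss) ^ j) ?_ ?_ ?_ h
  · exact ⟨0, 0, by simp⟩
  · rintro h ⟨i, j, hij⟩
    refine ⟨i + 1, j, ?_⟩
    rw [map_mul, hij, pow_succ, mul_assoc, mul_assoc, mul_comm ((Abelianization.of ss) ^ j)]
  · rintro h ⟨i, j, hij⟩
    refine ⟨i, j + 1, ?_⟩
    rw [map_mul, hij, pow_succ, mul_assoc]

private theorem chi_of (h : Hk) (i j : ℕ)
    (hij : Abelianization.of h = (Abelianization.of rr) ^ i * (Abelianization.of ss) ^ j) :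
    Multiplicative.toAdd (chi h) = ((2 * i + 5 * j : ℤ) : ZMod 20) := by
  have h1 : chi h = chi (rr ^ i * ss ^ j) := by
    have h2 := congrArg (Abelianization.lift chi) hij
    simp only [map_mul, map_pow, Abelianization.lift_apply_of] at h2
    rw [h2, map_mul, map_pow, map_pow]
  rw [h1, map_mul, map_pow, map_pow, chi_rr, chi_ss]
  push_cast
  simp only [toAdd_mul, toAdd_pow, toAdd_ofAdd, nsmul_eq_mul]
  ring

theorem ker_chi : chi.ker = AA := by
  apply le_antisymm
  · intro h hh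
    rw [mem_ker_iff] at hh
    obtain ⟨i, j, hij⟩ := of_form h
    rw [chi_of h i j hij, ZMod.intCast_zmod_eq_zero_iff_dvd] at hh
    have hj : ∃ j', j = 2 * j' := ⟨j / 2, by omega⟩
    obtain ⟨j', rfl⟩ := hj
    have hi : ∃ n, i + 5 * j' = 10 * n := ⟨(i + 5 * j') / 10, by omega⟩
    obtain ⟨n, hn⟩ := hi
    have hss : (Abelianization.of ss) ^ 2 = (Abelianization.of rr) ^ 5 := by
      rw [← map_pow, ← map_pow, rr_pow5]; rfl
    have hone : Abelianization.of h = 1 := by
      rw [hij, pow_mul, hss, ← pow_mul, ← pow_add, hn, pow_mul, ← map_pow, rr_pow10, map_one, one_pow]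
    have hk := (QuotientGroup.eq_one_iff (N := commutator Hk) h).1 hone
    exact hk
  · exact Abelianization.commutator_subset_ker chi

private theorem mem_AA_iff (h : Hk) : h ∈ AA ↔ Multiplicative.toAdd (chi h) = 0 := by
  rw [← ker_chi, mem_ker_iff]

private theorem chi_conj (g x : Hk) : chi (g * x * g⁻¹) = chi x := by
  rw [map_mul chi, map_mul chi, map_inv, mul_comm (chi g), mul_assoc, mul_inv_cancel, mul_one]

private theorem zt_comm : Commute zz tt := (zz_comm tt).symm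

private theorem chi_form (ε : ℕ) (m : ℤ) :
    Multiplicative.toAdd (chi (zz ^ ε * tt ^ m)) = ((10 * ε + 7 * m : ℤ) : ZMod 20) := by
  rw [map_mul, map_pow, map_zpow, chi_zz, chi_tt]
  push_cast
  simp only [toAdd_mul, toAdd_pow, toAdd_zpow, toAdd_ofAdd, nsmul_eq_mul, zsmul_eq_mul]
  ring

private theorem chi_form' (ε : ℕ) (m : ℤ) (g : Hk) :
    Multiplicative.toAdd (chi (g * (zz ^ ε * tt ^ m) * g⁻¹)) = ((10 * ε + 7 * m : ℤ) : ZMod 20) := by
  rw [← chi_form, map_mul chi (g * _), map_mul chi g, map_inv]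
  simp

private theorem zz_pow_eq_of_even {n : ℕ} (h : Even n) : zz ^ n = 1 := by
  obtain ⟨k, rfl⟩ := h
  rw [← two_mul, pow_mul, zz_sq, one_pow]

private theorem zz_zpow_eq_of_even {n : ℤ} (h : Even n) : zz ^ n = 1 := by
  obtain ⟨k, rfl⟩ := h
  rw [← two_mul, zpow_mul]
  have h2 : zz ^ (2 : ℤ) = 1 := by
    rw [show (2 : ℤ) = ((2 : ℕ) : ℤ) from rfl, zpow_natCast, zz_sq]
  rw [h2, one_zpow]

private theorem dA_zpow (n : ℤ) : dA ^ n = zz ^ n * tt ^ (10 * n) := by
  rw [dA, (zt_comm.pow_right 10).mul_zpow, ← zpow_natCast tt 10, ← zpow_mul]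
  rfl

theorem dA_mem : dA ∈ AA := by
  rw [mem_AA_iff]
  have h := chi_form 1 10
  rw [pow_one] at h
  have h2 : dA = zz * tt ^ (10 : ℤ) := by
    rw [dA]; rfl
  rw [h2, h]
  decide

theorem mem_zpowers_of_InT {h : Hk} (hA : h ∈ AA) (hT : InT h) : h ∈ Subgroup.zpowers dA := by
  obtain ⟨ε, m, rfl⟩ := hT
  rw [mem_AA_iff, chi_form, ZMod.intCast_zmod_eq_zero_iff_dvd] at hA
  have hm : ∃ n, m = 10 * n := ⟨m / 10, by omega⟩
  obtain ⟨n, rfl⟩ := hm
  refine ⟨n, ?_⟩
  show dA ^ n = _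
  rw [dA_zpow]
  congr 1
  have he : Even (n - ε) := by
    rw [Int.even_iff]; omega
  have h1 := zz_zpow_eq_of_even he
  rw [zpow_sub, zpow_natCast, mul_inv_eq_one] at h1
  exact h1

theorem InT_of_mem_zpowers {h : Hk} (hh : h ∈ Subgroup.zpowers dA) : InT h := by
  obtain ⟨n, rfl⟩ := hh
  refine ⟨(n % 2).toNat, 10 * n, ?_⟩
  show dA ^ n = _
  rw [dA_zpow]
  congr 1
  have he : Even (n - ((n % 2).toNat : ℤ)) := by
    rw [Int.even_iff]; omega
  have h1 := zz_zpow_eq_of_even he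
  rw [zpow_sub, zpow_natCast, mul_inv_eq_one] at h1
  exact h1

theorem exists_mul_tt (h : Hk) : ∃ a ∈ AA, ∃ k : ℤ, h = a * tt ^ k := by
  obtain ⟨i, j, hij⟩ := of_form h
  have h1 := chi_of h i j hij
  refine ⟨h * tt ^ (-(6 * i + 15 * j : ℤ)), ?_, 6 * i + 15 * j, ?_⟩
  · rw [mem_AA_iff, map_mul, map_zpow, chi_tt, toAdd_mul, h1, toAdd_zpow, toAdd_ofAdd, zsmul_eq_mul]
    have h2 : (((2 * i + 5 * j : ℤ) : ZMod 20)) + ((-(6 * i + 15 * j : ℤ) : ℤ) : ZMod 20) * 7
        = ((20 * (-(2 * i + 5 * j : ℤ)) : ℤ) : ZMod 20) := by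
      push_cast
      ring
    rw [h2, ZMod.intCast_zmod_eq_zero_iff_dvd]
    exact ⟨_, rfl⟩
  · rw [zpow_neg, inv_mul_cancel_right]

private theorem chi_surj : Function.Surjective chi := by
  intro x
  refine ⟨tt ^ (3 * (Multiplicative.toAdd x).val), ?_⟩
  rw [map_pow, chi_tt]
  revert x
  decide

theorem index_AA : (AA ⊔ Subgroup.zpowers zz).index = 10 := by
  have h1 : AA ⊔ Subgroup.zpowers zz = ((Subgroup.zpowers zz).map chi).comap chi := by
    rw [Subgroup.comap_map_eq, ker_chi, sup_comm]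
  rw [h1, Subgroup.index_comap_of_surjective _ chi_surj, MonoidHom.map_zpowers, chi_zz]
  have h2 := Subgroup.card_mul_index (Subgroup.zpowers (Multiplicative.ofAdd (10 : ZMod 20)))
  rw [Nat.card_zpowers] at h2
  have h3 : orderOf (Multiplicative.ofAdd (10 : ZMod 20)) = 2 := by
    rw [orderOf_eq_iff (by norm_num)]
    refine ⟨by decide, ?_⟩
    intro m hm hm0
    have : m = 1 := by omega
    subst this
    decide
  rw [h3] at h2
  have h4 : Nat.card (Multiplicative (ZMod 20)) = 20 := by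
    rw [Nat.card_congr Multiplicative.toAdd, Nat.card_zmod]
  rw [h4] at h2
  omega

theorem AA_inf_zz : AA ⊓ Subgroup.zpowers zz = ⊥ := by
  rw [eq_bot_iff]
  rintro x ⟨hx, n, rfl⟩
  have hx' : zz ^ n ∈ AA := hx
  rw [mem_AA_iff, map_zpow, chi_zz, toAdd_zpow, toAdd_ofAdd, zsmul_eq_mul] at hx'
  have h2 : ((n : ℤ) : ZMod 20) * 10 = ((10 * n : ℤ) : ZMod 20) := by
    push_cast; ring
  rw [h2, ZMod.intCast_zmod_eq_zero_iff_dvd] at hx'
  rw [Subgroup.mem_bot]
  show zz ^ n = 1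
  exact zz_zpow_eq_of_even (by rw [Int.even_iff]; omega)

/-- the element with `b0 γ = V` -/
def b0 : Hk := ss * tt ^ 5

theorem b0_mem : b0 ∈ AA := by
  rw [mem_AA_iff, b0, map_mul, map_pow, chi_ss, chi_tt]
  decide

private theorem not_commute : ¬ Commute ss rr := by
  intro h
  have h1 : ((DihedralGroup.r 1 : DihedralGroup 5)) ^ 5 = (DihedralGroup.sr 0 : DihedralGroup 5) ^ 2 := by
    decide
  have h2 : ((DihedralGroup.sr 0 : DihedralGroup 5)) ^ 4 = 1 := by decide
  have h3 := h.map (hkLift (DihedralGroup.r 1 : DihedralGroup 5) (DihedralGroup.sr 0) h1 h2)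
  rw [hkLift_rr, hkLift_ss] at h3
  have h4 : (DihedralGroup.sr 0 : DihedralGroup 5) * DihedralGroup.r 1 =
    DihedralGroup.r 1 * DihedralGroup.sr 0 := h3
  revert h4
  decide

theorem b0_not_InT : ¬ InT b0 := by
  rintro ⟨ε, m, h⟩
  have h1 : ss = zz ^ ε * tt ^ (m - 5) := by
    rw [zpow_sub, ← mul_assoc, ← h, b0, mul_assoc]
    have : tt ^ (5 : ℤ) = tt ^ 5 := rfl
    rw [this, mul_inv_cancel, mul_one]
  have h2 : Commute ss tt := by
    rw [h1]
    exact ((zt_comm.pow_left ε)).mul_left ((Commute.refl tt).zpow_left _)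
  apply not_commute
  have h3 : rr = tt * ss⁻¹ := by
    rw [tt, mul_inv_cancel_right]
  rw [h3]
  exact h2.mul_right (Commute.refl ss).inv_right

private theorem conj_T {a g : Hk} (ha : a ∈ AA) {ε : ℕ} {m : ℤ} (h : a = g * (zz ^ ε * tt ^ m) * g⁻¹) :
    ∃ b ∈ AA, ∃ n : ℤ, a = b * dA ^ n * b⁻¹ := by
  have hc : zz ^ ε * tt ^ m ∈ AA := by
    rw [mem_AA_iff, chi_form, ← chi_form' ε m g, ← h]
    exact (mem_AA_iff a).1 ha
  obtain ⟨n, hn⟩ := mem_zpowers_of_InT hc ⟨ε, m, rfl⟩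
  have hn' : dA ^ n = zz ^ ε * tt ^ m := hn
  obtain ⟨b, hb, k, rfl⟩ := exists_mul_tt g
  refine ⟨b, hb, n, ?_⟩
  rw [h, ← hn']
  have hcomm : tt ^ k * dA ^ n = dA ^ n * tt ^ k := by
    have : Commute tt dA := by
      rw [dA]
      exact zt_comm.symm.mul_right ((Commute.refl tt).pow_right 10)
    exact ((this.zpow_left k).zpow_right n)
  rw [mul_assoc b, hcomm, mul_inv_rev, ← mul_assoc, ← mul_assoc, mul_assoc (b * dA ^ n), mul_inv_cancel, mul_one]

theorem A_cases {a : Hk} (ha : a ∈ AA) : (∃ b ∈ AA, ∃ m : ℤ, a = b * dA ^ m * b⁻¹) ∨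
    ∃ (g : Hk) (ε : ℕ) (ks : List (Fin 4)), Hyp ks ∧ a = g * (zz ^ ε * sw ks) * g⁻¹ := by
  have hchi := (mem_AA_iff a).1 ha
  obtain ⟨g, ε, h | h | h⟩ := conj_nf a
  · obtain ⟨j, hj, h⟩ := h
    left
    have h1 : Multiplicative.toAdd (chi a) = ((10 * ε + 2 * j : ℤ) : ZMod 20) := by
      rw [h, chi_conj, map_mul chi, map_pow chi, map_pow chi, chi_zz, chi_rr]
      push_cast
      simp only [toAdd_mul, toAdd_pow, toAdd_ofAdd, nsmul_eq_mul]
      ring
    rw [h1, ZMod.intCast_zmod_eq_zero_iff_dvd] at hchi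
    have hj0 : j = 0 := by omega
    subst hj0
    have he : Even ε := by rw [Nat.even_iff]; omega
    refine ⟨1, one_mem _, 0, ?_⟩
    rw [h, zz_pow_eq_of_even he]
    simp
  · exfalso
    have h1 : Multiplicative.toAdd (chi a) = ((10 * ε + 5 : ℤ) : ZMod 20) := by
      rw [h, chi_conj, map_mul chi, map_pow chi, chi_zz, chi_ss]
      push_cast
      simp only [toAdd_mul, toAdd_pow, toAdd_ofAdd, nsmul_eq_mul]
      ring
    rw [h1, ZMod.intCast_zmod_eq_zero_iff_dvd] at hchi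
    omega
  · obtain ⟨ks, hks, h⟩ := h
    by_cases hh : Hyp ks
    · exact Or.inr ⟨g, ε, ks, hh, h⟩
    · left
      rw [Hyp, not_and_or] at hh
      rcases hh with hh | hh
      · push Not at hh
        have h0 : ks = List.replicate ks.length 0 := List.eq_replicate_iff.2 ⟨rfl, hh⟩
        have h1 : sw ks = tt ^ (ks.length : ℤ) := by
          have h2 : sgm 0 = tt := by simp [sgm]
          rw [zpow_natCast]
          conv_lhs => rw [h0]
          rw [sw, List.map_replicate, List.prod_replicate, h2]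
        rw [h1] at h
        exact conj_T ha h
      · push Not at hh
        have h0 : ks = List.replicate ks.length 3 := List.eq_replicate_iff.2 ⟨rfl, hh⟩
        have h1 : sw ks = ss * tt ^ (-(ks.length : ℤ)) * ss⁻¹ := by
          conv_lhs => rw [h0]
          rw [sw_three, zpow_neg, zpow_natCast, inv_pow]
        refine conj_T ha (g := g * ss) (ε := ε) (m := -(ks.length : ℤ)) ?_
        rw [h, h1, mul_inv_rev]
        have hz : zz ^ ε * ss = ss * zz ^ ε := by
          have : Commute zz ss := (zz_comm ss).symm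
          exact this.pow_left ε
        have e1 : zz ^ ε * (ss * tt ^ (-(ks.length : ℤ)) * ss⁻¹)
            = ss * (zz ^ ε * tt ^ (-(ks.length : ℤ))) * ss⁻¹ := by
          rw [← mul_assoc, ← mul_assoc, hz, mul_assoc ss]
        rw [e1]
        group

end Pool.Agent.VSB
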