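import Pool.Agent.VSB.HkNF

/-! # VSB/HkMat: holonomy

`mu rr = !![λ, -1; 1, 0]`, `mu ss = !![0, 1; -1, 0]`, `mu tt = !![1, λ; 0, 1]`, `λ` the golden ratio.
`mu (sgm k)` for `k = 0..3`: `!![1, λ; 0, 1]`, `!![λ, λ; 1, λ]`, `!![λ, 1; λ, λ]`, `!![1, 0; λ, 1]`; all entries in
`NL = {a + b λ | a, b ∈ ℕ}`, which is closed under sums and products; all `mu (sgm k)` are `≥ 1` entrywise on the
diagonal, hence `mu (sw ks) ≥` (entrywise) `mu (sw ks')` for sublists.
`trace_hyp`: if `ks` contains `1` or `2` then trace `≥` trace of that factor `= 2 λ > 2` and the coefficient of `λ` is `≥ 2`; otherwise it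
contains `0` and `3`, and the trace is `≥` trace of `mu (sgm 0 * sgm 3) = 2 + λ ^ 2 = 3 + λ` (in either cyclic order).
(Formulate with the partial order on `NL` by coefficients: use pairs of naturals, `a + b λ` with unique
coefficients.)
`mu_injective`: `conj_nf`; `± R ^ j ≠ 1` unless trivial, `± S ≠ 1`, `± mu (sw ks) ≠ 1` since the sum of the off-diagonal
entries is positive. -/

set_option autoImplicit false

open scoped MatrixGroups

namespace Pool.Agent.VSB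

/-- golden ratio -/
noncomputable abbrev lam : ℝ := Real.goldenRatio

theorem lam_sq : lam ^ 2 = lam + 1 := Real.goldenRatio_sq

noncomputable def muR : SL(2, ℝ) := ⟨!![lam, -1; 1, 0], by simp [Matrix.det_fin_two]⟩

noncomputable def muS : SL(2, ℝ) := ⟨!![0, 1; -1, 0], by simp [Matrix.det_fin_two]⟩

theorem lam_llHM : lam * lam = lam + 1 := by
  have h := lam_sq
  rw [pow_two] at h
  exact h

theorem muR_coeHM : (muR : Matrix (Fin 2) (Fin 2) ℝ) = !![lam, -1; 1, 0] := rfl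

theorem muS_coeHM : (muS : Matrix (Fin 2) (Fin 2) ℝ) = !![0, 1; -1, 0] := rfl

theorem mat_eqHM {a b c d a' b' c' d' : ℝ} (h1 : a = a') (h2 : b = b') (h3 : c = c')
    (h4 : d = d') : (!![a, b; c, d] : Matrix (Fin 2) (Fin 2) ℝ) = !![a', b'; c', d'] := by
  rw [h1, h2, h3, h4]

theorem muR_twoHM : ((muR ^ 2 : SL(2, ℝ)) : Matrix (Fin 2) (Fin 2) ℝ) =
    !![lam, -lam; lam, -1] := by
  have hl := lam_llHM
  rw [Matrix.SpecialLinearGroup.coe_pow, muR_coeHM, pow_two, Matrix.mul_fin_two]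
  apply mat_eqHM <;> linarith

theorem muR_threeHM : ((muR ^ 3 : SL(2, ℝ)) : Matrix (Fin 2) (Fin 2) ℝ) =
    !![1, -lam; lam, -lam] := by
  have hl := lam_llHM
  rw [pow_succ, Matrix.SpecialLinearGroup.coe_mul, muR_twoHM, muR_coeHM, Matrix.mul_fin_two]
  apply mat_eqHM <;> linarith

theorem muR_fourHM : ((muR ^ 4 : SL(2, ℝ)) : Matrix (Fin 2) (Fin 2) ℝ) =
    !![0, -1; 1, -lam] := by
  have hl := lam_llHM
  rw [pow_succ, Matrix.SpecialLinearGroup.coe_mul, muR_threeHM, muR_coeHM, Matrix.mul_fin_two]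
  apply mat_eqHM <;> linarith

theorem muR_fiveHM : ((muR ^ 5 : SL(2, ℝ)) : Matrix (Fin 2) (Fin 2) ℝ) = !![-1, 0; 0, -1] := by
  have hl := lam_llHM
  rw [pow_succ, Matrix.SpecialLinearGroup.coe_mul, muR_fourHM, muR_coeHM, Matrix.mul_fin_two]
  apply mat_eqHM <;> linarith

theorem muS_twoHM : ((muS ^ 2 : SL(2, ℝ)) : Matrix (Fin 2) (Fin 2) ℝ) = !![-1, 0; 0, -1] := by
  rw [Matrix.SpecialLinearGroup.coe_pow, muS_coeHM, pow_two, Matrix.mul_fin_two]
  apply mat_eqHM <;> norm_num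

theorem neg_one_coeHM : ((-1 : SL(2, ℝ)) : Matrix (Fin 2) (Fin 2) ℝ) = !![-1, 0; 0, -1] := by
  rw [Matrix.SpecialLinearGroup.coe_neg, Matrix.SpecialLinearGroup.coe_one, Matrix.one_fin_two]
  ext i j
  fin_cases i <;> fin_cases j <;> simp

theorem muS_sqHM : muS ^ 2 = -1 := by
  apply Subtype.ext
  exact muS_twoHM.trans neg_one_coeHM.symm

theorem muR_pow5 : muR ^ 5 = muS ^ 2 := by
  apply Subtype.ext
  exact muR_fiveHM.trans muS_twoHM.symm

theorem muS_pow4 : muS ^ 4 = 1 := by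
  rw [show 4 = 2 * 2 from rfl, pow_mul, muS_sqHM]
  simp

/-- the Veech group -/
noncomputable def mu : Hk →* SL(2, ℝ) := hkLift muR muS muR_pow5 muS_pow4

theorem mu_rrHM : mu rr = muR := hkLift_rr _ _ _ _

theorem mu_ssHM : mu ss = muS := hkLift_ss _ _ _ _

theorem mu_zz : mu zz = -1 := by
  rw [zz, map_pow, mu_ssHM, muS_sqHM]

theorem mu_tt : (mu tt : Matrix (Fin 2) (Fin 2) ℝ) = !![1, lam; 0, 1] := by
  rw [tt, map_mul, mu_rrHM, mu_ssHM, Matrix.SpecialLinearGroup.coe_mul, muR_coeHM, muS_coeHM,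
    Matrix.mul_fin_two]
  apply mat_eqHM <;> ring

/-- holonomy of the edges -/
noncomputable def hol : Pi →* Multiplicative (Fin 2 → ℝ) :=
  toHom (fun j => Multiplicative.ofAdd (if j = 2 then ![1, 0] else ![lam, 0]))
    (fun j => Multiplicative.ofAdd (if j = 0 then ![0, 1] else ![0, lam]))
    (by rw [mul_comm]; rfl) (by rw [mul_comm]; rfl) (by rw [mul_comm]; rfl)

theorem hol_SHM (j : Fin 3) : hol (S j) =
    Multiplicative.ofAdd (if j = 2 then ![1, 0] else ![lam, 0]) := toHom_S _ _ _ j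

theorem hol_NHM (j : Fin 3) : hol (N j) =
    Multiplicative.ofAdd (if j = 0 then ![0, 1] else ![0, lam]) := toHom_N _ _ _ j

/-- the action of a matrix -/
noncomputable def actHM (M : Matrix (Fin 2) (Fin 2) ℝ) :
    Multiplicative (Fin 2 → ℝ) →* Multiplicative (Fin 2 → ℝ) :=
  AddMonoidHom.toMultiplicative (Matrix.mulVecLin M).toAddMonoidHom

theorem actHM_ofAdd (M : Matrix (Fin 2) (Fin 2) ℝ) (v : Fin 2 → ℝ) :
    actHM M (Multiplicative.ofAdd v) = Multiplicative.ofAdd (M.mulVec v) := rfl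

theorem mulVecHM (a b c d x y : ℝ) :
    (!![a, b; c, d] : Matrix (Fin 2) (Fin 2) ℝ).mulVec ![x, y] = ![a * x + b * y, c * x + d * y] := by
  ext i
  fin_cases i <;> simp [Matrix.mulVec, dotProduct, Fin.sum_univ_two]

theorem ofAdd_addHM (x y x' y' : ℝ) : Multiplicative.ofAdd (![x, y] : Fin 2 → ℝ) *
    Multiplicative.ofAdd ![x', y'] = Multiplicative.ofAdd ![x + x', y + y'] := by
  rw [← ofAdd_add]
  congr 1
  ext i
  fin_cases i <;> simp

theorem ofAdd_negHM (x y : ℝ) : (Multiplicative.ofAdd (![x, y] : Fin 2 → ℝ))⁻¹ =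
    Multiplicative.ofAdd ![-x, -y] := by
  rw [← ofAdd_neg]
  congr 1
  ext i
  fin_cases i <;> simp

theorem vec_eqHM {x y x' y' : ℝ} (h1 : x = x') (h2 : y = y') :
    Multiplicative.ofAdd (![x, y] : Fin 2 → ℝ) = Multiplicative.ofAdd ![x', y'] := by
  rw [h1, h2]

theorem hS0HM : hol (S 0) = Multiplicative.ofAdd ![lam, 0] := hol_SHM 0
theorem hS1HM : hol (S 1) = Multiplicative.ofAdd ![lam, 0] := hol_SHM 1
theorem hS2HM : hol (S 2) = Multiplicative.ofAdd ![1, 0] := hol_SHM 2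
theorem hN0HM : hol (N 0) = Multiplicative.ofAdd ![0, 1] := hol_NHM 0
theorem hN1HM : hol (N 1) = Multiplicative.ofAdd ![0, lam] := hol_NHM 1
theorem hN2HM : hol (N 2) = Multiplicative.ofAdd ![0, lam] := hol_NHM 2

theorem hol_aRHM (x : Pi) : hol (aR x) = actHM muR (hol x) := by
  have hl := lam_llHM
  have h : hol.comp aR.toMonoidHom = (actHM muR).comp hol := by
    apply hom_ext
    · intro j
      show hol (aR (S j)) = actHM muR (hol (S j))
      rw [aR_S]
      fin_cases j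
      · show hol (S 1 * S 2 * N 1) = actHM muR (hol (S 0))
        rw [map_mul, map_mul, hS0HM, hS1HM, hS2HM, hN1HM, ofAdd_addHM, ofAdd_addHM, actHM_ofAdd,
          muR_coeHM, mulVecHM]
        apply vec_eqHM <;> linarith
      · show hol (S 2 * S 1 * N 2) = actHM muR (hol (S 1))
        rw [map_mul, map_mul, hS1HM, hS2HM, hN2HM, ofAdd_addHM, ofAdd_addHM, actHM_ofAdd,
          muR_coeHM, mulVecHM]
        apply vec_eqHM <;> linarith
      · show hol (S 0 * N 0) = actHM muR (hol (S 2))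
        rw [map_mul, hS0HM, hS2HM, hN0HM, ofAdd_addHM, actHM_ofAdd, muR_coeHM, mulVecHM]
        apply vec_eqHM <;> linarith
    · intro j
      show hol (aR (N j)) = actHM muR (hol (N j))
      rw [aR_N]
      fin_cases j
      · show hol (S 2)⁻¹ = actHM muR (hol (N 0))
        rw [map_inv, hS2HM, hN0HM, ofAdd_negHM, actHM_ofAdd, muR_coeHM, mulVecHM]
        apply vec_eqHM <;> linarith
      · show hol (S 1)⁻¹ = actHM muR (hol (N 1))
        rw [map_inv, hS1HM, hN1HM, ofAdd_negHM, actHM_ofAdd, muR_coeHM, mulVecHM]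
        apply vec_eqHM <;> linarith
      · show hol (S 0)⁻¹ = actHM muR (hol (N 2))
        rw [map_inv, hS0HM, hN2HM, ofAdd_negHM, actHM_ofAdd, muR_coeHM, mulVecHM]
        apply vec_eqHM <;> linarith
  exact congrArg (fun φ : Pi →* Multiplicative (Fin 2 → ℝ) => φ x) h

theorem hol_aSHM (x : Pi) : hol (aS x) = actHM muS (hol x) := by
  have hl := lam_llHM
  have h : hol.comp aS.toMonoidHom = (actHM muS).comp hol := by
    apply hom_ext
    · intro j
      show hol (aS (S j)) = actHM muS (hol (S j))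
      rw [aS_S]
      fin_cases j
      · show hol (N 2)⁻¹ = actHM muS (hol (S 0))
        rw [map_inv, hS0HM, hN2HM, ofAdd_negHM, actHM_ofAdd, muS_coeHM, mulVecHM]
        apply vec_eqHM <;> linarith
      · show hol (N 1)⁻¹ = actHM muS (hol (S 1))
        rw [map_inv, hS1HM, hN1HM, ofAdd_negHM, actHM_ofAdd, muS_coeHM, mulVecHM]
        apply vec_eqHM <;> linarith
      · show hol (N 0)⁻¹ = actHM muS (hol (S 2))
        rw [map_inv, hS2HM, hN0HM, ofAdd_negHM, actHM_ofAdd, muS_coeHM, mulVecHM]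
        apply vec_eqHM <;> linarith
    · intro j
      show hol (aS (N j)) = actHM muS (hol (N j))
      rw [aS_N]
      fin_cases j
      · show hol (S 2) = actHM muS (hol (N 0))
        rw [hS2HM, hN0HM, actHM_ofAdd, muS_coeHM, mulVecHM]
        apply vec_eqHM <;> linarith
      · show hol (S 0) = actHM muS (hol (N 1))
        rw [hS0HM, hN1HM, actHM_ofAdd, muS_coeHM, mulVecHM]
        apply vec_eqHM <;> linarith
      · show hol (S 1) = actHM muS (hol (N 2))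
        rw [hS1HM, hN2HM, actHM_ofAdd, muS_coeHM, mulVecHM]
        apply vec_eqHM <;> linarith
  exact congrArg (fun φ : Pi →* Multiplicative (Fin 2 → ℝ) => φ x) h

theorem toAdd_actHM (M : Matrix (Fin 2) (Fin 2) ℝ) (v : Multiplicative (Fin 2 → ℝ)) :
    Multiplicative.toAdd (actHM M v) = M.mulVec (Multiplicative.toAdd v) := rfl

theorem hol_alpha (h : Hk) (x : Pi) : Multiplicative.toAdd (hol (alpha h x)) =
    (mu h : Matrix (Fin 2) (Fin 2) ℝ).mulVec (Multiplicative.toAdd (hol x)) := by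
  revert x
  refine hk_induction (P := fun h => ∀ x : Pi, Multiplicative.toAdd (hol (alpha h x)) =
    (mu h : Matrix (Fin 2) (Fin 2) ℝ).mulVec (Multiplicative.toAdd (hol x))) ?_ ?_ ?_ h
  · intro x
    rw [map_one, map_one, Matrix.SpecialLinearGroup.coe_one, Matrix.one_mulVec]
    rfl
  · intro h ih x
    rw [map_mul, map_mul, mu_rrHM, Matrix.SpecialLinearGroup.coe_mul, ← Matrix.mulVec_mulVec]
    have h1 : (alpha h * alpha rr) x = alpha h (aR x) := by rw [alpha_rr]; rfl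
    rw [h1, ih, hol_aRHM, toAdd_actHM]
  · intro h ih x
    rw [map_mul, map_mul, mu_ssHM, Matrix.SpecialLinearGroup.coe_mul, ← Matrix.mulVec_mulVec]
    have h1 : (alpha h * alpha ss) x = alpha h (aS x) := by rw [alpha_ss]; rfl
    rw [h1, ih, hol_aSHM, toAdd_actHM]

/-! ### Positive words -/

/-- real numbers `a + b λ` with natural coefficients -/
def NLHM : Set ℝ := {x | ∃ a b : ℕ, x = a + b * lam}

theorem NL_zeroHM : (0 : ℝ) ∈ NLHM := ⟨0, 0, by simp⟩
theorem NL_oneHM : (1 : ℝ) ∈ NLHM := ⟨1, 0, by simp⟩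
theorem NL_lamHM : lam ∈ NLHM := ⟨0, 1, by simp⟩

theorem NL_addHM {x y : ℝ} (hx : x ∈ NLHM) (hy : y ∈ NLHM) : x + y ∈ NLHM := by
  obtain ⟨a, b, rfl⟩ := hx
  obtain ⟨c, d, rfl⟩ := hy
  exact ⟨a + c, b + d, by push_cast; ring⟩

theorem NL_mulHM {x y : ℝ} (hx : x ∈ NLHM) (hy : y ∈ NLHM) : x * y ∈ NLHM := by
  obtain ⟨a, b, rfl⟩ := hx
  obtain ⟨c, d, rfl⟩ := hy
  refine ⟨a * c + b * d, a * d + b * c + b * d, ?_⟩
  push_cast
  linear_combination (b : ℝ) * d * lam_llHM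

theorem NL_powHM (n : ℕ) : lam ^ n ∈ NLHM := by
  induction n with
  | zero => rw [pow_zero]; exact NL_oneHM
  | succ n ih => rw [pow_succ]; exact NL_mulHM ih NL_lamHM

theorem lam_gtHM : 1 < lam := Real.one_lt_goldenRatio

theorem NL_nonnegHM {x : ℝ} (hx : x ∈ NLHM) : 0 ≤ x := by
  obtain ⟨a, b, rfl⟩ := hx
  have h1 := lam_gtHM
  positivity

/-- matrices with entries in `NLHM` -/
def NMHM (M : Matrix (Fin 2) (Fin 2) ℝ) : Prop := ∀ i j, M i j ∈ NLHM

theorem NM_mulHM {M M' : Matrix (Fin 2) (Fin 2) ℝ} (h : NMHM M) (h' : NMHM M') :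
    NMHM (M * M') := by
  intro i j
  rw [Matrix.mul_apply, Fin.sum_univ_two]
  exact NL_addHM (NL_mulHM (h _ _) (h' _ _)) (NL_mulHM (h _ _) (h' _ _))

theorem NM_addHM {M M' : Matrix (Fin 2) (Fin 2) ℝ} (h : NMHM M) (h' : NMHM M') :
    NMHM (M + M') := fun i j => NL_addHM (h i j) (h' i j)

theorem NM_smulHM {M : Matrix (Fin 2) (Fin 2) ℝ} {x : ℝ} (hx : x ∈ NLHM) (h : NMHM M) :
    NMHM (x • M) := fun i j => NL_mulHM hx (h i j)

theorem NM_oneHM : NMHM 1 := by
  intro i j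
  fin_cases i <;> fin_cases j <;> simp [NL_zeroHM, NL_oneHM]

theorem NM_ofHM {a b c d : ℝ} (ha : a ∈ NLHM) (hb : b ∈ NLHM) (hc : c ∈ NLHM) (hd : d ∈ NLHM) :
    NMHM !![a, b; c, d] := by
  intro i j
  fin_cases i <;> fin_cases j <;> simpa

theorem sgm_zeroHM : (mu (sgm 0) : Matrix (Fin 2) (Fin 2) ℝ) = !![1, lam; 0, 1] := by
  rw [sgm]
  show (mu (rr ^ 0 * tt) : Matrix (Fin 2) (Fin 2) ℝ) = _
  rw [pow_zero, one_mul, mu_tt]

theorem sgm_oneHM : (mu (sgm 1) : Matrix (Fin 2) (Fin 2) ℝ) = !![lam, lam; 1, lam] := by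
  have hl := lam_llHM
  rw [sgm]
  show (mu (rr ^ 1 * tt) : Matrix (Fin 2) (Fin 2) ℝ) = _
  rw [pow_one, map_mul, mu_rrHM, Matrix.SpecialLinearGroup.coe_mul, mu_tt, muR_coeHM,
    Matrix.mul_fin_two]
  apply mat_eqHM <;> linarith

theorem sgm_twoHM : (mu (sgm 2) : Matrix (Fin 2) (Fin 2) ℝ) = !![lam, 1; lam, lam] := by
  have hl := lam_llHM
  rw [sgm]
  show (mu (rr ^ 2 * tt) : Matrix (Fin 2) (Fin 2) ℝ) = _
  rw [map_mul, map_pow, mu_rrHM, Matrix.SpecialLinearGroup.coe_mul, mu_tt, muR_twoHM,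
    Matrix.mul_fin_two]
  apply mat_eqHM <;> linarith

theorem sgm_threeHM : (mu (sgm 3) : Matrix (Fin 2) (Fin 2) ℝ) = !![1, 0; lam, 1] := by
  have hl := lam_llHM
  rw [sgm]
  show (mu (rr ^ 3 * tt) : Matrix (Fin 2) (Fin 2) ℝ) = _
  rw [map_mul, map_pow, mu_rrHM, Matrix.SpecialLinearGroup.coe_mul, mu_tt, muR_threeHM,
    Matrix.mul_fin_two]
  apply mat_eqHM <;> linarith

theorem sgm_splitHM (k : Fin 4) : ∃ (n : ℕ) (E : Matrix (Fin 2) (Fin 2) ℝ), NMHM E ∧
    (mu (sgm k) : Matrix (Fin 2) (Fin 2) ℝ) = lam ^ n • 1 + E := by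
  fin_cases k
  · refine ⟨0, !![0, lam; 0, 0], NM_ofHM NL_zeroHM NL_lamHM NL_zeroHM NL_zeroHM, ?_⟩
    show (mu (sgm 0) : Matrix (Fin 2) (Fin 2) ℝ) = _
    rw [sgm_zeroHM]
    ext i j
    fin_cases i <;> fin_cases j <;> simp
  · refine ⟨1, !![0, lam; 1, 0], NM_ofHM NL_zeroHM NL_lamHM NL_oneHM NL_zeroHM, ?_⟩
    show (mu (sgm 1) : Matrix (Fin 2) (Fin 2) ℝ) = _
    rw [sgm_oneHM]
    ext i j
    fin_cases i <;> fin_cases j <;> simp
  · refine ⟨1, !![0, 1; lam, 0], NM_ofHM NL_zeroHM NL_oneHM NL_lamHM NL_zeroHM, ?_⟩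
    show (mu (sgm 2) : Matrix (Fin 2) (Fin 2) ℝ) = _
    rw [sgm_twoHM]
    ext i j
    fin_cases i <;> fin_cases j <;> simp
  · refine ⟨0, !![0, 0; lam, 0], NM_ofHM NL_zeroHM NL_zeroHM NL_lamHM NL_zeroHM, ?_⟩
    show (mu (sgm 3) : Matrix (Fin 2) (Fin 2) ℝ) = _
    rw [sgm_threeHM]
    ext i j
    fin_cases i <;> fin_cases j <;> simp

theorem sgm_NMHM (k : Fin 4) : NMHM (mu (sgm k) : Matrix (Fin 2) (Fin 2) ℝ) := by
  obtain ⟨n, E, hE, h⟩ := sgm_splitHM k
  rw [h]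
  exact NM_addHM (NM_smulHM (NL_powHM n) NM_oneHM) hE

theorem sw_consHM (k : Fin 4) (ks : List (Fin 4)) : sw (k :: ks) = sgm k * sw ks := by
  simp [sw]

theorem sw_appendHM (ks ks' : List (Fin 4)) : sw (ks ++ ks') = sw ks * sw ks' := by
  simp [sw]

theorem sw_nilHM : sw [] = 1 := rfl

theorem sw_NMHM (ks : List (Fin 4)) : NMHM (mu (sw ks) : Matrix (Fin 2) (Fin 2) ℝ) := by
  induction ks with
  | nil =>
    rw [sw_nilHM, map_one, Matrix.SpecialLinearGroup.coe_one]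
    exact NM_oneHM
  | cons k ks ih =>
    rw [sw_consHM, map_mul, Matrix.SpecialLinearGroup.coe_mul]
    exact NM_mulHM (sgm_NMHM k) ih

theorem sublist_domHM {ks ks' : List (Fin 4)} (h : ks.Sublist ks') : ∃ (n : ℕ)
    (E : Matrix (Fin 2) (Fin 2) ℝ), NMHM E ∧ (mu (sw ks') : Matrix (Fin 2) (Fin 2) ℝ) =
      lam ^ n • (mu (sw ks) : Matrix (Fin 2) (Fin 2) ℝ) + E := by
  induction h with
  | slnil => exact ⟨0, 0, fun _ _ => NL_zeroHM, by simp⟩
  | @cons l₁ l₂ a h ih =>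
    obtain ⟨n, E, hE, h1⟩ := ih
    obtain ⟨m, E', hE', h2⟩ := sgm_splitHM a
    refine ⟨m + n, lam ^ m • E + E' * (lam ^ n • (mu (sw l₁) : Matrix (Fin 2) (Fin 2) ℝ) + E),
      NM_addHM (NM_smulHM (NL_powHM m) hE) (NM_mulHM hE' (NM_addHM (NM_smulHM (NL_powHM n)
        (sw_NMHM _)) hE)), ?_⟩
    rw [sw_consHM, map_mul, Matrix.SpecialLinearGroup.coe_mul, h1, h2, add_mul, Matrix.smul_mul,
      Matrix.one_mul, smul_add, smul_smul, ← pow_add, add_assoc]
  | @cons_cons l₁ l₂ a h ih =>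
    obtain ⟨n, E, hE, h1⟩ := ih
    refine ⟨n, (mu (sgm a) : Matrix (Fin 2) (Fin 2) ℝ) * E, NM_mulHM (sgm_NMHM a) hE, ?_⟩
    rw [sw_consHM, sw_consHM, map_mul, map_mul, Matrix.SpecialLinearGroup.coe_mul,
      Matrix.SpecialLinearGroup.coe_mul, h1, mul_add, Matrix.mul_smul]

/-- the property of the trace -/
def GoodHM (x : ℝ) : Prop := (∃ a b : ℕ, 1 ≤ b ∧ x = a + b * lam) ∧ 2 < x

theorem good_stepHM {x e : ℝ} (n : ℕ) (hx : GoodHM x) (he : e ∈ NLHM) :
    GoodHM (lam ^ n * x + e) := by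
  induction n with
  | zero =>
    obtain ⟨⟨a, b, hb, rfl⟩, h2⟩ := hx
    have h3 := NL_nonnegHM he
    obtain ⟨c, d, rfl⟩ := he
    refine ⟨⟨a + c, b + d, by omega, by push_cast; ring⟩, ?_⟩
    rw [pow_zero, one_mul]
    linarith
  | succ n ih =>
    -- first multiply by `lam`
    have h1 : GoodHM (lam ^ (n + 1) * x) := by
      have h0 : ∀ m : ℕ, GoodHM (lam ^ m * x) := by
        intro m
        induction m with
        | zero => rw [pow_zero, one_mul]; exact hx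
        | succ m ihm =>
          obtain ⟨⟨a, b, hb, h4⟩, h5⟩ := ihm
          refine ⟨⟨b, a + b, by omega, ?_⟩, ?_⟩
          · rw [pow_succ, mul_right_comm, h4]
            push_cast
            linear_combination (b : ℝ) * lam_llHM
          · rw [pow_succ, mul_right_comm]
            have h6 := lam_gtHM
            nlinarith
      exact h0 (n + 1)
    obtain ⟨⟨a, b, hb, h4⟩, h2⟩ := h1
    have h3 := NL_nonnegHM he
    obtain ⟨c, d, rfl⟩ := he
    refine ⟨⟨a + c, b + d, by omega, by rw [h4]; push_cast; ring⟩, ?_⟩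
    linarith

theorem good_traceHM {ks ks' : List (Fin 4)} (h : ks.Sublist ks')
    (hg : GoodHM (mu (sw ks) : Matrix (Fin 2) (Fin 2) ℝ).trace) :
    GoodHM (mu (sw ks') : Matrix (Fin 2) (Fin 2) ℝ).trace := by
  obtain ⟨n, E, hE, h1⟩ := sublist_domHM h
  rw [h1, Matrix.trace_add, Matrix.trace_smul, smul_eq_mul]
  apply good_stepHM n hg
  rw [Matrix.trace_fin_two]
  exact NL_addHM (hE _ _) (hE _ _)

theorem good_oneHM : GoodHM (mu (sw [1]) : Matrix (Fin 2) (Fin 2) ℝ).trace := by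
  have h : sw [1] = sgm 1 := by rw [sw_consHM, sw_nilHM, mul_one]
  rw [h, sgm_oneHM, Matrix.trace_fin_two]
  have h6 := lam_gtHM
  refine ⟨⟨0, 2, by norm_num, ?_⟩, ?_⟩
  · show lam + lam = _
    push_cast
    ring
  · show 2 < lam + lam
    linarith

theorem good_twoHM : GoodHM (mu (sw [2]) : Matrix (Fin 2) (Fin 2) ℝ).trace := by
  have h : sw [2] = sgm 2 := by rw [sw_consHM, sw_nilHM, mul_one]
  rw [h, sgm_twoHM, Matrix.trace_fin_two]
  have h6 := lam_gtHM
  refine ⟨⟨0, 2, by norm_num, ?_⟩, ?_⟩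
  · show lam + lam = _
    push_cast
    ring
  · show 2 < lam + lam
    linarith

theorem good_ztHM : GoodHM (mu (sw [0, 3]) : Matrix (Fin 2) (Fin 2) ℝ).trace := by
  have h : sw [0, 3] = sgm 0 * sgm 3 := by rw [sw_consHM, sw_consHM, sw_nilHM, mul_one]
  have hl := lam_llHM
  have h6 := lam_gtHM
  rw [h, map_mul, Matrix.SpecialLinearGroup.coe_mul, sgm_zeroHM, sgm_threeHM, Matrix.mul_fin_two,
    Matrix.trace_fin_two]
  refine ⟨⟨3, 1, le_refl _, ?_⟩, ?_⟩
  · show 1 * 1 + lam * lam + (0 * 0 + 1 * 1) = _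
    push_cast
    linarith
  · show 2 < 1 * 1 + lam * lam + (0 * 0 + 1 * 1)
    linarith

theorem good_tzHM : GoodHM (mu (sw [3, 0]) : Matrix (Fin 2) (Fin 2) ℝ).trace := by
  have h : sw [3, 0] = sgm 3 * sgm 0 := by rw [sw_consHM, sw_consHM, sw_nilHM, mul_one]
  have hl := lam_llHM
  have h6 := lam_gtHM
  rw [h, map_mul, Matrix.SpecialLinearGroup.coe_mul, sgm_zeroHM, sgm_threeHM, Matrix.mul_fin_two,
    Matrix.trace_fin_two]
  refine ⟨⟨3, 1, le_refl _, ?_⟩, ?_⟩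
  · show 1 * 1 + 0 * 0 + (lam * lam + 1 * 1) = _
    push_cast
    linarith
  · show 2 < 1 * 1 + 0 * 0 + (lam * lam + 1 * 1)
    linarith

theorem good_hypHM {ks : List (Fin 4)} (h : Hyp ks) :
    GoodHM (mu (sw ks) : Matrix (Fin 2) (Fin 2) ℝ).trace := by
  by_cases h1 : (1 : Fin 4) ∈ ks
  · exact good_traceHM (List.singleton_sublist.2 h1) good_oneHM
  by_cases h2 : (2 : Fin 4) ∈ ks
  · exact good_traceHM (List.singleton_sublist.2 h2) good_twoHM
  have h3 : (3 : Fin 4) ∈ ks := by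
    obtain ⟨k, hk, hk'⟩ := h.1
    fin_cases k
    · exact absurd rfl hk'
    · exact absurd hk h1
    · exact absurd hk h2
    · exact hk
  have h0 : (0 : Fin 4) ∈ ks := by
    obtain ⟨k, hk, hk'⟩ := h.2
    fin_cases k
    · exact hk
    · exact absurd hk h1
    · exact absurd hk h2
    · exact absurd rfl hk'
  obtain ⟨l₁, l₂, rfl⟩ := List.append_of_mem h0
  rcases List.mem_append.1 h3 with h4 | h4
  · have h5 : List.Sublist ([3] ++ [0]) (l₁ ++ 0 :: l₂) :=
      (List.singleton_sublist.2 h4).append (List.singleton_sublist.2 (by simp))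
    exact good_traceHM h5 good_tzHM
  · have h5 : (3 : Fin 4) ∈ l₂ := by
      rcases List.mem_cons.1 h4 with h6 | h6
      · exact absurd h6 (by decide)
      · exact h6
    have h6 : List.Sublist [0, 3] (l₁ ++ 0 :: l₂) :=
      ((List.singleton_sublist.2 h5).cons_cons 0).trans (List.sublist_append_right _ _)
    exact good_traceHM h6 good_ztHM

theorem trace_hyp {ks : List (Fin 4)} (h : Hyp ks) : ∃ a b : ℕ, 1 ≤ b ∧
    (mu (sw ks) : Matrix (Fin 2) (Fin 2) ℝ).trace = a + b * lam ∧ 2 < (a + b * lam : ℝ) := by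
  obtain ⟨⟨a, b, hb, h1⟩, h2⟩ := good_hypHM h
  exact ⟨a, b, hb, h1, by rw [← h1]; exact h2⟩

/-- powers of hyperbolic positive words -/
theorem exists_pow_sw {ks : List (Fin 4)} (h : Hyp ks) {m : ℕ} (hm : 1 ≤ m) :
    ∃ ks', Hyp ks' ∧ sw ks' = sw ks ^ m := by
  induction m, hm using Nat.le_induction with
  | base => exact ⟨ks, h, by rw [pow_one]⟩
  | succ m hm ih =>
    obtain ⟨ks', h1, h2⟩ := ih
    refine ⟨ks' ++ ks, ⟨?_, ?_⟩, by rw [sw_appendHM, h2, pow_succ]⟩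
    · obtain ⟨k, hk, hk'⟩ := h.1
      exact ⟨k, List.mem_append_right _ hk, hk'⟩
    · obtain ⟨k, hk, hk'⟩ := h.2
      exact ⟨k, List.mem_append_right _ hk, hk'⟩

theorem zz_powHM (ε : ℕ) : zz ^ ε = 1 ∨ zz ^ ε = zz := by
  induction ε with
  | zero => left; rw [pow_zero]
  | succ n ih =>
    rcases ih with h | h
    · right; rw [pow_succ, h, one_mul]
    · left; rw [pow_succ, h, ← pow_two, zz_sq]

/-- if `mu (zz ^ ε * h) = 1` then the off-diagonal entries of `mu h` vanish -/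
theorem offdiagHM {ε : ℕ} {h : Hk} (hh : mu (zz ^ ε * h) = 1) :
    (mu h : Matrix (Fin 2) (Fin 2) ℝ) 0 1 = 0 ∧ (mu h : Matrix (Fin 2) (Fin 2) ℝ) 1 0 = 0 := by
  rw [map_mul] at hh
  rcases zz_powHM ε with h1 | h1
  · rw [h1, map_one, one_mul] at hh
    rw [hh, Matrix.SpecialLinearGroup.coe_one]
    simp
  · rw [h1, mu_zz, neg_mul, one_mul, neg_eq_iff_eq_neg] at hh
    rw [hh, Matrix.SpecialLinearGroup.coe_neg, Matrix.SpecialLinearGroup.coe_one]
    simp

theorem neg_one_neHM : (-1 : SL(2, ℝ)) ≠ 1 := by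
  intro h
  have h1 := congrArg (fun M : SL(2, ℝ) => (M : Matrix (Fin 2) (Fin 2) ℝ) 0 0) h
  simp only [neg_one_coeHM, Matrix.SpecialLinearGroup.coe_one] at h1
  norm_num at h1

theorem mu_injective : Function.Injective mu := by
  rw [injective_iff_map_eq_one]
  intro h hh
  have key : ∀ g x : Hk, h = g * x * g⁻¹ → mu x = 1 := by
    intro g x hx
    have h1 : x = g⁻¹ * h * g := by rw [hx]; group
    rw [h1, map_mul, map_mul, hh, mul_one, ← map_mul, inv_mul_cancel, map_one]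
  obtain ⟨g, ε, h1 | h1 | h1⟩ := conj_nf h
  · obtain ⟨j, hj, h2⟩ := h1
    have h3 := key _ _ h2
    have h4 := (offdiagHM h3).2
    rw [map_pow, mu_rrHM] at h4
    have hlam := lam_gtHM
    interval_cases j
    · rw [pow_zero, mul_one] at h3 h2
      rcases zz_powHM ε with h5 | h5
      · rw [h2, h5]; group
      · rw [h5, mu_zz] at h3
        exact absurd h3 neg_one_neHM
    · exfalso
      rw [pow_one, muR_coeHM] at h4
      norm_num at h4
    · exfalso
      rw [muR_twoHM] at h4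
      have h5 : lam = 0 := h4
      linarith
    · exfalso
      rw [muR_threeHM] at h4
      have h5 : lam = 0 := h4
      linarith
    · exfalso
      rw [muR_fourHM] at h4
      norm_num at h4
  · exfalso
    have h4 := (offdiagHM (key _ _ h1)).1
    rw [mu_ssHM, muS_coeHM] at h4
    norm_num at h4
  · exfalso
    obtain ⟨ks, hks, h2⟩ := h1
    obtain ⟨h4, h5⟩ := offdiagHM (key _ _ h2)
    obtain ⟨k, ks', rfl⟩ := List.exists_cons_of_ne_nil hks
    obtain ⟨n, E, hE, h6⟩ := sublist_domHM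
      (List.singleton_sublist.2 (List.mem_cons_self (a := k) (l := ks')))
    have h7 : sw [k] = sgm k := by rw [sw_consHM, sw_nilHM, mul_one]
    rw [h7] at h6
    rw [h6] at h4 h5
    have h8 : lam ^ n * (mu (sgm k) : Matrix (Fin 2) (Fin 2) ℝ) 0 1 + E 0 1 = 0 := h4
    have h9 : lam ^ n * (mu (sgm k) : Matrix (Fin 2) (Fin 2) ℝ) 1 0 + E 1 0 = 0 := h5
    have hlam := lam_gtHM
    have hp : 0 < lam ^ n := pow_pos (by linarith) n
    have hE1 := NL_nonnegHM (hE 0 1)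
    have hE2 := NL_nonnegHM (hE 1 0)
    have hpl : 0 < lam ^ n * lam := mul_pos hp (by linarith)
    fin_cases k
    · change lam ^ n * (mu (sgm 0) : Matrix (Fin 2) (Fin 2) ℝ) 0 1 + E 0 1 = 0 at h8
      rw [sgm_zeroHM] at h8
      have h10 : lam ^ n * lam + E 0 1 = 0 := h8
      linarith
    · change lam ^ n * (mu (sgm 1) : Matrix (Fin 2) (Fin 2) ℝ) 0 1 + E 0 1 = 0 at h8
      rw [sgm_oneHM] at h8
      have h10 : lam ^ n * lam + E 0 1 = 0 := h8
      linarith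
    · change lam ^ n * (mu (sgm 2) : Matrix (Fin 2) (Fin 2) ℝ) 0 1 + E 0 1 = 0 at h8
      rw [sgm_twoHM] at h8
      have h10 : lam ^ n * 1 + E 0 1 = 0 := h8
      linarith
    · change lam ^ n * (mu (sgm 3) : Matrix (Fin 2) (Fin 2) ℝ) 1 0 + E 1 0 = 0 at h9
      rw [sgm_threeHM] at h9
      have h10 : lam ^ n * lam + E 1 0 = 0 := h9
      linarith

end Pool.Agent.VSB
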