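import Pool.Agent.VSB.HkAb
import Pool.Agent.VSB.HkMat

/-! # VSB/HkFree: the commutator subgroup is free of rank four

`q i = ⁅rr ^ i, ss⁆ = rr ^ i * ss * rr ^ (-i) * ss⁻¹`, `q 5 = 1`, `q (i + 5) = q i`.
`closure_q`: the subgroup `B` generated by `q 1, .., q 4` is normal: `rr * q i * rr⁻¹ = q (i+1) * (q 1)⁻¹`,
`ss * q i * ss⁻¹ = (q i)⁻¹` (`ss ^ 2 = zz` central of order two), and `Hk ⧸ B` is commutative, so `AA ≤ B`.
`q_injective`: ping-pong (`FreeGroup.injective_lift_of_ping_pong`) for the action of `Hk` on `Fin 2 → ℝ` through `mu` (`Hk` acts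
by `mulVec`; make a `MulAction` locally). Let `D = {v | v 0 * v 1 < 0 ∨ (v 0 = 0 ∧ v 1 ≠ 0)}`,
`Q = {v ≠ 0} \ D = {v | v 0 * v 1 > 0 ∨ (v 1 = 0 ∧ v 0 ≠ 0)}` (work on the nonzero vectors). `ss` exchanges `D` and `Q`
(`mu ss v = (v 1, - v 0)`), and `rr ^ i D ⊆ Q` for `i = 1, .., 4`: the directions: `rr` maps `D` to the directions of
`[(1,0), (λ,1))`, `rr ^ 2` to `[(λ,1), (1,1))`, `rr ^ 3` to `[(1,1), (1,λ))`, `rr ^ 4` to `[(1,λ), (0,1))`. All sets are invariant under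
`-1 = rr ^ 5`. Put `X i = rr ^ i D`, `Y i = ss rr ^ i D ⊆ D`, `i = 1..4`: `X i ∩ X j = ∅` because `rr ^ (i - j) D ∩ D = ∅`;
`q i = rr ^ i ss rr ^ (-i) ss⁻¹`: `v ∉ Y i → ss⁻¹ v ∉ rr ^ i D → rr ^ (-i) ss⁻¹ v ∈ Q → ss (..) ∈ D → q i v ∈ X i`; similarly
`(q i)⁻¹ = ss rr ^ i ss⁻¹ rr ^ (-i)`.
`dA_eq`: `(rr ss) ^ k = c k * rr ^ k * ss ^ k` with `c (k+1) = c k` for `k` even and
`c (k+1) = c k * q k * (q (k+1))⁻¹` for `k` odd; so `dA = zz * tt ^ 10 = c 10 = q1 q2⁻¹ q3 q4⁻¹ q1⁻¹ q2 q3⁻¹ q4`.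
`exists_free`: with `a, b, c, d = q 1, .., q 4` the elements `x0 = a b⁻¹ c d⁻¹ a⁻¹`, `x1 = b d⁻¹ a⁻¹`, `x2 = b d⁻¹`, `x3 = d⁻¹` are a basis
(`a = x1⁻¹ x2`, `d = x3⁻¹`, `b = x2 d`, `c = b a⁻¹ x0 a d`) and
`⁅x0, x1⁆ * ⁅x2, x3⁆ = a b⁻¹ c d⁻¹ a⁻¹ b c⁻¹ d = dA`. -/

set_option autoImplicit false

open scoped commutatorElement

namespace Pool.Agent.VSB

/-- the commutators -/
def qq (i : ℕ) : Hk := rr ^ i * ss * (rr ^ i)⁻¹ * ss⁻¹

theorem ss_invHF : ss⁻¹ = ss * zz := by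
  rw [inv_eq_iff_mul_eq_one, ← mul_assoc, ← pow_two, ← zz, ← pow_two, zz_sq]

theorem zz_invHF : zz⁻¹ = zz := by
  rw [inv_eq_iff_mul_eq_one, ← pow_two, zz_sq]

theorem qq_zeroHF : qq 0 = 1 := by
  rw [qq, pow_zero]; group

theorem qq_add_fiveHF (i : ℕ) : qq (i + 5) = qq i := by
  have h1 : rr ^ (i + 5) = zz * rr ^ i := by rw [pow_add, rr_pow5, zz_comm]
  have h2 : (rr ^ i * zz) * ss * (rr ^ i)⁻¹ = zz * (rr ^ i * ss * (rr ^ i)⁻¹) := by
    rw [zz_comm, mul_assoc, mul_assoc, mul_assoc]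
  rw [qq, qq, h1, mul_inv_rev, zz_invHF]
  have h3 : zz * rr ^ i * ss * ((rr ^ i)⁻¹ * zz) = rr ^ i * ss * (rr ^ i)⁻¹ := by
    rw [← mul_assoc, zz_comm, mul_assoc zz, mul_assoc zz, ← mul_assoc zz zz, ← pow_two, zz_sq,
      one_mul]
  rw [h3]

theorem qq_fiveHF : qq 5 = 1 := by
  have h := qq_add_fiveHF 0
  rw [qq_zeroHF] at h
  exact h

theorem qq_sixHF : qq 6 = qq 1 := qq_add_fiveHF 1
theorem qq_sevenHF : qq 7 = qq 2 := qq_add_fiveHF 2
theorem qq_eightHF : qq 8 = qq 3 := qq_add_fiveHF 3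
theorem qq_nineHF : qq 9 = qq 4 := qq_add_fiveHF 4
theorem qq_tenHF : qq 10 = 1 := (qq_add_fiveHF 5).trans qq_fiveHF

theorem rr_conjHF (i : ℕ) : rr * qq i * rr⁻¹ = qq (i + 1) * (qq 1)⁻¹ := by
  rw [qq, qq, qq, pow_succ', pow_one]
  group

theorem ss_conjHF (i : ℕ) : ss * qq i * ss⁻¹ = (qq i)⁻¹ := by
  have h : ss⁻¹ * ss⁻¹ = zz := by rw [← mul_inv_rev, ← pow_two, ← zz, zz_invHF]
  have h1 : ss * qq i * ss⁻¹ = ss * rr ^ i * ss * (rr ^ i)⁻¹ * (ss⁻¹ * ss⁻¹) := by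
    rw [qq]; group
  have h2 : (qq i)⁻¹ = ss * rr ^ i * ss⁻¹ * (rr ^ i)⁻¹ := by
    rw [qq]; group
  rw [h1, h2, h, ss_invHF]
  have h3 : (rr ^ i)⁻¹ * zz = zz * (rr ^ i)⁻¹ := zz_comm _
  rw [mul_assoc _ _ zz, h3, ← mul_assoc, ← mul_assoc]

/-- the subgroup generated by the commutators -/
def BHF : Subgroup Hk := Subgroup.closure (Set.range (fun i : Fin 4 => qq (i + 1)))

theorem qq_memHF (i : ℕ) (hi : i ≤ 5) : qq i ∈ BHF := by
  interval_cases i
  · rw [qq_zeroHF]; exact BHF.one_mem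
  · exact Subgroup.subset_closure ⟨0, rfl⟩
  · exact Subgroup.subset_closure ⟨1, rfl⟩
  · exact Subgroup.subset_closure ⟨2, rfl⟩
  · exact Subgroup.subset_closure ⟨3, rfl⟩
  · rw [qq_fiveHF]; exact BHF.one_mem

theorem rr_conj_memHF {n : Hk} (hn : n ∈ BHF) : rr * n * rr⁻¹ ∈ BHF := by
  have h : BHF ≤ BHF.comap (MulAut.conj rr).toMonoidHom := by
    rw [BHF, Subgroup.closure_le]
    rintro _ ⟨i, rfl⟩
    show rr * qq (i + 1) * rr⁻¹ ∈ BHF
    rw [rr_conjHF]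
    exact BHF.mul_mem (qq_memHF _ (by omega)) (BHF.inv_mem (qq_memHF _ (by omega)))
  exact h hn

theorem ss_conj_memHF {n : Hk} (hn : n ∈ BHF) : ss * n * ss⁻¹ ∈ BHF := by
  have h : BHF ≤ BHF.comap (MulAut.conj ss).toMonoidHom := by
    rw [BHF, Subgroup.closure_le]
    rintro _ ⟨i, rfl⟩
    show ss * qq (i + 1) * ss⁻¹ ∈ BHF
    rw [ss_conjHF]
    exact BHF.inv_mem (qq_memHF _ (by omega))
  exact h hn

theorem BHF_normal : BHF.Normal := by
  constructor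
  intro n hn g
  revert n
  refine hk_induction (P := fun g => ∀ n ∈ BHF, g * n * g⁻¹ ∈ BHF) ?_ ?_ ?_ g
  · intro n hn
    simpa using hn
  · intro h ih n hn
    have h1 := ih _ (rr_conj_memHF hn)
    have h2 : h * rr * n * (h * rr)⁻¹ = h * (rr * n * rr⁻¹) * h⁻¹ := by group
    rw [h2]
    exact h1
  · intro h ih n hn
    have h1 := ih _ (ss_conj_memHF hn)
    have h2 : h * ss * n * (h * ss)⁻¹ = h * (ss * n * ss⁻¹) * h⁻¹ := by group
    rw [h2]
    exact h1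

theorem closure_q : Subgroup.closure (Set.range (fun i : Fin 4 => qq (i + 1))) = AA := by
  show BHF = AA
  apply le_antisymm
  · rw [BHF, Subgroup.closure_le]
    rintro _ ⟨i, rfl⟩
    show qq (i + 1) ∈ commutator Hk
    rw [commutator_def]
    exact Subgroup.commutator_mem_commutator (Subgroup.mem_top (rr ^ ((i : ℕ) + 1)))
      (Subgroup.mem_top ss)
  · have := BHF_normal
    have hrs : Commute (QuotientGroup.mk' BHF rr) (QuotientGroup.mk' BHF ss) := by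
      have h1 : QuotientGroup.mk' BHF (qq 1) = 1 :=
        (QuotientGroup.eq_one_iff _).2 (qq_memHF 1 (by omega))
      rw [qq, pow_one, map_mul, map_mul, map_mul, map_inv, map_inv] at h1
      rw [mul_inv_eq_one, mul_inv_eq_iff_eq_mul] at h1
      exact h1
    have hr : ∀ h : Hk, Commute (QuotientGroup.mk' BHF rr) (QuotientGroup.mk' BHF h) := by
      intro h
      refine hk_induction (P := fun h => Commute (QuotientGroup.mk' BHF rr)
        (QuotientGroup.mk' BHF h)) ?_ ?_ ?_ h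
      · rw [map_one]; exact Commute.one_right _
      · intro h hh
        rw [map_mul]
        exact hh.mul_right (Commute.refl _)
      · intro h hh
        rw [map_mul]
        exact hh.mul_right hrs
    have hs : ∀ h : Hk, Commute (QuotientGroup.mk' BHF ss) (QuotientGroup.mk' BHF h) := by
      intro h
      refine hk_induction (P := fun h => Commute (QuotientGroup.mk' BHF ss)
        (QuotientGroup.mk' BHF h)) ?_ ?_ ?_ h
      · rw [map_one]; exact Commute.one_right _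
      · intro h hh
        rw [map_mul]
        exact hh.mul_right hrs.symm
      · intro h hh
        rw [map_mul]
        exact hh.mul_right (Commute.refl _)
    have hg : ∀ g h : Hk, Commute (QuotientGroup.mk' BHF g) (QuotientGroup.mk' BHF h) := by
      intro g h
      refine hk_induction (P := fun g => Commute (QuotientGroup.mk' BHF g)
        (QuotientGroup.mk' BHF h)) ?_ ?_ ?_ g
      · rw [map_one]; exact Commute.one_left _
      · intro g hh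
        rw [map_mul]
        exact hh.mul_left (hr h)
      · intro g hh
        rw [map_mul]
        exact hh.mul_left (hs h)
    show commutator Hk ≤ BHF
    rw [commutator_def, Subgroup.commutator_le]
    intro g _ h _
    have h1 : QuotientGroup.mk' BHF ⁅g, h⁆ = 1 := by
      rw [map_commutatorElement, commutatorElement_eq_one_iff_commute]
      exact hg g h
    exact (QuotientGroup.eq_one_iff _).1 h1

/-- the half of the plane used for the ping-pong, for the first column of a matrix -/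
def DHF (g : Matrix.SpecialLinearGroup (Fin 2) ℝ) : Prop :=
  (g : Matrix (Fin 2) (Fin 2) ℝ) 0 0 * (g : Matrix (Fin 2) (Fin 2) ℝ) 1 0 < 0 ∨
    ((g : Matrix (Fin 2) (Fin 2) ℝ) 0 0 = 0 ∧ (g : Matrix (Fin 2) (Fin 2) ℝ) 1 0 ≠ 0)

theorem col_neHF (g : Matrix.SpecialLinearGroup (Fin 2) ℝ) :
    (g : Matrix (Fin 2) (Fin 2) ℝ) 0 0 = 0 → (g : Matrix (Fin 2) (Fin 2) ℝ) 1 0 = 0 → False := by
  intro h1 h2
  have h := g.det_coe
  rw [Matrix.det_fin_two, h1, h2] at h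
  norm_num at h

theorem D_muSHF (g : Matrix.SpecialLinearGroup (Fin 2) ℝ) : DHF (muS * g) ↔ ¬ DHF g := by
  have hne := col_neHF g
  unfold DHF
  have h0 : ((muS * g : Matrix.SpecialLinearGroup (Fin 2) ℝ) : Matrix (Fin 2) (Fin 2) ℝ) 0 0 =
      (g : Matrix (Fin 2) (Fin 2) ℝ) 1 0 := by
    rw [Matrix.SpecialLinearGroup.coe_mul, muS_coeHM, Matrix.mul_apply, Fin.sum_univ_two]
    simp
  have h1 : ((muS * g : Matrix.SpecialLinearGroup (Fin 2) ℝ) : Matrix (Fin 2) (Fin 2) ℝ) 1 0 =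
      - (g : Matrix (Fin 2) (Fin 2) ℝ) 0 0 := by
    rw [Matrix.SpecialLinearGroup.coe_mul, muS_coeHM, Matrix.mul_apply, Fin.sum_univ_two]
    simp
  rw [h0, h1]
  generalize (g : Matrix (Fin 2) (Fin 2) ℝ) 0 0 = a at *
  generalize (g : Matrix (Fin 2) (Fin 2) ℝ) 1 0 = c at *
  constructor
  · rintro (h | ⟨h, h'⟩)
    · rintro (h2 | ⟨h2, h3⟩)
      · nlinarith
      · rw [h2] at h; norm_num at h
    · rintro (h2 | ⟨h2, h3⟩)
      · rw [h] at h2; norm_num at h2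
      · exact h3 h
  · intro h
    push Not at h
    obtain ⟨h2, h3⟩ := h
    by_cases hc : c = 0
    · right
      refine ⟨hc, ?_⟩
      intro h4
      exact hne (by linarith) hc
    · left
      have ha : a ≠ 0 := fun ha => hc (h3 ha)
      have h5 : 0 < a * c := lt_of_le_of_ne h2 (Ne.symm (mul_ne_zero ha hc))
      nlinarith

theorem colHF {p q r s : ℝ} {M g : Matrix.SpecialLinearGroup (Fin 2) ℝ}
    (hM : (M : Matrix (Fin 2) (Fin 2) ℝ) = !![p, q; r, s]) :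
    ((M * g : Matrix.SpecialLinearGroup (Fin 2) ℝ) : Matrix (Fin 2) (Fin 2) ℝ) 0 0 =
      p * (g : Matrix (Fin 2) (Fin 2) ℝ) 0 0 + q * (g : Matrix (Fin 2) (Fin 2) ℝ) 1 0 ∧
    ((M * g : Matrix.SpecialLinearGroup (Fin 2) ℝ) : Matrix (Fin 2) (Fin 2) ℝ) 1 0 =
      r * (g : Matrix (Fin 2) (Fin 2) ℝ) 0 0 + s * (g : Matrix (Fin 2) (Fin 2) ℝ) 1 0 := by
  constructor
  · rw [Matrix.SpecialLinearGroup.coe_mul, hM, Matrix.mul_apply, Fin.sum_univ_two]
    simp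
  · rw [Matrix.SpecialLinearGroup.coe_mul, hM, Matrix.mul_apply, Fin.sum_univ_two]
    simp

theorem not_DHF {u v : ℝ} (h : 0 < u * v ∨ (u ≠ 0 ∧ v = 0)) : ¬ (u * v < 0 ∨ (u = 0 ∧ v ≠ 0)) := by
  rintro (h1 | ⟨h1, h2⟩)
  · rcases h with h | ⟨h, h'⟩
    · linarith
    · rw [h'] at h1; norm_num at h1
  · rcases h with h | ⟨h, h'⟩
    · rw [h1] at h; norm_num at h
    · exact h h1

theorem D_muRHF (g : Matrix.SpecialLinearGroup (Fin 2) ℝ) (hg : DHF g) (k : ℕ) (hk : 1 ≤ k)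
    (hk' : k ≤ 4) : ¬ DHF (muR ^ k * g) := by
  have hl := lam_llHM
  have hl1 := lam_gtHM
  unfold DHF at hg
  unfold DHF
  apply not_DHF
  interval_cases k
  · obtain ⟨h0, h1⟩ := colHF (M := muR ^ 1) (g := g) (by rw [pow_one]; exact muR_coeHM)
    rw [h0, h1]
    generalize (g : Matrix (Fin 2) (Fin 2) ℝ) 0 0 = a at *
    generalize (g : Matrix (Fin 2) (Fin 2) ℝ) 1 0 = c at *
    generalize lam = l at *
    rcases hg with h | ⟨h, h'⟩
    · left
      nlinarith [mul_nonneg (by linarith : (0 : ℝ) ≤ l) (sq_nonneg a)]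
    · right
      rw [h]
      constructor
      · simpa using h'
      · simp
  · obtain ⟨h0, h1⟩ := colHF (M := muR ^ 2) (g := g) muR_twoHM
    rw [h0, h1]
    generalize (g : Matrix (Fin 2) (Fin 2) ℝ) 0 0 = a at *
    generalize (g : Matrix (Fin 2) (Fin 2) ℝ) 1 0 = c at *
    generalize lam = l at *
    left
    have e : (l * a + -l * c) * (l * a + -1 * c) = l * l * (a * a) + l * (c * c) +
      (l * l + l) * -(a * c) := by ring
    rw [e]
    have hl2 : 0 < l * l := by nlinarith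
    rcases hg with h | ⟨h, h'⟩
    · have h2 : 0 < (l * l + l) * -(a * c) := mul_pos (by linarith) (by linarith)
      have h3 : 0 ≤ l * l * (a * a) := mul_nonneg hl2.le (mul_self_nonneg a)
      have h4 : 0 ≤ l * (c * c) := mul_nonneg (by linarith) (mul_self_nonneg c)
      linarith
    · rw [h]
      have h4 : 0 < l * (c * c) := mul_pos (by linarith) (mul_self_pos.2 h')
      nlinarith
  · obtain ⟨h0, h1⟩ := colHF (M := muR ^ 3) (g := g) muR_threeHM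
    rw [h0, h1]
    generalize (g : Matrix (Fin 2) (Fin 2) ℝ) 0 0 = a at *
    generalize (g : Matrix (Fin 2) (Fin 2) ℝ) 1 0 = c at *
    generalize lam = l at *
    left
    have e : (1 * a + -l * c) * (l * a + -l * c) = l * (a * a) + l * l * (c * c) +
      (l * l + l) * -(a * c) := by ring
    rw [e]
    have hl2 : 0 < l * l := by nlinarith
    rcases hg with h | ⟨h, h'⟩
    · have h2 : 0 < (l * l + l) * -(a * c) := mul_pos (by linarith) (by linarith)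
      have h3 : 0 ≤ l * l * (c * c) := mul_nonneg hl2.le (mul_self_nonneg c)
      have h4 : 0 ≤ l * (a * a) := mul_nonneg (by linarith) (mul_self_nonneg a)
      linarith
    · rw [h]
      have h4 : 0 < l * l * (c * c) := mul_pos hl2 (mul_self_pos.2 h')
      nlinarith
  · obtain ⟨h0, h1⟩ := colHF (M := muR ^ 4) (g := g) muR_fourHM
    rw [h0, h1]
    generalize (g : Matrix (Fin 2) (Fin 2) ℝ) 0 0 = a at *
    generalize (g : Matrix (Fin 2) (Fin 2) ℝ) 1 0 = c at *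
    generalize lam = l at *
    left
    have e : (0 * a + -1 * c) * (1 * a + -l * c) = l * (c * c) + -(a * c) := by ring
    rw [e]
    rcases hg with h | ⟨h, h'⟩
    · have h4 : 0 ≤ l * (c * c) := mul_nonneg (by linarith) (mul_self_nonneg c)
      linarith
    · rw [h]
      have h4 : 0 < l * (c * c) := mul_pos (by linarith) (mul_self_pos.2 h')
      nlinarith

theorem D_muS_invHF (g : Matrix.SpecialLinearGroup (Fin 2) ℝ) : DHF (muS⁻¹ * g) ↔ ¬ DHF g := by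
  have h := D_muSHF (muS⁻¹ * g)
  rw [mul_inv_cancel_left] at h
  by_cases h1 : DHF (muS⁻¹ * g)
  · exact ⟨fun _ h2 => (h.1 h2) h1, fun _ => h1⟩
  · exact ⟨fun h2 => absurd h2 h1, fun h2 => absurd (h.2 h1) h2⟩

theorem mu_qqHF (i : ℕ) : mu (qq i) = muR ^ i * muS * (muR ^ i)⁻¹ * muS⁻¹ := by
  rw [qq, map_mul, map_mul, map_mul, map_inv, map_inv, map_pow, mu_rrHM, mu_ssHM]

theorem exists_DHF : ∃ g : Matrix.SpecialLinearGroup (Fin 2) ℝ, DHF g := by
  by_contra h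
  push Not at h
  have h1 := (D_muSHF 1).2 (h 1)
  exact h _ h1

theorem q_injective : Function.Injective (FreeGroup.lift (fun i : Fin 4 => mu (qq (i + 1)))) := by
  have hXdis : ∀ i j : Fin 4, i < j → ∀ v : Matrix.SpecialLinearGroup (Fin 2) ℝ,
      DHF ((muR ^ ((i : ℕ) + 1))⁻¹ * v) → DHF ((muR ^ ((j : ℕ) + 1))⁻¹ * v) → False := by
    intro i j hij v h1 h2
    have h3 := D_muRHF _ h2 ((j : ℕ) - i) (by have := Fin.lt_def.1 hij; omega)
      (by have := j.2; omega)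
    apply h3
    have h4 : muR ^ ((j : ℕ) - i) * ((muR ^ ((j : ℕ) + 1))⁻¹ * v) = (muR ^ ((i : ℕ) + 1))⁻¹ * v := by
      have h5 : (j : ℕ) + 1 = (i + 1) + (j - i) := by have := Fin.lt_def.1 hij; omega
      rw [h5, pow_add, mul_inv_rev, mul_assoc, mul_inv_cancel_left]
    rw [h4]
    exact h1
  have hXdis' : ∀ i j : Fin 4, i ≠ j → ∀ v : Matrix.SpecialLinearGroup (Fin 2) ℝ,
      DHF ((muR ^ ((i : ℕ) + 1))⁻¹ * v) → DHF ((muR ^ ((j : ℕ) + 1))⁻¹ * v) → False := by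
    intro i j hij v h1 h2
    rcases lt_or_gt_of_ne hij with h | h
    · exact hXdis i j h v h1 h2
    · exact hXdis j i h v h2 h1
  have hXQ : ∀ (i : Fin 4) (v : Matrix.SpecialLinearGroup (Fin 2) ℝ),
      DHF ((muR ^ ((i : ℕ) + 1))⁻¹ * v) → ¬ DHF v := by
    intro i v h
    have h1 := D_muRHF _ h ((i : ℕ) + 1) (by omega) (by have := i.2; omega)
    rwa [mul_inv_cancel_left] at h1
  apply FreeGroup.injective_lift_of_ping_pong
    (α := Matrix.SpecialLinearGroup (Fin 2) ℝ)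
    (X := fun i : Fin 4 => {v | DHF ((muR ^ ((i : ℕ) + 1))⁻¹ * v)})
    (Y := fun i : Fin 4 => {v | DHF ((muR ^ ((i : ℕ) + 1))⁻¹ * (muS⁻¹ * v))})
  · intro i
    obtain ⟨g, hg⟩ := exists_DHF
    exact ⟨muR ^ ((i : ℕ) + 1) * g, by
      show DHF ((muR ^ ((i : ℕ) + 1))⁻¹ * (muR ^ ((i : ℕ) + 1) * g))
      rwa [inv_mul_cancel_left]⟩
  · intro i j hij
    show Disjoint _ _
    rw [Set.disjoint_left]
    intro v h1 h2
    exact hXdis' i j hij v h1 h2
  · intro i j hij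
    show Disjoint _ _
    rw [Set.disjoint_left]
    intro v h1 h2
    exact hXdis' i j hij _ h1 h2
  · intro i j
    rw [Set.disjoint_left]
    intro v h1 h2
    have h3 := hXQ i v h1
    have h4 := hXQ j _ h2
    rw [D_muS_invHF] at h4
    exact h4 h3
  · intro i
    rintro _ ⟨v, hv, rfl⟩
    show DHF ((muR ^ ((i : ℕ) + 1))⁻¹ * (mu (qq (i + 1)) * v))
    rw [mu_qqHF]
    have e : (muR ^ ((i : ℕ) + 1))⁻¹ * (muR ^ ((i : ℕ) + 1) * muS * (muR ^ ((i : ℕ) + 1))⁻¹ *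
      muS⁻¹ * v) = muS * ((muR ^ ((i : ℕ) + 1))⁻¹ * (muS⁻¹ * v)) := by
      simp only [mul_assoc, inv_mul_cancel_left]
    rw [e, D_muSHF]
    exact hv
  · intro i
    rintro _ ⟨v, hv, rfl⟩
    show DHF ((muR ^ ((i : ℕ) + 1))⁻¹ * (muS⁻¹ * ((mu (qq (i + 1)))⁻¹ * v)))
    rw [mu_qqHF]
    have e : (muR ^ ((i : ℕ) + 1))⁻¹ * (muS⁻¹ * ((muR ^ ((i : ℕ) + 1) * muS *
      (muR ^ ((i : ℕ) + 1))⁻¹ * muS⁻¹)⁻¹ * v)) = muS⁻¹ * ((muR ^ ((i : ℕ) + 1))⁻¹ * v) := by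
      simp only [mul_inv_rev, inv_inv, mul_assoc, inv_mul_cancel_left]
    rw [e, D_muS_invHF]
    exact hv

theorem tt_stepHF {C : Hk} {m : ℕ} (h : tt ^ (2 * m) = C * rr ^ (2 * m) * zz ^ m) :
    tt ^ (2 * (m + 1)) = C * (qq (2 * m + 1) * (qq (2 * m + 2))⁻¹) * rr ^ (2 * (m + 1)) *
      zz ^ (m + 1) := by
  have h1 : qq (2 * m + 1) * (qq (2 * m + 2))⁻¹ = rr ^ (2 * m + 1) * ss * rr * ss⁻¹ *
      (rr ^ (2 * m + 2))⁻¹ := by
    rw [qq, qq, show 2 * m + 2 = (2 * m + 1) + 1 from rfl, pow_succ rr (2 * m + 1)]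
    group
  have h2 : tt ^ (2 * (m + 1)) = tt ^ (2 * m) * (tt * tt) := by
    rw [Nat.mul_succ, pow_add, pow_two]
  have hz : ∀ x : Hk, zz ^ m * x = x * zz ^ m := fun x => (zz_pow_comm x m).symm
  have h3 : ss = ss⁻¹ * zz := by rw [zz, pow_two, inv_mul_cancel_left]
  have h4 : rr ^ (2 * m) * (tt * tt) = qq (2 * m + 1) * (qq (2 * m + 2))⁻¹ *
      rr ^ (2 * (m + 1)) * zz := by
    rw [h1]
    have h5 : rr ^ (2 * m + 1) * ss * rr * ss⁻¹ * (rr ^ (2 * m + 2))⁻¹ * rr ^ (2 * (m + 1)) * zz =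
        rr ^ (2 * m + 1) * ss * rr * (ss⁻¹ * zz) := by
      rw [show 2 * (m + 1) = 2 * m + 2 from by ring, inv_mul_cancel_right, mul_assoc]
    rw [h5, ← h3, tt, pow_succ]
    simp only [mul_assoc]
  rw [h2, h, mul_assoc, hz, ← mul_assoc, mul_assoc C, h4]
  simp only [mul_assoc, pow_succ' zz m]

theorem dA_eq : dA = qq 1 * (qq 2)⁻¹ * qq 3 * (qq 4)⁻¹ * (qq 1)⁻¹ * qq 2 * (qq 3)⁻¹ * qq 4 := by
  have h0 : tt ^ (2 * 0) = 1 * rr ^ (2 * 0) * zz ^ 0 := by simp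
  have h5 := tt_stepHF (tt_stepHF (tt_stepHF (tt_stepHF (tt_stepHF h0))))
  have h6 : tt ^ 10 = 1 * (qq 1 * (qq 2)⁻¹) * (qq 3 * (qq 4)⁻¹) * (qq 5 * (qq 6)⁻¹) *
      (qq 7 * (qq 8)⁻¹) * (qq 9 * (qq 10)⁻¹) * rr ^ 10 * zz ^ 5 := h5
  have h7 : zz ^ 5 = zz := by
    rw [show 5 = 2 * 2 + 1 from rfl, pow_succ, pow_mul, zz_sq, one_pow, one_mul]
  rw [qq_fiveHF, qq_sixHF, qq_sevenHF, qq_eightHF, qq_nineHF, qq_tenHF, rr_pow10, h7] at h6
  rw [dA, h6, ← zz_comm, mul_assoc _ zz zz, ← pow_two, zz_sq]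
  group

/-- the free basis adapted to the surface relation -/
def EHF : FreeGroup (Fin 4) →* FreeGroup (Fin 4) :=
  FreeGroup.lift ![FreeGroup.of 0 * (FreeGroup.of 1)⁻¹ * FreeGroup.of 2 * (FreeGroup.of 3)⁻¹ *
      (FreeGroup.of 0)⁻¹,
    FreeGroup.of 1 * (FreeGroup.of 3)⁻¹ * (FreeGroup.of 0)⁻¹,
    FreeGroup.of 1 * (FreeGroup.of 3)⁻¹, (FreeGroup.of 3)⁻¹]

/-- the inverse change of basis -/
def E'HF : FreeGroup (Fin 4) →* FreeGroup (Fin 4) :=
  FreeGroup.lift ![(FreeGroup.of 1)⁻¹ * FreeGroup.of 2,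
    FreeGroup.of 2 * (FreeGroup.of 3)⁻¹,
    (FreeGroup.of 2 * (FreeGroup.of 3)⁻¹) * ((FreeGroup.of 1)⁻¹ * FreeGroup.of 2)⁻¹ *
      FreeGroup.of 0 * ((FreeGroup.of 1)⁻¹ * FreeGroup.of 2) * (FreeGroup.of 3)⁻¹,
    (FreeGroup.of 3)⁻¹]

theorem E0HF : EHF (FreeGroup.of 0) = FreeGroup.of 0 * (FreeGroup.of 1)⁻¹ * FreeGroup.of 2 *
    (FreeGroup.of 3)⁻¹ * (FreeGroup.of 0)⁻¹ := FreeGroup.lift_apply_of
theorem E1HF : EHF (FreeGroup.of 1) = FreeGroup.of 1 * (FreeGroup.of 3)⁻¹ * (FreeGroup.of 0)⁻¹ :=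
  FreeGroup.lift_apply_of
theorem E2HF : EHF (FreeGroup.of 2) = FreeGroup.of 1 * (FreeGroup.of 3)⁻¹ :=
  FreeGroup.lift_apply_of
theorem E3HF : EHF (FreeGroup.of 3) = (FreeGroup.of 3)⁻¹ := FreeGroup.lift_apply_of

theorem E'0HF : E'HF (FreeGroup.of 0) = (FreeGroup.of 1)⁻¹ * FreeGroup.of 2 :=
  FreeGroup.lift_apply_of
theorem E'1HF : E'HF (FreeGroup.of 1) = FreeGroup.of 2 * (FreeGroup.of 3)⁻¹ :=
  FreeGroup.lift_apply_of
theorem E'2HF : E'HF (FreeGroup.of 2) = (FreeGroup.of 2 * (FreeGroup.of 3)⁻¹) *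
    ((FreeGroup.of 1)⁻¹ * FreeGroup.of 2)⁻¹ * FreeGroup.of 0 *
    ((FreeGroup.of 1)⁻¹ * FreeGroup.of 2) * (FreeGroup.of 3)⁻¹ := FreeGroup.lift_apply_of
theorem E'3HF : E'HF (FreeGroup.of 3) = (FreeGroup.of 3)⁻¹ := FreeGroup.lift_apply_of

theorem E'EHF : E'HF.comp EHF = MonoidHom.id _ := by
  apply FreeGroup.ext_hom
  intro i
  rw [MonoidHom.comp_apply, MonoidHom.id_apply]
  fin_cases i
  · show E'HF (EHF (FreeGroup.of 0)) = FreeGroup.of 0
    rw [E0HF]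
    simp only [map_mul, map_inv, E'0HF, E'1HF, E'2HF, E'3HF]
    group
  · show E'HF (EHF (FreeGroup.of 1)) = FreeGroup.of 1
    rw [E1HF]
    simp only [map_mul, map_inv, E'0HF, E'1HF, E'2HF, E'3HF]
    group
  · show E'HF (EHF (FreeGroup.of 2)) = FreeGroup.of 2
    rw [E2HF]
    simp only [map_mul, map_inv, E'0HF, E'1HF, E'2HF, E'3HF]
    group
  · show E'HF (EHF (FreeGroup.of 3)) = FreeGroup.of 3
    rw [E3HF]
    simp only [map_mul, map_inv, E'0HF, E'1HF, E'2HF, E'3HF]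
    group

theorem EE'HF : EHF.comp E'HF = MonoidHom.id _ := by
  apply FreeGroup.ext_hom
  intro i
  rw [MonoidHom.comp_apply, MonoidHom.id_apply]
  fin_cases i
  · show EHF (E'HF (FreeGroup.of 0)) = FreeGroup.of 0
    rw [E'0HF]
    simp only [map_mul, map_inv, E0HF, E1HF, E2HF, E3HF]
    group
  · show EHF (E'HF (FreeGroup.of 1)) = FreeGroup.of 1
    rw [E'1HF]
    simp only [map_mul, map_inv, E0HF, E1HF, E2HF, E3HF]
    group
  · show EHF (E'HF (FreeGroup.of 2)) = FreeGroup.of 2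
    rw [E'2HF]
    simp only [map_mul, map_inv, E0HF, E1HF, E2HF, E3HF]
    group
  · show EHF (E'HF (FreeGroup.of 3)) = FreeGroup.of 3
    rw [E'3HF]
    simp only [map_mul, map_inv, E0HF, E1HF, E2HF, E3HF]
    group

/-- the embedding -/
def LHF : FreeGroup (Fin 4) →* Hk := FreeGroup.lift (fun i : Fin 4 => qq (i + 1))

theorem L_injHF : Function.Injective LHF := by
  have h : (mu.comp LHF) = FreeGroup.lift (fun i : Fin 4 => mu (qq (i + 1))) := by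
    apply FreeGroup.ext_hom
    intro i
    rw [MonoidHom.comp_apply, FreeGroup.lift_apply_of, LHF, FreeGroup.lift_apply_of]
  have h1 := q_injective
  rw [← h] at h1
  exact Function.Injective.of_comp h1

theorem L_rangeHF : LHF.range = AA := by
  rw [LHF, FreeGroup.range_lift_eq_closure]
  exact closure_q

/-- `AA` is the fundamental group of a once-punctured surface of genus two with peripheral
element `dA` -/
theorem exists_free : ∃ Φ : FreeGroup (Fin 4) ≃* AA,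
    (Φ (⁅(FreeGroup.of 0 : FreeGroup (Fin 4)), FreeGroup.of 1⁆ *
      ⁅(FreeGroup.of 2 : FreeGroup (Fin 4)), FreeGroup.of 3⁆) : Hk) = dA := by
  refine ⟨((MonoidHom.toMulEquiv EHF E'HF E'EHF EE'HF).trans
    (MonoidHom.ofInjective L_injHF)).trans (MulEquiv.subgroupCongr L_rangeHF), ?_⟩
  show LHF (EHF (⁅(FreeGroup.of 0 : FreeGroup (Fin 4)), FreeGroup.of 1⁆ *
      ⁅(FreeGroup.of 2 : FreeGroup (Fin 4)), FreeGroup.of 3⁆)) = dA
  have h0 : LHF (FreeGroup.of 0) = qq 1 := FreeGroup.lift_apply_of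
  have h1 : LHF (FreeGroup.of 1) = qq 2 := FreeGroup.lift_apply_of
  have h2 : LHF (FreeGroup.of 2) = qq 3 := FreeGroup.lift_apply_of
  have h3 : LHF (FreeGroup.of 3) = qq 4 := FreeGroup.lift_apply_of
  simp only [commutatorElement_def, map_mul, map_inv, E0HF, E1HF, E2HF, E3HF, h0, h1, h2, h3]
  rw [dA_eq]
  group

end Pool.Agent.VSB
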