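import Pool.Agent.VSB.Hk

/-! # VSB/HkNF: normal forms in the affine group

Useful identities (`k : Fin 4`, everything up to the central `zz`): `ss * ss = zz`, `rr ^ 5 = zz`, `tt = rr * ss`,
`sgm k = rr ^ (k+1) * ss`, `sgm k * ss = rr ^ (k+1) * zz`, `rr * sgm k = sgm (k+1)` (`k ≤ 2`), `rr * sgm 3 = zz * ss`,
`tt * ss = zz * rr`, `rr ^ 4 * tt = zz * ss`, `ss * rr ^ 4 = tt⁻¹`.

`nf`: `hk_induction`. Right multiplication by `rr`: `j + 1`, `rr ^ 5 = zz`. By `ss`: `rr ^ j * ss = sgm (j-1)` for `j ≥ 1`; for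
`j = 0`: `sgm k * ss = zz * rr ^ (k+1)` if the word is nonempty, else `ss ^ (e+1)`.

`dcoset`: use `nf`, strong induction on the length of `ks` for `h = ss ^ e * sw ks * rr ^ j` (it suffices to prove it for some
`zz ^ ε * tt ^ a * h * tt ^ b`):
* `e = 0`, `j = 0`: `sw ks`; either all entries are `0` (power of `tt`) or done.
* `e = 0`, `1 ≤ j ≤ 3`: `h * tt = sw (ks ++ [j])`.
* `e = 0`, `j = 4`: `h * tt = zz * sw ks * ss`; if `ks = ks' ++ [k]` this is `sw ks' * rr ^ (k+1)`: shorter; if `ks = []` it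
  is `zz * ss` and `tt * ss * tt = zz * rr * tt = zz * sgm 1`.
* `e = 1`, `ks = []`: `tt * ss * rr ^ j = zz * rr ^ (j+1)`: `j = 4` gives `1`, else previous cases.
* `e = 1`, `ks = k :: ks'`: `tt * ss * sgm k = zz * rr * sgm k`, `= zz * sgm (k+1)` for `k ≤ 2` (case `e = 0`, same length),
  `= ss` for `k = 3` (shorter).

`conj_nf`: strong induction on the length, conjugating `h = ss ^ e * sw ks * rr ^ j`:
* `e = 1`: conjugate to `sw ks * rr ^ j * ss`; `j ≥ 1`: `= sw (ks ++ [j-1])`; `j = 0`: `ks = []` gives `ss`, otherwise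
  `sw ks' * sgm k * ss = zz * sw ks' * rr ^ (k+1)`: `e = 0`, shorter.
* `e = 0`, `j = 0`: `sw ks` (or `1`). `e = 0`, `j ≥ 1`, `ks = []`: `rr ^ j`. `e = 0`, `j ≥ 1`, `ks = k :: ks'`: conjugate to
  `rr ^ j * sgm k * sw ks' = rr ^ (j + k) * tt * sw ks'`: `j + k ≤ 3`: `sw ((j+k) :: ks')`; `j + k ≥ 5`:
  `zz * sw ((j+k-5) :: ks')`; `j + k = 4`: `zz * ss * sw ks'`: `e = 1`, shorter. -/

set_option autoImplicit false

namespace Pool.Agent.VSB

theorem ss_mul_ss : ss * ss = zz := by rw [zz, pow_two]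

theorem zz_mul_zz : zz * zz = 1 := by rw [← pow_two, zz_sq]

theorem zz_inv : zz⁻¹ = zz := by
  rw [inv_eq_iff_mul_eq_one, zz_mul_zz]

theorem zz_pow_comm (h : Hk) (n : ℕ) : h * zz ^ n = zz ^ n * h := by
  have h1 : Commute h zz := zz_comm h
  exact h1.pow_right n

theorem tt_ss : tt * ss = zz * rr := by
  rw [tt, mul_assoc, ss_mul_ss, zz_comm]

theorem sgm_eq (k : Fin 4) : sgm k = rr ^ ((k : ℕ) + 1) * ss := by
  rw [sgm, tt, pow_succ, mul_assoc]

theorem sgm_ss (k : Fin 4) : sgm k * ss = zz * rr ^ ((k : ℕ) + 1) := by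
  rw [sgm_eq, mul_assoc, ss_mul_ss, zz_comm]

theorem rr4_tt : rr ^ 4 * tt = zz * ss := by
  rw [tt, ← mul_assoc, ← pow_succ, rr_pow5]

theorem sw_nil : sw [] = 1 := rfl

theorem sw_cons (k : Fin 4) (ks : List (Fin 4)) : sw (k :: ks) = sgm k * sw ks := by
  simp [sw]

theorem sw_append (ks ks' : List (Fin 4)) : sw (ks ++ ks') = sw ks * sw ks' := by
  simp [sw]

theorem sw_singleton (k : Fin 4) : sw [k] = sgm k := by
  simp [sw]

theorem sgm_mk (j : ℕ) (hj : j < 4) : sgm ⟨j, hj⟩ = rr ^ j * tt := rfl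

theorem sgm_pred (j : ℕ) (h0 : 1 ≤ j) (hj : j ≤ 4) :
    sgm ⟨j - 1, by omega⟩ = rr ^ j * ss := by
  rw [sgm_eq]
  show rr ^ (j - 1 + 1) * ss = _
  rw [Nat.sub_add_cancel h0]

theorem nf (h : Hk) : ∃ (ε e : ℕ) (ks : List (Fin 4)) (j : ℕ), e ≤ 1 ∧ j ≤ 4 ∧
    h = zz ^ ε * ss ^ e * sw ks * rr ^ j := by
  refine hk_induction (P := fun h => ∃ (ε e : ℕ) (ks : List (Fin 4)) (j : ℕ), e ≤ 1 ∧ j ≤ 4 ∧
    h = zz ^ ε * ss ^ e * sw ks * rr ^ j) ?_ ?_ ?_ h
  · exact ⟨0, 0, [], 0, by omega, by omega, by simp [sw]⟩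
  · rintro h ⟨ε, e, ks, j, he, hj, rfl⟩
    by_cases h4 : j = 4
    · subst h4
      refine ⟨ε + 1, e, ks, 0, he, by omega, ?_⟩
      rw [mul_assoc, ← pow_succ, rr_pow5, pow_zero, mul_one, zz_comm, pow_succ', mul_assoc,
        mul_assoc, mul_assoc]
    · refine ⟨ε, e, ks, j + 1, he, by omega, ?_⟩
      rw [pow_succ, ← mul_assoc]
  · rintro h ⟨ε, e, ks, j, he, hj, rfl⟩
    by_cases h0 : j = 0
    · subst h0
      rw [pow_zero, mul_one]
      rcases List.eq_nil_or_concat ks with rfl | ⟨ks', k, rfl⟩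
      · rw [sw_nil, mul_one]
        by_cases he0 : e = 0
        · subst he0
          exact ⟨ε, 1, [], 0, le_refl _, by omega, by simp [sw]⟩
        · have he1 : e = 1 := by omega
          subst he1
          refine ⟨ε + 1, 0, [], 0, by omega, by omega, ?_⟩
          rw [pow_one, mul_assoc, ss_mul_ss, pow_zero, mul_one, sw_nil, mul_one, pow_zero, mul_one,
            pow_succ]
      · refine ⟨ε + 1, e, ks', (k : ℕ) + 1, he, by omega, ?_⟩
        rw [List.concat_eq_append, sw_append, sw_singleton]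
        have h1 : zz ^ ε * ss ^ e * (sw ks' * sgm k) * ss =
            zz ^ ε * ss ^ e * sw ks' * (sgm k * ss) := by group
        rw [h1, sgm_ss, ← mul_assoc, zz_comm, pow_succ']
        group
    · refine ⟨ε, e, ks ++ [⟨j - 1, by omega⟩], 0, he, by omega, ?_⟩
      rw [sw_append, sw_singleton, sgm_pred j (by omega) hj, pow_zero, mul_one]
      group

/-- the conclusion of `dcoset` -/
def DC (h : Hk) : Prop := InT h ∨ ∃ (a b : ℤ) (ε : ℕ) (ks : List (Fin 4)), (∃ k ∈ ks, k ≠ 0) ∧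
    h = zz ^ ε * tt ^ a * sw ks * tt ^ b

theorem zz_zpow_comm (h : Hk) (n : ℕ) : Commute h (zz ^ n) := zz_pow_comm h n

theorem DC.of_zz {h : Hk} (H : DC (zz * h)) : DC h := by
  have key : ∀ x : Hk, zz * h = x → h = zz * x := by
    rintro x rfl
    rw [← mul_assoc, zz_mul_zz, one_mul]
  rcases H with ⟨ε, m, H⟩ | ⟨a, b, ε, ks, hk, H⟩
  · left
    refine ⟨ε + 1, m, ?_⟩
    rw [key _ H, pow_succ', mul_assoc]
  · right
    refine ⟨a, b, ε + 1, ks, hk, ?_⟩
    rw [key _ H, pow_succ']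
    simp only [mul_assoc]

theorem DC.zz_pow {h : Hk} (H : DC h) (n : ℕ) : DC (zz ^ n * h) := by
  induction n with
  | zero => simpa using H
  | succ n ih =>
    apply DC.of_zz
    have h1 : zz * (zz ^ (n + 1) * h) = zz ^ n * h := by
      rw [pow_succ', ← mul_assoc, ← mul_assoc, zz_mul_zz, one_mul]
    rw [h1]
    exact ih

theorem DC.of_tt_mul {h : Hk} (H : DC (tt * h)) : DC h := by
  have key : ∀ x : Hk, tt * h = x → h = tt⁻¹ * x := by
    rintro x rfl
    rw [inv_mul_cancel_left]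
  rcases H with ⟨ε, m, H⟩ | ⟨a, b, ε, ks, hk, H⟩
  · left
    refine ⟨ε, m - 1, ?_⟩
    rw [key _ H, ← mul_assoc, zz_pow_comm, mul_assoc, ← zpow_neg_one, ← zpow_add]
    congr 2
    ring
  · right
    refine ⟨a - 1, b, ε, ks, hk, ?_⟩
    rw [key _ H]
    have h1 : tt⁻¹ * (zz ^ ε * tt ^ a * sw ks * tt ^ b) =
        tt⁻¹ * zz ^ ε * (tt ^ a * sw ks * tt ^ b) := by simp only [mul_assoc]
    rw [h1, zz_pow_comm, zpow_sub_one, mul_assoc (zz ^ ε)]
    have h2 : tt ^ a * tt⁻¹ = tt⁻¹ * tt ^ a := ((Commute.refl tt).inv_right.zpow_left a).eq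
    rw [h2]
    simp only [mul_assoc]

theorem DC.of_mul_tt {h : Hk} (H : DC (h * tt)) : DC h := by
  have key : ∀ x : Hk, h * tt = x → h = x * tt⁻¹ := by
    rintro x rfl
    rw [mul_inv_cancel_right]
  rcases H with ⟨ε, m, H⟩ | ⟨a, b, ε, ks, hk, H⟩
  · left
    refine ⟨ε, m - 1, ?_⟩
    rw [key _ H, zpow_sub_one, mul_assoc]
  · right
    refine ⟨a, b - 1, ε, ks, hk, ?_⟩
    rw [key _ H, zpow_sub_one]
    simp only [mul_assoc]

theorem DC.of_sw {ks : List (Fin 4)} (h : ∃ k ∈ ks, k ≠ 0) : DC (sw ks) :=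
  Or.inr ⟨0, 0, 0, ks, h, by simp⟩

theorem DC.sw (ks : List (Fin 4)) : DC (sw ks) := by
  by_cases h : ∃ k ∈ ks, k ≠ 0
  · exact DC.of_sw h
  · push Not at h
    left
    refine ⟨0, ks.length, ?_⟩
    have h1 : ks = List.replicate ks.length 0 := List.eq_replicate_of_mem h
    rw [pow_zero, one_mul, zpow_natCast]
    conv_lhs => rw [h1]
    have h2 : sgm 0 = tt := by rw [sgm]; simp
    simp [Pool.Agent.VSB.sw, h2]

theorem DC.one : DC 1 := Or.inl ⟨0, 0, by simp⟩

theorem DC.claimA (ks : List (Fin 4)) (j : ℕ) (hj : j ≤ 4) : DC (Pool.Agent.VSB.sw ks * rr ^ j) := by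
  induction ks using List.reverseRecOn generalizing j with
  | nil =>
    rw [sw_nil, one_mul]
    by_cases h0 : j = 0
    · subst h0; rw [pow_zero]; exact DC.one
    by_cases h4 : j = 4
    · subst h4
      apply DC.of_mul_tt
      rw [rr4_tt]
      apply DC.of_zz
      rw [← mul_assoc, zz_mul_zz, one_mul]
      apply DC.of_tt_mul
      apply DC.of_mul_tt
      rw [tt_ss, mul_assoc]
      apply DC.of_zz
      rw [← mul_assoc, zz_mul_zz, one_mul]
      have h1 : rr * tt = Pool.Agent.VSB.sw [1] := by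
        rw [sw_singleton, sgm]; simp
      rw [h1]
      exact DC.sw _
    · apply DC.of_mul_tt
      have h1 : rr ^ j * tt = Pool.Agent.VSB.sw [⟨j, by omega⟩] := by
        rw [sw_singleton, sgm_mk]
      rw [h1]
      exact DC.sw _
  | append_singleton ks k ih =>
    by_cases h0 : j = 0
    · subst h0; rw [pow_zero, mul_one]; exact DC.sw _
    by_cases h4 : j = 4
    · subst h4
      apply DC.of_mul_tt
      rw [mul_assoc, rr4_tt, ← mul_assoc, zz_comm, mul_assoc]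
      apply DC.of_zz
      rw [← mul_assoc, zz_mul_zz, one_mul, sw_append, sw_singleton, mul_assoc, sgm_ss, ← mul_assoc,
        zz_comm, mul_assoc]
      apply DC.of_zz
      rw [← mul_assoc, zz_mul_zz, one_mul]
      exact ih _ (by omega)
    · apply DC.of_mul_tt
      have h1 : Pool.Agent.VSB.sw (ks ++ [k]) * rr ^ j * tt =
          Pool.Agent.VSB.sw ((ks ++ [k]) ++ [⟨j, by omega⟩]) := by
        rw [sw_append (ks ++ [k]), sw_singleton, sgm_mk, mul_assoc]
      rw [h1]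
      exact DC.sw _

theorem DC.claimB (ks : List (Fin 4)) (j : ℕ) (hj : j ≤ 4) :
    DC (ss * Pool.Agent.VSB.sw ks * rr ^ j) := by
  induction ks with
  | nil =>
    rw [sw_nil, mul_one]
    apply DC.of_tt_mul
    rw [← mul_assoc, tt_ss, mul_assoc, ← pow_succ']
    apply DC.of_zz
    rw [← mul_assoc, zz_mul_zz, one_mul]
    by_cases h4 : j = 4
    · subst h4
      rw [rr_pow5]
      apply DC.of_zz
      rw [zz_mul_zz]
      exact DC.one
    · have := DC.claimA [] (j + 1) (by omega)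
      rwa [sw_nil, one_mul] at this
  | cons k ks ih =>
    apply DC.of_tt_mul
    have h1 : tt * (ss * Pool.Agent.VSB.sw (k :: ks) * rr ^ j) =
        zz * (rr * sgm k * Pool.Agent.VSB.sw ks * rr ^ j) := by
      rw [sw_cons]
      calc tt * (ss * (sgm k * Pool.Agent.VSB.sw ks) * rr ^ j)
          = (tt * ss) * (sgm k * Pool.Agent.VSB.sw ks * rr ^ j) := by simp only [mul_assoc]
        _ = _ := by rw [tt_ss]; simp only [mul_assoc]
    rw [h1]
    apply DC.of_zz
    rw [← mul_assoc, zz_mul_zz, one_mul]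
    by_cases h3 : k = 3
    · subst h3
      have h2 : rr * sgm 3 = zz * ss := by
        rw [sgm, ← mul_assoc]
        have : rr * rr ^ ((3 : Fin 4) : ℕ) = rr ^ 4 := by
          rw [← pow_succ']; rfl
        rw [this, rr4_tt]
      rw [h2, mul_assoc, mul_assoc]
      apply DC.of_zz
      rw [← mul_assoc, zz_mul_zz, one_mul, ← mul_assoc]
      exact ih
    · have hk : (k : ℕ) + 1 < 4 := by
        have : (k : ℕ) ≠ 3 := fun h => h3 (Fin.ext h)
        omega
      have h2 : rr * sgm k = sgm ⟨(k : ℕ) + 1, hk⟩ := by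
        rw [sgm_mk, sgm, ← mul_assoc, ← pow_succ']
      rw [h2, ← sw_cons]
      exact DC.claimA _ _ hj

theorem dcoset (h : Hk) : InT h ∨ ∃ (a b : ℤ) (ε : ℕ) (ks : List (Fin 4)), (∃ k ∈ ks, k ≠ 0) ∧
    h = zz ^ ε * tt ^ a * sw ks * tt ^ b := by
  show DC h
  obtain ⟨ε, e, ks, j, he, hj, rfl⟩ := nf h
  rw [mul_assoc, mul_assoc]
  apply DC.zz_pow
  by_cases he0 : e = 0
  · subst he0
    rw [pow_zero, one_mul]
    exact DC.claimA ks j hj
  · have he1 : e = 1 := by omega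
    subst he1
    rw [pow_one, ← mul_assoc]
    exact DC.claimB ks j hj

/-- the conclusion of `conj_nf` -/
def CN (h : Hk) : Prop := ∃ (g : Hk) (ε : ℕ), (∃ j : ℕ, j ≤ 4 ∧ h = g * (zz ^ ε * rr ^ j) * g⁻¹) ∨
    (h = g * (zz ^ ε * ss) * g⁻¹) ∨
    ∃ ks : List (Fin 4), ks ≠ [] ∧ h = g * (zz ^ ε * sw ks) * g⁻¹

theorem CN.zz_mul {h : Hk} (H : CN h) : CN (zz * h) := by
  have key : ∀ (g x : Hk) (ε : ℕ), zz * (g * (zz ^ ε * x) * g⁻¹) = g * (zz ^ (ε + 1) * x) * g⁻¹ := by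
    intro g x ε
    rw [← mul_assoc, ← mul_assoc, ← zz_comm g, pow_succ']
    simp only [mul_assoc]
  obtain ⟨g, ε, ⟨j, hj, rfl⟩ | rfl | ⟨ks, hks, rfl⟩⟩ := H
  · exact ⟨g, ε + 1, Or.inl ⟨j, hj, key _ _ _⟩⟩
  · exact ⟨g, ε + 1, Or.inr (Or.inl (key _ _ _))⟩
  · exact ⟨g, ε + 1, Or.inr (Or.inr ⟨ks, hks, key _ _ _⟩)⟩

theorem CN.zz_pow_mul {h : Hk} (H : CN h) (n : ℕ) : CN (zz ^ n * h) := by
  induction n with
  | zero => simpa using H
  | succ n ih =>
    rw [pow_succ', mul_assoc]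
    exact ih.zz_mul

theorem CN.conj {h : Hk} (H : CN h) (u : Hk) : CN (u * h * u⁻¹) := by
  have key : ∀ (g x : Hk), u * (g * x * g⁻¹) * u⁻¹ = (u * g) * x * (u * g)⁻¹ := by
    intro g x
    rw [mul_inv_rev]
    simp only [mul_assoc]
  obtain ⟨g, ε, ⟨j, hj, rfl⟩ | rfl | ⟨ks, hks, rfl⟩⟩ := H
  · exact ⟨u * g, ε, Or.inl ⟨j, hj, key _ _⟩⟩
  · exact ⟨u * g, ε, Or.inr (Or.inl (key _ _))⟩
  · exact ⟨u * g, ε, Or.inr (Or.inr ⟨ks, hks, key _ _⟩)⟩

/-- cyclic permutation -/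
theorem CN.rot {x y : Hk} (H : CN (y * x)) : CN (x * y) := by
  have h := H.conj x
  have h1 : x * (y * x) * x⁻¹ = x * y := by
    rw [← mul_assoc, mul_inv_cancel_right]
  rwa [h1] at h

theorem CN.of_sw {ks : List (Fin 4)} (h : ks ≠ []) : CN (sw ks) :=
  ⟨1, 0, Or.inr (Or.inr ⟨ks, h, by simp⟩)⟩

theorem CN.of_rr (j : ℕ) (hj : j ≤ 4) : CN (rr ^ j) :=
  ⟨1, 0, Or.inl ⟨j, hj, by simp⟩⟩

theorem CN.of_ss : CN ss := ⟨1, 0, Or.inr (Or.inl (by simp))⟩

theorem CN.main (n : ℕ) : ∀ ks : List (Fin 4), ks.length = n → ∀ j ≤ 4,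
    CN (sw ks * rr ^ j) ∧ CN (ss * sw ks * rr ^ j) := by
  induction n using Nat.strong_induction_on with
  | _ n ih =>
    intro ks hn j hj
    refine ⟨?_, ?_⟩
    · by_cases h0 : j = 0
      · subst h0
        rw [pow_zero, mul_one]
        by_cases hks : ks = []
        · subst hks
          exact CN.of_rr 0 (by omega)
        · exact CN.of_sw hks
      · cases ks with
        | nil =>
          rw [sw_nil, one_mul]
          exact CN.of_rr j hj
        | cons k ks =>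
          apply CN.rot
          rw [sw_cons, ← mul_assoc, sgm, ← mul_assoc, ← pow_add]
          by_cases h3 : j + (k : ℕ) ≤ 3
          · have h1 : rr ^ (j + (k : ℕ)) * tt * sw ks = sw (⟨j + (k : ℕ), by omega⟩ :: ks) := by
              rw [sw_cons, sgm_mk]
            rw [h1]
            exact CN.of_sw (by simp)
          by_cases h4 : j + (k : ℕ) = 4
          · rw [h4, rr4_tt, mul_assoc]
            apply CN.zz_mul
            have h5 := (ih ks.length (by rw [← hn]; simp) ks rfl 0 (by omega)).2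
            rwa [pow_zero, mul_one] at h5
          · have h1 : rr ^ (j + (k : ℕ)) = zz * rr ^ (j + (k : ℕ) - 5) := by
              rw [← rr_pow5, ← pow_add]
              congr 1
              omega
            rw [h1, mul_assoc, mul_assoc]
            apply CN.zz_mul
            have h2 : rr ^ (j + (k : ℕ) - 5) * (tt * sw ks) =
                sw (⟨j + (k : ℕ) - 5, by omega⟩ :: ks) := by
              rw [sw_cons, sgm_mk, mul_assoc]
            rw [h2]
            exact CN.of_sw (by simp)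
    · rw [mul_assoc]
      apply CN.rot
      by_cases h0 : j = 0
      · subst h0
        rw [pow_zero, mul_one]
        rcases List.eq_nil_or_concat ks with rfl | ⟨ks', k, rfl⟩
        · rw [sw_nil, one_mul]
          exact CN.of_ss
        · rw [List.concat_eq_append, sw_append, sw_singleton, mul_assoc, sgm_ss, ← mul_assoc,
            zz_comm, mul_assoc]
          apply CN.zz_mul
          exact (ih ks'.length (by rw [← hn]; simp) ks' rfl _ (by omega)).1
      · have h1 : sw ks * rr ^ j * ss = sw (ks ++ [⟨j - 1, by omega⟩]) := by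
          rw [sw_append, sw_singleton, sgm_pred j (by omega) hj, mul_assoc]
        rw [h1]
        exact CN.of_sw (by simp)

theorem conj_nf (h : Hk) : ∃ (g : Hk) (ε : ℕ), (∃ j : ℕ, j ≤ 4 ∧ h = g * (zz ^ ε * rr ^ j) * g⁻¹) ∨
    (h = g * (zz ^ ε * ss) * g⁻¹) ∨
    ∃ ks : List (Fin 4), ks ≠ [] ∧ h = g * (zz ^ ε * sw ks) * g⁻¹ := by
  show CN h
  obtain ⟨ε, e, ks, j, he, hj, rfl⟩ := nf h
  rw [mul_assoc, mul_assoc]
  apply CN.zz_pow_mul
  have hm := CN.main ks.length ks rfl j hj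
  by_cases he0 : e = 0
  · subst he0
    rw [pow_zero, one_mul]
    exact hm.1
  · have he1 : e = 1 := by omega
    subst he1
    rw [pow_one, ← mul_assoc]
    exact hm.2

/-- `sgm 3 = ss * tt⁻¹ * ss⁻¹` -/
theorem sgm_three : sgm 3 = ss * tt⁻¹ * ss⁻¹ := by
  have h1 : ss * tt⁻¹ * ss⁻¹ = rr⁻¹ * ss⁻¹ := by
    rw [tt, mul_inv_rev]; group
  have h2 : ss⁻¹ = ss * zz := by
    rw [inv_eq_iff_mul_eq_one, ← mul_assoc, ss_mul_ss, zz_mul_zz]
  have h3 : sgm 3 = rr ^ 4 * ss := sgm_eq 3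
  have h4 : rr ^ 4 = rr⁻¹ * zz := by
    rw [eq_inv_mul_iff_mul_eq, ← pow_succ', rr_pow5]
  rw [h1, h2, h3, h4, mul_assoc, ← zz_comm ss]

theorem sw_three (n : ℕ) : sw (List.replicate n 3) = ss * (tt⁻¹) ^ n * ss⁻¹ := by
  have h1 : sw (List.replicate n 3) = sgm 3 ^ n := by simp [sw]
  rw [h1, sgm_three, conj_pow]

end Pool.Agent.VSB
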