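import Pool.Agent.VSB.Defs
import Pool.Agent.VSB.Auts

/-! # VSB/Homol: first homology and the intersection form

`coo x` : coordinates `(A, B, C, D)` of the homology class of `x`: `S 2 ↦ A`, `S 0, S 1 ↦ B`, `N 0 ↦ C`, `N 1, N 2 ↦ D`.
In terms of the sides of the pentagons: `e 0 = A`, `e 1 = B + D`, `e 2 = C`, `e 3 = -(B + C)`, `e 4 = -(A + D)`.
`om` : the algebraic intersection form: `(A, D) = 1`, `(A, C) = -1`, `(B, C) = 1`, `(B, D) = 0`, `(A, B) = (C, D) = 0`.

`coo_universal`: `f (S 0) = f (S 1)` (`rel0` in a commutative group), `f (N 1) = f (N 2)` (`rel2`), so `f` and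
`x ↦ f (S 2) ^ A * f (S 0) ^ B * f (N 0) ^ C * f (N 1) ^ D` agree (`hom_ext`).
`cooAut`: for an automorphism `ψ`, `coo ∘ ψ` factors through `coo` (`coo_universal`), giving an integer matrix, invertible
(use `ψ⁻¹`). -/

set_option autoImplicit false

namespace Pool.Agent.VSB

/-- the abelianisation -/
def coo : Pi →* Multiplicative (Fin 4 → ℤ) :=
  toHom (fun j => Multiplicative.ofAdd (if j = 2 then ![1, 0, 0, 0] else ![0, 1, 0, 0]))
    (fun j => Multiplicative.ofAdd (if j = 0 then ![0, 0, 1, 0] else ![0, 0, 0, 1]))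
    (by rw [mul_comm]; rfl) (by rw [mul_comm]; rfl) (by rw [mul_comm]; rfl)

/-- coordinates of the homology class -/
def hv (x : Pi) : Fin 4 → ℤ := Multiplicative.toAdd (coo x)

theorem hv_mul (x y : Pi) : hv (x * y) = hv x + hv y := by
  simp [hv]

theorem hv_inv (x : Pi) : hv x⁻¹ = -hv x := by
  simp [hv]

/-- intersection form -/
def om (v w : Fin 4 → ℤ) : ℤ :=
  (v 0 * w 3 - v 3 * w 0) - (v 0 * w 2 - v 2 * w 0) + (v 1 * w 2 - v 2 * w 1)

theorem hcooS (j : Fin 3) :
    coo (S j) = Multiplicative.ofAdd (if j = 2 then ![1, 0, 0, 0] else ![0, 1, 0, 0]) :=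
  toHom_S _ _ _ j

theorem hcooN (j : Fin 3) :
    coo (N j) = Multiplicative.ofAdd (if j = 0 then ![0, 0, 1, 0] else ![0, 0, 0, 1]) :=
  toHom_N _ _ _ j

theorem hv_S2 : hv (S 2) = ![1, 0, 0, 0] := by
  rw [hv, hcooS]; rfl

theorem hv_S0' : hv (S 0) = ![0, 1, 0, 0] := by
  rw [hv, hcooS]; rfl

theorem hv_S1 : hv (S 1) = ![0, 1, 0, 0] := by
  rw [hv, hcooS]; rfl

theorem hv_N0 : hv (N 0) = ![0, 0, 1, 0] := by
  rw [hv, hcooN]; rfl

theorem hv_N1 : hv (N 1) = ![0, 0, 0, 1] := by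
  rw [hv, hcooN]; rfl

theorem hv_N2 : hv (N 2) = ![0, 0, 0, 1] := by
  rw [hv, hcooN]; rfl

theorem hv_zpow (x : Pi) (k : ℤ) : hv (x ^ k) = k • hv x := by
  simp [hv]

/-- every homomorphism to a commutative group factors through `coo` -/
theorem coo_universal {G : Type*} [CommGroup G] (f : Pi →* G) {x y : Pi} (h : hv x = hv y) :
    f x = f y := by
  have h01 : f (S 1) = f (S 0) := by
    have h := congrArg f rel0
    rw [map_mul, map_mul, mul_comm (f (N 0))] at h
    exact (mul_right_cancel h).symm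
  have h12 : f (N 2) = f (N 1) := by
    have h := congrArg f rel2
    rw [map_mul, map_mul, mul_comm (f (N 2))] at h
    exact (mul_left_cancel h).symm
  let g : Multiplicative (Fin 4 → ℤ) →* G :=
    { toFun := fun v => f (S 2) ^ (Multiplicative.toAdd v 0) * f (S 0) ^ (Multiplicative.toAdd v 1) *
        f (N 0) ^ (Multiplicative.toAdd v 2) * f (N 1) ^ (Multiplicative.toAdd v 3)
      map_one' := by simp
      map_mul' := fun v w => by
        simp only [toAdd_mul, Pi.add_apply, zpow_add]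
        simp only [mul_comm, mul_left_comm, mul_assoc] }
  have key : f = g.comp coo := by
    apply hom_ext
    · intro j
      rw [MonoidHom.comp_apply, hcooS]
      fin_cases j <;> simp [g, h01]
    · intro j
      rw [MonoidHom.comp_apply, hcooN]
      fin_cases j <;> simp [g, h12]
  have hc : coo x = coo y := Multiplicative.toAdd.injective h
  rw [key, MonoidHom.comp_apply, MonoidHom.comp_apply, hc]

/-- surjective -/
theorem hv_surjective : Function.Surjective hv := by
  intro v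
  refine ⟨S 2 ^ (v 0) * S 0 ^ (v 1) * N 0 ^ (v 2) * N 1 ^ (v 3), ?_⟩
  rw [hv_mul, hv_mul, hv_mul, hv_zpow, hv_zpow, hv_zpow, hv_zpow, hv_S2, hv_S0', hv_N0, hv_N1]
  funext i
  fin_cases i <;> simp

theorem hv_congr (ψ : MulAut Pi) {x y : Pi} (h : hv x = hv y) : hv (ψ x) = hv (ψ y) :=
  congrArg Multiplicative.toAdd (coo_universal (coo.comp ψ.toMonoidHom) h)

/-- computation of the action of an automorphism on homology -/
theorem hv_eq_of (ψ : MulAut Pi) (L : (Fin 4 → ℤ) →+ (Fin 4 → ℤ))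
    (hS : ∀ j, hv (ψ (S j)) = L (hv (S j))) (hN : ∀ j, hv (ψ (N j)) = L (hv (N j))) (x : Pi) :
    hv (ψ x) = L (hv x) := by
  have key : coo.comp ψ.toMonoidHom = (AddMonoidHom.toMultiplicative L).comp coo := by
    apply hom_ext
    · intro j
      exact Multiplicative.toAdd.injective (hS j)
    · intro j
      exact Multiplicative.toAdd.injective (hN j)
  exact congrArg Multiplicative.toAdd (DFunLike.congr_fun key x)

/-- action of an automorphism on homology -/
theorem exists_hmap (ψ : MulAut Pi) : ∃ M : (Fin 4 → ℤ) ≃+ (Fin 4 → ℤ), ∀ x, hv (ψ x) = M (hv x) := by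
  obtain ⟨s, hs⟩ := hv_surjective.hasRightInverse
  refine ⟨AddEquiv.mk' ⟨fun v => hv (ψ (s v)), fun v => hv (ψ⁻¹ (s v)), fun v => ?_, fun v => ?_⟩
    (fun v w => ?_), fun x => ?_⟩
  · have h : hv (s (hv (ψ (s v)))) = hv (ψ (s v)) := hs _
    have h1 := hv_congr ψ⁻¹ h
    show hv (ψ⁻¹ (s (hv (ψ (s v))))) = v
    rw [h1, MulAut.inv_apply_self]
    exact hs v
  · have h : hv (s (hv (ψ⁻¹ (s v)))) = hv (ψ⁻¹ (s v)) := hs _
    have h1 := hv_congr ψ h
    show hv (ψ (s (hv (ψ⁻¹ (s v))))) = v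
    rw [h1, MulAut.apply_inv_self]
    exact hs v
  · have h : hv (s (v + w)) = hv (s v * s w) := by
      rw [hv_mul, hs, hs, hs]
    show hv (ψ (s (v + w))) = hv (ψ (s v)) + hv (ψ (s w))
    rw [hv_congr ψ h, map_mul, hv_mul]
  · show hv (ψ x) = hv (ψ (s (hv x)))
    exact hv_congr ψ (hs _).symm

noncomputable def hmap (ψ : MulAut Pi) : (Fin 4 → ℤ) ≃+ (Fin 4 → ℤ) := (exists_hmap ψ).choose

theorem hv_aut (ψ : MulAut Pi) (x : Pi) : hv (ψ x) = hmap ψ (hv x) := (exists_hmap ψ).choose_spec x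

theorem hmap_mul (ψ χ : MulAut Pi) (v : Fin 4 → ℤ) : hmap (ψ * χ) v = hmap ψ (hmap χ v) := by
  obtain ⟨x, rfl⟩ := hv_surjective v
  rw [← hv_aut, ← hv_aut, ← hv_aut, MulAut.mul_apply]

/-- orientation preserving automorphisms -/
def OP (ψ : MulAut Pi) : Prop := ∀ x y : Pi, om (hv (ψ x)) (hv (ψ y)) = om (hv x) (hv y)

/-- the action of the rotation of order ten on homology -/
def LR : (Fin 4 → ℤ) →+ (Fin 4 → ℤ) where
  toFun v := ![v 1 - v 2, v 0 + v 1 - v 3, v 0, v 1]
  map_zero' := by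
    funext i
    fin_cases i <;> simp
  map_add' v w := by
    funext i
    fin_cases i <;> simp <;> ring

/-- the action of the rotation of order four on homology -/
def LS : (Fin 4 → ℤ) →+ (Fin 4 → ℤ) where
  toFun v := ![v 2, v 3, -v 0, -v 1]
  map_zero' := by
    funext i
    fin_cases i <;> simp
  map_add' v w := by
    funext i
    fin_cases i <;> simp <;> ring

theorem hv_aR (x : Pi) : hv (aR x) = LR (hv x) := by
  refine hv_eq_of aR LR (fun j => ?_) (fun j => ?_) x
  · rw [aR_S]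
    fin_cases j
    · show hv (S 1 * S 2 * N 1) = LR (hv (S 0))
      rw [hv_mul, hv_mul, hv_S1, hv_S2, hv_N1, hv_S0']
      funext i
      fin_cases i <;> simp [LR]
    · show hv (S 2 * S 1 * N 2) = LR (hv (S 1))
      rw [hv_mul, hv_mul, hv_S1, hv_S2, hv_N2]
      funext i
      fin_cases i <;> simp [LR]
    · show hv (S 0 * N 0) = LR (hv (S 2))
      rw [hv_mul, hv_S0', hv_S2, hv_N0]
      funext i
      fin_cases i <;> simp [LR]
  · rw [aR_N]
    fin_cases j
    · show hv (S 2)⁻¹ = LR (hv (N 0))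
      rw [hv_inv, hv_S2, hv_N0]
      funext i
      fin_cases i <;> simp [LR]
    · show hv (S 1)⁻¹ = LR (hv (N 1))
      rw [hv_inv, hv_S1, hv_N1]
      funext i
      fin_cases i <;> simp [LR]
    · show hv (S 0)⁻¹ = LR (hv (N 2))
      rw [hv_inv, hv_S0', hv_N2]
      funext i
      fin_cases i <;> simp [LR]

theorem hv_aS (x : Pi) : hv (aS x) = LS (hv x) := by
  refine hv_eq_of aS LS (fun j => ?_) (fun j => ?_) x
  · rw [aS_S]
    fin_cases j
    · show hv (N 2)⁻¹ = LS (hv (S 0))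
      rw [hv_inv, hv_N2, hv_S0']
      funext i
      fin_cases i <;> simp [LS]
    · show hv (N 1)⁻¹ = LS (hv (S 1))
      rw [hv_inv, hv_N1, hv_S1]
      funext i
      fin_cases i <;> simp [LS]
    · show hv (N 0)⁻¹ = LS (hv (S 2))
      rw [hv_inv, hv_N0, hv_S2]
      funext i
      fin_cases i <;> simp [LS]
  · rw [aS_N]
    fin_cases j
    · show hv (S 2) = LS (hv (N 0))
      rw [hv_S2, hv_N0]
      funext i
      fin_cases i <;> simp [LS]
    · show hv (S 0) = LS (hv (N 1))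
      rw [hv_S0', hv_N1]
      funext i
      fin_cases i <;> simp [LS]
    · show hv (S 1) = LS (hv (N 2))
      rw [hv_S1, hv_N2]
      funext i
      fin_cases i <;> simp [LS]

theorem OP_aR : OP aR := by
  intro x y
  rw [hv_aR, hv_aR]
  simp only [om, LR, AddMonoidHom.coe_mk, ZeroHom.coe_mk, Matrix.cons_val]
  ring

theorem OP_aS : OP aS := by
  intro x y
  rw [hv_aS, hv_aS]
  simp only [om, LS, AddMonoidHom.coe_mk, ZeroHom.coe_mk, Matrix.cons_val]
  ring

theorem OP.mul {ψ χ : MulAut Pi} (h : OP ψ) (h' : OP χ) : OP (ψ * χ) := fun x y =>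
  (h _ _).trans (h' _ _)

theorem OP.inv {ψ : MulAut Pi} (h : OP ψ) : OP ψ⁻¹ := fun x y => by
  have := h (ψ⁻¹ x) (ψ⁻¹ y)
  simpa using this.symm

theorem OP_conj (g : Pi) : OP (MulAut.conj g) := by
  intro x y
  have h : ∀ z, hv (MulAut.conj g z) = hv z := fun z => by
    rw [MulAut.conj_apply, hv_mul, hv_mul, hv_inv]
    abel
  rw [h, h]

theorem hv_S0 (ψ : MulAut Pi) : hv (ψ (S 0)) ≠ 0 := by
  rw [hv_aut, hv_S0']
  intro h
  rw [map_eq_zero_iff (hmap ψ) (hmap ψ).injective] at h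
  have := congrFun h 1
  simp at this

end Pool.Agent.VSB
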