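import Pool.Agent.VSB.Nest

/-! # VSB/Ineq: the main inequality (1)

PROOF of `ineq`. For every `j` in `range H.n` take the bridge `x_j`, `b_j` of `exists_bridge (hd j)`, and for `i < m j` let
`z = x_j * mk (b_j.take i)`, letter `a = b_j[i]`. If `a = (l, true)` take `a', k` with `u (g j * inc z) ∉ k • Wl a'`,
`u (g j * inc z * S l) ∈ k • Wl a'` (`hu.2`), if `a = (l, false)` apply `hu.2` at the point `g j * inc z * (S l)⁻¹`. Let
`K' = k • Wl a'`, `K = {z | u z ∈ K'}`, good by `hu.1`. By `nest_true` / `nest_false` `K` (or `Kᶜ`) is nested between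
`Hs j` and `Hs (j-1)`; so `Cross x K`, hence `Cross (u x) K'` (`Cross.aut`). Apply `card_le_ell` to `u x` with the index
type `Σ j : Fin H.n, Fin (m j)`. Distinctness: `(u x) ^ r • K' (j, i) = K' (j', i')` means `x ^ r • K (j, i) = K (j', i')`. Call `K⋆` the
one of `K`, `Kᶜ` which contains `Hs j` and is contained in `Hs (j-1)`; both `K⋆ (j, i)` translated and `K⋆ (j', i')` contain
`g l` for large `l`, so the equality holds for the starred sets. `x ^ r • K⋆ (j, i)` lies between `Hs (j + r n)` and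
`Hs (j + r n - 1)`; it contains the outgoing line of the strand `j + r n` and not the incoming one, so it is
different from every set containing or disjoint from the tree `g (j + r n) * inc F`: hence `j + r n = j'`, `j = j'`, `r = 0`. For
`i < i'` the point `x_j * mk (b_j.take i')` is in `K⋆ (j, i)` (third property of the bridge and `cut_iff`) but not in
`K⋆ (j, i')` (fourth property with `i' = i`). -/

set_option autoImplicit false

open scoped Pointwise

namespace Pool.Agent.VSB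

/-- automorphisms for which the inequality can be proved directly -/
def PosAut (u : MulAut Pi) : Prop :=
  (∀ (a : Fin 2) (k : Pi), Good {z | u z ∈ k • Wl a}) ∧
  ∀ (z : Pi) (j : Fin 3), ∃ (a : Fin 2) (k : Pi), u z ∉ k • Wl a ∧ u (z * S j) ∈ k • Wl a

theorem not_SW_one (a : Fin 3 × Bool) : ¬ SW a 1 := by
  simp [SW]

/-- the walls through the edges of the bridges -/
theorem PosAut.exists_K {u : MulAut Pi} (hu : PosAut u) {x : Pi} (H : HAx x) (j : ℤ) (z : F)
    (a : Fin 3 × Bool)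
    (hin : ∀ y ∈ Line (bar (H.p (j - 1))), ¬ SW a (z⁻¹ * y))
    (hout : ∀ y ∈ Line (H.p j), SW a (z⁻¹ * H.f j * y)) :
    ∃ (a' : Fin 2) (k : Pi) (Ks : Set Pi),
      (Ks = {y | u y ∈ k • Wl a'} ∨ Ks = {y | u y ∈ k • Wl a'}ᶜ) ∧
      H.Hs j ⊆ Ks ∧ Ks ⊆ H.Hs (j - 1) ∧ ∀ f, H.g j * inc z * inc f ∈ Ks ↔ SW a f := by
  obtain ⟨i, s⟩ := a
  cases s with
  | true =>
    obtain ⟨a', k, h0, h1⟩ := hu.2 (H.g j * inc z) i
    have hK := hu.1 a' k
    obtain ⟨h2, h3⟩ := H.nest_true hK j z i h0 h1 hin hout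
    exact ⟨a', k, _, Or.inl rfl, h2, h3, fun f => cut_iff hK h0 h1 f⟩
  | false =>
    obtain ⟨a', k, h0, h1⟩ := hu.2 (H.g j * inc z * (S i)⁻¹) i
    rw [inv_mul_cancel_right] at h1
    have hK := hu.1 a' k
    obtain ⟨h2, h3⟩ := H.nest_false hK j z i h1 h0 hin hout
    exact ⟨a', k, _, Or.inr rfl, h2, h3, fun f => cut_iff' hK h1 h0 f⟩

/-- the walls of different strands or different edges are different -/
theorem star_distinct {x : Pi} (H : HAx x) {j j' r : ℤ} {K K' : Set Pi} {z z' : F}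
    {a a' : Fin 3 × Bool}
    (h1 : H.Hs j ⊆ K) (h2 : K ⊆ H.Hs (j - 1)) (h3 : ∀ f, H.g j * inc z * inc f ∈ K ↔ SW a f)
    (h1' : H.Hs j' ⊆ K') (_ : K' ⊆ H.Hs (j' - 1))
    (h3' : ∀ f, H.g j' * inc z' * inc f ∈ K' ↔ SW a' f)
    (he : x ^ r • K = K' ∨ x ^ r • K = K'ᶜ) : x ^ r • K = K' ∧ j + r * H.n = j' := by
  have hj1 : H.Hs (j + r * H.n) ⊆ x ^ r • K := by
    rw [← H.smul_Hs]
    exact Set.smul_set_mono h1
  have hj2 : x ^ r • K ⊆ H.Hs (j + r * H.n - 1) := by
    have : j + r * H.n - 1 = (j - 1) + r * H.n := by ring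
    rw [this, ← H.smul_Hs]
    exact Set.smul_set_mono h2
  have heq : x ^ r • K = K' := by
    rcases he with he | he
    · exact he
    · exfalso
      have hl1 : H.g (max (j + r * H.n) j' + 1) * inc 1 ∈ H.Hs (j + r * H.n) :=
        (H.mem_Hs _ _ _).2 (by have := le_max_left (j + r * H.n) j'; omega)
      have hl2 : H.g (max (j + r * H.n) j' + 1) * inc 1 ∈ H.Hs j' :=
        (H.mem_Hs _ _ _).2 (by have := le_max_right (j + r * H.n) j'; omega)
      have h4 := hj1 hl1
      rw [he] at h4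
      exact h4 (h1' hl2)
  refine ⟨heq, ?_⟩
  by_contra hne
  rcases lt_or_gt_of_ne hne with hlt | hlt
  · have h5 : H.Hs (j' - 1) ⊆ K' := by
      rw [← heq]
      exact (H.Hs_anti (by omega)).trans hj1
    have h6 : H.g j' * inc z' ∈ H.Hs (j' - 1) := (H.mem_Hs _ _ _).2 (by omega)
    have h7 := h3' 1
    rw [map_one, mul_one] at h7
    exact not_SW_one a' (h7.1 (h5 h6))
  · have h5 : H.Hs (j + r * H.n - 1) ⊆ x ^ r • K := by
      rw [heq]
      exact (H.Hs_anti (by omega)).trans h1'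
    have h6 : H.g (j + r * H.n) * inc z ∈ H.Hs (j + r * H.n - 1) :=
      (H.mem_Hs _ _ _).2 (by omega)
    have h7 := h5 h6
    rw [H.g_add, mul_assoc, Set.mem_smul_set_iff_inv_smul_mem, smul_eq_mul,
      inv_mul_cancel_left] at h7
    have h8 := h3 1
    rw [map_one, mul_one] at h8
    exact not_SW_one a (h8.1 h7)

theorem ineq {u : MulAut Pi} (hu : PosAut u) {x : Pi} (H : HAx x) (m : ℤ → ℕ)
    (hd : ∀ j, Dst (bar (H.p (j - 1))) (H.f j) (H.p j) (m j)) :
    ∑ j ∈ Finset.range H.n, m j ≤ ell (u x) := by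
  choose X B hX hB hbr using fun j : ℤ => exists_bridge (hd j)
  have hidx : ∀ (j : ℤ) (i : Fin (m j)), (i : ℕ) < (B j).length := fun j i =>
    lt_of_lt_of_le i.2 (hB j)
  choose A k Ks hK h1 h2 h3 using fun (t : Σ j : Fin H.n, Fin (m ((j : ℕ) : ℤ))) =>
    hu.exists_K H ((t.1 : ℕ) : ℤ)
      (X ((t.1 : ℕ) : ℤ) * FreeGroup.mk ((B ((t.1 : ℕ) : ℤ)).take t.2)) _
      (hbr ((t.1 : ℕ) : ℤ) t.2 (hidx _ t.2)).1 (hbr ((t.1 : ℕ) : ℤ) t.2 (hidx _ t.2)).2.1
  have hcard : Fintype.card (Σ j : Fin H.n, Fin (m ((j : ℕ) : ℤ))) =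
      ∑ j ∈ Finset.range H.n, m j := by
    rw [Fintype.card_sigma]
    simp only [Fintype.card_fin]
    exact Fin.sum_univ_eq_sum_range (fun j : ℕ => m (j : ℤ)) H.n
  rw [← hcard]
  refine card_le_ell (u x) (fun t => k t • Wl (A t)) (fun t => ⟨A t, k t, rfl⟩) (fun t => ?_) ?_
  · apply Cross.aut u
    rcases hK t with h | h
    · rw [← h]
      exact H.cross_of_nest (h1 t) (h2 t)
    · apply H.cross_of_nest' (i := ((t.1 : ℕ) : ℤ) - 1) (j := ((t.1 : ℕ) : ℤ))
      · rw [← h]
        exact h1 t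
      · rw [← h]
        exact h2 t
  · intro t t' r hr
    -- the equality for the pulled back walls
    have hr' : x ^ r • {y | u y ∈ k t • Wl (A t)} = {y | u y ∈ k t' • Wl (A t')} := by
      ext y
      rw [Set.mem_smul_set_iff_inv_smul_mem, smul_eq_mul, Set.mem_ofPred_eq, Set.mem_ofPred_eq,
        ← hr, Set.mem_smul_set_iff_inv_smul_mem (a := (u x) ^ r), smul_eq_mul, map_mul, map_inv,
        map_zpow]
    have he : x ^ r • Ks t = Ks t' ∨ x ^ r • Ks t = (Ks t')ᶜ := by
      rcases hK t with h | h <;> rcases hK t' with h' | h'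
      · left; rw [h, h', hr']
      · right; rw [h, h', hr', compl_compl]
      · right; rw [h, h', Set.smul_set_compl, hr']
      · left; rw [h, h', Set.smul_set_compl, hr']
    obtain ⟨h4, h5⟩ := star_distinct H (h1 t) (h2 t) (h3 t) (h1 t') (h2 t') (h3 t') he
    have hr0 : r = 0 := by
      have hp := H.pos
      have b1 := t.1.2
      have b2 := t'.1.2
      by_contra hr0
      rcases lt_or_gt_of_ne hr0 with hlt | hlt
      · have : r * (H.n : ℤ) ≤ -1 * H.n := by
          apply mul_le_mul_of_nonneg_right <;> omega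
        omega
      · have : 1 * (H.n : ℤ) ≤ r * H.n := by
          apply mul_le_mul_of_nonneg_right <;> omega
        omega
    subst hr0
    obtain ⟨j, i⟩ := t
    obtain ⟨j', i'⟩ := t'
    have hjj : j = j' := by
      apply Fin.ext
      have : ((j : ℕ) : ℤ) = ((j' : ℕ) : ℤ) := by simpa using h5
      exact_mod_cast this
    subst hjj
    rw [zpow_zero, one_smul] at h4
    -- different edges of the same bridge
    have key : ∀ i i' : Fin (m ((j : ℕ) : ℤ)), Ks ⟨j, i⟩ = Ks ⟨j, i'⟩ → ¬ (i : ℕ) < i' := by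
      intro i i' hii hlt
      have h6 := (hbr ((j : ℕ) : ℤ) i (hidx _ i)).2.2.1 i' hlt (hidx _ i').le
      have h7 := (h3 ⟨j, i⟩ _).2 h6
      rw [mul_assoc, ← map_mul, mul_inv_cancel_left, hii] at h7
      have h8 := h3 ⟨j, i'⟩ 1
      rw [map_one, mul_one] at h8
      exact not_SW_one _ (h8.1 h7)
    have hii : i = i' := by
      apply Fin.ext
      have := key i i' h4
      have := key i' i h4.symm
      omega
    rw [hii]

theorem exists_cyc {f : F} (hf : f ≠ 1) : ∃ (h c0 : F) (a : Fin 3 × Bool), f = h * c0 * h⁻¹ ∧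
    ∀ i : ℕ, 1 ≤ i → SW a (c0 ^ i) ∧ ¬ SW a ((c0⁻¹) ^ i) := by
  have hwr : FreeGroup.IsReduced f.toWord := FreeGroup.isReduced_toWord
  have hconj := FreeGroup.reduceCyclically.conj_conjugator_reduceCyclically f.toWord
  have hcyc := FreeGroup.reduceCyclically.isCyclicallyReduced hwr
  generalize FreeGroup.reduceCyclically f.toWord = R at hconj hcyc
  generalize FreeGroup.reduceCyclically.conjugator f.toWord = C at hconj
  have hfe : f = FreeGroup.mk C * FreeGroup.mk R * (FreeGroup.mk C)⁻¹ := by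
    rw [FreeGroup.inv_mk, FreeGroup.mul_mk, FreeGroup.mul_mk, hconj, FreeGroup.mk_toWord]
  have hRne : R ≠ [] := by
    rintro rfl
    apply hf
    rw [hfe, ← FreeGroup.one_eq_mk, mul_one, mul_inv_cancel]
  obtain ⟨a, R', hRa⟩ := List.exists_cons_of_ne_nil hRne
  refine ⟨FreeGroup.mk C, FreeGroup.mk R, a, hfe, fun i hi => ?_⟩
  have hi0 : i ≠ 0 := by omega
  have hw : (FreeGroup.mk R ^ i).toWord = (List.replicate i R).flatten := by
    rw [FreeGroup.toWord_pow, FreeGroup.toWord_mk, hcyc.isReduced.reduce_eq,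
      (hcyc.flatten_replicate i).isReduced.reduce_eq]
  constructor
  · unfold SW
    rw [hw, List.head?_flatten_replicate hi0, hRa]
    rfl
  · unfold SW
    rw [inv_pow, FreeGroup.toWord_inv, hw, FreeGroup.invRev, List.head?_reverse, List.getLast?_map,
      List.getLast?_flatten_replicate hi0]
    intro h
    rw [Option.map_eq_some_iff] at h
    obtain ⟨b, hb, hb'⟩ := h
    have h1 := hcyc.2 b hb a (by rw [hRa]; rfl)
    rw [← hb'] at h1
    have h2 := h1 rfl
    cases hb2 : b.2 <;> simp [hb2] at h2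

/-- the elliptic case. PROOF: `f` is conjugate to a cyclically reduced word, the powers `f ^ i`, `i ≥ 1`, start with its
first letter `a` and the powers `(f⁻¹) ^ i` do not; the wall cutting the edge from `1` with the letter `a` (`cut_iff`,
`cut_iff'`) satisfies `Cross (inc f)`; `card_le_ell` with `T = Unit`. -/
theorem ineq_inc {u : MulAut Pi} (hu : PosAut u) {f : F} (hf : f ≠ 1) : 1 ≤ ell (u (inc f)) := by
  obtain ⟨h, c0, a, rfl, hc⟩ := exists_cyc hf
  have h1 : u (inc (h * c0 * h⁻¹)) = u (inc h) * u (inc c0) * (u (inc h))⁻¹ := by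
    simp only [map_mul, map_inv]
  rw [h1, ell_conj]
  have hw : ∃ (a' : Fin 2) (k : Pi), Cross (inc c0) {y | u y ∈ k • Wl a'} := by
    obtain ⟨i, s⟩ := a
    cases s with
    | true =>
      obtain ⟨a', k, h0, h1⟩ := hu.2 1 i
      have hK := hu.1 a' k
      refine ⟨a', k, Or.inl ⟨1, fun n hn => ?_⟩⟩
      have h2 := cut_iff hK h0 h1
      simp only [one_mul] at h2
      obtain ⟨h3, h4⟩ := hc n hn
      refine ⟨?_, ?_⟩
      · rw [← map_pow]
        exact (h2 _).2 h3
      · rw [← map_inv, ← map_pow]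
        exact fun h5 => h4 ((h2 _).1 h5)
    | false =>
      obtain ⟨a', k, h0, h1⟩ := hu.2 (1 * (S i)⁻¹) i
      rw [inv_mul_cancel_right] at h1
      have hK := hu.1 a' k
      refine ⟨a', k, Or.inr ⟨1, fun n hn => ?_⟩⟩
      have h2 := cut_iff' hK h1 h0
      simp only [one_mul] at h2
      obtain ⟨h3, h4⟩ := hc n hn
      refine ⟨?_, ?_⟩
      · rw [← map_pow]
        exact (h2 _).2 h3
      · rw [← map_inv, ← map_pow]
        by_contra h5
        exact h4 ((h2 _).1 h5)
  obtain ⟨a', k, hcr⟩ := hw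
  have h2 := card_le_ell (u (inc c0)) (T := Unit) (fun _ => k • Wl a') (fun _ => ⟨a', k, rfl⟩)
    (fun _ => Cross.aut u hcr) (fun _ _ _ _ => rfl)
  simpa using h2

end Pool.Agent.VSB
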