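import Pool.Agent.VSB.Axis
import Pool.Agent.VSB.LineF

/-! # VSB/Parse: from cyclic words to axes

`rung_swap`: for a signed letter `l = (n i, ε)` and an `s`-word `u` such that `l u l'` crosses a ladder back
(`l' = (n i', ¬ε)`). Write the letters through the rungs: every signed letter `n` is `rung p k₀` with `k₀ ∈ {0, 1}`,
`stp (rung p k₀) = (inc (pt p k₀))⁻¹ * t p * inc (pt (bar p) k₀)`.
`exists_blocks`: rotate the word (conjugation) such that it ends with a letter `n`, cut it after the letters `n`:
blocks `inc u * stp l`, `u` an `s`-word, `l = (rung p k₀)`; as `stp l = inc (pt p k₀)⁻¹ * t p * inc (pt (bar p) k₀)` the product of the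
blocks is, after moving `inc (pt (bar p) k₀)` to the next block cyclically (one more conjugation), a product of
`inc f * t p` with `f = pt (bar p') k₀' * u * (pt p k₀)⁻¹`, `f.norm ≤ u.length + 2`.
`ofList`: the bi-infinite periodic sequences from a list.
`parse`: if the list of blocks is cyclically reduced take `ofList`. If not, there are consecutive blocks
`t p`, `f`, `t (bar p)` with `f ∈ zpowers (c (bar p))`; (the list has length at least two because `bar p ≠ p`;) then the
corresponding subword `l u l'` of the (rotated) word satisfies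
`stp l * inc u * stp l' = t p`-conjugate of `zpowers (c (bar p))`, namely it equals `inc v` with
`v = (pt p k₀)⁻¹ * pt p m`-like element, `v.norm = u.norm ≤` number of letters of `u` (`norm_pt`): if
`u = (pt (bar p) k₀)⁻¹ * pt (bar p) k₁` then `v = (pt p k₀)⁻¹ * pt p k₁` (`rung_eq`). Replace `l u l'` by the reduced word of `v`. -/

set_option autoImplicit false

namespace Pool.Agent.VSB

namespace PZ

theorem stp_rung (p : Fin 4) (k : ℤ) :
    stp (rung p k) = (inc (pt p k))⁻¹ * t p * inc (pt (bar p) k) := by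
  rw [mul_assoc, ← rung_eq, inv_mul_cancel_left]

end PZ

open PZ

/-- crossing a ladder and coming back -/
theorem rung_swap (p : Fin 4) (k₀ k₁ : ℤ) :
    stp (rung p k₀) * inc ((pt (bar p) k₀)⁻¹ * pt (bar p) k₁) * (stp (rung p k₁))⁻¹ =
      inc ((pt p k₀)⁻¹ * pt p k₁) := by
  rw [stp_rung, stp_rung, map_mul, map_inv, map_mul, map_inv]
  group

/-- cyclically reduced lists of blocks -/
def CycRed (L : List (F × Fin 4)) : Prop :=
  ∀ i (hi : i < L.length), ¬ ((L[(i + 1) % L.length]'(Nat.mod_lt _ (by omega))).2 = bar L[i].2 ∧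
    (L[(i + 1) % L.length]'(Nat.mod_lt _ (by omega))).1 ∈
      Subgroup.zpowers (c (L[(i + 1) % L.length]'(Nat.mod_lt _ (by omega))).2))

namespace PZ

/-- product of the blocks -/
def bprod (L : List (F × Fin 4)) : Pi := (L.map (fun b => inc b.1 * t b.2)).prod

theorem bprod_take_succ (L : List (F × Fin 4)) (i : ℕ) (hi : i < L.length) :
    bprod (L.take (i + 1)) = bprod (L.take i) * inc L[i].1 * t L[i].2 := by
  unfold bprod
  rw [List.take_succ_eq_append_getElem hi, List.map_append, List.prod_append]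
  simp [mul_assoc]

end PZ

theorem exists_ofList (L : List (F × Fin 4)) (hL : L ≠ []) (hr : CycRed L) :
    ∃ H : HAx (L.map (fun b => inc b.1 * t b.2)).prod, H.n = L.length ∧
      ∀ i (hi : i < L.length), H.f i = L[i].1 ∧ H.p i = L[i].2 := by
  have hpos : 0 < L.length := List.length_pos_iff.2 hL
  have hposZ : (0 : ℤ) < (L.length : ℤ) := by exact_mod_cast hpos
  have hlt : ∀ j : ℤ, (j % (L.length : ℤ)).toNat < L.length := by
    intro j
    have h1 := Int.emod_nonneg j hposZ.ne'
    have h2 := Int.emod_lt_of_pos j hposZ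
    omega
  have hadd : ∀ j : ℤ, (j + (L.length : ℤ)) % (L.length : ℤ) = j % (L.length : ℤ) := fun j => by simp
  have hdiv : ∀ j : ℤ, (j + (L.length : ℤ)) / (L.length : ℤ) = j / (L.length : ℤ) + 1 := fun j => by
    rw [Int.add_ediv_of_dvd_right (dvd_refl _), Int.ediv_self hposZ.ne']
  have hsucc : ∀ j : ℤ, ((j + 1) % (L.length : ℤ)).toNat = ((j % (L.length : ℤ)).toNat + 1) % L.length := by
    intro j
    have h1 : (j + 1) % (L.length : ℤ) = (j % (L.length : ℤ) + 1) % (L.length : ℤ) := by
      rw [Int.emod_add_emod]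
    have h2 := Int.emod_nonneg j hposZ.ne'
    rw [h1]
    have h3 : j % (L.length : ℤ) + 1 = (((j % (L.length : ℤ)).toNat + 1 : ℕ) : ℤ) := by omega
    rw [h3, ← Int.natCast_mod, Int.toNat_natCast]
  have hx : bprod L = (L.map (fun b => inc b.1 * t b.2)).prod := rfl
  rw [← hx]
  refine ⟨{
    n := L.length
    pos := hpos
    f := fun j => (L[(j % (L.length : ℤ)).toNat]'(hlt j)).1
    p := fun j => (L[(j % (L.length : ℤ)).toNat]'(hlt j)).2
    g := fun j => bprod L ^ (j / (L.length : ℤ)) * bprod (L.take (j % (L.length : ℤ)).toNat)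
    g0 := by simp [bprod]
    step := ?_
    per := ?_
    perf := ?_
    perp := ?_
    red := ?_ }, rfl, ?_⟩
  · intro j
    have hj := hlt j
    have h2 := Int.emod_nonneg j hposZ.ne'
    have h4 := Int.mul_ediv_add_emod j (L.length : ℤ)
    rw [mul_assoc, mul_assoc, ← mul_assoc (bprod (L.take _)), ← bprod_take_succ L _ hj]
    have h3 := hsucc j
    by_cases hc : (j % (L.length : ℤ)).toNat + 1 < L.length
    · rw [Nat.mod_eq_of_lt hc] at h3
      have h5 : (j + 1) / (L.length : ℤ) = j / (L.length : ℤ) := by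
        have h6 : j % (L.length : ℤ) + 1 < (L.length : ℤ) := by omega
        rw [Int.ediv_eq_iff_of_pos hposZ]
        rw [mul_comm] at h4
        constructor <;> linarith
      rw [h3, h5]
    · have hc' : (j % (L.length : ℤ)).toNat + 1 = L.length := by omega
      have h5 : (j + 1) / (L.length : ℤ) = j / (L.length : ℤ) + 1 := by
        have h6 : j % (L.length : ℤ) + 1 = (L.length : ℤ) := by omega
        rw [Int.ediv_eq_iff_of_pos hposZ, add_mul, one_mul]
        rw [mul_comm] at h4
        constructor <;> linarith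
      rw [hc', Nat.mod_self] at h3
      rw [h3, h5, hc', List.take_length, List.take_zero, zpow_add_one]
      simp [bprod]
  · intro j
    have h1 := hadd j
    have h2 := hdiv j
    simp only [h1, h2]
    rw [zpow_add_one, ← mul_assoc]
    congr 1
    exact ((Commute.refl (bprod L)).zpow_left _).eq
  · intro j
    have h1 := hadd j
    simp only [h1]
  · intro j
    have h1 := hadd j
    simp only [h1]
  · intro j
    have h1 := hr (j % (L.length : ℤ)).toNat (hlt j)
    have h3 := hsucc j
    simp only [h3]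
    exact h1
  · intro i hi
    have h1 : ((i : ℤ) % (L.length : ℤ)).toNat = i := by
      rw [Int.emod_eq_of_lt (by omega) (by exact_mod_cast hi)]
      simp
    simp only [h1]
    exact ⟨trivial, trivial⟩

/-! ### Blocks -/

namespace PZ

/-- an `s`-word followed by a signed letter `n` -/
structure Blk where
  /-- the `s`-word -/
  u : List (Fin 3 × Bool)
  /-- the crossing -/
  p : Fin 4
  /-- the place of the crossing -/
  k : ℤ
  hk0 : 0 ≤ k
  hk1 : k ≤ 1

/-- word of an `s`-word -/
def sw (u : List (Fin 3 × Bool)) : Wd := u.map (fun x => (Lt.s x.1, x.2))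

/-- word of a list of blocks -/
def flat (B : List Blk) : Wd := B.flatMap (fun b => sw b.u ++ [rung b.p b.k])

theorem flat_nil : flat [] = [] := rfl

theorem flat_cons (b : Blk) (B : List Blk) : flat (b :: B) = sw b.u ++ ([rung b.p b.k] ++ flat B) := by
  simp [flat]

theorem flat_append (A B : List Blk) : flat (A ++ B) = flat A ++ flat B := by
  simp [flat]

theorem ev_sw (u : List (Fin 3 × Bool)) : ev (sw u) = inc (FreeGroup.mk u) := by
  unfold ev sw inc
  rw [FreeGroup.lift_mk, List.map_map]
  congr 1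
  apply List.map_congr_left
  rintro ⟨j, b⟩ _
  cases b <;> rfl

theorem hc_sw (a : Fin 2) (u : List (Fin 3 × Bool)) : hc a (sw u) = 0 := by
  unfold hc sw
  rw [List.countP_map, List.countP_eq_zero]
  rintro ⟨j, b⟩ _
  simp [Lt.hty]

theorem nc_sw (u : List (Fin 3 × Bool)) : nc (sw u) = 0 := by
  unfold nc
  rw [hc_sw, hc_sw]

theorem sc_sw (u : List (Fin 3 × Bool)) : sc (sw u) = u.length := by
  have h := length_eq (sw u)
  rw [nc_sw, zero_add] at h
  rw [← h]
  simp [sw]

theorem nc_append (w w' : Wd) : nc (w ++ w') = nc w + nc w' := by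
  unfold nc
  rw [hc_append, hc_append]
  omega

theorem sc_append (w w' : Wd) : sc (w ++ w') = sc w + sc w' := by
  unfold sc
  rw [vc_append, vc_append]
  omega

theorem rung_hty (p : Fin 4) (k : ℤ) : (rung p k).1.hty = some (kind p) := by
  rcases Int.emod_two_eq_zero_or_one k with hk | hk
  · fin_cases p <;> simp [rung, Lt.hty, kind, hk]
  · fin_cases p <;> simp [rung, Lt.hty, kind, hk]

theorem hc_rung (a : Fin 2) (p : Fin 4) (k : ℤ) : hc a [rung p k] = if kind p = a then 1 else 0 := by
  unfold hc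
  rw [List.countP_cons, List.countP_nil, zero_add, rung_hty]
  by_cases h : kind p = a
  · rw [if_pos h, h]
    simp
  · rw [if_neg h]
    simp [h]

theorem nc_rung (p : Fin 4) (k : ℤ) : nc [rung p k] = 1 := by
  unfold nc
  rw [hc_rung, hc_rung]
  generalize kind p = a
  fin_cases a <;> rfl

theorem sc_rung (p : Fin 4) (k : ℤ) : sc [rung p k] = 0 := by
  have h := length_eq [rung p k]
  rw [nc_rung] at h
  have h2 : [rung p k].length = 1 := rfl
  omega

/-- every signed vertical letter is a rung -/
theorem exists_rung (j : Fin 3) (b : Bool) : ∃ (p : Fin 4) (k : ℤ), 0 ≤ k ∧ k ≤ 1 ∧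
    rung p k = (Lt.n j, b) := by
  cases b with
  | true =>
    fin_cases j
    · exact ⟨0, 0, le_rfl, by norm_num, by simp [rung]⟩
    · exact ⟨2, 0, le_rfl, by norm_num, by simp [rung]⟩
    · exact ⟨2, 1, by norm_num, le_rfl, by simp [rung]⟩
  | false =>
    fin_cases j
    · exact ⟨1, 0, le_rfl, by norm_num, by simp [rung]⟩
    · exact ⟨3, 0, le_rfl, by norm_num, by simp [rung]⟩
    · exact ⟨3, 1, by norm_num, le_rfl, by simp [rung]⟩

theorem exists_flat (w : Wd) : ∃ (B : List Blk) (v : List (Fin 3 × Bool)), w = flat B ++ sw v := by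
  induction w with
  | nil => exact ⟨[], [], rfl⟩
  | cons x w ih =>
    obtain ⟨B, v, rfl⟩ := ih
    obtain ⟨l, b⟩ := x
    cases l with
    | s j =>
      cases B with
      | nil => exact ⟨[], (j, b) :: v, by simp [flat, sw]⟩
      | cons b0 B =>
        refine ⟨⟨(j, b) :: b0.u, b0.p, b0.k, b0.hk0, b0.hk1⟩ :: B, v, ?_⟩
        rw [flat_cons, flat_cons]
        simp [sw]
    | n j =>
      obtain ⟨p, k, h0, h1, h2⟩ := exists_rung j b
      refine ⟨⟨[], p, k, h0, h1⟩ :: B, v, ?_⟩
      rw [flat_cons, ← h2]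
      simp [sw]

/-- conjugate words with the same numbers of letters -/
def Sim (w w' : Wd) : Prop :=
  (∃ g : Pi, ev w' = g⁻¹ * ev w * g) ∧ (∀ a, hc a w' = hc a w) ∧ sc w' = sc w

theorem Sim.trans {w w' w'' : Wd} (h : Sim w w') (h' : Sim w' w'') : Sim w w'' := by
  obtain ⟨⟨g, hg⟩, h1, h2⟩ := h
  obtain ⟨⟨g', hg'⟩, h1', h2'⟩ := h'
  refine ⟨⟨g * g', ?_⟩, fun a => (h1' a).trans (h1 a), h2'.trans h2⟩
  rw [hg', hg]
  group

theorem Sim.nc {w w' : Wd} (h : Sim w w') : nc w' = nc w := by
  unfold VSB.nc
  rw [h.2.1, h.2.1]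

theorem sim_rot (x y : Wd) : Sim (x ++ y) (y ++ x) := by
  refine ⟨⟨ev x, ?_⟩, fun a => ?_, ?_⟩
  · rw [ev_append, ev_append]
    group
  · rw [hc_append, hc_append, add_comm]
  · rw [sc_append, sc_append, add_comm]

theorem exists_blocks (w : Wd) (hn : 1 ≤ nc w) : ∃ B : List Blk, B ≠ [] ∧ Sim w (flat B) := by
  obtain ⟨B, v, rfl⟩ := exists_flat w
  cases B with
  | nil =>
    rw [flat_nil, List.nil_append, nc_sw] at hn
    omega
  | cons b B =>
    refine ⟨⟨v ++ b.u, b.p, b.k, b.hk0, b.hk1⟩ :: B, by simp, ?_⟩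
    have h := sim_rot (flat (b :: B)) (sw v)
    have h2 : sw v ++ flat (b :: B) = flat (⟨v ++ b.u, b.p, b.k, b.hk0, b.hk1⟩ :: B) := by
      rw [flat_cons, flat_cons]
      simp [sw]
    rwa [h2] at h

/-- the blocks of `F`, with the element `x` carried over from the left -/
def toL (x : F) : List Blk → List (F × Fin 4)
  | [] => []
  | b :: B => (x * FreeGroup.mk b.u * (pt b.p b.k)⁻¹, b.p) :: toL (pt (bar b.p) b.k) B

/-- the element carried over to the right -/
def lst (x : F) : List Blk → F
  | [] => x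
  | b :: B => lst (pt (bar b.p) b.k) B

theorem bprod_toL (x : F) (B : List Blk) :
    bprod (toL x B) * inc (lst x B) = inc x * ev (flat B) := by
  induction B generalizing x with
  | nil => simp [toL, lst, bprod, flat, ev_nil]
  | cons b B ih =>
    have h := ih (pt (bar b.p) b.k)
    have h1 : bprod (toL x (b :: B)) =
        inc (x * FreeGroup.mk b.u * (pt b.p b.k)⁻¹) * t b.p * bprod (toL (pt (bar b.p) b.k) B) := by
      simp [bprod, toL]
    have h2 : lst x (b :: B) = lst (pt (bar b.p) b.k) B := rfl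
    rw [h1, h2, mul_assoc, h, flat_cons, ev_append, ev_append, ev_sw, ev_cons, ev_nil, stp_rung]
    simp only [map_mul, map_inv]
    group

theorem length_toL (x : F) (B : List Blk) : (toL x B).length = B.length := by
  induction B generalizing x with
  | nil => rfl
  | cons b B ih => simp [toL, ih]

theorem lst_append (x : F) (A : List Blk) (b : Blk) : lst x (A ++ [b]) = pt (bar b.p) b.k := by
  induction A generalizing x with
  | nil => rfl
  | cons a A ih => exact ih _

theorem lst_congr (x y : F) {B : List Blk} (h : B ≠ []) : lst x B = lst y B := by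
  cases B with
  | nil => exact absurd rfl h
  | cons b B => rfl

theorem toL_append (x : F) (A B : List Blk) : toL x (A ++ B) = toL x A ++ toL (lst x A) B := by
  induction A generalizing x with
  | nil => rfl
  | cons a A ih => simp [toL, lst, ih]

theorem norm_pt_le (q : Fin 4) {k : ℤ} (h0 : 0 ≤ k) (h1 : k ≤ 1) : (pt q k).norm ≤ 1 := by
  have h := norm_pt q 0 k
  rw [pt_zero, inv_one, one_mul] at h
  rw [h]
  omega

theorem norm_lst_le (x : F) {B : List Blk} (h : B ≠ []) : (lst x B).norm ≤ 1 := by
  obtain ⟨A, b, rfl⟩ : ∃ A b, B = A ++ [b] := ⟨_, _, (List.dropLast_append_getLast h).symm⟩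
  rw [lst_append]
  exact norm_pt_le _ b.hk0 b.hk1

theorem sum_toL_kind (a : Fin 2) (x : F) (B : List Blk) :
    ((toL x B).map (fun b => if kind b.2 = a then 1 else 0)).sum = hc a (flat B) := by
  induction B generalizing x with
  | nil => rfl
  | cons b B ih =>
    rw [flat_cons, hc_append, hc_append, hc_sw, hc_rung, toL, List.map_cons, List.sum_cons, ih, zero_add]

theorem sum_toL_norm (x : F) (B : List Blk) (h : B ≠ []) :
    ((toL x B).map (fun b => b.1.norm)).sum + 1 ≤ x.norm + sc (flat B) + 2 * nc (flat B) := by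
  induction B generalizing x with
  | nil => exact absurd rfl h
  | cons b B ih =>
    have h1 : (x * FreeGroup.mk b.u * (pt b.p b.k)⁻¹).norm ≤ x.norm + b.u.length + 1 := by
      have h2 := FreeGroup.norm_mul_le (x * FreeGroup.mk b.u) (pt b.p b.k)⁻¹
      have h3 := FreeGroup.norm_mul_le x (FreeGroup.mk b.u)
      have h4 := FreeGroup.norm_mk_le (L₁ := b.u)
      have h5 := norm_pt_le b.p b.hk0 b.hk1
      rw [FreeGroup.norm_inv_eq] at h2
      omega
    have h6 : sc (flat (b :: B)) = b.u.length + sc (flat B) := by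
      rw [flat_cons, sc_append, sc_append, sc_sw, sc_rung, zero_add]
    have h7 : nc (flat (b :: B)) = 1 + nc (flat B) := by
      rw [flat_cons, nc_append, nc_append, nc_sw, nc_rung, zero_add]
    rw [toL, List.map_cons, List.sum_cons]
    show (x * FreeGroup.mk b.u * (pt b.p b.k)⁻¹).norm + _ + 1 ≤ _
    by_cases hB : B = []
    · subst hB
      have h8 : ((toL (pt (bar b.p) b.k) []).map (fun b : F × Fin 4 => b.1.norm)).sum = 0 := rfl
      rw [h8]
      omega
    · have h9 := ih (pt (bar b.p) b.k) hB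
      have h10 := norm_pt_le (bar b.p) b.hk0 b.hk1
      omega

theorem sum_range_list {α : Type} (L : List α) (φ : α → ℕ) (ψ : ℕ → ℕ)
    (h : ∀ i (hi : i < L.length), ψ i = φ L[i]) :
    ∑ j ∈ Finset.range L.length, ψ j = (L.map φ).sum := by
  rw [Finset.sum_range, ← Fin.sum_univ_fun_getElem]
  exact Finset.sum_congr rfl fun i _ => h i i.2

theorem wid_bar (p : Fin 4) : wid (bar p) = wid p := by fin_cases p <;> rfl

theorem rung_shift (p : Fin 4) (k m : ℤ) : rung p (k + m * wid p) = rung p k := by
  fin_cases p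
  · simp [rung]
  · simp [rung]
  · simp [rung, wid]
  · simp [rung, wid]

theorem rung_bar (p : Fin 4) (k : ℤ) : stp (rung (bar p) k) = (stp (rung p k))⁻¹ := by
  rw [stp_rung, stp_rung, bar_bar, t_bar]
  group

/-- the reduction step -/
theorem reduce_pair {b b' : Blk} (C : List Blk) (h1 : b'.p = bar b.p)
    (h2 : pt (bar b.p) b.k * FreeGroup.mk b'.u * (pt b'.p b'.k)⁻¹ ∈ Subgroup.zpowers (c b'.p)) :
    ∃ w' : Wd, ev w' = ev (flat (b :: b' :: C)) ∧ nc w' < nc (flat (b :: b' :: C)) ∧
      sc w' ≤ sc (flat (b :: b' :: C)) := by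
  obtain ⟨m, hm⟩ := Subgroup.mem_zpowers_iff.1 h2
  rw [h1] at hm
  obtain ⟨K, hK⟩ : ∃ K : ℤ, K = b'.k + m * wid (bar b.p) := ⟨_, rfl⟩
  have h3 : FreeGroup.mk b'.u = (pt (bar b.p) b.k)⁻¹ * pt (bar b.p) K := by
    rw [hK, ← pt_shift, hm]
    group
  have h4 : stp (rung b'.p b'.k) = (stp (rung b.p K))⁻¹ := by
    rw [h1, ← rung_shift (bar b.p) b'.k m, ← hK, rung_bar]
  obtain ⟨v, hv⟩ : ∃ v : F, v = (pt b.p b.k)⁻¹ * pt b.p K := ⟨_, rfl⟩
  have h5 : v.norm ≤ b'.u.length := by
    have h6 := norm_pt b.p b.k K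
    have h7 := norm_pt (bar b.p) b.k K
    rw [← h3] at h7
    rw [← hv] at h6
    have h8 := FreeGroup.norm_mk_le (L₁ := b'.u)
    omega
  refine ⟨sw b.u ++ (sw v.toWord ++ flat C), ?_, ?_, ?_⟩
  · rw [flat_cons, flat_cons]
    simp only [ev_append, ev_sw, ev_cons, ev_nil, mul_one, FreeGroup.mk_toWord]
    have h9 := rung_swap b.p b.k K
    rw [hv, ← h9, ← h3, h4]
    group
  · rw [flat_cons, flat_cons]
    simp only [nc_append, nc_sw, nc_rung]
    omega
  · rw [flat_cons, flat_cons]
    simp only [sc_append, sc_sw, sc_rung]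
    have h10 : v.toWord.length = v.norm := rfl
    omega

theorem exists_split {α : Type} (B : List α) (i : ℕ) (hi : i + 1 < B.length) :
    ∃ (A : List α) (b b' : α) (C : List α), B = A ++ b :: b' :: C ∧ A.length = i := by
  induction B generalizing i with
  | nil => simp at hi
  | cons x B ih =>
    cases i with
    | zero =>
      cases B with
      | nil => simp at hi
      | cons y B => exact ⟨[], x, y, B, rfl, rfl⟩
    | succ i =>
      obtain ⟨A, b, b', C, h1, h2⟩ := ih i (by simpa using hi)
      exact ⟨x :: A, b, b', C, by rw [h1]; rfl, by rw [List.length_cons, h2]⟩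

theorem bar_ne (p : Fin 4) : p ≠ bar p := by fin_cases p <;> decide

theorem exists_pair {B : List Blk} (hB : B ≠ []) (x : F) (hr : ¬ CycRed (toL (lst x B) B)) :
    ∃ (b b' : Blk) (C : List Blk), Sim (flat B) (flat (b :: b' :: C)) ∧ b'.p = bar b.p ∧
      pt (bar b.p) b.k * FreeGroup.mk b'.u * (pt b'.p b'.k)⁻¹ ∈ Subgroup.zpowers (c b'.p) := by
  unfold CycRed at hr
  push Not at hr
  obtain ⟨i, hi, h1, h2⟩ := hr
  have hlen := length_toL (lst x B) B
  by_cases hc : i + 1 < B.length
  · obtain ⟨A, b, b', C, hA, hAl⟩ := exists_split B i hc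
    have e1 : (i + 1) % (toL (lst x B) B).length = i + 1 := Nat.mod_eq_of_lt (by omega)
    simp only [e1] at h1 h2
    have e2 : toL (lst x B) B = toL (lst x B) A ++
        ((lst (lst x B) A * FreeGroup.mk b.u * (pt b.p b.k)⁻¹, b.p) ::
          (pt (bar b.p) b.k * FreeGroup.mk b'.u * (pt b'.p b'.k)⁻¹, b'.p) ::
            toL (pt (bar b'.p) b'.k) C) := by
      conv_lhs => rw [hA]
      rw [toL_append]
      rw [hA]
      rfl
    have hl : (toL (lst x B) A).length = i := by rw [length_toL, hAl]
    have e3 : ∀ (h : i < (toL (lst x B) B).length), (toL (lst x B) B)[i] =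
        (lst (lst x B) A * FreeGroup.mk b.u * (pt b.p b.k)⁻¹, b.p) := by
      intro h
      apply Option.some_injective
      rw [← List.getElem?_eq_getElem h, e2, List.getElem?_append_right (by omega), hl]
      simp
    have e4 : ∀ (h : i + 1 < (toL (lst x B) B).length), (toL (lst x B) B)[i + 1] =
        (pt (bar b.p) b.k * FreeGroup.mk b'.u * (pt b'.p b'.k)⁻¹, b'.p) := by
      intro h
      apply Option.some_injective
      rw [← List.getElem?_eq_getElem h, e2, List.getElem?_append_right (by omega), hl]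
      simp
    rw [e3, e4] at h1
    rw [e4] at h2
    refine ⟨b, b', C ++ A, ?_, h1, h2⟩
    have h3 := sim_rot (flat A) (flat (b :: b' :: C))
    rw [← flat_append, ← flat_append, ← hA] at h3
    simpa using h3
  · have hi' : i + 1 = B.length := by omega
    have e1 : (i + 1) % (toL (lst x B) B).length = 0 := by rw [hlen, ← hi', Nat.mod_self]
    simp only [e1] at h1 h2
    obtain ⟨A, b, hA⟩ : ∃ A b, B = A ++ [b] := ⟨_, _, (List.dropLast_append_getLast hB).symm⟩
    have hlst : ∀ y : F, lst y B = pt (bar b.p) b.k := fun y => by rw [hA, lst_append]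
    have hAl : A.length = i := by
      rw [hA, List.length_append, List.length_singleton] at hi'
      omega
    have e3 : ∀ (h : i < (toL (lst x B) B).length), ((toL (lst x B) B)[i]).2 = b.p := by
      intro h
      have e2 : toL (lst x B) B = toL (lst x B) A ++
          [(lst (lst x B) A * FreeGroup.mk b.u * (pt b.p b.k)⁻¹, b.p)] := by
        conv_lhs => rw [hA]
        rw [toL_append]
        rw [hA]
        rfl
      have e4 : (toL (lst x B) B)[i] = (lst (lst x B) A * FreeGroup.mk b.u * (pt b.p b.k)⁻¹, b.p) := by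
        apply Option.some_injective
        have hl : (toL (lst x B) A).length = i := by rw [length_toL, hAl]
        rw [← List.getElem?_eq_getElem h, e2, List.getElem?_append_right (by omega), hl]
        simp
      rw [e4]
    cases A with
    | nil =>
      exfalso
      have hi0 : i = 0 := by simpa using hAl.symm
      subst hi0
      exact bar_ne _ h1
    | cons b' A =>
      have e5 : ∀ (h : 0 < (toL (lst x B) B).length), (toL (lst x B) B)[0] =
          (pt (bar b.p) b.k * FreeGroup.mk b'.u * (pt b'.p b'.k)⁻¹, b'.p) := by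
        intro h
        apply Option.some_injective
        rw [← List.getElem?_eq_getElem h, hlst x]
        conv_lhs => rw [hA]
        rfl
      rw [e3, e5] at h1
      rw [e5] at h2
      refine ⟨b, b', A, ?_, h1, h2⟩
      have h3 := sim_rot (flat (b' :: A)) (flat [b])
      rw [← flat_append, ← flat_append, ← hA] at h3
      simpa using h3

end PZ

theorem parse (w : Wd) (hn : 1 ≤ nc w) :
    (∃ (w' : Wd) (g : Pi), ev w' = g⁻¹ * ev w * g ∧ nc w' < nc w ∧ sc w' ≤ sc w) ∨
    ∃ (g : Pi) (H : HAx (g⁻¹ * ev w * g)), (∀ a, H.cnt a = hc a w) ∧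
      ∑ j ∈ Finset.range H.n, (H.f j).norm ≤ sc w + 2 * nc w := by
  obtain ⟨B, hB, hs⟩ := exists_blocks w hn
  by_cases hr : CycRed (toL (lst 1 B) B)
  · right
    obtain ⟨⟨g, hg⟩, h1, h2⟩ := hs
    have hex := exists_ofList (toL (lst 1 B) B)
      (by
        intro h
        have h3 := length_toL (lst 1 B) B
        rw [h] at h3
        exact hB (List.length_eq_zero_iff.1 h3.symm)) hr
    have hx : ((toL (lst 1 B) B).map (fun b => inc b.1 * t b.2)).prod =
        (g * (inc (lst 1 B))⁻¹)⁻¹ * ev w * (g * (inc (lst 1 B))⁻¹) := by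
      have h3 := bprod_toL (lst 1 B) B
      rw [lst_congr (lst 1 B) 1 hB, hg] at h3
      have h4 : bprod (toL (lst 1 B) B) = inc (lst 1 B) * (g⁻¹ * ev w * g) * (inc (lst 1 B))⁻¹ := by
        rw [← h3]
        group
      have h5 : ((toL (lst 1 B) B).map (fun b => inc b.1 * t b.2)).prod =
        bprod (toL (lst 1 B) B) := rfl
      rw [h5, h4]
      group
    rw [hx] at hex
    obtain ⟨H, hHn, hH⟩ := hex
    refine ⟨_, H, fun a => ?_, ?_⟩
    · unfold HAx.cnt
      rw [hHn, Finset.card_filter, sum_range_list (toL (lst 1 B) B) (fun b => if kind b.2 = a then 1 else 0)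
        _ (fun i hi => by rw [(hH i hi).2]), sum_toL_kind, h1]
    · rw [hHn, sum_range_list (toL (lst 1 B) B) (fun b => b.1.norm)
        _ (fun i hi => by rw [(hH i hi).1])]
      have h6 := sum_toL_norm (lst 1 B) B hB
      have h7 := norm_lst_le 1 hB
      have h8 : nc (flat B) = nc w := by
        unfold nc
        rw [h1, h1]
      omega
  · left
    obtain ⟨b, b', C, h1, h2, h3⟩ := exists_pair hB 1 hr
    obtain ⟨w', h4, h5, h6⟩ := reduce_pair C h2 h3
    have h7 := hs.trans h1
    obtain ⟨g, hg⟩ := h7.1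
    refine ⟨w', g, by rw [h4, hg], ?_, ?_⟩
    · rw [← h7.nc]
      exact h5
    · rw [← h7.2.2]
      exact h6

end Pool.Agent.VSB
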