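import Pool.Agent.VSB.GoodSig
import Pool.Agent.VSB.Ineq

/-! # VSB/PosSw: products of the `sg k` with a nonzero index satisfy `PosAut`

`good_sgw`: induction on the list (`sgw (k :: ks) = sg k * sgw ks`, `(sg k * u) z = sg k (u z)`).
`posAut_sgw`: `sgw ks (S j)` satisfies `PosN`: induction; `sg k` maps `Pos` to `Pos` and `PosN` to `PosN` (`sg_pos`,
`sg_N_posN`). If `u (S j) = y * N i * y'` with `y, y' ∈ Pos`, then `K = wallN (u z * y) i` satisfies `u z ∉ K` (`Mono`),
`u z * y * N i ∈ K`, `u z * u (S j) ∈ K` (`Mono`; `good_smul_Wl`). -/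

set_option autoImplicit false

open scoped Pointwise

namespace Pool.Agent.VSB

/-- products of the positive automorphisms -/
def sgw (ks : List (Fin 4)) : MulAut Pi := (ks.map sg).prod

theorem Good.mul_pos {K : Set Pi} (hK : Good K) {g y : Pi} (hg : g ∈ K) (hy : y ∈ Pos) :
    g * y ∈ K := by
  have key : ∀ y ∈ Pos, ∀ g ∈ K, g * y ∈ K := by
    intro y hy
    refine Submonoid.closure_induction (motive := fun y _ => ∀ g ∈ K, g * y ∈ K) ?_ ?_ ?_ hy
    · rintro _ ⟨a, rfl⟩ g hg
      exact hK.mono g hg a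
    · intro g hg
      rwa [mul_one]
    · intro x y _ _ hx hy g hg
      rw [← mul_assoc]
      exact hy _ (hx g hg)
  exact key y hy g hg

theorem sgw_nil : sgw [] = 1 := rfl

theorem sgw_cons (k : Fin 4) (ks : List (Fin 4)) : sgw (k :: ks) = sg k * sgw ks := by
  unfold sgw
  rw [List.map_cons, List.prod_cons]

theorem good_sgw (ks : List (Fin 4)) {K : Set Pi} (hK : Good K) : Good {z | sgw ks z ∈ K} := by
  induction ks generalizing K with
  | nil => exact hK
  | cons k ks ih =>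
    have h := ih (good_sg k hK)
    rw [sgw_cons]
    exact h

theorem pos_map (k : Fin 4) {y : Pi} (hy : y ∈ Pos) : sg k y ∈ Pos := by
  refine Submonoid.closure_induction (motive := fun y _ => sg k y ∈ Pos) ?_ ?_ ?_ hy
  · rintro _ ⟨a, rfl⟩
    exact sg_pos k a
  · show sg k 1 ∈ Pos
    rw [map_one]
    exact Pos.one_mem
  · intro x y _ _ hx hy
    show sg k (x * y) ∈ Pos
    rw [map_mul]
    exact Pos.mul_mem hx hy

theorem posN_map (k : Fin 4) {x : Pi} (hx : PosN x) : PosN (sg k x) := by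
  obtain ⟨y, hy, j, y', hy', rfl⟩ := hx
  obtain ⟨z, hz, i, z', hz', h⟩ := sg_N_posN k j
  refine ⟨sg k y * z, Pos.mul_mem (pos_map k hy) hz, i, z' * sg k y',
    Pos.mul_mem hz' (pos_map k hy'), ?_⟩
  rw [map_mul, map_mul, h]
  group

theorem sgw_zero (ks : List (Fin 4)) (h : ∀ k ∈ ks, k = 0) (j : Fin 3) : sgw ks (S j) = S j := by
  induction ks with
  | nil => rfl
  | cons k ks ih =>
    rw [sgw_cons, MulAut.mul_apply, ih (fun k hk => h k (List.mem_cons_of_mem _ hk)),
      h k List.mem_cons_self, sg_zero_S]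

theorem sgw_posN (ks : List (Fin 4)) (h : ∃ k ∈ ks, k ≠ 0) (j : Fin 3) : PosN (sgw ks (S j)) := by
  induction ks with
  | nil =>
    obtain ⟨k, hk, _⟩ := h
    exact absurd hk List.not_mem_nil
  | cons k ks ih =>
    rw [sgw_cons, MulAut.mul_apply]
    by_cases h' : ∃ k ∈ ks, k ≠ 0
    · exact posN_map k (ih h')
    · have h0 : ∀ k ∈ ks, k = 0 := by
        intro k hk
        by_contra hne
        exact h' ⟨k, hk, hne⟩
      rw [sgw_zero ks h0]
      refine sg_S_posN k ?_ j
      rintro rfl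
      obtain ⟨k', hk', hne⟩ := h
      rcases List.mem_cons.1 hk' with rfl | hk'
      · exact hne rfl
      · exact hne (h0 k' hk')

theorem posAut_sgw (ks : List (Fin 4)) (h : ∃ k ∈ ks, k ≠ 0) : PosAut (sgw ks) := by
  refine ⟨fun a k => good_sgw ks (good_smul_Wl a k), ?_⟩
  intro z j
  obtain ⟨y, hy, i, y', hy', hu⟩ := sgw_posN ks h j
  have hW : ∃ (a : Fin 2) (k : Pi), wallN (sgw ks z * y) i = k • Wl a := ⟨_, _, rfl⟩
  obtain ⟨a, k, hk⟩ := hW
  refine ⟨a, k, ?_, ?_⟩
  · intro hz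
    have h1 := (good_smul_Wl a k).mul_pos hz hy
    rw [← hk] at h1
    exact notMem_wallN _ _ h1
  · rw [map_mul, hu]
    have h1 := mem_wallN (sgw ks z * y) i
    rw [hk] at h1
    have h2 := (good_smul_Wl a k).mul_pos h1 hy'
    have h3 : sgw ks z * (y * N i * y') = sgw ks z * y * N i * y' := by group
    rw [h3]
    exact h2

end Pool.Agent.VSB
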