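import Pool.Agent.VSB.Ineq
import Pool.Agent.VSB.Parse
import Pool.Agent.VSB.Core
import Pool.Agent.VSB.PosSw
import Pool.Agent.VSB.HkNF
import Pool.Agent.VSB.FD

/-! # VSB/IneqH: the inequality for all affine automorphisms outside `⟨ι, T⟩`

Let `h : Hk`, `¬ InT h`. By `dcoset`, `h = zz ^ ε * tt ^ a * sw ks * tt ^ b` with `∃ k ∈ ks, k ≠ 0`, so
`alpha h x = (aI ^ ε) ((aT ^ a) (sgw ks ((aT ^ b) x)))` (`alpha_zz`, `alpha_tt`, `alpha_sw`, `map_zpow`).
`ell` is invariant under `aI` and `aT ^ a` (`inum_aI`, `inum_aT_zpow`; `aI ^ ε` by induction on `ε`), hence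
`ell (alpha h x) = ell (sgw ks ((aT ^ b) x))`.

* `ineqH`: `aT ^ b = (twD b).aut` (`aT_zpow`). From `H : HAx x` get by `(twD b).hax H` an element `g` and
`H' : HAx (g⁻¹ * (twD b).aut x * g)` with `H'.n = H.n`, `H'.p j = H.p j` (`(twD b).π = id`) and
`H'.f j = (twk b (bar (H.p (j - 1))))⁻¹ * H.f j * twk b (H.p j)`. Each `twk b p` is `c p ^ b` or `1 = c p ^ 0`, so
`Dst_smul` turns the hypothesis `hd` into the same statement for `H'`; apply
`ineq (posAut_sgw ks _) H' m` and note `ell (sgw ks (g⁻¹ * y * g)) = ell (sgw ks y)` by `ell_conj`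
(`map_mul`, `map_inv`).
* `ineqH_one`: `x = g * inc f * g⁻¹` by `exists_inc_of_ell_eq_zero` (file Parse), `f ≠ 1`;
`(aT ^ b) (inc f) = inc f` (`(twD b).aut_inc`, `(twD b).θ = 1`), and `ineq_inc`. -/

set_option autoImplicit false

namespace Pool.Agent.VSB

theorem ell_aI (x : Pi) : ell (aI x) = ell x := by
  rw [ell, ell, inum_aI, inum_aI]

theorem ell_aT_zpow (m : ℤ) (x : Pi) : ell ((aT ^ m) x) = ell x := by
  rw [ell, ell, inum_aT_zpow, inum_aT_zpow]

/-- reduction to the positive part -/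
theorem ell_alpha {h : Hk} {a b : ℤ} {ε : ℕ} {ks : List (Fin 4)}
    (hh : h = zz ^ ε * tt ^ a * sw ks * tt ^ b) (x : Pi) :
    ell (alpha h x) = ell (sgw ks ((aT ^ b) x)) := by
  have h1 : ∀ (n : ℕ) (y : Pi), ell ((aI ^ n) y) = ell y := by
    intro n y
    induction n with
    | zero => rfl
    | succ n ih =>
      rw [pow_succ']
      show ell (aI ((aI ^ n) y)) = _
      rw [ell_aI, ih]
  have h2 : alpha h = aI ^ ε * aT ^ a * sgw ks * aT ^ b := by
    rw [hh, map_mul, map_mul, map_mul, map_pow, map_zpow, map_zpow, alpha_zz, alpha_tt, alpha_sw]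
  rw [h2]
  show ell ((aI ^ ε) ((aT ^ a) (sgw ks ((aT ^ b) x)))) = _
  rw [h1, ell_aT_zpow]

theorem twk_zpow (b : ℤ) (p : Fin 4) : ∃ e : ℤ, twk b p = c p ^ e := by
  unfold twk
  split_ifs
  · exact ⟨b, rfl⟩
  · exact ⟨0, by simp⟩

theorem ineqH {h : Hk} (hh : ¬ InT h) {x : Pi} (H : HAx x) (m : ℤ → ℕ)
    (hd : ∀ j, Dst (bar (H.p (j - 1))) (H.f j) (H.p j) (m j)) :
    ∑ j ∈ Finset.range H.n, m j ≤ ell (alpha h x) := by
  rcases dcoset h with h0 | ⟨a, b, ε, ks, hks, h1⟩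
  · exact absurd h0 hh
  rw [ell_alpha h1, aT_zpow]
  obtain ⟨g, H', hn, hp, hf⟩ := (twD b).hax H
  have hd' : ∀ j, Dst (bar (H'.p (j - 1))) (H'.f j) (H'.p j) (m j) := by
    intro j
    obtain ⟨e1, he1⟩ := twk_zpow b (bar (H.p (j - 1)))
    obtain ⟨e2, he2⟩ := twk_zpow b (H.p j)
    rw [hp, hp, hf]
    show Dst (bar (H.p (j - 1)))
      ((twk b (bar (H.p (j - 1))))⁻¹ * H.f j * twk b (H.p j)) (H.p j) (m j)
    rw [he1, he2, ← zpow_neg, Dst_smul]
    exact hd j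
  have key := ineq (posAut_sgw ks hks) H' m hd'
  rw [hn, map_mul, map_mul, map_inv] at key
  have h2 := ell_conj (sgw ks g)⁻¹ (sgw ks ((twD b).aut x))
  rw [inv_inv] at h2
  rwa [h2] at key

theorem ineqH_one {h : Hk} (hh : ¬ InT h) {x : Pi} (hx : x ≠ 1) (h0 : ell x = 0) :
    1 ≤ ell (alpha h x) := by
  rcases dcoset h with h1 | ⟨a, b, ε, ks, hks, h1⟩
  · exact absurd h1 hh
  obtain ⟨g, f, rfl⟩ := exists_inc_of_ell_eq_zero h0
  have hf : f ≠ 1 := by
    rintro rfl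
    apply hx
    rw [map_one]
    group
  rw [ell_alpha h1, aT_zpow, map_mul, map_mul, map_inv, map_mul, map_mul, map_inv, ell_conj,
    FD.aut_inc]
  exact ineq_inc (posAut_sgw ks hks) hf

end Pool.Agent.VSB
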