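import Pool.Agent.VSB.PhiData
import Pool.Agent.VSB.Bridge

/-! # VSB/PhiCheck: `psi` moves all pairs of distinct boundary lines apart (finite check)

Main statement `phicheck`: for two distinct boundary lines `Line p`, `f • Line q` of the Cayley tree of `F`, the
distance plus the distance of their images under `psi` is at least `3`.

PROOF. Choose `x = pt p a ∈ Line p`, `y = pt q b ∈ Line q` with `(x⁻¹ * f * y).norm` minimal, `=: m`
(`Nat.find` or `exists_minimal` on the range); then `Dst p f q m`. If `3 ≤ m` take `m' = 0` (`Dst _ _ _ 0` is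
trivial). Otherwise put `g := x⁻¹ * f * y`, `|g| ≤ 2`, `L := g.toWord` (so `L ∈ smallW`, it is reduced
of length `≤ 2`). Write `a = i₀ + u * wid p`, `b = l₀ + v * wid q` with `i₀ ∈ offs p`, `l₀ ∈ offs q`
(`i₀ = a % wid p`; `wid` and `pt_shift` in file LineF): `f = c p ^ u * (pt p i₀ * g * (pt q l₀)⁻¹) * c q ^ (-v)`.
By minimality of `m`, `nonmin p i₀ q l₀ L = false` (if the first letter of `L` goes along `Line p` then replacing `x`
by the neighbouring vertex of the line (`pt_succ`) decreases the norm; the same for the last letter and `Line q`).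
Also not `same p i₀ q l₀ L` because otherwise `p = q`, `i₀ = l₀`, `g = 1` and
`f = c p ^ (u - v)` is excluded by hypothesis. The kernel check `check_all` now says
`3 ≤ L.length + (bword p i₀ q l₀ L).length`. By `strip_spec` (induction on the list, `pt_succ`):
if `strip p i W = (i', R)` then `pt p i * mk W = pt p i' * mk R`, `R` is a suffix of `W` and the head of
`R` is not along the line at `i'`. Applying this to
`W := FreeGroup.reduce (invRev (kw p) ++ sub (ptw p i₀ ++ L ++ invRev (ptw q l₀)) ++ kw q)`, whose value in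
`F` is `(k p)⁻¹ * theta (pt p i₀ * g * (pt q l₀)⁻¹) * k q`, and then to `invRev R`, gives
`(k p)⁻¹ * theta (…) * k q = pt (π p) i * mk B * (pt (π q) l)⁻¹` with `B = bword …` reduced, nonempty
(as `3 ≤ L.length + B.length`, `L.length ≤ 2`), first and last letter not along the lines: exactly the hypotheses of
`Dst_of_bridge` (file Bridge). (The last letter of `B` is the flipped first letter of `invRev B`: not along
`Line (π q)` at `l` for `invRev B` means the condition `h2` of `Dst_of_bridge`. If `B` is all of `R` nothing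
was stripped at the end, and the head condition of `R` is the head condition of `B` because `B` is a nonempty prefix of
`R`.) Finally for general `u, v`:
`(k p)⁻¹ * theta f * k q = c (π p) ^ u * ((k p)⁻¹ * theta (pt p i₀ * g * (pt q l₀)⁻¹) * k q) * c (π q) ^ (-v)` by `theta_c`,
and `Dst_smul`. -/

set_option autoImplicit false

namespace Pool.Agent.VSB

/-- substitution of the generators -/
def sub (L : List (Fin 3 × Bool)) : List (Fin 3 × Bool) :=
  L.flatMap (fun a => if a.2 then thw a.1 else FreeGroup.invRev (thw a.1))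

/-- representatives of the vertices of a line modulo its translation -/
def offs (p : Fin 4) : List ℤ := if p = 0 ∨ p = 1 then [0] else [0, 1]

/-- the word of `pt p i`, `i = 0, 1` -/
def ptw (p : Fin 4) (i : ℤ) : List (Fin 3 × Bool) := if i = 0 then [] else [(lt p 0, true)]

/-- reduced words of length at most two -/
def smallW : List (List (Fin 3 × Bool)) :=
  let A : List (Fin 3 × Bool) := [(0, true), (1, true), (2, true), (0, false), (1, false), (2, false)]
  [[]] ++ A.map (fun a => [a]) ++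
    (A.flatMap (fun a => (A.filter (fun b => ¬ (b = (a.1, !a.2)))).map (fun b => [a, b])))

/-- follow the line of type `p` from its vertex `i` as long as the word does -/
def strip (p : Fin 4) : ℤ → List (Fin 3 × Bool) → ℤ × List (Fin 3 × Bool)
  | i, [] => (i, [])
  | i, a :: L => if a = (lt p i, true) then strip p (i + 1) L
      else if a = (lt p (i - 1), false) then strip p (i - 1) L else (i, a :: L)

/-- the first letter goes along the line at the vertex `i` -/
def along (p : Fin 4) (i : ℤ) (L : List (Fin 3 × Bool)) : Bool :=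
  L.head? = some (lt p i, true) ∨ L.head? = some (lt p (i - 1), false)

/-- the image of the configuration, reduced -/
def img (p : Fin 4) (i₀ : ℤ) (q : Fin 4) (l₀ : ℤ) (L : List (Fin 3 × Bool)) : List (Fin 3 × Bool) :=
  FreeGroup.reduce (FreeGroup.invRev (kw p) ++ sub (ptw p i₀ ++ L ++ FreeGroup.invRev (ptw q l₀)) ++
    kw q)

/-- the bridge of the image configuration -/
def bword (p : Fin 4) (i₀ : ℤ) (q : Fin 4) (l₀ : ℤ) (L : List (Fin 3 × Bool)) :
    List (Fin 3 × Bool) :=
  FreeGroup.invRev (strip (![2, 3, 0, 1] q) 0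
    (FreeGroup.invRev (strip (![2, 3, 0, 1] p) 0 (img p i₀ q l₀ L)).2)).2

def chk (p : Fin 4) (i₀ : ℤ) (q : Fin 4) (l₀ : ℤ) (L : List (Fin 3 × Bool)) : Bool :=
  along p i₀ L || along q l₀ (FreeGroup.invRev L) || (p = q ∧ i₀ = l₀ ∧ L = []) ||
    (3 ≤ L.length + (bword p i₀ q l₀ L).length)

theorem check_all : ∀ p q : Fin 4, ∀ i₀ ∈ offs p, ∀ l₀ ∈ offs q, ∀ L ∈ smallW,
    chk p i₀ q l₀ L = true := by
  decide +kernel

theorem theta_mk (L : List (Fin 3 × Bool)) : theta (FreeGroup.mk L) = FreeGroup.mk (sub L) := by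
  induction L with
  | nil =>
    show theta (FreeGroup.mk []) = FreeGroup.mk []
    rw [← FreeGroup.one_eq_mk, map_one]
  | cons a L ih =>
    have h1 : (FreeGroup.mk (a :: L) : F) = FreeGroup.mk [a] * FreeGroup.mk L := by
      rw [FreeGroup.mul_mk]; rfl
    have h2 : sub (a :: L) = (if a.2 then thw a.1 else FreeGroup.invRev (thw a.1)) ++ sub L := by
      simp [sub, List.flatMap_cons]
    have h3 : theta (FreeGroup.mk [a]) =
        FreeGroup.mk (if a.2 then thw a.1 else FreeGroup.invRev (thw a.1)) := by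
      obtain ⟨j, b⟩ := a
      cases b with
      | true =>
        have h : (FreeGroup.mk [(j, true)] : F) = FreeGroup.of j := rfl
        rw [h, theta_apply, thHom, FreeGroup.lift_apply_of]
        rfl
      | false =>
        have h : (FreeGroup.mk [(j, false)] : F) = (FreeGroup.of j)⁻¹ := rfl
        rw [h, map_inv, theta_apply, thHom, FreeGroup.lift_apply_of, FreeGroup.inv_mk]
        rfl
    rw [h1, map_mul, ih, h2, ← FreeGroup.mul_mk, h3]

theorem pt_pred (p : Fin 4) (i : ℤ) :
    pt p (i - 1) = pt p i * FreeGroup.mk [(lt p (i - 1), false)] := by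
  have h2 := pt_succ p (i - 1)
  rw [sub_add_cancel] at h2
  have h3 : (FreeGroup.mk [(lt p (i - 1), false)] : F) = (FreeGroup.of (lt p (i - 1)))⁻¹ := rfl
  rw [h3, h2, mul_inv_cancel_right]

theorem pt_succ_mk (p : Fin 4) (i : ℤ) :
    pt p (i + 1) = pt p i * FreeGroup.mk [(lt p i, true)] := pt_succ p i

theorem mk_flip (a : Fin 3 × Bool) (L : List (Fin 3 × Bool)) :
    (FreeGroup.mk (a :: L) : F) = FreeGroup.mk [a] * FreeGroup.mk L := by
  rw [FreeGroup.mul_mk]; rfl

theorem strip_spec (p : Fin 4) (i : ℤ) (W : List (Fin 3 × Bool)) :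
    pt p i * FreeGroup.mk W = pt p (strip p i W).1 * FreeGroup.mk (strip p i W).2 ∧
      (strip p i W).2 <:+ W ∧ along p (strip p i W).1 (strip p i W).2 = false := by
  induction W generalizing i with
  | nil =>
    refine ⟨rfl, List.suffix_refl _, ?_⟩
    simp [strip, along]
  | cons a L ih =>
    rw [strip]
    split_ifs with h1 h2
    · obtain ⟨e1, e2, e3⟩ := ih (i + 1)
      refine ⟨?_, e2.trans (List.suffix_cons _ _), e3⟩
      rw [← e1, pt_succ_mk, mk_flip, h1, mul_assoc]
    · obtain ⟨e1, e2, e3⟩ := ih (i - 1)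
      refine ⟨?_, e2.trans (List.suffix_cons _ _), e3⟩
      rw [← e1, pt_pred, mk_flip, h2, mul_assoc]
    · refine ⟨rfl, List.suffix_refl _, ?_⟩
      simp [along, h1, h2]

theorem mk_ptw (p : Fin 4) (i₀ : ℤ) (hi : i₀ ∈ offs p) : (FreeGroup.mk (ptw p i₀) : F) = pt p i₀ := by
  have hi' : i₀ = 0 ∨ i₀ = 1 := by
    unfold offs at hi
    split_ifs at hi
    · left; simpa using hi
    · simpa using hi
  rcases hi' with rfl | rfl
  · rw [pt_zero, ptw, if_pos rfl, FreeGroup.one_eq_mk]
  · rw [ptw, if_neg (by norm_num)]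
    have h := pt_succ p 0
    rw [zero_add, pt_zero, one_mul] at h
    rw [h]
    rfl

theorem mk_img (p : Fin 4) (i₀ : ℤ) (hi : i₀ ∈ offs p) (q : Fin 4) (l₀ : ℤ) (hl : l₀ ∈ offs q)
    (L : List (Fin 3 × Bool)) : (FreeGroup.mk (img p i₀ q l₀ L) : F) =
      (FreeGroup.mk (kw p))⁻¹ * theta (pt p i₀ * FreeGroup.mk L * (pt q l₀)⁻¹) *
        FreeGroup.mk (kw q) := by
  rw [img, FreeGroup.reduce.self, ← FreeGroup.mul_mk, ← FreeGroup.mul_mk, ← theta_mk,
    ← FreeGroup.mul_mk, ← FreeGroup.mul_mk, mk_ptw p i₀ hi, ← FreeGroup.inv_mk, ← FreeGroup.inv_mk,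
    mk_ptw q l₀ hl]

theorem isReduced_invRev {L : List (Fin 3 × Bool)} (h : FreeGroup.IsReduced L) :
    FreeGroup.IsReduced (FreeGroup.invRev L) := by
  rw [FreeGroup.isReduced_iff_reduce_eq, FreeGroup.reduce_invRev, h.reduce_eq]

theorem invRev_prefix {A B : List (Fin 3 × Bool)} (h : A <:+ FreeGroup.invRev B) :
    FreeGroup.invRev A <+: B := by
  obtain ⟨C, hC⟩ := h
  refine ⟨FreeGroup.invRev C, ?_⟩
  rw [← LineF.invRev_append, hC, FreeGroup.invRev_invRev]

theorem getLast?_invRev (A : List (Fin 3 × Bool)) :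
    (FreeGroup.invRev A).getLast? = A.head?.map (fun a => (a.1, !a.2)) := by
  rw [FreeGroup.invRev, List.getLast?_reverse, List.head?_map]

/-- the image configuration written with its bridge -/
theorem img_bridge (p : Fin 4) (i₀ : ℤ) (hi : i₀ ∈ offs p) (q : Fin 4) (l₀ : ℤ) (hl : l₀ ∈ offs q)
    (L : List (Fin 3 × Bool)) (hb : bword p i₀ q l₀ L ≠ []) : ∃ i l : ℤ,
    (FreeGroup.mk (kw p))⁻¹ * theta (pt p i₀ * FreeGroup.mk L * (pt q l₀)⁻¹) * FreeGroup.mk (kw q) =
      pt (![2, 3, 0, 1] p) i * FreeGroup.mk (bword p i₀ q l₀ L) * (pt (![2, 3, 0, 1] q) l)⁻¹ ∧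
    FreeGroup.reduce (bword p i₀ q l₀ L) = bword p i₀ q l₀ L ∧
    ((bword p i₀ q l₀ L).head hb ≠ (lt (![2, 3, 0, 1] p) i, true) ∧
      (bword p i₀ q l₀ L).head hb ≠ (lt (![2, 3, 0, 1] p) (i - 1), false)) ∧
    ((bword p i₀ q l₀ L).getLast hb ≠ (lt (![2, 3, 0, 1] q) l, false) ∧
      (bword p i₀ q l₀ L).getLast hb ≠ (lt (![2, 3, 0, 1] q) (l - 1), true)) := by
  have hm := mk_img p i₀ hi q l₀ hl L
  rw [← hm]
  have hWr : FreeGroup.IsReduced (img p i₀ q l₀ L) := by
    rw [FreeGroup.isReduced_iff_reduce_eq, img]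
    exact FreeGroup.reduce.idem
  obtain ⟨a1, a2, a3⟩ := strip_spec (![2, 3, 0, 1] p) 0 (img p i₀ q l₀ L)
  obtain ⟨b1, b2, b3⟩ := strip_spec (![2, 3, 0, 1] q) 0
    (FreeGroup.invRev (strip (![2, 3, 0, 1] p) 0 (img p i₀ q l₀ L)).2)
  have hbw : bword p i₀ q l₀ L = FreeGroup.invRev (strip (![2, 3, 0, 1] q) 0
    (FreeGroup.invRev (strip (![2, 3, 0, 1] p) 0 (img p i₀ q l₀ L)).2)).2 := rfl
  generalize bword p i₀ q l₀ L = B at *
  generalize hR' : (strip (![2, 3, 0, 1] q) 0
    (FreeGroup.invRev (strip (![2, 3, 0, 1] p) 0 (img p i₀ q l₀ L)).2)).2 = R' at *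
  generalize (strip (![2, 3, 0, 1] q) 0
    (FreeGroup.invRev (strip (![2, 3, 0, 1] p) 0 (img p i₀ q l₀ L)).2)).1 = l at *
  generalize (strip (![2, 3, 0, 1] p) 0 (img p i₀ q l₀ L)).2 = R at *
  generalize (strip (![2, 3, 0, 1] p) 0 (img p i₀ q l₀ L)).1 = i at *
  rw [pt_zero, one_mul] at a1 b1
  have hRr : FreeGroup.IsReduced R := List.IsChain.suffix hWr a2
  have hR'r : FreeGroup.IsReduced R' :=
    List.IsChain.suffix (isReduced_invRev hRr) b2
  have hBr : FreeGroup.IsReduced B := by rw [hbw]; exact isReduced_invRev hR'r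
  have hpre : B <+: R := by rw [hbw]; exact invRev_prefix b2
  have hhead : R.head? = some (B.head hb) := by
    obtain ⟨C, hC⟩ := hpre
    rw [← hC, List.head?_append, List.head?_eq_some_head hb]
    rfl
  have hlast : R'.head?.map (fun a => (a.1, !a.2)) = some (B.getLast hb) := by
    rw [← getLast?_invRev, ← hbw, List.getLast?_eq_some_getLast hb]
  refine ⟨i, l, ?_, hBr.reduce_eq, ?_, ?_⟩
  · rw [a1, mul_assoc]
    congr 1
    have h1 : (FreeGroup.mk R : F) = (FreeGroup.mk (FreeGroup.invRev R))⁻¹ := by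
      rw [FreeGroup.inv_mk, FreeGroup.invRev_invRev]
    rw [h1, b1, mul_inv_rev, FreeGroup.inv_mk, ← hbw]
  · simp only [along, hhead, decide_eq_false_iff_not, not_or, Option.some.injEq] at a3
    exact a3
  · simp only [along, decide_eq_false_iff_not, not_or] at b3
    constructor
    · intro h1
      rw [h1] at hlast
      cases h2 : R'.head? with
      | none => rw [h2] at hlast; simp at hlast
      | some z =>
        rw [h2] at hlast
        simp only [Option.map_some, Option.some.injEq, Prod.mk.injEq, Bool.not_eq_eq_eq_not,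
          Bool.not_false] at hlast
        apply b3.1
        rw [h2]
        congr 1
        exact Prod.ext hlast.1 hlast.2
    · intro h1
      rw [h1] at hlast
      cases h2 : R'.head? with
      | none => rw [h2] at hlast; simp at hlast
      | some z =>
        rw [h2] at hlast
        simp only [Option.map_some, Option.some.injEq, Prod.mk.injEq, Bool.not_eq_eq_eq_not,
          Bool.not_true] at hlast
        apply b3.2
        rw [h2]
        congr 1
        exact Prod.ext hlast.1 hlast.2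

theorem mem_smallW {L : List (Fin 3 × Bool)} (hr : FreeGroup.IsReduced L) (hl : L.length < 3) :
    L ∈ smallW := by
  have h1 : ∀ a : Fin 3 × Bool, [a] ∈ smallW := by decide
  have h2 : ∀ a b : Fin 3 × Bool, (a.1 = b.1 → a.2 = b.2) → [a, b] ∈ smallW := by decide
  match L, hr, hl with
  | [], _, _ => decide
  | [a], _, _ => exact h1 a
  | [a, b], hr, _ =>
    rw [FreeGroup.isReduced_cons_cons] at hr
    exact h2 a b hr.1
  | a :: b :: c' :: L, _, hl => simp only [List.length_cons] at hl; omega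

theorem exists_off (p : Fin 4) (a : ℤ) : ∃ i₀ ∈ offs p, ∃ u : ℤ, a = i₀ + u * wid p ∧
    lt p a = lt p i₀ ∧ lt p (a - 1) = lt p (i₀ - 1) := by
  have h2 : a % 2 = 0 ∨ a % 2 = 1 := by omega
  have h3 : a % 2 = 0 → (a - 1) % 2 = 1 := by omega
  have h4 : a % 2 = 1 → (a - 1) % 2 = 0 := by omega
  fin_cases p
  · exact ⟨0, by simp [offs], a, by simp [wid], by simp [lt], by simp [lt]⟩
  · exact ⟨0, by simp [offs], a, by simp [wid], by simp [lt], by simp [lt]⟩
  · rcases h2 with h2 | h2
    · exact ⟨0, by simp [offs], a / 2, by simp [wid]; omega, by simp [lt, h2],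
        by simp [lt, h3 h2]⟩
    · exact ⟨1, by simp [offs], a / 2, by simp [wid]; omega, by simp [lt, h2],
        by simp [lt, h4 h2]⟩
  · rcases h2 with h2 | h2
    · exact ⟨0, by simp [offs], a / 2, by simp [wid]; omega, by simp [lt, h2],
        by simp [lt, h3 h2]⟩
    · exact ⟨1, by simp [offs], a / 2, by simp [wid]; omega, by simp [lt, h2],
        by simp [lt, h4 h2]⟩

theorem norm_lt_of_head {g : F} {s : Fin 3 × Bool} (h : g.toWord.head? = some s) :
    ((FreeGroup.mk [s])⁻¹ * g).norm < g.norm := by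
  obtain ⟨T, hT⟩ : ∃ T, g.toWord = s :: T := by
    cases h1 : g.toWord with
    | nil => rw [h1] at h; simp at h
    | cons z T =>
      rw [h1] at h
      simp only [List.head?_cons, Option.some.injEq] at h
      exact ⟨T, by rw [h]⟩
  have h2 : g = FreeGroup.mk [s] * FreeGroup.mk T := by
    rw [← mk_flip, ← hT, FreeGroup.mk_toWord]
  have h3 : (FreeGroup.mk [s])⁻¹ * g = FreeGroup.mk T := by
    rw [h2, inv_mul_cancel_left]
  have h4 : g.norm = T.length + 1 := by
    rw [FreeGroup.norm, hT, List.length_cons]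
  rw [h3, h4]
  exact Nat.lt_succ_of_le FreeGroup.norm_mk_le

theorem along_step (p : Fin 4) (a i₀ : ℤ) (h1 : lt p a = lt p i₀)
    (h2 : lt p (a - 1) = lt p (i₀ - 1)) (g : F) (h : along p i₀ g.toWord = true) :
    ∃ a', ((pt p a')⁻¹ * pt p a * g).norm < g.norm := by
  simp only [along, decide_eq_true_eq] at h
  rcases h with h | h
  · refine ⟨a + 1, ?_⟩
    rw [← h1] at h
    have := norm_lt_of_head h
    rwa [pt_succ_mk, mul_inv_rev, mul_assoc (FreeGroup.mk _)⁻¹, inv_mul_cancel, mul_one]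
  · refine ⟨a - 1, ?_⟩
    rw [← h2] at h
    have := norm_lt_of_head h
    rwa [pt_pred, mul_inv_rev, mul_assoc (FreeGroup.mk _)⁻¹, inv_mul_cancel, mul_one]

theorem phicheck (p q : Fin 4) (f : F) (h : ¬ (p = q ∧ f ∈ Subgroup.zpowers (c p))) :
    ∃ m m' : ℕ, Dst p f q m ∧
      Dst (psiD.π p) ((psiD.k p)⁻¹ * psiD.θ f * psiD.k q) (psiD.π q) m' ∧ 3 ≤ m + m' := by
  classical
  have hex : ∃ n : ℕ, ∃ x ∈ Line p, ∃ y ∈ Line q, (x⁻¹ * f * y).norm = n :=
    ⟨_, 1, one_mem_Line p, 1, one_mem_Line q, rfl⟩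
  obtain ⟨x, ⟨a, rfl⟩, y, ⟨b, rfl⟩, hn⟩ := Nat.find_spec hex
  have hmin : ∀ x' ∈ Line p, ∀ y' ∈ Line q, Nat.find hex ≤ (x'⁻¹ * f * y').norm :=
    fun x' hx' y' hy' => Nat.find_min' hex ⟨x', hx', y', hy', rfl⟩
  rw [← hn] at hmin
  clear hn
  rcases Nat.lt_or_ge ((pt p a)⁻¹ * f * pt q b).norm 3 with hlt | hge
  swap
  · exact ⟨_, 0, hmin, fun x _ y _ => Nat.zero_le _, by omega⟩
  generalize hg : (pt p a)⁻¹ * f * pt q b = g at *
  have hf : f = pt p a * g * (pt q b)⁻¹ := by rw [← hg]; group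
  obtain ⟨i₀, hi₀, u, hau, hla, hla'⟩ := exists_off p a
  obtain ⟨l₀, hl₀, v, hbv, hlb, hlb'⟩ := exists_off q b
  have hL : g.toWord ∈ smallW := mem_smallW FreeGroup.isReduced_toWord hlt
  have hmk : (FreeGroup.mk g.toWord : F) = g := FreeGroup.mk_toWord
  have hal : ¬ along p i₀ g.toWord = true := by
    intro hal
    obtain ⟨a', ha'⟩ := along_step p a i₀ hla hla' g hal
    have h1 := hmin (pt p a') ⟨a', rfl⟩ (pt q b) ⟨b, rfl⟩
    have h2 : (pt p a')⁻¹ * f * pt q b = (pt p a')⁻¹ * pt p a * g := by rw [← hg]; group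
    rw [h2] at h1
    omega
  have hal' : ¬ along q l₀ (FreeGroup.invRev g.toWord) = true := by
    intro hal
    rw [← FreeGroup.toWord_inv] at hal
    obtain ⟨b', hb'⟩ := along_step q b l₀ hlb hlb' g⁻¹ hal
    have h1 := hmin (pt p a) ⟨a, rfl⟩ (pt q b') ⟨b', rfl⟩
    have h2 : (pt p a)⁻¹ * f * pt q b' = ((pt q b')⁻¹ * pt q b * g⁻¹)⁻¹ := by rw [← hg]; group
    rw [h2, FreeGroup.norm_inv_eq] at h1
    rw [FreeGroup.norm_inv_eq] at hb'
    omega
  have hchk := check_all p q i₀ hi₀ l₀ hl₀ g.toWord hL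
  simp only [chk, Bool.or_eq_true, decide_eq_true_eq] at hchk
  have hpa : pt p a = c p ^ u * pt p i₀ := by rw [pt_shift, hau]
  have hqb : pt q b = c q ^ v * pt q l₀ := by rw [pt_shift, hbv]
  have hf2 : f = c p ^ u * (pt p i₀ * FreeGroup.mk g.toWord * (pt q l₀)⁻¹) * c q ^ (-v) := by
    rw [hmk, hf, hpa, hqb]; group
  rcases hchk with ((hc1 | hc1) | ⟨hpq, hil, hnil⟩) | h3
  · exact absurd hc1 hal
  · exact absurd hc1 hal'
  · exfalso
    apply h
    subst hpq
    subst hil
    refine ⟨rfl, ?_⟩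
    rw [hf2, hnil, ← FreeGroup.one_eq_mk, mul_one, mul_inv_cancel, mul_one]
    exact Subgroup.mul_mem _ (Subgroup.zpow_mem_zpowers _ _) (Subgroup.zpow_mem_zpowers _ _)
  · have hlen : g.toWord.length = g.norm := rfl
    have hb : bword p i₀ q l₀ g.toWord ≠ [] := by
      intro hb
      rw [hb, List.length_nil] at h3
      omega
    obtain ⟨i, l, e1, e2, e3, e4⟩ := img_bridge p i₀ hi₀ q l₀ hl₀ g.toWord hb
    have hD := Dst_of_bridge i l (bword p i₀ q l₀ g.toWord) hb e2 e3 e4
    rw [← e1] at hD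
    refine ⟨g.norm, (bword p i₀ q l₀ g.toWord).length, hmin, ?_, by omega⟩
    have h5 : (FreeGroup.mk (kw p))⁻¹ * theta f * FreeGroup.mk (kw q) =
        c (![2, 3, 0, 1] p) ^ u * ((FreeGroup.mk (kw p))⁻¹ *
          theta (pt p i₀ * FreeGroup.mk g.toWord * (pt q l₀)⁻¹) * FreeGroup.mk (kw q)) *
          c (![2, 3, 0, 1] q) ^ (-v) := by
      have h6 : ∀ (r : Fin 4) (n : ℤ), theta (c r ^ n) = FreeGroup.mk (kw r) *
          c (![2, 3, 0, 1] r) ^ n * (FreeGroup.mk (kw r))⁻¹ := by
        intro r n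
        rw [map_zpow, theta_c, conj_zpow]
      conv_lhs => rw [hf2]
      rw [map_mul theta, map_mul theta, h6, h6]
      group
    show Dst (![2, 3, 0, 1] p) ((FreeGroup.mk (kw p))⁻¹ * theta f * FreeGroup.mk (kw q))
      (![2, 3, 0, 1] q) _
    rw [h5, Dst_smul]
    exact hD

end Pool.Agent.VSB
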