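import Pool.Agent.VSB.IneqH
import Pool.Agent.VSB.PhiCheck
import Pool.Agent.VSB.Core

/-! # VSB/KIneq: the key inequality

* `kineq`: if `ell y = 0` there is nothing to prove. Otherwise `exists_hax y` gives `g` and `H : HAx (g⁻¹ * y * g)` with
`H.n = ell y`. For each `j` apply `phicheck (bar (H.p (j - 1))) (H.p j) (H.f j)`; its hypothesis is `H.red (j - 1)`
(with `j - 1 + 1 = j`; if `bar (H.p (j-1)) = H.p j` then both `c`'s agree). Choose `m j`, `m' j`. The first
half is the hypothesis of `ineqH ha H m`. `psiD.hax H` is an axis `H'` of a conjugate of `psi (g⁻¹ * y * g)` with the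
same `n`, `H'.p j = psiD.π (H.p j)` and
`H'.f j = (psiD.k (bar (H.p (j - 1))))⁻¹ * psiD.θ (H.f j) * psiD.k (H.p j)`, and `bar (psiD.π x) = psiD.π (bar x)`
(`psiD.hπ`), so the second half is the hypothesis of `ineqH hb H' m'`. Add up:
`3 * H.n ≤ ∑ (m j + m' j) ≤ ell (alpha a (g⁻¹ * y * g)) + ell (alpha b (g'⁻¹ * psi (g⁻¹ * y * g) * g'))`, and remove the
conjugations by `map_mul`, `map_inv`, `ell_conj` (in the form `ell (g⁻¹ * x * g) = ell x`).
* `kineq0`: `ineqH_one`, `psi y ≠ 1` (injectivity), `ell_psi`. -/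

set_option autoImplicit false

namespace Pool.Agent.VSB

theorem ell_conj' (g x : Pi) : ell (g⁻¹ * x * g) = ell x := by
  have h := ell_conj g⁻¹ x
  rwa [inv_inv] at h

theorem ell_inv (x : Pi) : ell x⁻¹ = ell x := by
  rw [ell, ell, inum_inv, inum_inv]

theorem kineq {a b : Hk} (ha : ¬ InT a) (hb : ¬ InT b) (y : Pi) :
    3 * ell y ≤ ell (alpha a y) + ell (alpha b (psi y)) := by
  rcases Nat.eq_zero_or_pos (ell y) with h0 | h0
  · rw [h0]
    exact Nat.zero_le _
  obtain ⟨g, H, -, hn, -⟩ := exists_hax y h0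
  have hch : ∀ j : ℤ, ∃ m m' : ℕ, Dst (bar (H.p (j - 1))) (H.f j) (H.p j) m ∧
      Dst (psiD.π (bar (H.p (j - 1)))) ((psiD.k (bar (H.p (j - 1))))⁻¹ * psiD.θ (H.f j) *
        psiD.k (H.p j)) (psiD.π (H.p j)) m' ∧ 3 ≤ m + m' := by
    intro j
    apply phicheck
    rintro ⟨h1, h2⟩
    have hr := H.red (j - 1)
    rw [sub_add_cancel] at hr
    exact hr ⟨h1.symm, by rw [← h1]; exact h2⟩
  choose m m' hm hm' hmm using hch
  have h1 := ineqH ha H m hm
  obtain ⟨g', H', hn', hp', hf'⟩ := psiD.hax H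
  have h2 := ineqH hb H' m' (fun j => by
    rw [hp', hp', hf', ← psiD.hπ]
    exact hm' j)
  rw [hn'] at h2
  have e1 : ell (alpha a (g⁻¹ * y * g)) = ell (alpha a y) := by
    rw [map_mul, map_mul, map_inv, ell_conj']
  have e2 : ell (alpha b (g'⁻¹ * psiD.aut (g⁻¹ * y * g) * g')) = ell (alpha b (psi y)) := by
    have e3 : psiD.aut (g⁻¹ * y * g) = (psi g)⁻¹ * psi y * psi g := by
      show psi (g⁻¹ * y * g) = _
      rw [map_mul, map_mul, map_inv]
    rw [map_mul, map_mul, map_inv, ell_conj', e3, map_mul, map_mul, map_inv, ell_conj']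
  rw [e1] at h1
  rw [e2] at h2
  have h3 : 3 * H.n ≤ ∑ j ∈ Finset.range H.n, (m j + m' j) := by
    have h4 : ∑ _j ∈ Finset.range H.n, 3 ≤ ∑ j ∈ Finset.range H.n, (m j + m' j) :=
      Finset.sum_le_sum (fun j _ => hmm j)
    rw [Finset.sum_const, Finset.card_range, smul_eq_mul] at h4
    omega
  rw [Finset.sum_add_distrib] at h3
  omega

theorem kineq0 {a : Hk} (ha : ¬ InT a) {y : Pi} (hy : y ≠ 1) (h0 : ell y = 0) :
    1 ≤ ell (alpha a y) ∧ 1 ≤ ell (alpha a (psi y)) := by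
  refine ⟨ineqH_one ha hy h0, ineqH_one ha ?_ (by rw [ell_psi, h0])⟩
  intro h
  apply hy
  apply psi.injective
  rw [h, map_one]

end Pool.Agent.VSB
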