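import Pool.Agent.VSB.MGrp
import Pool.Agent.VSB.AmalAbs

/-! # VSB/MAmal: the group `⟨A, φ A φ⁻¹⟩` is admissible

`phiM` is the inverse of the mapping class of `psi`. The letters: `actM (false, a) = aM a`,
`actM (true, a) = phiM * aM a * phiM⁻¹` is the class of `act (true, a) = psi⁻¹ * alpha a * psi`.

* `psi_mem`: `OPAut_iff`, `OP_psi`. `act_mem`: products and inverses.
* `comm_dM`: `phiM⁻¹ = mcl psi`; show `mcl psi * dM = dM * mcl psi`: `dM = mI * mT ^ 10`, `psi` commutes with `aT`
(`psi_mul_aT`) and with `aI` up to an inner automorphism (`psi_aI`, `mcl_eq_iff`).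
* `fac_letter`: for `b = false` this is `mem_AM`; `cj phiM AM` consists of the `phiM * aM a * phiM⁻¹`; membership in
`zpowers dM` : `aM_mem_zpowers` and `comm_dM` (conjugation by `phiM` fixes `dM ^ k`).
* `alt_ne_one`: if `(L.map actM).prod = 1` then the automorphism `(L.map act).prod` is inner (`mcl_eq_iff`, the class of a
product of a list is the product of the classes, by induction), so `ell ((L.map act).prod y) = ell y` for all `y`
(`ell_conj`); take `y = S 2 = inc (FreeGroup.of 2)` : `ell y = 0` (`inum_inc`), `y ≠ 1` (`hv_S2`); `grow` contradicts.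
* `cyc_PA`: `PA_of_all` and `no_periodic`.
* `lift_list`: apply `fac_letter` to each letter of the list (induction on `L`).
* `admissible`: `comm`: `comm_dM`. `inter`: `⊇` from `zpowers_dM_le` and `comm_dM`. `⊆`: let
`g = aM a = phiM * aM b * phiM⁻¹`, `a, b ∈ AA`. If `¬ InT a` and `¬ InT b`, the word `[(false, a⁻¹), (true, b)]` is `Alt` with
product `1`, against `alt_ne_one`. If `InT b`, `aM b ∈ zpowers dM`, so `g ∈ zpowers dM`. If `InT a` the same.
`amalgam`: `amalgam_injective` with `K = fac AM phiM`, `D = zpowers dM`, `lift_list`, `alt_ne_one`. (The hypothesis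
`∀ b, zpowers dM ≤ fac AM phiM b` is `hfac`.)
`pA`: `GG AM phiM = fac AM phiM false ⊔ fac AM phiM true`; `conj_cases`. If `h⁻¹ * g * h ∈ fac AM phiM b`: write it as
`actM (b, a)`, `a ∈ AA`, and use `A_cases ha`: first case `a = c * dA ^ m * c⁻¹`, `c ∈ AA`: `actM (b, a) =
actM (b, c) * dM ^ m * (actM (b, c))⁻¹` (for `b = true` by `comm_dM`), so `g` is conjugate in the group to `dM ^ m`; second case
`PA_hyp` and `PA_conj` (twice for `b = true`). If it is a cyclically alternating product: `lift_list`, `cyc_PA`,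
`PA_conj`. `red`: `not_PA_dA` (`dM ^ k = aM (dA ^ k)`). -/

set_option autoImplicit false

namespace Pool.Agent.VSB.M

theorem psi_mem : psi ∈ OPAut := (OPAut_iff psi).2 OP_psi

theorem act_mem (s : Bool × Hk) : act s ∈ OPAut := by
  obtain ⟨b, a⟩ := s
  cases b
  · have h : act (false, a) = alpha a := by simp [act]
    rw [h]
    exact alpha_mem a
  · have h : act (true, a) = psi⁻¹ * alpha a * psi := by simp [act]
    rw [h]
    exact OPAut.mul_mem (OPAut.mul_mem (OPAut.inv_mem psi_mem) (alpha_mem a)) psi_mem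

/-- the gluing mapping class `φ` -/
noncomputable def phiM : MCG := (mcl psi psi_mem)⁻¹

/-- the letters of the amalgam as mapping classes -/
noncomputable def actM (s : Bool × Hk) : MCG := mcl (act s) (act_mem s)

private theorem mcl_congr {ψ χ : MulAut Pi} (h : ψ ∈ OPAut) (h' : χ ∈ OPAut) (he : ψ = χ) :
    mcl ψ h = mcl χ h' := by
  subst he
  rfl

theorem actM_false (a : Hk) : actM (false, a) = aM a := by
  rw [aM_apply, actM]
  exact mcl_congr _ _ (by simp [act])

theorem actM_true (a : Hk) : actM (true, a) = phiM * aM a * phiM⁻¹ := by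
  rw [phiM, inv_inv, aM_apply, mcl_inv, mcl_mul, mcl_mul, actM]
  exact mcl_congr _ _ (by simp [act])

private theorem comm_psi : Commute (mcl psi psi_mem) dM := by
  have h1 : Commute (mcl psi psi_mem) mT := by
    show mcl psi psi_mem * mcl aT aT_mem = mcl aT aT_mem * mcl psi psi_mem
    rw [mcl_mul, mcl_mul]
    exact mcl_congr _ _ psi_mul_aT
  have h2 : Commute (mcl psi psi_mem) mI := by
    show mcl psi psi_mem * mcl aI aI_mem = mcl aI aI_mem * mcl psi psi_mem
    rw [mcl_mul, mcl_mul, mcl_eq_iff]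
    exact ⟨gI, psi_aI⟩
  have h3 : dM = mI * mT ^ 10 := by
    rw [dM, dA, map_mul, map_pow, aM_zz, aM_tt]
  rw [h3]
  exact h2.mul_right (h1.pow_right 10)

private theorem comm_phi : Commute phiM dM := by
  rw [phiM]
  exact comm_psi.inv_left

private theorem conj_zpow (k : ℤ) : phiM * dM ^ k * phiM⁻¹ = dM ^ k := by
  rw [(comm_phi.zpow_right k).eq, mul_inv_cancel_right]

theorem comm_dM : phiM * dM * phiM⁻¹ = dM := by
  rw [comm_phi.eq, mul_inv_cancel_right]

theorem fac_letter {b : Bool} {g : MCG} (hg : g ∈ fac AM phiM b) :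
    ∃ a ∈ AA, actM (b, a) = g ∧ (g ∈ Subgroup.zpowers dM ↔ InT a) := by
  cases b
  · have hg' : g ∈ AM := hg
    obtain ⟨a, ha, rfl⟩ := mem_AM.1 hg'
    exact ⟨a, ha, actM_false a, aM_mem_zpowers ha⟩
  · have hg' : g ∈ cj phiM AM := hg
    obtain ⟨g', hg'', rfl⟩ := hg'
    obtain ⟨a, ha, rfl⟩ := mem_AM.1 hg''
    refine ⟨a, ha, actM_true a, ?_⟩
    show phiM * aM a * phiM⁻¹ ∈ Subgroup.zpowers dM ↔ InT a
    rw [← aM_mem_zpowers ha, Subgroup.mem_zpowers_iff, Subgroup.mem_zpowers_iff]
    constructor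
    · rintro ⟨k, hk⟩
      refine ⟨k, ?_⟩
      rw [← conj_zpow k] at hk
      exact mul_left_cancel (mul_right_cancel hk)
    · rintro ⟨k, hk⟩
      refine ⟨k, ?_⟩
      rw [← hk, conj_zpow]

theorem actM_mem_fac (b : Bool) {a : Hk} (ha : a ∈ AA) : actM (b, a) ∈ fac AM phiM b := by
  cases b
  · rw [actM_false]
    exact mem_AM.2 ⟨a, ha, rfl⟩
  · rw [actM_true]
    exact ⟨aM a, mem_AM.2 ⟨a, ha, rfl⟩, rfl⟩

theorem hfac (b : Bool) : Subgroup.zpowers dM ≤ fac AM phiM b := by
  cases b
  · exact zpowers_dM_le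
  · rw [Subgroup.zpowers_le]
    exact ⟨dM, zpowers_dM_le (Subgroup.mem_zpowers _), comm_dM⟩

theorem mcl_prod (L : List (Bool × Hk)) : ∃ h : (L.map act).prod ∈ OPAut,
    (L.map actM).prod = mcl (L.map act).prod h := by
  induction L with
  | nil => exact ⟨OPAut.one_mem, rfl⟩
  | cons s L ih =>
    obtain ⟨h, e⟩ := ih
    refine ⟨?_, ?_⟩
    · rw [List.map_cons, List.prod_cons]
      exact OPAut.mul_mem (act_mem s) h
    · rw [List.map_cons, List.prod_cons, e, actM, mcl_mul]
      exact mcl_congr _ _ (by rw [List.map_cons, List.prod_cons])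

private theorem S2_ne : S 2 ≠ 1 := by
  intro h
  have h1 := hv_S2
  have h2 : hv 1 = 0 := by simp [hv]
  rw [h, h2] at h1
  have := congrFun h1 0
  simp at this

private theorem ell_S2 : ell (S 2) = 0 := by
  rw [← inc_of, ell, inum_inc, inum_inc]

theorem alt_ne_one {L : List (Bool × Hk)} (hL : Alt L) (hne : L ≠ []) : (L.map actM).prod ≠ 1 := by
  intro h1
  obtain ⟨h, e⟩ := mcl_prod L
  rw [e] at h1
  have h2 : mcl (L.map act).prod h = mcl 1 OPAut.one_mem := h1
  obtain ⟨g, hg⟩ := (mcl_eq_iff _ _).1 h2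
  have h3 := grow hL hne S2_ne ell_S2
  rw [hg (S 2), MulAut.one_apply, ell_conj, ell_S2] at h3
  omega

theorem cyc_PA {L : List (Bool × Hk)} (hL : Alt L) (hne : L ≠ [])
    (hcyc : (L.head hne).1 ≠ (L.getLast hne).1) : PA (L.map actM).prod := by
  obtain ⟨h, e⟩ := mcl_prod L
  rw [e]
  exact PA_of_all h (fun n hn y hy w => no_periodic hL hne hcyc hy hn w)

theorem lift_list (L : List (Bool × MCG))
    (hL : ∀ s ∈ L, s.2 ∈ fac AM phiM s.1 ∧ s.2 ∉ Subgroup.zpowers dM) :
    ∃ L' : List (Bool × Hk), L'.map (fun s => (s.1, actM s)) = L ∧ ∀ s ∈ L', s.2 ∈ AA ∧ ¬ InT s.2 := by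
  induction L with
  | nil => exact ⟨[], rfl, by simp⟩
  | cons s L ih =>
    obtain ⟨L', h1, h2⟩ := ih (fun s' hs' => hL s' (List.mem_cons_of_mem _ hs'))
    obtain ⟨h3, h4⟩ := hL s List.mem_cons_self
    obtain ⟨a, ha, e, hi⟩ := fac_letter h3
    refine ⟨(s.1, a) :: L', ?_, ?_⟩
    · rw [List.map_cons, h1]
      show (s.1, actM (s.1, a)) :: L = s :: L
      rw [e]
    · intro s' hs'
      rcases List.mem_cons.1 hs' with rfl | hs'
      · exact ⟨ha, fun hc => h4 (hi.2 hc)⟩
      · exact h2 s' hs'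

private theorem lift_alt {L : List (Bool × MCG)} (hne : L ≠ [])
    (hL : ∀ s ∈ L, s.2 ∈ fac AM phiM s.1 ∧ s.2 ∉ Subgroup.zpowers dM)
    (hc : L.IsChain (fun s s' => s.1 ≠ s'.1)) :
    ∃ (L' : List (Bool × Hk)) (hne' : L' ≠ []), Alt L' ∧ (L.map Prod.snd).prod = (L'.map actM).prod ∧
      (L'.head hne').1 = (L.head hne).1 ∧ (L'.getLast hne').1 = (L.getLast hne).1 := by
  obtain ⟨L', h1, h2⟩ := lift_list L hL
  subst h1
  have hne' : L' ≠ [] := by
    rintro rfl
    exact hne rfl
  refine ⟨L', hne', ⟨fun s hs => (h2 s hs).2, ?_⟩, ?_, ?_, ?_⟩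
  · rw [List.isChain_map] at hc
    exact hc
  · rw [List.map_map]
    rfl
  · rw [List.head_map]
  · rw [List.getLast_map]

theorem admissible : Admissible AM dM phiM := by
  refine ⟨comm_dM, ?_, ⟨hfac, ?_⟩, ?_, ?_⟩
  · apply le_antisymm
    · rintro g ⟨h1, h2⟩
      obtain ⟨a, ha, e1, i1⟩ := fac_letter (b := false) (g := g) h1
      obtain ⟨b, hb, e2, i2⟩ := fac_letter (b := true) (g := g) h2
      by_contra hg
      have hna : ¬ InT a := fun hc => hg (i1.2 hc)
      have hnb : ¬ InT b := fun hc => hg (i2.2 hc)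
      have hAlt : Alt [(false, a⁻¹), (true, b)] := by
        refine ⟨?_, ?_⟩
        · intro s hs
          simp only [List.mem_cons, List.not_mem_nil, or_false] at hs
          rcases hs with rfl | rfl
          · exact not_InT_inv hna
          · exact hnb
        · simp
      refine alt_ne_one hAlt (by simp) ?_
      have h3 : actM (false, a⁻¹) = g⁻¹ := by
        rw [actM_false, map_inv, ← actM_false, e1]
      simp [h3, e2]
    · exact le_inf zpowers_dM_le (hfac true)
  · apply amalgam_injective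
    intro L hne hL hc
    obtain ⟨L', hne', hA, hp, -, -⟩ := lift_alt hne hL hc
    rw [hp]
    exact alt_ne_one hA hne'
  · intro g hg
    have hGG : GG AM phiM = fac AM phiM false ⊔ fac AM phiM true := rfl
    rw [hGG] at hg ⊢
    obtain ⟨h, hh, ⟨b, hb⟩ | ⟨L, hne, hL, hc, hcyc, hp⟩⟩ :=
      conj_cases (fac AM phiM) (Subgroup.zpowers dM) hfac hg
    · obtain ⟨a, ha, e, -⟩ := fac_letter hb
      have hg' : g = h * actM (b, a) * h⁻¹ := by
        rw [e]; group
      rcases A_cases ha with ⟨c, hcA, m, hm⟩ | ⟨u, ε, ks, hk, hu⟩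
      · right
        have hconj : actM (b, a) = actM (b, c) * dM ^ m * (actM (b, c))⁻¹ := by
          have h0 : aM a = aM c * dM ^ m * (aM c)⁻¹ := by
            rw [hm, map_mul, map_mul, map_inv, map_zpow]; rfl
          cases b
          · rw [actM_false, actM_false, h0]
          · rw [actM_true, actM_true, h0]
            conv_rhs => rw [← conj_zpow m]
            group
        refine ⟨h * actM (b, c), mul_mem hh ?_, m, ?_⟩
        · cases b
          · exact (le_sup_left : fac AM phiM false ≤ _) (actM_mem_fac false hcA)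
          · exact (le_sup_right : fac AM phiM true ≤ _) (actM_mem_fac true hcA)
        · rw [hg', hconj]
          group
      · left
        have hPA : PA (aM a) := PA_hyp hk hu
        rw [hg']
        apply PA_conj
        cases b
        · rw [actM_false]; exact hPA
        · rw [actM_true]; exact PA_conj _ hPA
    · left
      obtain ⟨L', hne', hA, hp', h1, h2⟩ := lift_alt hne hL hc
      have hg' : g = h * (L'.map actM).prod * h⁻¹ := by
        rw [← hp', ← hp]; group
      rw [hg']
      apply PA_conj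
      apply cyc_PA hA hne'
      rw [h1, h2]
      exact hcyc
  · intro k
    have h := not_PA_dA k
    rwa [← aM_apply, map_zpow] at h

end Pool.Agent.VSB.M
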