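import Pool.Agent.VSB.MPA
import Pool.Agent.VSB.HkFree
import Pool.Agent.VSB.HkMat

/-! # VSB/MGrp: the group `A` of the model

`aM h` is the mapping class of `alpha h`.

* `aM_injective`: if `aM h = 1` then `alpha h x = g * x * g⁻¹` for all `x` (`mcl_eq_iff` with `χ = 1`), so
`hv (alpha h x) = hv x`, `mu h` fixes all vectors `hvec (hv x)` (`hvec_hmap`, `hv_surjective`), in particular
`hvec ![1,0,0,0] = ![1,0]` and `hvec ![0,0,1,0] = ![0,1]`; so `mu h = 1` and `h = 1` by `mu_injective`.
* `range_aM`: `aM rr = mR`, `aM tt = mT`, and `rr`, `ss = rr⁻¹ * tt` generate `Hk` (`PresentedGroup.closure_range_of`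
or `hk_induction`).
* `isVeechSurf`: `inf`: `AA_inf_zz` and injectivity. `index`: `AM ⊔ zpowers mI = (AA ⊔ zpowers zz).map aM`
(`Subgroup.map_sup`, `MonoidHom.map_zpowers`), `Vee = ⊤.map aM`, `Subgroup.relIndex_map_map_of_injective`, `index_AA`. `free`:
`exists_free` composed with `Subgroup.equivMapOfInjective`. `cusp`: `closure {mI, mT} = (closure {zz, tt}).map aM`
(`MonoidHom.map_closure`, `Set.image_pair`); an element of `closure {zz, tt}` is `InT`
(induction: `zz` is central and `zz ^ 2 = 1`); `mem_zpowers_of_InT`, `dA_mem`. -/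

set_option autoImplicit false

open scoped commutatorElement

namespace Pool.Agent.VSB.M

/-- the Veech group of the double pentagon as mapping classes -/
def aM : Hk →* MCG where
  toFun h := mcl (alpha h) (alpha_mem h)
  map_one' := by
    apply Subtype.ext
    show (QuotientGroup.mk (alpha 1) : OutPi) = 1
    rw [map_one]; rfl
  map_mul' h h' := by
    apply Subtype.ext
    show (QuotientGroup.mk (alpha (h * h')) : OutPi) = QuotientGroup.mk (alpha h) * QuotientGroup.mk (alpha h')
    rw [map_mul]; rfl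

theorem aM_apply (h : Hk) : aM h = mcl (alpha h) (alpha_mem h) := rfl

theorem mcl_congrMG {ψ χ : MulAut Pi} (h : ψ ∈ OPAut) (h' : χ ∈ OPAut) (he : ψ = χ) :
    mcl ψ h = mcl χ h' := by
  subst he
  rfl

theorem aM_rr : aM rr = mR := mcl_congrMG (alpha_mem rr) aR_mem alpha_rr

theorem aM_tt : aM tt = mT := mcl_congrMG (alpha_mem tt) aT_mem alpha_tt

theorem aM_zz : aM zz = mI := mcl_congrMG (alpha_mem zz) aI_mem alpha_zz

theorem aM_injective : Function.Injective aM := by
  rw [injective_iff_map_eq_one]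
  intro h hh
  have h1 : mcl (alpha h) (alpha_mem h) = mcl 1 OPAut.one_mem := hh
  obtain ⟨g, hg⟩ := (mcl_eq_iff (alpha_mem h) OPAut.one_mem).1 h1
  have h2 : ∀ x, (mu h : Matrix (Fin 2) (Fin 2) ℝ).mulVec (Multiplicative.toAdd (hol x)) =
      Multiplicative.toAdd (hol x) := by
    intro x
    have h5 : hol (alpha h x) = hol x := by
      rw [hg x, map_mul hol, map_mul hol, map_inv hol, mul_comm (hol g), mul_assoc,
        mul_inv_cancel, mul_one]
      rfl
    rw [← hol_alpha, h5]
  have h3 := h2 (S 2)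
  have h4 := h2 (N 0)
  rw [hS2HM] at h3
  rw [hN0HM] at h4
  rw [toAdd_ofAdd] at h3 h4
  apply mu_injective
  rw [map_one]
  apply Subtype.ext
  ext i j
  fin_cases j
  · have h5 := congrFun h3 i
    rw [Matrix.mulVec, dotProduct, Fin.sum_univ_two] at h5
    fin_cases i <;> simpa using h5
  · have h5 := congrFun h4 i
    rw [Matrix.mulVec, dotProduct, Fin.sum_univ_two] at h5
    fin_cases i <;> simpa using h5

theorem range_aM : aM.range = Vee := by
  apply le_antisymm
  · rintro _ ⟨h, rfl⟩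
    have hR : mR ∈ Vee := Subgroup.subset_closure (Or.inl rfl)
    have hT : mT ∈ Vee := Subgroup.subset_closure (Or.inr rfl)
    have hs : aM ss ∈ Vee := by
      have : ss = rr⁻¹ * tt := by rw [tt, inv_mul_cancel_left]
      rw [this, map_mul, map_inv, aM_rr, aM_tt]
      exact mul_mem (inv_mem hR) hT
    refine hk_induction (P := fun h => aM h ∈ Vee) ?_ ?_ ?_ h
    · rw [map_one]; exact one_mem _
    · intro h hh
      rw [map_mul, aM_rr]
      exact mul_mem hh hR
    · intro h hh
      rw [map_mul]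
      exact mul_mem hh hs
  · rw [Vee, Subgroup.closure_le]
    rintro _ (rfl | rfl)
    · exact ⟨rr, aM_rr⟩
    · exact ⟨tt, aM_tt⟩

/-- the group `A` -/
def AM : Subgroup MCG := AA.map aM

/-- the boundary element `δ` -/
def dM : MCG := aM dA

theorem mem_AM {g : MCG} : g ∈ AM ↔ ∃ a ∈ AA, aM a = g := Iff.rfl

theorem dM_mem : dM ∈ AM := ⟨dA, dA_mem, rfl⟩

theorem zpowers_dM_le : Subgroup.zpowers dM ≤ AM := by
  rw [Subgroup.zpowers_le]
  exact dM_mem

/-- `aM a ∈ ⟨δ⟩` iff `a` is in the stabiliser of the cusp -/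
theorem aM_mem_zpowers {a : Hk} (ha : a ∈ AA) : aM a ∈ Subgroup.zpowers dM ↔ InT a := by
  constructor
  · rintro ⟨n, hn⟩
    have h1 : aM (dA ^ n) = aM a := by
      rw [map_zpow]; exact hn
    exact InT_of_mem_zpowers ⟨n, aM_injective h1⟩
  · intro h
    obtain ⟨n, hn⟩ := mem_zpowers_of_InT ha h
    refine ⟨n, ?_⟩
    show dM ^ n = aM a
    rw [← hn]
    exact (map_zpow aM dA n).symm

theorem InT_mul {a b : Hk} (ha : InT a) (hb : InT b) : InT (a * b) := by
  obtain ⟨ε, m, rfl⟩ := ha
  obtain ⟨ε', m', rfl⟩ := hb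
  refine ⟨ε + ε', m + m', ?_⟩
  have h := zz_pow_comm (tt ^ m) ε'
  rw [pow_add, zpow_add, mul_assoc, mul_assoc, ← mul_assoc (tt ^ m), h, mul_assoc]

theorem InT_inv {a : Hk} (ha : InT a) : InT a⁻¹ := by
  obtain ⟨ε, m, rfl⟩ := ha
  refine ⟨ε, -m, ?_⟩
  have h := zz_pow_comm (tt ^ (-m)) ε
  rw [mul_inv_rev, ← zpow_neg, ← h]
  congr 1
  rw [← inv_pow, zz_inv]

theorem InT_of_mem_closure {a : Hk} (ha : a ∈ Subgroup.closure {zz, tt}) : InT a := by
  induction ha using Subgroup.closure_induction with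
  | mem x hx =>
    rcases hx with rfl | rfl
    · exact ⟨1, 0, by simp⟩
    · exact ⟨0, 1, by simp⟩
  | one => exact ⟨0, 0, by simp⟩
  | mul x y _ _ hx hy => exact InT_mul hx hy
  | inv x _ hx => exact InT_inv hx

theorem zpowers_mI : Subgroup.zpowers mI = (Subgroup.zpowers zz).map aM := by
  rw [MonoidHom.map_zpowers, aM_zz]

theorem closure_mI_mT : Subgroup.closure {mI, mT} = (Subgroup.closure {zz, tt}).map aM := by
  rw [MonoidHom.map_closure, Set.image_pair, aM_zz, aM_tt]

theorem isVeechSurf : IsVeechSurf AM dM := by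
  refine ⟨?_, ?_, ?_, ?_, ?_⟩
  · rw [← range_aM]
    exact Subgroup.map_le_range _ _
  · rw [zpowers_mI, AM, ← Subgroup.map_inf _ _ _ aM_injective, AA_inf_zz, Subgroup.map_bot]
  · rw [zpowers_mI, AM, ← Subgroup.map_sup, ← range_aM, MonoidHom.range_eq_map,
      Subgroup.relIndex_map_map_of_injective _ _ aM_injective, Subgroup.relIndex_top_right,
      index_AA]
  · obtain ⟨Φ, hΦ⟩ := exists_free
    refine ⟨Φ.trans (AA.equivMapOfInjective aM aM_injective), ?_⟩
    exact congrArg aM hΦ
  · apply le_antisymm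
    · rintro _ ⟨⟨a, ha, rfl⟩, hb⟩
      rw [SetLike.mem_coe, closure_mI_mT] at hb
      obtain ⟨b, hb, hab⟩ := hb
      have hba : b = a := aM_injective hab
      subst hba
      exact (aM_mem_zpowers ha).2 (InT_of_mem_closure hb)
    · rw [Subgroup.zpowers_le]
      refine ⟨dM_mem, ?_⟩
      rw [SetLike.mem_coe, closure_mI_mT]
      refine ⟨dA, ?_, rfl⟩
      rw [SetLike.mem_coe, dA]
      have hz : zz ∈ Subgroup.closure {zz, tt} := Subgroup.subset_closure (Or.inl rfl)
      have ht : tt ∈ Subgroup.closure {zz, tt} := Subgroup.subset_closure (Or.inr rfl)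
      exact mul_mem hz (pow_mem ht _)

end Pool.Agent.VSB.M
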