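import Pool.Agent.VSB.Model
import Pool.Agent.VSB.Parse
import Pool.Agent.VSB.Homol
import Pool.Agent.VSB.Core

/-! # VSB/MNum: the numbers of the model in terms of the golden L

* `sep_eq`: `S 2 = e 0`, `N 1 = (e 0)⁻¹ * (e 4)⁻¹` by definition; `group`.
* `alg_eq`: both sides are bimultiplicative; compare on `e i`, `e j` (`alg_e`, first `hom_ext_e` for fixed `x`, then in
`x`), where `hv (e 0) = ![1,0,0,0]`, `hv (e 1) = ![0,1,0,1]`, `hv (e 2) = ![0,0,1,0]`, `hv (e 3) = ![0,-1,-1,0]`,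
`hv (e 4) = ![-1,0,0,-1]` (`e0_eq` etc., `hv_mul`, `hv_inv`). It is convenient to build the homomorphism
`y ↦ Multiplicative.ofAdd (om v (hv y))` for a fixed `v` (`MonoidHom.mk'`), `om` is linear in each variable (`ring`).
* `OPAut_iff`: from `alg_eq`.
* `i0_eq`: words in the `e i` and words in the letters of the golden L. `≤`: from a word `w` of the golden L with
`ev w = g⁻¹ * x * g` and `hc 0 w = inum 0 x` (`exists_inum`) get a word in the `e i` with the same value by the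
substitution `s0 ↦ e4 e0 e1`, `s1 ↦ e1 e0 e4`, `s2 ↦ e0`, `n0 ↦ e2`, `n1 ↦ e0⁻¹ e4⁻¹`, `n2 ↦ e4⁻¹ e0⁻¹`
(`S 0 = N1⁻¹ * e 1`, `S 1 = e 1 * N2⁻¹` by `e1_eq'`, `e1_eq`); only `n0` contributes to the count of letters `e 2`, `e 3`.
`≥`: from a word in the `e i` with value conjugate to `x`, substitute `e0 ↦ s2`, `e1 ↦ s1 n2`, `e2 ↦ n0`,
`e3 ↦ (n0 s1)⁻¹`, `e4 ↦ (n2 s2)⁻¹` (`e0_eq` … `e4_eq`); each letter `e 2`, `e 3` contributes one letter `n 0`, the others
none. `ConjClasses.mk y = ConjClasses.mk x` means `∃ g, g * y * g⁻¹ = x` (`ConjClasses.mk_eq_mk_iff_isConj`, `isConj_iff`).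
Use `Nat.sInf_le`, `Nat.sInf_mem`.
* `closure_P`: `P1 ⊔ P2 = ⊤` : it contains `e 0`, `e 4`, `e 2 = (e 4 * e 0) * ((e 0)⁻¹ * (e 4)⁻¹ * e 2)`,
`e 1 = (e 1 * e 0 * e 4) * (e 0 * e 4)⁻¹`, `e 3` from `e_rel1`; every element of `Pi` is in the closure of the `e i`
(`PresentedGroup.closure_range_of`), hence is a product of a list of elements of `P1 ∪ P2`
(`Subgroup.exists_list_of_mem_closure` or a direct induction with `Subgroup.closure_induction`).
* `is_le`: choose for each letter `l : Lt` a list for `θ l.val` (with inverses for the inverse letter: reverse and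
invert); there are six letters, let `C` be the maximum of the lengths. For `x` take the word `w` of
`exists_min_word x`; its length is `ell x + jnum 0 x + jnum 1 x` (`length_eq`), so `θ (ev w)`, a conjugate of `θ x`, is
the product of a list of length at most `C * w.length`, and `is c ≤ L.length` for each admissible list `L`. -/

set_option autoImplicit false

open scoped commutatorElement

namespace Pool.Agent.VSB.M

theorem sep_eq : ⁅(e 4)⁻¹, (e 0)⁻¹⁆ = ⁅S 2, N 1⁆ := by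
  show (e 4)⁻¹ * (e 0)⁻¹ * ((e 4)⁻¹)⁻¹ * ((e 0)⁻¹)⁻¹ =
    e 0 * ((e 0)⁻¹ * (e 4)⁻¹) * (e 0)⁻¹ * ((e 0)⁻¹ * (e 4)⁻¹)⁻¹
  group

/-- homology classes of the sides -/
def heMN : Fin 5 → Fin 4 → ℤ :=
  ![![1, 0, 0, 0], ![0, 1, 0, 1], ![0, 0, 1, 0], ![0, -1, -1, 0], ![-1, 0, 0, -1]]

theorem hv_eMN (i : Fin 5) : hv (e i) = heMN i := by
  fin_cases i
  · show hv (e 0) = _
    rw [e0_eq, hv_S2]; rfl
  · show hv (e 1) = _
    rw [e1_eq, hv_mul, hv_S1, hv_N2]
    funext k
    fin_cases k <;> simp [heMN]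
  · show hv (e 2) = _
    rw [e2_eq, hv_N0]; rfl
  · show hv (e 3) = _
    rw [e3_eq, hv_inv, hv_mul, hv_S1, hv_N0]
    funext k
    fin_cases k <;> simp [heMN]
  · show hv (e 4) = _
    rw [e4_eq, hv_inv, hv_mul, hv_S2, hv_N2]
    funext k
    fin_cases k <;> simp [heMN]

theorem om_add_rightMN (u v w : Fin 4 → ℤ) : om u (v + w) = om u v + om u w := by
  simp only [om, Pi.add_apply]; ring

theorem om_add_leftMN (u v w : Fin 4 → ℤ) : om (u + v) w = om u w + om v w := by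
  simp only [om, Pi.add_apply]; ring

/-- the homomorphism `y ↦ om v (hv y)` -/
def omRMN (v : Fin 4 → ℤ) : Pi →* Multiplicative ℤ :=
  MonoidHom.mk' (fun y => Multiplicative.ofAdd (om v (hv y)))
    (fun x y => by rw [hv_mul, om_add_rightMN, ofAdd_add])

/-- the bimultiplicative form -/
def omBMN : Pi →* (Pi →* Multiplicative ℤ) :=
  MonoidHom.mk' (fun x => omRMN (hv x)) (fun x y => by
    apply MonoidHom.ext
    intro z
    show Multiplicative.ofAdd (om (hv (x * y)) (hv z)) =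
      Multiplicative.ofAdd (om (hv x) (hv z)) * Multiplicative.ofAdd (om (hv y) (hv z))
    rw [hv_mul, om_add_leftMN, ofAdd_add])

theorem alg_eq (x y : Pi) : alg x y = Multiplicative.ofAdd (om (hv x) (hv y)) := by
  have key : alg = omBMN := by
    apply hom_ext_e
    intro i
    apply hom_ext_e
    intro j
    rw [alg_e]
    show Multiplicative.ofAdd (Om i j) = Multiplicative.ofAdd (om (hv (e i)) (hv (e j)))
    rw [hv_eMN, hv_eMN]
    revert i j; decide
  rw [key]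
  rfl

theorem OPAut_iff (ψ : MulAut Pi) : ψ ∈ OPAut ↔ OP ψ := by
  constructor
  · intro h x y
    have h1 : alg (ψ x) (ψ y) = alg x y := h x y
    rw [alg_eq, alg_eq] at h1
    exact Multiplicative.ofAdd.injective h1
  · intro h x y
    show alg (ψ x) (ψ y) = alg x y
    rw [alg_eq, alg_eq, h x y]

/-! ### Words in the sides and words in the edges of the golden L -/

/-- the number of letters `e 2`, `e 3` -/
def cntMN (w : List (Fin 5 × Bool)) : ℕ := w.countP (fun a => a.1 = 2 ∨ a.1 = 3)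

theorem wv_nilMN : wv [] = 1 := map_one (PresentedGroup.mk rels)

theorem wv_appendMN (w w' : List (Fin 5 × Bool)) : wv (w ++ w') = wv w * wv w' := by
  unfold wv
  rw [← map_mul]
  rfl

theorem wv_singleMN (i : Fin 5) : wv [(i, true)] = e i := rfl

theorem wv_invMN (w : List (Fin 5 × Bool)) : wv (FreeGroup.invRev w) = (wv w)⁻¹ := by
  unfold wv
  rw [← map_inv, FreeGroup.inv_mk]

theorem wv_single_falseMN (i : Fin 5) : wv [(i, false)] = (e i)⁻¹ := by
  have h := wv_invMN [(i, true)]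
  rw [wv_singleMN] at h
  exact h

theorem cnt_appendMN (w w' : List (Fin 5 × Bool)) : cntMN (w ++ w') = cntMN w + cntMN w' := by
  simp [cntMN]

theorem cnt_invMN (w : List (Fin 5 × Bool)) : cntMN (FreeGroup.invRev w) = cntMN w := by
  unfold cntMN FreeGroup.invRev
  rw [List.countP_reverse, List.countP_map]
  rfl

theorem letter1MN (l : Lt) : ∃ w : List (Fin 5 × Bool), wv w = l.val ∧
    cntMN w ≤ if l.hty = some 0 then 1 else 0 := by
  have h4 : ∀ a b c' d : Fin 5 × Bool, True := fun _ _ _ _ => trivial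
  have w3 : ∀ a b c' : Fin 5 × Bool, wv [a, b, c'] = wv [a] * wv [b] * wv [c'] := by
    intro a b c'
    rw [← wv_appendMN, ← wv_appendMN]; rfl
  have w2 : ∀ a b : Fin 5 × Bool, wv [a, b] = wv [a] * wv [b] := by
    intro a b
    rw [← wv_appendMN]; rfl
  cases l with
  | s j =>
    fin_cases j
    · refine ⟨[(4, true), (0, true), (1, true)], ?_, by simp [cntMN]⟩
      show _ = S 0
      have h : S 0 = (N 1)⁻¹ * e 1 := by rw [e1_eq']; group
      have h2 : N 1 = (e 0)⁻¹ * (e 4)⁻¹ := rfl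
      rw [w3, wv_singleMN, wv_singleMN, wv_singleMN, h, h2]
      group
    · refine ⟨[(1, true), (0, true), (4, true)], ?_, by simp [cntMN]⟩
      show _ = S 1
      have h : S 1 = e 1 * (N 2)⁻¹ := by rw [e1_eq]; group
      have h2 : N 2 = (e 4)⁻¹ * (e 0)⁻¹ := rfl
      rw [w3, wv_singleMN, wv_singleMN, wv_singleMN, h, h2]
      group
    · exact ⟨[(0, true)], rfl, by simp [cntMN]⟩
  | n j =>
    fin_cases j
    · exact ⟨[(2, true)], rfl, by simp [cntMN, Lt.hty]⟩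
    · refine ⟨[(0, false), (4, false)], ?_, by simp [cntMN]⟩
      rw [w2, wv_single_falseMN, wv_single_falseMN]
      rfl
    · refine ⟨[(4, false), (0, false)], ?_, by simp [cntMN]⟩
      rw [w2, wv_single_falseMN, wv_single_falseMN]
      rfl

theorem word1MN (w : Wd) : ∃ w' : List (Fin 5 × Bool), wv w' = ev w ∧ cntMN w' ≤ hc 0 w := by
  induction w with
  | nil => exact ⟨[], wv_nilMN, le_rfl⟩
  | cons x w ih =>
    obtain ⟨w', h1, h2⟩ := ih
    obtain ⟨l, b⟩ := x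
    obtain ⟨u, h3, h4⟩ := letter1MN l
    cases b
    · refine ⟨FreeGroup.invRev u ++ w', ?_, ?_⟩
      · rw [wv_appendMN, wv_invMN, h1, h3, ev_cons]
        rfl
      · rw [cnt_appendMN, cnt_invMN, hc_cons]
        exact add_le_add h4 h2
    · refine ⟨u ++ w', ?_, ?_⟩
      · rw [wv_appendMN, h1, h3, ev_cons]
        rfl
      · rw [cnt_appendMN, hc_cons]
        exact add_le_add h4 h2

theorem letter2MN (i : Fin 5) : ∃ w : Wd, ev w = e i ∧
    hc 0 w ≤ if i = 2 ∨ i = 3 then 1 else 0 := by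
  fin_cases i
  · exact ⟨[(.s 2, true)], by show _ = e 0; rw [e0_eq]; simp [ev, stp, Lt.val],
      by simp [hc, Lt.hty]⟩
  · exact ⟨[(.s 1, true), (.n 2, true)], by show _ = e 1; rw [e1_eq]; simp [ev, stp, Lt.val],
      by simp [hc, Lt.hty]⟩
  · exact ⟨[(.n 0, true)], by show _ = e 2; rw [e2_eq]; simp [ev, stp, Lt.val],
      by simp [hc, Lt.hty]⟩
  · exact ⟨[(.s 1, false), (.n 0, false)], by show _ = e 3; rw [e3_eq]; simp [ev, stp, Lt.val],
      by simp [hc, Lt.hty]⟩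
  · exact ⟨[(.s 2, false), (.n 2, false)], by show _ = e 4; rw [e4_eq]; simp [ev, stp, Lt.val],
      by simp [hc, Lt.hty]⟩

theorem word2MN (w : List (Fin 5 × Bool)) : ∃ w' : Wd, ev w' = wv w ∧ hc 0 w' ≤ cntMN w := by
  induction w with
  | nil => exact ⟨[], by rw [ev_nil, wv_nilMN], le_rfl⟩
  | cons x w ih =>
    obtain ⟨w', h1, h2⟩ := ih
    obtain ⟨i, b⟩ := x
    obtain ⟨u, h3, h4⟩ := letter2MN i
    have hc1 : cntMN ((i, b) :: w) = (if i = 2 ∨ i = 3 then 1 else 0) + cntMN w := by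
      unfold cntMN
      rw [List.countP_cons, add_comm]
      simp
    have hw1 : ∀ y : Fin 5 × Bool, wv (y :: w) = wv [y] * wv w := fun y => by
      rw [← wv_appendMN]; rfl
    cases b
    · refine ⟨winv u ++ w', ?_, ?_⟩
      · rw [ev_append, ev_winv, h1, h3, hw1, wv_single_falseMN]
      · rw [hc_append, hc_winv, hc1]
        exact add_le_add h4 h2
    · refine ⟨u ++ w', ?_, ?_⟩
      · rw [ev_append, h1, h3, hw1, wv_singleMN]
      · rw [hc_append, hc1]
        exact add_le_add h4 h2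

theorem i0_eq (x : Pi) : i0 (ConjClasses.mk x) = inum 0 x := by
  apply le_antisymm
  · obtain ⟨g, w, hw, hk⟩ := exists_inum 0 x
    obtain ⟨w', h1, h2⟩ := word1MN w
    have h3 : i0 (ConjClasses.mk x) ≤ cntMN w' := by
      apply Nat.sInf_le
      refine ⟨w', ?_, rfl⟩
      rw [ConjClasses.mk_eq_mk_iff_isConj, isConj_iff]
      exact ⟨g, by rw [h1, hw]; group⟩
    omega
  · have hne : {k | ∃ w : List (Fin 5 × Bool), ConjClasses.mk (wv w) = ConjClasses.mk x ∧
        w.countP (fun a => a.1 = 2 ∨ a.1 = 3) = k}.Nonempty := by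
      obtain ⟨w, hw⟩ := ev_surj x
      obtain ⟨w', h1, -⟩ := word1MN w
      exact ⟨_, w', by rw [h1, hw], rfl⟩
    obtain ⟨w, h1, h2⟩ := Nat.sInf_mem hne
    rw [ConjClasses.mk_eq_mk_iff_isConj, isConj_iff] at h1
    obtain ⟨g, hg⟩ := h1
    obtain ⟨w', h3, h4⟩ := word2MN w
    have h5 : inum 0 x ≤ hc 0 w' := inum_le (g := g) (by rw [h3, ← hg]; group)
    calc inum 0 x ≤ hc 0 w' := h5
      _ ≤ cntMN w := h4
      _ = i0 (ConjClasses.mk x) := h2

theorem list_invMN {L : List Pi} (h : ∀ y ∈ L, y ∈ P1 ∨ y ∈ P2) :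
    ∃ L' : List Pi, (∀ y ∈ L', y ∈ P1 ∨ y ∈ P2) ∧ L'.prod = L.prod⁻¹ ∧ L'.length = L.length := by
  refine ⟨(L.map (fun x => x⁻¹)).reverse, ?_, ?_, by simp⟩
  · intro y hy
    rw [List.mem_reverse, List.mem_map] at hy
    obtain ⟨z, hz, rfl⟩ := hy
    rcases h z hz with h1 | h1
    · exact Or.inl (inv_mem h1)
    · exact Or.inr (inv_mem h1)
  · exact (List.prod_inv_reverse L).symm

theorem list_appMN {L L' : List Pi} (h : ∀ y ∈ L, y ∈ P1 ∨ y ∈ P2)
    (h' : ∀ y ∈ L', y ∈ P1 ∨ y ∈ P2) : ∀ y ∈ L ++ L', y ∈ P1 ∨ y ∈ P2 := by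
  intro y hy
  rcases List.mem_append.1 hy with h1 | h1
  · exact h y h1
  · exact h' y h1

theorem closure_P (x : Pi) : ∃ L : List Pi, (∀ y ∈ L, y ∈ P1 ∨ y ∈ P2) ∧ L.prod = x := by
  have hmul : ∀ a b : Pi, (∃ L : List Pi, (∀ y ∈ L, y ∈ P1 ∨ y ∈ P2) ∧ L.prod = a) →
      (∃ L : List Pi, (∀ y ∈ L, y ∈ P1 ∨ y ∈ P2) ∧ L.prod = b) →
      ∃ L : List Pi, (∀ y ∈ L, y ∈ P1 ∨ y ∈ P2) ∧ L.prod = a * b := by
    rintro a b ⟨L, h1, rfl⟩ ⟨L', h2, rfl⟩
    exact ⟨L ++ L', list_appMN h1 h2, List.prod_append⟩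
  have hinv : ∀ a : Pi, (∃ L : List Pi, (∀ y ∈ L, y ∈ P1 ∨ y ∈ P2) ∧ L.prod = a) →
      ∃ L : List Pi, (∀ y ∈ L, y ∈ P1 ∨ y ∈ P2) ∧ L.prod = a⁻¹ := by
    rintro a ⟨L, h1, rfl⟩
    obtain ⟨L', h2, h3, -⟩ := list_invMN h1
    exact ⟨L', h2, h3⟩
  have h1 : ∀ a ∈ P1, ∃ L : List Pi, (∀ y ∈ L, y ∈ P1 ∨ y ∈ P2) ∧ L.prod = a := fun a ha =>
    ⟨[a], by simp [ha], by simp⟩
  have h2 : ∀ a ∈ P2, ∃ L : List Pi, (∀ y ∈ L, y ∈ P1 ∨ y ∈ P2) ∧ L.prod = a := fun a ha =>
    ⟨[a], by simp [ha], by simp⟩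
  have g0 : e 0 ∈ P1 := Subgroup.subset_closure (by simp)
  have g4 : e 4 ∈ P1 := Subgroup.subset_closure (by simp)
  have ga : e 1 * e 0 * e 4 ∈ P2 := Subgroup.subset_closure (by simp)
  have gb : (e 0)⁻¹ * (e 4)⁻¹ * e 2 ∈ P2 := Subgroup.subset_closure (by simp)
  have k0 := h1 _ g0
  have k4 := h1 _ g4
  have k2 : ∃ L : List Pi, (∀ y ∈ L, y ∈ P1 ∨ y ∈ P2) ∧ L.prod = e 2 := by
    have h := hmul _ _ (h1 _ (mul_mem g4 g0)) (h2 _ gb)
    have h' : e 4 * e 0 * ((e 0)⁻¹ * (e 4)⁻¹ * e 2) = e 2 := by group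
    rwa [h'] at h
  have k1 : ∃ L : List Pi, (∀ y ∈ L, y ∈ P1 ∨ y ∈ P2) ∧ L.prod = e 1 := by
    have h := hmul _ _ (h2 _ ga) (h1 _ (inv_mem (mul_mem g0 g4)))
    have h' : e 1 * e 0 * e 4 * (e 0 * e 4)⁻¹ = e 1 := by group
    rwa [h'] at h
  have k3 : ∃ L : List Pi, (∀ y ∈ L, y ∈ P1 ∨ y ∈ P2) ∧ L.prod = e 3 := by
    have h := hmul _ _ (hinv _ (hmul _ _ (hmul _ _ k0 k1) k2)) (hinv _ k4)
    have h' : (e 0 * e 1 * e 2)⁻¹ * (e 4)⁻¹ = e 3 := by
      have h3 := e_rel1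
      calc (e 0 * e 1 * e 2)⁻¹ * (e 4)⁻¹ =
          (e 0 * e 1 * e 2)⁻¹ * (e 0 * e 1 * e 2 * e 3 * e 4) * (e 4)⁻¹ := by
            rw [h3]; group
        _ = e 3 := by group
    rwa [h'] at h
  obtain ⟨y, rfl⟩ := PresentedGroup.mk_surjective rels x
  induction y using FreeGroup.induction_on with
  | C1 => exact ⟨[], by simp, by rw [map_one]; rfl⟩
  | of i =>
    show ∃ L : List Pi, (∀ y ∈ L, y ∈ P1 ∨ y ∈ P2) ∧ L.prod = e i
    fin_cases i
    · exact k0
    · exact k1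
    · exact k2
    · exact k3
    · exact k4
  | inv_of i ih => rw [map_inv]; exact hinv _ ih
  | mul a b iha ihb => rw [map_mul]; exact hmul _ _ iha ihb

theorem is_le (θ : Pi →* Pi) : ∃ C : ℕ, ∀ x : Pi,
    is (ConjClasses.mk (θ x)) ≤ C * (ell x + jnum 0 x + jnum 1 x) := by
  choose A hA hAp using fun l : Lt => closure_P (θ l.val)
  have hC : ∀ l : Lt, (A l).length ≤ ∑ j : Fin 3, ((A (.s j)).length + (A (.n j)).length) := by
    intro l
    cases l with
    | s j =>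
      calc (A (.s j)).length ≤ (A (.s j)).length + (A (.n j)).length := Nat.le_add_right _ _
        _ ≤ _ := Finset.single_le_sum (f := fun j : Fin 3 => (A (.s j)).length + (A (.n j)).length)
          (fun _ _ => Nat.zero_le _) (Finset.mem_univ j)
    | n j =>
      calc (A (.n j)).length ≤ (A (.s j)).length + (A (.n j)).length := Nat.le_add_left _ _
        _ ≤ _ := Finset.single_le_sum (f := fun j : Fin 3 => (A (.s j)).length + (A (.n j)).length)
          (fun _ _ => Nat.zero_le _) (Finset.mem_univ j)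
  refine ⟨∑ j : Fin 3, ((A (.s j)).length + (A (.n j)).length), fun x => ?_⟩
  have key : ∀ w : Wd, ∃ L : List Pi, (∀ y ∈ L, y ∈ P1 ∨ y ∈ P2) ∧ L.prod = θ (ev w) ∧
      L.length ≤ (∑ j : Fin 3, ((A (.s j)).length + (A (.n j)).length)) * w.length := by
    intro w
    induction w with
    | nil => exact ⟨[], by simp, by rw [ev_nil, map_one]; rfl, by simp⟩
    | cons y w ih =>
      obtain ⟨L, h1, h2, h3⟩ := ih
      obtain ⟨l, b⟩ := y
      cases b
      · obtain ⟨L', h4, h5, h6⟩ := list_invMN (hA l)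
        refine ⟨L' ++ L, list_appMN h4 h1, ?_, ?_⟩
        · rw [List.prod_append, h5, h2, hAp, ev_cons, map_mul, ← map_inv]
          rfl
        · rw [List.length_append, List.length_cons, mul_add, mul_one, h6, add_comm]
          exact add_le_add h3 (hC l)
      · refine ⟨A l ++ L, list_appMN (hA l) h1, ?_, ?_⟩
        · rw [List.prod_append, h2, hAp, ev_cons, map_mul]
          rfl
        · rw [List.length_append, List.length_cons, mul_add, mul_one, add_comm]
          exact add_le_add h3 (hC l)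
  obtain ⟨g, w, hw, h1, h2⟩ := exists_min_word x
  obtain ⟨L, h3, h4, h5⟩ := key w
  have h6 : is (ConjClasses.mk (θ x)) ≤ if L.length ≤ 1 then 0 else L.length := by
    apply Nat.sInf_le
    refine ⟨L, h3, ?_, rfl⟩
    rw [ConjClasses.mk_eq_mk_iff_isConj, isConj_iff]
    exact ⟨θ g, by rw [h4, hw, map_mul, map_mul, map_inv]; group⟩
  have h7 : (if L.length ≤ 1 then 0 else L.length) ≤ L.length := by
    split_ifs
    · exact Nat.zero_le _
    · exact le_rfl
  have h8 : w.length = ell x + jnum 0 x + jnum 1 x := by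
    rw [length_eq, nc, sc, h1, h1, h2, h2, ell]
    omega
  rw [h8] at h5
  exact (h6.trans h7).trans h5

end Pool.Agent.VSB.M
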