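import Pool.Agent.VSB.Homol

/-! # VSB/Plane: symplectic linear algebra

`X, Y, X', Y'` is the image of the symplectic basis `a, d, c + d, -b` (`a, b, c, d` the coordinate vectors 0, 1, 2, 3) under
`P`; `M` preserves `om`. For every alternating form `β` which vanishes on the bivector
`a ∧ d + b ∧ c + b ∧ d = X ∧ Y + X' ∧ Y'` we have `β (M X) (M Y) = ε β X Y`.

PROOF. Write `M X = x₁ X + x₂ Y + x₃ X' + x₄ Y'`, `M Y = y₁ X + ...` (integer coefficients: `P` is invertible), and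
`m i j = x i y j - x j y i`. The forms `β` dual to `X ∧ X'`, `X ∧ Y'`, `Y ∧ X'`, `Y ∧ Y'` are admissible and vanish on `X ∧ Y`:
`m 1 3 = m 1 4 = m 2 3 = m 2 4 = 0`; the form `X ∧ Y - X' ∧ Y'` (dual) is admissible: `m 1 2 - m 3 4 = ε`. Since
`m 1 2 m 3 4 - m 1 3 m 2 4 + m 1 4 m 2 3 = 0`, one of `m 1 2`, `m 3 4` is `0`. If `m 3 4 = 0` then `m 1 2 = ± 1` and the vanishing of the
other minors gives `x₃ = y₃ = x₄ = y₄ = 0`. If `m 1 2 = 0` then `x₁ = y₁ = x₂ = y₂ = 0`, `M` maps `⟨X, Y⟩` onto `⟨X', Y'⟩` and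
hence (`M` preserves `om`) `⟨X', Y'⟩ = ⟨X, Y⟩^⊥` into `⟨X, Y⟩`. In both cases `M ^ 2` preserves `⟨X, Y⟩`, and
`om (M M X) (M M Y) = om X Y = 1` gives the determinant. The dual forms: `β = b ∘ P⁻¹` for `b` explicit in coordinates;
admissibility of `β` is admissibility of `b` because `P` preserves the bivector `a ∧ d + b ∧ c + b ∧ d`, the inverse of
`om`; this is the only place where `om (P v) (P w) = om v w` is used: prove `∑ over the bivector` by expressing it through the dual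
basis of `om` (or by a direct computation with the 4×4 matrix `P`, `Pᵀ Ω P = Ω → P Ω⁻¹ Pᵀ = Ω⁻¹`). -/

set_option autoImplicit false

namespace Pool.Agent.VSB

/-- the matrix of the intersection form -/
def OmM : Matrix (Fin 4) (Fin 4) ℤ := !![0, 0, -1, 1; 0, 0, 1, 0; 1, -1, 0, 0; -1, 0, 0, 0]

/-- the matrix of the bivector `a ∧ d + b ∧ c + b ∧ d` -/
def EEM : Matrix (Fin 4) (Fin 4) ℤ := !![0, 0, 0, 1; 0, 0, 1, 1; 0, -1, 0, 0; -1, -1, 0, 0]

theorem OmM_mul : OmM * (-EEM) = 1 := by decide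

theorem om_eq (v w : Fin 4 → ℤ) : om v w = ∑ k, ∑ l, v k * OmM k l * w l := by
  simp only [Fin.sum_univ_four, OmM, om, Matrix.of_apply, Matrix.cons_val', Matrix.cons_val]
  ring

/-- a matrix preserving the form preserves the bivector -/
theorem bivector (U : Fin 4 → Fin 4 → ℤ) (hU : ∀ i j, om (U i) (U j) = OmM i j) (k l : Fin 4) :
    (U 1 k * U 2 l - U 1 l * U 2 k) + (U 1 k * U 3 l - U 1 l * U 3 k) +
      (U 0 k * U 3 l - U 0 l * U 3 k) = EEM k l := by
  let W : Matrix (Fin 4) (Fin 4) ℤ := Matrix.of fun k i => U i k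
  have h1 : W.transpose * OmM * W = OmM := by
    ext i j
    rw [← hU i j, om_eq]
    simp only [Matrix.mul_apply, Matrix.transpose_apply, W, Matrix.of_apply, Finset.sum_mul]
    rw [Finset.sum_comm]
  have h2 : (W.transpose * OmM) * (W * -EEM) = 1 := by
    rw [← Matrix.mul_assoc, h1, OmM_mul]
  have h3 : (W * -EEM) * (W.transpose * OmM) = 1 := mul_eq_one_comm.1 h2
  have h4 : W * EEM * W.transpose = EEM := by
    have h5 : (W * -EEM) * W.transpose = -EEM := by
      calc (W * -EEM) * W.transpose = (W * -EEM) * W.transpose * (OmM * -EEM) := by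
            rw [OmM_mul, Matrix.mul_one]
        _ = (W * -EEM) * (W.transpose * OmM) * -EEM := by simp only [Matrix.mul_assoc]
        _ = -EEM := by rw [h3, Matrix.one_mul]
    rw [Matrix.mul_neg, Matrix.neg_mul] at h5
    exact neg_injective h5
  have h6 := congrFun (congrFun h4 k) l
  rw [← h6]
  simp only [Matrix.mul_apply, Matrix.transpose_apply, W, Matrix.of_apply, Fin.sum_univ_four, EEM,
    Matrix.cons_val', Matrix.cons_val]
  ring

/-- an alternating form with given coefficients -/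
def frm (c : Fin 6 → ℤ) (v w : Fin 4 → ℤ) : ℤ :=
  c 0 * (v 0 * w 1 - v 1 * w 0) + c 1 * (v 0 * w 2 - v 2 * w 0) + c 2 * (v 0 * w 3 - v 3 * w 0) +
    c 3 * (v 1 * w 2 - v 2 * w 1) + c 4 * (v 1 * w 3 - v 3 * w 1) + c 5 * (v 2 * w 3 - v 3 * w 2)

/-- the form `frm c` composed with an additive map -/
def bet (c : Fin 6 → ℤ) (Q : (Fin 4 → ℤ) ≃+ (Fin 4 → ℤ)) :
    (Fin 4 → ℤ) →ₗ[ℤ] (Fin 4 → ℤ) →ₗ[ℤ] ℤ :=
  LinearMap.mk₂ ℤ (fun v w => frm c (Q v) (Q w))
    (fun v v' w => by simp only [map_add, frm, Pi.add_apply]; ring)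
    (fun t v w => by simp only [map_zsmul, frm, Pi.smul_apply, smul_eq_mul]; ring)
    (fun v w w' => by simp only [map_add, frm, Pi.add_apply]; ring)
    (fun t v w => by simp only [map_zsmul, frm, Pi.smul_apply, smul_eq_mul]; ring)

theorem bet_apply (c : Fin 6 → ℤ) (Q : (Fin 4 → ℤ) ≃+ (Fin 4 → ℤ)) (v w : Fin 4 → ℤ) :
    bet c Q v w = frm c (Q v) (Q w) := rfl

/-- the heart: the images of the two basis vectors -/
theorem plane_aux (N : (Fin 4 → ℤ) ≃+ (Fin 4 → ℤ)) (hN : ∀ v w, om (N v) (N w) = om v w)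
    (ε : ℤ) (hε : ε = 1 ∨ ε = -1)
    (h : ∀ c : Fin 6 → ℤ, c 3 + c 4 + c 2 = 0 →
      frm c (N ![1, 0, 0, 0]) (N ![0, 0, 0, 1]) = ε * c 2) :
    (N (N ![1, 0, 0, 0])) 1 = 0 ∧ (N (N ![1, 0, 0, 0])) 2 = 0 ∧
      (N (N ![0, 0, 0, 1])) 1 = 0 ∧ (N (N ![0, 0, 0, 1])) 2 = 0 := by
  set p := N ![1, 0, 0, 0] with hp
  set q := N ![0, 0, 0, 1] with hq
  have h01 := h ![1, 0, 0, 0, 0, 0] (by decide)
  have h02 := h ![0, 1, 0, 0, 0, 0] (by decide)
  have h23 := h ![0, 0, 0, 0, 0, 1] (by decide)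
  have h12 := h ![0, 0, 0, 1, -1, 0] (by decide)
  have h03 := h ![0, 0, 1, -1, 0, 0] (by decide)
  have hom : om p q = 1 := by
    rw [hp, hq, hN]; decide
  simp only [frm, om, Matrix.cons_val, zero_mul, one_mul, zero_add, add_zero, mul_zero, mul_one,
    neg_mul] at h01 h02 h23 h12 h03 hom
  -- decomposition of a vector
  have dec : ∀ v : Fin 4 → ℤ, v = v 0 • ![1, 0, 0, 0] + v 1 • ![0, 1, 0, 0] +
      v 2 • ![0, 0, 1, 0] + v 3 • ![0, 0, 0, 1] := by
    intro v
    funext i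
    fin_cases i <;> simp
  rcases hε with rfl | rfl
  · -- the plane is preserved
    have m03 : p 0 * q 3 - p 3 * q 0 = 1 := by linarith
    have m12 : p 1 * q 2 - p 2 * q 1 = 0 := by linarith
    have m13 : p 1 * q 3 - p 3 * q 1 = 0 := by linarith
    have p1 : p 1 = 0 := by linear_combination p 3 * h01 + p 0 * m13 - p 1 * m03
    have q1 : q 1 = 0 := by linear_combination q 3 * h01 + q 0 * m13 - q 1 * m03
    have p2 : p 2 = 0 := by linear_combination p 3 * h02 + p 0 * h23 - p 2 * m03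
    have q2 : q 2 = 0 := by linear_combination q 3 * h02 + q 0 * h23 - q 2 * m03
    have e1 : N p = p 0 • p + p 3 • q := by
      conv_lhs => rw [dec p, p1, p2]
      simp only [map_add, map_zsmul, zero_smul, add_zero]
      rw [← hp, ← hq]
    have e2 : N q = q 0 • p + q 3 • q := by
      conv_lhs => rw [dec q, q1, q2]
      simp only [map_add, map_zsmul, zero_smul, add_zero]
      rw [← hp, ← hq]
    rw [e1, e2]
    simp [p1, p2, q1, q2]
  · -- the plane is exchanged with its orthogonal complement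
    have m03 : p 0 * q 3 - p 3 * q 0 = 0 := by linarith
    have m12 : p 1 * q 2 - p 2 * q 1 = 1 := by linarith
    have m13 : p 1 * q 3 - p 3 * q 1 = 1 := by linarith
    have p0 : p 0 = 0 := by linear_combination p 1 * h02 - p 2 * h01 - p 0 * m12
    have q0 : q 0 = 0 := by linear_combination q 1 * h02 - q 2 * h01 - q 0 * m12
    have p23 : p 2 - p 3 = 0 := by
      linear_combination p 1 * h23 - (p 2 - p 3) * m12 + p 2 * (m12 - m13)
    have q23 : q 2 - q 3 = 0 := by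
      linear_combination q 1 * h23 - (q 2 - q 3) * m12 + q 2 * (m12 - m13)
    have e1 : p = p 1 • ![0, 1, 0, 0] + p 2 • ![0, 0, 1, 1] := by
      funext i
      fin_cases i <;> (simp [p0]; try linarith)
    have e2 : q = q 1 • ![0, 1, 0, 0] + q 2 • ![0, 0, 1, 1] := by
      funext i
      fin_cases i <;> (simp [q0]; try linarith)
    set r := N ![0, 1, 0, 0] with hr
    set s := N ![0, 0, 1, 1] with hs
    have r1 : om p r = 0 := by rw [hp, hr, hN]; decide
    have r2 : om q r = 0 := by rw [hq, hr, hN]; decide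
    have s1 : om p s = 0 := by rw [hp, hs, hN]; decide
    have s2 : om q s = 0 := by rw [hq, hs, hN]; decide
    simp only [om, p0, q0] at r1 r2 s1 s2
    have p3 : p 3 = p 2 := by linarith
    have q3 : q 3 = q 2 := by linarith
    rw [p3] at r1 s1
    rw [q3] at r2 s2
    have rr1 : r 1 = 0 := by linear_combination q 1 * r1 - p 1 * r2 - r 1 * m12
    have rr2 : r 2 = 0 := by linear_combination q 2 * r1 - p 2 * r2 - r 2 * m12
    have ss1 : s 1 = 0 := by linear_combination q 1 * s1 - p 1 * s2 - s 1 * m12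
    have ss2 : s 2 = 0 := by linear_combination q 2 * s1 - p 2 * s2 - s 2 * m12
    have e3 : N p = p 1 • r + p 2 • s := by
      conv_lhs => rw [e1]
      simp only [map_add, map_zsmul]
      rw [← hr, ← hs]
    have e4 : N q = q 1 • r + q 2 • s := by
      conv_lhs => rw [e2]
      simp only [map_add, map_zsmul]
      rw [← hr, ← hs]
    rw [e3, e4]
    simp [rr1, rr2, ss1, ss2]

theorem plane (P M : (Fin 4 → ℤ) ≃+ (Fin 4 → ℤ)) (hP : ∀ v w, om (P v) (P w) = om v w)
    (hM : ∀ v w, om (M v) (M w) = om v w) (ε : ℤ) (hε : ε = 1 ∨ ε = -1)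
    (h : ∀ β : (Fin 4 → ℤ) →ₗ[ℤ] (Fin 4 → ℤ) →ₗ[ℤ] ℤ, (∀ v, β v v = 0) →
      β ![0, 1, 0, 0] ![0, 0, 1, 0] + β ![0, 1, 0, 0] ![0, 0, 0, 1] +
        β ![1, 0, 0, 0] ![0, 0, 0, 1] = 0 →
      β (M (P ![1, 0, 0, 0])) (M (P ![0, 0, 0, 1])) =
        ε * β (P ![1, 0, 0, 0]) (P ![0, 0, 0, 1])) :
    ∃ a b c d : ℤ, a * d - b * c = 1 ∧
      M (M (P ![1, 0, 0, 0])) = a • P ![1, 0, 0, 0] + b • P ![0, 0, 0, 1] ∧
      M (M (P ![0, 0, 0, 1])) = c • P ![1, 0, 0, 0] + d • P ![0, 0, 0, 1] := by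
  have hPs : ∀ v w, om (P.symm v) (P.symm w) = om v w := by
    intro v w
    rw [← hP, P.apply_symm_apply, P.apply_symm_apply]
  let N : (Fin 4 → ℤ) ≃+ (Fin 4 → ℤ) := (P.trans M).trans P.symm
  have hNv : ∀ v, N v = P.symm (M (P v)) := fun v => rfl
  have hN : ∀ v w, om (N v) (N w) = om v w := by
    intro v w
    rw [hNv, hNv, hPs, hM, hP]
  have hPN : ∀ v, P (N v) = M (P v) := by
    intro v
    rw [hNv, P.apply_symm_apply]
  -- the bivector is preserved by `P.symm`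
  let E : Fin 4 → Fin 4 → ℤ := ![![1, 0, 0, 0], ![0, 1, 0, 0], ![0, 0, 1, 0], ![0, 0, 0, 1]]
  have hU : ∀ i j, om (P.symm (E i)) (P.symm (E j)) = OmM i j := by
    intro i j
    rw [hPs]
    fin_cases i <;> fin_cases j <;> rfl
  have hbv := bivector (fun i => P.symm (E i)) hU
  have key : ∀ c : Fin 6 → ℤ, c 3 + c 4 + c 2 = 0 →
      frm c (N ![1, 0, 0, 0]) (N ![0, 0, 0, 1]) = ε * c 2 := by
    intro c hc
    have h1 := h (bet c P.symm) (fun v => by rw [bet_apply, frm]; ring) (by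
      rw [bet_apply, bet_apply, bet_apply]
      have b01 := hbv 0 1
      have b02 := hbv 0 2
      have b03 := hbv 0 3
      have b12 := hbv 1 2
      have b13 := hbv 1 3
      have b23 := hbv 2 3
      have e0 : E 0 = ![1, 0, 0, 0] := rfl
      have e1 : E 1 = ![0, 1, 0, 0] := rfl
      have e2 : E 2 = ![0, 0, 1, 0] := rfl
      have e3 : E 3 = ![0, 0, 0, 1] := rfl
      have g01 : EEM 0 1 = 0 := rfl
      have g02 : EEM 0 2 = 0 := rfl
      have g03 : EEM 0 3 = 1 := rfl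
      have g12 : EEM 1 2 = 1 := rfl
      have g13 : EEM 1 3 = 1 := rfl
      have g23 : EEM 2 3 = 0 := rfl
      rw [g01] at b01
      rw [g02] at b02
      rw [g03] at b03
      rw [g12] at b12
      rw [g13] at b13
      rw [g23] at b23
      simp only [e0, e1, e2, e3] at b01 b02 b03 b12 b13 b23
      simp only [frm]
      linear_combination c 0 * b01 + c 1 * b02 + c 2 * b03 + c 3 * b12 + c 4 * b13 + c 5 * b23 + hc)
    rw [bet_apply, bet_apply, P.symm_apply_apply, P.symm_apply_apply] at h1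
    rw [← hNv, ← hNv] at h1
    rw [h1]
    congr 1
    simp [frm]
  obtain ⟨a1, a2, a3, a4⟩ := plane_aux N hN ε hε key
  have hdec : ∀ v : Fin 4 → ℤ, v 1 = 0 → v 2 = 0 →
      v = v 0 • ![1, 0, 0, 0] + v 3 • ![0, 0, 0, 1] := by
    intro v h1 h2
    funext i
    fin_cases i <;> simp [h1, h2]
  refine ⟨N (N ![1, 0, 0, 0]) 0, N (N ![1, 0, 0, 0]) 3, N (N ![0, 0, 0, 1]) 0,
    N (N ![0, 0, 0, 1]) 3, ?_, ?_, ?_⟩
  · have h1 : om (N (N ![1, 0, 0, 0])) (N (N ![0, 0, 0, 1])) = 1 := by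
      rw [hN, hN]; decide
    simp only [om, a1, a2, a3, a4] at h1
    linarith
  · rw [← hPN, ← hPN]
    conv_lhs => rw [hdec _ a1 a2]
    rw [map_add, map_zsmul, map_zsmul]
  · rw [← hPN, ← hPN]
    conv_lhs => rw [hdec _ a3 a4]
    rw [map_add, map_zsmul, map_zsmul]

end Pool.Agent.VSB
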