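import Pool.Agent.VSB.NonSep
import Pool.Agent.VSB.Heis
import Pool.Agent.VSB.Plane

/-! # VSB/SepCurve: hyperbolic affine elements fix no separating curve

PROOF. Suppose `alpha (h ^ m) (ψ ⁅S 2, N 1⁆)` is conjugate to `(ψ ⁅S 2, N 1⁆) ^ ε`. Put `M = hmap (alpha (h ^ m))`, `P = hmap ψ`; both
preserve `om` (`OP_aR`, `OP_aS`, `hk_induction`, `hv_surjective`), `hv (S 2) = ![1,0,0,0]`, `hv (N 1) = ![0,0,0,1]`. `comm_conj` with
`x = ψ (S 2)`, `y = ψ (N 1)`, `x' = alpha (h ^ m) x`, `y' = alpha (h ^ m) y` gives the hypothesis of `plane`. So with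
`X = P ![1,0,0,0]`, `Y = P ![0,0,0,1]`: `M² X = a X + b Y`, `M² Y = c X + d Y`, `a d - b c = 1`, integers. Let
`A = mu (h ^ (2 m))`, `v = hvec X`, `w = hvec Y`: `A v = a v + b w`, `A w = c v + d w`, hence
`A² v - (a + d) A v + v = 0`; also `A² - tr A • A + 1 = 0` (`det A = 1`). So `(tr A - (a + d)) A v = 0`, `A v ≠ 0`
(`hvec_ne_zero`, `P` injective), `tr A = a + d ∈ ℤ`. But `tr A = ± (a' + b' λ)` with `b' ≥ 1` (`trace_conj_pow`) is irrational. -/

set_option autoImplicit false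

open scoped commutatorElement

namespace Pool.Agent.VSB

theorem OP_alpha (h : Hk) : OP (alpha h) := by
  refine hk_induction (P := fun h => OP (alpha h)) ?_ ?_ ?_ h
  · intro x y
    rw [map_one]
    rfl
  · intro h ih
    rw [map_mul, alpha_rr]
    exact ih.mul OP_aR
  · intro h ih
    rw [map_mul, alpha_ss]
    exact ih.mul OP_aS

private theorem om_hmapSC {ψ : MulAut Pi} (hψ : OP ψ) (v w : Fin 4 → ℤ) :
    om (hmap ψ v) (hmap ψ w) = om v w := by
  obtain ⟨x, rfl⟩ := hv_surjective v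
  obtain ⟨y, rfl⟩ := hv_surjective w
  rw [← hv_aut, ← hv_aut]
  exact hψ x y

private theorem hvec_linSC (a b : ℤ) (X Y : Fin 4 → ℤ) :
    hvec (a • X + b • Y) = (a : ℝ) • hvec X + (b : ℝ) • hvec Y := by
  funext i
  fin_cases i
  · simp [hvec]
    ring
  · simp [hvec]
    ring

private theorem cayleySC (A : Matrix (Fin 2) (Fin 2) ℝ) (hA : A.det = 1) (v : Fin 2 → ℝ) :
    A.mulVec (A.mulVec v) = A.trace • A.mulVec v - v := by
  rw [Matrix.det_fin_two] at hA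
  funext i
  fin_cases i
  · simp only [Matrix.mulVec, dotProduct, Fin.sum_univ_two, Matrix.trace_fin_two, Pi.sub_apply,
      Pi.smul_apply, smul_eq_mul, Fin.zero_eta]
    linear_combination (-(v 0)) * hA
  · simp only [Matrix.mulVec, dotProduct, Fin.sum_univ_two, Matrix.trace_fin_two, Pi.sub_apply,
      Pi.smul_apply, smul_eq_mul, Fin.mk_one]
    linear_combination (-(v 1)) * hA

private theorem keySC {h g : Hk} {ε : ℕ} {ks : List (Fin 4)} (hk : Hyp ks)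
    (hh : h = g * (zz ^ ε * sw ks) * g⁻¹) {m : ℕ} (hm : 1 ≤ m) (ψ : MulAut Pi)
    (a b c d : ℤ) (hdet : a * d - b * c = 1)
    (h1 : hmap (alpha (h ^ m)) (hmap (alpha (h ^ m)) (hmap ψ ![1, 0, 0, 0])) =
      a • hmap ψ ![1, 0, 0, 0] + b • hmap ψ ![0, 0, 0, 1])
    (h2 : hmap (alpha (h ^ m)) (hmap (alpha (h ^ m)) (hmap ψ ![0, 0, 0, 1])) =
      c • hmap ψ ![1, 0, 0, 0] + d • hmap ψ ![0, 0, 0, 1]) : False := by
  obtain ⟨a', b', s, hs, hb', -, htr⟩ := trace_conj_pow hk hh (m := m * 2) (by omega)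
  set X := hmap ψ ![1, 0, 0, 0] with hX
  set Y := hmap ψ ![0, 0, 0, 1] with hY
  set A : Matrix (Fin 2) (Fin 2) ℝ := (mu (h ^ (m * 2)) : Matrix (Fin 2) (Fin 2) ℝ) with hA
  have hAA : A = (mu (h ^ m) : Matrix (Fin 2) (Fin 2) ℝ) * (mu (h ^ m) : Matrix (Fin 2) (Fin 2) ℝ) := by
    rw [hA, pow_mul, pow_two, map_mul, Matrix.SpecialLinearGroup.coe_mul]
  have hact : ∀ v, hvec (hmap (alpha (h ^ m)) (hmap (alpha (h ^ m)) v)) = A.mulVec (hvec v) := by
    intro v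
    rw [hvec_hmap, hvec_hmap, Matrix.mulVec_mulVec, hAA]
  have hv1 : A.mulVec (hvec X) = (a : ℝ) • hvec X + (b : ℝ) • hvec Y := by
    rw [← hact, h1, hvec_linSC]
  have hw1 : A.mulVec (hvec Y) = (c : ℝ) • hvec X + (d : ℝ) • hvec Y := by
    rw [← hact, h2, hvec_linSC]
  have hdetA : A.det = 1 := (mu (h ^ (m * 2))).2
  have hX0 : X ≠ 0 := by
    intro h0
    rw [hX, map_eq_zero_iff (hmap ψ) (hmap ψ).injective] at h0
    have := congrFun h0 0
    simp at this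
  have hvX : hvec X ≠ 0 := hvec_ne_zero hX0
  have hcay := cayleySC A hdetA (hvec X)
  have hdet' : (a : ℝ) * d - b * c = 1 := by exact_mod_cast hdet
  have hAv : A.mulVec (hvec X) ≠ 0 := by
    intro h0
    rw [h0, Matrix.mulVec_zero, smul_zero, zero_sub, eq_comm, neg_eq_zero] at hcay
    exact hvX hcay
  have hsq : A.mulVec (A.mulVec (hvec X)) = ((a : ℝ) + d) • A.mulVec (hvec X) - hvec X := by
    rw [hv1, Matrix.mulVec_add, Matrix.mulVec_smul, Matrix.mulVec_smul, hv1, hw1]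
    funext i
    simp only [Pi.add_apply, Pi.sub_apply, Pi.smul_apply, smul_eq_mul]
    linear_combination (-(hvec X i)) * hdet'
  have hz : (A.trace - ((a : ℝ) + d)) • A.mulVec (hvec X) = 0 := by
    rw [hsq] at hcay
    rw [sub_smul]
    have := sub_left_injective hcay
    rw [← this, sub_self]
  have htr2 : A.trace = (a : ℝ) + d := by
    rcases smul_eq_zero.mp hz with h0 | h0
    · linarith
    · exact absurd h0 hAv
  rw [htr2] at htr
  have hirr : Irrational lam := Real.goldenRatio_irrational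
  have hb0 : (b' : ℝ) ≠ 0 := by
    have : 0 < b' := hb'
    exact_mod_cast this.ne'
  have hlam : lam = (((s * (a + d) - a' : ℤ) : ℝ)) / ((b' : ℤ) : ℝ) := by
    rw [eq_div_iff (by exact_mod_cast hb0)]
    push_cast
    have hss : (s : ℝ) * s = 1 := by
      rcases hs with rfl | rfl <;> norm_num
    linear_combination (-(s : ℝ)) * htr - (a' + b' * lam) * hss
  apply hirr
  exact ⟨((s * (a + d) - a' : ℤ) : ℚ) / ((b' : ℤ) : ℚ), by rw [hlam]; push_cast; rfl⟩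

theorem sepcurve {h g : Hk} {ε : ℕ} {ks : List (Fin 4)} (hk : Hyp ks)
    (hh : h = g * (zz ^ ε * sw ks) * g⁻¹) {m : ℕ} (hm : 1 ≤ m) (ψ : MulAut Pi) (hψ : OP ψ) (w : Pi) :
    alpha (h ^ m) (ψ ⁅S 2, N 1⁆) ≠ w * ψ ⁅S 2, N 1⁆ * w⁻¹ ∧
    alpha (h ^ m) (ψ ⁅S 2, N 1⁆) ≠ w * (ψ ⁅S 2, N 1⁆)⁻¹ * w⁻¹ := by
  have hcv0 : cv 0 = ![1, 0, 0, 0] := by funext i; fin_cases i <;> rfl
  have hcv1 : cv 1 = ![0, 1, 0, 0] := by funext i; fin_cases i <;> rfl
  have hcv2 : cv 2 = ![0, 0, 1, 0] := by funext i; fin_cases i <;> rfl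
  have hcv3 : cv 3 = ![0, 0, 0, 1] := by funext i; fin_cases i <;> rfl
  have hx : hv (ψ (S 2)) = hmap ψ ![1, 0, 0, 0] := by rw [hv_aut, hv_S2]
  have hy : hv (ψ (N 1)) = hmap ψ ![0, 0, 0, 1] := by rw [hv_aut, hv_N1]
  have hP := om_hmapSC hψ
  have hM := om_hmapSC (OP_alpha (h ^ m))
  constructor
  · intro heq
    rw [map_commutatorElement ψ, map_commutatorElement (alpha (h ^ m))] at heq
    obtain ⟨a, b, c, d, hdet, h1, h2⟩ := plane (hmap ψ) (hmap (alpha (h ^ m))) hP hM 1 (Or.inl rfl)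
      (fun β ha hβ => by
        have hc := (comm_conj β ha (by rw [hcv0, hcv1, hcv2, hcv3]; exact hβ) (ψ (S 2)) (ψ (N 1))
          (alpha (h ^ m) (ψ (S 2))) (alpha (h ^ m) (ψ (N 1))) w).1 heq
        rw [hv_aut, hv_aut (alpha (h ^ m)) (ψ (N 1)), hx, hy] at hc
        rw [hc, one_mul])
    exact keySC hk hh hm ψ a b c d hdet h1 h2
  · intro heq
    rw [map_commutatorElement ψ, map_commutatorElement (alpha (h ^ m))] at heq
    obtain ⟨a, b, c, d, hdet, h1, h2⟩ := plane (hmap ψ) (hmap (alpha (h ^ m))) hP hM (-1) (Or.inr rfl)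
      (fun β ha hβ => by
        have hc := (comm_conj β ha (by rw [hcv0, hcv1, hcv2, hcv3]; exact hβ) (ψ (S 2)) (ψ (N 1))
          (alpha (h ^ m) (ψ (S 2))) (alpha (h ^ m) (ψ (N 1))) w).2 heq
        rw [hv_aut, hv_aut (alpha (h ^ m)) (ψ (N 1)), hx, hy] at hc
        rw [hc, neg_one_mul])
    exact keySC hk hh hm ψ a b c d hdet h1 h2

end Pool.Agent.VSB
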