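import Pool.Agent.VSB.MNum
import Pool.Agent.VSB.SepCurve
import Pool.Agent.VSB.HkAb
import Pool.Agent.VSB.Grow

/-! # VSB/MPA: pseudo-Anosov mapping classes of the model

* `mk_pow`: `mcl ψ hψ ^ n = mcl (ψ ^ n) _` (induction, `QuotientGroup.mk_mul`, or `Subtype.ext` and `rfl`-lemmas).
* `PA_of`: unfold `PA`, `Ess`. An essential class is `χ • mk (e 0)` or `χ • mk ⁅_, _⁆` with `χ = mcl χ' hχ'`
(every element of `MCG` is of this form: `exists_mcl`), i.e. the class of `χ' (e 0)` resp. `χ' ⁅S 2, N 1⁆` (`sep_eq`),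
`e 0 = S 2`. If `ConjClasses.mk x` is this class then `x = u * χ' _ * u⁻¹`, and equality of classes
`mk ((ψ ^ n) x) = mk x` resp. `mk x⁻¹` gives `(ψ ^ n) (χ' _) = w * (χ' _)^{±1} * w⁻¹` for some `w`.
* `PA_conj`: `(g * a * g⁻¹) ^ n = g * a ^ n * g⁻¹` and `Ess` is stable under `MCG`; for the inverse class note
`(h • mk x⁻¹ = mk (h x)⁻¹)`: write `g = mcl ψ hψ`, `x = ψ (ψ⁻¹ x)`.
* `PA_of_all`: essential classes are not trivial: `e 0 = S 2 ≠ 1`, `⁅S 2, N 1⁆ ≠ 1`. For `S 2`: `hv (S 2) ≠ 0`. For the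
commutator: file Heis: `exists_kappa` with a form `β` satisfying the relation and `β (hv (S 2)) (hv (N 1)) ≠ 0`,
e.g. `β v w = om`-like: `β (cv 0) (cv 3) = 1`, `β (cv 1) (cv 2) = -1`, antisymmetric, all others `0`; `comm_conj` or `HG.comm_eq` shows
that the commutator is not `1` (`2 ≠ 0`). Automorphisms are injective, so `χ' (e 0) ≠ 1` etc.; then apply `PA_of`.
* `nonsep_gen`: literally the proof of `nonsep` (file NonSep) with `hv x ≠ 0` instead of `hv_S0`.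
* `PA_hyp`: `PA_of` with `nonsep_gen` for `x = χ (S 2)` (`hv (χ (S 2)) = hmap χ (hv (S 2)) ≠ 0`, `hv_S2`) and `sepcurve`
(`OPAut_iff`); `(alpha h) ^ n = alpha (h ^ n)`.
* `not_PA_dA`: `dA ^ k = zz ^ ε * tt ^ (10 k)` up to order (`zz` central); `alpha` of it maps `S 2` to `S 2` or to
`aI (S 2) = (S 2)⁻¹`; so its square fixes the essential class of `e 0 = S 2` (`n = 2` in the definition of `PA`,
`Ess` with `χ = 1`). -/

set_option autoImplicit false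

open scoped commutatorElement

namespace Pool.Agent.VSB.M

theorem exists_mcl (χ : MCG) : ∃ (ψ : MulAut Pi) (h : ψ ∈ OPAut), χ = mcl ψ h := by
  obtain ⟨q, ψ, hψ, rfl⟩ := χ
  exact ⟨ψ, hψ, rfl⟩

theorem mcl_mul {ψ χ : MulAut Pi} (h : ψ ∈ OPAut) (h' : χ ∈ OPAut) :
    mcl ψ h * mcl χ h' = mcl (ψ * χ) (OPAut.mul_mem h h') := rfl

theorem mcl_inv {ψ : MulAut Pi} (h : ψ ∈ OPAut) : (mcl ψ h)⁻¹ = mcl ψ⁻¹ (OPAut.inv_mem h) := rfl

theorem mcl_pow {ψ : MulAut Pi} (h : ψ ∈ OPAut) (n : ℕ) :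
    mcl ψ h ^ n = mcl (ψ ^ n) (OPAut.pow_mem h n) := by
  induction n with
  | zero => rfl
  | succ n ih => rw [pow_succ, ih, mcl_mul]; rfl

/-- equality of mapping classes -/
theorem mcl_eq_iff {ψ χ : MulAut Pi} (h : ψ ∈ OPAut) (h' : χ ∈ OPAut) :
    mcl ψ h = mcl χ h' ↔ ∃ g : Pi, ∀ x, ψ x = g * χ x * g⁻¹ := by
  have h1 : mcl ψ h = mcl χ h' ↔ (QuotientGroup.mk ψ : OutPi) = QuotientGroup.mk χ :=
    ⟨fun h => congrArg Subtype.val h, fun h => Subtype.ext h⟩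
  rw [h1, QuotientGroup.eq]
  constructor
  · rintro ⟨g, hg⟩
    refine ⟨(ψ g)⁻¹, fun x => ?_⟩
    have h2 : ψ⁻¹ (χ x) = g * x * g⁻¹ := by
      have := DFunLike.congr_fun hg x
      rw [MulAut.conj_apply] at this
      exact this.symm
    have h3 : χ x = ψ g * ψ x * (ψ g)⁻¹ := by
      rw [← map_inv, ← map_mul, ← map_mul, ← h2, MulAut.apply_inv_self]
    rw [h3]
    group
  · rintro ⟨g, hg⟩
    refine ⟨ψ⁻¹ g⁻¹, ?_⟩
    ext x
    rw [MulAut.conj_apply]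
    show _ = ψ⁻¹ (χ x)
    have h2 : χ x = g⁻¹ * ψ x * g := by rw [hg]; group
    rw [h2, map_mul, map_mul, MulAut.inv_apply_self, ← map_inv, inv_inv]

private theorem mk_eq_iff' {a b : Pi} : ConjClasses.mk a = ConjClasses.mk b ↔
    ∃ w : Pi, a = w * b * w⁻¹ := by
  rw [ConjClasses.mk_eq_mk_iff_isConj, isConj_comm, isConj_iff]
  exact ⟨fun ⟨c, hc⟩ => ⟨c, hc.symm⟩, fun ⟨c, hc⟩ => ⟨c, hc.symm⟩⟩

private theorem mk_inv_congr {a b : Pi} (h : ConjClasses.mk a = ConjClasses.mk b) :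
    ConjClasses.mk a⁻¹ = ConjClasses.mk b⁻¹ := by
  rw [mk_eq_iff'] at h ⊢
  obtain ⟨w, rfl⟩ := h
  exact ⟨w, by group⟩

theorem PA_of {ψ : MulAut Pi} (hψ : ψ ∈ OPAut)
    (h : ∀ n : ℕ, 1 ≤ n → ∀ χ ∈ OPAut, ∀ w : Pi,
      ((ψ ^ n) (χ (S 2)) ≠ w * χ (S 2) * w⁻¹ ∧ (ψ ^ n) (χ (S 2)) ≠ w * (χ (S 2))⁻¹ * w⁻¹) ∧
      ((ψ ^ n) (χ ⁅S 2, N 1⁆) ≠ w * χ ⁅S 2, N 1⁆ * w⁻¹ ∧
        (ψ ^ n) (χ ⁅S 2, N 1⁆) ≠ w * (χ ⁅S 2, N 1⁆)⁻¹ * w⁻¹)) : PA (mcl ψ hψ) := by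
  have key : ∀ (n : ℕ) (x y : Pi), ConjClasses.mk x = ConjClasses.mk y →
      (∀ w : Pi, (ψ ^ n) y ≠ w * y * w⁻¹ ∧ (ψ ^ n) y ≠ w * y⁻¹ * w⁻¹) →
      mcl ψ hψ ^ n • ConjClasses.mk x ≠ ConjClasses.mk x ∧
        mcl ψ hψ ^ n • ConjClasses.mk x ≠ ConjClasses.mk x⁻¹ := by
    intro n x y hxy hy
    rw [mk_inv_congr hxy, hxy, mcl_pow, mcl_smul_mk]
    constructor
    · intro h1
      obtain ⟨w, hw⟩ := mk_eq_iff'.1 h1
      exact (hy w).1 hw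
    · intro h1
      obtain ⟨w, hw⟩ := mk_eq_iff'.1 h1
      exact (hy w).2 hw
  rintro n hn x ⟨χ, hx | hx⟩
  · obtain ⟨χ', hχ', rfl⟩ := exists_mcl χ
    rw [mcl_smul_mk] at hx
    exact key n x _ hx (fun w => (h n hn χ' hχ' w).1)
  · obtain ⟨χ', hχ', rfl⟩ := exists_mcl χ
    rw [mcl_smul_mk, sep_eq] at hx
    exact key n x _ hx (fun w => (h n hn χ' hχ' w).2)

theorem PA_conj {a : MCG} (g : MCG) (h : PA a) : PA (g * a * g⁻¹) := by
  obtain ⟨ψ, hψ, rfl⟩ := exists_mcl g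
  intro n hn x hx
  have hE : ConjClasses.mk (ψ⁻¹ x) ∈ Ess := by
    have h1 : ConjClasses.mk (ψ⁻¹ x) = (mcl ψ hψ)⁻¹ • ConjClasses.mk x := by
      rw [mcl_inv, mcl_smul_mk]
    rw [h1]
    obtain ⟨χ, hx | hx⟩ := hx
    · exact ⟨(mcl ψ hψ)⁻¹ * χ, Or.inl (by rw [hx, mul_smul])⟩
    · exact ⟨(mcl ψ hψ)⁻¹ * χ, Or.inr (by rw [hx, mul_smul])⟩
  obtain ⟨h1, h2⟩ := h n hn (ψ⁻¹ x) hE
  have e1 : ConjClasses.mk x = mcl ψ hψ • ConjClasses.mk (ψ⁻¹ x) := by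
    rw [mcl_smul_mk, MulAut.apply_inv_self]
  have e2 : ConjClasses.mk x⁻¹ = mcl ψ hψ • ConjClasses.mk (ψ⁻¹ x)⁻¹ := by
    rw [mcl_smul_mk, map_inv, MulAut.apply_inv_self]
  rw [conj_pow]
  constructor
  · intro h3
    apply h1
    rw [e1, ← mul_smul, inv_mul_cancel_right, mul_smul] at h3
    exact MulAction.injective _ h3
  · intro h3
    apply h2
    rw [e2, e1, ← mul_smul, inv_mul_cancel_right, mul_smul] at h3
    exact MulAction.injective _ h3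

private theorem S2_ne : S 2 ≠ 1 := by
  intro h
  have h1 := hv_S2
  rw [h] at h1
  have h2 : hv (1 : Pi) = 0 := by
    have := hv_mul 1 1
    rw [mul_one] at this
    exact left_eq_add.mp this
  rw [h2] at h1
  have := congrFun h1 0
  simp at this

private def bet : (Fin 4 → ℤ) →ₗ[ℤ] (Fin 4 → ℤ) →ₗ[ℤ] ℤ :=
  LinearMap.mk₂ ℤ (fun v w => v 0 * w 3 - v 3 * w 0 - (v 1 * w 2 - v 2 * w 1))
    (fun v v' w => by simp only [Pi.add_apply]; ring)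
    (fun c v w => by simp only [Pi.smul_apply, smul_eq_mul]; ring)
    (fun v w w' => by simp only [Pi.add_apply]; ring)
    (fun c v w => by simp only [Pi.smul_apply, smul_eq_mul]; ring)

private theorem bet_apply (v w : Fin 4 → ℤ) :
    bet v w = v 0 * w 3 - v 3 * w 0 - (v 1 * w 2 - v 2 * w 1) := rfl

private theorem comm_ne : ⁅S 2, N 1⁆ ≠ 1 := by
  intro h
  have hc := (comm_conj bet (fun v => by rw [bet_apply]; ring)
    (by simp only [bet_apply, cv]; decide) (S 2) (N 1) 1 1 1).1 (by rw [h]; simp)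
  rw [hv_S2, hv_N1, bet_apply, bet_apply] at hc
  simp at hc
  have h0 : (0 : ℤ) = 1 := by
    rw [← hc]
    ring
  exact absurd h0 (by norm_num)

theorem PA_of_all {ψ : MulAut Pi} (hψ : ψ ∈ OPAut)
    (h : ∀ n : ℕ, 1 ≤ n → ∀ y : Pi, y ≠ 1 → ∀ w : Pi,
      (ψ ^ n) y ≠ w * y * w⁻¹ ∧ (ψ ^ n) y ≠ w * y⁻¹ * w⁻¹) : PA (mcl ψ hψ) := by
  apply PA_of
  intro n hn χ _ w
  exact ⟨h n hn (χ (S 2)) (fun h0 => S2_ne (χ.injective (by rw [h0, map_one]))) w,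
    h n hn (χ ⁅S 2, N 1⁆) (fun h0 => comm_ne (χ.injective (by rw [h0, map_one]))) w⟩

theorem nonsep_gen {h g : Hk} {ε : ℕ} {ks : List (Fin 4)} (hk : Hyp ks)
    (hh : h = g * (zz ^ ε * sw ks) * g⁻¹) {m : ℕ} (hm : 1 ≤ m) {x : Pi} (hx : hv x ≠ 0) (w : Pi) :
    alpha (h ^ m) x ≠ w * x * w⁻¹ ∧ alpha (h ^ m) x ≠ w * x⁻¹ * w⁻¹ := by
  obtain ⟨a, b, s, hs, hb, h2, htr⟩ := trace_conj_pow hk hh hm
  have hv0 : hvec (hv x) ≠ 0 := hvec_ne_zero hx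
  have hdet : (mu (h ^ m) : Matrix (Fin 2) (Fin 2) ℝ).det = 1 := (mu (h ^ m)).2
  have main : ∀ r : ℝ, r = 1 ∨ r = -1 → (mu (h ^ m) : Matrix (Fin 2) (Fin 2) ℝ).mulVec
      (hvec (hv x)) = r • hvec (hv x) → False := by
    intro r hr hE
    have hrr : r * r = 1 := by rcases hr with rfl | rfl <;> norm_num
    have h3 := trace_of_fixNS hdet hv0 hrr hE
    rw [htr] at h3
    rcases hs with rfl | rfl <;> rcases hr with rfl | rfl <;> push_cast at h3 <;> linarith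
  constructor
  · intro h3
    apply main 1 (Or.inl rfl)
    have h4 := congrArg hv h3
    rw [hv_aut, hv_mul, hv_mul, hv_inv] at h4
    have h5 : hmap (alpha (h ^ m)) (hv x) = hv x := by rw [h4]; abel
    rw [← hvec_hmap, h5, one_smul]
  · intro h3
    apply main (-1) (Or.inr rfl)
    have h4 := congrArg hv h3
    rw [hv_aut, hv_mul, hv_mul, hv_inv, hv_inv] at h4
    have h5 : hmap (alpha (h ^ m)) (hv x) = -hv x := by rw [h4]; abel
    rw [← hvec_hmap, h5, hvec_negNS, neg_one_smul]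

theorem alpha_mem (h : Hk) : alpha h ∈ OPAut := (OPAut_iff _).2 (OP_alpha h)

theorem PA_hyp {h g : Hk} {ε : ℕ} {ks : List (Fin 4)} (hk : Hyp ks)
    (hh : h = g * (zz ^ ε * sw ks) * g⁻¹) : PA (mcl (alpha h) (alpha_mem h)) := by
  apply PA_of
  intro n hn χ hχ w
  rw [← map_pow]
  refine ⟨nonsep_gen hk hh hn ?_ w, sepcurve hk hh hn χ ((OPAut_iff χ).1 hχ) w⟩
  rw [hv_aut, hv_S2]
  intro h0
  rw [map_eq_zero_iff (hmap χ) (hmap χ).injective] at h0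
  have := congrFun h0 0
  simp at this

private def fixS : Subgroup Hk where
  carrier := {h | alpha h (S 2) = S 2 ∨ alpha h (S 2) = (S 2)⁻¹}
  one_mem' := Or.inl (by rw [map_one]; rfl)
  mul_mem' := by
    rintro a b (ha | ha) (hb | hb)
    · exact Or.inl (by rw [map_mul, MulAut.mul_apply, hb, ha])
    · exact Or.inr (by rw [map_mul, MulAut.mul_apply, hb, map_inv, ha])
    · exact Or.inr (by rw [map_mul, MulAut.mul_apply, hb, ha])
    · exact Or.inl (by rw [map_mul, MulAut.mul_apply, hb, map_inv, ha, inv_inv])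
  inv_mem' := by
    rintro a (ha | ha)
    · refine Or.inl ?_
      rw [map_inv]
      nth_rewrite 1 [← ha]
      rw [MulAut.inv_apply_self]
    · refine Or.inr ?_
      rw [map_inv]
      have h1 : S 2 = alpha a (S 2)⁻¹ := by rw [map_inv, ha, inv_inv]
      nth_rewrite 1 [h1]
      rw [MulAut.inv_apply_self]

theorem not_PA_dA (k : ℤ) : ¬ PA (mcl (alpha (dA ^ k)) (alpha_mem _)) := by
  intro hPA
  have hz : zz ∈ fixS := Or.inr (by rw [alpha_zz]; exact aI_e 0)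
  have ht : tt ∈ fixS := Or.inl (by rw [alpha_tt, aT_S])
  have hd : dA ^ k ∈ fixS := fixS.zpow_mem (fixS.mul_mem hz (fixS.pow_mem ht 10)) k
  have hE : ConjClasses.mk (S 2) ∈ Ess := ⟨1, Or.inl (by rw [one_smul]; rfl)⟩
  obtain ⟨h1, h2⟩ := hPA 1 (le_refl 1) (S 2) hE
  rw [pow_one, mcl_smul_mk] at h1 h2
  rcases hd with hd | hd
  · exact h1 (by rw [hd])
  · exact h2 (by rw [hd])

end Pool.Agent.VSB.M
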