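import Pool.Agent.VSB.Axis
import Pool.Agent.VSB.Cut
import Pool.Agent.VSB.Bridge

/-! # VSB/Nest: good walls through bridge edges are nested between the walls of the axis

Situation of strand `j` of the axis `H`: the tree `g j * inc F`, incoming line `g j • Line (bar (p (j-1)))` (beyond it lies
`(Hs (j-1))ᶜ = g j • Bd (bar (p (j-1)))`, `Hs_compl`), outgoing line `g j * f j • Line (p j)` (beyond it lies `Hs j`).
A good `K` cuts the edge from `g j * inc z` with the letter `a`.

PROOF of `nest_true`: let `a = (i, true)`. By `cut_iff` (with base point `g j * inc z`) a point `g j * inc v` is in `K` iff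
`SW a (z⁻¹ * v)`. So the incoming line is disjoint from `K` and the outgoing line is contained in `K`. By `side` for `K`
(which contains the outgoing line, whose points are not in `g j • Bd (bar (p (j-1)))`) `K` is disjoint from
`(Hs (j-1))ᶜ`, and by `side` for `Kᶜ` it is disjoint from `Hs j`. `nest_false`: same with `cut_iff'`, `K` and `Kᶜ` exchanged. -/

set_option autoImplicit false

open scoped Pointwise

namespace Pool.Agent.VSB

namespace HAx

variable {x : Pi} (H : HAx x)

private theorem shift (j : ℤ) (z v : F) :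
    H.g j * inc v = H.g j * inc z * inc (z⁻¹ * v) := by
  rw [map_mul, map_inv]
  group

/-- a connected set which meets the tree but not the outgoing line is disjoint from `Hs j` -/
private theorem out_side {L : Set Pi} (hL : Conn L) (j : ℤ)
    (hd : ∀ k : ℤ, H.g j * inc (H.f j) * inc (pt (H.p j) k) ∉ L) {v : F}
    (hv : H.g j * inc v ∈ L) : Disjoint L (H.Hs j) :=
  side hL hd ⟨_, hv, fun h => lt_irrefl j ((H.mem_Hs j j v).1 h)⟩

/-- a connected set which meets the tree but not the incoming line is contained in `Hs (j - 1)` -/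
private theorem in_side {L : Set Pi} (hL : Conn L) (j : ℤ)
    (hd : ∀ k : ℤ, H.g j * inc (pt (bar (H.p (j - 1))) k) ∉ L) {v : F}
    (hv : H.g j * inc v ∈ L) : L ⊆ H.Hs (j - 1) := by
  have hc : (H.Hs (j - 1))ᶜ = (H.g j * inc 1) • Bd (bar (H.p (j - 1))) := by
    rw [H.Hs_compl, sub_add_cancel, map_one, mul_one]
  have h1 : Disjoint L ((H.g j * inc 1) • Bd (bar (H.p (j - 1)))) := by
    refine side hL (fun k => ?_) ⟨_, hv, fun h => ?_⟩
    · rw [map_one, mul_one]
      exact hd k
    · rw [← hc] at h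
      exact h ((H.mem_Hs j (j - 1) v).2 (by omega))
  rw [← hc] at h1
  intro y hy
  by_contra h2
  exact Set.disjoint_left.1 h1 hy h2

theorem nest_true {K : Set Pi} (hK : Good K) (j : ℤ) (z : F) (i : Fin 3)
    (h0 : H.g j * inc z ∉ K) (h1 : H.g j * inc z * S i ∈ K)
    (hin : ∀ y ∈ Line (bar (H.p (j - 1))), ¬ SW (i, true) (z⁻¹ * y))
    (hout : ∀ y ∈ Line (H.p j), SW (i, true) (z⁻¹ * H.f j * y)) :
    H.Hs j ⊆ K ∧ K ⊆ H.Hs (j - 1) := by
  have hcut : ∀ v : F, H.g j * inc v ∈ K ↔ SW (i, true) (z⁻¹ * v) := by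
    intro v
    rw [H.shift j z v]
    exact cut_iff hK h0 h1 _
  constructor
  · have h2 : Disjoint Kᶜ (H.Hs j) := by
      refine H.out_side hK.conn' j (fun k => ?_) (v := z) h0
      rw [Set.mem_compl_iff, not_not, mul_assoc, ← map_mul, hcut, ← mul_assoc]
      exact hout _ ⟨k, rfl⟩
    intro y hy
    by_contra h3
    exact Set.disjoint_left.1 h2 h3 hy
  · refine H.in_side hK.conn j (fun k => ?_) (v := z * FreeGroup.of i) ?_
    · rw [hcut]
      exact hin _ ⟨k, rfl⟩
    · rw [map_mul, inc_of, ← mul_assoc]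
      exact h1

theorem nest_false {K : Set Pi} (hK : Good K) (j : ℤ) (z : F) (i : Fin 3)
    (h0 : H.g j * inc z ∈ K) (h1 : H.g j * inc z * (S i)⁻¹ ∉ K)
    (hin : ∀ y ∈ Line (bar (H.p (j - 1))), ¬ SW (i, false) (z⁻¹ * y))
    (hout : ∀ y ∈ Line (H.p j), SW (i, false) (z⁻¹ * H.f j * y)) :
    H.Hs j ⊆ Kᶜ ∧ Kᶜ ⊆ H.Hs (j - 1) := by
  have hcut : ∀ v : F, H.g j * inc v ∉ K ↔ SW (i, false) (z⁻¹ * v) := by
    intro v
    rw [H.shift j z v]
    exact cut_iff' hK h0 h1 _
  constructor
  · have h2 : Disjoint K (H.Hs j) := by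
      refine H.out_side hK.conn j (fun k => ?_) (v := z) h0
      rw [mul_assoc, ← map_mul, hcut, ← mul_assoc]
      exact hout _ ⟨k, rfl⟩
    intro y hy h3
    exact Set.disjoint_left.1 h2 h3 hy
  · refine H.in_side hK.conn' j (fun k => ?_) (v := z * (FreeGroup.of i)⁻¹) ?_
    · rw [Set.mem_compl_iff, hcut]
      exact hin _ ⟨k, rfl⟩
    · rw [map_mul, map_inv, inc_of, ← mul_assoc]
      exact h1

end HAx

end Pool.Agent.VSB
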