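import Pool.Agent.VSB.Homol
import Pool.Agent.VSB.HkMat

/-! # VSB/NonSep: hyperbolic affine elements fix no nonseparating curve

`hol_eq`: both sides are homomorphisms (`hom_ext`). `hol_ne_zero`: `λ` is irrational.
`nonsep`: `hv` of both sides gives `mu (h ^ m) v = ± v` for `v = (A + B λ, C + D λ) ≠ 0`, `(A,B,C,D) = hv (ψ (S 0)) ≠ 0`
(`hv_S0`, `hol_alpha`, conjugation does not change `hol`), so `det (mu (h ^ m) ∓ 1) = 0`, i.e. the trace of `mu (h ^ m)` is
`± 2`. But `h ^ m` is conjugate to `zz ^ (ε m) * sw ks ^ m`, whose trace is `± (a + b λ)` with `a + b λ > 2` (`exists_pow_sw`,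
`trace_hyp`, `mu_zz`). -/

set_option autoImplicit false

namespace Pool.Agent.VSB

/-- holonomy of a homology class -/
noncomputable def hvec (v : Fin 4 → ℤ) : Fin 2 → ℝ := ![v 0 + v 1 * lam, v 2 + v 3 * lam]

theorem hvec_addNS (v w : Fin 4 → ℤ) : hvec (v + w) = hvec v + hvec w := by
  ext i
  fin_cases i
  · show ((v 0 + w 0 : ℤ) : ℝ) + ((v 1 + w 1 : ℤ) : ℝ) * lam = _
    show _ = ((v 0 : ℝ) + v 1 * lam) + (w 0 + w 1 * lam)
    push_cast; ring
  · show ((v 2 + w 2 : ℤ) : ℝ) + ((v 3 + w 3 : ℤ) : ℝ) * lam = _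
    show _ = ((v 2 : ℝ) + v 3 * lam) + (w 2 + w 3 * lam)
    push_cast; ring

theorem hvec_negNS (v : Fin 4 → ℤ) : hvec (-v) = -hvec v := by
  ext i
  fin_cases i
  · show ((-v 0 : ℤ) : ℝ) + ((-v 1 : ℤ) : ℝ) * lam = -((v 0 : ℝ) + v 1 * lam)
    push_cast; ring
  · show ((-v 2 : ℤ) : ℝ) + ((-v 3 : ℤ) : ℝ) * lam = -((v 2 : ℝ) + v 3 * lam)
    push_cast; ring

/-- `hvec` as a homomorphism -/
noncomputable def hvecHomNS : Multiplicative (Fin 4 → ℤ) →* Multiplicative (Fin 2 → ℝ) where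
  toFun x := Multiplicative.ofAdd (hvec (Multiplicative.toAdd x))
  map_one' := by
    have h : hvec (0 : Fin 4 → ℤ) = 0 := by
      ext i
      fin_cases i <;> simp [hvec]
    show Multiplicative.ofAdd (hvec 0) = 1
    rw [h]; rfl
  map_mul' x y := by
    show Multiplicative.ofAdd (hvec (Multiplicative.toAdd x + Multiplicative.toAdd y)) = _
    rw [hvec_addNS]; rfl

theorem hol_eq (x : Pi) : Multiplicative.toAdd (hol x) = hvec (hv x) := by
  have h : hol = hvecHomNS.comp coo := by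
    apply hom_ext
    · intro j
      rw [hol_SHM]
      show _ = Multiplicative.ofAdd (hvec (Multiplicative.toAdd (coo (S j))))
      congr 1
      rw [coo, toHom_S]
      fin_cases j
      · ext i; fin_cases i <;> simp [hvec]
      · ext i; fin_cases i <;> simp [hvec]
      · ext i; fin_cases i <;> simp [hvec]
    · intro j
      rw [hol_NHM]
      show _ = Multiplicative.ofAdd (hvec (Multiplicative.toAdd (coo (N j))))
      congr 1
      rw [coo, toHom_N]
      fin_cases j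
      · ext i; fin_cases i <;> simp [hvec]
      · ext i; fin_cases i <;> simp [hvec]
      · ext i; fin_cases i <;> simp [hvec]
  exact congrArg (fun φ : Pi →* Multiplicative (Fin 2 → ℝ) => Multiplicative.toAdd (φ x)) h

theorem lam_irrNS {a b : ℤ} (h : (a : ℝ) + b * lam = 0) : a = 0 ∧ b = 0 := by
  have hirr : Irrational lam := Real.goldenRatio_irrational
  by_cases hb : b = 0
  · subst hb
    refine ⟨?_, rfl⟩
    simpa using h
  · exfalso
    apply hirr
    refine ⟨(-a : ℚ) / b, ?_⟩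
    have hb' : (b : ℝ) ≠ 0 := by exact_mod_cast hb
    push_cast
    rw [div_eq_iff hb']
    linarith

theorem hvec_ne_zero {v : Fin 4 → ℤ} (h : v ≠ 0) : hvec v ≠ 0 := by
  intro h0
  apply h
  have h1 : (v 0 : ℝ) + v 1 * lam = 0 := congrFun h0 0
  have h2 : (v 2 : ℝ) + v 3 * lam = 0 := congrFun h0 1
  obtain ⟨h3, h4⟩ := lam_irrNS h1
  obtain ⟨h5, h6⟩ := lam_irrNS h2
  ext i
  fin_cases i
  · exact h3
  · exact h4
  · exact h5
  · exact h6

theorem hvec_hmap (h : Hk) (v : Fin 4 → ℤ) : hvec (hmap (alpha h) v) =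
    (mu h : Matrix (Fin 2) (Fin 2) ℝ).mulVec (hvec v) := by
  obtain ⟨x, rfl⟩ := hv_surjective v
  rw [← hv_aut, ← hol_eq, hol_alpha, hol_eq]

theorem trace_conj_pow {h g : Hk} {ε : ℕ} {ks : List (Fin 4)} (hk : Hyp ks)
    (hh : h = g * (zz ^ ε * sw ks) * g⁻¹) {m : ℕ} (hm : 1 ≤ m) :
    ∃ (a b : ℕ) (s : ℤ), (s = 1 ∨ s = -1) ∧ 1 ≤ b ∧ 2 < (a + b * lam : ℝ) ∧
      (mu (h ^ m) : Matrix (Fin 2) (Fin 2) ℝ).trace = s * (a + b * lam) := by
  obtain ⟨ks', hk', hs⟩ := exists_pow_sw hk hm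
  obtain ⟨a, b, hb, htr, h2⟩ := trace_hyp hk'
  have hcomm : Commute (zz ^ ε) (sw ks) := (zz_pow_comm (sw ks) ε).symm
  have h1 : h ^ m = g * (zz ^ (ε * m) * sw ks') * g⁻¹ := by
    rw [hh, conj_pow, hcomm.mul_pow, ← pow_mul, hs]
  have h3 : (mu (h ^ m) : Matrix (Fin 2) (Fin 2) ℝ).trace =
      (mu (zz ^ (ε * m) * sw ks') : Matrix (Fin 2) (Fin 2) ℝ).trace := by
    rw [h1, map_mul mu, Matrix.SpecialLinearGroup.coe_mul, Matrix.trace_mul_comm,
      ← Matrix.SpecialLinearGroup.coe_mul, ← map_mul, ← mul_assoc, inv_mul_cancel, one_mul]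
  rcases zz_powHM (ε * m) with h4 | h4
  · refine ⟨a, b, 1, Or.inl rfl, hb, h2, ?_⟩
    rw [h3, h4, one_mul, htr]; simp
  · refine ⟨a, b, -1, Or.inr rfl, hb, h2, ?_⟩
    rw [h3, h4, map_mul, mu_zz, neg_mul, one_mul, Matrix.SpecialLinearGroup.coe_neg,
      Matrix.trace_neg, htr]
    push_cast; ring

/-- a matrix of determinant one which fixes a nonzero vector up to the sign `s` has trace `2 s` -/
theorem trace_of_fixNS {M : Matrix (Fin 2) (Fin 2) ℝ} (hd : M.det = 1) {v : Fin 2 → ℝ} (hv : v ≠ 0)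
    {s : ℝ} (hs : s * s = 1) (h : M.mulVec v = s • v) : M.trace = 2 * s := by
  have h0 : M 0 0 * v 0 + M 0 1 * v 1 = s * v 0 := by
    have := congrFun h 0
    simpa [Matrix.mulVec, dotProduct, Fin.sum_univ_two] using this
  have h1 : M 1 0 * v 0 + M 1 1 * v 1 = s * v 1 := by
    have := congrFun h 1
    simpa [Matrix.mulVec, dotProduct, Fin.sum_univ_two] using this
  rw [Matrix.det_fin_two] at hd
  rw [Matrix.trace_fin_two]
  -- (M00 - s)(M11 - s) - M01 M10 = 0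
  have key0 : ((M 0 0 - s) * (M 1 1 - s) - M 0 1 * M 1 0) * v 0 = 0 := by
    linear_combination (M 1 1 - s) * h0 - M 0 1 * h1
  have key1 : ((M 0 0 - s) * (M 1 1 - s) - M 0 1 * M 1 0) * v 1 = 0 := by
    linear_combination (M 0 0 - s) * h1 - M 1 0 * h0
  have key : (M 0 0 - s) * (M 1 1 - s) - M 0 1 * M 1 0 = 0 := by
    by_contra hne
    apply hv
    ext i
    fin_cases i
    · exact (mul_eq_zero.1 key0).resolve_left hne
    · exact (mul_eq_zero.1 key1).resolve_left hne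
  have h2 : s * (M 0 0 + M 1 1) = 2 := by linear_combination hd - key + hs
  linear_combination s * h2 - (M 0 0 + M 1 1) * hs

theorem nonsep {h g : Hk} {ε : ℕ} {ks : List (Fin 4)} (hk : Hyp ks)
    (hh : h = g * (zz ^ ε * sw ks) * g⁻¹) {m : ℕ} (hm : 1 ≤ m) (ψ : MulAut Pi) (w : Pi) :
    alpha (h ^ m) (ψ (S 0)) ≠ w * ψ (S 0) * w⁻¹ ∧
    alpha (h ^ m) (ψ (S 0)) ≠ w * (ψ (S 0))⁻¹ * w⁻¹ := by
  obtain ⟨a, b, s, hs, hb, h2, htr⟩ := trace_conj_pow hk hh hm
  have hv0 : hvec (hv (ψ (S 0))) ≠ 0 := hvec_ne_zero (hv_S0 ψ)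
  have hdet : (mu (h ^ m) : Matrix (Fin 2) (Fin 2) ℝ).det = 1 := (mu (h ^ m)).2
  have main : ∀ r : ℝ, r = 1 ∨ r = -1 → (mu (h ^ m) : Matrix (Fin 2) (Fin 2) ℝ).mulVec
      (hvec (hv (ψ (S 0)))) = r • hvec (hv (ψ (S 0))) → False := by
    intro r hr hE
    have hrr : r * r = 1 := by rcases hr with rfl | rfl <;> norm_num
    have h3 := trace_of_fixNS hdet hv0 hrr hE
    rw [htr] at h3
    rcases hs with rfl | rfl <;> rcases hr with rfl | rfl <;> push_cast at h3 <;> linarith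
  constructor
  · intro h3
    apply main 1 (Or.inl rfl)
    have h4 := congrArg hv h3
    rw [hv_aut, hv_mul, hv_mul, hv_inv] at h4
    have h5 : hmap (alpha (h ^ m)) (hv (ψ (S 0))) = hv (ψ (S 0)) := by rw [h4]; abel
    rw [← hvec_hmap, h5, one_smul]
  · intro h3
    apply main (-1) (Or.inr rfl)
    have h4 := congrArg hv h3
    rw [hv_aut, hv_mul, hv_mul, hv_inv, hv_inv] at h4
    have h5 : hmap (alpha (h ^ m)) (hv (ψ (S 0))) = -hv (ψ (S 0)) := by rw [h4]; abel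
    rw [← hvec_hmap, h5, hvec_negNS, neg_one_smul]

end Pool.Agent.VSB
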