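import Pool.Agent.VSB.LineF

/-! # VSB/ProjF: the projection of a line to another line

PROOF of `proj`. Let `|k| > |f| + 1`. First, `f * y ≠ pt q k` for every `y = pt p i ∈ Line p`: otherwise
`f = pt q k * (pt p i)⁻¹` and `norm_pt_mul_inv` gives `|k| + |i| ≤ |f| + 2`; so `i = 0` (then `f = pt q k`, `|f| = |k|`) or
`|k| ≤ |f| + 1`, contradiction. (The hypothesis of `norm_pt_mul_inv`: `f ∉ zpowers (c p)` or `p ≠ q`.)
The first letter of `v` and of `v * FreeGroup.mk [a]` is the same unless one of the two is `1`. Going along `Line p` from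
`y = 1` (`pt_succ`) the first letter of `(pt q k)⁻¹ * f * y` is that of `(pt q k)⁻¹ * f`, and since `|f| < |k|` this is the
first letter of `(pt q k)⁻¹` (`SW_pt'`, `SW_pt` with `l = 0`: less than all letters are cancelled). -/

set_option autoImplicit false

namespace Pool.Agent.VSB

/-- the last letter of a word does not change if a letter is added at the beginning -/
theorem pf_last (v : F) (b : Fin 3 × Bool) (h1 : v ≠ 1) (h2 : FreeGroup.mk [b] * v ≠ 1) :
    (FreeGroup.mk [b] * v).toWord.getLast? = v.toWord.getLast? := by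
  have e : FreeGroup.mk [b] * v = FreeGroup.mk (b :: v.toWord) := by
    conv_lhs => rw [← FreeGroup.mk_toWord (x := v)]
    rw [FreeGroup.mul_mk]; rfl
  have h1' : v.toWord ≠ [] := fun h => h1 (FreeGroup.toWord_eq_nil_iff.1 h)
  have h2' : (FreeGroup.mk [b] * v).toWord ≠ [] := fun h => h2 (FreeGroup.toWord_eq_nil_iff.1 h)
  rw [e, FreeGroup.toWord_mk, FreeGroup.reduce.cons, FreeGroup.reduce_toWord] at h2' ⊢
  generalize v.toWord = L at h1' h2' ⊢
  cases L with
  | nil => exact absurd rfl h1'
  | cons x tl =>
    simp only at h2' ⊢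
    split_ifs with hc
    · rw [if_pos hc] at h2'
      cases tl with
      | nil => exact absurd rfl h2'
      | cons z tl => simp
    · simp

theorem pf_head (v : F) : v.toWord.head? = (v⁻¹).toWord.getLast?.map (fun g => (g.1, !g.2)) := by
  rw [FreeGroup.toWord_inv, FreeGroup.invRev, List.getLast?_reverse, List.head?_map]
  cases v.toWord.head? <;> simp

/-- the first letter does not change if a letter is added at the end -/
theorem pf_head_mul (v : F) (b : Fin 3 × Bool) (h1 : v ≠ 1) (h2 : v * FreeGroup.mk [b] ≠ 1) :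
    (v * FreeGroup.mk [b]).toWord.head? = v.toWord.head? := by
  rw [pf_head, pf_head v]
  have e : (v * FreeGroup.mk [b])⁻¹ = FreeGroup.mk [(b.1, !b.2)] * v⁻¹ := by
    rw [mul_inv_rev, FreeGroup.inv_mk]; rfl
  rw [e, pf_last]
  · exact inv_ne_one.2 h1
  · rw [← e]; exact inv_ne_one.2 h2

theorem pf_norm_mk_le (L : List (Fin 3 × Bool)) : (FreeGroup.mk L : F).norm ≤ L.length :=
  FreeGroup.norm_mk_le

theorem pf_head_long (g : F) (L : List (Fin 3 × Bool)) (h : L.length < g.norm) :
    (g * FreeGroup.mk L).toWord.head? = g.toWord.head? := by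
  have key : ∀ M : List (Fin 3 × Bool), M.length < g.norm → g * FreeGroup.mk M ≠ 1 := by
    intro M hM he
    have h1 : g = (FreeGroup.mk M)⁻¹ := eq_inv_of_mul_eq_one_left he
    have h2 : g.norm = (FreeGroup.mk M : F).norm := by rw [h1, FreeGroup.norm_inv_eq]
    have h3 := pf_norm_mk_le M
    omega
  induction L using List.reverseRecOn with
  | nil =>
    have : (FreeGroup.mk [] : F) = 1 := rfl
    rw [this, mul_one]
  | append_singleton L a ih =>
    rw [List.length_append, List.length_singleton] at h
    have e : g * FreeGroup.mk (L ++ [a]) = g * FreeGroup.mk L * FreeGroup.mk [a] := by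
      rw [mul_assoc, FreeGroup.mul_mk]
    rw [e, pf_head_mul, ih (by omega)]
    · exact key L (by omega)
    · rw [← e]; exact key _ (by rw [List.length_append, List.length_singleton]; omega)

theorem proj {p q : Fin 4} {f : F} (hne : ¬ (p = q ∧ f ∈ Subgroup.zpowers (c p))) {y : F}
    (hy : y ∈ Line p) (k : ℤ) :
    ((f.norm : ℤ) + 1 < k → SW (lt q (k - 1), false) ((pt q k)⁻¹ * f * y)) ∧
    (k < -((f.norm : ℤ) + 1) → SW (lt q k, true) ((pt q k)⁻¹ * f * y)) := by
  have hnk : (pt q k).norm = k.natAbs := by
    have h := norm_pt q 0 k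
    rw [pt_zero, inv_one, one_mul, sub_zero] at h
    exact h
  have key : (f.norm : ℤ) + 1 < k.natAbs →
      ((pt q k)⁻¹ * f * y).toWord.head? = (pt q k)⁻¹.toWord.head? := by
    intro hk
    have hne1 : ∀ i : ℤ, (pt q k)⁻¹ * f * pt p i ≠ 1 := by
      intro i he
      have hf : f = pt q k * (pt p i)⁻¹ := by
        rw [mul_assoc, inv_mul_eq_one] at he
        rw [he]; group
      have h1 := norm_pt_mul_inv (p := p) (q := q) (k := k) (i := i) (by rw [← hf]; exact hne)
      rw [← hf] at h1
      have hi : i = 0 := by omega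
      subst hi
      rw [pt_zero, inv_one, mul_one] at hf
      rw [hf, hnk] at hk
      omega
    have h0 : ((pt q k)⁻¹ * f).toWord.head? = (pt q k)⁻¹.toWord.head? := by
      have h2 := pf_head_long (pt q k)⁻¹ f.toWord (by
        rw [FreeGroup.norm_inv_eq, hnk]
        show f.norm < _
        omega)
      rwa [FreeGroup.mk_toWord] at h2
    have hstep : ∀ i : ℤ, ((pt q k)⁻¹ * f * pt p (i + 1)).toWord.head? =
        ((pt q k)⁻¹ * f * pt p i).toWord.head? := by
      intro i
      have e : (pt q k)⁻¹ * f * pt p (i + 1) =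
          (pt q k)⁻¹ * f * pt p i * FreeGroup.mk [(lt p i, true)] := by
        rw [pt_succ, ← mul_assoc]; rfl
      rw [e]
      exact pf_head_mul _ _ (hne1 i) (by rw [← e]; exact hne1 (i + 1))
    have hall : ∀ i : ℤ, ((pt q k)⁻¹ * f * pt p i).toWord.head? = (pt q k)⁻¹.toWord.head? := by
      intro i
      induction i using Int.induction_on with
      | zero => rw [pt_zero, mul_one, h0]
      | succ i ih => rw [hstep, ih]
      | pred i ih =>
        have h3 := hstep (-(i : ℤ) - 1)
        rw [sub_add_cancel] at h3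
        rw [← h3, ih]
    obtain ⟨i, rfl⟩ := hy
    exact hall i
  constructor
  · intro hk
    have hk0 : 0 < k := by omega
    have h1 := SW_pt' q hk0
    rw [pt_zero, mul_one] at h1
    unfold SW at h1 ⊢
    rw [key (by omega), h1]
  · intro hk
    have hk0 : k < 0 := by omega
    have h1 := SW_pt q hk0
    rw [pt_zero, mul_one] at h1
    unfold SW at h1 ⊢
    rw [key (by omega), h1]

end Pool.Agent.VSB
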