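import Pool.Agent.VSB.Parse
import Pool.Agent.VSB.FD
import Pool.Agent.VSB.Core

/-! # VSB/TwUp: upper bound for the twisted intersection numbers

`II a b = i(γ a, V b)` : `II 0 0 = 0`, `II 0 1 = 1`, `II 1 0 = 1`, `II 1 1 = 1`.

`twUp`: take from `exists_min_word x` an element `g` and a word `w` with `ev w = g⁻¹ * x * g`, `hc a w = inum a x`,
`vc b w = jnum b x`. Substitute (`subw`, file Word) `s j ↦ s j`, `n 0 ↦ s0 ^ m n0`, `n 1 ↦ (s1 s2) ^ m n1`,
`n 2 ↦ (s2 s1) ^ m n2` (negative `m`: powers of the inverse words; `List.replicate` and `flatten`, or `winv`). By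
`ev_subw` the value is `(aT ^ m) (g⁻¹ * x * g)` (values of `aT ^ m` on `S j`, `N j`: `aT_S`, `zpow_fix`, `zpow_tw` in file FD;
for `N 2` : `aT (N 2) = (S 2 * S 1) * N 2`), a conjugate of `(aT ^ m) x`, so `jnum_le` bounds `jnum b ((aT ^ m) x)` by
`vc b` of the new word, which is at most `vc b w + |m| * (II 0 b * hc 0 w + II 1 b * hc 1 w)` (induction on `w`
with `hc_cons`, `vc_cons`, `vc_append`, `vc_winv`). -/

set_option autoImplicit false

namespace Pool.Agent.VSB

/-- intersection numbers of the horizontal and vertical core curves -/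
def II (a b : Fin 2) : ℕ := ![![0, 1], ![1, 1]] a b

namespace TU

/-- powers of a word -/
def rep (u : Wd) : ℕ → Wd
  | 0 => []
  | n + 1 => u ++ rep u n

theorem ev_rep (u : Wd) (n : ℕ) : ev (rep u n) = ev u ^ n := by
  induction n with
  | zero => rw [pow_zero]; rfl
  | succ n ih =>
    show ev (u ++ rep u n) = _
    rw [ev_append, ih, pow_succ']

theorem vc_rep (b : Fin 2) (u : Wd) (n : ℕ) : vc b (rep u n) = n * vc b u := by
  induction n with
  | zero => rw [zero_mul]; rfl
  | succ n ih =>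
    show vc b (u ++ rep u n) = _
    rw [vc_append, ih]; ring

/-- integral powers of a word -/
def zrep (u : Wd) (m : ℤ) : Wd := if 0 ≤ m then rep u m.natAbs else rep (winv u) m.natAbs

theorem ev_zrep (u : Wd) (m : ℤ) : ev (zrep u m) = ev u ^ m := by
  unfold zrep
  split_ifs with h
  · rw [ev_rep, ← zpow_natCast, Int.natAbs_of_nonneg h]
  · have h1 : m = -(m.natAbs : ℤ) := by omega
    rw [ev_rep, ev_winv]
    conv_rhs => rw [h1]
    rw [zpow_neg, zpow_natCast, inv_pow]

theorem vc_zrep (b : Fin 2) (u : Wd) (m : ℤ) : vc b (zrep u m) = m.natAbs * vc b u := by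
  unfold zrep
  split_ifs with h
  · rw [vc_rep]
  · rw [vc_rep, vc_winv]

/-- the words of the boundary elements -/
def uu (j : Fin 3) : Wd :=
  if j = 0 then [(.s 0, true)] else if j = 1 then [(.s 1, true), (.s 2, true)]
  else [(.s 2, true), (.s 1, true)]

/-- the images of the letters under `aT ^ m` -/
def wd (m : ℤ) : Lt → Wd
  | .s j => [(.s j, true)]
  | .n j => zrep (uu j) m ++ [(.n j, true)]

theorem wd_spec (m : ℤ) (l : Lt) : ev (wd m l) = (aT ^ m).toMonoidHom l.val := by
  show ev (wd m l) = (aT ^ m) l.val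
  cases l with
  | s j =>
    show _ = (aT ^ m) (S j)
    rw [zpow_fix aT (aT_S j)]
    simp [wd, ev, stp, Lt.val]
  | n j =>
    show ev (zrep (uu j) m ++ [(.n j, true)]) = (aT ^ m) (N j)
    have hn : ev [(Lt.n j, true)] = N j := by simp [ev, stp, Lt.val]
    rw [ev_append, ev_zrep, hn]
    fin_cases j
    · show ev [(Lt.s 0, true)] ^ m * N 0 = (aT ^ m) (N 0)
      have h1 : ev [(Lt.s 0, true)] = S 0 := by simp [ev, stp, Lt.val]
      rw [h1, zpow_tw aT (aT_S 0) aT_N0 m]
    · show ev [(Lt.s 1, true), (Lt.s 2, true)] ^ m * N 1 = (aT ^ m) (N 1)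
      have h1 : ev [(Lt.s 1, true), (Lt.s 2, true)] = S 1 * S 2 := by simp [ev, stp, Lt.val]
      rw [h1, zpow_tw aT (by rw [map_mul, aT_S, aT_S]) aT_N1 m]
    · show ev [(Lt.s 2, true), (Lt.s 1, true)] ^ m * N 2 = (aT ^ m) (N 2)
      have h1 : ev [(Lt.s 2, true), (Lt.s 1, true)] = S 2 * S 1 := by simp [ev, stp, Lt.val]
      rw [h1, zpow_tw aT (by rw [map_mul, aT_S, aT_S]) aT_N2 m]

theorem vc_wd (m : ℤ) (b : Fin 2) (l : Lt) : vc b (wd m l) =
    (if l.vty = some b then 1 else 0) + m.natAbs * (II 0 b * (if l.hty = some 0 then 1 else 0) +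
      II 1 b * (if l.hty = some 1 then 1 else 0)) := by
  cases l with
  | s j =>
    have h1 : vc b (wd m (.s j)) = if (Lt.s j).vty = some b then 1 else 0 := by
      show vc b [(.s j, true)] = _
      rw [vc_cons]
      simp [vc]
    rw [h1]
    simp [Lt.hty]
  | n j =>
    have h2 : vc b (wd m (.n j)) = m.natAbs * vc b (uu j) := by
      show vc b (zrep (uu j) m ++ [(.n j, true)]) = _
      rw [vc_append, vc_zrep]
      simp [vc, Lt.vty]
    have h3 : vc b (uu j) = II 0 b * (if (Lt.n j).hty = some 0 then 1 else 0) +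
      II 1 b * (if (Lt.n j).hty = some 1 then 1 else 0) := by
      fin_cases j <;> fin_cases b <;> decide
    rw [h2, h3]
    simp [Lt.vty]

theorem vc_sub (m : ℤ) (b : Fin 2) (w : Wd) : vc b (subw (wd m) w) =
    m.natAbs * (II 0 b * hc 0 w + II 1 b * hc 1 w) + vc b w := by
  induction w with
  | nil => simp [subw, vc, hc]
  | cons x w ih =>
    have h1 : vc b (if x.2 then wd m x.1 else winv (wd m x.1)) = vc b (wd m x.1) := by
      split_ifs
      · rfl
      · rw [vc_winv]
    rw [subw_cons, vc_append, ih, h1, vc_wd, vc_cons, hc_cons, hc_cons]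
    ring

end TU

theorem twUp (m : ℤ) (b : Fin 2) (x : Pi) : jnum b ((aT ^ m) x) ≤
    m.natAbs * (II 0 b * inum 0 x + II 1 b * inum 1 x) + jnum b x := by
  obtain ⟨g, w, hw, h1, h2⟩ := exists_min_word x
  have h3 := ev_subw (aT ^ m).toMonoidHom (TU.wd m) (TU.wd_spec m) w
  rw [hw, map_mul, map_mul, map_inv] at h3
  have h4 := jnum_le (a := b) (x := (aT ^ m) x) (g := (aT ^ m) g) h3
  rw [TU.vc_sub, h1, h1, h2] at h4
  exact h4

end Pool.Agent.VSB
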