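import Pool.Agent.VSB.TwLad
import Pool.Agent.VSB.TwUp
import Pool.Agent.VSB.ProjF
import Pool.Agent.VSB.Core

/-! # VSB/TwLow: lower bound for the twisted intersection numbers

* `Sp_of`: `H'` is the axis of the twisted element given by `(twD m).hax H`. Put `p = H.p j`, `m₁ = m` if `p = 0 ∨ p = 2`,
else `0`, and `m₂ = m - m₁` (so `m₂ = m` iff `bar p = 0 ∨ bar p = 2`); `twk m p = c p ^ m₁`,
`twk m (bar p) = c (bar p) ^ m₂`. By `pt_shift`, `twk m p * pt p k = pt p (k + m₁ * wid p)` and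
`twk m (bar p) * pt (bar p) k = pt (bar p) (k + m₂ * wid p)` (`wid (bar p) = wid p`); lines are invariant under
the `twk`. So for `y ∈ Line (bar (H.p (j - 1)))`,
`(pt p k)⁻¹ * (H'.f j)⁻¹ * y = (pt p (k + m₁ * wid p))⁻¹ * (H.f j)⁻¹ * y'` with `y'` again in this line, and for
`y ∈ Line (H.p (j + 1))`,
`(pt (bar p) k)⁻¹ * H'.f (j + 1) * y = (pt (bar p) (k + m₂ * wid p))⁻¹ * H.f (j + 1) * y''`.
Now `proj` (file ProjF; for the first with `f := (H.f j)⁻¹` from the line `bar (H.p (j - 1))` to the line `p`, its hypothesis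
is `H.red (j - 1)` up to inverse: `p = bar (H.p (j - 1))` and `(H.f j)⁻¹ ∈ zpowers (c _)`; for the second with `f := H.f (j + 1)`
from the line `H.p (j + 1)` to the line `bar p`, hypothesis from `H.red j`; `norm` of an inverse is the norm,
`FreeGroup.norm_inv_eq`): at a vertex of the second line with coordinate `> norm + 1` the first letter towards the first line is
`(lt (k - 1), false)`, so not `(lt k, true)`; at a vertex with coordinate `< -(norm + 1)` it is `(lt k, true)`.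
With the bounds `hk` on `k` : if `0 < -m * wid p` resp. `-m * wid p < 0` (one of them holds since the interval in `hk` is
not empty) and according to `m₁ = m` or `m₂ = m`, the two coordinates `k + m₁ * wid p` and `k + m₂ * wid p` are `k` and
`k + m * wid p`, one of them large positive, the other large negative; this gives one of the two alternatives of `Sp`.
* `cnt_ladder`: elementary counting in an interval of integers; for `p = 0, 1` all `k` have `sty (lt p k) = 1`; for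
`p = 2, 3` the even `k` have `sty (lt p k) = 1`, the odd ones `0`.
* `twLow`: if `ell x = 0` the left side is `0`. Otherwise `exists_hax x` gives `g`, `H : HAx (g⁻¹ * x * g)`,
`H.cnt a = inum a x`, `H.n = ell x`, `∑ (H.f j).norm ≤ jnum 0 x + jnum 1 x + 2 * ell x`. Let `H'` be as above for
`g⁻¹ * x * g`. Use `card_le_jnum b` (file Vert) for the type
`T = Σ j : Fin H.n, {k // k ∈ ladder set of cnt_ladder for j}` and `K (j, k) = H'.LW j k` (`LW_wall`, `LW_cross`,
`LW_distinct`; `r = 0` because `0 ≤ j, j' < n` ). So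
`∑ j < n, II (kind (H.p j)) b * (|m| - (2 * E j + 1)) ≤ jnum b ((twD m).aut (g⁻¹ * x * g)) = jnum b ((aT ^ m) x)`
with `E j = |H.f j| + |H.f (j + 1)| + 2`; `∑ j < n, |H.f (j + 1)| = ∑ j < n, |H.f j|` by periodicity. Finally
`∑ j < n, II (kind (H.p j)) b = II 0 b * inum 0 x + II 1 b * inum 1 x` by `H.cnt`. -/

set_option autoImplicit false

open scoped Pointwise

namespace Pool.Agent.VSB

private theorem lt_shiftTL (p : Fin 4) (k m : ℤ) : lt p (k + m * wid p) = lt p k := by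
  fin_cases p
  · simp [lt]
  · simp [lt]
  · have h : (k + m * wid 2) % 2 = k % 2 := by
      show (k + m * 2) % 2 = k % 2
      omega
    show lt 2 (k + m * wid 2) = lt 2 k
    simp [lt, h]
  · have h : (k + m * wid 3) % 2 = k % 2 := by
      show (k + m * 2) % 2 = k % 2
      omega
    show lt 3 (k + m * wid 3) = lt 3 k
    simp [lt, h]

private theorem twk_ptTL (m : ℤ) (p : Fin 4) (k : ℤ) :
    twk m p * pt p k = pt p (k + (if p = 0 ∨ p = 2 then m else 0) * wid p) := by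
  unfold twk
  split_ifs with h
  · exact pt_shift p m k
  · simp

private theorem twk_LineTL (m : ℤ) (p : Fin 4) {y : F} (hy : y ∈ Line p) : twk m p * y ∈ Line p := by
  unfold twk
  split_ifs with h
  · exact (Line_smul_c p m y).2 hy
  · rwa [one_mul]

private theorem not_SWTL {i j : Fin 3} {f : F} (h : SW (i, false) f) : ¬ SW (j, true) f := by
  intro h'
  unfold SW at h h'
  rw [h] at h'
  simp at h'

theorem Sp_of {x : Pi} (H : HAx x) (m : ℤ) {g : Pi} (H' : HAx (g⁻¹ * (twD m).aut x * g))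
    (hp : ∀ j, H'.p j = H.p j)
    (hf : ∀ j, H'.f j = (twk m (bar (H.p (j - 1))))⁻¹ * H.f j * twk m (H.p j)) {j k : ℤ}
    (hk : min 0 (-m * wid (H.p j)) + ((H.f j).norm + (H.f (j + 1)).norm + 2) < k ∧
      k < max 0 (-m * wid (H.p j)) - ((H.f j).norm + (H.f (j + 1)).norm + 2)) : H'.Sp j k := by
  obtain ⟨p, hpj⟩ : ∃ p, p = H.p j := ⟨_, rfl⟩
  rw [← hpj] at hk
  obtain ⟨m₁, hm₁⟩ : ∃ m₁ : ℤ, m₁ = if p = 0 ∨ p = 2 then m else 0 := ⟨_, rfl⟩
  obtain ⟨m₂, hm₂⟩ : ∃ m₂ : ℤ, m₂ = if bar p = 0 ∨ bar p = 2 then m else 0 := ⟨_, rfl⟩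
  have hm : (m₁ = m ∧ m₂ = 0) ∨ (m₁ = 0 ∧ m₂ = m) := by
    rw [hm₁, hm₂]
    fin_cases p
    · left; exact ⟨rfl, rfl⟩
    · right; exact ⟨rfl, rfl⟩
    · left; exact ⟨rfl, rfl⟩
    · right; exact ⟨rfl, rfl⟩
  have hw : wid (bar p) = wid p := PZ.wid_bar p
  -- the entry line
  have e1 : ∀ y ∈ Line (bar (H.p (j - 1))), ∃ y' ∈ Line (bar (H.p (j - 1))),
      (pt p k)⁻¹ * (H'.f j)⁻¹ * y = (pt p (k + m₁ * wid p))⁻¹ * (H.f j)⁻¹ * y' := by
    intro y hy
    refine ⟨_, twk_LineTL m _ hy, ?_⟩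
    rw [hm₁, ← twk_ptTL, hf, hpj]
    group
  have n1 : ¬ (bar (H.p (j - 1)) = p ∧ (H.f j)⁻¹ ∈ Subgroup.zpowers (c (bar (H.p (j - 1))))) := by
    rintro ⟨h1, h2⟩
    apply H.red (j - 1)
    rw [sub_add_cancel, ← hpj]
    refine ⟨h1.symm, ?_⟩
    rw [h1] at h2
    exact (Subgroup.inv_mem_iff _).1 h2
  -- the exit line
  have e2 : ∀ y ∈ Line (H.p (j + 1)), ∃ y' ∈ Line (H.p (j + 1)),
      (pt (bar p) k)⁻¹ * H'.f (j + 1) * y =
        (pt (bar p) (k + m₂ * wid p))⁻¹ * H.f (j + 1) * y' := by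
    intro y hy
    refine ⟨_, twk_LineTL m _ hy, ?_⟩
    rw [← hw, hm₂, ← twk_ptTL, hf, hpj, add_sub_cancel_right]
    group
  have n2 : ¬ (H.p (j + 1) = bar p ∧ H.f (j + 1) ∈ Subgroup.zpowers (c (H.p (j + 1)))) := by
    rw [hpj]
    exact H.red j
  have l1 : lt p (k + m₁ * wid p) = lt p k := lt_shiftTL p k m₁
  have l2 : lt (bar p) (k + m₂ * wid p) = lt (bar p) k := by
    rw [← hw]
    exact lt_shiftTL (bar p) k m₂
  have A : ((H.f j).norm : ℤ) + 1 < k + m₁ * wid p → ∀ y ∈ Line (bar (H.p (j - 1))),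
      ¬ SW (lt p k, true) ((pt p k)⁻¹ * (H'.f j)⁻¹ * y) := by
    intro h y hy
    obtain ⟨y', hy', he⟩ := e1 y hy
    rw [he]
    refine not_SWTL ((proj n1 hy' _).1 ?_)
    rwa [FreeGroup.norm_inv_eq]
  have B : k + m₁ * wid p < -(((H.f j).norm : ℤ) + 1) → ∀ y ∈ Line (bar (H.p (j - 1))),
      SW (lt p k, true) ((pt p k)⁻¹ * (H'.f j)⁻¹ * y) := by
    intro h y hy
    obtain ⟨y', hy', he⟩ := e1 y hy
    rw [he, ← l1]
    refine (proj n1 hy' _).2 ?_
    rwa [FreeGroup.norm_inv_eq]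
  have A' : ((H.f (j + 1)).norm : ℤ) + 1 < k + m₂ * wid p → ∀ y ∈ Line (H.p (j + 1)),
      ¬ SW (lt (bar p) k, true) ((pt (bar p) k)⁻¹ * H'.f (j + 1) * y) := by
    intro h y hy
    obtain ⟨y', hy', he⟩ := e2 y hy
    rw [he]
    exact not_SWTL ((proj n2 hy' _).1 h)
  have B' : k + m₂ * wid p < -(((H.f (j + 1)).norm : ℤ) + 1) → ∀ y ∈ Line (H.p (j + 1)),
      SW (lt (bar p) k, true) ((pt (bar p) k)⁻¹ * H'.f (j + 1) * y) := by
    intro h y hy
    obtain ⟨y', hy', he⟩ := e2 y hy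
    rw [he, ← l2]
    exact (proj n2 hy' _).2 h
  have hneg : -m * wid p = -(m * wid p) := by ring
  rw [hneg] at hk
  obtain ⟨M, hM⟩ : ∃ M, M = m * wid p := ⟨_, rfl⟩
  rw [← hM] at hk
  have h1 : (0 : ℤ) ≤ ((H.f j).norm : ℤ) := Int.natCast_nonneg _
  have h2 : (0 : ℤ) ≤ ((H.f (j + 1)).norm : ℤ) := Int.natCast_nonneg _
  unfold HAx.Sp
  simp only [hp, ← hpj]
  rcases hm with ⟨h3, h4⟩ | ⟨h3, h4⟩
  · rw [h3, ← hM] at A B
    rw [h4, zero_mul, add_zero] at A' B'
    rcases lt_or_ge M 0 with h5 | h5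
    · right
      exact ⟨B (by omega), A' (by omega)⟩
    · left
      exact ⟨A (by omega), B' (by omega)⟩
  · rw [h3, zero_mul, add_zero] at A B
    rw [h4, ← hM] at A' B'
    rcases lt_or_ge M 0 with h5 | h5
    · left
      exact ⟨A (by omega), B' (by omega)⟩
    · right
      exact ⟨B (by omega), A' (by omega)⟩

/-- the places of the ladder of type `p` where a vertical wall of type `b` can be used -/
noncomputable def lad (m : ℤ) (p : Fin 4) (E : ℕ) (b : Fin 2) : Finset ℤ :=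
  (Finset.Ioo (min 0 (-m * wid p) + E) (max 0 (-m * wid p) - E)).filter (fun k => sty (lt p k) = b)

private theorem card_geTL {S : Finset ℤ} {n : ℕ} (a d : ℤ) (hd : 0 < d)
    (h : ∀ i : ℕ, i < n → a + d * i ∈ S) : n ≤ S.card := by
  have h1 : (Finset.range n).card ≤ S.card := by
    refine Finset.card_le_card_of_injOn (fun i : ℕ => a + d * i) ?_ ?_
    · intro i hi
      exact h i (Finset.mem_range.1 hi)
    · intro i _ i' _ he
      have h2 : d * (i : ℤ) = d * i' := by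
        have : a + d * (i : ℤ) = a + d * i' := he
        linarith
      have h3 := mul_left_cancel₀ hd.ne' h2
      exact_mod_cast h3
  rwa [Finset.card_range] at h1

theorem cnt_ladder (m : ℤ) (p : Fin 4) (E : ℕ) (b : Fin 2) :
    II (kind p) b * (m.natAbs - (2 * E + 1)) ≤ (lad m p E b).card := by
  obtain ⟨n, hn⟩ : ∃ n : ℕ, n = m.natAbs - (2 * E + 1) := ⟨_, rfl⟩
  rw [← hn]
  have key0 : ∀ q : Fin 4, wid q = 1 → (∀ k, sty (lt q k) = 1) → n ≤ (lad m q E 1).card := by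
    intro q hw hs
    apply card_geTL (min 0 (-m * wid q) + E + 1) 1 one_pos
    intro i hi
    unfold lad
    rw [Finset.mem_filter, Finset.mem_Ioo]
    refine ⟨?_, hs _⟩
    rw [hw]
    omega
  have key1 : ∀ q : Fin 4, wid q = 2 → (∀ k, k % 2 = 0 → sty (lt q k) = 1) →
      (∀ k, k % 2 = 1 → sty (lt q k) = 0) → ∀ b, n ≤ (lad m q E b).card := by
    intro q hw hs0 hs1 b
    obtain ⟨a, ha⟩ : ∃ a : ℤ, a = min 0 (-m * wid q) + E + 1 := ⟨_, rfl⟩
    rw [hw] at ha
    fin_cases b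
    · apply card_geTL (a + (if a % 2 = 1 then 0 else 1)) 2 two_pos
      intro i hi
      show _ ∈ lad m q E 0
      unfold lad
      rw [Finset.mem_filter, Finset.mem_Ioo, hw]
      refine ⟨?_, hs1 _ ?_⟩
      · split_ifs <;> omega
      · split_ifs <;> omega
    · apply card_geTL (a + (if a % 2 = 1 then 1 else 0)) 2 two_pos
      intro i hi
      show _ ∈ lad m q E 1
      unfold lad
      rw [Finset.mem_filter, Finset.mem_Ioo, hw]
      refine ⟨?_, hs0 _ ?_⟩
      · split_ifs <;> omega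
      · split_ifs <;> omega
  fin_cases p
  · fin_cases b
    · show 0 * n ≤ _
      omega
    · show 1 * n ≤ _
      rw [one_mul]
      exact key0 0 rfl (fun k => by simp [lt, sty])
  · fin_cases b
    · show 0 * n ≤ _
      omega
    · show 1 * n ≤ _
      rw [one_mul]
      exact key0 1 rfl (fun k => by simp [lt, sty])
  · have h : ∀ b, n ≤ (lad m 2 E b).card := key1 2 rfl (fun k hk => by simp [lt, sty, hk])
      (fun k hk => by simp [lt, sty, hk])
    fin_cases b
    · show 1 * n ≤ _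
      rw [one_mul]; exact h 0
    · show 1 * n ≤ _
      rw [one_mul]; exact h 1
  · have h : ∀ b, n ≤ (lad m 3 E b).card := key1 3 rfl (fun k hk => by simp [lt, sty, hk])
      (fun k hk => by simp [lt, sty, hk])
    fin_cases b
    · show 1 * n ≤ _
      rw [one_mul]; exact h 0
    · show 1 * n ≤ _
      rw [one_mul]; exact h 1

private theorem II_leTL (a b : Fin 2) : II a b ≤ 1 := by
  fin_cases a <;> fin_cases b <;> decide

theorem twLow (m : ℤ) (b : Fin 2) (x : Pi) :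
    m.natAbs * (II 0 b * inum 0 x + II 1 b * inum 1 x) ≤
      jnum b ((aT ^ m) x) + 20 * (ell x + jnum 0 x + jnum 1 x) := by
  classical
  by_cases h0 : ell x = 0
  · have h1 : inum 0 x = 0 := by unfold ell at h0; omega
    have h2 : inum 1 x = 0 := by unfold ell at h0; omega
    rw [h1, h2]
    simp
  obtain ⟨g, H, hcnt, hn, hsum⟩ := exists_hax x (by omega)
  obtain ⟨g', H', hn', hp', hf'⟩ := (twD m).hax H
  have hp : ∀ j, H'.p j = H.p j := hp'
  have hf : ∀ j, H'.f j = (twk m (bar (H.p (j - 1))))⁻¹ * H.f j * twk m (H.p j) := hf'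
  let E : ℤ → ℕ := fun j => (H.f j).norm + (H.f (j + 1)).norm + 2
  let T : Type := (j : Fin H.n) × {k : ℤ // k ∈ lad m (H.p (j : ℕ)) (E (j : ℕ)) b}
  have hSp : ∀ t : T, H'.Sp ((t.1 : ℕ) : ℤ) t.2.1 := by
    intro t
    have h1 := t.2.2
    unfold lad at h1
    rw [Finset.mem_filter, Finset.mem_Ioo] at h1
    apply Sp_of H m H' hp hf
    have h2 : ((E ((t.1 : ℕ) : ℤ) : ℕ) : ℤ) = ((H.f ((t.1 : ℕ) : ℤ)).norm : ℤ) +
        ((H.f (((t.1 : ℕ) : ℤ) + 1)).norm : ℤ) + 2 := by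
      show (((H.f ((t.1 : ℕ) : ℤ)).norm + (H.f (((t.1 : ℕ) : ℤ) + 1)).norm + 2 : ℕ) : ℤ) = _
      push_cast
      ring
    rw [← h2]
    exact h1.1
  have hT := card_le_jnum b (g'⁻¹ * (twD m).aut (g⁻¹ * x * g) * g') (T := T)
    (fun t => H'.LW ((t.1 : ℕ) : ℤ) t.2.1) (by
      intro t
      obtain ⟨u, hu⟩ := H'.LW_wall ((t.1 : ℕ) : ℤ) t.2.1
      refine ⟨u, ?_⟩
      rw [hu, hp]
      have h1 := t.2.2
      unfold lad at h1
      rw [Finset.mem_filter] at h1
      rw [h1.2]) (fun t => H'.LW_cross (hSp t)) (by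
      intro t t' r hr
      obtain ⟨h1, h2⟩ := H'.LW_distinct (hSp t) (hSp t') hr
      rw [hn'] at h1
      have h3 : (t.1 : ℕ) < H.n := t.1.2
      have h4 : (t'.1 : ℕ) < H.n := t'.1.2
      have h5 : r = 0 := by
        by_contra hr0
        rcases lt_or_gt_of_ne hr0 with h6 | h6
        · have : r * (H.n : ℤ) ≤ -1 * (H.n : ℤ) :=
            mul_le_mul_of_nonneg_right (by omega) (by omega)
          omega
        · have : 1 * (H.n : ℤ) ≤ r * (H.n : ℤ) :=
            mul_le_mul_of_nonneg_right (by omega) (by omega)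
          omega
      rw [h5, zero_mul, add_zero] at h1
      have h6 : t.1 = t'.1 := Fin.ext (by exact_mod_cast h1)
      obtain ⟨j, k⟩ := t
      obtain ⟨j', k'⟩ := t'
      obtain rfl : j = j' := h6
      congr 1
      exact Subtype.ext h2)
  have hcard : Fintype.card T = ∑ j : Fin H.n, (lad m (H.p (j : ℕ)) (E (j : ℕ)) b).card := by
    rw [Fintype.card_sigma]
    exact Finset.sum_congr rfl fun j _ => Fintype.card_coe _
  have hy : jnum b (g'⁻¹ * (twD m).aut (g⁻¹ * x * g) * g') = jnum b ((aT ^ m) x) := by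
    rw [← aT_zpow]
    have h1 : g'⁻¹ * (aT ^ m) (g⁻¹ * x * g) * g' =
        (g'⁻¹ * ((aT ^ m) g)⁻¹) * (aT ^ m) x * (g'⁻¹ * ((aT ^ m) g)⁻¹)⁻¹ := by
      rw [map_mul, map_mul, map_inv]
      group
    rw [h1, jnum_conj]
  rw [hy, hcard] at hT
  have hlow : ∑ j ∈ Finset.range H.n, II (kind (H.p (j : ℕ))) b * (m.natAbs - (2 * E (j : ℕ) + 1)) ≤
      jnum b ((aT ^ m) x) := by
    refine le_trans ?_ hT
    rw [← Fin.sum_univ_eq_sum_range
      (fun j : ℕ => II (kind (H.p (j : ℕ))) b * (m.natAbs - (2 * E (j : ℕ) + 1)))]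
    exact Finset.sum_le_sum fun j _ => cnt_ladder m _ _ b
  have hper : ∑ j ∈ Finset.range H.n, (H.f ((j : ℤ) + 1)).norm =
      ∑ j ∈ Finset.range H.n, (H.f (j : ℤ)).norm := by
    have h1 := Finset.sum_range_succ (fun j : ℕ => (H.f (j : ℤ)).norm) H.n
    have h2 := Finset.sum_range_succ' (fun j : ℕ => (H.f (j : ℤ)).norm) H.n
    have h3 : H.f ((H.n : ℕ) : ℤ) = H.f ((0 : ℕ) : ℤ) := by
      have := H.perf 0
      rw [zero_add] at this
      exact_mod_cast this
    rw [h3] at h1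
    push_cast at h1 h2
    omega
  have hmain : ∑ j ∈ Finset.range H.n, II (kind (H.p (j : ℕ))) b * m.natAbs ≤
      ∑ j ∈ Finset.range H.n, II (kind (H.p (j : ℕ))) b * (m.natAbs - (2 * E (j : ℕ) + 1)) +
      ∑ j ∈ Finset.range H.n, (2 * E (j : ℕ) + 1) := by
    rw [← Finset.sum_add_distrib]
    refine Finset.sum_le_sum fun j _ => ?_
    have h1 := II_leTL (kind (H.p (j : ℕ))) b
    interval_cases II (kind (H.p (j : ℕ))) b <;> omega
  have hE : ∑ j ∈ Finset.range H.n, (2 * E (j : ℕ) + 1) =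
      4 * ∑ j ∈ Finset.range H.n, (H.f (j : ℤ)).norm + 5 * H.n := by
    have h1 : ∀ j : ℕ, 2 * E (j : ℕ) + 1 = 2 * (H.f (j : ℤ)).norm +
        2 * (H.f ((j : ℤ) + 1)).norm + 5 := by
      intro j
      show 2 * ((H.f (j : ℤ)).norm + (H.f ((j : ℤ) + 1)).norm + 2) + 1 = _
      ring
    rw [Finset.sum_congr rfl fun j _ => h1 j, Finset.sum_add_distrib, Finset.sum_add_distrib,
      ← Finset.mul_sum, ← Finset.mul_sum, hper, Finset.sum_const, Finset.card_range, smul_eq_mul]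
    ring
  have hII : ∑ j ∈ Finset.range H.n, II (kind (H.p (j : ℕ))) b =
      II 0 b * inum 0 x + II 1 b * inum 1 x := by
    rw [← hcnt 0, ← hcnt 1]
    unfold HAx.cnt
    rw [Finset.card_filter, Finset.card_filter, Finset.mul_sum, Finset.mul_sum,
      ← Finset.sum_add_distrib]
    refine Finset.sum_congr rfl fun j _ => ?_
    generalize kind (H.p (j : ℕ)) = a
    fin_cases a <;> simp
  rw [← Finset.sum_mul, hII, hE] at hmain
  rw [mul_comm]
  omega

end Pool.Agent.VSB
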