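import Pool.Agent.VSB.MAmal
import Pool.Agent.VSB.TwLow
import Pool.Agent.VSB.Core

/-! # VSB/PLam: closed inequalities for projective measured laminations

`cf a g v` is the intersection number of the function `v` with the curve `g γ_a`; `sM` is the rotation of order four, so
`cf b (g * sM)` belongs to the vertical curve `g V_b`. `Lam v` lists the (closed, homogeneous) conditions used later.

Let `v = vec (ConjClasses.mk x)` and `g = mcl ψ _` (`exists_mcl`).
* `cf_vec`: `v (false, g * gam a) = i0 ((g * gam a)⁻¹ • mk x)`. For `a = 0`: `= i0 (mk (ψ⁻¹ x)) = inum 0 (ψ⁻¹ x)` (`i0_eq`,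
`mcl_smul_mk`). For `a = 1`: `gam 1 = phiM = (mcl psi)⁻¹`, so `(g * gam 1)⁻¹ • mk x = mk (psi (ψ⁻¹ x))` and
`inum 0 (psi y) = inum 1 y` (`inum_psi0`).
* `cf_vec_s`: `sM` is the class of `aS`, `g * sM = mcl (ψ * aS)`, `inum b (aS⁻¹ (ψ⁻¹ x)) = jnum b (ψ⁻¹ x)` (`jnum_eq`).
* `exists_bound`: for `t = (false, χ)`: `inum_le_const` with the inverse of a representative of `χ` as `θ`; for `t = (true, χ)`:
`is_le`. `nrm v = ell x + jnum 0 x + jnum 1 x` by `cf_vec`, `cf_vec_s` (`g = 1`).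
* `lam_vec`: `low`, `up`: with `y = ψ⁻¹ x`, `g * mT ^ (-m) * sM` is the class of `ψ * aT ^ (-m) * aS`, so
`cf b (g * mT ^ (-m) * sM) v = jnum b ((aT ^ m) y)`: `twLow`, `twUp`. `invT`: `inum a (aT⁻¹ y) = inum a y`
(`inum_aT_zpow`). `invI`: `inum_aI`, `aI⁻¹ = aI`. `swap`: `cf a (g * phiM) v = inum a (psi (ψ⁻¹ x)) = inum (1 - a) (ψ⁻¹ x)`.
* `lam_smul`: all conditions are homogeneous. `isClosed_lam`: each condition is a closed condition on `v : Test → ℝ`
(`isClosed_le`, `isClosed_eq`, coordinates are continuous); the set is the intersection of these closed sets.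
* `lam_of_PML`: the set `Z = {P | ∀ v h, P = ray v h → Lam v}` is closed in `PR`: its preimage under the quotient map
`{v // v ≠ 0} → PR` is `{v | Lam v}` (by `lam_smul`, `ray v h = ray w h'` iff `v = r • w`, `r > 0`; `Quotient.eq`), closed by
`isClosed_lam` (`isClosed_coinduced` / `isQuotientMap_quot_mk.isClosed_preimage`). `Z` contains the generators of `PML` by
`lam_vec` (and `lam_smul`); so `PML ⊆ Z` (`closure_minimal`).
* `limit_ratio`: Let `μ t ≠ 0`. The set `U = {P | P = ray w _ with w t ≠ 0}` is open and the function `ray w ↦ w t' / w t` is continuous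
on `U` (quotient topology). So `v n t' / v n t → μ t' / μ t` and `v n t ≠ 0` eventually. If `L t ≠ 0`, then
`v n t' / v n t → L t' / L t` (divide by `n`), which gives the claim. If `L t = 0` then `|v n t| ≤ C`, and
`v n t' = (v n t' / v n t) * v n t` is bounded, so `L t' = 0` and the claim is `0 = 0`. If `μ t = 0` and `μ t' ≠ 0` exchange the
roles; if both are `0` nothing is to prove. (To get continuity of the ratio at the point `ray μ h`: the map
`w ↦ w t' / w t` on `{w // w ≠ 0}` is continuous at all `w` with `w t ≠ 0` and constant on classes; for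
`Function q (ray w) := w t' / w t` defined by `Quotient.lift` on all of `PR` (it is constant on classes everywhere),
`ContinuousAt` at `ray μ h`: `U` is open and `q` restricted to `U` is continuous by the restriction of the quotient map
to the open saturated set, or use sequences: `Filter.Tendsto` for the quotient: the quotient map is open, since it is the
quotient by a group action, `isOpenMap`.) -/

set_option autoImplicit false

open Filter Topology

namespace Pool.Agent.VSB.M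

/-- the mapping class of the rotation of order four -/
def sM : MCG := aM ss

/-- `gam a` maps `γ₀` to `γ_a` -/
noncomputable def gam (a : Fin 2) : MCG := ![1, phiM] a

/-- intersection number with `g γ_a` -/
noncomputable def cf (a : Fin 2) (g : MCG) (v : Test → ℝ) : ℝ := v (false, g * gam a)

/-- total intersection number with the horizontal and vertical curves -/
noncomputable def nrm (v : Test → ℝ) : ℝ := cf 0 1 v + cf 1 1 v + cf 0 sM v + cf 1 sM v

theorem cf_def (a : Fin 2) (g : MCG) (v : Test → ℝ) : cf a g v = v (false, g * gam a) := rfl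

theorem vec_false (χ : MCG) (c : ConjClasses Pi) : vec c (false, χ) = i0 (χ⁻¹ • c) := by
  simp [vec]

theorem vec_true (χ : MCG) (c : ConjClasses Pi) : vec c (true, χ) = is (χ⁻¹ • c) := by
  simp [vec]

theorem gam_zero : gam 0 = 1 := rfl

theorem gam_one : gam 1 = phiM := rfl

theorem cf_vec (a : Fin 2) {ψ : MulAut Pi} (h : ψ ∈ OPAut) (x : Pi) :
    cf a (mcl ψ h) (vec (ConjClasses.mk x)) = inum a (ψ⁻¹ x) := by
  rw [cf_def, vec_false]
  fin_cases a
  · show ((i0 ((mcl ψ h * gam 0)⁻¹ • ConjClasses.mk x) : ℕ) : ℝ) = inum 0 (ψ⁻¹ x)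
    rw [gam_zero, mul_one, mcl_inv, mcl_smul_mk, i0_eq]
  · show ((i0 ((mcl ψ h * gam 1)⁻¹ • ConjClasses.mk x) : ℕ) : ℝ) = inum 1 (ψ⁻¹ x)
    rw [gam_one, phiM, mul_inv_rev, inv_inv, mcl_inv, mcl_mul, mcl_smul_mk, i0_eq,
      MulAut.mul_apply, inum_psi0]

theorem mcl_mul_sM {ψ : MulAut Pi} (h : ψ ∈ OPAut) :
    mcl ψ h * sM = mcl (ψ * alpha ss) (OPAut.mul_mem h (alpha_mem ss)) := rfl

theorem cf_vec_s (b : Fin 2) {ψ : MulAut Pi} (h : ψ ∈ OPAut) (x : Pi) :
    cf b (mcl ψ h * sM) (vec (ConjClasses.mk x)) = jnum b (ψ⁻¹ x) := by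
  rw [mcl_mul_sM, cf_vec, jnum_eq, mul_inv_rev, MulAut.mul_apply, alpha_ss]

theorem nrm_vec (x : Pi) : nrm (vec (ConjClasses.mk x)) = (ell x + jnum 0 x + jnum 1 x : ℕ) := by
  have h1 : (1 : MCG) = mcl 1 OPAut.one_mem := rfl
  have h2 : sM = mcl 1 OPAut.one_mem * sM := (one_mul sM).symm
  rw [nrm, h2, h1, cf_vec, cf_vec, cf_vec_s, cf_vec_s, inv_one, MulAut.one_apply, ell]
  push_cast
  ring

theorem exists_bound (t : Test) : ∃ C : ℝ, ∀ c : ConjClasses Pi, vec c t ≤ C * nrm (vec c) := by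
  obtain ⟨b, χ⟩ := t
  obtain ⟨ψ, h, rfl⟩ := exists_mcl χ
  cases b
  · obtain ⟨C, hC⟩ := inum_le_const (ψ⁻¹ : MulAut Pi).toMonoidHom 0
    refine ⟨C, fun c => ?_⟩
    obtain ⟨x, rfl⟩ := ConjClasses.mk_surjective c
    rw [nrm_vec, vec_false, mcl_inv, mcl_smul_mk, i0_eq]
    exact_mod_cast hC x
  · obtain ⟨C, hC⟩ := is_le (ψ⁻¹ : MulAut Pi).toMonoidHom
    refine ⟨C, fun c => ?_⟩
    obtain ⟨x, rfl⟩ := ConjClasses.mk_surjective c
    rw [nrm_vec, vec_true, mcl_inv, mcl_smul_mk]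
    exact_mod_cast hC x

/-- the constant in `exists_bound` -/
noncomputable def Cst (t : Test) : ℝ := (exists_bound t).choose

/-- the conditions -/
structure Lam (v : Test → ℝ) : Prop where
  nonneg : ∀ t, 0 ≤ v t
  bdd : ∀ t, v t ≤ Cst t * nrm v
  low : ∀ (g : MCG) (m : ℤ) (b : Fin 2),
    (m.natAbs : ℝ) * (II 0 b * cf 0 g v + II 1 b * cf 1 g v) ≤
      cf b (g * mT ^ (-m) * sM) v + 20 * (cf 0 g v + cf 1 g v + cf 0 (g * sM) v + cf 1 (g * sM) v)
  up : ∀ (g : MCG) (m : ℤ) (b : Fin 2), cf b (g * mT ^ (-m) * sM) v ≤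
    (m.natAbs : ℝ) * (II 0 b * cf 0 g v + II 1 b * cf 1 g v) + cf b (g * sM) v
  invT : ∀ (g : MCG) (a : Fin 2), cf a (g * mT) v = cf a g v
  invI : ∀ (g : MCG) (a : Fin 2), cf a (g * mI) v = cf a g v
  swap : ∀ (g : MCG) (a : Fin 2), cf a (g * phiM) v = cf (1 - a) g v

theorem mT_zpow (k : ℤ) : mT ^ k = mcl (aT ^ k) (OPAut.zpow_mem aT_mem k) := by
  have h1 : mT ^ k = aM (tt ^ k) := by rw [map_zpow, aM_tt]
  rw [h1, aM_apply]
  apply Subtype.ext
  show (QuotientGroup.mk (alpha (tt ^ k)) : OutPi) = QuotientGroup.mk (aT ^ k)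
  rw [map_zpow, alpha_tt]

theorem cf_low (g : MCG) (x : Pi) {ψ : MulAut Pi} (h : ψ ∈ OPAut) (hg : g = mcl ψ h) (m : ℤ)
    (b : Fin 2) : cf b (g * mT ^ (-m) * sM) (vec (ConjClasses.mk x)) =
      jnum b ((aT ^ m) (ψ⁻¹ x)) := by
  rw [hg, mT_zpow, mcl_mul, cf_vec_s, mul_inv_rev, MulAut.mul_apply, zpow_neg, inv_inv]

theorem lam_vec (c : ConjClasses Pi) : Lam (vec c) := by
  obtain ⟨x, rfl⟩ := ConjClasses.mk_surjective c
  refine ⟨?_, ?_, ?_, ?_, ?_, ?_, ?_⟩
  · intro t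
    rw [vec]
    split_ifs
    · exact Nat.cast_nonneg _
    · exact Nat.cast_nonneg _
  · intro t
    exact (exists_bound t).choose_spec _
  · intro g m b
    obtain ⟨ψ, h, rfl⟩ := exists_mcl g
    rw [cf_low _ x h rfl, cf_vec, cf_vec, cf_vec_s, cf_vec_s]
    have h1 := twLow m b (ψ⁻¹ x)
    rw [ell] at h1
    have h2 : ((m.natAbs * (II 0 b * inum 0 (ψ⁻¹ x) + II 1 b * inum 1 (ψ⁻¹ x)) : ℕ) : ℝ) ≤
      ((jnum b ((aT ^ m) (ψ⁻¹ x)) + 20 * (inum 0 (ψ⁻¹ x) + inum 1 (ψ⁻¹ x) + jnum 0 (ψ⁻¹ x) +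
        jnum 1 (ψ⁻¹ x)) : ℕ) : ℝ) := by exact_mod_cast h1
    push_cast at h2
    exact h2
  · intro g m b
    obtain ⟨ψ, h, rfl⟩ := exists_mcl g
    rw [cf_low _ x h rfl, cf_vec, cf_vec, cf_vec_s]
    have h1 := twUp m b (ψ⁻¹ x)
    have h2 : ((jnum b ((aT ^ m) (ψ⁻¹ x)) : ℕ) : ℝ) ≤ ((m.natAbs *
      (II 0 b * inum 0 (ψ⁻¹ x) + II 1 b * inum 1 (ψ⁻¹ x)) + jnum b (ψ⁻¹ x) : ℕ) : ℝ) := by
      exact_mod_cast h1
    push_cast at h2
    exact h2
  · intro g a
    obtain ⟨ψ, h, rfl⟩ := exists_mcl g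
    have h1 : inum a ((ψ * aT)⁻¹ x) = inum a (ψ⁻¹ x) := by
      have h2 := inum_aT_zpow a (-1) (ψ⁻¹ x)
      rw [zpow_neg_one] at h2
      rw [mul_inv_rev, MulAut.mul_apply, h2]
    rw [mT, mcl_mul, cf_vec, cf_vec, h1]
  · intro g a
    obtain ⟨ψ, h, rfl⟩ := exists_mcl g
    have h1 : inum a ((ψ * aI)⁻¹ x) = inum a (ψ⁻¹ x) := by
      rw [mul_inv_rev, MulAut.mul_apply, ← inum_aI a (aI⁻¹ (ψ⁻¹ x)), MulAut.apply_inv_self]
    rw [mI, mcl_mul, cf_vec, cf_vec, h1]
  · intro g a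
    obtain ⟨ψ, h, rfl⟩ := exists_mcl g
    have h1 : inum a ((ψ * psi⁻¹)⁻¹ x) = inum (1 - a) (ψ⁻¹ x) := by
      rw [mul_inv_rev, inv_inv, MulAut.mul_apply]
      fin_cases a
      · exact inum_psi0 _
      · exact inum_psi1 _
    rw [phiM, mcl_inv, mcl_mul, cf_vec, cf_vec, h1]

theorem cf_smul (a : Fin 2) (g : MCG) (r : ℝ) (v : Test → ℝ) : cf a g (r • v) = r * cf a g v := rfl

theorem nrm_smul (r : ℝ) (v : Test → ℝ) : nrm (r • v) = r * nrm v := by
  rw [nrm, nrm, cf_smul, cf_smul, cf_smul, cf_smul]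
  ring

theorem lam_smul {v : Test → ℝ} (h : Lam v) {r : ℝ} (hr : 0 < r) : Lam (r • v) := by
  refine ⟨?_, ?_, ?_, ?_, ?_, ?_, ?_⟩
  · intro t
    exact mul_nonneg hr.le (h.nonneg t)
  · intro t
    rw [nrm_smul]
    have h1 := mul_le_mul_of_nonneg_left (h.bdd t) hr.le
    show r * v t ≤ _
    linarith
  · intro g m b
    have h1 := mul_le_mul_of_nonneg_left (h.low g m b) hr.le
    simp only [cf_smul]
    linarith
  · intro g m b
    have h1 := mul_le_mul_of_nonneg_left (h.up g m b) hr.le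
    simp only [cf_smul]
    linarith
  · intro g a
    rw [cf_smul, cf_smul, h.invT]
  · intro g a
    rw [cf_smul, cf_smul, h.invI]
  · intro g a
    rw [cf_smul, cf_smul, h.swap]

theorem continuous_cf (a : Fin 2) (g : MCG) : Continuous (cf a g) := continuous_apply _

theorem continuous_nrm : Continuous nrm :=
  (((continuous_cf _ _).add (continuous_cf _ _)).add (continuous_cf _ _)).add (continuous_cf _ _)

theorem isClosed_lam : IsClosed {v : Test → ℝ | Lam v} := by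
  have h : {v : Test → ℝ | Lam v} =
      {v | ∀ t, 0 ≤ v t} ∩ {v | ∀ t, v t ≤ Cst t * nrm v} ∩
      {v | ∀ (g : MCG) (m : ℤ) (b : Fin 2),
        (m.natAbs : ℝ) * (II 0 b * cf 0 g v + II 1 b * cf 1 g v) ≤
        cf b (g * mT ^ (-m) * sM) v + 20 * (cf 0 g v + cf 1 g v + cf 0 (g * sM) v +
          cf 1 (g * sM) v)} ∩
      {v | ∀ (g : MCG) (m : ℤ) (b : Fin 2), cf b (g * mT ^ (-m) * sM) v ≤
        (m.natAbs : ℝ) * (II 0 b * cf 0 g v + II 1 b * cf 1 g v) + cf b (g * sM) v} ∩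
      {v | ∀ (g : MCG) (a : Fin 2), cf a (g * mT) v = cf a g v} ∩
      {v | ∀ (g : MCG) (a : Fin 2), cf a (g * mI) v = cf a g v} ∩
      {v | ∀ (g : MCG) (a : Fin 2), cf a (g * phiM) v = cf (1 - a) g v} := by
    ext v
    constructor
    · intro h
      exact ⟨⟨⟨⟨⟨⟨h.nonneg, h.bdd⟩, h.low⟩, h.up⟩, h.invT⟩, h.invI⟩, h.swap⟩
    · rintro ⟨⟨⟨⟨⟨⟨h1, h2⟩, h3⟩, h4⟩, h5⟩, h6⟩, h7⟩
      exact ⟨h1, h2, h3, h4, h5, h6, h7⟩
  rw [h]
  refine IsClosed.inter (IsClosed.inter (IsClosed.inter (IsClosed.inter (IsClosed.inter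
    (IsClosed.inter ?_ ?_) ?_) ?_) ?_) ?_) ?_
  · rw [Set.ofPred_forall]
    exact isClosed_iInter fun t => isClosed_le continuous_const (continuous_apply t)
  · rw [Set.ofPred_forall]
    exact isClosed_iInter fun t => isClosed_le (continuous_apply t)
      (continuous_const.mul continuous_nrm)
  · simp only [Set.ofPred_forall]
    refine isClosed_iInter fun g => isClosed_iInter fun m => isClosed_iInter fun b => ?_
    refine isClosed_le ?_ ?_
    · exact continuous_const.mul ((continuous_const.mul (continuous_cf _ _)).add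
        (continuous_const.mul (continuous_cf _ _)))
    · exact (continuous_cf _ _).add (continuous_const.mul ((((continuous_cf _ _).add
        (continuous_cf _ _)).add (continuous_cf _ _)).add (continuous_cf _ _)))
  · simp only [Set.ofPred_forall]
    refine isClosed_iInter fun g => isClosed_iInter fun m => isClosed_iInter fun b => ?_
    refine isClosed_le (continuous_cf _ _) ?_
    exact (continuous_const.mul ((continuous_const.mul (continuous_cf _ _)).add
        (continuous_const.mul (continuous_cf _ _)))).add (continuous_cf _ _)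
  · simp only [Set.ofPred_forall]
    exact isClosed_iInter fun g => isClosed_iInter fun a => isClosed_eq (continuous_cf _ _)
      (continuous_cf _ _)
  · simp only [Set.ofPred_forall]
    exact isClosed_iInter fun g => isClosed_iInter fun a => isClosed_eq (continuous_cf _ _)
      (continuous_cf _ _)
  · simp only [Set.ofPred_forall]
    exact isClosed_iInter fun g => isClosed_iInter fun a => isClosed_eq (continuous_cf _ _)
      (continuous_cf _ _)

theorem ray_eq_iff {v w : Test → ℝ} (h : v ≠ 0) (h' : w ≠ 0) :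
    ray v h = ray w h' ↔ ∃ r : ℝ, 0 < r ∧ v = r • w :=
  Quotient.eq (r := raySetoid)

theorem exists_ray (P : PR) : ∃ (v : Test → ℝ) (h : v ≠ 0), P = ray v h := by
  obtain ⟨⟨v, h⟩, rfl⟩ := Quotient.exists_rep P
  exact ⟨v, h, rfl⟩

/-- the quotient map -/
def qray : {v : Test → ℝ // v ≠ 0} → PR := Quotient.mk raySetoid

theorem isQuotientMap_qray : IsQuotientMap qray := isQuotientMap_quot_mk

theorem lam_of_PML {v : Test → ℝ} {h : v ≠ 0} (hP : ray v h ∈ PML) : Lam v := by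
  have hZ : IsClosed {P : PR | ∀ (v : Test → ℝ) (h : v ≠ 0), P = ray v h → Lam v} := by
    rw [← isQuotientMap_qray.isClosed_preimage]
    have h1 : qray ⁻¹' {P : PR | ∀ (v : Test → ℝ) (h : v ≠ 0), P = ray v h → Lam v} =
        Subtype.val ⁻¹' {v : Test → ℝ | Lam v} := by
      ext ⟨w, hw⟩
      constructor
      · intro h2
        exact h2 w hw rfl
      · intro h2 u hu hwu
        obtain ⟨r, hr, hr'⟩ := (ray_eq_iff hu hw).1 (hwu.symm : ray u hu = ray w hw)
        rw [hr']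
        exact lam_smul h2 hr
    rw [h1]
    exact isClosed_lam.preimage continuous_subtype_val
  have h2 : PML ⊆ {P : PR | ∀ (v : Test → ℝ) (h : v ≠ 0), P = ray v h → Lam v} := by
    apply closure_minimal _ hZ
    rintro _ ⟨c, -, hc, rfl⟩ w hw hcw
    obtain ⟨r, hr, hr'⟩ := (ray_eq_iff hw hc).1 hcw.symm
    rw [hr']
    exact lam_smul (lam_vec c) hr
  exact h2 hP v h rfl

theorem ratio_tendsto {v : ℕ → Test → ℝ} (hv : ∀ n, v n ≠ 0) {μ : Test → ℝ} (hμ : μ ≠ 0)
    (hlim : Tendsto (fun n => ray (v n) (hv n)) atTop (𝓝 (ray μ hμ))) {t t' : Test}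
    (ht : μ t ≠ 0) : (∀ᶠ n in atTop, v n t ≠ 0) ∧
      Tendsto (fun n => v n t' / v n t) atTop (𝓝 (μ t' / μ t)) := by
  have key : ∀ V : Set ℝ, IsOpen V → μ t' / μ t ∈ V →
      ∀ᶠ n in atTop, v n t ≠ 0 ∧ v n t' / v n t ∈ V := by
    intro V hV hmem
    have hconst : ∀ {w u : Test → ℝ} {r : ℝ}, 0 < r → w = r • u →
        (u t ≠ 0 ∧ u t' / u t ∈ V) → (w t ≠ 0 ∧ w t' / w t ∈ V) := by
      rintro w u r hr rfl ⟨h1, h2⟩
      have h3 : (r • u) t' / (r • u) t = u t' / u t := by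
        show (r * u t') / (r * u t) = _
        rw [mul_div_mul_left _ _ hr.ne']
      rw [h3]
      exact ⟨mul_ne_zero hr.ne' h1, h2⟩
    have hW : IsOpen {P : PR | ∀ (w : Test → ℝ) (h : w ≠ 0), P = ray w h →
        w t ≠ 0 ∧ w t' / w t ∈ V} := by
      rw [← isQuotientMap_qray.isOpen_preimage]
      have h1 : qray ⁻¹' {P : PR | ∀ (w : Test → ℝ) (h : w ≠ 0), P = ray w h →
          w t ≠ 0 ∧ w t' / w t ∈ V} =
          {w : {v : Test → ℝ // v ≠ 0} | w.1 t ≠ 0} ∩ (fun w => w.1 t' / w.1 t) ⁻¹' V := by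
        ext ⟨w, hw⟩
        constructor
        · intro h2
          exact h2 w hw rfl
        · intro h2 u hu hwu
          obtain ⟨r, hr, hr'⟩ := (ray_eq_iff hu hw).1 (hwu.symm : ray u hu = ray w hw)
          exact hconst hr hr' h2
      rw [h1]
      have hc : ∀ s : Test, Continuous (fun w : {v : Test → ℝ // v ≠ 0} => w.1 s) := fun s =>
        (continuous_apply s).comp continuous_subtype_val
      refine ContinuousOn.isOpen_inter_preimage ?_ ?_ hV
      · exact (hc t').continuousOn.div (hc t).continuousOn (fun w hw => hw)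
      · exact isOpen_ne.preimage (hc t)
    have hμW : ray μ hμ ∈ {P : PR | ∀ (w : Test → ℝ) (h : w ≠ 0), P = ray w h →
        w t ≠ 0 ∧ w t' / w t ∈ V} := by
      intro w hw hwu
      obtain ⟨r, hr, hr'⟩ := (ray_eq_iff hw hμ).1 hwu.symm
      exact hconst hr hr' ⟨ht, hmem⟩
    filter_upwards [hlim.eventually (hW.mem_nhds hμW)] with n hn
    exact hn (v n) (hv n) rfl
  refine ⟨(key Set.univ isOpen_univ trivial).mono fun n hn => hn.1, ?_⟩
  rw [tendsto_nhds]
  intro V hV hmem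
  exact (key V hV hmem).mono fun n hn => hn.2

theorem tendsto_div_nat {u : ℕ → ℝ} {C : ℝ} (h : ∀ n, |u n| ≤ C) :
    Tendsto (fun n : ℕ => u n / n) atTop (𝓝 0) := by
  have h1 : Tendsto (fun n : ℕ => C / (n : ℝ)) atTop (𝓝 0) :=
    tendsto_const_div_atTop_nhds_zero_nat C
  apply squeeze_zero_norm _ h1
  intro n
  rw [Real.norm_eq_abs, abs_div, Nat.abs_cast]
  exact div_le_div_of_nonneg_right (h n) (Nat.cast_nonneg n)

theorem limit_ratio_aux {v : ℕ → Test → ℝ} (hv : ∀ n, v n ≠ 0) {μ : Test → ℝ} (hμ : μ ≠ 0)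
    (hlim : Tendsto (fun n => ray (v n) (hv n)) atTop (𝓝 (ray μ hμ))) {t t' : Test} {L L' C : ℝ}
    (h1 : ∀ n : ℕ, |v n t - n * L| ≤ C) (h2 : ∀ n : ℕ, |v n t' - n * L'| ≤ C) (ht : μ t ≠ 0) :
    μ t * L' = μ t' * L := by
  obtain ⟨h3, h4⟩ := ratio_tendsto hv hμ hlim (t := t) (t' := t') ht
  have h5 : Tendsto (fun n : ℕ => (v n t - n * L) / (n : ℝ)) atTop (𝓝 0) := tendsto_div_nat h1
  have h6 : Tendsto (fun n : ℕ => (v n t' - n * L') / (n : ℝ)) atTop (𝓝 0) := tendsto_div_nat h2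
  have h7 : Tendsto (fun n : ℕ => v n t' / v n t * L + v n t' / v n t * ((v n t - n * L) / (n : ℝ))
      - (v n t' - n * L') / (n : ℝ)) atTop (𝓝 (μ t' / μ t * L + μ t' / μ t * 0 - 0)) :=
    ((h4.mul_const L).add (h4.mul h5)).sub h6
  have h8 : ∀ᶠ n : ℕ in atTop, v n t' / v n t * L + v n t' / v n t * ((v n t - n * L) / (n : ℝ))
      - (v n t' - n * L') / (n : ℝ) = L' := by
    filter_upwards [h3, eventually_ge_atTop 1] with n hn hn1
    have hn2 : (n : ℝ) ≠ 0 := by positivity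
    field_simp
    ring
  have h9 : Tendsto (fun _ : ℕ => L') atTop (𝓝 (μ t' / μ t * L + μ t' / μ t * 0 - 0)) :=
    h7.congr' h8
  have h10 := tendsto_nhds_unique tendsto_const_nhds h9
  rw [h10]
  field_simp
  ring

theorem limit_ratio {v : ℕ → Test → ℝ} (hv : ∀ n, v n ≠ 0) {μ : Test → ℝ} (hμ : μ ≠ 0)
    (hlim : Tendsto (fun n => ray (v n) (hv n)) atTop (𝓝 (ray μ hμ))) {t t' : Test} {L L' C : ℝ}
    (h1 : ∀ n : ℕ, |v n t - n * L| ≤ C) (h2 : ∀ n : ℕ, |v n t' - n * L'| ≤ C) :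
    μ t * L' = μ t' * L := by
  by_cases ht : μ t = 0
  · by_cases ht' : μ t' = 0
    · rw [ht, ht', zero_mul, zero_mul]
    · exact (limit_ratio_aux hv hμ hlim h2 h1 ht').symm
  · exact limit_ratio_aux hv hμ hlim h1 h2 ht

end Pool.Agent.VSB.M
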