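import Pool.Agent.VSB.FD
import Pool.Agent.VSB.Homol

/-! # VSB/PhiData: the explicit mapping class `psi` (the inverse of `φ`)

`psi` preserves the multicurve `γ 0 ∪ γ 1`, exchanges the two curves and acts on the complement (free group
`F`) by `theta`. All statements below are finite computations; they have been checked by computer with exactly the
words given here.

Proof hints. Equalities in `F = FreeGroup (Fin 3)`: `F` has decidable equality (`FreeGroup.toWord`), `decide +kernel`
should do it; otherwise `simp`/`group` after expanding, or compute with `FreeGroup.mk` on lists and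
`FreeGroup.reduce` (`FreeGroup.toWord_mk`, `FreeGroup.reduce.exact`). `theta (FreeGroup.mk L)` is
`FreeGroup.mk (L.flatMap (letter ↦ thw j or its inverse))` (`FreeGroup.lift_mk`), which is useful as well for
PhiCheck: prove `theta_mk`.

`psi := psiD.aut` (file FD): `psi (inc f) = inc (theta f)`, `psi (t p) = inc (k p) * t (π p) * (inc (k (bar p)))⁻¹`.

* `psi_aT`: both sides are homomorphisms; compare on `S j = inc (of j)` (`aT (S j) = S j`, and `aT (inc f) = inc f`
for all `f`) and on `N 0 = t 0`, `N 1 = t 2`, `N 2 = (S 1)⁻¹ * N 1 * S 0`; `aT (N 0) = S 0 * N 0 = inc (c 0) * t 0`,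
`aT (N 1) = inc (c 2) * t 2`; use `psiD.hc` : `theta (c p) = k p * c (π p) * (k p)⁻¹`, `π 0 = 2`, `π 2 = 0`.
* `psi_aI`: again compare on `S j` and `N 0`, `N 1` (then `N 2` follows): for `S j` this is the identity
`theta (iF x) = gI * iF (theta x) * gI⁻¹` in `F` (`iF` = restriction of `aI`: `s0 ↦ s1⁻¹`, `s1 ↦ s0⁻¹`,
`s2 ↦ s2⁻¹`), for `x = s0, s1, s2`; for `N 0`, `N 1` both sides are of the form `inc _ * t _ * inc _`
with the same `t` and the comparison is an identity `inc (c p ^ m) * t p = t p * inc (c (bar p) ^ m)`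
(`inc_c_zpow_t`), `m` small (find it by computer).
* `OP_psi`: `hv (psi x)` is a linear function of `hv x` (`hv_aut`, or `coo_universal`); both sides are
bilinear in `hv x`, `hv y`; `hv` is generated by `hv (S 2) = ![1,0,0,0]`, `hv (S 1) = ![0,1,0,0]`,
`hv (N 0) = ![0,0,1,0]`, `hv (N 1) = ![0,0,0,1]` (as in the proof of `OP_aR` in file Homol).
* `inum_psi0` etc.: `FD.inum_aut_eq` for `psiD` with `kind (π p) = b ↔ kind p = a`; the versions for `psi⁻¹` follow
by substituting `x = psi (psi⁻¹ x)`. -/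

set_option autoImplicit false

namespace Pool.Agent.VSB

/-- images of the generators -/
def thw : Fin 3 → List (Fin 3 × Bool) :=
  ![[(2, true), (1, true)],
    [(0, true), (2, true), (1, false), (2, false), (0, false), (2, true), (1, true), (0, true),
      (2, true), (1, false), (2, false), (0, true), (2, true), (1, true), (2, false), (0, false)],
    [(0, true), (2, true), (1, false), (2, false), (0, false), (2, true), (1, true), (2, false),
      (0, false), (1, false), (2, false), (0, true), (2, true), (1, true), (2, false), (0, false),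
      (2, true), (1, true), (0, true), (2, true), (1, false), (2, false), (0, true), (2, true),
      (1, true), (2, false), (0, false), (1, false), (2, false)]]

/-- images of the generators under the inverse -/
def thiw : Fin 3 → List (Fin 3 × Bool) :=
  ![[(1, true), (2, true), (0, true), (1, false), (0, false), (1, true), (2, true), (0, true),
      (1, true), (0, false), (2, false), (1, false)],
    [(0, false), (1, true), (2, true), (0, true), (1, false), (0, false), (2, false), (1, false),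
      (0, true), (1, true), (2, true), (0, true), (1, false), (0, false), (1, true), (2, true),
      (0, true), (1, true), (0, false), (2, false), (1, false), (0, true)],
    [(1, true), (2, true), (0, true), (1, false), (0, false), (2, false), (1, false), (0, true),
      (1, true), (0, false), (2, false), (1, false), (0, false), (1, true), (2, true), (0, true),
      (1, true), (0, false), (2, false), (1, false), (0, true)]]

/-- the conjugators -/
def kw : Fin 4 → List (Fin 3 × Bool) :=
  ![[(2, true)],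
    [(0, true), (2, true), (1, false), (2, false), (0, false), (2, true), (1, true)],
    [(2, true), (1, true), (0, true), (2, true), (1, false), (2, false)],
    [(2, true), (1, true), (0, true), (2, true), (1, false), (2, false), (0, false), (2, true),
      (1, true), (2, false), (0, false), (1, false), (2, false), (0, true), (2, true)]]

def thHom : F →* F := FreeGroup.lift (fun j => FreeGroup.mk (thw j))
def thiHom : F →* F := FreeGroup.lift (fun j => FreeGroup.mk (thiw j))

theorem thHom_thi (j : Fin 3) : thHom (FreeGroup.mk (thiw j)) = FreeGroup.of j := by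
  revert j; decide +kernel

theorem thiHom_th (j : Fin 3) : thiHom (FreeGroup.mk (thw j)) = FreeGroup.of j := by
  revert j; decide +kernel

/-- the automorphism of the free group of the complement -/
def theta : MulAut F := MonoidHom.toMulEquiv thHom thiHom
  (FreeGroup.ext_hom _ _ (fun j => by
    rw [MonoidHom.comp_apply, thHom, FreeGroup.lift_apply_of]; exact thiHom_th j))
  (FreeGroup.ext_hom _ _ (fun j => by
    rw [MonoidHom.comp_apply, thiHom, FreeGroup.lift_apply_of]; exact thHom_thi j))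

theorem theta_apply (f : F) : theta f = thHom f := rfl

theorem theta_c (p : Fin 4) : theta (c p) = FreeGroup.mk (kw p) * c (![2, 3, 0, 1] p) *
    (FreeGroup.mk (kw p))⁻¹ := by
  revert p; decide +kernel

/-- the gluing data of `psi` -/
def psiD : FD where
  θ := theta
  π := ![2, 3, 0, 1]
  k := fun p => FreeGroup.mk (kw p)
  hπ := by decide
  inj := by decide
  hc := theta_c

/-- the mapping class `ψ` -/
noncomputable def psi : MulAut Pi := psiD.aut

theorem psi_inc (f : F) : psi (inc f) = inc (theta f) := psiD.aut_inc f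

theorem psi_t (p : Fin 4) : psi (t p) = inc (FreeGroup.mk (kw p)) * t (![2, 3, 0, 1] p) *
    (inc (FreeGroup.mk (kw (bar p))))⁻¹ := psiD.aut_t p

/-! auxiliary statements -/

namespace PhiData

theorem aT_inc (f : F) : aT (inc f) = inc f := by
  have h : aT.toMonoidHom.comp inc = inc := by
    apply FreeGroup.ext_hom
    intro j
    show aT (inc (FreeGroup.of j)) = inc (FreeGroup.of j)
    rw [inc_of, aT_S]
  exact DFunLike.congr_fun h f

theorem aT_t0 : aT (t 0) = inc (c 0) * t 0 := by
  have hc0 : inc (c 0) = S 0 := inc_of 0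
  rw [hc0]
  exact aT_N0

theorem aT_t2 : aT (t 2) = inc (c 2) * t 2 := by
  have hc2 : inc (c 2) = S 1 * S 2 := by
    show inc (FreeGroup.of 1 * FreeGroup.of 2) = _
    rw [map_mul, inc_of, inc_of]
  rw [hc2]
  exact aT_N1

/-- two homomorphisms which agree on the `S j` and on `t 0`, `t 2` are equal -/
theorem hom_ext_t' {G : Type*} [Group G] {φ χ : Pi →* G} (hS : ∀ j, φ (S j) = χ (S j))
    (h0 : φ (t 0) = χ (t 0)) (h2 : φ (t 2) = χ (t 2)) : φ = χ := by
  apply FD.hom_ext_t hS
  intro p
  fin_cases p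
  · exact h0
  · show φ (t (bar 0)) = χ (t (bar 0))
    rw [t_bar, map_inv, map_inv, h0]
  · exact h2
  · show φ (t (bar 2)) = χ (t (bar 2))
    rw [t_bar, map_inv, map_inv, h2]

/-- the restriction of `aI` to the free group -/
def iF : F →* F :=
  FreeGroup.lift ![(FreeGroup.of 1)⁻¹, (FreeGroup.of 0)⁻¹, (FreeGroup.of 2)⁻¹]

theorem aI_inc (f : F) : aI (inc f) = inc (iF f) := by
  have h : aI.toMonoidHom.comp inc = inc.comp iF := by
    apply FreeGroup.ext_hom
    intro j
    show aI (inc (FreeGroup.of j)) = inc (iF (FreeGroup.of j))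
    rw [inc_of, aI_S, iF, FreeGroup.lift_apply_of]
    fin_cases j
    · show (S 1)⁻¹ = inc (FreeGroup.of 1)⁻¹; rw [map_inv, inc_of]
    · show (S 0)⁻¹ = inc (FreeGroup.of 0)⁻¹; rw [map_inv, inc_of]
    · show (S 2)⁻¹ = inc (FreeGroup.of 2)⁻¹; rw [map_inv, inc_of]
  exact DFunLike.congr_fun h f

theorem aI_t0 : aI (t 0) = t 1 := aI_N 0

theorem aI_t2 : aI (t 2) = (inc (FreeGroup.of 0))⁻¹ * t 3 * inc (FreeGroup.of 1) := by
  show aI (N 1) = (inc (FreeGroup.of 0))⁻¹ * (N 1)⁻¹ * inc (FreeGroup.of 1)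
  rw [aI_N]
  show (N 2)⁻¹ = _
  rw [N2_eq, inc_of, inc_of]
  group

theorem key_F (j : Fin 3) : thHom (iF (FreeGroup.of j)) =
    FreeGroup.mk (kw 1) * iF (thHom (FreeGroup.of j)) * (FreeGroup.mk (kw 1))⁻¹ := by
  revert j; decide +kernel

theorem key_0 : (c 2)⁻¹ * FreeGroup.of 1 * (iF (FreeGroup.mk (kw 1)))⁻¹ * (FreeGroup.mk (kw 1))⁻¹ =
    (FreeGroup.mk (kw 0))⁻¹ := by
  decide +kernel

theorem key_0' : iF (FreeGroup.mk (kw 0)) * (FreeGroup.of 0)⁻¹ = (c 3)⁻¹ := by
  decide +kernel

theorem key_2 : (thHom (FreeGroup.of 0))⁻¹ * FreeGroup.mk (kw 3) =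
    FreeGroup.mk (kw 1) * iF (FreeGroup.mk (kw 2)) := by
  decide +kernel

theorem key_2' : (FreeGroup.mk (kw 2))⁻¹ * thHom (FreeGroup.of 1) =
    (iF (FreeGroup.mk (kw 3)))⁻¹ * (FreeGroup.mk (kw 1))⁻¹ := by
  decide +kernel

theorem psi_t0 : psi (t 0) = inc (FreeGroup.mk (kw 0)) * t 2 * (inc (FreeGroup.mk (kw 1)))⁻¹ :=
  psi_t 0

theorem psi_t1 : psi (t 1) = inc (FreeGroup.mk (kw 1)) * t 3 * (inc (FreeGroup.mk (kw 0)))⁻¹ :=
  psi_t 1

theorem psi_t2 : psi (t 2) = inc (FreeGroup.mk (kw 2)) * t 0 * (inc (FreeGroup.mk (kw 3)))⁻¹ :=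
  psi_t 2

theorem psi_t3 : psi (t 3) = inc (FreeGroup.mk (kw 3)) * t 1 * (inc (FreeGroup.mk (kw 2)))⁻¹ :=
  psi_t 3

theorem theta_c0 : theta (c 0) = FreeGroup.mk (kw 0) * c 2 * (FreeGroup.mk (kw 0))⁻¹ := theta_c 0

theorem theta_c2 : theta (c 2) = FreeGroup.mk (kw 2) * c 0 * (FreeGroup.mk (kw 2))⁻¹ := theta_c 2

end PhiData

open PhiData

theorem psi_aT (x : Pi) : psi (aT x) = aT (psi x) := by
  have h : psi.toMonoidHom.comp aT.toMonoidHom = aT.toMonoidHom.comp psi.toMonoidHom := by
    apply hom_ext_t'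
    · intro j
      show psi (aT (S j)) = aT (psi (S j))
      rw [aT_S, ← inc_of, psi_inc, aT_inc]
    · show psi (aT (t 0)) = aT (psi (t 0))
      rw [aT_t0, map_mul, psi_inc, psi_t0, theta_c0, map_mul aT, map_mul aT, map_inv aT, aT_inc,
        aT_inc, aT_t2]
      simp only [map_mul, map_inv]
      group
    · show psi (aT (t 2)) = aT (psi (t 2))
      rw [aT_t2, map_mul, psi_inc, psi_t2, theta_c2, map_mul aT, map_mul aT, map_inv aT, aT_inc,
        aT_inc, aT_t0]
      simp only [map_mul, map_inv]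
      group
  exact DFunLike.congr_fun h x

theorem psi_mul_aT : psi * aT = aT * psi := by
  apply MulEquiv.ext
  intro x
  exact psi_aT x

/-- `ψ` commutes with the hyperelliptic involution up to this inner automorphism -/
def gI : Pi := inc (FreeGroup.mk (kw 1))

theorem psi_aI (x : Pi) : psi (aI x) = gI * aI (psi x) * gI⁻¹ := by
  have h : psi.toMonoidHom.comp aI.toMonoidHom =
      (MulAut.conj gI).toMonoidHom.comp (aI.toMonoidHom.comp psi.toMonoidHom) := by
    apply hom_ext_t'
    · intro j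
      show psi (aI (S j)) = gI * aI (psi (S j)) * gI⁻¹
      rw [← inc_of, aI_inc, psi_inc, psi_inc, aI_inc, theta_apply, theta_apply, key_F, gI,
        map_mul, map_mul, map_inv]
    · show psi (aI (t 0)) = gI * aI (psi (t 0)) * gI⁻¹
      rw [aI_t0, psi_t1, psi_t0, map_mul aI, map_mul aI, map_inv aI, aI_inc, aI_inc, aI_t2, gI]
      have h1 := congrArg inc key_0
      have h2 := congrArg inc key_0'
      have h3 : (inc (c 3))⁻¹ * t 3 = t 3 * (inc (c 2))⁻¹ := by
        have h4 : inc (c 3) * t 3 = t 3 * inc (c 2) := c_t 3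
        rw [inv_mul_eq_iff_eq_mul, ← mul_assoc, h4]; group
      simp only [map_mul, map_inv] at h1 h2
      rw [← h1]
      calc inc (FreeGroup.mk (kw 1)) * t 3 * ((inc (c 2))⁻¹ * inc (FreeGroup.of 1) *
            (inc (iF (FreeGroup.mk (kw 1))))⁻¹ * (inc (FreeGroup.mk (kw 1)))⁻¹)
          = inc (FreeGroup.mk (kw 1)) * (t 3 * (inc (c 2))⁻¹) * (inc (FreeGroup.of 1) *
            (inc (iF (FreeGroup.mk (kw 1))))⁻¹ * (inc (FreeGroup.mk (kw 1)))⁻¹) := by group
        _ = inc (FreeGroup.mk (kw 1)) * ((inc (iF (FreeGroup.mk (kw 0))) *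
            (inc (FreeGroup.of 0))⁻¹) * t 3) * (inc (FreeGroup.of 1) *
            (inc (iF (FreeGroup.mk (kw 1))))⁻¹ * (inc (FreeGroup.mk (kw 1)))⁻¹) := by
          rw [← h3, h2]
        _ = _ := by group
    · show psi (aI (t 2)) = gI * aI (psi (t 2)) * gI⁻¹
      rw [aI_t2, psi_t2, map_mul psi, map_mul psi, map_inv psi, psi_inc, psi_inc, psi_t3,
        map_mul aI, map_mul aI, map_inv aI, aI_inc, aI_inc, aI_t0, gI, theta_apply, theta_apply]
      have h1 := congrArg inc key_2
      have h2 := congrArg inc key_2'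
      simp only [map_mul, map_inv] at h1 h2
      calc (inc (thHom (FreeGroup.of 0)))⁻¹ * (inc (FreeGroup.mk (kw 3)) * t 1 *
            (inc (FreeGroup.mk (kw 2)))⁻¹) * inc (thHom (FreeGroup.of 1))
          = ((inc (thHom (FreeGroup.of 0)))⁻¹ * inc (FreeGroup.mk (kw 3))) * t 1 *
            ((inc (FreeGroup.mk (kw 2)))⁻¹ * inc (thHom (FreeGroup.of 1))) := by group
        _ = (inc (FreeGroup.mk (kw 1)) * inc (iF (FreeGroup.mk (kw 2)))) * t 1 *
            ((inc (iF (FreeGroup.mk (kw 3))))⁻¹ * (inc (FreeGroup.mk (kw 1)))⁻¹) := by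
          rw [h1, h2]
        _ = _ := by group
  exact DFunLike.congr_fun h x

namespace PhiData

def sgb (b : Bool) : ℤ := if b then 1 else -1

def cA (L : List (Fin 3 × Bool)) : ℤ := (L.map (fun a => if a.1 = 2 then sgb a.2 else 0)).sum

def cB (L : List (Fin 3 × Bool)) : ℤ := (L.map (fun a => if a.1 = 2 then 0 else sgb a.2)).sum

theorem hv_one : hv 1 = 0 := by simp [hv]

theorem hv_letter (a : Fin 3 × Bool) : hv (inc (FreeGroup.mk [a])) =
    ![if a.1 = 2 then sgb a.2 else 0, if a.1 = 2 then 0 else sgb a.2, 0, 0] := by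
  obtain ⟨i, b⟩ := a
  cases b with
  | true =>
    have h : (FreeGroup.mk [(i, true)] : F) = FreeGroup.of i := rfl
    rw [h, inc_of]
    fin_cases i
    · exact hv_S0'
    · exact hv_S1
    · exact hv_S2
  | false =>
    have h : (FreeGroup.mk [(i, false)] : F) = (FreeGroup.of i)⁻¹ := rfl
    rw [h, map_inv, inc_of, hv_inv]
    fin_cases i
    · show -hv (S 0) = _
      rw [hv_S0']; funext j; fin_cases j <;> simp [sgb]
    · show -hv (S 1) = _
      rw [hv_S1]; funext j; fin_cases j <;> simp [sgb]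
    · show -hv (S 2) = _
      rw [hv_S2]; funext j; fin_cases j <;> simp [sgb]

theorem hv_mk (L : List (Fin 3 × Bool)) : hv (inc (FreeGroup.mk L)) = ![cA L, cB L, 0, 0] := by
  induction L with
  | nil =>
    rw [← FreeGroup.one_eq_mk, map_one, hv_one]
    funext j; fin_cases j <;> simp [cA, cB]
  | cons a L ih =>
    have h1 : (FreeGroup.mk (a :: L) : F) = FreeGroup.mk [a] * FreeGroup.mk L := by
      rw [FreeGroup.mul_mk]; rfl
    rw [h1, map_mul, hv_mul, ih, hv_letter]
    funext j; fin_cases j <;> simp [cA, cB]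

/-- the action of `ψ` on homology -/
def LP : (Fin 4 → ℤ) →+ (Fin 4 → ℤ) where
  toFun v := ![-v 0 + v 1, v 1 + v 3, v 3, v 2]
  map_zero' := by
    funext i
    fin_cases i <;> simp
  map_add' v w := by
    funext i
    fin_cases i <;> simp <;> ring

theorem hv_psi_S (j : Fin 3) : hv (psi (S j)) = ![cA (thw j), cB (thw j), 0, 0] := by
  rw [← inc_of, psi_inc, theta_apply, thHom, FreeGroup.lift_apply_of, hv_mk]

theorem hv_psi_N0 : hv (psi (N 0)) = ![0, 0, 0, 1] := by
  have h : psi (N 0) = inc (FreeGroup.mk (kw 0)) * N 1 * (inc (FreeGroup.mk (kw 1)))⁻¹ := psi_t0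
  rw [h, hv_mul, hv_mul, hv_inv, hv_mk, hv_mk, hv_N1]
  have e1 : cA (kw 0) = 1 := by decide
  have e2 : cB (kw 0) = 0 := by decide
  have e3 : cA (kw 1) = 1 := by decide
  have e4 : cB (kw 1) = 0 := by decide
  rw [e1, e2, e3, e4]
  funext j; fin_cases j <;> simp

theorem hv_psi_N1 : hv (psi (N 1)) = ![0, 1, 1, 0] := by
  have h : psi (N 1) = inc (FreeGroup.mk (kw 2)) * N 0 * (inc (FreeGroup.mk (kw 3)))⁻¹ := psi_t2
  rw [h, hv_mul, hv_mul, hv_inv, hv_mk, hv_mk, hv_N0]
  have e1 : cA (kw 2) - cA (kw 3) = 0 := by decide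
  have e2 : cB (kw 2) - cB (kw 3) = 1 := by decide
  funext j; fin_cases j <;> simp <;> linarith

theorem hv_psi (x : Pi) : hv (psi x) = LP (hv x) := by
  have f0 : cA (thw 0) = 1 := by decide
  have g0 : cB (thw 0) = 1 := by decide
  have f1 : cA (thw 1) = 1 := by decide
  have g1 : cB (thw 1) = 1 := by decide
  have f2 : cA (thw 2) = -1 := by decide
  have g2 : cB (thw 2) = 0 := by decide
  have s0 : hv (psi (S 0)) = LP (hv (S 0)) := by
    rw [hv_psi_S, hv_S0', f0, g0]; funext i; fin_cases i <;> simp [LP]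
  have s1 : hv (psi (S 1)) = LP (hv (S 1)) := by
    rw [hv_psi_S, hv_S1, f1, g1]; funext i; fin_cases i <;> simp [LP]
  have s2 : hv (psi (S 2)) = LP (hv (S 2)) := by
    rw [hv_psi_S, hv_S2, f2, g2]; funext i; fin_cases i <;> simp [LP]
  have n0 : hv (psi (N 0)) = LP (hv (N 0)) := by
    rw [hv_psi_N0, hv_N0]; funext i; fin_cases i <;> simp [LP]
  have n1 : hv (psi (N 1)) = LP (hv (N 1)) := by
    rw [hv_psi_N1, hv_N1]; funext i; fin_cases i <;> simp [LP]
  refine hv_eq_of psi LP (fun j => ?_) (fun j => ?_) x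
  · fin_cases j
    · exact s0
    · exact s1
    · exact s2
  · fin_cases j
    · exact n0
    · exact n1
    · show hv (psi (N 2)) = LP (hv (N 2))
      have h1 : hv (psi (N 2)) = hv (psi (N 1)) := hv_congr psi (by rw [hv_N2, hv_N1])
      rw [h1, n1, hv_N2, hv_N1]

end PhiData

theorem OP_psi : OP psi := by
  intro x y
  rw [hv_psi, hv_psi]
  simp only [om, LP, AddMonoidHom.coe_mk, ZeroHom.coe_mk, Matrix.cons_val]
  ring

theorem inum_psi0 (x : Pi) : inum 0 (psi x) = inum 1 x :=
  psiD.inum_aut_eq 1 0 (by decide) x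

theorem inum_psi1 (x : Pi) : inum 1 (psi x) = inum 0 x :=
  psiD.inum_aut_eq 0 1 (by decide) x

theorem inum_psii0 (x : Pi) : inum 0 (psi⁻¹ x) = inum 1 x := by
  have h := inum_psi1 (psi⁻¹ x)
  rw [MulAut.apply_inv_self] at h
  exact h.symm

theorem inum_psii1 (x : Pi) : inum 1 (psi⁻¹ x) = inum 0 x := by
  have h := inum_psi0 (psi⁻¹ x)
  rw [MulAut.apply_inv_self] at h
  exact h.symm

theorem ell_psi (x : Pi) : ell (psi x) = ell x := psiD.ell_aut x

theorem ell_psii (x : Pi) : ell (psi⁻¹ x) = ell x := by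
  have h := ell_psi (psi⁻¹ x)
  rw [MulAut.apply_inv_self] at h
  exact h.symm

end Pool.Agent.VSB
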