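import Mathlib

/-! # MP_33f4db_gt: the notions of the final statement

`S = ⟨e 0, …, e 4 | e0 e1 e2 e3 e4, e4 e3 e2 e1 e0⟩` is the fundamental group of the double pentagon: the closed surface
of genus two obtained by gluing the parallel sides of two regular pentagons (one vertex, five edges, two faces).

* `alg` : algebraic intersection number; `Mod` : the mapping class group, that is (Dehn, Nielsen, Baer) the group of
outer automorphisms of `S` which preserve the algebraic intersection number.
* `Ess` : the free homotopy classes of essential simple closed curves (with an orientation): the `Mod`-orbits of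
the class of the edge `e 0` (non-separating) and of `⁅(e 4)⁻¹, (e 0)⁻¹⁆` (separating; the boundary of a neighbourhood of
the two loops `e 4`, `e 0`, which meet once).
* `PA g` : `g` is pseudo-Anosov: no power `g ^ n`, `n ≥ 1`, fixes an essential simple closed curve (without
orientation).
* `in0 c`, `ins c` : geometric intersection number of the class `c` with the core curve `γ₀` (class of `e 2 * e 3`) of a
horizontal cylinder, which meets only the edges `e 2` and `e 3`, once each, and with the separating curve
`σ = ⁅(e 4)⁻¹, (e 0)⁻¹⁆`, along which `S` is the amalgamated product of `P1` and `P2`.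
* `Test` : the test curves, `(false, χ)` is `χ γ₀`, `(true, χ)` is `χ σ`; `vec c` : the intersection numbers of the closed
curve `c` with the test curves.
* `PR` : nonzero real functions on the set of test curves up to positive factors, with the quotient topology;
`PML` : the closure of the essential simple closed curves.
* `Vee` : the affine group of the double pentagon, generated by the rotation and the multitwist. -/

set_option autoImplicit false

open scoped commutatorElement LinearAlgebra.Projectivization MatrixGroups

namespace Pool.Agent.VSB.St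

/-! ### The surface group -/

/-- the boundary words of the two pentagons -/
def rels : Set (FreeGroup (Fin 5)) :=
  {FreeGroup.of 0 * FreeGroup.of 1 * FreeGroup.of 2 * FreeGroup.of 3 * FreeGroup.of 4,
    FreeGroup.of 4 * FreeGroup.of 3 * FreeGroup.of 2 * FreeGroup.of 1 * FreeGroup.of 0}

/-- the fundamental group of the surface -/
def S : Type := PresentedGroup rels

instance : Group S := (inferInstance : Group (PresentedGroup rels))

/-- the loop of an edge -/
def e (i : Fin 5) : S := (PresentedGroup.of i : PresentedGroup rels)

/-- the integers, written multiplicatively -/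
def Z : Type := Multiplicative ℤ

instance : CommGroup Z := (inferInstance : CommGroup (Multiplicative ℤ))

/-- the homomorphisms to the integers -/
def H : Type := S →* Z

instance : CommGroup H := (inferInstance : CommGroup (S →* Z))

/-- algebraic intersection numbers of the edges -/
def Om (i j : Fin 5) : ℤ :=
  if j = i + 1 then 1 else if j = i + 2 then -1 else if j = i + 3 then 1 else if j = i + 4 then -1
  else 0

theorem algE_rels (i : Fin 5) : ∀ r ∈ rels,
    FreeGroup.lift (fun j => (Multiplicative.ofAdd (Om i j) : Z)) r = 1 := by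
  rintro r (rfl | rfl)
  · simp only [map_mul, FreeGroup.lift_apply_of]
    show Multiplicative.ofAdd (Om i 0) * Multiplicative.ofAdd (Om i 1) * Multiplicative.ofAdd (Om i 2) *
      Multiplicative.ofAdd (Om i 3) * Multiplicative.ofAdd (Om i 4) = (1 : Multiplicative ℤ)
    revert i; decide
  · simp only [map_mul, FreeGroup.lift_apply_of]
    show Multiplicative.ofAdd (Om i 4) * Multiplicative.ofAdd (Om i 3) * Multiplicative.ofAdd (Om i 2) *
      Multiplicative.ofAdd (Om i 1) * Multiplicative.ofAdd (Om i 0) = (1 : Multiplicative ℤ)
    revert i; decide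

/-- algebraic intersection number with the edge `e i` -/
def algE (i : Fin 5) : H :=
  (PresentedGroup.toGroup (f := fun j => (Multiplicative.ofAdd (Om i j) : Z)) (algE_rels i) :
    PresentedGroup rels →* Z)

/-- evaluation of homomorphisms -/
def ev (φ : H) (y : S) : Z := (show S →* Z from φ) y

theorem ev_ext {φ ψ : H} (h : ∀ i, ev φ (e i) = ev ψ (e i)) : φ = ψ :=
  PresentedGroup.ext (G := Z) h

theorem ev_mul (φ ψ : H) (y : S) : ev (φ * ψ) y = ev φ y * ev ψ y := rfl

theorem algE_e (i j : Fin 5) : ev (algE i) (e j) = Multiplicative.ofAdd (Om i j) :=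
  PresentedGroup.toGroup.of (f := fun j => (Multiplicative.ofAdd (Om i j) : Z)) (algE_rels i)

theorem alg_rels : ∀ r ∈ rels, FreeGroup.lift algE r = 1 := by
  rintro r (rfl | rfl)
  · simp only [map_mul, FreeGroup.lift_apply_of]
    refine ev_ext fun j => ?_
    simp only [ev_mul, algE_e]
    show Multiplicative.ofAdd (Om 0 j) * Multiplicative.ofAdd (Om 1 j) * Multiplicative.ofAdd (Om 2 j) *
      Multiplicative.ofAdd (Om 3 j) * Multiplicative.ofAdd (Om 4 j) = (1 : Multiplicative ℤ)
    revert j; decide
  · simp only [map_mul, FreeGroup.lift_apply_of]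
    refine ev_ext fun j => ?_
    simp only [ev_mul, algE_e]
    show Multiplicative.ofAdd (Om 4 j) * Multiplicative.ofAdd (Om 3 j) * Multiplicative.ofAdd (Om 2 j) *
      Multiplicative.ofAdd (Om 1 j) * Multiplicative.ofAdd (Om 0 j) = (1 : Multiplicative ℤ)
    revert j; decide

/-- algebraic intersection number, as a homomorphism -/
def algH : S →* H := (PresentedGroup.toGroup (f := algE) alg_rels : PresentedGroup rels →* H)

/-- algebraic intersection number of `x` and `y` (written multiplicatively) -/
def alg (x y : S) : Z := ev (algH x) y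

/-! ### Mapping classes -/

/-- automorphisms of the surface group -/
def Aut : Type := MulAut S

instance : Group Aut := (inferInstance : Group (MulAut S))

/-- the value of an automorphism -/
def ap (ψ : Aut) (x : S) : S := (show MulAut S from ψ) x

/-- inner automorphisms -/
def Inn : Subgroup Aut := (MulAut.conj (G := S)).range

instance : Inn.Normal where
  conj_mem := by
    rintro _ ⟨g, rfl⟩ ψ
    refine ⟨ap ψ g, ?_⟩
    refine MulEquiv.ext fun x => ?_
    show ap ψ g * x * (ap ψ g)⁻¹ = ap ψ (g * ap ψ⁻¹ x * g⁻¹)
    have h : ap ψ (ap ψ⁻¹ x) = x := MulAut.apply_inv_self S ψ x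
    have h2 : ap ψ (g * ap ψ⁻¹ x * g⁻¹) = ap ψ g * ap ψ (ap ψ⁻¹ x) * (ap ψ g)⁻¹ := by
      show (show MulAut S from ψ) _ = _
      rw [map_mul, map_mul, map_inv]
      rfl
    rw [h2, h]

/-- outer automorphisms of the surface group -/
def Out : Type := Aut ⧸ Inn

instance : Group Out := QuotientGroup.Quotient.group Inn

/-- the outer automorphism of an automorphism -/
def out (ψ : Aut) : Out := QuotientGroup.mk (s := Inn) ψ

/-- preserving the algebraic intersection number (orientation preserving) -/
def IsOP (ψ : Aut) : Prop := ∀ x y, alg (ap ψ x) (ap ψ y) = alg x y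

/-- the automorphisms which preserve the algebraic intersection number -/
def OPAut : Subgroup Aut where
  carrier := {ψ | IsOP ψ}
  mul_mem' := fun {ψ χ} hψ hχ x y => (hψ (ap χ x) (ap χ y)).trans (hχ x y)
  one_mem' := fun _ _ => rfl
  inv_mem' := by
    intro ψ hψ x y
    have h : ∀ x, ap ψ (ap ψ⁻¹ x) = x := MulAut.apply_inv_self S ψ
    have h1 := hψ (ap ψ⁻¹ x) (ap ψ⁻¹ y)
    rw [h, h] at h1
    exact h1.symm

/-- the outer automorphisms which preserve the algebraic intersection number -/
def MCG : Subgroup Out := OPAut.map (QuotientGroup.mk' Inn)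

/-- the mapping class group of the closed oriented surface of genus two -/
def Mod : Type := ↥MCG

instance : Group Mod := Subgroup.toGroup MCG

/-- the outer automorphism of a mapping class -/
def toOut (g : Mod) : Out := Subtype.val (p := fun x => x ∈ MCG) g

/-! ### Closed curves -/

/-- free homotopy classes of closed curves -/
def Cl : Type := ConjClasses S

/-- the free homotopy class of `x` -/
def cl (x : S) : Cl := ConjClasses.mk x

/-- permutations of the set of closed curves -/
def Perm : Type := Equiv.Perm Cl

instance : Group Perm := (inferInstance : Group (Equiv.Perm Cl))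

/-- action of automorphisms on closed curves -/
def autMap (ψ : Aut) : Cl → Cl := ConjClasses.map (show MulAut S from ψ).toMonoidHom

theorem autMap_cl (ψ : Aut) (x : S) : autMap ψ (cl x) = cl (ap ψ x) := rfl

theorem cl_surjective : Function.Surjective cl := ConjClasses.mk_surjective

/-- action of automorphisms on closed curves -/
def autAct : Aut →* Perm where
  toFun ψ :=
    { toFun := autMap ψ
      invFun := autMap ψ⁻¹
      left_inv := by
        intro c
        obtain ⟨x, rfl⟩ := cl_surjective c
        exact congrArg cl (MulAut.inv_apply_self _ ψ x)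
      right_inv := by
        intro c
        obtain ⟨x, rfl⟩ := cl_surjective c
        exact congrArg cl (MulAut.apply_inv_self _ ψ x) }
  map_one' := by
    refine Equiv.ext fun c => ?_
    obtain ⟨x, rfl⟩ := cl_surjective c
    rfl
  map_mul' := by
    intro ψ χ
    refine Equiv.ext fun c => ?_
    obtain ⟨x, rfl⟩ := cl_surjective c
    rfl

theorem autAct_inn : ∀ ψ ∈ Inn, autAct ψ = 1 := by
  rintro _ ⟨g, rfl⟩
  refine Equiv.ext fun c => ?_
  obtain ⟨x, rfl⟩ := cl_surjective c
  show cl (g * x * g⁻¹) = cl x
  show ConjClasses.mk (g * x * g⁻¹) = ConjClasses.mk x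
  rw [ConjClasses.mk_eq_mk_iff_isConj, isConj_comm]
  exact isConj_iff.2 ⟨g, rfl⟩

/-- action of outer automorphisms on closed curves -/
def outAct : Out →* Perm := QuotientGroup.lift Inn autAct autAct_inn

/-- action of mapping classes on closed curves -/
def act (g : Mod) (c : Cl) : Cl := (show Equiv.Perm Cl from outAct (toOut g)) c

/-- the essential simple closed curves -/
def Ess : Set Cl := {c | ∃ χ : Mod, c = act χ (cl (e 0)) ∨ c = act χ (cl ⁅(e 4)⁻¹, (e 0)⁻¹⁆)}

/-- pseudo-Anosov mapping classes: no power fixes an essential simple closed curve -/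
def PA (g : Mod) : Prop := ∀ n : ℕ, 1 ≤ n → ∀ x : S, cl x ∈ Ess →
  act (g ^ n) (cl x) ≠ cl x ∧ act (g ^ n) (cl x) ≠ cl x⁻¹

/-! ### Intersection numbers -/

/-- the element of `S` of a word in the edges -/
def wv (w : List (Fin 5 × Bool)) : S := PresentedGroup.mk rels (FreeGroup.mk w)

/-- number of letters `e 2`, `e 3` of a word -/
def cnt (w : List (Fin 5 × Bool)) : ℕ := w.countP (fun a => a.1 = 2 ∨ a.1 = 3)

/-- geometric intersection number with the curve `γ₀` -/
noncomputable def in0 (c : Cl) : ℕ := sInf {k | ∃ w, cl (wv w) = c ∧ cnt w = k}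

/-- the two sides of the separating curve `σ` -/
def P1 : Subgroup S := Subgroup.closure {e 4, e 0}

/-- the two sides of the separating curve `σ` -/
def P2 : Subgroup S := Subgroup.closure {e 1 * e 0 * e 4, (e 0)⁻¹ * (e 4)⁻¹ * e 2}

/-- number of factors (none if there is only one) -/
def len (L : List S) : ℕ := if L.length ≤ 1 then 0 else L.length

/-- geometric intersection number with the separating curve `σ`: cyclic syllable length for the amalgamated
product of `P1` and `P2` -/
noncomputable def ins (c : Cl) : ℕ :=
  sInf {k | ∃ L : List S, (∀ y ∈ L, y ∈ P1 ∨ y ∈ P2) ∧ cl L.prod = c ∧ k = len L}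

/-! ### Projective measured laminations -/

/-- the test curves: `(false, χ)` is `χ γ₀`, `(true, χ)` is `χ σ` -/
def Test : Type := Bool × Mod

/-- the intersection numbers of a closed curve with the test curves -/
noncomputable def vec (c : Cl) : Test → ℝ := fun t =>
  if t.1 then (ins (act t.2⁻¹ c) : ℝ) else (in0 (act t.2⁻¹ c) : ℝ)

/-- `v` and `w` differ by a positive factor -/
def SameRay (v w : Test → ℝ) : Prop := ∃ r : ℝ, 0 < r ∧ v = r • w

/-- nonzero functions -/
def NZ : Type := {v : Test → ℝ // v ≠ 0}

instance : TopologicalSpace NZ := (inferInstance : TopologicalSpace {v : Test → ℝ // v ≠ 0})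

/-- functions up to positive factors -/
def raySetoid : Setoid NZ where
  r v w := SameRay v.1 w.1
  iseqv :=
    { refl := fun v => ⟨1, one_pos, (one_smul _ _).symm⟩
      symm := by
        rintro v w ⟨r, hr, h⟩
        exact ⟨r⁻¹, inv_pos.2 hr, by rw [h, smul_smul, inv_mul_cancel₀ hr.ne', one_smul]⟩
      trans := by
        rintro u v w ⟨r, hr, h⟩ ⟨s, hs, h'⟩
        exact ⟨r * s, mul_pos hr hs, by rw [h, h', smul_smul]⟩ }

/-- the space of rays of functions on the test curves -/
def PR : Type := Quotient raySetoid

instance : TopologicalSpace PR := (inferInstance : TopologicalSpace (Quotient raySetoid))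

/-- the ray of a nonzero function -/
def ray (v : Test → ℝ) (h : v ≠ 0) : PR := Quotient.mk raySetoid ⟨v, h⟩

/-- action of mapping classes on functions -/
def fact (g : Mod) (v : Test → ℝ) : Test → ℝ := fun t => v (t.1, g⁻¹ * t.2)

theorem fact_ne_zero (g : Mod) {v : Test → ℝ} (h : v ≠ 0) : fact g v ≠ 0 := by
  intro h0
  apply h
  funext t
  have h1 := congrFun h0 ((t.1, g * t.2) : Bool × Mod)
  have h2 : fact g v ((t.1, g * t.2) : Bool × Mod) = v t := by
    show v ((t.1, g⁻¹ * (g * t.2)) : Bool × Mod) = v t
    rw [inv_mul_cancel_left]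
    rfl
  rw [← h2]
  exact h1

/-- action of mapping classes on rays -/
def actR (g : Mod) : PR → PR := Quotient.map (fun v : NZ => (⟨fact g v.1, fact_ne_zero g v.2⟩ : NZ)) (by
  rintro v w ⟨r, hr, h⟩
  refine ⟨r, hr, ?_⟩
  show fact g v.1 = r • fact g w.1
  rw [h]; rfl)

/-- Projective measured laminations: the closure of the essential simple closed curves. -/
def PML : Set PR := closure {P | ∃ c ∈ Ess, ∃ h : vec c ≠ 0, P = ray (vec c) h}

/-! ### The Veech group of the double pentagon -/

/-- the mapping class `g` is induced by the automorphism `ψ` -/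
def Ind (g : Mod) (ψ : Aut) : Prop := toOut g = out ψ

/-- the rotation by `π / 5`, exchanging the two pentagons -/
def IsRot (g : Mod) : Prop := ∃ ψ, Ind g ψ ∧ ∀ i, ap ψ (e i) = (e (i + 3))⁻¹

/-- the images of the edges under the multitwist -/
def tw : Fin 5 → S :=
  ![e 0, e 1 * e 0 * (e 3)⁻¹ * (e 2)⁻¹, (e 3)⁻¹, e 3 * e 2 * e 3, (e 0)⁻¹ * (e 1)⁻¹ * (e 0)⁻¹]

/-- the multitwist, product of the two Dehn twists along the core curves of the horizontal cylinders -/
def IsTw (g : Mod) : Prop := ∃ ψ, Ind g ψ ∧ ∀ i, ap ψ (e i) = tw i

/-- the hyperelliptic involution -/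
def IsHyp (g : Mod) : Prop := ∃ ψ, Ind g ψ ∧ ∀ i, ap ψ (e i) = (e i)⁻¹

/-- The affine group of the double pentagon `ξ₂` (stabiliser of its Teichmüller disc); modulo the hyperelliptic
involution it is the `(2, 5, ∞)` triangle group. -/
def Vee : Subgroup Mod := Subgroup.closure {g | IsRot g ∨ IsTw g}

/-- the group of the hyperelliptic involution -/
def Hyp : Subgroup Mod := Subgroup.closure {g | IsHyp g}

/-- the stabiliser of the cusp of the multitwist in the affine group -/
def Cusp : Subgroup Mod := Subgroup.closure {g | IsHyp g ∨ IsTw g}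

/-- `A` is free of rank four and `δ` is the boundary element `⁅x0, x1⁆ ⁅x2, x3⁆` -/
def IsOnceHoled {Γ : Type} [Group Γ] (A : Subgroup Γ) (δ : Γ) : Prop :=
  ∃ Φ : FreeGroup (Fin 4) ≃* A, (Φ (⁅(FreeGroup.of 0 : FreeGroup (Fin 4)), FreeGroup.of 1⁆ *
    ⁅(FreeGroup.of 2 : FreeGroup (Fin 4)), FreeGroup.of 3⁆) : Γ) = δ

/-- `A` is a subgroup of index `10` of the Veech group (embedded in `Mod`, so that it meets the group of the
hyperelliptic involution trivially), isomorphic to the fundamental group of a once-punctured surface of genus two with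
boundary element `δ`, and `δ` generates the stabiliser in `A` of the cusp of the multitwist. -/
structure IsVeechSurf (A : Subgroup Mod) (δ : Mod) : Prop where
  le : A ≤ Vee
  inf : A ⊓ Hyp = ⊥
  index : (A ⊔ Hyp).relIndex Vee = 10
  free : IsOnceHoled A δ
  cusp : A ⊓ Cusp = Subgroup.zpowers δ

/-! ### Admissible groups -/

/-- the conjugate subgroup `φ A φ⁻¹` -/
def cj (φ : Mod) (A : Subgroup Mod) : Subgroup Mod := A.map (MulAut.conj φ).toMonoidHom

/-- the group `⟨A, φ A φ⁻¹⟩` -/
def GG (A : Subgroup Mod) (φ : Mod) : Subgroup Mod := A ⊔ cj φ A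

/-- the two factors -/
def fac (A B : Subgroup Mod) (b : Bool) : Subgroup Mod := if b then B else A

/-- the inclusions of a common subgroup -/
def incs {Γ : Type} [Group Γ] {K : Bool → Subgroup Γ} {D : Subgroup Γ} (h : ∀ b, D ≤ K b) (b : Bool) :
    D →* K b := Subgroup.inclusion (h b)

/-- the amalgamated product of `K false` and `K true` over `D` -/
def AP {Γ : Type} [Group Γ] {K : Bool → Subgroup Γ} {D : Subgroup Γ} (h : ∀ b, D ≤ K b) : Type :=
  Monoid.PushoutI (incs h)

instance {Γ : Type} [Group Γ] {K : Bool → Subgroup Γ} {D : Subgroup Γ} (h : ∀ b, D ≤ K b) :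
    Monoid (AP h) := (inferInstance : Monoid (Monoid.PushoutI (incs h)))

/-- the natural homomorphism from the amalgamated product of `K false` and `K true` over `D` -/
def amal {Γ : Type} [Group Γ] {K : Bool → Subgroup Γ} {D : Subgroup Γ} (h : ∀ b, D ≤ K b) :
    AP h →* Γ :=
  Monoid.PushoutI.lift (fun b => (K b).subtype) D.subtype (fun _ => rfl)

/-- this homomorphism is injective -/
def Amalgam {Γ : Type} [Group Γ] (K : Bool → Subgroup Γ) (D : Subgroup Γ) : Prop :=
  ∃ h : ∀ b, D ≤ K b, Function.Injective (amal h)

/-- `⟨A, φ A φ⁻¹⟩` is admissible -/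
structure Admissible (A : Subgroup Mod) (δ φ : Mod) : Prop where
  comm : φ * δ * φ⁻¹ = δ
  inter : A ⊓ cj φ A = Subgroup.zpowers δ
  amalgam : Amalgam (fac A (cj φ A)) (Subgroup.zpowers δ)
  pA : ∀ g ∈ GG A φ, PA g ∨ ∃ h ∈ GG A φ, ∃ k : ℤ, g = h * δ ^ k * h⁻¹
  red : ∀ k : ℤ, ¬ PA (δ ^ k)

/-! ### The circle at infinity -/

/-- the real projective line, boundary of the hyperbolic plane -/
def Circ : Type := ℙ ℝ (Fin 2 → ℝ)

noncomputable instance : TopologicalSpace Circ :=
  (inferInstance : TopologicalSpace (Quotient (projectivizationSetoid ℝ (Fin 2 → ℝ))))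

/-- the centre of `SL(2, ℝ)` -/
def cen : Subgroup SL(2, ℝ) := Subgroup.center SL(2, ℝ)

instance : cen.Normal := (inferInstance : (Subgroup.center SL(2, ℝ)).Normal)

/-- the isometry group of the hyperbolic plane -/
def PSL : Type := SL(2, ℝ) ⧸ cen

instance : Group PSL := QuotientGroup.Quotient.group cen

/-- the projection -/
def proj (M : SL(2, ℝ)) : PSL := QuotientGroup.mk M

/-- the action of isometries on the circle at infinity -/
noncomputable def mob (x : PSL) (p : Circ) : Circ :=
  (show Matrix.ProjectiveSpecialLinearGroup (Fin 2) ℝ from x) • (show ℙ ℝ (Fin 2 → ℝ) from p)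

/-- all entries are at most `C` in absolute value -/
def Bdd (C : ℝ) (M : SL(2, ℝ)) : Prop := ∀ i j, |M i j| ≤ C

/-- The homomorphism `ρ` to `PSL(2, ℝ)` is injective with discrete cocompact image, i.e. it comes from a hyperbolic
structure on a closed surface with fundamental group `G`. For an admissible `G` (two free groups of rank four
amalgamated along their boundary elements, that is the fundamental group of a closed surface of genus four) such `ρ`
exist, and the actions on the circle given by any two of them are topologically conjugate: `ρ` identifies the boundary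
of `G` with the circle at infinity. -/
structure IsFuchs {G : Type} [Group G] (ρ : G →* PSL) : Prop where
  inj : Function.Injective ρ
  disc : ∀ C : ℝ, {g : G | ∃ M : SL(2, ℝ), proj M = ρ g ∧ Bdd C M}.Finite
  cocpt : ∃ C : ℝ, ∀ X : SL(2, ℝ), ∃ (g : G) (M : SL(2, ℝ)), proj M = ρ g ∧ Bdd C (M * X)

/-- no continuous equivariant map from the boundary of `G` to `PML`, whichever identification `ρ` of the boundary of `G`
with the circle at infinity is used -/
def NoMap (G : Subgroup Mod) : Prop :=
  ∀ ρ : G →* PSL, IsFuchs ρ → ¬ ∃ f : Circ → PR, Continuous f ∧ (∀ x, f x ∈ PML) ∧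
    ∀ (g : G) (x : Circ), f (mob (ρ g) x) = actR g (f x)

end Pool.Agent.VSB.St
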