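import Pool.Agent.VSB.St
import Pool.Agent.VSB.Contra

/-! # VSB/StMain: the main theorem in terms of the final definitions -/

set_option autoImplicit false

open scoped commutatorElement LinearAlgebra.Projectivization MatrixGroups

namespace Pool.Agent.VSB.St

/-- the two descriptions of the mapping class group are definitionally equal -/
theorem mod_eq : Mod = ↥M.MCG := rfl

theorem aut_ext_e (ψ : Aut) (χ : MulAut Pi) (h : ∀ i, ap ψ (e i) = χ (Pool.Agent.VSB.e i)) : ψ = χ :=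
  Pool.Agent.VSB.aut_ext_e h

theorem isRot_iff (g : Mod) : IsRot g ↔ g = M.mR := by
  constructor
  · rintro ⟨ψ, h, h'⟩
    have h1 : ψ = aR := aut_ext_e ψ aR (fun i => (h' i).trans (aR_e i).symm)
    apply Subtype.ext
    rw [h1] at h
    exact h
  · rintro rfl
    exact ⟨aR, rfl, aR_e⟩

theorem tw_eq (i : Fin 5) : aT (Pool.Agent.VSB.e i) = tw i := by
  fin_cases i
  · exact aT_e0
  · exact aT_e1
  · exact aT_e2
  · exact aT_e3
  · exact aT_e4

theorem isTw_iff (g : Mod) : IsTw g ↔ g = M.mT := by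
  constructor
  · rintro ⟨ψ, h, h'⟩
    have h1 : ψ = aT := aut_ext_e ψ aT (fun i => (h' i).trans (tw_eq i).symm)
    apply Subtype.ext
    rw [h1] at h
    exact h
  · rintro rfl
    exact ⟨aT, rfl, tw_eq⟩

theorem isHyp_iff (g : Mod) : IsHyp g ↔ g = M.mI := by
  constructor
  · rintro ⟨ψ, h, h'⟩
    have h1 : ψ = aI := aut_ext_e ψ aI (fun i => (h' i).trans (aI_e i).symm)
    apply Subtype.ext
    rw [h1] at h
    exact h
  · rintro rfl
    exact ⟨aI, rfl, aI_e⟩

theorem vee_eq : Vee = M.Vee := by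
  show Subgroup.closure {g : Mod | IsRot g ∨ IsTw g} = Subgroup.closure ({M.mR, M.mT} : Set Mod)
  congr 1
  ext g
  show IsRot g ∨ IsTw g ↔ g = M.mR ∨ g = M.mT
  rw [isRot_iff, isTw_iff]

theorem hyp_eq : Hyp = Subgroup.zpowers (M.mI : Mod) := by
  rw [Subgroup.zpowers_eq_closure]
  show Subgroup.closure {g : Mod | IsHyp g} = Subgroup.closure ({M.mI} : Set Mod)
  congr 1
  ext g
  exact isHyp_iff g

theorem cusp_eq : Cusp = Subgroup.closure ({M.mI, M.mT} : Set Mod) := by
  show Subgroup.closure {g : Mod | IsHyp g ∨ IsTw g} = Subgroup.closure ({M.mI, M.mT} : Set Mod)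
  congr 1
  ext g
  show IsHyp g ∨ IsTw g ↔ g = M.mI ∨ g = M.mT
  rw [isHyp_iff, isTw_iff]

theorem surf : IsVeechSurf (M.AM : Subgroup Mod) (M.dM : Mod) where
  le := by rw [vee_eq]; exact M.isVeechSurf.le
  inf := by rw [hyp_eq]; exact M.isVeechSurf.inf
  index := by rw [hyp_eq, vee_eq]; exact M.isVeechSurf.index
  free := M.isVeechSurf.free
  cusp := by rw [cusp_eq]; exact M.isVeechSurf.cusp

theorem adm : Admissible (M.AM : Subgroup Mod) (M.dM : Mod) (M.phiM : Mod) where
  comm := M.admissible.comm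
  inter := M.admissible.inter
  amalgam := M.admissible.amalgam
  pA := M.admissible.pA
  red := M.admissible.red

theorem noMap : NoMap (GG (M.AM : Subgroup Mod) (M.phiM : Mod)) := by
  rintro ρ ⟨h1, h2, h3⟩ ⟨f, hf, hP, he⟩
  exact M.noMap ρ ⟨h1, h2, h3⟩ ⟨f, hf, hP, he⟩

theorem main : ∃ (A : Subgroup Mod) (δ φ : Mod), IsVeechSurf A δ ∧ Admissible A δ φ ∧
    NoMap (GG A φ) :=
  ⟨M.AM, M.dM, M.phiM, surf, adm, noMap⟩

end Pool.Agent.VSB.St
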