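import Pool.Agent.VSB.Count

/-! # VSB/WallConn: the walls are good

`mono`: `mul_S_mem_Wl`, `mul_N_mem_Wl`.
`conn`: let `g ∈ Wl a`; take a word from `1` to `g` and the last time the path enters `Wl a`: through an edge
`inc (pt (bot a) k) → inc (pt (bot a) k) * stp (rung (bot a) k) = t (bot a) * inc (pt (bar (bot a)) k)` (`rung_eq`);
afterwards the path stays in `Wl a`. The points `t (bot a) * inc (pt (bar (bot a)) k)`, `k : ℤ`, all lie in
`Wl a` and are connected along the letters `s` (`pt_succ`). (Formulate as an induction over the word: for every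
word `w`, if `ev w ∈ Wl a` then `ev w` is connected inside `Wl a` to the points
`t (bot a) * inc (pt (bar (bot a)) k)`, and if `ev w ∉ Wl a` then `ev w` is connected inside the complement to `1`,
using that the points `inc (pt (bot a) k)` are connected inside the complement.)
Translates: left multiplication. -/

set_option autoImplicit false

open scoped Pointwise

namespace Pool.Agent.VSB

theorem stp_flip (a : Lt × Bool) : stp (a.1, !a.2) = (stp a)⁻¹ := by
  obtain ⟨l, b⟩ := a
  cases b <;> simp [stp]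

/-- the relation of adjacency inside `K` is symmetric up to reversing paths -/
theorem Conn.symm_path {K : Set Pi} {g h : Pi} (hg : g ∈ K)
    (p : Relation.ReflTransGen (fun x y => y ∈ K ∧ ∃ a, y = x * stp a) g h) :
    Relation.ReflTransGen (fun x y => y ∈ K ∧ ∃ a, y = x * stp a) h g := by
  have key : h ∈ K ∧ Relation.ReflTransGen (fun x y => y ∈ K ∧ ∃ a, y = x * stp a) h g := by
    induction p with
    | refl => exact ⟨hg, Relation.ReflTransGen.refl⟩
    | tail _ hbc ih =>
      obtain ⟨hcK, a, rfl⟩ := hbc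
      refine ⟨hcK, Relation.ReflTransGen.head ⟨ih.1, (a.1, !a.2), ?_⟩ ih.2⟩
      rw [stp_flip, mul_inv_cancel_right]
  exact key.2

theorem Conn.smul {K : Set Pi} (k : Pi) (h : Conn K) : Conn (k • K) := by
  intro g hg g' hg'
  rw [Set.mem_smul_set_iff_inv_smul_mem, smul_eq_mul] at hg hg'
  have p := h _ hg _ hg'
  have q : Relation.ReflTransGen (fun x y => y ∈ k • K ∧ ∃ a, y = x * stp a)
      (k * (k⁻¹ * g)) (k * (k⁻¹ * g')) := by
    clear hg'
    generalize k⁻¹ * g' = z at p
    induction p with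
    | refl => exact Relation.ReflTransGen.refl
    | tail _ hbc ih =>
      obtain ⟨hy, a, rfl⟩ := hbc
      refine ih.tail ⟨?_, a, by rw [mul_assoc]⟩
      rw [Set.mem_smul_set_iff_inv_smul_mem, smul_eq_mul, inv_mul_cancel_left]
      exact hy
  rwa [mul_inv_cancel_left, mul_inv_cancel_left] at q

theorem Good.smul {K : Set Pi} (k : Pi) (h : Good K) : Good (k • K) := by
  refine ⟨?_, h.conn.smul k, ?_⟩
  · intro g hg a
    rw [Set.mem_smul_set_iff_inv_smul_mem, smul_eq_mul] at hg ⊢
    rw [← mul_assoc]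
    exact h.mono _ hg a
  · rw [← Set.smul_set_compl]
    exact h.conn'.smul k

/-- one step inside `K` along a letter -/
theorem path_step {K : Set Pi} {x y : Pi} (b : Pi)
    (p : Relation.ReflTransGen (fun x y => y ∈ K ∧ ∃ a, y = x * stp a) b x) (l : Lt)
    (hy : y ∈ K) (h : y = x * l.val) :
    Relation.ReflTransGen (fun x y => y ∈ K ∧ ∃ a, y = x * stp a) b y :=
  p.tail ⟨hy, (l, true), by rw [h]; rfl⟩

/-- one step inside `K` against a letter -/
theorem path_step' {K : Set Pi} {x y : Pi} (b : Pi)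
    (p : Relation.ReflTransGen (fun x y => y ∈ K ∧ ∃ a, y = x * stp a) b x) (l : Lt)
    (hy : y ∈ K) (h : x = y * l.val) :
    Relation.ReflTransGen (fun x y => y ∈ K ∧ ∃ a, y = x * stp a) b y :=
  p.tail ⟨hy, (l, false), by rw [h]; simp [stp]⟩

/-- the points of a line are connected inside `K` -/
theorem path_line {K : Set Pi} (g : Pi) (q : Fin 4) (hK : ∀ k : ℤ, g * inc (pt q k) ∈ K) (k : ℤ) :
    Relation.ReflTransGen (fun x y => y ∈ K ∧ ∃ a, y = x * stp a) (g * inc (pt q 0))
      (g * inc (pt q k)) := by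
  have hs : ∀ k : ℤ, g * inc (pt q (k + 1)) = g * inc (pt q k) * (Lt.s (lt q k)).val := by
    intro k
    rw [pt_succ, map_mul, inc_of, mul_assoc]
    rfl
  induction k using Int.induction_on with
  | zero => exact Relation.ReflTransGen.refl
  | succ i ih => exact path_step _ ih _ (hK _) (hs _)
  | pred i ih =>
    refine path_step' _ ih (Lt.s (lt q (-(i : ℤ) - 1))) (hK _) ?_
    have h := hs (-(i : ℤ) - 1)
    rwa [sub_add_cancel] at h

/-- the rungs of the base ladder -/
theorem rung_bot (a : Fin 2) (k : ℤ) : ∃ j, rung (bot a) k = (Lt.n j, true) := by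
  fin_cases a
  · exact ⟨0, rfl⟩
  · by_cases hk : k % 2 = 0
    · exact ⟨1, by simp [rung, bot, hk]⟩
    · exact ⟨2, by simp [rung, bot, hk]⟩

theorem top_mem_Wl (a : Fin 2) (k : ℤ) : t (bot a) * inc (pt (bar (bot a)) k) ∈ Wl a := by
  obtain ⟨j, hj⟩ := rung_bot a k
  rw [← rung_eq, hj]
  show inc (pt (bot a) k) * N j ∈ Wl a
  rw [mul_N_mem_Wl]
  exact Or.inr ⟨k, rfl, hj⟩

theorem conn_aux (a : Fin 2) (g : Pi) :
    (g ∈ Wl a → Relation.ReflTransGen (fun x y => y ∈ Wl a ∧ ∃ a, y = x * stp a)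
      (t (bot a) * inc (pt (bar (bot a)) 0)) g) ∧
    (g ∉ Wl a → Relation.ReflTransGen (fun x y => y ∈ (Wl a)ᶜ ∧ ∃ a, y = x * stp a) 1 g) := by
  refine letter_induction (P := fun g =>
    (g ∈ Wl a → Relation.ReflTransGen (fun x y => y ∈ Wl a ∧ ∃ a, y = x * stp a)
      (t (bot a) * inc (pt (bar (bot a)) 0)) g) ∧
    (g ∉ Wl a → Relation.ReflTransGen (fun x y => y ∈ (Wl a)ᶜ ∧ ∃ a, y = x * stp a) 1 g))
    ⟨fun h => absurd h (one_notMem_Wl a), fun _ => Relation.ReflTransGen.refl⟩ ?_ ?_ g
  · intro g j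
    constructor
    · rintro ⟨h1, h2⟩
      refine ⟨fun h => ?_, fun h => ?_⟩
      · exact path_step _ (h1 ((mul_S_mem_Wl a g j).1 h)) (Lt.s j) h rfl
      · exact path_step _ (h2 (fun h' => h ((mul_S_mem_Wl a g j).2 h'))) (Lt.s j) h rfl
    · rintro ⟨h1, h2⟩
      refine ⟨fun h => ?_, fun h => ?_⟩
      · exact path_step' _ (h1 ((mul_S_mem_Wl a g j).2 h)) (Lt.s j) h rfl
      · exact path_step' _ (h2 (fun h' => h ((mul_S_mem_Wl a g j).1 h'))) (Lt.s j) h rfl
  · intro g j
    constructor
    · rintro ⟨h1, h2⟩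
      refine ⟨fun h => ?_, fun h => ?_⟩
      · rcases (mul_N_mem_Wl a g j).1 h with h' | h'
        · exact path_step _ (h1 h') (Lt.n j) h rfl
        · obtain ⟨k, rfl, hk⟩ := h'
          have e1 := rung_eq (bot a) k
          rw [hk] at e1
          have e2 : inc (pt (bot a) k) * N j = t (bot a) * inc (pt (bar (bot a)) k) := e1
          rw [e2]
          exact path_line _ _ (top_mem_Wl a) k
      · exact path_step _ (h2 (fun h' => h ((mul_N_mem_Wl a g j).2 (Or.inl h')))) (Lt.n j) h rfl
    · rintro ⟨h1, h2⟩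
      refine ⟨fun h => ?_, fun h => ?_⟩
      · exact path_step' _ (h1 ((mul_N_mem_Wl a g j).2 (Or.inl h))) (Lt.n j) h rfl
      · by_cases h' : g * N j ∈ Wl a
        · rcases (mul_N_mem_Wl a g j).1 h' with h'' | h''
          · exact absurd h'' h
          · obtain ⟨k, rfl, hk⟩ := h''
            have h3 := path_line (K := (Wl a)ᶜ) 1 (bot a) (fun k => by
              rw [one_mul]; exact inc_notMem_Wl a _) k
            rwa [one_mul, one_mul, pt_zero, map_one] at h3
        · exact path_step' _ (h2 h') (Lt.n j) h rfl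

theorem good_Wl (a : Fin 2) : Good (Wl a) := by
  refine ⟨?_, ?_, ?_⟩
  · intro g hg l
    cases l with
    | s j => exact (mul_S_mem_Wl a g j).2 hg
    | n j => exact (mul_N_mem_Wl a g j).2 (Or.inl hg)
  · intro g hg h hh
    exact (Conn.symm_path (top_mem_Wl a 0) ((conn_aux a g).1 hg)).trans ((conn_aux a h).1 hh)
  · intro g hg h hh
    exact (Conn.symm_path (K := (Wl a)ᶜ) (one_notMem_Wl a) ((conn_aux a g).2 hg)).trans
      ((conn_aux a h).2 hh)

theorem good_smul_Wl (a : Fin 2) (k : Pi) : Good (k • Wl a) := (good_Wl a).smul k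

end Pool.Agent.VSB
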