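import Pool.Agent.VSB.TL
import Pool.Agent.VSB.WallConn

/-! # VSB/Vert: the vertical walls

`Vl b` is the image of `Wl b` under `aS` : the halfspaces of the core curves of the vertical cylinders. The
letters `N j ^ ±1` do not cross them, the letters `S j` cross them positively.
All statements follow from those for `Wl b` through `aS` (`aSi_S`, `aSi_N`, `aS_S`, `aS_N`):
`x * S j ∈ k • Vl b ↔ (aS⁻¹ x) * N j' ∈ (aS⁻¹ k) • Wl b` with `aS⁻¹ (S j) = N j'` (`j' = 1, 2, 0` for `j = 0, 1, 2`).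
Adjacency: `aS` maps letters to letters or inverse letters, so it preserves `Conn`.
`card_le_jnum`: `jnum_eq`, `card_le_inum` applied to `aS⁻¹ y` and `aS⁻¹ '' K t`. -/

set_option autoImplicit false

open scoped Pointwise

namespace Pool.Agent.VSB

/-- the base halfspace of the `b`-th vertical curve -/
def Vl (b : Fin 2) : Set Pi := {x | aS⁻¹ x ∈ Wl b}

/-- vertical type of `s j` -/
def sty (j : Fin 3) : Fin 2 := if j = 2 then 0 else 1

theorem mem_smul_Vl (b : Fin 2) (k x : Pi) : x ∈ k • Vl b ↔ aS⁻¹ x ∈ (aS⁻¹ k) • Wl b := by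
  rw [Set.mem_smul_set_iff_inv_smul_mem, Set.mem_smul_set_iff_inv_smul_mem, smul_eq_mul,
    smul_eq_mul]
  show aS⁻¹ (k⁻¹ * x) ∈ Wl b ↔ _
  rw [map_mul, map_inv]

theorem Vl.smul_eq (b : Fin 2) (k : Pi) : k • Vl b = {x | aS⁻¹ x ∈ (aS⁻¹ k) • Wl b} := by
  ext x
  exact mem_smul_Vl b k x

theorem Vl.mul_inv_S_mem (b : Fin 2) (k x : Pi) (j : Fin 3) :
    x * (S j)⁻¹ ∈ k • Wl b ↔ x ∈ k • Wl b := by
  have h := sep_S b k (x * (S j)⁻¹) j
  rwa [inv_mul_cancel_right] at h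

/-- `aS` maps letters to letters or inverse letters -/
theorem Vl.aS_stp (a : Lt × Bool) : ∃ a' : Lt × Bool, aS (stp a) = stp a' := by
  have hS : ∀ j, ∃ a' : Lt, aS (S j) = (a'.val)⁻¹ := by
    intro j
    rw [aS_S]
    fin_cases j
    · exact ⟨.n 2, rfl⟩
    · exact ⟨.n 1, rfl⟩
    · exact ⟨.n 0, rfl⟩
  have hN : ∀ j, ∃ a' : Lt, aS (N j) = a'.val := by
    intro j
    rw [aS_N]
    fin_cases j
    · exact ⟨.s 2, rfl⟩
    · exact ⟨.s 0, rfl⟩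
    · exact ⟨.s 1, rfl⟩
  obtain ⟨l, ε⟩ := a
  cases l with
  | s j =>
    obtain ⟨a', ha'⟩ := hS j
    cases ε with
    | true => exact ⟨(a', false), by simpa [stp, Lt.val] using ha'⟩
    | false =>
      refine ⟨(a', true), ?_⟩
      show aS ((S j)⁻¹) = a'.val
      rw [map_inv, ha', inv_inv]
  | n j =>
    obtain ⟨a', ha'⟩ := hN j
    cases ε with
    | true => exact ⟨(a', true), by simpa [stp, Lt.val] using ha'⟩
    | false =>
      refine ⟨(a', false), ?_⟩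
      show aS ((N j)⁻¹) = (a'.val)⁻¹
      rw [map_inv, ha']

theorem Vl.aS_aSi (x : Pi) : aS (aS⁻¹ x) = x := MulAut.apply_inv_self _ _ x

theorem Vl.aSi_aS (x : Pi) : aS⁻¹ (aS x) = x := MulAut.inv_apply_self _ _ x

theorem Vl.conn_pre {K : Set Pi} (h : Conn K) : Conn {x : Pi | aS⁻¹ x ∈ K} := by
  intro g hg l hl
  have p := h _ hg _ hl
  have key : ∀ u v : Pi, Relation.ReflTransGen (fun x y => y ∈ K ∧ ∃ a, y = x * stp a) u v →
      Relation.ReflTransGen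
        (fun x y => y ∈ {x : Pi | aS⁻¹ x ∈ K} ∧ ∃ a, y = x * stp a) (aS u) (aS v) := by
    intro u v huv
    induction huv with
    | refl => exact Relation.ReflTransGen.refl
    | tail _ hbc ih =>
      refine ih.tail ?_
      obtain ⟨hc, a, rfl⟩ := hbc
      obtain ⟨a', ha'⟩ := Vl.aS_stp a
      refine ⟨?_, a', ?_⟩
      · show aS⁻¹ (aS _) ∈ K
        rw [Vl.aSi_aS]; exact hc
      · rw [map_mul, ha']
  have q := key _ _ p
  rwa [Vl.aS_aSi, Vl.aS_aSi] at q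

theorem good_smul_Vl (b : Fin 2) (k : Pi) : Good (k • Vl b) := by
  have hG := good_smul_Wl b (aS⁻¹ k)
  have hE := Vl.smul_eq b k
  have hE' : (k • Vl b)ᶜ = {x : Pi | aS⁻¹ x ∈ ((aS⁻¹ k) • Wl b)ᶜ} := by
    rw [hE]; rfl
  refine ⟨?_, ?_, ?_⟩
  · intro g hg a
    rw [mem_smul_Vl] at hg ⊢
    rw [map_mul]
    cases a with
    | s j =>
      show aS⁻¹ g * aS⁻¹ (S j) ∈ _
      rw [aSi_S]
      fin_cases j
      · exact hG.mono _ hg (.n 1)
      · exact hG.mono _ hg (.n 2)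
      · exact hG.mono _ hg (.n 0)
    | n j =>
      show aS⁻¹ g * aS⁻¹ (N j) ∈ _
      rw [aSi_N]
      fin_cases j
      · exact (Vl.mul_inv_S_mem _ _ _ 2).2 hg
      · exact (Vl.mul_inv_S_mem _ _ _ 1).2 hg
      · exact (Vl.mul_inv_S_mem _ _ _ 0).2 hg
  · rw [hE]; exact Vl.conn_pre hG.conn
  · rw [hE']; exact Vl.conn_pre hG.conn'

theorem mul_N_mem_Vl (b : Fin 2) (k x : Pi) (j : Fin 3) : x * N j ∈ k • Vl b ↔ x ∈ k • Vl b := by
  rw [mem_smul_Vl, mem_smul_Vl, map_mul, aSi_N]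
  fin_cases j
  · exact Vl.mul_inv_S_mem _ _ _ 2
  · exact Vl.mul_inv_S_mem _ _ _ 1
  · exact Vl.mul_inv_S_mem _ _ _ 0

/-- the vertical wall crossing the edge `x → x * S j` -/
noncomputable def wallS (x : Pi) (j : Fin 3) : Set Pi :=
  {z | aS⁻¹ z ∈ wallN (aS⁻¹ x) (![1, 2, 0] j)}

theorem wallS_eq (x : Pi) (j : Fin 3) : ∃ k : Pi, wallS x j = k • Vl (sty j) := by
  have hty : sty j = nty (![1, 2, 0] j) := by fin_cases j <;> rfl
  rw [hty]
  refine ⟨aS (aS⁻¹ x * (inc (pt (bot (nty (![1, 2, 0] j)))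
    (if (![1, 2, 0] : Fin 3 → Fin 3) j = 2 then 1 else 0)))⁻¹), ?_⟩
  ext z
  rw [mem_smul_Vl, Vl.aSi_aS]
  rfl

theorem notMem_wallS (x : Pi) (j : Fin 3) : x ∉ wallS x j := by
  intro h
  exact notMem_wallN _ _ h

theorem mem_wallS (x : Pi) (j : Fin 3) : x * S j ∈ wallS x j := by
  show aS⁻¹ (x * S j) ∈ wallN (aS⁻¹ x) (![1, 2, 0] j)
  have h : aS⁻¹ (x * S j) = aS⁻¹ x * N (![1, 2, 0] j) := by
    rw [map_mul, aSi_S]
    fin_cases j <;> rfl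
  rw [h]
  exact mem_wallN _ _

theorem card_le_jnum (b : Fin 2) (y : Pi) {T : Type} [Fintype T] (K : T → Set Pi)
    (hK : ∀ t, ∃ k : Pi, K t = k • Vl b) (hc : ∀ t, Cross y (K t))
    (hd : ∀ t t' (m : ℤ), y ^ m • K t = K t' → t = t') : Fintype.card T ≤ jnum b y := by
  rw [jnum_eq]
  refine card_le_inum b (aS⁻¹ y) (fun t => {z | aS z ∈ K t}) ?_ ?_ ?_
  · intro t
    obtain ⟨k, hk⟩ := hK t
    refine ⟨aS⁻¹ k, ?_⟩
    ext z
    show aS z ∈ K t ↔ _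
    rw [hk, mem_smul_Vl, Vl.aSi_aS]
  · intro t
    apply Cross.aut
    have h : {z : Pi | aS⁻¹ z ∈ {z : Pi | aS z ∈ K t}} = K t := by
      ext z
      show aS (aS⁻¹ z) ∈ K t ↔ _
      rw [Vl.aS_aSi]
    rw [h]
    exact hc t
  · intro t t' m h
    apply hd t t' m
    ext x
    have h1 : aS⁻¹ x ∈ (aS⁻¹ y) ^ m • {z : Pi | aS z ∈ K t} ↔ aS⁻¹ x ∈ {z : Pi | aS z ∈ K t'} := by
      rw [h]
    rw [Set.mem_smul_set_iff_inv_smul_mem, smul_eq_mul] at h1 ⊢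
    have h2 : aS (((aS⁻¹ y) ^ m)⁻¹ * aS⁻¹ x) = (y ^ m)⁻¹ * x := by
      rw [map_mul, map_inv, map_zpow, Vl.aS_aSi, Vl.aS_aSi]
    change aS (((aS⁻¹ y) ^ m)⁻¹ * aS⁻¹ x) ∈ K t ↔ aS (aS⁻¹ x) ∈ K t' at h1
    rw [h2, Vl.aS_aSi] at h1
    exact h1

/-- a horizontal word of length `n` crosses at most `n` vertical walls; in particular finitely many -/
theorem sepV_finite (b : Fin 2) (g h : Pi) :
    {K | (∃ k : Pi, K = k • Vl b) ∧ ¬ (g ∈ K ↔ h ∈ K)}.Finite := by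
  refine ((sep_finite b (aS⁻¹ g) (aS⁻¹ h)).image (fun K' => {x : Pi | aS⁻¹ x ∈ K'})).subset ?_
  rintro K ⟨⟨k, rfl⟩, hne⟩
  refine ⟨(aS⁻¹ k) • Wl b, ⟨⟨_, rfl⟩, ?_⟩, (Vl.smul_eq b k).symm⟩
  rwa [mem_smul_Vl, mem_smul_Vl] at hne

end Pool.Agent.VSB
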