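import Pool.Agent.VSB.Nest
import Pool.Agent.VSB.Vert
import Pool.Agent.VSB.LineF
import Pool.Agent.VSB.Cut

/-! # VSB/TwLad: vertical walls through the ladders of an axis

`H : HAx x`. Between the strands `j` and `j + 1` the axis crosses the ladder with sides the line
`g j * inc (f j) • Line (p j)` and the line `g (j + 1) • Line (bar (p j))`; the vertices `k` of the two sides are joined
by a rung. `lv j k` is the vertex `k` of the first side. `LW j k` is the vertical wall through the edge `k → k + 1`.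

* `LW_wall`: `wallS_eq`. `LW_smul`: `wallS` is equivariant (`wallN` is by definition a translate:
`wallN (g * x) j = g • wallN x j`; unfold `wallS`; `aS⁻¹` is a homomorphism), `g_add`, `f_add`, `p_add`.
* `LW_mem`: `LW j k` is `Mono` (`good_smul_Vl`), `lv j (k + 1) = lv j k * S (lt (p j) k)` (`pt_succ`, `inc_of`),
`lv j k ∉ LW j k`, `lv j (k + 1) ∈ LW j k` (`notMem_wallS`, `mem_wallS`); induction on `|l - k|` in both directions.
* `LW_mem'`: the rung does not cross a vertical wall: `lv j l * stp (rung (p j) l) = g (j + 1) * inc (pt (bar (p j)) l)` by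
`rung_eq` and `step`; `rung` is a letter `n` with sign, use `mul_N_mem_Vl` for both signs.
* `Sp j k`: the entry line of the strand `j` and the exit line of the strand `j + 1` are on different sides
(read in the Cayley trees of the strands; `cut_iff`: with `z = lv j k`, `i = lt (p j) k`,
`g j * inc y ∈ LW j k ↔ SW (i, true) ((pt (p j) k)⁻¹ * (f j)⁻¹ * y)`, because `g j * inc y = z * inc (…)`; and on the
strand `j + 1` with `z' = g (j + 1) * inc (pt (bar (p j)) k)`, `i' = lt (bar (p j)) k`: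
`g (j + 1) * inc y ∈ LW j k ↔ SW (i', true) ((pt (bar (p j)) k)⁻¹ * y)`). These are `LW_strand`, `LW_strand'`.
* `LW_nest`: first alternative of `Sp`: the vertices of the entry line `g j • Line (bar (p (j - 1)))` are not in
`K = LW j k`; `Hs (j - 1)ᶜ = g j • Bd (bar (p (j - 1)))` (`Hs_compl`); `side` (file Beyond) with `f = 1` and the point
`lv j (k + 1) ∈ K`, which is in the strand `j`, hence in `Hs (j - 1)` (`mem_Hs`), gives that `K` is disjoint from it, i.e.
`K ⊆ Hs (j - 1)`. The vertices of the exit line `g (j + 1) * inc (f (j + 1)) • Line (p (j + 1))` are in `K`, so not in `Kᶜ`,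
`Kᶜ` is connected and contains the point `g (j + 1) * inc (pt (bar (p j)) k)` of the strand `j + 1` (`LW_mem'`), which is
not in `Hs (j + 1)`; `side` gives `Hs (j + 1) ⊆ K`. The second alternative is the same with `K` and `Kᶜ` exchanged.
* `LW_cross`: `cross_of_nest`, `cross_of_nest'`.
* `LW_distinct`: `x ^ r • LW j k = LW (j + r * n) k` and `Sp (j + r * n) k` by periodicity; so let `r = 0`. Suppose
`j < j'`, `K = LW j k = LW j' k'`. The points `lv j' k' ∉ K` and `lv j' (k' + 1) ∈ K` are in the strand `j'`. If `j + 1 < j'`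
the whole strand `j'` is in `Hs (j + 1)` (`mem_Hs`), hence in `K` or in `Kᶜ` by `LW_nest` of `(j, k)`. If
`j + 1 = j'` they are on the exit line of the strand `j + 1`, which is on one side of `K` by `Sp j k` and `LW_strand'`.
Contradiction. By symmetry `j = j'`, and then `LW_mem` gives `k = k'` (`lv j (k + 1) ∈ K`, `lv j k ∉ K`). -/

set_option autoImplicit false

open scoped Pointwise

namespace Pool.Agent.VSB

theorem wallS_smul (g z : Pi) (j : Fin 3) : g • wallS z j = wallS (g * z) j := by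
  ext y
  rw [Set.mem_smul_set_iff_inv_smul_mem, smul_eq_mul]
  show aS⁻¹ (g⁻¹ * y) ∈ wallN (aS⁻¹ z) (![1, 2, 0] j) ↔
    aS⁻¹ y ∈ wallN (aS⁻¹ (g * z)) (![1, 2, 0] j)
  unfold wallN
  rw [mem_smul_Wl, mem_smul_Wl, map_mul, map_mul, map_inv]
  have h : ∀ u a b v : Pi, (a * u⁻¹)⁻¹ * (b⁻¹ * v) = (b * a * u⁻¹)⁻¹ * v := by
    intro u a b v
    group
  rw [h]

theorem rung_vert (p : Fin 4) (k : ℤ) : ∃ (i : Fin 3) (b : Bool), rung p k = (Lt.n i, b) := by
  unfold rung
  split_ifs <;> exact ⟨_, _, rfl⟩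

/-- a vertical step does not cross a vertical wall -/
theorem mul_vert_mem_Vl (b : Fin 2) (u z : Pi) (i : Fin 3) (e : Bool) :
    z * stp (Lt.n i, e) ∈ u • Vl b ↔ z ∈ u • Vl b := by
  cases e
  · have h := mul_N_mem_Vl b u (z * (N i)⁻¹) i
    rw [inv_mul_cancel_right] at h
    exact h.symm
  · exact mul_N_mem_Vl b u z i

namespace HAx

variable {x : Pi} (H : HAx x)

/-- the vertex `k` of the exit line of the strand `j` -/
def lv (j k : ℤ) : Pi := H.g j * inc (H.f j) * inc (pt (H.p j) k)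

/-- the vertical wall through the edge `k → k + 1` of the ladder `j` -/
noncomputable def LW (j k : ℤ) : Set Pi := wallS (H.lv j k) (lt (H.p j) k)

theorem LW_wall (j k : ℤ) : ∃ u : Pi, H.LW j k = u • Vl (sty (lt (H.p j) k)) :=
  wallS_eq _ _

theorem LW_good (j k : ℤ) : Good (H.LW j k) := by
  obtain ⟨u, hu⟩ := H.LW_wall j k
  rw [hu]
  exact good_smul_Vl _ _

theorem LW_smul (j k r : ℤ) : x ^ r • H.LW j k = H.LW (j + r * H.n) k := by
  unfold LW lv
  rw [wallS_smul, H.g_add, H.f_add, H.p_add]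
  simp only [mul_assoc]

theorem lv_succ (j k : ℤ) : H.lv j k * S (lt (H.p j) k) = H.lv j (k + 1) := by
  unfold lv
  rw [pt_succ, map_mul, inc_of, mul_assoc]

theorem LW_mem (j k l : ℤ) : H.lv j l ∈ H.LW j k ↔ k < l := by
  have hK := H.LW_good j k
  have h0 : H.lv j k ∉ H.LW j k := notMem_wallS _ _
  have h1 : H.lv j (k + 1) ∈ H.LW j k := by
    rw [← H.lv_succ]
    exact mem_wallS _ _
  constructor
  · intro h
    by_contra hkl
    exact h0 (cut_mono' hK.mono _ _ (not_lt.1 hkl) h)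
  · intro h
    exact cut_mono' hK.mono _ _ (show k + 1 ≤ l by omega) h1

theorem lv_rung (j l : ℤ) :
    H.lv j l * stp (rung (H.p j) l) = H.g (j + 1) * inc (pt (bar (H.p j)) l) := by
  unfold lv
  rw [mul_assoc, rung_eq, H.step]
  simp only [mul_assoc]

theorem LW_mem' (j k l : ℤ) : H.g (j + 1) * inc (pt (bar (H.p j)) l) ∈ H.LW j k ↔ k < l := by
  rw [← H.LW_mem, ← H.lv_rung]
  obtain ⟨u, hu⟩ := H.LW_wall j k
  obtain ⟨i, b, hr⟩ := rung_vert (H.p j) l
  rw [hu, hr]
  exact mul_vert_mem_Vl _ _ _ _ _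

theorem LW_strand (j k : ℤ) (y : F) : H.g j * inc y ∈ H.LW j k ↔
    SW (lt (H.p j) k, true) ((pt (H.p j) k)⁻¹ * (H.f j)⁻¹ * y) := by
  have h0 : H.lv j k ∉ H.LW j k := notMem_wallS _ _
  have h1 : H.lv j k * S (lt (H.p j) k) ∈ H.LW j k := mem_wallS _ _
  rw [← cut_iff (H.LW_good j k) h0 h1]
  have e : H.lv j k * inc ((pt (H.p j) k)⁻¹ * (H.f j)⁻¹ * y) = H.g j * inc y := by
    unfold lv
    rw [map_mul, map_mul, map_inv, map_inv]
    group
  rw [e]

theorem LW_strand' (j k : ℤ) (y : F) : H.g (j + 1) * inc y ∈ H.LW j k ↔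
    SW (lt (bar (H.p j)) k, true) ((pt (bar (H.p j)) k)⁻¹ * y) := by
  have h0 : H.g (j + 1) * inc (pt (bar (H.p j)) k) ∉ H.LW j k := by
    rw [H.LW_mem']
    exact lt_irrefl k
  have h1 : H.g (j + 1) * inc (pt (bar (H.p j)) k) * S (lt (bar (H.p j)) k) ∈ H.LW j k := by
    have e : H.g (j + 1) * inc (pt (bar (H.p j)) k) * S (lt (bar (H.p j)) k) =
        H.g (j + 1) * inc (pt (bar (H.p j)) (k + 1)) := by
      rw [pt_succ, map_mul, inc_of, mul_assoc]
    rw [e, H.LW_mem']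
    omega
  rw [← cut_iff (H.LW_good j k) h0 h1]
  have e : H.g (j + 1) * inc (pt (bar (H.p j)) k) * inc ((pt (bar (H.p j)) k)⁻¹ * y) =
      H.g (j + 1) * inc y := by
    rw [map_mul, map_inv]
    group
  rw [e]

/-- the wall `LW j k` separates the entry line of the strand `j` from the exit line of the strand `j + 1` -/
def Sp (j k : ℤ) : Prop :=
  ((∀ y ∈ Line (bar (H.p (j - 1))), ¬ SW (lt (H.p j) k, true) ((pt (H.p j) k)⁻¹ * (H.f j)⁻¹ * y)) ∧
    ∀ y ∈ Line (H.p (j + 1)),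
      SW (lt (bar (H.p j)) k, true) ((pt (bar (H.p j)) k)⁻¹ * H.f (j + 1) * y)) ∨
  ((∀ y ∈ Line (bar (H.p (j - 1))), SW (lt (H.p j) k, true) ((pt (H.p j) k)⁻¹ * (H.f j)⁻¹ * y)) ∧
    ∀ y ∈ Line (H.p (j + 1)),
      ¬ SW (lt (bar (H.p j)) k, true) ((pt (bar (H.p j)) k)⁻¹ * H.f (j + 1) * y))

theorem LW_line (j k : ℤ) (y : F) : H.g (j + 1) * inc (H.f (j + 1)) * inc y ∈ H.LW j k ↔
    SW (lt (bar (H.p j)) k, true) ((pt (bar (H.p j)) k)⁻¹ * H.f (j + 1) * y) := by
  rw [mul_assoc, ← map_mul, H.LW_strand', ← mul_assoc]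

/-- a connected set with connected complement between the lines of two strands -/
theorem two_side {K : Set Pi} (hK : Conn K) (hK' : Conn Kᶜ) (j : ℤ)
    (hin : ∀ y ∈ Line (bar (H.p (j - 1))), H.g j * inc y ∉ K)
    (hout : ∀ y ∈ Line (H.p (j + 1)), H.g (j + 1) * inc (H.f (j + 1)) * inc y ∈ K)
    {v v' : F} (hv : H.g j * inc v ∈ K) (hv' : H.g (j + 1) * inc v' ∉ K) :
    H.Hs (j + 1) ⊆ K ∧ K ⊆ H.Hs (j - 1) := by
  constructor
  · have h1 : Disjoint Kᶜ (H.Hs (j + 1)) := by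
      refine side hK' (fun k => ?_) ⟨_, hv', fun h => ?_⟩
      · rw [Set.mem_compl_iff, not_not]
        exact hout _ ⟨k, rfl⟩
      · exact lt_irrefl (j + 1) ((H.mem_Hs (j + 1) (j + 1) v').1 h)
    intro y hy
    by_contra h2
    exact Set.disjoint_left.1 h1 h2 hy
  · have hc : (H.Hs (j - 1))ᶜ = (H.g j * inc 1) • Bd (bar (H.p (j - 1))) := by
      rw [H.Hs_compl, sub_add_cancel, map_one, mul_one]
    have h1 : Disjoint K ((H.g j * inc 1) • Bd (bar (H.p (j - 1)))) := by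
      refine side hK (fun k => ?_) ⟨_, hv, fun h => ?_⟩
      · rw [map_one, mul_one]
        exact hin _ ⟨k, rfl⟩
      · rw [← hc] at h
        exact h ((H.mem_Hs j (j - 1) v).2 (by omega))
    rw [← hc] at h1
    intro y hy
    by_contra h2
    exact Set.disjoint_left.1 h1 hy h2

theorem lv_eq (j k : ℤ) : H.lv j k = H.g j * inc (H.f j * pt (H.p j) k) := by
  unfold lv
  rw [map_mul, mul_assoc]

theorem LW_nest {j k : ℤ} (h : H.Sp j k) :
    (H.Hs (j + 1) ⊆ H.LW j k ∧ H.LW j k ⊆ H.Hs (j - 1)) ∨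
      (H.Hs (j + 1) ⊆ (H.LW j k)ᶜ ∧ (H.LW j k)ᶜ ⊆ H.Hs (j - 1)) := by
  have hG := H.LW_good j k
  rcases h with ⟨h1, h2⟩ | ⟨h1, h2⟩
  · left
    refine H.two_side hG.conn hG.conn' j (fun y hy => ?_) (fun y hy => ?_)
      (v := H.f j * pt (H.p j) (k + 1)) (v' := pt (bar (H.p j)) k) ?_ ?_
    · rw [H.LW_strand]
      exact h1 y hy
    · rw [H.LW_line]
      exact h2 y hy
    · rw [← H.lv_eq, H.LW_mem]
      omega
    · rw [H.LW_mem']
      exact lt_irrefl k
  · right
    refine H.two_side hG.conn' (by rw [compl_compl]; exact hG.conn) j (fun y hy => ?_)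
      (fun y hy => ?_) (v := H.f j * pt (H.p j) k) (v' := pt (bar (H.p j)) (k + 1)) ?_ ?_
    · rw [Set.mem_compl_iff, not_not, H.LW_strand]
      exact h1 y hy
    · rw [Set.mem_compl_iff, H.LW_line]
      exact h2 y hy
    · rw [← H.lv_eq, Set.mem_compl_iff, H.LW_mem]
      exact lt_irrefl k
    · rw [Set.mem_compl_iff, not_not, H.LW_mem']
      omega

theorem LW_cross {j k : ℤ} (h : H.Sp j k) : Cross x (H.LW j k) := by
  rcases H.LW_nest h with ⟨h1, h2⟩ | ⟨h1, h2⟩
  · exact H.cross_of_nest h1 h2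
  · exact H.cross_of_nest' h1 h2

theorem Sp_add {j k : ℤ} (h : H.Sp j k) (r : ℤ) : H.Sp (j + r * H.n) k := by
  have e1 : j + r * H.n - 1 = j - 1 + r * H.n := by ring
  have e2 : j + r * H.n + 1 = j + 1 + r * H.n := by ring
  unfold Sp at h ⊢
  rw [e1, e2, H.p_add, H.p_add, H.p_add, H.f_add, H.f_add]
  exact h

theorem LW_ne {j k j' k' : ℤ} (h : H.Sp j k) (hj : j < j') : H.LW j k ≠ H.LW j' k' := by
  intro he
  have h0 : H.lv j' k' ∉ H.LW j k := by
    rw [he, H.LW_mem]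
    exact lt_irrefl k'
  have h1 : H.lv j' (k' + 1) ∈ H.LW j k := by
    rw [he, H.LW_mem]
    omega
  rcases lt_or_eq_of_le (show j + 1 ≤ j' by omega) with hj' | hj'
  · have hm : ∀ l : ℤ, H.lv j' l ∈ H.Hs (j + 1) := by
      intro l
      rw [H.lv_eq, H.mem_Hs]
      exact hj'
    rcases H.LW_nest h with ⟨h2, -⟩ | ⟨h2, -⟩
    · exact h0 (h2 (hm _))
    · exact h2 (hm _) h1
  · subst hj'
    have hm : ∀ l : ℤ, H.lv (j + 1) l ∈ H.LW j k ↔
        SW (lt (bar (H.p j)) k, true)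
          ((pt (bar (H.p j)) k)⁻¹ * H.f (j + 1) * pt (H.p (j + 1)) l) := by
      intro l
      unfold lv
      rw [H.LW_line]
    rcases h with ⟨-, h2⟩ | ⟨-, h2⟩
    · exact h0 ((hm _).2 (h2 _ ⟨_, rfl⟩))
    · exact h2 _ ⟨_, rfl⟩ ((hm _).1 h1)

theorem LW_distinct {j k j' k' r : ℤ} (h : H.Sp j k) (h' : H.Sp j' k')
    (he : x ^ r • H.LW j k = H.LW j' k') : j + r * H.n = j' ∧ k = k' := by
  rw [H.LW_smul] at he
  have hs := H.Sp_add h r
  have hj : j + r * H.n = j' := by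
    rcases lt_trichotomy (j + r * H.n) j' with h1 | h1 | h1
    · exact absurd he (H.LW_ne hs h1)
    · exact h1
    · exact absurd he.symm (H.LW_ne h' h1)
  refine ⟨hj, ?_⟩
  rw [hj] at he
  have h1 := H.LW_mem j' k (k + 1)
  have h2 := H.LW_mem j' k' (k' + 1)
  have h3 := H.LW_mem j' k (k' + 1)
  have h4 := H.LW_mem j' k' (k + 1)
  rw [he] at h1 h3
  have h5 : k' < k + 1 := h4.1 (h1.2 (by omega))
  have h6 : k < k' + 1 := h3.1 (h2.2 (by omega))
  omega

end HAx

end Pool.Agent.VSB
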