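import Pool.Agent.VSB.Defs

/-! # VSB/Wall: the base walls

`Src a g j` : the edge `g → g * N j` is a rung of the base ladder of type `a` (its bottom vertices are
`inc (pt (bot a) k)`).

PROOF of `exists_wall`. Let `ω g j = 1` if `Src a g j`, else `0` (classical). Define permutations of
`Pi × ℤ`: for `S j`: `(g, m) ↦ (g * (S j)⁻¹, m)`, for `N j`: the inverse of `(g, m) ↦ (g * N j, m + ω g j)`.
They satisfy the three relations because `Src a (g * S 0) 0 ↔ Src a g 0`,
`Src a (g * S 1) 2 ↔ Src a g 1`, `Src a (g * S 2) 1 ↔ Src a g 2` (`pt_succ`, `lt`, `rung`: shift `k` by one),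
so `toHom` gives `Θ : Pi →* Equiv.Perm (Pi × ℤ)` with `(Θ g⁻¹ (1, 0)).1 = g`; put
`φ g = (Θ g⁻¹ (1, 0)).2`. Then `φ 1 = 0`, `φ (g * S j) = φ g`, `φ (g * N j) = φ g + ω g j`. Since
`inc f` is a product of `S j ^ ±1`, `φ (inc f) = 0`, so `φ g = 0` whenever `Src a g j`. By induction over
words (the `S j`, `N j` generate: `PresentedGroup` induction or `FreeGroup.induction_on`, with
`e1_eq` etc.) `φ g ∈ {0, 1}` for all `g`. Take `W = {g | φ g = 1}`.

`Wl_smul_c`: by induction over words (starting at `1`) `g ∈ Wl a ↔ (inc (c (bot a)))⁻¹ * g ∈ Wl a`,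
since `Src a` is invariant under left multiplication by `inc (c (bot a)) = inc (pt ..)`:
`c (bot 0) * pt 0 k = pt 0 (k + 1)`, `c (bot 1) * pt 2 k = pt 2 (k + 2)`. -/

set_option autoImplicit false

open scoped Pointwise

namespace Pool.Agent.VSB

/-- bottom side of the cylinder `C a` -/
def bot (a : Fin 2) : Fin 4 := ![0, 2] a

/-- the edge `g → g * N j` is a rung of the base ladder of type `a` -/
def Src (a : Fin 2) (g : Pi) (j : Fin 3) : Prop :=
  ∃ k : ℤ, g = inc (pt (bot a) k) ∧ rung (bot a) k = (Lt.n j, true)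

theorem wall_Src_zero (g : Pi) (j : Fin 3) :
    Src 0 g j ↔ j = 0 ∧ ∃ k : ℤ, g = S 0 ^ k := by
  have hpt : ∀ k : ℤ, inc (pt 0 k) = S 0 ^ k := by
    intro k
    have : pt 0 k = FreeGroup.of 0 ^ k := by simp [pt, c]
    rw [this, map_zpow, inc_of]
  constructor
  · rintro ⟨k, hk, hr⟩
    have hr' : (Lt.n 0, true) = (Lt.n j, true) := hr
    have hj : Lt.n 0 = Lt.n j := congrArg Prod.fst hr'
    injection hj with hj
    refine ⟨hj.symm, k, ?_⟩
    rw [hk]
    exact hpt k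
  · rintro ⟨rfl, k, rfl⟩
    exact ⟨k, (hpt k).symm, rfl⟩

theorem wall_pt_two (k : ℤ) : inc (pt 2 k) =
    (S 1 * S 2) ^ (k / 2) * (if k % 2 = 0 then 1 else S 1) := by
  have h1 : pt 2 k = (FreeGroup.of 1 * FreeGroup.of 2) ^ (k / 2) *
      (if k % 2 = 0 then 1 else FreeGroup.of 1) := by
    simp [pt, c, lt]
  rw [h1, map_mul, map_zpow, map_mul, inc_of, inc_of]
  split_ifs
  · rw [map_one]
  · rw [inc_of]

theorem wall_rung_two (k : ℤ) : rung 2 k = if k % 2 = 0 then (.n 1, true) else (.n 2, true) := by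
  simp [rung]

theorem wall_Src_one (g : Pi) (j : Fin 3) :
    Src 1 g j ↔ (j = 1 ∧ ∃ k : ℤ, g = (S 1 * S 2) ^ k) ∨
      (j = 2 ∧ ∃ k : ℤ, g = (S 1 * S 2) ^ k * S 1) := by
  constructor
  · rintro ⟨k, hk, hr⟩
    have hk' : g = inc (pt 2 k) := hk
    have hr' : rung 2 k = (Lt.n j, true) := hr
    rw [wall_pt_two] at hk'
    rw [wall_rung_two] at hr'
    by_cases h0 : k % 2 = 0
    · rw [if_pos h0] at hk' hr'
      have hj : Lt.n 1 = Lt.n j := congrArg Prod.fst hr'
      injection hj with hj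
      left
      exact ⟨hj.symm, k / 2, by rw [hk', mul_one]⟩
    · rw [if_neg h0] at hk' hr'
      have hj : Lt.n 2 = Lt.n j := congrArg Prod.fst hr'
      injection hj with hj
      right
      exact ⟨hj.symm, k / 2, hk'⟩
  · rintro (⟨rfl, k, rfl⟩ | ⟨rfl, k, rfl⟩)
    · refine ⟨2 * k, ?_, ?_⟩
      · show _ = inc (pt 2 (2 * k))
        rw [wall_pt_two, if_pos (by omega), mul_one]
        congr 1
        omega
      · show rung 2 (2 * k) = _
        rw [wall_rung_two, if_pos (by omega)]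
    · refine ⟨2 * k + 1, ?_, ?_⟩
      · show _ = inc (pt 2 (2 * k + 1))
        rw [wall_pt_two, if_neg (by omega)]
        congr 2
        omega
      · show rung 2 (2 * k + 1) = _
        rw [wall_rung_two, if_neg (by omega)]

theorem wall_src0 (a : Fin 2) (h : Pi) : Src a (h * S 0) 0 ↔ Src a h 0 := by
  fin_cases a
  · show Src 0 (h * S 0) 0 ↔ Src 0 h 0
    rw [wall_Src_zero, wall_Src_zero]
    constructor
    · rintro ⟨_, k, hk⟩
      refine ⟨rfl, k - 1, ?_⟩
      rw [zpow_sub_one, ← hk]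
      group
    · rintro ⟨_, k, hk⟩
      refine ⟨rfl, k + 1, ?_⟩
      rw [zpow_add_one, ← hk]
  · show Src 1 (h * S 0) 0 ↔ Src 1 h 0
    rw [wall_Src_one, wall_Src_one]
    simp

theorem wall_src1 (a : Fin 2) (h : Pi) : Src a (h * S 1) 2 ↔ Src a h 1 := by
  fin_cases a
  · show Src 0 (h * S 1) 2 ↔ Src 0 h 1
    rw [wall_Src_zero, wall_Src_zero]
    simp
  · show Src 1 (h * S 1) 2 ↔ Src 1 h 1
    rw [wall_Src_one, wall_Src_one]
    simp

theorem wall_src2 (a : Fin 2) (h : Pi) : Src a (h * S 2) 1 ↔ Src a h 2 := by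
  fin_cases a
  · show Src 0 (h * S 2) 1 ↔ Src 0 h 2
    rw [wall_Src_zero, wall_Src_zero]
    simp
  · show Src 1 (h * S 2) 1 ↔ Src 1 h 2
    rw [wall_Src_one, wall_Src_one]
    constructor
    · rintro (⟨_, k, hk⟩ | ⟨h2, _⟩)
      · right
        refine ⟨rfl, k - 1, ?_⟩
        rw [zpow_sub_one, ← hk]
        group
      · exact absurd h2 (by decide)
    · rintro (⟨h2, _⟩ | ⟨_, k, hk⟩)
      · exact absurd h2 (by decide)
      · left
        refine ⟨rfl, k + 1, ?_⟩
        rw [zpow_add_one, hk]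
        group

open Classical in
/-- the cocycle -/
noncomputable def wom (a : Fin 2) (g : Pi) (j : Fin 3) : ℤ := if Src a g j then 1 else 0

theorem wom_pos {a : Fin 2} {g : Pi} {j : Fin 3} (h : Src a g j) : wom a g j = 1 := by
  unfold wom
  rw [if_pos h]

theorem wom_neg {a : Fin 2} {g : Pi} {j : Fin 3} (h : ¬ Src a g j) : wom a g j = 0 := by
  unfold wom
  rw [if_neg h]

theorem wom_congr {a : Fin 2} {g g' : Pi} {j j' : Fin 3} (h : Src a g j ↔ Src a g' j') :
    wom a g j = wom a g' j' := by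
  by_cases h1 : Src a g j
  · rw [wom_pos h1, wom_pos (h.mp h1)]
  · rw [wom_neg h1, wom_neg (fun h2 => h1 (h.mpr h2))]

def wS (j : Fin 3) : Equiv.Perm (Pi × ℤ) where
  toFun x := (x.1 * (S j)⁻¹, x.2)
  invFun x := (x.1 * S j, x.2)
  left_inv x := by simp
  right_inv x := by simp

noncomputable def wN (a : Fin 2) (j : Fin 3) : Equiv.Perm (Pi × ℤ) where
  toFun x := (x.1 * (N j)⁻¹, x.2 - wom a (x.1 * (N j)⁻¹) j)
  invFun x := (x.1 * N j, x.2 + wom a x.1 j)
  left_inv x := by simp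
  right_inv x := by simp

theorem wS_apply (j : Fin 3) (x : Pi × ℤ) : wS j x = (x.1 * (S j)⁻¹, x.2) := rfl

theorem wN_apply (a : Fin 2) (j : Fin 3) (x : Pi × ℤ) :
    wN a j x = (x.1 * (N j)⁻¹, x.2 - wom a (x.1 * (N j)⁻¹) j) := rfl

theorem wrel0 (a : Fin 2) : wS 0 * wN a 0 = wN a 0 * wS 1 := by
  ext x
  · rw [Equiv.Perm.mul_apply, Equiv.Perm.mul_apply]
    simp only [wS_apply, wN_apply]
    rw [mul_assoc, mul_assoc, ← mul_inv_rev, ← mul_inv_rev, rel0]
  · rw [Equiv.Perm.mul_apply, Equiv.Perm.mul_apply]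
    simp only [wS_apply, wN_apply]
    have h : x.1 * (N 0)⁻¹ = x.1 * (S 1)⁻¹ * (N 0)⁻¹ * S 0 := by
      have h1 : (S 1)⁻¹ * (N 0)⁻¹ * S 0 = (N 0)⁻¹ := by
        rw [← mul_inv_rev, ← rel0]
        group
      rw [mul_assoc, mul_assoc, ← mul_assoc (S 1)⁻¹, h1]
    rw [h, wom_congr (wall_src0 a _)]

theorem wrel1 (a : Fin 2) : wS 1 * wN a 2 = wN a 1 * wS 0 := by
  ext x
  · rw [Equiv.Perm.mul_apply, Equiv.Perm.mul_apply]
    simp only [wS_apply, wN_apply]
    rw [mul_assoc, mul_assoc, ← mul_inv_rev, ← mul_inv_rev, rel1]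
  · rw [Equiv.Perm.mul_apply, Equiv.Perm.mul_apply]
    simp only [wS_apply, wN_apply]
    have h : x.1 * (N 2)⁻¹ = x.1 * (S 0)⁻¹ * (N 1)⁻¹ * S 1 := by
      have h1 : (S 0)⁻¹ * (N 1)⁻¹ * S 1 = (N 2)⁻¹ := by
        rw [← mul_inv_rev, ← rel1]
        group
      rw [mul_assoc, mul_assoc, ← mul_assoc (S 0)⁻¹, h1]
    rw [h, wom_congr (wall_src1 a _)]

theorem wrel2 (a : Fin 2) : wS 2 * wN a 1 = wN a 2 * wS 2 := by
  ext x
  · rw [Equiv.Perm.mul_apply, Equiv.Perm.mul_apply]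
    simp only [wS_apply, wN_apply]
    rw [mul_assoc, mul_assoc, ← mul_inv_rev, ← mul_inv_rev, rel2]
  · rw [Equiv.Perm.mul_apply, Equiv.Perm.mul_apply]
    simp only [wS_apply, wN_apply]
    have h : x.1 * (N 1)⁻¹ = x.1 * (S 2)⁻¹ * (N 2)⁻¹ * S 2 := by
      have h1 : (S 2)⁻¹ * (N 2)⁻¹ * S 2 = (N 1)⁻¹ := by
        rw [← mul_inv_rev, ← rel2]
        group
      rw [mul_assoc, mul_assoc, ← mul_assoc (S 2)⁻¹, h1]
    rw [h, wom_congr (wall_src2 a _)]

noncomputable def wTh (a : Fin 2) : Pi →* Equiv.Perm (Pi × ℤ) :=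
  toHom wS (wN a) (wrel0 a) (wrel1 a) (wrel2 a)

theorem wTh_S (a : Fin 2) (j : Fin 3) : wTh a (S j) = wS j := toHom_S _ _ _ j

theorem wTh_N (a : Fin 2) (j : Fin 3) : wTh a (N j) = wN a j := toHom_N _ _ _ j

/-- a subgroup which contains the letters is everything -/
theorem wall_top {K : Subgroup Pi} (hS : ∀ j, S j ∈ K) (hN : ∀ j, N j ∈ K) (g : Pi) : g ∈ K := by
  have hle : Subgroup.closure (Set.range (PresentedGroup.of (rels := rels))) ≤ K := by
    rw [Subgroup.closure_le]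
    rintro x ⟨i, rfl⟩
    show e i ∈ K
    fin_cases i
    · show e 0 ∈ K
      rw [e0_eq]
      exact hS 2
    · show e 1 ∈ K
      rw [e1_eq]
      exact K.mul_mem (hS 1) (hN 2)
    · show e 2 ∈ K
      rw [e2_eq]
      exact hN 0
    · show e 3 ∈ K
      rw [e3_eq]
      exact K.inv_mem (K.mul_mem (hN 0) (hS 1))
    · show e 4 ∈ K
      rw [e4_eq]
      exact K.inv_mem (K.mul_mem (hN 2) (hS 2))
  rw [PresentedGroup.closure_range_of] at hle
  exact hle (Subgroup.mem_top g)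

/-- induction over words in the letters -/
theorem wall_induction {P : Pi → Prop} (h1 : P 1) (hS : ∀ g j, P g ↔ P (g * S j))
    (hN : ∀ g j, P g ↔ P (g * N j)) (g : Pi) : P g := by
  let K : Subgroup Pi :=
    { carrier := {x | ∀ g, P g ↔ P (g * x)}
      mul_mem' := by
        intro x y hx hy g
        rw [hx g, hy (g * x), mul_assoc]
      one_mem' := by
        intro g
        rw [mul_one]
      inv_mem' := by
        intro x hx g
        have h := hx (g * x⁻¹)
        rw [inv_mul_cancel_right] at h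
        exact h.symm }
  have hg : g ∈ K := wall_top (K := K) (fun j g => hS g j) (fun j g => hN g j) g
  have h2 := (hg 1).mp h1
  rwa [one_mul] at h2

theorem wTh_fst (a : Fin 2) (g : Pi) : ∀ x : Pi × ℤ, (wTh a g x).1 = x.1 * g⁻¹ := by
  let K : Subgroup Pi :=
    { carrier := {g | ∀ x : Pi × ℤ, (wTh a g x).1 = x.1 * g⁻¹}
      mul_mem' := by
        intro g h hg hh x
        rw [map_mul, Equiv.Perm.mul_apply, hg, hh, mul_inv_rev, mul_assoc]
      one_mem' := by
        intro x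
        rw [map_one, Equiv.Perm.one_apply, inv_one, mul_one]
      inv_mem' := by
        intro g hg x
        have h := hg (wTh a g⁻¹ x)
        rw [← Equiv.Perm.mul_apply, ← map_mul, mul_inv_cancel, map_one,
          Equiv.Perm.one_apply] at h
        rw [inv_inv, h, inv_mul_cancel_right] }
  refine wall_top (K := K) (fun j x => ?_) (fun j x => ?_) g
  · rw [wTh_S]
    rfl
  · rw [wTh_N]
    rfl

/-- the height -/
noncomputable def wph (a : Fin 2) (g : Pi) : ℤ := (wTh a g⁻¹ (1, 0)).2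

theorem wTh_inv_apply (a : Fin 2) (g : Pi) : wTh a g⁻¹ (1, 0) = (g, wph a g) := by
  apply Prod.ext
  · rw [wTh_fst, inv_inv, one_mul]
  · rfl

theorem wph_one (a : Fin 2) : wph a 1 = 0 := by
  unfold wph
  rw [inv_one, map_one]
  rfl

theorem wph_S (a : Fin 2) (g : Pi) (j : Fin 3) : wph a (g * S j) = wph a g := by
  have h : wTh a (g * S j)⁻¹ (1, 0) = (wS j).symm (g, wph a g) := by
    rw [mul_inv_rev, map_mul, Equiv.Perm.mul_apply, wTh_inv_apply, map_inv, wTh_S]
    rfl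
  unfold wph
  rw [h]
  rfl

theorem wph_N (a : Fin 2) (g : Pi) (j : Fin 3) : wph a (g * N j) = wph a g + wom a g j := by
  have h : wTh a (g * N j)⁻¹ (1, 0) = (wN a j).symm (g, wph a g) := by
    rw [mul_inv_rev, map_mul, Equiv.Perm.mul_apply, wTh_inv_apply, map_inv, wTh_N]
    rfl
  have h2 : wph a (g * N j) = ((wN a j).symm (g, wph a g)).2 := by
    unfold wph at h ⊢
    rw [h]
  rw [h2]
  rfl

theorem wph_mul_inc (a : Fin 2) (f : F) : ∀ g : Pi, wph a (g * inc f) = wph a g := by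
  induction f using FreeGroup.induction_on with
  | C1 =>
    intro g
    rw [map_one, mul_one]
  | of i =>
    intro g
    have : inc (FreeGroup.of i) = S i := inc_of i
    rw [this, wph_S]
  | inv_of i _ =>
    intro g
    have : inc ((FreeGroup.of i)⁻¹) = (S i)⁻¹ := by rw [map_inv, inc_of]
    rw [this, ← wph_S a (g * (S i)⁻¹) i, inv_mul_cancel_right]
  | mul x y hx hy =>
    intro g
    rw [map_mul, ← mul_assoc, hy, hx]

theorem wph_of_Src {a : Fin 2} {g : Pi} {j : Fin 3} (h : Src a g j) : wph a g = 0 := by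
  obtain ⟨k, hk, _⟩ := h
  rw [hk, ← one_mul (inc _), wph_mul_inc, wph_one]

theorem wph_range (a : Fin 2) (g : Pi) : wph a g = 0 ∨ wph a g = 1 := by
  refine wall_induction (P := fun g => wph a g = 0 ∨ wph a g = 1) (Or.inl (wph_one a))
    (fun g j => ?_) (fun g j => ?_) g
  · rw [wph_S]
  · rw [wph_N]
    by_cases h : Src a g j
    · rw [wom_pos h, wph_of_Src h]
      simp
    · rw [wom_neg h, add_zero]

theorem exists_wall (a : Fin 2) : ∃ W : Set Pi, 1 ∉ W ∧ (∀ g j, g * S j ∈ W ↔ g ∈ W) ∧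
    (∀ g j, g * N j ∈ W ↔ (g ∈ W ∨ Src a g j)) ∧ ∀ g j, Src a g j → g ∉ W := by
  refine ⟨{g | wph a g = 1}, ?_, ?_, ?_, ?_⟩
  · intro h
    have h1 : wph a 1 = 1 := h
    rw [wph_one] at h1
    exact absurd h1 (by norm_num)
  · intro g j
    show wph a (g * S j) = 1 ↔ wph a g = 1
    rw [wph_S]
  · intro g j
    show wph a (g * N j) = 1 ↔ (wph a g = 1 ∨ Src a g j)
    rw [wph_N]
    by_cases h : Src a g j
    · rw [wom_pos h, wph_of_Src h]
      simp [h]
    · rw [wom_neg h, add_zero]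
      simp [h]
  · intro g j h hg
    have h1 : wph a g = 1 := hg
    rw [wph_of_Src h] at h1
    exact absurd h1 (by norm_num)

/-- the base halfspace of type `a`: the side of `N`-end of the rungs -/
noncomputable def Wl (a : Fin 2) : Set Pi := (exists_wall a).choose

theorem one_notMem_Wl (a : Fin 2) : 1 ∉ Wl a := (exists_wall a).choose_spec.1

theorem mul_S_mem_Wl (a : Fin 2) (g : Pi) (j : Fin 3) : g * S j ∈ Wl a ↔ g ∈ Wl a :=
  (exists_wall a).choose_spec.2.1 g j

theorem mul_N_mem_Wl (a : Fin 2) (g : Pi) (j : Fin 3) :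
    g * N j ∈ Wl a ↔ (g ∈ Wl a ∨ Src a g j) :=
  (exists_wall a).choose_spec.2.2.1 g j

theorem Src.notMem {a : Fin 2} {g : Pi} {j : Fin 3} (h : Src a g j) : g ∉ Wl a :=
  (exists_wall a).choose_spec.2.2.2 g j h

/-- induction over words in the letters -/
theorem letter_induction {P : Pi → Prop} (h1 : P 1) (hS : ∀ g j, P g ↔ P (g * S j))
    (hN : ∀ g j, P g ↔ P (g * N j)) (g : Pi) : P g := wall_induction h1 hS hN g

theorem mul_inc_mem_Wl (a : Fin 2) (g : Pi) (f : F) : g * inc f ∈ Wl a ↔ g ∈ Wl a := by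
  induction f using FreeGroup.induction_on generalizing g with
  | C1 => rw [map_one, mul_one]
  | of i =>
    have : inc (FreeGroup.of i) = S i := inc_of i
    rw [this, mul_S_mem_Wl]
  | inv_of i _ =>
    have : inc ((FreeGroup.of i)⁻¹) = (S i)⁻¹ := by rw [map_inv, inc_of]
    rw [this, ← mul_S_mem_Wl a (g * (S i)⁻¹) i, inv_mul_cancel_right]
  | mul x y hx hy => rw [map_mul, ← mul_assoc, hy, hx]

theorem inc_notMem_Wl (a : Fin 2) (f : F) : inc f ∉ Wl a := by
  rw [← one_mul (inc f), mul_inc_mem_Wl]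
  exact one_notMem_Wl a

theorem Src_mul_c (a : Fin 2) (g : Pi) (j : Fin 3) :
    Src a (inc (c (bot a)) * g) j ↔ Src a g j := by
  have key : ∀ x : Pi, (∃ k : ℤ, x * g = x ^ k) ↔ ∃ k : ℤ, g = x ^ k := by
    intro x
    constructor
    · rintro ⟨k, hk⟩
      refine ⟨k - 1, ?_⟩
      rw [sub_eq_neg_add, zpow_add, zpow_neg_one, ← hk, inv_mul_cancel_left]
    · rintro ⟨k, hk⟩
      refine ⟨k + 1, ?_⟩
      rw [hk, add_comm, zpow_add, zpow_one]
  have key2 : ∀ x y : Pi, (∃ k : ℤ, x * g = x ^ k * y) ↔ ∃ k : ℤ, g = x ^ k * y := by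
    intro x y
    constructor
    · rintro ⟨k, hk⟩
      refine ⟨k - 1, ?_⟩
      rw [sub_eq_neg_add, zpow_add, zpow_neg_one, mul_assoc, ← hk, inv_mul_cancel_left]
    · rintro ⟨k, hk⟩
      refine ⟨k + 1, ?_⟩
      rw [hk, add_comm, zpow_add, zpow_one, mul_assoc]
  fin_cases a
  · show Src 0 (inc (c 0) * g) j ↔ Src 0 g j
    have h0 : inc (c 0) = S 0 := inc_of 0
    rw [h0, wall_Src_zero, wall_Src_zero, key]
  · show Src 1 (inc (c 2) * g) j ↔ Src 1 g j
    have h0 : inc (c 2) = S 1 * S 2 := by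
      show inc (FreeGroup.of 1 * FreeGroup.of 2) = _
      rw [map_mul, inc_of, inc_of]
    rw [h0, wall_Src_one, wall_Src_one, key, key2]

theorem Wl_smul_c (a : Fin 2) : inc (c (bot a)) • Wl a = Wl a := by
  ext g
  rw [Set.mem_smul_set_iff_inv_smul_mem, smul_eq_mul]
  have h : g ∈ Wl a ↔ (inc (c (bot a)))⁻¹ * g ∈ Wl a := by
    refine letter_induction (P := fun g => g ∈ Wl a ↔ (inc (c (bot a)))⁻¹ * g ∈ Wl a) ?_
      (fun g j => ?_) (fun g j => ?_) g
    · constructor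
      · intro h1
        exact absurd h1 (one_notMem_Wl a)
      · intro h1
        rw [mul_one, ← map_inv] at h1
        exact absurd h1 (inc_notMem_Wl a _)
    · rw [← mul_assoc, mul_S_mem_Wl, mul_S_mem_Wl]
    · have hs : Src a ((inc (c (bot a)))⁻¹ * g) j ↔ Src a g j := by
        rw [← Src_mul_c a ((inc (c (bot a)))⁻¹ * g) j, mul_inv_cancel_left]
      rw [← mul_assoc, mul_N_mem_Wl, mul_N_mem_Wl, hs]
      by_cases h1 : Src a g j
      · have h2 := h1.notMem
        have h3 := (hs.mpr h1).notMem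
        simp [h1, h2, h3]
      · simp [h1]
  exact h.symm

theorem mem_smul_Wl (a : Fin 2) (k g : Pi) : g ∈ k • Wl a ↔ k⁻¹ * g ∈ Wl a := by
  rw [Set.mem_smul_set_iff_inv_smul_mem, smul_eq_mul]

end Pool.Agent.VSB
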